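import Pool.Agent.X32.Uni.Prog

/-!
Systems of linear forms.
-/

set_option autoImplicit false

namespace Pool.Agent.X32.Uni

open Finset Filter
open scoped Polynomial

variable {k : ℕ}

/-- the linear polynomials -/
noncomputable def lf (a b : Fin k → ℤ) (i : Fin k) : ℤ[X] := Polynomial.C (a i) * Polynomial.X + Polynomial.C (b i)

theorem lf_eval (a b : Fin k → ℤ) (i : Fin k) (x : ℤ) : (lf a b i).eval x = a i * x + b i := by
  unfold lf
  simp

theorem lf_deg (a b : Fin k → ℤ) (i : Fin k) (h : a i ≠ 0) : (lf a b i).natDegree = 1 :=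
  Polynomial.natDegree_linear h

theorem lf_coeff1 (a b : Fin k → ℤ) (i : Fin k) : (lf a b i).coeff 1 = a i := by
  unfold lf
  rw [Polynomial.coeff_add, Polynomial.coeff_C_mul, Polynomial.coeff_X_one, Polynomial.coeff_C,
    if_neg one_ne_zero, mul_one, add_zero]

theorem lf_coeff0 (a b : Fin k → ℤ) (i : Fin k) : (lf a b i).coeff 0 = b i := by
  unfold lf
  rw [Polynomial.coeff_add, Polynomial.coeff_C_mul, Polynomial.coeff_X_zero, Polynomial.coeff_C, if_pos rfl,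
    mul_zero, zero_add]

/-- no prime divides one of the forms for every integer -/
def AdmL (a b : Fin k → ℤ) : Prop := ∀ p : ℕ, p.Prime → ∃ n : ℤ, ∀ i, ¬ (p : ℤ) ∣ a i * n + b i

theorem loc_lf {a b : Fin k → ℤ} (h : AdmL a b) : Loc (lf a b) := by
  intro p hp
  obtain ⟨n, hn⟩ := h p hp
  refine ⟨n, fun hd => ?_⟩
  obtain ⟨i, _, hi⟩ := (Nat.prime_iff_prime_int.1 hp).exists_mem_finset_dvd hd
  rw [lf_eval] at hi
  exact hn i hi

/-- the number of the zeros modulo `p` -/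
def omL (a b : Fin k → ℤ) (p : ℕ) : ℕ :=
  ((range p).filter (fun n : ℕ => (p : ℤ) ∣ ∏ i, (a i * (n : ℤ) + b i))).card

theorem om_lf (a b : Fin k → ℤ) (p : ℕ) : om (lf a b) p = omL a b p := by
  unfold om omL
  simp only [lf_eval]

/-- the product of `1 - ω(p) / p` over the primes `p ≤ X` -/
noncomputable def VL (a b : Fin k → ℤ) (X : ℕ) : ℝ :=
  ∏ p ∈ (Icc 1 X).filter Nat.Prime, (1 - (omL a b p : ℝ) / p)

theorem V_lf (a b : Fin k → ℤ) (X : ℕ) : V (lf a b) X = VL a b X := by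
  unfold V VL
  simp only [om_lf]

open Classical in
/-- the good arguments -/
noncomputable def GoodL (a b : Fin k → ℤ) (i j : Fin k) (t X A B : ℕ) : Finset ℕ :=
  (Ioc A B).filter (fun x : ℕ => (a i * (x : ℤ) + b i).natAbs.Prime ∧
    Almost 2 ((X : ℝ) ^ (1 / 9 : ℝ)) (a j * (x : ℤ) + b j) ∧
    ∀ l, Almost t ((X : ℝ) ^ (1 / (t : ℝ))) (a l * (x : ℤ) + b l))

theorem GoodX_lf {a : Fin k → ℤ} (ha : ∀ l, a l ≠ 0) (b : Fin k → ℤ) (i j : Fin k) (t X A B : ℕ) :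
    GoodX (lf a b) i j t X A B = GoodL a b i j t X A B := by
  ext x
  unfold GoodX GoodL
  simp only [mem_filter, lf_eval, lf_deg a b _ (ha _), mul_one]

/-- the hypotheses -/
structure SysL (k E K X : ℕ) (a b : Fin k → ℤ) (i j : Fin k) : Prop where
  a0 : ∀ l, a l ≠ 0
  aE : (a i).natAbs ≤ E
  aE' : (a j).natAbs ≤ E
  aK : ∀ l, |a l| ≤ K
  bK : ∀ l, |b l| ≤ K * (X : ℤ)
  adm : AdmL a b
  ne : (a j, b j) ≠ (a i, b i)
  ne' : (a j, b j) ≠ (- a i, - b i)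

theorem SysL.sys {E K X : ℕ} {a b : Fin k → ℤ} {i j : Fin k} (S : SysL k E K X a b i j) :
    Sys k E (2 * K) X (lf a b) i j where
  deg l := by rw [lf_deg a b l (S.a0 l)]
  sum := by
    simp only [lf_deg a b _ (S.a0 _)]
    simp
  loc := loc_lf S.adm
  size l x h0 h1 := by
    rw [lf_deg a b l (S.a0 l), pow_one, lf_eval]
    have h2 : |a l * x| ≤ K * X := by
      rw [abs_mul, abs_of_nonneg h0]
      exact mul_le_mul (S.aK l) h1 h0 (by positivity)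
    have h3 := S.bK l
    have h4 := abs_add_le (a l * x) (b l)
    push_cast
    linarith
  di := lf_deg a b i (S.a0 i)
  dj := lf_deg a b j (S.a0 j)
  ei := by rw [lf_coeff1]; exact S.aE
  ej := by rw [lf_coeff1]; exact S.aE'
  ne h := by
    apply S.ne
    have h1 := congrArg (fun g : ℤ[X] => g.coeff 1) h
    have h2 := congrArg (fun g : ℤ[X] => g.coeff 0) h
    simp only [lf_coeff1, lf_coeff0] at h1 h2
    rw [h1, h2]
  ne' h := by
    apply S.ne'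
    have h1 := congrArg (fun g : ℤ[X] => g.coeff 1) h
    have h2 := congrArg (fun g : ℤ[X] => g.coeff 0) h
    simp only [Polynomial.coeff_neg, lf_coeff1, lf_coeff0] at h1 h2
    rw [h1, h2]

/-- **The theorem for linear forms** -/
theorem linU (k E : ℕ) (hk : 1 ≤ k) : ∃ t : ℕ, 1 ≤ t ∧ ∃ κ : ℝ, 0 < κ ∧ ∀ θ : ℝ, 0 < θ → ∀ K : ℕ,
    (∃ X₀ : ℕ, ∀ X : ℕ, X₀ ≤ X → ∀ (a b : Fin k → ℤ) (i j : Fin k), SysL k E K X a b i j →
      κ / Real.log X ^ k ≤ VL a b X ∧ ∀ A B : ℕ, B ≤ X → θ * X ≤ (B : ℝ) - A →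
        κ * ((B : ℝ) - A) * VL a b X ≤ ((GoodL a b i j t X A B).card : ℝ)) ∧
    ∀ r : ℕ, ∀ δ : ℝ, 0 < δ → ∃ C X₀ : ℕ,
      ∀ X : ℕ, X₀ ≤ X → ∀ (a b : Fin k → ℤ) (i j : Fin k), SysL k E K X a b i j →
      ∀ A B : ℕ, B ≤ X → θ * X ≤ (B : ℝ) - A →
        ∀ S : Finset ℕ, S ⊆ GoodL a b i j t X A B → δ * ((GoodL a b i j t X A B).card : ℝ) ≤ S.card →
        ∃ x h : ℕ, 1 ≤ h ∧ (h : ℝ) ≤ Real.log X ^ C ∧ ∀ l < r, x + l * h ∈ S := by
  classical
  obtain ⟨t, ht, κ, hκ, H⟩ := progU k E hk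
  refine ⟨t, ht, κ, hκ, fun θ hθ K => ?_⟩
  obtain ⟨⟨X₁, h1⟩, h2⟩ := H θ hθ (2 * K)
  refine ⟨⟨X₁, fun X hX a b i j S => ?_⟩, fun r δ hδ => ?_⟩
  · have h3 := h1 X hX k (lf a b) i j S.sys
    rw [V_lf] at h3
    refine ⟨h3.1, fun A B hB hAB => ?_⟩
    rw [← GoodX_lf S.a0]
    exact h3.2 A B hB hAB
  · obtain ⟨C, X₂, h3⟩ := h2 r δ hδ
    refine ⟨C, X₂, fun X hX a b i j S A B hB hAB => ?_⟩
    rw [← GoodX_lf S.a0]
    exact h3 X hX k (lf a b) i j S.sys A B hB hAB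

end Pool.Agent.X32.Uni
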