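import Pool.Agent.X32.Uni.Cons

/-!
The equation `a p - b q = c`, uniformly in `c`.
-/

set_option autoImplicit false

namespace Pool.Agent.X32.Uni

open Finset Filter

/-- the zero of a linear form modulo a prime -/
theorem lin_root {l : ℕ} (hl : l.Prime) {α : ℤ} (hα : ¬ (l : ℤ) ∣ α) (β : ℤ) :
    ∃ ρ : ℕ, ρ < l ∧ ∀ n : ℕ, n < l → ((l : ℤ) ∣ α * n + β ↔ n = ρ) := by
  have hl0 : (0 : ℤ) < l := by exact_mod_cast hl.pos
  have hpi := Nat.prime_iff_prime_int.1 hl
  obtain ⟨u, v, huv⟩ := (hpi.coprime_iff_not_dvd.2 hα).symm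
  obtain ⟨ρ, hρ⟩ : ∃ ρ : ℕ, (ρ : ℤ) = (-(u * β)) % l :=
    ⟨((-(u * β)) % l).toNat, Int.toNat_of_nonneg (Int.emod_nonneg _ hl0.ne')⟩
  have hρl : ρ < l := by
    have := Int.emod_lt_of_pos (-(u * β)) hl0
    rw [← hρ] at this
    exact_mod_cast this
  have hroot : (l : ℤ) ∣ α * ρ + β := by
    have h1 : (l : ℤ) ∣ -(u * β) - ρ := by
      rw [hρ]
      exact Int.dvd_self_sub_emod
    have h2 : α * ρ + β = l * (v * β) - α * (-(u * β) - ρ) := by
      linear_combination (- β) * huv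
    rw [h2]
    exact dvd_sub (dvd_mul_right _ _) (h1.mul_left _)
  refine ⟨ρ, hρl, fun n hn => ⟨fun h => ?_, fun h => by rw [h]; exact hroot⟩⟩
  have h1 := dvd_sub h hroot
  have h2 : α * n + β - (α * ρ + β) = α * ((n : ℤ) - ρ) := by ring
  rw [h2] at h1
  have h3 := (hpi.dvd_or_dvd h1).resolve_left hα
  have h4 : (ρ : ℤ) ≡ n [ZMOD l] := Int.modEq_iff_dvd.2 h3
  exact (Nat.ModEq.eq_of_lt_of_lt (Int.natCast_modEq_iff.1 h4) hρl hn).symm

/-- the local densities of the equation -/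
def wE (a b : ℕ) (c : ℤ) (l : ℕ) : ℕ := if (l : ℤ) ∣ a * b * c then 1 else 2

/-- the product of `1 - w(l) / l` over the primes `l ≤ X` -/
noncomputable def WE (a b : ℕ) (c : ℤ) (X : ℕ) : ℝ :=
  ∏ l ∈ (Icc 1 X).filter Nat.Prime, (1 - (wE a b c l : ℝ) / l)

open Classical in
/-- the primes `p` of `(A, B]` for which `a p - b q = c` has a solution `q` such that `|q|` is a product of at most two
primes `> X ^ (1 / 9)` -/
noncomputable def GE (a b : ℕ) (c : ℤ) (X A B : ℕ) : Finset ℕ :=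
  (Ioc A B).filter (fun p : ℕ => p.Prime ∧ ∃ q : ℤ, (a : ℤ) * p - b * q = c ∧ Almost 2 ((X : ℝ) ^ (1 / 9 : ℝ)) q)

theorem omL_two (α α' β β' : ℤ) (l : ℕ) : omL ![α, α'] ![β, β'] l =
    ((range l).filter (fun n : ℕ => (l : ℤ) ∣ (α * n + β) * (α' * n + β'))).card := by
  unfold omL
  simp only [Fin.prod_univ_two, Matrix.cons_val_zero, Matrix.cons_val_one]

theorem omL_E {a b : ℕ} {c r s : ℤ} (hab : IsCoprime (a : ℤ) b) (hac : IsCoprime (a : ℤ) c) (hbc : IsCoprime (b : ℤ) c)
    (hrs : (a : ℤ) * r - c = b * s) {l : ℕ} (hl : l.Prime) : omL ![(b : ℤ), (a : ℤ)] ![r, s] l = wE a b c l := by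
  classical
  have hpi := Nat.prime_iff_prime_int.1 hl
  have hnu : ¬ IsUnit (l : ℤ) := hpi.not_isUnit
  rw [omL_two]
  unfold wE
  by_cases hlb : (l : ℤ) ∣ b
  · have hla : ¬ (l : ℤ) ∣ a := fun h => hnu (hab.isUnit_of_dvd' h hlb)
    have hlc : ¬ (l : ℤ) ∣ c := fun h => hnu (hbc.isUnit_of_dvd' hlb h)
    have hlr : ¬ (l : ℤ) ∣ r := fun h => hlc (by
      have : c = a * r - b * s := by linarith
      rw [this]
      exact dvd_sub (h.mul_left _) (hlb.mul_right _))
    rw [if_pos ((hlb.mul_left _).mul_right _)]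
    obtain ⟨ρ, hρ, H⟩ := lin_root hl hla s
    have : (range l).filter (fun n : ℕ => (l : ℤ) ∣ ((b : ℤ) * n + r) * ((a : ℤ) * n + s)) = {ρ} := by
      ext n
      rw [mem_filter, mem_range, mem_singleton]
      constructor
      · rintro ⟨h1, h2⟩
        rcases hpi.dvd_or_dvd h2 with h3 | h3
        · exact absurd ((dvd_add_right (hlb.mul_right _)).1 h3) hlr
        · exact (H n h1).1 h3
      · intro h
        have h1 : n < l := by rw [h]; exact hρ
        exact ⟨h1, ((H n h1).2 h).mul_left _⟩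
    rw [this, card_singleton]
  by_cases hla : (l : ℤ) ∣ a
  · have hlc : ¬ (l : ℤ) ∣ c := fun h => hnu (hac.isUnit_of_dvd' hla h)
    have hls : ¬ (l : ℤ) ∣ s := fun h => hlc (by
      have : c = a * r - b * s := by linarith
      rw [this]
      exact dvd_sub (hla.mul_right _) (h.mul_left _))
    rw [if_pos ((hla.mul_right _).mul_right _)]
    obtain ⟨ρ, hρ, H⟩ := lin_root hl hlb r
    have : (range l).filter (fun n : ℕ => (l : ℤ) ∣ ((b : ℤ) * n + r) * ((a : ℤ) * n + s)) = {ρ} := by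
      ext n
      rw [mem_filter, mem_range, mem_singleton]
      constructor
      · rintro ⟨h1, h2⟩
        rcases hpi.dvd_or_dvd h2 with h3 | h3
        · exact (H n h1).1 h3
        · exact absurd ((dvd_add_right (hla.mul_right _)).1 h3) hls
      · intro h
        have h1 : n < l := by rw [h]; exact hρ
        exact ⟨h1, ((H n h1).2 h).mul_right _⟩
    rw [this, card_singleton]
  obtain ⟨ρ, hρ, H⟩ := lin_root hl hlb r
  obtain ⟨ρ', hρ', H'⟩ := lin_root hl hla s
  have hset : (range l).filter (fun n : ℕ => (l : ℤ) ∣ ((b : ℤ) * n + r) * ((a : ℤ) * n + s)) = {ρ, ρ'} := by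
    ext n
    rw [mem_filter, mem_range, mem_insert, mem_singleton]
    constructor
    · rintro ⟨h1, h2⟩
      rcases hpi.dvd_or_dvd h2 with h3 | h3
      · exact Or.inl ((H n h1).1 h3)
      · exact Or.inr ((H' n h1).1 h3)
    · rintro (h | h)
      · have h1 : n < l := by rw [h]; exact hρ
        exact ⟨h1, ((H n h1).2 h).mul_right _⟩
      · have h1 : n < l := by rw [h]; exact hρ'
        exact ⟨h1, ((H' n h1).2 h).mul_left _⟩
  rw [hset]
  have e1 := (H ρ hρ).2 rfl
  have e2 := (H' ρ' hρ').2 rfl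
  by_cases hlc : (l : ℤ) ∣ c
  · rw [if_pos (hlc.mul_left _)]
    have h1 : ρ = ρ' := by
      apply (H' ρ hρ).1
      have h2 : (l : ℤ) ∣ b * ((a : ℤ) * ρ + s) := by
        have h3 : (b : ℤ) * (a * ρ + s) = a * (b * ρ + r) - c := by
          linear_combination (-1 : ℤ) * hrs
        rw [h3]
        exact dvd_sub (e1.mul_left _) hlc
      exact (hpi.dvd_or_dvd h2).resolve_left hlb
    rw [h1]
    simp
  · rw [if_neg (fun h => by
      rcases hpi.dvd_or_dvd h with h1 | h1
      · rcases hpi.dvd_or_dvd h1 with h2 | h2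
        · exact hla h2
        · exact hlb h2
      · exact hlc h1)]
    apply card_pair
    intro h1
    apply hlc
    rw [← h1] at e2
    have h3 : c = a * (b * ρ + r) - b * (a * ρ + s) := by
      linear_combination (-1 : ℤ) * hrs
    rw [h3]
    exact dvd_sub (e1.mul_left _) (e2.mul_left _)

theorem adm_E {a b : ℕ} {c r s : ℤ} (hab : IsCoprime (a : ℤ) b) (hac : IsCoprime (a : ℤ) c) (hbc : IsCoprime (b : ℤ) c)
    (hpar : 2 ∣ (a : ℤ) * b * c) (hrs : (a : ℤ) * r - c = b * s) : AdmL ![(b : ℤ), (a : ℤ)] ![r, s] := by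
  classical
  intro l hl
  have hpi := Nat.prime_iff_prime_int.1 hl
  have h1 := omL_E hab hac hbc hrs hl
  have h2 : wE a b c l < l := by
    unfold wE
    have h3 := hl.two_le
    split_ifs with h
    · omega
    · rcases h3.lt_or_eq with h4 | h4
      · exact h4
      · exfalso
        apply h
        rw [← h4]
        exact_mod_cast hpar
  rw [← h1, omL_two] at h2
  by_contra hcon
  push Not at hcon
  have h3 : (range l).filter (fun n : ℕ => (l : ℤ) ∣ ((b : ℤ) * n + r) * ((a : ℤ) * n + s)) = range l := by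
    apply filter_true_of_mem
    intro n _
    obtain ⟨i, hi⟩ := hcon n
    fin_cases i
    · exact (show (l : ℤ) ∣ (b : ℤ) * n + r from hi).mul_right _
    · exact (show (l : ℤ) ∣ (a : ℤ) * n + s from hi).mul_left _
  rw [h3, card_range] at h2
  exact lt_irrefl _ h2

end Pool.Agent.X32.Uni
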