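import Pool.Agent.X32.Uni.Up
import Pool.Agent.X32.Uni.Eqn

/-!
Exact patterns of linear forms: restriction to a residue class, and the number of the zeros.
-/

set_option autoImplicit false

namespace Pool.Agent.X32.Uni

open Finset Filter

variable {k : ℕ}

/-- the number of the zeros for a large prime -/
theorem omL_full (a b : Fin k → ℤ) {p : ℕ} (hp : p.Prime) (h1 : ∀ l, ¬ (p : ℤ) ∣ a l)
    (h2 : ∀ l m, l ≠ m → ¬ (p : ℤ) ∣ a l * b m - a m * b l) : omL a b p = k := by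
  classical
  have hpi := Nat.prime_iff_prime_int.1 hp
  choose ρ hρ H using fun l => lin_root hp (h1 l) (b l)
  have hset : (range p).filter (fun n : ℕ => (p : ℤ) ∣ ∏ i, (a i * (n : ℤ) + b i)) = univ.image ρ := by
    ext n
    rw [mem_filter, mem_range, mem_image]
    constructor
    · rintro ⟨h3, h4⟩
      obtain ⟨l, _, hl⟩ := hpi.exists_mem_finset_dvd h4
      exact ⟨l, mem_univ _, ((H l n h3).1 hl).symm⟩
    · rintro ⟨l, _, hl⟩
      have h3 : n < p := by rw [← hl]; exact hρ l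
      exact ⟨h3, ((H l n h3).2 hl.symm).trans (dvd_prod_of_mem _ (mem_univ l))⟩
  unfold omL
  rw [hset, card_image_of_injective, card_univ, Fintype.card_fin]
  intro l m he
  by_contra hne
  have e1 := (H l (ρ l) (hρ l)).2 rfl
  have e2 := (H m (ρ m) (hρ m)).2 rfl
  have he' : ρ l = ρ m := he
  rw [he'] at e1
  have h3 := dvd_sub (e2.mul_left (a l)) (e1.mul_left (a m))
  have h4 : a l * (a m * (ρ m : ℤ) + b m) - a m * (a l * (ρ m : ℤ) + b l) = a l * b m - a m * b l := by ring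
  rw [h4] at h3
  exact h2 l m hne h3

/-- upper bound of the product for every fixed system without proportional members -/
theorem VL_up' (a b : Fin k → ℤ) (hadm : AdmL a b) (h1 : ∀ l, a l ≠ 0)
    (h2 : ∀ l m, l ≠ m → a l * b m - a m * b l ≠ 0) :
    ∃ C : ℝ, 0 < C ∧ ∀ᶠ X : ℕ in atTop, VL a b X ≤ C / Real.log X ^ k := by
  classical
  obtain ⟨p₀, hp₀⟩ : ∃ p₀ : ℕ, p₀ = ∑ l, (a l).natAbs + ∑ l, ∑ m, (a l * b m - a m * b l).natAbs + 1 := ⟨_, rfl⟩
  have e1 : ∀ l, (a l).natAbs < p₀ := by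
    intro l
    have := single_le_sum (f := fun l => (a l).natAbs) (fun _ _ => Nat.zero_le _) (mem_univ l)
    omega
  have e2 : ∀ l m, (a l * b m - a m * b l).natAbs < p₀ := by
    intro l m
    have h3 := single_le_sum (f := fun m => (a l * b m - a m * b l).natAbs) (fun _ _ => Nat.zero_le _) (mem_univ m)
    have h4 := single_le_sum (f := fun l => ∑ m, (a l * b m - a m * b l).natAbs) (fun _ _ => Nat.zero_le _)
      (mem_univ l)
    omega
  have hnd : ∀ (p : ℕ) (v : ℤ), v ≠ 0 → v.natAbs < p → ¬ (p : ℤ) ∣ v := by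
    intro p v hv hlt hd
    have h3 := Int.natAbs_dvd_natAbs.2 hd
    rw [Int.natAbs_natCast] at h3
    have h4 := Nat.le_of_dvd (Int.natAbs_pos.2 hv) h3
    omega
  apply VL_up a b hadm p₀
  intro p hp hpp
  apply omL_full a b hp
  · intro l
    exact hnd p _ (h1 l) (lt_of_lt_of_le (e1 l) hpp)
  · intro l m hlm
    exact hnd p _ (h2 l m hlm) (lt_of_lt_of_le (e2 l m) hpp)

/-- restriction to a residue class: admissibility -/
theorem adm_sub {a b : Fin k → ℤ} (H : AdmL a b) {W : ℕ} {r : ℤ}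
    (hW : ∀ p : ℕ, p.Prime → p ∣ W → ∀ l, ¬ (p : ℤ) ∣ a l * r + b l) :
    AdmL (fun l => a l * W) (fun l => a l * r + b l) := by
  intro p hp
  by_cases hpW : p ∣ W
  · refine ⟨0, fun i hd => hW p hp hpW i ?_⟩
    simpa using hd
  · obtain ⟨n, hn⟩ := H p hp
    have hpi := Nat.prime_iff_prime_int.1 hp
    have hc : IsCoprime (W : ℤ) p := (hpi.coprime_iff_not_dvd.2 (by exact_mod_cast hpW)).symm
    obtain ⟨u, v, huv⟩ := hc
    refine ⟨u * (n - r), fun i hd => hn i ?_⟩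
    have h1 : a i * (W : ℤ) * (u * (n - r)) + (a i * r + b i) = (a i * n + b i) + p * (- a i * v * (n - r)) := by
      linear_combination (a i * ((n : ℤ) - r)) * huv
    have hd' : (p : ℤ) ∣ a i * (W : ℤ) * (u * (n - r)) + (a i * r + b i) := hd
    rw [h1] at hd'
    have h2 := dvd_sub hd' (dvd_mul_right (p : ℤ) (- a i * v * (n - r)))
    rwa [add_sub_cancel_right] at h2

/-- restriction to a residue class: the number of the zeros does not increase -/
theorem omL_sub {a b : Fin k → ℤ} {W : ℕ} {r : ℤ}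
    (hW : ∀ p : ℕ, p.Prime → p ∣ W → ∀ l, ¬ (p : ℤ) ∣ a l * r + b l) {p : ℕ} (hp : p.Prime) :
    omL (fun l => a l * W) (fun l => a l * r + b l) p ≤ omL a b p := by
  classical
  have hpi := Nat.prime_iff_prime_int.1 hp
  have hp0 : (0 : ℤ) < p := by exact_mod_cast hp.pos
  unfold omL
  by_cases hpW : p ∣ W
  · have h0 : (range p).filter (fun n : ℕ => (p : ℤ) ∣ ∏ i, ((fun l => a l * (W : ℤ)) i * (n : ℤ) +
        (fun l => a l * r + b l) i)) = ∅ := by
      rw [filter_eq_empty_iff]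
      intro n _ hd
      obtain ⟨i, _, hi⟩ := hpi.exists_mem_finset_dvd hd
      apply hW p hp hpW i
      have h1 : (p : ℤ) ∣ a i * (W : ℤ) * n := ((Int.natCast_dvd_natCast.2 hpW).mul_left _).mul_right _
      have h2 := dvd_sub hi h1
      simp only at h2
      rwa [add_sub_cancel_left] at h2
    rw [h0]
    simp
  · apply card_le_card_of_injOn (fun n : ℕ => (((W : ℤ) * n + r) % p).toNat)
    · intro n hn
      rw [mem_coe, mem_filter] at hn
      rw [mem_coe, mem_filter, mem_range]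
      have e1 := Int.emod_nonneg ((W : ℤ) * n + r) hp0.ne'
      have e2 := Int.emod_lt_of_pos ((W : ℤ) * n + r) hp0
      refine ⟨by show (((W : ℤ) * n + r) % p).toNat < p; omega, ?_⟩
      obtain ⟨i, _, hi⟩ := hpi.exists_mem_finset_dvd hn.2
      refine Dvd.dvd.trans ?_ (dvd_prod_of_mem _ (mem_univ i))
      rw [Int.toNat_of_nonneg e1]
      have h1 : (p : ℤ) ∣ ((W : ℤ) * n + r) - (((W : ℤ) * n + r) % p) := Int.dvd_self_sub_emod
      have h2 := dvd_sub hi (h1.mul_left (a i))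
      have h3 : a i * (W : ℤ) * n + (a i * r + b i) - a i * (((W : ℤ) * n + r) - (((W : ℤ) * n + r) % p)) =
          a i * (((W : ℤ) * n + r) % p) + b i := by ring
      simp only at h2
      rwa [h3] at h2
    · intro n hn n' hn' he
      rw [mem_coe, mem_filter, mem_range] at hn hn'
      simp only at he
      have e1 := Int.emod_nonneg ((W : ℤ) * n + r) hp0.ne'
      have e2 := Int.emod_nonneg ((W : ℤ) * n' + r) hp0.ne'
      have h1 : ((W : ℤ) * n + r) % p = ((W : ℤ) * n' + r) % p := by omega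
      have h2 : (W : ℤ) * n + r ≡ W * n' + r [ZMOD p] := h1
      have h3 : (W : ℤ) * n ≡ W * n' [ZMOD p] := Int.ModEq.add_right_cancel' r h2
      have h4 : W * n ≡ W * n' [MOD p] := by
        apply Int.natCast_modEq_iff.1
        push_cast
        exact h3
      have h5 : n ≡ n' [MOD p] :=
        Nat.ModEq.cancel_left_of_coprime ((Nat.Prime.coprime_iff_not_dvd hp).2 hpW) h4
      exact Nat.ModEq.eq_of_lt_of_lt h5 hn.1 hn'.1

theorem VL_sub {a b : Fin k → ℤ} (H : AdmL a b) {W : ℕ} {r : ℤ}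
    (hW : ∀ p : ℕ, p.Prime → p ∣ W → ∀ l, ¬ (p : ℤ) ∣ a l * r + b l) (X : ℕ) :
    VL a b X ≤ VL (fun l => a l * W) (fun l => a l * r + b l) X := by
  unfold VL
  apply Finset.prod_le_prod
  · intro p hp
    have hpp := (mem_filter.1 hp).2
    have := (fac_bounds (loc_lf H) hpp).1.le
    rwa [om_lf] at this
  · intro p hp
    have hpp := (mem_filter.1 hp).2
    have hp0 : (0 : ℝ) < p := by exact_mod_cast hpp.pos
    have h1 : (omL (fun l => a l * (W : ℤ)) (fun l => a l * r + b l) p : ℝ) ≤ omL a b p := by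
      exact_mod_cast omL_sub hW hpp
    have := div_le_div_of_nonneg_right h1 hp0.le
    linarith

/-- congruences which force bounded prime factors in given linear forms and none in other linear forms -/
theorem iso_lin (T : Finset (ℤ × ℤ)) (a b : Fin k → ℤ) (hT : ∀ t ∈ T, t.1 ≠ 0)
    (hne : ∀ t ∈ T, ∀ l, t.1 * b l - a l * t.2 ≠ 0) : ∃ W r : ℕ, 1 ≤ W ∧
    (∀ p : ℕ, p.Prime → p ∣ W → ∀ l, ¬ (p : ℤ) ∣ a l * r + b l) ∧
    ∀ n : ℕ, n ≡ r [MOD W] → ∀ t ∈ T, ∃ q : ℕ, q.Prime ∧ q ≤ W ∧ (q : ℤ) ∣ t.1 * n + t.2 := by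
  classical
  obtain ⟨M, hM⟩ : ∃ M : ℕ, M = ∑ t ∈ T, t.1.natAbs + ∑ t ∈ T, ∑ l, (t.1 * b l - a l * t.2).natAbs := ⟨_, rfl⟩
  have e1 : ∀ t ∈ T, t.1.natAbs ≤ M := by
    intro t ht
    have := single_le_sum (f := fun t : ℤ × ℤ => t.1.natAbs) (fun _ _ => Nat.zero_le _) ht
    omega
  have e2 : ∀ t ∈ T, ∀ l, (t.1 * b l - a l * t.2).natAbs ≤ M := by
    intro t ht l
    have h3 := single_le_sum (f := fun l => (t.1 * b l - a l * t.2).natAbs) (fun _ _ => Nat.zero_le _) (mem_univ l)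
    have h4 := single_le_sum (f := fun t : ℤ × ℤ => ∑ l, (t.1 * b l - a l * t.2).natAbs) (fun _ _ => Nat.zero_le _) ht
    omega
  -- different primes
  obtain ⟨e, he⟩ : ∃ e : ℤ × ℤ → ℕ, Function.Injective e := ⟨_, Encodable.encode_injective (α := ℤ × ℤ)⟩
  obtain ⟨P, hP⟩ : ∃ P : ℤ × ℤ → ℕ, P = fun d => Nat.nth Nat.Prime (M + e d) := ⟨_, rfl⟩
  have hPp : ∀ d, (P d).Prime := fun d => by
    rw [hP]
    exact Nat.nth_mem_of_infinite Nat.infinite_setOfPred_prime _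
  have hPM : ∀ d, M < P d := fun d => by
    rw [hP]
    have := Nat.add_two_le_nth_prime (M + e d)
    simp only
    omega
  have hinj : ∀ d ∈ T, ∀ d' ∈ T, d ≠ d' → P d ≠ P d' := by
    intro d _ d' _ hne heq
    rw [hP] at heq
    have h1 := Nat.nth_injective Nat.infinite_setOfPred_prime heq
    apply hne
    apply he
    omega
  have hnd : ∀ (p : ℕ) (v : ℤ), v ≠ 0 → v.natAbs < p → ¬ (p : ℤ) ∣ v := by
    intro p v hv hlt hd
    have h3 := Int.natAbs_dvd_natAbs.2 hd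
    rw [Int.natAbs_natCast] at h3
    have h4 := Nat.le_of_dvd (Int.natAbs_pos.2 hv) h3
    omega
  have hroot : ∀ t ∈ T, ∃ ρ : ℕ, (P t : ℤ) ∣ t.1 * ρ + t.2 := by
    intro t ht
    obtain ⟨ρ, h1, h2⟩ := lin_root (hPp t) (hnd _ _ (hT t ht) (lt_of_le_of_lt (e1 t ht) (hPM t))) t.2
    exact ⟨ρ, (h2 ρ h1).2 rfl⟩
  choose! ρ hρ using hroot
  obtain ⟨⟨r, hr⟩⟩ : Nonempty {r : ℕ // ∀ d ∈ T, r ≡ ρ d [MOD P d]} :=
    ⟨Nat.chineseRemainderOfFinset ρ P T (fun d _ => (hPp d).ne_zero) (by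
      intro d hd d' hd' hne
      exact (Nat.coprime_primes (hPp d) (hPp d')).2 (hinj d hd d' hd' hne))⟩
  have hrz : ∀ n : ℕ, ∀ t ∈ T, n ≡ r [MOD P t] → (P t : ℤ) ∣ t.1 * n + t.2 := by
    intro n t ht hn
    have h1 : n ≡ ρ t [MOD P t] := hn.trans (hr t ht)
    have h2 : (P t : ℤ) ∣ (ρ t : ℤ) - n := Int.modEq_iff_dvd.1 (Int.natCast_modEq_iff.2 h1)
    have h3 := dvd_sub (hρ t ht) (h2.mul_left t.1)
    have h4 : t.1 * (ρ t : ℤ) + t.2 - t.1 * ((ρ t : ℤ) - n) = t.1 * n + t.2 := by ring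
    rwa [h4] at h3
  refine ⟨∏ d ∈ T, P d, r, Nat.one_le_iff_ne_zero.2 (prod_ne_zero_iff.2 fun d _ => (hPp d).ne_zero), ?_, ?_⟩
  · intro p hp hpW l hd
    obtain ⟨t, ht, hpd⟩ := (hp.prime.dvd_finset_prod_iff _).1 hpW
    have h1 : p = P t := (Nat.prime_dvd_prime_iff_eq hp (hPp t)).1 hpd
    subst h1
    have h2 := hrz r t ht (Nat.ModEq.refl _)
    have h3 := dvd_sub (hd.mul_left t.1) (h2.mul_left (a l))
    have h4 : t.1 * (a l * (r : ℤ) + b l) - a l * (t.1 * r + t.2) = t.1 * b l - a l * t.2 := by ring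
    rw [h4] at h3
    exact hnd _ _ (hne t ht l) (lt_of_le_of_lt (e2 t ht l) (hPM t)) h3
  · intro n hn t ht
    have hPW : P t ∣ ∏ d ∈ T, P d := dvd_prod_of_mem _ ht
    exact ⟨P t, hPp t, Nat.le_of_dvd (Nat.pos_of_ne_zero (prod_ne_zero_iff.2 fun d _ => (hPp d).ne_zero)) hPW,
      hrz n t ht (hn.of_dvd hPW)⟩

end Pool.Agent.X32.Uni
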