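import Pool.Agent.X32.Uni.Cons
import Pool.Agent.H305R2.MertensE

/-!
Upper bound of the sieve product of a fixed system.
-/

set_option autoImplicit false

namespace Pool.Agent.X32.Uni

open Finset Filter

/-- the product over the primes is at most `1 / log` -/
theorem prod_inv_le : ∀ᶠ X : ℕ in atTop, ∏ p ∈ (Icc 1 X).filter Nat.Prime, (1 - (p : ℝ)⁻¹) ≤ 1 / Real.log X := by
  have h1 := Pool.Agent.H305R2.mertens_three
  have h2 : (1 : ℝ) < Real.exp Real.eulerMascheroniConstant := by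
    rw [Real.one_lt_exp_iff]
    exact lt_trans (by norm_num) Real.one_half_lt_eulerMascheroniConstant
  filter_upwards [h1.eventually (lt_mem_nhds h2), eventually_ge_atTop 3] with X hX hX3
  have hlog : 0 < Real.log X := Real.log_pos (by exact_mod_cast (by omega : 1 < X))
  rw [lt_div_iff₀ hlog, one_mul] at hX
  rw [Finset.prod_inv_distrib] at hX
  have hpos : 0 < ∏ p ∈ (Icc 1 X).filter Nat.Prime, (1 - (p : ℝ)⁻¹) := by
    apply prod_pos
    intro p hp
    have hp2 : (2 : ℝ) ≤ p := by exact_mod_cast (mem_filter.1 hp).2.two_le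
    have : (p : ℝ)⁻¹ ≤ 2⁻¹ := inv_anti₀ (by norm_num) hp2
    have h3 : (2 : ℝ)⁻¹ < 1 := by norm_num
    linarith
  rw [le_div_iff₀ hlog]
  have h3 := mul_le_mul_of_nonneg_left hX.le hpos.le
  rwa [mul_inv_cancel₀ hpos.ne'] at h3

variable {k : ℕ}

/-- upper bound of the product for a fixed system -/
theorem VL_up (a b : Fin k → ℤ) (hadm : AdmL a b) (p₀ : ℕ) (h0 : ∀ p : ℕ, p.Prime → p₀ ≤ p → omL a b p = k) :
    ∃ C : ℝ, 0 < C ∧ ∀ᶠ X : ℕ in atTop, VL a b X ≤ C / Real.log X ^ k := by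
  classical
  obtain ⟨P, hP⟩ : ∃ P : ℝ, P = ∏ p ∈ (range p₀).filter Nat.Prime, (1 - (p : ℝ)⁻¹) := ⟨_, rfl⟩
  have hpp : ∀ p : ℕ, p.Prime → 0 < 1 - (p : ℝ)⁻¹ ∧ 1 - (p : ℝ)⁻¹ ≤ 1 := by
    intro p hp
    have hp2 : (2 : ℝ) ≤ p := by exact_mod_cast hp.two_le
    have h1 : (p : ℝ)⁻¹ ≤ 2⁻¹ := inv_anti₀ (by norm_num) hp2
    have h2 : 0 < (p : ℝ)⁻¹ := by positivity
    have h3 : (2 : ℝ)⁻¹ < 1 := by norm_num
    constructor <;> linarith
  have hP0 : 0 < P := by
    rw [hP]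
    exact prod_pos fun p hp => (hpp p (mem_filter.1 hp).2).1
  refine ⟨1 / P ^ k, by positivity, ?_⟩
  filter_upwards [prod_inv_le, eventually_ge_atTop (p₀ + 3)] with X hX hX3
  have hlog : 0 < Real.log X := Real.log_pos (by exact_mod_cast (by omega : 1 < X))
  have hfac : ∀ p ∈ (Icc 1 X).filter Nat.Prime, 1 - (omL a b p : ℝ) / p ≤
      (1 - (p : ℝ)⁻¹) ^ k / (if p < p₀ then (1 - (p : ℝ)⁻¹) ^ k else 1) := by
    intro p hp
    have hpr := (mem_filter.1 hp).2
    split_ifs with hlt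
    · rw [div_self (pow_pos (hpp p hpr).1 _).ne']
      have : 0 ≤ (omL a b p : ℝ) / p := by positivity
      linarith
    · rw [div_one, h0 p hpr (not_lt.1 hlt)]
      have h1 := one_add_mul_le_pow (a := - (p : ℝ)⁻¹) (by have := (hpp p hpr).1; linarith) k
      rw [← sub_eq_add_neg] at h1
      refine le_trans (le_of_eq ?_) h1
      rw [div_eq_mul_inv]
      ring
  have hnn : ∀ p ∈ (Icc 1 X).filter Nat.Prime, 0 ≤ 1 - (omL a b p : ℝ) / p := by
    intro p hp
    have := (fac_bounds (loc_lf hadm) (mem_filter.1 hp).2).1.le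
    rwa [om_lf] at this
  unfold VL
  refine (Finset.prod_le_prod hnn hfac).trans ?_
  rw [Finset.prod_div_distrib, Finset.prod_pow]
  have hden : ∏ p ∈ (Icc 1 X).filter Nat.Prime, (if p < p₀ then (1 - (p : ℝ)⁻¹) ^ k else 1) = P ^ k := by
    rw [hP, ← Finset.prod_pow, ← Finset.prod_filter]
    apply prod_congr _ fun _ _ => rfl
    ext p
    rw [mem_filter, mem_filter, mem_filter, mem_Icc, mem_range]
    constructor
    · rintro ⟨⟨_, h2⟩, h3⟩
      exact ⟨h3, h2⟩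
    · rintro ⟨h1, h2⟩
      exact ⟨⟨⟨h2.pos, by omega⟩, h2⟩, h1⟩
  rw [hden, div_div, div_le_div_iff₀ (by positivity) (by positivity), one_mul]
  have h2 : (∏ p ∈ (Icc 1 X).filter Nat.Prime, (1 - (p : ℝ)⁻¹)) ^ k ≤ (1 / Real.log X) ^ k := by
    apply pow_le_pow_left₀ _ hX
    exact prod_nonneg fun p hp => (hpp p (mem_filter.1 hp).2).1.le
  calc (∏ p ∈ (Icc 1 X).filter Nat.Prime, (1 - (p : ℝ)⁻¹)) ^ k * (P ^ k * Real.log X ^ k) ≤
        (1 / Real.log X) ^ k * (P ^ k * Real.log X ^ k) := mul_le_mul_of_nonneg_right h2 (by positivity)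
    _ = P ^ k := by
        rw [div_pow, one_pow]
        field_simp

end Pool.Agent.X32.Uni
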