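import Pool.Agent.X32.Uni.UncD

/-!
Linear polynomials: contents, coefficients.
-/

set_option autoImplicit false

namespace Pool.Agent.X32.Uni

open Finset Filter
open Polynomial (C X)
open scoped Polynomial

/-- the polynomial `a x + b` -/
noncomputable def lp (a b : ℤ) : ℤ[X] := C a * X + C b

theorem lp_eval (a b x : ℤ) : (lp a b).eval x = a * x + b := by
  unfold lp
  simp

theorem lp_deg {a b : ℤ} (h : a ≠ 0) : (lp a b).natDegree = 1 := Polynomial.natDegree_linear h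

theorem lp_coeff (a b : ℤ) (n : ℕ) : (lp a b).coeff n = if n = 0 then b else if n = 1 then a else 0 := by
  unfold lp
  rw [Polynomial.coeff_add, Polynomial.coeff_C_mul, Polynomial.coeff_X, Polynomial.coeff_C]
  rcases n with _ | _ | n
  · norm_num
  · norm_num
  · rw [if_neg (by omega), if_neg (by omega), if_neg (by omega), if_neg (by omega)]
    norm_num

theorem lp_size {a b : ℤ} {Y : ℤ} (hY : 0 ≤ Y) (ha : |a| ≤ Y) (hb : |b| ≤ Y) (n : ℕ) : |(lp a b).coeff n| ≤ Y := by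
  rw [lp_coeff]
  split_ifs
  · exact hb
  · exact ha
  · simpa using hY

theorem lp_contB {a b : ℤ} {E : ℕ} (h : ∀ k : ℕ, (k : ℤ) ∣ a → (k : ℤ) ∣ b → k ≤ E) : ContB E (lp a b) := by
  intro k hk
  rw [Polynomial.C_dvd_iff_dvd_coeff] at hk
  apply h k
  · have := hk 1
    rwa [lp_coeff, if_neg one_ne_zero, if_pos rfl] at this
  · have := hk 0
    rwa [lp_coeff, if_pos rfl] at this

theorem lp_contB_b {a b : ℤ} {E : ℕ} (hb : b ≠ 0) (hE : |b| ≤ E) : ContB E (lp a b) := by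
  apply lp_contB
  intro k _ h
  have h1 := Nat.le_of_dvd (Int.natAbs_pos.2 hb) (Int.natCast_dvd.1 h)
  rw [Int.abs_eq_natAbs] at hE
  have : b.natAbs ≤ E := by exact_mod_cast hE
  omega

theorem lp_contB_a {a b : ℤ} {E : ℕ} (ha : a ≠ 0) (hE : |a| ≤ E) : ContB E (lp a b) := by
  apply lp_contB
  intro k h _
  have h1 := Nat.le_of_dvd (Int.natAbs_pos.2 ha) (Int.natCast_dvd.1 h)
  rw [Int.abs_eq_natAbs] at hE
  have : a.natAbs ≤ E := by exact_mod_cast hE
  omega

theorem lp_contB_c {a b : ℤ} {E : ℕ} (h : IsCoprime a b) (hE : 1 ≤ E) : ContB E (lp a b) := by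
  apply lp_contB
  intro k h1 h2
  have h3 := h.isUnit_of_dvd' h1 h2
  rw [Int.isUnit_iff] at h3
  omega

/-- classes avoiding few roots -/
theorem avoid (p n : ℕ) (hn : n < p) (r : Fin n → ℤ) : ∃ x : ℤ, ∀ i, ¬ (p : ℤ) ∣ x - r i := by
  classical
  have hp0 : 0 < p := by omega
  have hpz : (0 : ℤ) < p := by exact_mod_cast hp0
  obtain ⟨R, hR⟩ : ∃ R : Finset ℕ, R = (univ : Finset (Fin n)).image (fun i => (r i % p).toNat) := ⟨_, rfl⟩
  have hc : R.card < (range p).card := by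
    rw [card_range, hR]
    refine lt_of_le_of_lt card_image_le ?_
    rw [card_univ, Fintype.card_fin]
    exact hn
  obtain ⟨x, hx, hxR⟩ := exists_mem_notMem_of_card_lt_card hc
  refine ⟨x, fun i hd => hxR ?_⟩
  rw [hR, mem_image]
  refine ⟨i, mem_univ _, ?_⟩
  have h1 : (x : ℤ) % p = r i % p := by
    have := Int.emod_emod_of_dvd (x : ℤ) (dvd_refl (p : ℤ))
    exact (Int.emod_emod_of_dvd _ (dvd_refl _)).symm.trans (by
      rw [this]
      exact (Int.emod_eq_emod_iff_emod_sub_eq_zero).2 (Int.emod_eq_zero_of_dvd hd))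
  rw [← h1]
  have h2 : (x : ℤ) % p = x := Int.emod_eq_of_lt (by positivity) (by exact_mod_cast mem_range.1 hx)
  rw [h2]
  simp

/-- the roots of a linear polynomial -/
theorem lin_avoid {p : ℕ} (hp : p.Prime) {a b : ℤ} (h : ¬ ((p : ℤ) ∣ a ∧ (p : ℤ) ∣ b)) :
    ∃ r : ℤ, ∀ x : ℤ, ¬ (p : ℤ) ∣ x - r → ¬ (p : ℤ) ∣ a * x + b := by
  have hpi := Nat.prime_iff_prime_int.1 hp
  by_cases ha : (p : ℤ) ∣ a
  · refine ⟨0, fun x _ hd => h ⟨ha, ?_⟩⟩
    exact (dvd_add_right (ha.mul_right x)).1 hd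
  · have hc : IsCoprime (p : ℤ) a := (hpi.coprime_iff_not_dvd).2 ha
    obtain ⟨u, v, huv⟩ := hc
    refine ⟨- (v * b), fun x hx hd => hx ?_⟩
    -- v * (a x + b) = x + v b mod p
    have h1 : (p : ℤ) ∣ v * (a * x + b) := hd.mul_left v
    have h2 : x - -(v * b) = v * (a * x + b) + p * (u * x) := by linear_combination (-x) * huv
    rw [h2]
    exact dvd_add h1 (dvd_mul_right _ _)

end Pool.Agent.X32.Uni
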