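import Pool.Agent.X32.Uni.FamB

/-!
The families `(u x) ^ 2 + 1`, `u` even, and `(u x) ^ 2 + 4`, `u` odd, at primes `x`.
-/

set_option autoImplicit false

namespace Pool.Agent.X32.Uni

open Finset
open Polynomial (C X aeval)
open scoped Polynomial

variable {k : ℕ}

/-- `1` for even `u`, `4` for odd `u` -/
def cA (u : ℕ) : ℤ := if u % 2 = 0 then 1 else 4

/-- the value `(u x) ^ 2 + 1` resp. `(u x) ^ 2 + 4` -/
def vA (u : ℕ) (x : ℤ) : ℤ := (u * x) ^ 2 + cA u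

theorem cA_pos (u : ℕ) : 0 < cA u := by
  unfold cA
  split_ifs <;> norm_num

theorem vA_pos (u : ℕ) (x : ℤ) : 0 < vA u x := by
  unfold vA
  have := cA_pos u
  positivity

/-- the polynomial -/
noncomputable def pA (u : ℕ) : ℤ[X] := C ((u : ℤ) ^ 2) * X ^ 2 + C (cA u)

theorem pA_eval (u : ℕ) (x : ℤ) : (pA u).eval x = vA u x := by
  unfold pA vA
  simp
  ring

theorem pA_deg {u : ℕ} (hu : 1 ≤ u) : (pA u).natDegree = 2 := by
  unfold pA
  have h : ((u : ℤ) ^ 2) ≠ 0 := by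
    have : (u : ℤ) ≠ 0 := by exact_mod_cast (by omega : u ≠ 0)
    exact pow_ne_zero 2 this
  have h1 : (C ((u : ℤ) ^ 2) * X ^ 2 + C (cA u) : ℤ[X]) = C ((u : ℤ) ^ 2) * X ^ 2 + C 0 * X + C (cA u) := by simp
  rw [h1]
  exact Polynomial.natDegree_quadratic h

theorem pA_aeval (u : ℕ) (α : ℂ) : aeval α (pA u) = (u * α) ^ 2 + (cA u : ℂ) := by
  unfold pA
  simp
  ring

theorem cA_ne {u s : ℕ} (hu : 1 ≤ u) (hne : s ≠ u) : (s : ℤ) ^ 2 * cA u ≠ u ^ 2 * cA s := by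
  intro h
  have key : ∀ a b : ℕ, (a : ℤ) ^ 2 = (b : ℤ) ^ 2 → a = b := by
    intro a b hab
    have : (a : ℤ) = b := by
      rcases sq_eq_sq_iff_eq_or_eq_neg.1 hab with h | h
      · exact h
      · have h1 : (0 : ℤ) ≤ a := by positivity
        have h2 : (0 : ℤ) ≤ b := by positivity
        omega
    exact_mod_cast this
  unfold cA at h
  split_ifs at h with h1 h2 h2
  · exact hne (key s u (by linarith))
  · -- u even, s odd : s ^ 2 = 4 u ^ 2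
    have := key s (2 * u) (by push_cast; linarith)
    omega
  · -- u odd, s even
    have := key (2 * s) u (by push_cast; linarith)
    omega
  · exact hne (key s u (by linarith))

theorem achM (b : ℤ) (hb : b ≠ 0) (S : Fin k → ℕ) (hS : ∀ l, 1 ≤ S l) (T : Finset ℕ) (hT : ∀ u ∈ T, 1 ≤ u ∧ ∀ l, S l ≠ u)
    (n₀ Q : ℕ) (hn₀ : 0 < n₀) (hn₁ : (n₀ : ℤ) + b ≠ 0) (hQ : 1 ≤ Q) :
    ∃ C t : ℕ, 1 ≤ t ∧ ∃ κ : ℝ, 0 < κ ∧ ∀ (s r : ℕ) (θ δ : ℝ), 1 ≤ s → 0 < θ → 0 < δ → ∃ c X₀ : ℕ, ∀ X : ℕ, X₀ ≤ X →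
      κ / Real.log X ^ (2 * k + 2) ≤ VMB b vA S T n₀ Q X ∧
      ∀ A B : ℕ, B ≤ X → θ * X ≤ (B : ℝ) - A →
        κ * ((B : ℝ) - A) * VMB b vA S T n₀ Q X ≤ ((GMB b vA (fun _ => 2) S T n₀ Q C t X A B).card : ℝ) ∧
        ∀ χ : ℕ → Fin r, ∃ P : Finset (ℕ × ℕ),
          (∀ z ∈ P, 1 ≤ z.2 ∧ (z.2 : ℝ) ≤ Real.log X ^ c ∧
            ∀ l < s, z.1 + l * z.2 ∈ GMB b vA (fun _ => 2) S T n₀ Q C t X A B ∧ χ (z.1 + l * z.2) = χ z.1) ∧
          (P : Set (ℕ × ℕ)).PairwiseDisjoint (apSet s) ∧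
          (((GMB b vA (fun _ => 2) S T n₀ Q C t X A B \ P.biUnion (apSet s)).card : ℕ) : ℝ) ≤
            δ * ((B : ℝ) - A) * VMB b vA S T n₀ Q X := by
  refine famMB pA vA pA_eval (fun _ => 2) b hb S (fun l => pA_deg (hS l)) (fun _ => by norm_num) (2 * k)
    (by simp [mul_comm]) T n₀ Q hn₀ hn₁ hQ (fun l => (vA_pos _ _).ne') (fun z _ => (vA_pos _ _).ne') ?_
  intro u hu
  obtain ⟨hu1, huS⟩ := hT u hu
  have hdeg := pA_deg hu1
  have hu0 : (u : ℂ) ≠ 0 := by exact_mod_cast (by omega : u ≠ 0)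
  have hc0 : (0 : ℝ) < cA u := by exact_mod_cast cA_pos u
  refine ⟨fun h => by rw [h, Polynomial.natDegree_zero] at hdeg; omega, (Real.sqrt (cA u) : ℂ) * Complex.I / u, ?_, ?_, ?_, ?_⟩
  · rw [pA_aeval, mul_div_cancel₀ _ hu0, mul_pow, Complex.I_sq]
    have : ((Real.sqrt (cA u) : ℝ) : ℂ) ^ 2 = (cA u : ℂ) := by
      rw [← Complex.ofReal_pow, Real.sq_sqrt hc0.le]
      simp
    rw [this]
    ring
  · have : (Real.sqrt (cA u) : ℂ) ≠ 0 := by
      rw [Complex.ofReal_ne_zero]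
      exact (Real.sqrt_pos.2 hc0).ne'
    exact div_ne_zero (mul_ne_zero this Complex.I_ne_zero) hu0
  · intro h
    have h1 := congrArg Complex.im h
    have h2 : ((Real.sqrt (cA u) : ℂ) * Complex.I / u + (b : ℂ)).im = Real.sqrt (cA u) / u := by
      rw [Complex.add_im, Complex.intCast_im, add_zero]
      rw [show ((Real.sqrt (cA u) : ℂ) * Complex.I / u) = ((Real.sqrt (cA u) / u : ℝ) : ℂ) * Complex.I by
        push_cast; ring]
      simp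
    rw [h2, Complex.zero_im] at h1
    have h3 : 0 < Real.sqrt (cA u) / u := div_pos (Real.sqrt_pos.2 hc0) (by exact_mod_cast (by omega : 0 < u))
    linarith
  · intro l hl
    rw [pA_aeval] at hl
    have h1 : ((Real.sqrt (cA u) : ℝ) : ℂ) ^ 2 = (cA u : ℂ) := by
      rw [← Complex.ofReal_pow, Real.sq_sqrt hc0.le]
      simp
    have h2 : ((S l : ℂ) * ((Real.sqrt (cA u) : ℂ) * Complex.I / u)) ^ 2 = - ((S l : ℂ) ^ 2 * cA u / u ^ 2) := by
      rw [mul_pow, div_pow, mul_pow, Complex.I_sq, h1]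
      ring
    rw [h2] at hl
    have h3 : (S l : ℂ) ^ 2 * (cA u : ℂ) = (u : ℂ) ^ 2 * (cA (S l) : ℂ) := by
      have h4 : (cA (S l) : ℂ) = (S l : ℂ) ^ 2 * cA u / u ^ 2 := by linear_combination hl
      rw [h4]
      field_simp
    exact cA_ne hu1 (huS l) (by exact_mod_cast h3)

end Pool.Agent.X32.Uni
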