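import Pool.Agent.X32.Uni.ExactP

/-!
Chains of both kinds at once: the numbers `2 ^ m n - 1` and `2 ^ m n + 1`.
-/

set_option autoImplicit false

namespace Pool.Agent.X32.Uni

open Finset Filter

variable {k : ℕ}

open Classical in
/-- the integers `n` of `(A, B]` for which exactly the numbers `2 ^ J_l n - e_l` are almost primes -/
noncomputable def GB (J : Fin k → ℕ) (e : Fin k → ℤ) (i j : Fin k) (R C t X A B : ℕ) : Finset ℕ :=
  (Ioc A B).filter (fun n : ℕ => (2 ^ J i * (n : ℤ) - e i).natAbs.Prime ∧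
    Almost 2 ((X : ℝ) ^ (1 / 9 : ℝ)) (2 ^ J j * (n : ℤ) - e j) ∧
    (∀ l, Almost t ((X : ℝ) ^ (1 / (t : ℝ))) (2 ^ J l * (n : ℤ) - e l)) ∧
    ∀ m ≤ R, ∀ ε : ℤ, (ε = 1 ∨ ε = -1) → (∀ l, (J l, e l) ≠ (m, ε)) →
      ∃ q : ℕ, q.Prime ∧ q ≤ C ∧ (q : ℤ) ∣ 2 ^ m * (n : ℤ) - ε)

theorem bitwinP (J : Fin k → ℕ) (e : Fin k → ℤ) (he : ∀ l, e l = 1 ∨ e l = -1)
    (hinj : Function.Injective (fun l => (J l, e l))) (i j : Fin k) (hij : i ≠ j)
    (R : ℕ) : ∃ C t : ℕ, 1 ≤ t ∧ ∃ κ : ℝ, 0 < κ ∧ ∀ (s r : ℕ) (θ δ : ℝ), 1 ≤ s → 0 < θ → 0 < δ → ∃ c X₀ : ℕ,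
      ∀ X : ℕ, X₀ ≤ X → ∀ A B : ℕ, B ≤ X → θ * X ≤ (B : ℝ) - A →
        κ * ((B : ℝ) - A) / Real.log X ^ k ≤ ((GB J e i j R C t X A B).card : ℝ) ∧
        ∀ χ : ℕ → Fin r, ∃ P : Finset (ℕ × ℕ),
          (∀ z ∈ P, 1 ≤ z.2 ∧ (z.2 : ℝ) ≤ Real.log X ^ c ∧
            ∀ m < s, z.1 + m * z.2 ∈ GB J e i j R C t X A B ∧ χ (z.1 + m * z.2) = χ z.1) ∧
          (P : Set (ℕ × ℕ)).PairwiseDisjoint (apSet s) ∧
          (((GB J e i j R C t X A B \ P.biUnion (apSet s)).card : ℕ) : ℝ) ≤ δ * ((B : ℝ) - A) / Real.log X ^ k := by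
  classical
  have key : ∀ (m m' : ℕ) (ε ε' : ℤ), (ε = 1 ∨ ε = -1) → (ε' = 1 ∨ ε' = -1) → (m, ε) ≠ (m', ε') →
      (2 : ℤ) ^ m * (-ε') - 2 ^ m' * (-ε) ≠ 0 := by
    intro m m' ε ε' h1 h2 hne h0
    have p1 : (0 : ℤ) < 2 ^ m := by positivity
    have p2 : (0 : ℤ) < 2 ^ m' := by positivity
    have p3 : (2 : ℤ) ^ m = 2 ^ m' → m = m' := by
      intro h
      have h4 : 2 ^ m = 2 ^ m' := by exact_mod_cast h
      exact Nat.pow_right_injective le_rfl h4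
    rcases h1 with h1 | h1 <;> rcases h2 with h2 | h2
    · exact hne (by rw [h1, h2, p3 (by rw [h1, h2] at h0; linarith)])
    · rw [h1, h2] at h0
      linarith
    · rw [h1, h2] at h0
      linarith
    · exact hne (by rw [h1, h2, p3 (by rw [h1, h2] at h0; linarith)])
  obtain ⟨T, hT⟩ : ∃ T : Finset (ℤ × ℤ), T = (((range (R + 1)) ×ˢ ({1, -1} : Finset ℤ)).filter
      (fun z => ∀ l, (J l, e l) ≠ (z.1, z.2))).image (fun z => ((2 : ℤ) ^ z.1, -z.2)) := ⟨_, rfl⟩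
  have hTm : ∀ τ : ℤ × ℤ, τ ∈ T ↔ ∃ m ≤ R, ∃ ε : ℤ, (ε = 1 ∨ ε = -1) ∧ (∀ l, (J l, e l) ≠ (m, ε)) ∧
      τ = ((2 : ℤ) ^ m, -ε) := by
    intro τ
    rw [hT, mem_image]
    constructor
    · rintro ⟨⟨m, ε⟩, hm, rfl⟩
      rw [mem_filter, mem_product, mem_range, mem_insert, mem_singleton] at hm
      exact ⟨m, by have := hm.1.1; simp only at this; omega, ε, hm.1.2, hm.2, rfl⟩
    · rintro ⟨m, h1, ε, h2, h3, rfl⟩
      exact ⟨(m, ε), by
        rw [mem_filter, mem_product, mem_range, mem_insert, mem_singleton]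
        exact ⟨⟨by simp only; omega, h2⟩, h3⟩, rfl⟩
  obtain ⟨C, t, ht, κ, hκ, H⟩ := exactP (fun l => (2 : ℤ) ^ J l) (fun l => - e l) (by
      intro p hp
      refine ⟨0, fun l hd => ?_⟩
      rw [mul_zero, zero_add] at hd
      have h3 := (Nat.prime_iff_prime_int.1 hp).not_isUnit
      apply h3
      apply isUnit_of_dvd_unit hd
      show IsUnit (- e l)
      rcases he l with h | h <;> rw [h] <;> norm_num) (by
      intro l
      exact pow_ne_zero _ (by norm_num)) (by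
      intro l m hlm
      exact key _ _ _ _ (he l) (he m) (fun h => hlm (hinj h))) i j hij T (by
      intro τ hτ
      obtain ⟨m, _, _, _, _, rfl⟩ := (hTm τ).1 hτ
      exact pow_ne_zero _ (by norm_num)) (by
      intro τ hτ l
      obtain ⟨m, _, ε, h1, h2, rfl⟩ := (hTm τ).1 hτ
      exact key _ _ _ _ h1 (he l) (h2 l).symm)
  have hval : ∀ (m : ℕ) (n : ℕ) (ε : ℤ), (2 : ℤ) ^ m * (n : ℤ) + (-ε) = 2 ^ m * (n : ℤ) - ε := by
    intro m n ε
    ring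
  have hgood : ∀ X A B : ℕ, GE' (fun l => (2 : ℤ) ^ J l) (fun l => - e l) T i j C t X A B =
      GB J e i j R C t X A B := by
    intro X A B
    ext n
    unfold GE' GB
    rw [mem_filter, mem_filter]
    simp only [hval]
    refine and_congr_right (fun _ => and_congr_right (fun _ => and_congr_right (fun _ => and_congr_right (fun _ => ?_))))
    constructor
    · intro h m h1 ε h2 h3
      obtain ⟨q, q1, q2, q3⟩ := h _ ((hTm _).2 ⟨m, h1, ε, h2, h3, rfl⟩)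
      refine ⟨q, q1, q2, ?_⟩
      simp only at q3
      rwa [hval] at q3
    · intro h τ hτ
      obtain ⟨m, h1, ε, h2, h3, rfl⟩ := (hTm τ).1 hτ
      simp only
      rw [hval]
      exact h m h1 ε h2 h3
  refine ⟨C, t, ht, κ, hκ, fun s r θ δ hs hθ hδ => ?_⟩
  obtain ⟨c, X₀, h⟩ := H s r θ δ hs hθ hδ
  refine ⟨c, X₀, fun X hX A B hB hAB => ?_⟩
  have h1 := h X hX A B hB hAB
  rw [hgood] at h1
  exact h1

end Pool.Agent.X32.Uni
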