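import Pool.Agent.X32.Uni.Model3

/-!
Blocks of values of `x ^ 2 + 1`.
-/

set_option autoImplicit false

namespace Pool.Agent.X32.Uni

open Finset
open Polynomial (C X)
open scoped Polynomial

variable {k : ℕ}

/-- the system `(x + h_l) ^ 2 + 1` -/
noncomputable def fB (h : Fin k → ℤ) (l : Fin k) : ℤ[X] := (X + C (h l)) ^ 2 + C 1

theorem fB_deg (h : Fin k → ℤ) (l : Fin k) : (fB h l).natDegree = 2 := by
  unfold fB
  rw [Polynomial.natDegree_add_C, Polynomial.natDegree_pow, Polynomial.natDegree_X_add_C]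

theorem fB_eval (h : Fin k → ℤ) (l : Fin k) (x : ℤ) : (fB h l).eval x = (x + h l) ^ 2 + 1 := by
  unfold fB
  simp

/-- `ω(p)` -/
def omB (h : Fin k → ℤ) (p : ℕ) : ℕ :=
  ((range p).filter (fun x : ℕ => (p : ℤ) ∣ ∏ l, (((x : ℤ) + h l) ^ 2 + 1))).card

/-- `z` -/
def zB (h : Fin k → ℤ) (n₀ Q : ℕ) : ℕ := Q * ∏ l, (((n₀ : ℤ) + h l) ^ 2 + 1).natAbs

/-- the product of `1 - ω(p) / p` over the primes of `(z, X]` -/
noncomputable def VB (h : Fin k → ℤ) (z X : ℕ) : ℝ :=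
  ∏ p ∈ (Ioc z X).filter Nat.Prime, (1 - (omB h p : ℝ) / p)

open Classical in
/-- the good `n` -/
noncomputable def GBl (h : Fin k → ℤ) (n₀ Q t X A B : ℕ) : Finset ℕ :=
  (Ioc A B).filter (fun n : ℕ => ∃ w : Fin k → ℤ, ∀ l,
    ((n : ℤ) + h l) ^ 2 + 1 = (((n₀ : ℤ) + h l) ^ 2 + 1) * w l ∧ w l ≡ 1 [ZMOD (Q : ℤ)] ∧
      Almost (2 * t) ((X : ℝ) ^ (1 / (t : ℝ))) (w l))

theorem blkS (h : Fin k → ℤ) (hk : 0 < k) (n₀ Q : ℕ) (hQ : 1 ≤ Q) (ε : ℝ) (hε : 0 < ε) :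
    ∃ t : ℕ, 1 ≤ t ∧ ∃ κ : ℝ, 0 < κ ∧ ∀ (s r : ℕ) (δ : ℝ), 1 ≤ s → 0 < δ → ∃ c X₀ : ℕ, ∀ X : ℕ, X₀ ≤ X →
      κ / Real.log X ^ (2 * k) ≤ VB h (zB h n₀ Q) X ∧ ∀ A B : ℕ, B ≤ X → (X : ℝ) ^ ε ≤ (B : ℝ) - A →
        κ * ((B : ℝ) - A) * VB h (zB h n₀ Q) X ≤ ((GBl h n₀ Q t X A B).card : ℝ) ∧
        ∀ χ : ℕ → Fin r, ∃ P : Finset (ℕ × ℕ),
          (∀ z ∈ P, 1 ≤ z.2 ∧ (z.2 : ℝ) ≤ Real.log X ^ c ∧
            ∀ l < s, z.1 + l * z.2 ∈ GBl h n₀ Q t X A B ∧ χ (z.1 + l * z.2) = χ z.1) ∧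
          (P : Set (ℕ × ℕ)).PairwiseDisjoint (apSet s) ∧
          (((GBl h n₀ Q t X A B \ P.biUnion (apSet s)).card : ℕ) : ℝ) ≤
            δ * ((B : ℝ) - A) * VB h (zB h n₀ Q) X := by
  classical
  have hsum : ∑ l, (fB h l).natDegree = 2 * k := by
    simp only [fB_deg]
    simp [mul_comm]
  have ho : ∀ p, om (fB h) p = omB h p := by
    intro p
    unfold om omB
    simp only [fB_eval]
  have hz : zM (fB h) n₀ Q = zB h n₀ Q := by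
    unfold zM zB
    simp only [fB_eval]
  have hV : ∀ z n, VZ (fB h) z n = VB h z n := fun z n => by
    unfold VZ VB
    exact prod_congr rfl fun p _ => by rw [ho]
  have hG : ∀ t X A B, GMS (fB h) n₀ Q t X A B = GBl h n₀ Q t X A B := by
    intro t X A B
    unfold GMS GBl
    simp only [fB_eval, fB_deg, mul_comm t 2]
  obtain ⟨t, ht, κ, hκ, H⟩ := modelS (fB h) hk (fun l => by rw [fB_deg]; norm_num) n₀ Q hQ (fun l => by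
    rw [fB_eval]
    positivity) ε hε
  refine ⟨t, ht, κ, hκ, fun s r δ hs hδ => ?_⟩
  obtain ⟨c, X₀, hX⟩ := H s r δ hs hδ
  refine ⟨c, X₀, fun X hXX => ?_⟩
  have := hX X hXX
  simp only [hz, hV, hG, hsum] at this
  exact this

end Pool.Agent.X32.Uni
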