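import Pool.Agent.X32.Uni.ExactP

/-!
Cunningham chains: the forms `2 ^ m (x + e) - e`.
-/

set_option autoImplicit false

namespace Pool.Agent.X32.Uni

open Finset Filter

variable {k : ℕ}

open Classical in
/-- the integers `n` of `(A, B]` for which exactly the terms `J_l` of the chain are almost primes -/
noncomputable def GC (e : ℤ) (J : Fin k → ℕ) (i j : Fin k) (R C t X A B : ℕ) : Finset ℕ :=
  (Ioc A B).filter (fun n : ℕ => (2 ^ J i * ((n : ℤ) + e) - e).natAbs.Prime ∧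
    Almost 2 ((X : ℝ) ^ (1 / 9 : ℝ)) (2 ^ J j * ((n : ℤ) + e) - e) ∧
    (∀ l, Almost t ((X : ℝ) ^ (1 / (t : ℝ))) (2 ^ J l * ((n : ℤ) + e) - e)) ∧
    ∀ m ≤ R, (∀ l, J l ≠ m) → ∃ q : ℕ, q.Prime ∧ q ≤ C ∧ (q : ℤ) ∣ 2 ^ m * ((n : ℤ) + e) - e)

theorem chainP (e : ℤ) (he : e = 1 ∨ e = -1) (J : Fin k → ℕ) (hJ : Function.Injective J) (i j : Fin k) (hij : i ≠ j)
    (R : ℕ) : ∃ C t : ℕ, 1 ≤ t ∧ ∃ κ : ℝ, 0 < κ ∧ ∀ (s r : ℕ) (θ δ : ℝ), 1 ≤ s → 0 < θ → 0 < δ → ∃ c X₀ : ℕ,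
      ∀ X : ℕ, X₀ ≤ X → ∀ A B : ℕ, B ≤ X → θ * X ≤ (B : ℝ) - A →
        κ * ((B : ℝ) - A) / Real.log X ^ k ≤ ((GC e J i j R C t X A B).card : ℝ) ∧
        ∀ χ : ℕ → Fin r, ∃ P : Finset (ℕ × ℕ),
          (∀ z ∈ P, 1 ≤ z.2 ∧ (z.2 : ℝ) ≤ Real.log X ^ c ∧
            ∀ m < s, z.1 + m * z.2 ∈ GC e J i j R C t X A B ∧ χ (z.1 + m * z.2) = χ z.1) ∧
          (P : Set (ℕ × ℕ)).PairwiseDisjoint (apSet s) ∧
          (((GC e J i j R C t X A B \ P.biUnion (apSet s)).card : ℕ) : ℝ) ≤ δ * ((B : ℝ) - A) / Real.log X ^ k := by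
  classical
  have he0 : e ≠ 0 := by rcases he with h | h <;> rw [h] <;> norm_num
  obtain ⟨T, hT⟩ : ∃ T : Finset (ℤ × ℤ), T = ((range (R + 1)).filter (fun m => ∀ l, J l ≠ m)).image
      (fun m => ((2 : ℤ) ^ m, e * (2 ^ m - 1))) := ⟨_, rfl⟩
  have hTm : ∀ τ : ℤ × ℤ, τ ∈ T ↔ ∃ m ≤ R, (∀ l, J l ≠ m) ∧ τ = ((2 : ℤ) ^ m, e * (2 ^ m - 1)) := by
    intro τ
    rw [hT, mem_image]
    constructor
    · rintro ⟨m, hm, rfl⟩
      rw [mem_filter, mem_range] at hm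
      exact ⟨m, by omega, hm.2, rfl⟩
    · rintro ⟨m, h1, h2, rfl⟩
      exact ⟨m, by rw [mem_filter, mem_range]; exact ⟨by omega, h2⟩, rfl⟩
  have hpow : ∀ m n : ℕ, m ≠ n → (2 : ℤ) ^ m * (e * (2 ^ n - 1)) - 2 ^ n * (e * (2 ^ m - 1)) ≠ 0 := by
    intro m n hmn h0
    have h1 : e * ((2 : ℤ) ^ n - 2 ^ m) = 0 := by linear_combination h0
    rcases mul_eq_zero.1 h1 with h2 | h2
    · exact he0 h2
    · apply hmn
      have h3 : (2 : ℤ) ^ n = 2 ^ m := by linarith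
      have h4 : 2 ^ n = 2 ^ m := by exact_mod_cast h3
      exact (Nat.pow_right_injective le_rfl h4).symm
  obtain ⟨C, t, ht, κ, hκ, H⟩ := exactP (fun l => (2 : ℤ) ^ J l) (fun l => e * (2 ^ J l - 1)) (by
      intro p hp
      refine ⟨-e, fun l hd => ?_⟩
      have h1 : (2 : ℤ) ^ J l * (-e) + e * (2 ^ J l - 1) = -e := by ring
      have h2 : (p : ℤ) ∣ -e := by rw [← h1]; exact hd
      have h3 := (Nat.prime_iff_prime_int.1 hp).not_isUnit
      apply h3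
      apply isUnit_of_dvd_unit h2
      rcases he with h | h <;> rw [h] <;> norm_num) (by
      intro l
      exact pow_ne_zero _ (by norm_num)) (by
      intro l m hlm
      exact hpow _ _ (fun h => hlm (hJ h))) i j hij T (by
      intro τ hτ
      obtain ⟨m, _, _, rfl⟩ := (hTm τ).1 hτ
      exact pow_ne_zero _ (by norm_num)) (by
      intro τ hτ l
      obtain ⟨m, _, h2, rfl⟩ := (hTm τ).1 hτ
      exact hpow _ _ (h2 l).symm)
  have hval : ∀ (m : ℕ) (n : ℕ), (2 : ℤ) ^ m * (n : ℤ) + e * (2 ^ m - 1) = 2 ^ m * ((n : ℤ) + e) - e := by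
    intro m n
    ring
  have hgood : ∀ X A B : ℕ, GE' (fun l => (2 : ℤ) ^ J l) (fun l => e * (2 ^ J l - 1)) T i j C t X A B =
      GC e J i j R C t X A B := by
    intro X A B
    ext n
    unfold GE' GC
    rw [mem_filter, mem_filter]
    simp only [hval]
    refine and_congr_right (fun _ => and_congr_right (fun _ => and_congr_right (fun _ => and_congr_right (fun _ => ?_))))
    constructor
    · intro h m h1 h2
      obtain ⟨q, q1, q2, q3⟩ := h _ ((hTm _).2 ⟨m, h1, h2, rfl⟩)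
      refine ⟨q, q1, q2, ?_⟩
      simp only at q3
      rwa [hval] at q3
    · intro h τ hτ
      obtain ⟨m, h1, h2, rfl⟩ := (hTm τ).1 hτ
      simp only
      rw [hval]
      exact h m h1 h2
  refine ⟨C, t, ht, κ, hκ, fun s r θ δ hs hθ hδ => ?_⟩
  obtain ⟨c, X₀, h⟩ := H s r θ δ hs hθ hδ
  refine ⟨c, X₀, fun X hX A B hB hAB => ?_⟩
  have h1 := h X hX A B hB hAB
  rw [hgood] at h1
  exact h1

end Pool.Agent.X32.Uni
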