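import Pool.Agent.X32.Uni.ExactP

/-!
Isolated Cunningham chains of exact length.
-/

set_option autoImplicit false

namespace Pool.Agent.X32.Uni

open Finset Filter

variable {k : ℕ}

open Classical in
/-- the integers `n` of `(A, B]` for which the first `k` terms of the chain are almost primes, the terms up to `R` have
a bounded prime factor, and all other integers near the first `k` terms have a bounded prime factor -/
noncomputable def GQ (e : ℤ) (i j : Fin k) (R L C t X A B : ℕ) : Finset ℕ :=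
  (Ioc A B).filter (fun n : ℕ => (2 ^ (i : ℕ) * ((n : ℤ) + e) - e).natAbs.Prime ∧
    Almost 2 ((X : ℝ) ^ (1 / 9 : ℝ)) (2 ^ (j : ℕ) * ((n : ℤ) + e) - e) ∧
    (∀ l : Fin k, Almost t ((X : ℝ) ^ (1 / (t : ℝ))) (2 ^ (l : ℕ) * ((n : ℤ) + e) - e)) ∧
    (∀ m ≤ R, k ≤ m → ∃ q : ℕ, q.Prime ∧ q ≤ C ∧ (q : ℤ) ∣ 2 ^ m * ((n : ℤ) + e) - e) ∧
    ∀ (l : Fin k) (h : ℤ), h ≠ 0 → |h| ≤ L →
      ∃ q : ℕ, q.Prime ∧ q ≤ C ∧ (q : ℤ) ∣ 2 ^ (l : ℕ) * ((n : ℤ) + e) - e + h)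

theorem chainQ (e : ℤ) (he : e = 1 ∨ e = -1) (i j : Fin k) (hij : i ≠ j)
    (R L : ℕ) : ∃ C t : ℕ, 1 ≤ t ∧ ∃ κ : ℝ, 0 < κ ∧ ∀ (s r : ℕ) (θ δ : ℝ), 1 ≤ s → 0 < θ → 0 < δ → ∃ c X₀ : ℕ,
      ∀ X : ℕ, X₀ ≤ X → ∀ A B : ℕ, B ≤ X → θ * X ≤ (B : ℝ) - A →
        κ * ((B : ℝ) - A) / Real.log X ^ k ≤ ((GQ e i j R L C t X A B).card : ℝ) ∧
        ∀ χ : ℕ → Fin r, ∃ P : Finset (ℕ × ℕ),
          (∀ z ∈ P, 1 ≤ z.2 ∧ (z.2 : ℝ) ≤ Real.log X ^ c ∧
            ∀ m < s, z.1 + m * z.2 ∈ GQ e i j R L C t X A B ∧ χ (z.1 + m * z.2) = χ z.1) ∧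
          (P : Set (ℕ × ℕ)).PairwiseDisjoint (apSet s) ∧
          (((GQ e i j R L C t X A B \ P.biUnion (apSet s)).card : ℕ) : ℝ) ≤ δ * ((B : ℝ) - A) / Real.log X ^ k := by
  classical
  have he0 : e ≠ 0 := by rcases he with h | h <;> rw [h] <;> norm_num
  obtain ⟨T₁, hT₁⟩ : ∃ T : Finset (ℤ × ℤ), T = ((range (R + 1)).filter (fun m => k ≤ m)).image
      (fun m => ((2 : ℤ) ^ m, e * (2 ^ m - 1))) := ⟨_, rfl⟩
  have hT1m : ∀ τ : ℤ × ℤ, τ ∈ T₁ ↔ ∃ m ≤ R, k ≤ m ∧ τ = ((2 : ℤ) ^ m, e * (2 ^ m - 1)) := by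
    intro τ
    rw [hT₁, mem_image]
    constructor
    · rintro ⟨m, hm, rfl⟩
      rw [mem_filter, mem_range] at hm
      exact ⟨m, by omega, hm.2, rfl⟩
    · rintro ⟨m, h1, h2, rfl⟩
      exact ⟨m, by rw [mem_filter, mem_range]; exact ⟨by omega, h2⟩, rfl⟩
  obtain ⟨T₂, hT₂⟩ : ∃ T : Finset (ℤ × ℤ), T = (((univ : Finset (Fin k)) ×ˢ (Icc (-(L : ℤ)) L)).image
      (fun z => ((2 : ℤ) ^ (z.1 : ℕ), e * (2 ^ (z.1 : ℕ) - 1) + z.2))).filter
      (fun τ => ∀ l : Fin k, τ.1 * (e * (2 ^ (l : ℕ) - 1)) - 2 ^ (l : ℕ) * τ.2 ≠ 0) := ⟨_, rfl⟩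
  have hT2m : ∀ τ : ℤ × ℤ, τ ∈ T₂ ↔ (∃ (l : Fin k) (h : ℤ), |h| ≤ L ∧
      τ = ((2 : ℤ) ^ (l : ℕ), e * (2 ^ (l : ℕ) - 1) + h)) ∧
      ∀ l : Fin k, τ.1 * (e * (2 ^ (l : ℕ) - 1)) - 2 ^ (l : ℕ) * τ.2 ≠ 0 := by
    intro τ
    rw [hT₂, mem_filter, mem_image]
    refine and_congr_left (fun _ => ?_)
    constructor
    · rintro ⟨⟨l, h⟩, hm, rfl⟩
      rw [mem_product, mem_Icc] at hm
      exact ⟨l, h, abs_le.2 hm.2, rfl⟩
    · rintro ⟨l, h, h1, rfl⟩
      exact ⟨(l, h), by rw [mem_product, mem_Icc]; exact ⟨mem_univ _, abs_le.1 h1⟩, rfl⟩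
  have hpow : ∀ m n : ℕ, m ≠ n → (2 : ℤ) ^ m * (e * (2 ^ n - 1)) - 2 ^ n * (e * (2 ^ m - 1)) ≠ 0 := by
    intro m n hmn h0
    have h1 : e * ((2 : ℤ) ^ n - 2 ^ m) = 0 := by linear_combination h0
    rcases mul_eq_zero.1 h1 with h2 | h2
    · exact he0 h2
    · apply hmn
      have h3 : (2 : ℤ) ^ n = 2 ^ m := by linarith
      have h4 : 2 ^ n = 2 ^ m := by exact_mod_cast h3
      exact (Nat.pow_right_injective le_rfl h4).symm
  obtain ⟨C, t, ht, κ, hκ, H⟩ := exactP (fun l : Fin k => (2 : ℤ) ^ (l : ℕ)) (fun l : Fin k => e * (2 ^ (l : ℕ) - 1)) (by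
      intro p hp
      refine ⟨-e, fun l hd => ?_⟩
      have h1 : (2 : ℤ) ^ (l : ℕ) * (-e) + e * (2 ^ (l : ℕ) - 1) = -e := by ring
      have h2 : (p : ℤ) ∣ -e := by rw [← h1]; exact hd
      have h3 := (Nat.prime_iff_prime_int.1 hp).not_isUnit
      apply h3
      apply isUnit_of_dvd_unit h2
      rcases he with h | h <;> rw [h] <;> norm_num) (by
      intro l
      exact pow_ne_zero _ (by norm_num)) (by
      intro l m hlm
      exact hpow _ _ (fun h => hlm (Fin.ext h))) i j hij (T₁ ∪ T₂) (by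
      intro τ hτ
      rcases mem_union.1 hτ with hτ | hτ
      · obtain ⟨m, _, _, rfl⟩ := (hT1m τ).1 hτ
        exact pow_ne_zero _ (by norm_num)
      · obtain ⟨⟨l, h, _, rfl⟩, _⟩ := (hT2m τ).1 hτ
        exact pow_ne_zero _ (by norm_num)) (by
      intro τ hτ l
      rcases mem_union.1 hτ with hτ | hτ
      · obtain ⟨m, _, h2, rfl⟩ := (hT1m τ).1 hτ
        refine hpow _ _ (fun h => ?_)
        have := l.2
        omega
      · exact ((hT2m τ).1 hτ).2 l)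
  have hval : ∀ (m : ℕ) (n : ℕ), (2 : ℤ) ^ m * (n : ℤ) + e * (2 ^ m - 1) = 2 ^ m * ((n : ℤ) + e) - e := by
    intro m n
    ring
  have hval2 : ∀ (m : ℕ) (n : ℕ) (h : ℤ), (2 : ℤ) ^ m * (n : ℤ) + (e * (2 ^ m - 1) + h) =
      2 ^ m * ((n : ℤ) + e) - e + h := by
    intro m n h
    ring
  have hC2 : 1 ≤ L → 2 ≤ C := by
    intro hL
    obtain ⟨c, X₀, h⟩ := H 1 0 1 1 le_rfl one_pos one_pos
    obtain ⟨h1, _⟩ := h (max X₀ 3) (le_max_left _ _) 0 (max X₀ 3) le_rfl (by simp)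
    have h2 : 0 < κ * (((max X₀ 3 : ℕ) : ℝ) - ((0 : ℕ) : ℝ)) / Real.log ((max X₀ 3 : ℕ) : ℝ) ^ k := by
      have h3 : 3 ≤ max X₀ 3 := le_max_right _ _
      have h4 : (1 : ℝ) < ((max X₀ 3 : ℕ) : ℝ) := by exact_mod_cast (by omega : 1 < max X₀ 3)
      have h5 : 0 < Real.log ((max X₀ 3 : ℕ) : ℝ) := Real.log_pos h4
      rw [Nat.cast_zero, sub_zero]
      positivity
    have h3 := lt_of_lt_of_le h2 h1
    rw [Nat.cast_pos, card_pos] at h3
    obtain ⟨n, hn⟩ := h3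
    unfold GE' at hn
    rw [mem_filter] at hn
    have h0k : 0 < k := by
      have := i.isLt
      omega
    obtain ⟨q, q1, q2, _⟩ := hn.2.2.2.2 ((2 : ℤ) ^ (0 : ℕ), e * (2 ^ (0 : ℕ) - 1) + e) (mem_union_right _ ((hT2m _).2
      ⟨⟨⟨0, h0k⟩, e, by
        rcases he with h | h <;> rw [h] <;> simp <;> omega, rfl⟩, by
        intro l h6
        apply he0
        simp only [pow_zero, sub_self, mul_zero, zero_add, one_mul] at h6
        linear_combination -h6⟩))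
    exact q1.two_le.trans q2
  have hgood : ∀ X A B : ℕ, GE' (fun l : Fin k => (2 : ℤ) ^ (l : ℕ)) (fun l : Fin k => e * (2 ^ (l : ℕ) - 1)) (T₁ ∪ T₂)
      i j C t X A B = GQ e i j R L C t X A B := by
    intro X A B
    ext n
    unfold GE' GQ
    rw [mem_filter, mem_filter]
    simp only [hval]
    refine and_congr_right (fun _ => and_congr_right (fun _ => and_congr_right (fun _ => and_congr_right (fun _ => ?_))))
    constructor
    swap
    · rintro ⟨g1, g2⟩ τ hτ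
      rcases mem_union.1 hτ with hτ | hτ
      · obtain ⟨m, m1, m2, rfl⟩ := (hT1m τ).1 hτ
        simp only
        rw [hval]
        exact g1 m m1 m2
      · obtain ⟨⟨l, h, h1, rfl⟩, h2⟩ := (hT2m τ).1 hτ
        simp only
        rw [hval2]
        refine g2 l h ?_ h1
        intro h0
        apply h2 l
        rw [h0]
        ring
    intro h4
    refine ⟨?_, ?_⟩
    · intro m m1 m2
      obtain ⟨q, q1, q2, q3⟩ := h4 _ (mem_union_left _ ((hT1m _).2 ⟨m, m1, m2, rfl⟩))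
      refine ⟨q, q1, q2, ?_⟩
      simp only at q3
      rwa [hval] at q3
    · intro l h hh0 hhL
      by_cases hdet : ∀ m : Fin k, (2 : ℤ) ^ (l : ℕ) * (e * (2 ^ (m : ℕ) - 1)) - 2 ^ (m : ℕ) *
          (e * (2 ^ (l : ℕ) - 1) + h) ≠ 0
      · obtain ⟨q, q1, q2, q3⟩ := h4 _ (mem_union_right _ ((hT2m _).2 ⟨⟨l, h, hhL, rfl⟩, hdet⟩))
        refine ⟨q, q1, q2, ?_⟩
        simp only at q3
        rwa [hval2] at q3
      · push Not at hdet
        obtain ⟨m, hm⟩ := hdet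
        have hL1 : 1 ≤ L := by
          by_contra h6
          have h7 : L = 0 := by omega
          rw [h7, Nat.cast_zero] at hhL
          exact hh0 (abs_nonpos_iff.1 hhL)
        refine ⟨2, Nat.prime_two, hC2 hL1, ?_⟩
        -- `2 ^ m * h = e * (2 ^ m - 2 ^ l)`
        have h5 : (2 : ℤ) ^ (m : ℕ) * h = e * (2 ^ (m : ℕ) - 2 ^ (l : ℕ)) := by linear_combination -hm
        have hml : (m : ℕ) < l := by
          by_contra hlm
          rcases Nat.lt_or_ge (l : ℕ) m with h6 | h6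
          · -- `2 ^ (m - l) * h = e * (2 ^ (m - l) - 1)`
            obtain ⟨d, hd⟩ : ∃ d : ℕ, (m : ℕ) = l + (d + 1) := ⟨m - l - 1, by omega⟩
            have h7 : (2 : ℤ) ^ (d + 1) * h = e * (2 ^ (d + 1) - 1) := by
              have h8 : (2 : ℤ) ^ (l : ℕ) * (2 ^ (d + 1) * h) = 2 ^ (l : ℕ) * (e * (2 ^ (d + 1) - 1)) := by
                rw [hd] at h5
                rw [pow_add] at h5
                linear_combination h5
              exact mul_left_cancel₀ (pow_ne_zero _ (by norm_num)) h8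
            have h9 : (2 : ℤ) ∣ e := by
              refine ⟨e * 2 ^ d - 2 ^ d * h, ?_⟩
              rw [pow_succ] at h7
              linear_combination h7
            rcases he with h | h <;> rw [h] at h9 <;> norm_num at h9
          · have h7 : (m : ℕ) = l := by omega
            apply hh0
            rw [h7, sub_self, mul_zero] at h5
            rcases mul_eq_zero.1 h5 with h8 | h8
            · exact absurd h8 (pow_ne_zero _ (by norm_num))
            · exact h8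
        obtain ⟨d, hd⟩ : ∃ d : ℕ, (l : ℕ) = m + (d + 1) := ⟨l - m - 1, by omega⟩
        have h7 : h = e * (1 - 2 ^ (d + 1)) := by
          have h8 : (2 : ℤ) ^ (m : ℕ) * h = 2 ^ (m : ℕ) * (e * (1 - 2 ^ (d + 1))) := by
            rw [hd] at h5
            rw [pow_add] at h5
            linear_combination h5
          exact mul_left_cancel₀ (pow_ne_zero _ (by norm_num)) h8
        rw [h7, hd]
        refine ⟨2 ^ ((m : ℕ) + d) * ((n : ℤ) + e) - e * 2 ^ d, ?_⟩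
        rw [Nat.cast_ofNat, ← add_assoc, pow_succ, pow_succ]
        ring
  refine ⟨C, t, ht, κ, hκ, fun s r θ δ hs hθ hδ => ?_⟩
  obtain ⟨c, X₀, h⟩ := H s r θ δ hs hθ hδ
  refine ⟨c, X₀, fun X hX A B hB hAB => ?_⟩
  have h1 := h X hX A B hB hAB
  rw [hgood] at h1
  exact h1

end Pool.Agent.X32.Uni
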