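import Pool.Agent.X32.CL.Top2

/-!
Chen's theorem for two linear forms, uniformly in the slopes.
-/

set_option autoImplicit false

namespace Pool.Agent.X32.Uni

open Finset Filter
open Pool.Agent.Y843.HS (VV)
open Pool.Agent.Y843.HG (Z0)
open Pool.Agent.Y843.CH
open Pool.Agent.X32.CL

/-- the statement for one pair of slopes -/
def Pch (r z t : ℕ) (s : ℕ × ℤ) (c : ℝ) : Prop :=
  ∀ θ : ℝ, 0 < θ → ∀ᶠ X : ℕ in atTop, ∀ (H : ℤ) (a A B : ℕ) (Om : ℕ → Finset ℕ),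
    CLd r z ⌊(X : ℝ) ^ (1 / (t : ℝ))⌋₊ X s.1 s.2 H a A B Om → θ * X ≤ (B : ℝ) - A →
      c * ((B : ℝ) - A) * VV (Z0 Om) 0 ⌊(X : ℝ) ^ (1 / (t : ℝ))⌋₊ ≤
        ((GD2 (max A (Nat.sqrt X)) B (Nat.sqrt X) z ⌊(X : ℝ) ^ (1 / (t : ℝ))⌋₊ (s.1 * Mz z) a s.1 s.2 H Om).card : ℝ)

theorem Pch.anti {r z t : ℕ} {s : ℕ × ℤ} {c c' : ℝ} (h : c ≤ c') (h' : Pch r z t s c') : Pch r z t s c := by
  intro θ hθ
  filter_upwards [h' θ hθ] with X hX H a A B Om E hAB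
  refine le_trans ?_ (hX H a A B Om E hAB)
  apply mul_le_mul_of_nonneg_right _ (VV_nonneg E.adm)
  apply mul_le_mul_of_nonneg_right h
  exact le_trans (by positivity) hAB

theorem chenU (r z1 : ℕ) : ∃ z : ℕ, z1 ≤ z ∧ r + 5 ≤ z ∧ ∃ t : ℕ, 32 ≤ t ∧ ∃ c : ℝ, 0 < c ∧ ∀ θ : ℝ, 0 < θ →
    ∃ X₀ : ℕ, ∀ X : ℕ, X₀ ≤ X → ∀ (u : ℕ) (w : ℤ), 0 < u → w ≠ 0 → u ≤ z1 → w.natAbs ≤ z1 →
      ∀ (H : ℤ) (a A B : ℕ) (Om : ℕ → Finset ℕ),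
      CLd r z ⌊(X : ℝ) ^ (1 / (t : ℝ))⌋₊ X u w H a A B Om → θ * X ≤ (B : ℝ) - A →
      c * ((B : ℝ) - A) * VV (Z0 Om) 0 ⌊(X : ℝ) ^ (1 / (t : ℝ))⌋₊ ≤
        ((GD2 (max A (Nat.sqrt X)) B (Nat.sqrt X) z ⌊(X : ℝ) ^ (1 / (t : ℝ))⌋₊ (u * Mz z) a u w H Om).card : ℝ) := by
  classical
  obtain ⟨z, hz1, hz2, t, ht, HC⟩ := chenL r z1
  refine ⟨z, hz1, hz2, t, ht, ?_⟩
  obtain ⟨S, hS⟩ : ∃ S : Finset (ℕ × ℤ), S = (Icc 1 z1) ×ˢ ((Icc (-(z1 : ℤ)) z1).erase 0) := ⟨_, rfl⟩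
  have key : ∀ S' : Finset (ℕ × ℤ), S' ⊆ S → ∃ c : ℝ, 0 < c ∧ ∀ s ∈ S', Pch r z t s c := by
    intro S'
    induction S' using Finset.induction with
    | empty => exact fun _ => ⟨1, one_pos, by simp⟩
    | insert s S' hs ih =>
      intro hsub
      obtain ⟨c, hc, h1⟩ := ih ((subset_insert s S').trans hsub)
      have h2 := hsub (mem_insert_self s S')
      rw [hS, mem_product, mem_Icc, mem_erase, mem_Icc] at h2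
      obtain ⟨⟨a1, a2⟩, a3, a4, a5⟩ := h2
      obtain ⟨c', hc', h3⟩ := HC s.1 s.2 (by omega) a3 (by omega) (by omega)
      refine ⟨min c c', lt_min hc hc', ?_⟩
      intro s' hs'
      rcases mem_insert.1 hs' with rfl | hs'
      · refine Pch.anti (min_le_right _ _) ?_
        intro θ hθ
        obtain ⟨X₀, hX₀⟩ := h3 θ hθ
        exact eventually_atTop.2 ⟨X₀, hX₀⟩
      · exact (h1 s' hs').anti (min_le_left _ _)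
  obtain ⟨c, hc, h1⟩ := key S (Finset.Subset.refl S)
  refine ⟨c, hc, fun θ hθ => ?_⟩
  have h2 : ∀ᶠ X : ℕ in atTop, ∀ s ∈ S, ∀ (H : ℤ) (a A B : ℕ) (Om : ℕ → Finset ℕ),
    CLd r z ⌊(X : ℝ) ^ (1 / (t : ℝ))⌋₊ X s.1 s.2 H a A B Om → θ * X ≤ (B : ℝ) - A →
      c * ((B : ℝ) - A) * VV (Z0 Om) 0 ⌊(X : ℝ) ^ (1 / (t : ℝ))⌋₊ ≤
        ((GD2 (max A (Nat.sqrt X)) B (Nat.sqrt X) z ⌊(X : ℝ) ^ (1 / (t : ℝ))⌋₊ (s.1 * Mz z) a s.1 s.2 H Om).card : ℝ) := by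
    rw [Filter.eventually_all_finset]
    intro s hs
    exact h1 s hs θ hθ
  obtain ⟨X₀, hX₀⟩ := eventually_atTop.1 h2
  refine ⟨X₀, fun X hX u w hu hw huz hwz => ?_⟩
  refine hX₀ X hX (u, w) ?_
  rw [hS, mem_product, mem_Icc, mem_erase, mem_Icc]
  exact ⟨⟨hu, huz⟩, hw, by omega, by omega⟩

end Pool.Agent.X32.Uni
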