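import Pool.Agent.X32.Uni.Pairs

/-!
Chen's theorem for tuples, isolated in a window: all other integers near `n` have a bounded prime factor.
-/

set_option autoImplicit false

namespace Pool.Agent.X32.Uni

open Finset Filter

variable {k : ℕ}

/-- congruences which force a bounded prime factor in the integers near `n` outside of the pattern -/
theorem iso_mod (h : Fin k → ℕ) (L : ℕ) : ∃ W r : ℕ, 1 ≤ W ∧
    (∀ p : ℕ, p.Prime → p ∣ W → ∀ l, ¬ p ∣ r + h l) ∧
    ∀ n : ℕ, n ≡ r [MOD W] → ∀ m : ℕ, n ≤ m + L → m ≤ n + L → (∀ l, m ≠ n + h l) →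
      ∃ q : ℕ, q.Prime ∧ q ≤ W ∧ q ∣ m := by
  classical
  obtain ⟨M, hM⟩ : ∃ M : ℕ, M = L + ∑ l, h l + 1 := ⟨_, rfl⟩
  have hle : ∀ l, h l ≤ ∑ l, h l := fun l => single_le_sum (f := h) (fun _ _ => Nat.zero_le _) (mem_univ l)
  obtain ⟨P, hP⟩ : ∃ P : ℤ → ℕ, P = fun d : ℤ => Nat.nth Nat.Prime (M + (d + (L : ℤ)).toNat) := ⟨_, rfl⟩
  have hPp : ∀ d, (P d).Prime := fun d => by
    rw [hP]
    exact Nat.nth_mem_of_infinite Nat.infinite_setOfPred_prime _
  have hPM : ∀ d, M < P d := fun d => by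
    rw [hP]
    have := Nat.add_two_le_nth_prime (M + (d + (L : ℤ)).toNat)
    simp only
    omega
  obtain ⟨D, hD⟩ : ∃ D : Finset ℤ, D = (Icc (-(L : ℤ)) L).filter (fun d : ℤ => ∀ l, d ≠ (h l : ℤ)) := ⟨_, rfl⟩
  have hinj : ∀ d ∈ D, ∀ d' ∈ D, d ≠ d' → P d ≠ P d' := by
    intro d hd d' hd' hne heq
    rw [hD, mem_filter, mem_Icc] at hd hd'
    rw [hP] at heq
    have h1 := Nat.nth_injective Nat.infinite_setOfPred_prime heq
    apply hne
    omega
  obtain ⟨⟨r, hr⟩⟩ : Nonempty {r : ℕ // ∀ d ∈ D, r ≡ ((-d) % (P d : ℤ)).toNat [MOD P d]} :=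
    ⟨Nat.chineseRemainderOfFinset (fun d : ℤ => ((-d) % (P d : ℤ)).toNat) P D (fun d _ => (hPp d).ne_zero) (by
      intro d hd d' hd' hne
      exact (Nat.coprime_primes (hPp d) (hPp d')).2 (hinj d hd d' hd' hne))⟩
  have hrz : ∀ d ∈ D, (P d : ℤ) ∣ (r : ℤ) + d := by
    intro d hd
    have hp0 : (0 : ℤ) < P d := by exact_mod_cast (hPp d).pos
    have h1 := Int.natCast_modEq_iff.2 (hr d hd)
    rw [Int.toNat_of_nonneg (Int.emod_nonneg _ hp0.ne')] at h1
    have h2 : (r : ℤ) ≡ -d [ZMOD P d] := h1.trans (Int.mod_modEq _ _)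
    have h3 := Int.modEq_iff_dvd.1 h2.symm
    have h4 : (r : ℤ) - -d = r + d := by ring
    rwa [h4] at h3
  refine ⟨∏ d ∈ D, P d, r, Nat.one_le_iff_ne_zero.2 (prod_ne_zero_iff.2 fun d _ => (hPp d).ne_zero), ?_, ?_⟩
  · intro p hp hpW l hd
    obtain ⟨d, hdD, hpd⟩ := (hp.prime.dvd_finset_prod_iff _).1 hpW
    have h1 : p = P d := (Nat.prime_dvd_prime_iff_eq hp (hPp d)).1 hpd
    subst h1
    have h2 : (P d : ℤ) ∣ (r : ℤ) + h l := by exact_mod_cast hd
    have h3 := dvd_sub h2 (hrz d hdD)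
    have h4 : (r : ℤ) + h l - (r + d) = h l - d := by ring
    rw [h4] at h3
    have h5 := hdD
    rw [hD, mem_filter, mem_Icc] at h5
    have h6 : (h l : ℤ) - d ≠ 0 := fun h0 => h5.2 l (by linarith)
    have h7 := Int.le_of_dvd (abs_pos.2 h6) ((dvd_abs _ _).2 h3)
    have h8 := hPM d
    have h9 := hle l
    have h10 : |(h l : ℤ) - d| ≤ h l + L := by
      rw [abs_le]
      constructor <;> omega
    omega
  · intro n hn m h1 h2 h3
    obtain ⟨d, hd⟩ : ∃ d : ℤ, d = (m : ℤ) - n := ⟨_, rfl⟩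
    have hdD : d ∈ D := by
      rw [hD, mem_filter, mem_Icc]
      refine ⟨by omega, fun l hl => h3 l ?_⟩
      omega
    have hPW : P d ∣ ∏ d ∈ D, P d := dvd_prod_of_mem _ hdD
    refine ⟨P d, hPp d, Nat.le_of_dvd (Nat.pos_of_ne_zero (prod_ne_zero_iff.2 fun d _ => (hPp d).ne_zero)) hPW, ?_⟩
    have h4 : n ≡ r [MOD P d] := hn.of_dvd hPW
    have h5 : (P d : ℤ) ∣ (r : ℤ) - n := Int.modEq_iff_dvd.1 (Int.natCast_modEq_iff.2 h4)
    have h6 := dvd_sub (hrz d hdD) h5
    have h7 : (r : ℤ) + d - (r - n) = m := by rw [hd]; ring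
    rw [h7] at h6
    exact Int.natCast_dvd_natCast.1 h6

/-- the tuple is admissible -/
def AdmT (h : Fin k → ℕ) : Prop := ∀ p : ℕ, p.Prime → ∃ n : ℕ, ∀ l, ¬ p ∣ n + h l

theorem adm_one {h : Fin k → ℕ} (H : AdmT h) : AdmL (fun _ => 1) (fun l => (h l : ℤ)) := by
  intro p hp
  obtain ⟨n, hn⟩ := H p hp
  refine ⟨n, fun i hd => hn i ?_⟩
  have hd' : (p : ℤ) ∣ 1 * (n : ℤ) + (h i : ℤ) := hd
  rw [one_mul] at hd'
  exact_mod_cast hd'

theorem adm_W {h : Fin k → ℕ} (H : AdmT h) {W r : ℕ}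
    (hW : ∀ p : ℕ, p.Prime → p ∣ W → ∀ l, ¬ p ∣ r + h l) :
    AdmL (fun _ => (W : ℤ)) (fun l => ((r + h l : ℕ) : ℤ)) := by
  intro p hp
  by_cases hpW : p ∣ W
  · refine ⟨0, fun i hd => hW p hp hpW i ?_⟩
    rw [mul_zero, zero_add] at hd
    exact Int.natCast_dvd_natCast.1 hd
  · obtain ⟨n, hn⟩ := H p hp
    have hpi := Nat.prime_iff_prime_int.1 hp
    have hc : IsCoprime (W : ℤ) p := (hpi.coprime_iff_not_dvd.2 (by exact_mod_cast hpW)).symm
    obtain ⟨u, v, huv⟩ := hc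
    refine ⟨u * (n - r), fun i hd => hn i ?_⟩
    have h1 : (W : ℤ) * (u * (n - r)) + ((r + h i : ℕ) : ℤ) = ((n + h i : ℕ) : ℤ) + p * (- v * (n - r)) := by
      push_cast
      linear_combination ((n : ℤ) - r) * huv
    rw [h1] at hd
    have h2 := dvd_sub hd (dvd_mul_right (p : ℤ) (- v * (n - r)))
    rw [add_sub_cancel_right] at h2
    exact Int.natCast_dvd_natCast.1 h2

theorem omL_W {h : Fin k → ℕ} {W r : ℕ} (hW : ∀ p : ℕ, p.Prime → p ∣ W → ∀ l, ¬ p ∣ r + h l)
    {p : ℕ} (hp : p.Prime) : omL (fun _ => (W : ℤ)) (fun l => ((r + h l : ℕ) : ℤ)) p ≤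
      omL (fun _ => 1) (fun l => (h l : ℤ)) p := by
  classical
  have hpi := Nat.prime_iff_prime_int.1 hp
  unfold omL
  by_cases hpW : p ∣ W
  · have h0 : (range p).filter (fun n : ℕ => (p : ℤ) ∣ ∏ i, ((fun _ => (W : ℤ)) i * (n : ℤ) +
        (fun l => ((r + h l : ℕ) : ℤ)) i)) = ∅ := by
      rw [filter_eq_empty_iff]
      intro n _ hd
      obtain ⟨i, _, hi⟩ := hpi.exists_mem_finset_dvd hd
      apply hW p hp hpW i
      have h1 : (p : ℤ) ∣ (W : ℤ) * n := (Int.natCast_dvd_natCast.2 hpW).mul_right _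
      have h2 := dvd_sub hi h1
      rw [add_sub_cancel_left] at h2
      exact Int.natCast_dvd_natCast.1 h2
    rw [h0]
    simp
  · apply card_le_card_of_injOn (fun n => (W * n + r) % p)
    · intro n hn
      rw [mem_coe, mem_filter] at hn
      rw [mem_coe, mem_filter, mem_range]
      refine ⟨Nat.mod_lt _ hp.pos, ?_⟩
      obtain ⟨i, _, hi⟩ := hpi.exists_mem_finset_dvd hn.2
      refine Dvd.dvd.trans ?_ (dvd_prod_of_mem _ (mem_univ i))
      have h1 : (p : ℤ) ∣ ((W * n + r : ℕ) : ℤ) - (((W * n + r) % p : ℕ) : ℤ) := by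
        push_cast
        exact Int.dvd_self_sub_emod
      have h2 := dvd_sub hi h1
      have h3 : (W : ℤ) * n + ((r + h i : ℕ) : ℤ) - (((W * n + r : ℕ) : ℤ) - (((W * n + r) % p : ℕ) : ℤ)) =
          1 * ((((W * n + r) % p : ℕ)) : ℤ) + (h i : ℤ) := by
        push_cast
        ring
      rw [h3] at h2
      exact h2
    · intro n hn n' hn' he
      rw [mem_coe, mem_filter, mem_range] at hn hn'
      have h1 : W * n + r ≡ W * n' + r [MOD p] := he
      have h2 : W * n ≡ W * n' [MOD p] := Nat.ModEq.add_right_cancel' r h1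
      have h3 : n ≡ n' [MOD p] :=
        Nat.ModEq.cancel_left_of_coprime ((Nat.Prime.coprime_iff_not_dvd hp).2 hpW) h2
      exact Nat.ModEq.eq_of_lt_of_lt h3 hn.1 hn'.1

theorem VL_W {h : Fin k → ℕ} (H : AdmT h) {W r : ℕ}
    (hW : ∀ p : ℕ, p.Prime → p ∣ W → ∀ l, ¬ p ∣ r + h l) (X : ℕ) :
    VL (fun _ => 1) (fun l => (h l : ℤ)) X ≤ VL (fun _ => (W : ℤ)) (fun l => ((r + h l : ℕ) : ℤ)) X := by
  unfold VL
  apply Finset.prod_le_prod
  · intro p hp
    have hpp := (mem_filter.1 hp).2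
    have := (fac_bounds (loc_lf (adm_one H)) hpp).1.le
    rwa [om_lf] at this
  · intro p hp
    have hpp := (mem_filter.1 hp).2
    have hp0 : (0 : ℝ) < p := by exact_mod_cast hpp.pos
    have h1 : (omL (fun _ => (W : ℤ)) (fun l => ((r + h l : ℕ) : ℤ)) p : ℝ) ≤
        omL (fun _ => 1) (fun l => (h l : ℤ)) p := by exact_mod_cast omL_W hW hpp
    have := div_le_div_of_nonneg_right h1 hp0.le
    linarith

open Classical in
/-- the good `n` -/
noncomputable def GT (h : Fin k → ℕ) (i j : Fin k) (L C t X A B : ℕ) : Finset ℕ :=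
  (Ioc A B).filter (fun n : ℕ => (n + h i).Prime ∧ Almost 2 ((X : ℝ) ^ (1 / 9 : ℝ)) ((n + h j : ℕ) : ℤ) ∧
    (∀ l, Almost t ((X : ℝ) ^ (1 / (t : ℝ))) ((n + h l : ℕ) : ℤ)) ∧
    ∀ m : ℕ, n ≤ m + L → m ≤ n + L → (∀ l, m ≠ n + h l) → ∃ q : ℕ, q.Prime ∧ q ≤ C ∧ q ∣ m)

theorem Almost.mono {r s : ℕ} {y z : ℝ} {v : ℤ} (h : Almost r y v) (hrs : r ≤ s) (hz : z ≤ y) : Almost s z v :=
  ⟨h.1, h.2.1.trans hrs, fun q hq hd => lt_of_le_of_lt hz (h.2.2 q hq hd)⟩

theorem consU (hk : 1 ≤ k) (h : Fin k → ℕ) (hinj : Function.Injective h) (H : AdmT h) (i j : Fin k) (hij : i ≠ j)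
    (L : ℕ) : ∃ C t : ℕ, 1 ≤ t ∧ ∃ κ : ℝ, 0 < κ ∧ ∀ θ : ℝ, 0 < θ →
    (∃ X₀ : ℕ, ∀ X : ℕ, X₀ ≤ X → κ / Real.log X ^ k ≤ VL (fun _ => 1) (fun l => (h l : ℤ)) X ∧
      ∀ A B : ℕ, B ≤ X → θ * X ≤ (B : ℝ) - A →
        κ * ((B : ℝ) - A) * VL (fun _ => 1) (fun l => (h l : ℤ)) X ≤ ((GT h i j L C t X A B).card : ℝ)) ∧
    ∀ s : ℕ, ∀ δ : ℝ, 0 < δ → ∃ c X₀ : ℕ, ∀ X : ℕ, X₀ ≤ X →
      ∀ A B : ℕ, B ≤ X → θ * X ≤ (B : ℝ) - A →
        ∀ S : Finset ℕ, S ⊆ GT h i j L C t X A B →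
          δ * ((B : ℝ) - A) * VL (fun _ => 1) (fun l => (h l : ℤ)) X ≤ S.card →
        ∃ n d : ℕ, 1 ≤ d ∧ (d : ℝ) ≤ Real.log X ^ c ∧ ∀ l < s, n + l * d ∈ S := by
  classical
  obtain ⟨W, r, hW1, hW2, hW3⟩ := iso_mod h L
  obtain ⟨t, ht, κ, hκ, HL⟩ := linU k W hk
  have hW0 : (0 : ℝ) < W := by exact_mod_cast hW1
  obtain ⟨d0, hd0⟩ : ∃ d0, k = d0 + 1 := ⟨k - 1, by omega⟩
  obtain ⟨cV, hcV, hV⟩ := V_low d0
  have hdeg : ∀ l, (lf (fun _ : Fin k => (1 : ℤ)) (fun l => (h l : ℤ)) l).natDegree = 1 :=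
    fun l => lf_deg _ _ l one_ne_zero
  have hVlow : ∀ X : ℕ, 2 ≤ X → cV / Real.log X ^ k ≤ VL (fun _ : Fin k => 1) (fun l => (h l : ℤ)) X := by
    intro X hX
    have h1 := hV k (lf (fun _ => 1) (fun l => (h l : ℤ))) X hX (loc_lf (adm_one H)) (by
      simp only [hdeg]
      simp [← hd0])
    rw [V_lf, ← hd0] at h1
    exact h1
  refine ⟨W, t, ht, min (κ / (2 * W)) cV, by positivity, fun θ hθ => ?_⟩
  obtain ⟨K, hK⟩ : ∃ K : ℕ, K = W + r + ∑ l, h l := ⟨_, rfl⟩
  have hle : ∀ l, h l ≤ ∑ l, h l := fun l => single_le_sum (f := h) (fun _ _ => Nat.zero_le _) (mem_univ l)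
  obtain ⟨⟨X₁, h1⟩, _⟩ := HL (θ / (2 * W)) (by positivity) K
  obtain ⟨N₁, hN₁⟩ := exists_nat_gt ((4 * W + 2 * r) / θ)
  have hVX : ∀ X : ℕ, max X₁ (max N₁ 3) ≤ X → min (κ / (2 * W)) cV / Real.log X ^ k ≤
      VL (fun _ : Fin k => 1) (fun l => (h l : ℤ)) X := by
    intro X hX
    have hX3 : 3 ≤ X := (le_max_right _ _).trans ((le_max_right _ _).trans hX)
    have hlog : 0 < Real.log X := Real.log_pos (by exact_mod_cast (by omega : 1 < X))
    exact (div_le_div_of_nonneg_right (min_le_right _ _) (by positivity)).trans (hVlow X (by omega))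
  constructor
  · refine ⟨max X₁ (max N₁ 3), fun X hX => ⟨hVX X hX, fun A B hB hAB => ?_⟩⟩
    have hX1 : X₁ ≤ X := (le_max_left _ _).trans hX
    have hXN : N₁ ≤ X := (le_max_left _ _).trans ((le_max_right _ _).trans hX)
    have hX3 : 3 ≤ X := (le_max_right _ _).trans ((le_max_right _ _).trans hX)
    have hX0 : (0 : ℝ) < X := by exact_mod_cast (by omega : 0 < X)
    have S : SysL k W K X (fun _ => (W : ℤ)) (fun l => ((r + h l : ℕ) : ℤ)) i j :=
      { a0 := fun l => by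
          have : (0 : ℤ) < W := by exact_mod_cast hW1
          exact this.ne'
        aE := by simp
        aE' := by simp
        aK := fun l => by
          rw [Nat.abs_cast]
          exact_mod_cast (by omega : W ≤ K)
        bK := fun l => by
          rw [Nat.abs_cast]
          have h2 := hle l
          have h3 : r + h l ≤ K * X := by
            calc r + h l ≤ K := by omega
              _ ≤ K * X := Nat.le_mul_of_pos_right _ (by omega)
          exact_mod_cast h3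
        adm := adm_W H hW2
        ne := fun h2 => by
          have h3 := (Prod.ext_iff.1 h2).2
          simp only [Nat.cast_inj] at h3
          exact hij (hinj (show h i = h j by omega))
        ne' := fun h2 => by
          have h3 := (Prod.ext_iff.1 h2).1
          have h4 : (W : ℤ) = - (W : ℤ) := h3
          have : (0 : ℤ) < W := by exact_mod_cast hW1
          omega }
    have hsize : 4 * (W : ℝ) + 2 * r ≤ θ * X := by
      have h2 : (4 * W + 2 * r) / θ ≤ X := by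
        have : (N₁ : ℝ) ≤ X := by exact_mod_cast hXN
        linarith
      have h3 := (div_le_iff₀ hθ).1 h2
      linarith
    obtain ⟨A', hA'⟩ : ∃ A' : ℕ, A' = (A - r) / W := ⟨_, rfl⟩
    obtain ⟨B', hB'⟩ : ∃ B' : ℕ, B' = (B - r) / W := ⟨_, rfl⟩
    have hBr : A + 2 * r ≤ B := by
      have h2 : (A : ℝ) + 2 * r ≤ B := by
        have : (0 : ℝ) ≤ 4 * W := by positivity
        linarith
      exact_mod_cast h2
    have hB'X : B' ≤ X := by
      rw [hB']
      exact (Nat.div_le_self _ _).trans ((Nat.sub_le _ _).trans hB)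
    have hB'lt : B - r < W * (B' + 1) := by
      rw [hB']
      exact Nat.lt_mul_div_succ _ hW1
    have hA'lt : A - r < W * (A' + 1) := by
      rw [hA']
      exact Nat.lt_mul_div_succ _ hW1
    have hlen : ((B : ℝ) - A) / (2 * W) ≤ (B' : ℝ) - A' := by
      have h2 : (W : ℝ) * A' ≤ A := by
        have h3 : W * A' ≤ A := by
          rw [hA']
          exact (Nat.mul_div_le _ _).trans (Nat.sub_le _ _)
        exact_mod_cast h3
      have h3 : (B : ℝ) < W * (B' + 1) + r := by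
        have h4 : B < W * (B' + 1) + r := by omega
        exact_mod_cast h4
      rw [div_le_iff₀ (by positivity)]
      nlinarith
    have hθ' : θ / (2 * W) * X ≤ (B' : ℝ) - A' := by
      refine le_trans ?_ hlen
      rw [div_mul_eq_mul_div]
      exact div_le_div_of_nonneg_right hAB (by positivity)
    have h3 := (h1 X hX1 _ _ i j S).2 A' B' hB'X hθ'
    have hcard : (GoodL (fun _ => (W : ℤ)) (fun l => ((r + h l : ℕ) : ℤ)) i j t X A' B').card ≤
        (GT h i j L W t X A B).card := by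
      apply card_le_card_of_injOn (fun y => W * y + r)
      · intro y hy
        rw [mem_coe] at hy ⊢
        unfold GoodL at hy
        rw [mem_filter, mem_Ioc] at hy
        obtain ⟨⟨y1, y2⟩, y3, y4, y5⟩ := hy
        have hcast : ∀ l, (W : ℤ) * (y : ℤ) + ((r + h l : ℕ) : ℤ) = (((W * y + r) + h l : ℕ) : ℤ) := by
          intro l
          push_cast
          ring
        simp only [hcast] at y3 y4 y5
        unfold GT
        rw [mem_filter, mem_Ioc]
        refine ⟨⟨?_, ?_⟩, ?_, y4, y5, ?_⟩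
        · have h5 : W * (A' + 1) ≤ W * y := Nat.mul_le_mul_left _ y1
          show A < W * y + r
          omega
        · have h4 : W * y ≤ W * B' := Nat.mul_le_mul_left _ y2
          have h5 : W * B' ≤ B - r := by
            rw [hB']
            exact Nat.mul_div_le _ _
          show W * y + r ≤ B
          omega
        · rw [Int.natAbs_natCast] at y3
          exact y3
        · intro m hm1 hm2 hm3
          apply hW3 (W * y + r) _ m hm1 hm2 hm3
          unfold Nat.ModEq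
          rw [add_comm, Nat.add_mul_mod_self_left]
      · intro y _ y' _ he
        simp only at he
        have h4 : W * y = W * y' := by omega
        exact Nat.eq_of_mul_eq_mul_left hW1 h4
    have hcard' : ((GoodL (fun _ => (W : ℤ)) (fun l => ((r + h l : ℕ) : ℤ)) i j t X A' B').card : ℝ) ≤
        (GT h i j L W t X A B).card := by exact_mod_cast hcard
    have hVle := VL_W H hW2 X
    have hV0 : 0 ≤ VL (fun _ : Fin k => 1) (fun l => (h l : ℤ)) X := by
      refine le_trans ?_ (hVlow X (by omega))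
      have hlog : 0 < Real.log X := Real.log_pos (by exact_mod_cast (by omega : 1 < X))
      positivity
    have hBA0 : 0 ≤ (B : ℝ) - A := le_trans (by positivity) hAB
    calc min (κ / (2 * W)) cV * ((B : ℝ) - A) * VL (fun _ => 1) (fun l => (h l : ℤ)) X ≤
          κ / (2 * W) * ((B : ℝ) - A) * VL (fun _ => 1) (fun l => (h l : ℤ)) X := by
          apply mul_le_mul_of_nonneg_right _ hV0
          exact mul_le_mul_of_nonneg_right (min_le_left _ _) hBA0
      _ = κ * (((B : ℝ) - A) / (2 * W)) * VL (fun _ => 1) (fun l => (h l : ℤ)) X := by ring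
      _ ≤ κ * ((B' : ℝ) - A') * VL (fun _ => (W : ℤ)) (fun l => ((r + h l : ℕ) : ℤ)) X := by
          apply mul_le_mul _ hVle hV0
          · exact mul_nonneg hκ.le (le_trans (div_nonneg hBA0 (by positivity)) hlen)
          · exact mul_le_mul_of_nonneg_left hlen hκ.le
      _ ≤ _ := h3.trans hcard'
  · intro s δ hδ
    obtain ⟨c, X₂, h3⟩ := prog_dense k (max t 2) (le_max_right _ _) s θ δ (min (κ / (2 * W)) cV) hθ hδ (by positivity)
    refine ⟨c, max (max X₁ (max N₁ 3)) X₂, fun X hX A B hB hAB S hS hSc => ?_⟩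
    have hX1 := (le_max_left _ _).trans hX
    have hX3 : 3 ≤ X := (le_max_right _ _).trans ((le_max_right _ _).trans hX1)
    refine h3 X ((le_max_right _ _).trans hX) k (lf (fun _ => 1) (fun l => (h l : ℤ))) ?_ (loc_lf (adm_one H)) ?_
      A B hB hAB S ?_ ?_ ?_
    · simp only [hdeg]
      simp
    · rw [V_lf]
      exact hVX X hX1
    · intro x hx
      exact (mem_filter.1 (hS hx)).1
    · intro x hx _ l q hq hd
      have h5 := hS hx
      unfold GT at h5
      rw [mem_filter] at h5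
      rw [lf_eval, one_mul] at hd
      have h6 := (h5.2.2.2.1 l).2.2 q hq (by exact_mod_cast hd)
      refine lt_of_le_of_lt ?_ h6
      apply Real.rpow_le_rpow_of_exponent_le (by exact_mod_cast (by omega : 1 ≤ X))
      have ht0 : (0 : ℝ) < t := by exact_mod_cast ht
      apply one_div_le_one_div_of_le ht0
      exact_mod_cast le_max_left t 2
    · rw [V_lf]
      exact hSc

end Pool.Agent.X32.Uni
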