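import Pool.Agent.X32.Uni.MainE

/-!
Arbitrary systems of polynomials with bounded contents and coefficients up to a power of the length, uniformly, without
local conditions: the congruences.
-/

set_option autoImplicit false

namespace Pool.Agent.X32.Uni

open Finset Filter
open Polynomial (C X)
open scoped Polynomial

variable {m : ℕ}

/-- every integer which divides all the coefficients is at most `E` -/
def ContB (E : ℕ) (g : ℤ[X]) : Prop := ∀ k : ℕ, C (k : ℤ) ∣ g → k ≤ E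

theorem ContB.ne {E : ℕ} {g : ℤ[X]} (h : ContB E g) : g ≠ 0 := by
  intro h0
  have := h (E + 1) (by rw [h0]; exact dvd_zero _)
  omega

theorem ContB.pow {E : ℕ} {g : ℤ[X]} (h : ContB E g) {p : ℕ} (hp : p.Prime) : ¬ C ((p : ℤ) ^ E) ∣ g := by
  intro hd
  have h1 : E < p ^ E := Nat.lt_pow_self hp.one_lt
  have h2 := h (p ^ E) (by push_cast; exact hd)
  omega

theorem ContB.large {E : ℕ} {g : ℤ[X]} (h : ContB E g) {p : ℕ} (hp : E < p) : ¬ C (p : ℤ) ∣ g := by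
  intro hd
  have := h p hd
  omega

theorem contB_lc {E : ℕ} {g : ℤ[X]} (h0 : g ≠ 0) (h : g.leadingCoeff.natAbs ≤ E) : ContB E g := by
  intro k hk
  rw [Polynomial.C_dvd_iff_dvd_coeff] at hk
  have h1 := hk g.natDegree
  have h2 : (g.coeff g.natDegree) ≠ 0 := by
    have := Polynomial.leadingCoeff_ne_zero.2 h0
    exact this
  exact (Nat.le_of_dvd (Int.natAbs_pos.2 h2) (Int.natCast_dvd.1 h1)).trans h

/-- few classes modulo `p ^ s` contain zeros modulo a large power of `p` -/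
theorem classes_leC {p : ℕ} (hp : p.Prime) (s c : ℕ) : ∀ (d : ℕ) (g : ℤ[X]), g.natDegree = d →
    ¬ C ((p : ℤ) ^ c) ∣ g → ∀ e : ℕ, c + d * s ≤ e → ∀ R : Finset ℕ, (∀ r ∈ R, r < p ^ s) →
    (∀ r ∈ R, ((p : ℤ) ^ e) ∣ g.eval (r : ℤ)) → R.card ≤ d := by
  intro d
  induction d with
  | zero =>
    intro g hg hlc e he R _ hR
    rw [Nat.le_zero, card_eq_zero, eq_empty_iff_forall_notMem]
    intro r hr
    apply hlc
    have h1 := hR r hr
    have h2 := Polynomial.eq_C_of_natDegree_eq_zero hg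
    rw [h2, Polynomial.eval_C] at h1
    rw [h2]
    exact map_dvd C ((pow_dvd_pow _ (by omega)).trans h1)
  | succ d ih =>
    intro g hg hlc e he R hRs hR
    rcases R.eq_empty_or_nonempty with h | ⟨r₀, hr₀⟩
    · rw [h]
      simp
    · obtain ⟨g₁, hg₁⟩ : ∃ g₁ : ℤ[X], g₁ = g /ₘ (X - C (r₀ : ℤ)) := ⟨_, rfl⟩
      have hmon : (X - C (r₀ : ℤ) : ℤ[X]).Monic := Polynomial.monic_X_sub_C _
      have hdec : g = C (g.eval (r₀ : ℤ)) + (X - C (r₀ : ℤ)) * g₁ := by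
        rw [hg₁]
        conv_lhs => rw [← Polynomial.modByMonic_add_div g (X - C (r₀ : ℤ)), Polynomial.modByMonic_X_sub_C_eq_C_eval]
      have hdeg₁ : g₁.natDegree = d := by
        rw [hg₁, Polynomial.natDegree_divByMonic _ hmon, hg, Polynomial.natDegree_X_sub_C]
        rfl
      have hlc₁ : ¬ C ((p : ℤ) ^ c) ∣ g₁ := by
        intro hd
        apply hlc
        rw [hdec]
        apply dvd_add
        · exact map_dvd C ((pow_dvd_pow _ (by omega)).trans (hR r₀ hr₀))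
        · exact hd.mul_left _
      have hcard := ih g₁ hdeg₁ hlc₁ (e - s) (by
        have : (d + 1) * s = d * s + s := by ring
        omega) (R.erase r₀) (fun r hr => hRs r (mem_of_mem_erase hr)) (fun r hr => by
        rw [mem_erase] at hr
        have h1 := hR r hr.2
        have h2 := hR r₀ hr₀
        have h3 := dvd_sub h1 h2
        have h4 : g.eval (r : ℤ) - g.eval (r₀ : ℤ) = ((r : ℤ) - r₀) * g₁.eval (r : ℤ) := by
          conv_lhs => rw [hdec]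
          simp
        rw [h4] at h3
        apply pow_dvd_mul hp _ s e _ _ h3
        intro hd
        apply hr.1
        have h5 : (r₀ : ℤ) ≡ r [ZMOD ((p ^ s : ℕ) : ℤ)] := Int.modEq_iff_dvd.2 (by exact_mod_cast hd)
        exact (Nat.ModEq.eq_of_lt_of_lt (Int.natCast_modEq_iff.1 h5) (hRs r₀ hr₀) (hRs r hr.2)).symm)
      rw [card_erase_of_mem hr₀] at hcard
      omega

/-- nonzero values modulo large primes -/
theorem loc_bigC (f : Fin m → ℤ[X]) {p D E : ℕ} (hp : p.Prime) (hD : ∑ l, (f l).natDegree ≤ D) (hDp : D < p)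
    (hEp : E < p) (hc : ∀ l, ContB E (f l)) : ∃ x : ℤ, ¬ (p : ℤ) ∣ ∏ l, (f l).eval x := by
  classical
  have : Fact p.Prime := ⟨hp⟩
  by_contra hcon
  push Not at hcon
  obtain ⟨H, hH⟩ : ∃ H : Fin m → (ZMod p)[X], H = fun l => (f l).map (Int.castRingHom (ZMod p)) := ⟨_, rfl⟩
  have hH0 : ∀ l, H l ≠ 0 := by
    intro l h0
    apply (hc l).large hEp
    rw [Polynomial.C_dvd_iff_dvd_coeff]
    intro n
    have h1 := congrArg (fun q : (ZMod p)[X] => q.coeff n) h0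
    simp only [hH, Polynomial.coeff_map, Polynomial.coeff_zero] at h1
    exact (ZMod.intCast_zmod_eq_zero_iff_dvd _ _).1 h1
  have hP0 : ∏ l, H l ≠ 0 := prod_ne_zero_iff.2 fun l _ => hH0 l
  have hev : ∀ y : ℤ, (∏ l, H l).eval (y : ZMod p) = ((∏ l, (f l).eval y : ℤ) : ZMod p) := by
    intro y
    rw [Polynomial.eval_prod, Int.cast_prod]
    apply prod_congr rfl fun l _ => ?_
    rw [hH]
    exact Polynomial.eval_intCast_map (Int.castRingHom (ZMod p)) (f l) y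
  have h2 : (univ : Finset (ZMod p)) ⊆ (∏ l, H l).roots.toFinset := by
    intro y _
    rw [Multiset.mem_toFinset, Polynomial.mem_roots hP0, Polynomial.IsRoot.def]
    obtain ⟨x, hx⟩ : ∃ x : ℤ, (x : ZMod p) = y := ⟨(y.val : ℤ), by simp⟩
    rw [← hx, hev]
    exact (ZMod.intCast_zmod_eq_zero_iff_dvd _ _).2 (hcon x)
  have h3 := card_le_card h2
  rw [card_univ, ZMod.card] at h3
  have h4 : (∏ l, H l).roots.toFinset.card ≤ D := by
    refine (Multiset.toFinset_card_le _).trans ((Polynomial.card_roots' _).trans ?_)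
    refine (Polynomial.natDegree_prod_le _ _).trans (le_trans ?_ hD)
    apply sum_le_sum fun l _ => ?_
    rw [hH]
    exact Polynomial.natDegree_map_le
  omega

/-- a good class modulo a prime power -/
theorem res_pC (f : Fin m → ℤ[X]) (I : Finset (Fin m)) (D E : ℕ) (hD : ∑ l, (f l).natDegree ≤ D)
    (hc : ∀ l, ContB E (f l)) {p : ℕ} (hp : p.Prime)
    (hI : ∃ x : ℤ, ∀ l ∈ I, ¬ (p : ℤ) ∣ (f l).eval x) :
    ∃ y : ℕ, (∀ l ∈ I, ¬ (p : ℤ) ∣ (f l).eval (y : ℤ)) ∧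
      ∀ l, ¬ ((p : ℤ) ^ (E + D * (D + 1))) ∣ (f l).eval (y : ℤ) := by
  classical
  obtain ⟨x₀, hx₀⟩ := hI
  have hpz : (0 : ℤ) < p := by exact_mod_cast hp.pos
  obtain ⟨x₁, hx₁⟩ : ∃ x₁ : ℕ, (x₁ : ℤ) = x₀ % p := ⟨(x₀ % p).toNat, Int.toNat_of_nonneg (Int.emod_nonneg _ hpz.ne')⟩
  have hx₁lt : x₁ < p := by
    have := Int.emod_lt_of_pos x₀ hpz
    omega
  have hI₁ : ∀ u : ℕ, ∀ l ∈ I, ¬ (p : ℤ) ∣ (f l).eval ((x₁ + p * u : ℕ) : ℤ) := by
    intro u l hl hd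
    apply hx₀ l hl
    have h1 : ((x₁ + p * u : ℕ) : ℤ) ≡ x₀ [ZMOD p] := by
      push_cast
      rw [hx₁]
      have h2 : x₀ % (p : ℤ) + p * u ≡ x₀ + 0 [ZMOD p] :=
        (Int.mod_modEq _ _).add ((Int.modEq_zero_iff_dvd).2 (dvd_mul_right _ _))
      rwa [add_zero] at h2
    have h2 : (f l).eval ((x₁ + p * u : ℕ) : ℤ) ≡ (f l).eval x₀ [ZMOD p] :=
      Int.modEq_iff_dvd.2 ((Int.modEq_iff_dvd.1 h1).trans (Polynomial.sub_dvd_eval_sub _ _ (f l)))
    exact (h2.dvd_iff).1 hd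
  by_contra hcon
  push Not at hcon
  obtain ⟨R, hR⟩ : ∃ R : Finset ℕ, R = (range (p ^ D)).image (fun u => x₁ + p * u) := ⟨_, rfl⟩
  have hRcard : R.card = p ^ D := by
    rw [hR, card_image_of_injective _ (fun u v huv => by
      have h0 : x₁ + p * u = x₁ + p * v := huv
      have : p * u = p * v := by omega
      exact Nat.eq_of_mul_eq_mul_left hp.pos this), card_range]
  have hRlt : ∀ r ∈ R, r < p ^ (D + 1) := by
    intro r hr
    rw [hR, mem_image] at hr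
    obtain ⟨u, hu, rfl⟩ := hr
    rw [mem_range] at hu
    have h1 : p * (u + 1) ≤ p * p ^ D := Nat.mul_le_mul_left _ hu
    rw [pow_succ, mul_comm (p ^ D)]
    nlinarith
  have hcov : R ⊆ univ.biUnion (fun l : Fin m =>
      R.filter (fun r : ℕ => ((p : ℤ) ^ (E + D * (D + 1))) ∣ (f l).eval (r : ℤ))) := by
    intro r hr
    have hr' := hr
    rw [hR, mem_image] at hr'
    obtain ⟨u, _, rfl⟩ := hr'
    obtain ⟨l, hl⟩ := hcon _ (hI₁ u)
    exact mem_biUnion.2 ⟨l, mem_univ _, mem_filter.2 ⟨hr, hl⟩⟩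
  have h1 := (card_le_card hcov).trans card_biUnion_le
  have h2 : ∀ l : Fin m, (R.filter (fun r : ℕ => ((p : ℤ) ^ (E + D * (D + 1))) ∣ (f l).eval (r : ℤ))).card ≤
      (f l).natDegree := by
    intro l
    have hdl : (f l).natDegree ≤ D :=
      (single_le_sum (f := fun l => (f l).natDegree) (fun i _ => Nat.zero_le _) (mem_univ l)).trans hD
    refine classes_leC hp (D + 1) E (f l).natDegree (f l) rfl ((hc l).pow hp) (E + D * (D + 1)) ?_ _ ?_ ?_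
    · have := Nat.mul_le_mul_right (D + 1) hdl
      omega
    · intro r hr
      exact hRlt r (mem_filter.1 hr).1
    · intro r hr
      exact (mem_filter.1 hr).2
  have h3 : ∑ l : Fin m, (R.filter (fun r : ℕ => ((p : ℤ) ^ (E + D * (D + 1))) ∣ (f l).eval (r : ℤ))).card ≤ D :=
    (sum_le_sum fun l _ => h2 l).trans hD
  rw [hRcard] at h1
  have h4 : D < p ^ D := Nat.lt_pow_self hp.one_lt
  omega

/-- the residue class -/
theorem res_allC (f : Fin m → ℤ[X]) (I : Finset (Fin m)) (D E : ℕ) (hE : 1 ≤ E) (hD : ∑ l, (f l).natDegree ≤ D)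
    (hc : ∀ l, ContB E (f l))
    (hI : ∀ p : ℕ, p.Prime → ∃ x : ℤ, ∀ l ∈ I, ¬ (p : ℤ) ∣ (f l).eval x) (z : ℕ) :
    ∃ r : ℕ, r ≤ Mze z (E + D * (D + 1)) ∧ ∀ p : ℕ, p.Prime → p ≤ z → (∀ l ∈ I, ¬ (p : ℤ) ∣ (f l).eval (r : ℤ)) ∧
      ∀ l, ¬ ((p : ℤ) ^ (E + D * (D + 1))) ∣ (f l).eval (r : ℤ) := by
  classical
  obtain ⟨e, he⟩ : ∃ e : ℕ, e = E + D * (D + 1) := ⟨_, rfl⟩
  rw [← he]
  have he1 : 1 ≤ e := by omega
  have h1 : ∀ p : ℕ, ∃ y : ℕ, p.Prime → (∀ l ∈ I, ¬ (p : ℤ) ∣ (f l).eval (y : ℤ)) ∧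
      ∀ l, ¬ ((p : ℤ) ^ e) ∣ (f l).eval (y : ℤ) := by
    intro p
    by_cases hp : p.Prime
    · obtain ⟨y, hy⟩ := res_pC f I D E hD hc hp (hI p hp)
      rw [← he] at hy
      exact ⟨y, fun _ => hy⟩
    · exact ⟨0, fun h => absurd h hp⟩
  choose y hy using h1
  obtain ⟨r, hr⟩ := Nat.chineseRemainderOfFinset (fun p => y p) (fun p => p ^ e) ((range (z + 1)).filter Nat.Prime)
    (fun p hp => pow_ne_zero _ (mem_filter.1 hp).2.ne_zero) (by
      intro p hp q hq hpq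
      rw [mem_coe, mem_filter] at hp hq
      exact Nat.Coprime.pow _ _ ((Nat.coprime_primes hp.2 hq.2).2 hpq))
  refine ⟨r % Mze z e, (Nat.mod_lt _ (Mze_pos _ _)).le, fun p hp hpz => ?_⟩
  have h2 : r % Mze z e ≡ y p [MOD p ^ e] :=
    ((Nat.mod_modEq r _).of_dvd (Mze_dvd hp hpz)).trans (hr p (mem_filter.2 ⟨mem_range.2 (by omega), hp⟩))
  have h3 : ((r % Mze z e : ℕ) : ℤ) ≡ (y p : ℤ) [ZMOD (p : ℤ) ^ e] := by
    have := Int.natCast_modEq_iff.2 h2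
    push_cast at this ⊢
    exact this
  obtain ⟨h4, h5⟩ := hy p hp
  have h6 : ∀ l, (f l).eval ((r % Mze z e : ℕ) : ℤ) ≡ (f l).eval (y p : ℤ) [ZMOD (p : ℤ) ^ e] := fun l =>
    Int.modEq_iff_dvd.2 ((Int.modEq_iff_dvd.1 h3).trans (Polynomial.sub_dvd_eval_sub _ _ (f l)))
  have h7 : ∀ l, (f l).eval ((r % Mze z e : ℕ) : ℤ) ≡ (f l).eval (y p : ℤ) [ZMOD (p : ℤ)] := fun l =>
    Int.ModEq.of_dvd (dvd_pow_self _ (by omega)) (h6 l)
  exact ⟨fun l hl hd => h4 l hl (((h7 l).dvd_iff).1 hd), fun l hd => h5 l (((h6 l).dvd_iff).1 hd)⟩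

/-- the sizes -/
theorem eval_boundA (g : ℤ[X]) (X W A D : ℕ) (hX : 1 ≤ X) (hW : 1 ≤ W) (hD : g.natDegree ≤ D)
    (h : ∀ n, |g.coeff n| ≤ (X : ℤ) ^ A) (x : ℤ) (h0 : 0 ≤ x) (h1 : x ≤ W * X) :
    |g.eval x| ≤ ((D + 1) * W ^ D : ℕ) * (X : ℤ) ^ (A + D) := by
  rw [Polynomial.eval_eq_sum_range]
  refine (abs_sum_le_sum_abs _ _).trans ?_
  have hXz : (1 : ℤ) ≤ X := by exact_mod_cast hX
  have hWz : (1 : ℤ) ≤ W := by exact_mod_cast hW
  have hWX : (1 : ℤ) ≤ W * X := by nlinarith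
  have h2 : ∀ n ∈ range (g.natDegree + 1), |g.coeff n * x ^ n| ≤ (W : ℤ) ^ D * (X : ℤ) ^ (A + D) := by
    intro n hn
    rw [mem_range] at hn
    rw [abs_mul, abs_pow, abs_of_nonneg h0]
    calc |g.coeff n| * x ^ n ≤ (X : ℤ) ^ A * ((W : ℤ) * X) ^ n :=
          mul_le_mul (h n) (pow_le_pow_left₀ h0 h1 n) (by positivity) (by positivity)
      _ ≤ (X : ℤ) ^ A * ((W : ℤ) * X) ^ D :=
          mul_le_mul_of_nonneg_left (pow_le_pow_right₀ hWX (by omega)) (by positivity)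
      _ = (W : ℤ) ^ D * (X : ℤ) ^ (A + D) := by rw [mul_pow, pow_add]; ring
  refine (sum_le_sum h2).trans ?_
  rw [sum_const, card_range, nsmul_eq_mul]
  have h3 : ((g.natDegree + 1 : ℕ) : ℤ) ≤ ((D + 1 : ℕ) : ℤ) := by exact_mod_cast Nat.succ_le_succ hD
  calc ((g.natDegree + 1 : ℕ) : ℤ) * ((W : ℤ) ^ D * (X : ℤ) ^ (A + D)) ≤
        ((D + 1 : ℕ) : ℤ) * ((W : ℤ) ^ D * (X : ℤ) ^ (A + D)) := mul_le_mul_of_nonneg_right h3 (by positivity)
    _ = ((D + 1) * W ^ D : ℕ) * (X : ℤ) ^ (A + D) := by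
        push_cast
        ring

/-- the hypotheses: no local condition except for the members of `I` -/
structure SysC (D E A X : ℕ) (f : Fin m → ℤ[X]) (I : Finset (Fin m)) : Prop where
  deg : ∀ l, 1 ≤ (f l).natDegree
  sum : ∑ l, (f l).natDegree ≤ D
  cont : ∀ l, ContB E (f l)
  size : ∀ l n, |(f l).coeff n| ≤ (X : ℤ) ^ A
  loc : ∀ p : ℕ, p.Prime → ∃ x : ℤ, ∀ l ∈ I, ¬ (p : ℤ) ∣ (f l).eval x

/-- the pair -/
structure PairC (E K X : ℕ) (f : Fin m → ℤ[X]) (I : Finset (Fin m)) (i j : Fin m) : Prop where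
  di : (f i).natDegree = 1
  dj : (f j).natDegree = 1
  ei : ((f i).coeff 1).natAbs ≤ E
  ej : ((f j).coeff 1).natAbs ≤ E
  ci : |(f i).coeff 0| ≤ K * (X : ℤ)
  cj : |(f j).coeff 0| ≤ K * (X : ℤ)
  det : (f i).coeff 1 * (f j).coeff 0 ≠ (f j).coeff 1 * (f i).coeff 0
  iI : i ∈ I
  jI : j ∈ I

theorem SysC.locBig {D E A X : ℕ} {f : Fin m → ℤ[X]} {I : Finset (Fin m)} (S : SysC D E A X f I)
    {p : ℕ} (hp : p.Prime) (hpD : max D E < p) : ∃ x : ℤ, ¬ (p : ℤ) ∣ ∏ l, (f l).eval x :=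
  loc_bigC f hp S.sum (lt_of_le_of_lt (le_max_left _ _) hpD) (lt_of_le_of_lt (le_max_right _ _) hpD) S.cont

/-- the substituted system -/
theorem SysC.sub {D E A X : ℕ} {f : Fin m → ℤ[X]} {I : Finset (Fin m)} (S : SysC D E A X f I)
    (hX : 1 ≤ X) (hE : 1 ≤ E) (z : ℕ) (hz : max D E ≤ z) (hz2 : 2 ≤ z) :
    ∃ (r : ℕ) (h : Fin m → ℤ[X]), r ≤ Mze z (E + D * (D + 1)) ∧
      Sbs f h (fun l => (sm z ((f l).eval (r : ℤ)) : ℤ)) (Mze z (E + D * (D + 1))) r ∧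
      (∀ l ∈ I, sm z ((f l).eval (r : ℤ)) = 1) ∧ (∀ l, sm z ((f l).eval (r : ℤ)) ≤ Mze z (E + D * (D + 1))) ∧
      Loc h ∧ ∀ l, ∀ x : ℤ, 0 ≤ x → x ≤ X → |(h l).eval x| ≤
        ((D + 1) * (2 * Mze z (E + D * (D + 1))) ^ D : ℕ) * (X : ℤ) ^ (A + D) := by
  classical
  obtain ⟨e, he⟩ : ∃ e : ℕ, e = E + D * (D + 1) := ⟨_, rfl⟩
  have he1 : 1 ≤ e := by omega
  obtain ⟨M, hM⟩ : ∃ M : ℕ, M = Mze z e := ⟨_, rfl⟩
  have hM1 : 1 ≤ M := by rw [hM]; exact Mze_pos _ _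
  obtain ⟨r, hr, hrp⟩ := res_allC f I D E hE S.sum S.cont S.loc z
  rw [← he] at hr hrp ⊢
  have hne : ∀ l, (f l).eval (r : ℤ) ≠ 0 := by
    intro l h0
    apply (hrp 2 Nat.prime_two hz2).2 l
    rw [h0]
    exact dvd_zero _
  have hvp : ∀ l, ∀ p : ℕ, p.Prime → p ≤ z → ((f l).eval (r : ℤ)).natAbs.factorization p < e := by
    intro l p hp hpz
    by_contra hcon
    push Not at hcon
    apply (hrp p hp hpz).2 l
    have h1 : p ^ e ∣ ((f l).eval (r : ℤ)).natAbs := (pow_dvd_pow p hcon).trans (Nat.ordProj_dvd _ _)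
    have h2 := Int.natCast_dvd.2 h1
    push_cast at h2
    exact h2
  have hsmM : ∀ l, sm z ((f l).eval (r : ℤ)) ∣ M := by
    intro l
    apply prodpow_dvd
    intro p hp hpz
    rw [hM]
    exact (pow_dvd_pow p (hvp l p hp hpz).le).trans (Mze_dvd hp hpz)
  have hMp : ∀ p : ℕ, p.Prime → p ∣ M → p ≤ z := fun p hp hd => Mze_prime hp (by rw [← hM]; exact hd)
  obtain ⟨h, S'⟩ := smooth_sbs' f r z M hM1 hMp hne (fun l p hp hpz => by
      rw [hM]
      exact (pow_dvd_pow p (hvp l p hp hpz)).trans (Mze_dvd hp hpz))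
  rw [← hM] at hr ⊢
  have hMz : (1 : ℤ) ≤ M := by exact_mod_cast hM1
  have hXz : (1 : ℤ) ≤ X := by exact_mod_cast hX
  have hrz : (r : ℤ) ≤ M := by exact_mod_cast hr
  have hr0 : (0 : ℤ) ≤ r := by positivity
  refine ⟨r, h, hr, S', fun l hl => sm_one' fun p hp hpz => (hrp p hp hpz).1 l hl,
    fun l => Nat.le_of_dvd hM1 (hsmM l), ?_, ?_⟩
  · apply S'.loc
    intro p hp hpM
    have hzp : z < p := by
      by_contra hcon
      apply hpM
      rw [hM]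
      exact (dvd_pow_self p (by omega)).trans (Mze_dvd hp (not_lt.1 hcon))
    exact S.locBig hp (lt_of_le_of_lt hz hzp)
  · intro l x hx0 hxX
    have hsm1 : (1 : ℤ) ≤ (sm z ((f l).eval (r : ℤ)) : ℤ) := by exact_mod_cast sm_pos _ _
    have h1 : (sm z ((f l).eval (r : ℤ)) : ℤ) * (h l).eval x = (f l).eval (M * x + r) := S'.eval l x
    have h2 : |(h l).eval x| ≤ |(f l).eval (M * x + r)| := by
      rw [← h1, abs_mul, abs_of_nonneg (by linarith : (0 : ℤ) ≤ (sm z ((f l).eval (r : ℤ)) : ℤ))]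
      exact le_mul_of_one_le_left (abs_nonneg _) hsm1
    have hdD : (f l).natDegree ≤ D :=
      (single_le_sum (f := fun l => (f l).natDegree) (fun i _ => Nat.zero_le _) (mem_univ l)).trans S.sum
    refine h2.trans (eval_boundA (f l) X (2 * M) A D hX (by omega) hdD (S.size l) (M * x + r) (by positivity) ?_)
    push_cast
    nlinarith

end Pool.Agent.X32.Uni
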