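import Pool.Agent.X32.Uni.Short3

/-!
Differences of cubes.
-/

set_option autoImplicit false

namespace Pool.Agent.X32.Uni

open Finset
open Polynomial (C X aeval)
open scoped Polynomial

variable {k : ℕ}

/-- `((x + u) ^ 3 - (x + v) ^ 3) / (u - v)` -/
noncomputable def pQ (z : ℤ × ℤ) : ℤ[X] := (X + C z.1) ^ 2 + (X + C z.1) * (X + C z.2) + (X + C z.2) ^ 2

/-- the value -/
def vQ (z : ℤ × ℤ) (x : ℤ) : ℤ := (x + z.1) ^ 2 + (x + z.1) * (x + z.2) + (x + z.2) ^ 2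

theorem pQ_eval (z : ℤ × ℤ) (x : ℤ) : (pQ z).eval x = vQ z x := by
  unfold pQ vQ
  simp

theorem pQ_aeval (z : ℤ × ℤ) (α : ℂ) :
    aeval α (pQ z) = (α + z.1) ^ 2 + (α + z.1) * (α + z.2) + (α + z.2) ^ 2 := by
  unfold pQ
  simp

theorem pQ_deg (z : ℤ × ℤ) : (pQ z).natDegree = 2 := by
  have h1 : pQ z = C 3 * X ^ 2 + C (3 * z.1 + 3 * z.2) * X + C (z.1 ^ 2 + z.1 * z.2 + z.2 ^ 2) := by
    unfold pQ
    simp only [C.map_add, C.map_mul, C.map_pow]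
    have : (C 3 : ℤ[X]) = 3 := rfl
    rw [this]
    ring
  rw [h1]
  exact Polynomial.natDegree_quadratic (by norm_num)

/-- no common zeros -/
theorem pQ_common (z s : ℤ × ℤ) (hs : s.1 ≠ s.2) (hne : z ≠ s) (hne' : z ≠ (s.2, s.1)) (α : ℂ)
    (h1 : aeval α (pQ z) = 0) (h2 : aeval α (pQ s) = 0) : False := by
  rw [pQ_aeval] at h1 h2
  obtain ⟨d, hd⟩ : ∃ d : ℤ, d = 3 * (z.1 + z.2 - s.1 - s.2) := ⟨_, rfl⟩
  obtain ⟨c, hc⟩ : ∃ c : ℤ, c = s.1 ^ 2 + s.1 * s.2 + s.2 ^ 2 - (z.1 ^ 2 + z.1 * z.2 + z.2 ^ 2) := ⟨_, rfl⟩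
  have h3 : (d : ℂ) * α = c := by
    rw [hd, hc]
    push_cast
    linear_combination h1 - h2
  by_cases hd0 : d = 0
  · have hc0 : c = 0 := by
      rw [hd0] at h3
      have : (c : ℂ) = 0 := by rw [← h3]; simp
      exact_mod_cast this
    have e1 : z.1 + z.2 = s.1 + s.2 := by omega
    have e2 : z.1 * z.2 = s.1 * s.2 := by
      have h4 : z.1 ^ 2 + z.1 * z.2 + z.2 ^ 2 = s.1 ^ 2 + s.1 * s.2 + s.2 ^ 2 := by rw [hc] at hc0; linarith
      have h5 : (z.1 + z.2) ^ 2 = (s.1 + s.2) ^ 2 := by rw [e1]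
      linear_combination h5 - h4
    have h4 : (z.1 - s.1) * (z.1 - s.2) = 0 := by
      have h5 : (z.1 - s.1) * (z.1 - s.2) = z.1 * (z.1 + z.2 - s.1 - s.2) - (z.1 * z.2 - s.1 * s.2) := by ring
      rw [h5, e2]
      have : z.1 + z.2 - s.1 - s.2 = 0 := by omega
      rw [this]
      ring
    rcases mul_eq_zero.1 h4 with h5 | h5
    · exact hne (Prod.ext (by omega) (by omega))
    · exact hne' (Prod.ext (by simp only; omega) (by simp only; omega))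
  · -- `α` is rational
    have h4 : (d : ℂ) ^ 2 * ((α + s.1) ^ 2 + (α + s.1) * (α + s.2) + (α + s.2) ^ 2) =
        ((c : ℂ) + d * s.1) ^ 2 + ((c : ℂ) + d * s.1) * (c + d * s.2) + ((c : ℂ) + d * s.2) ^ 2 := by
      rw [← h3]
      ring
    rw [h2, mul_zero] at h4
    have h5 : 0 = (c + d * s.1) ^ 2 + (c + d * s.1) * (c + d * s.2) + (c + d * s.2) ^ 2 := by exact_mod_cast h4
    obtain ⟨u, hu⟩ : ∃ u, u = c + d * s.1 := ⟨_, rfl⟩
    obtain ⟨v, hv⟩ : ∃ v, v = c + d * s.2 := ⟨_, rfl⟩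
    rw [← hu, ← hv] at h5
    have h6 : (2 * u + v) ^ 2 + 3 * v ^ 2 = 0 := by linear_combination -4 * h5
    have h7 : v = 0 := by
      have := sq_nonneg (2 * u + v)
      have h8 : v ^ 2 = 0 := by nlinarith [sq_nonneg v]
      exact pow_eq_zero_iff (by norm_num) |>.1 h8
    have h8 : u = 0 := by
      rw [h7] at h6
      have : (2 * u) ^ 2 = 0 := by linear_combination h6
      have := pow_eq_zero_iff (by norm_num) |>.1 this
      omega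
    apply hs
    rw [h7] at hv
    rw [h8] at hu
    have h9 : d * (s.1 - s.2) = 0 := by linear_combination hv - hu
    rcases mul_eq_zero.1 h9 with h10 | h10
    · exact absurd h10 hd0
    · omega

/-- `ω(p)` -/
def omQ (S : Fin k → ℤ × ℤ) (p : ℕ) : ℕ := ((range p).filter (fun x : ℕ => (p : ℤ) ∣ ∏ l, vQ (S l) x)).card

/-- the product of `1 - ω(p) / p` over the primes `p ≤ X` -/
noncomputable def VQ (S : Fin k → ℤ × ℤ) (X : ℕ) : ℝ :=
  ∏ p ∈ (Icc 1 X).filter Nat.Prime, (1 - (omQ S p : ℝ) / p)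

open Classical in
/-- the good `n` -/
noncomputable def GCu (S : Fin k → ℤ × ℤ) (H C t X A B : ℕ) : Finset ℕ :=
  (Ioc A B).filter (fun n : ℕ =>
    (∀ l, Almost (2 * t) ((X : ℝ) ^ (1 / (t : ℝ))) (vQ (S l) n)) ∧
    ∀ u v : ℤ, |u| ≤ H → |v| ≤ H → (∀ l, S l ≠ (u, v) ∧ S l ≠ (v, u)) →
      ∃ q : ℕ, q.Prime ∧ q ≤ C ∧ (q : ℤ) ∣ vQ (u, v) n)

theorem cubS (hk : 0 < k) (S : Fin k → ℤ × ℤ) (hne : ∀ l, (S l).1 ≠ (S l).2)
    (hS : ∀ p : ℕ, p.Prime → ∃ x : ℤ, ∀ l, ¬ (p : ℤ) ∣ vQ (S l) x)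
    (H : ℕ) (ε : ℝ) (hε : 0 < ε) :
    ∃ C t : ℕ, 1 ≤ t ∧ ∃ κ K : ℝ, 0 < κ ∧ 0 < K ∧ ∀ (s r : ℕ) (δ : ℝ), 1 ≤ s → 0 < δ → ∃ c X₀ : ℕ, ∀ X : ℕ, X₀ ≤ X →
      κ / Real.log X ^ (2 * k) ≤ VQ S X ∧ ∀ A B : ℕ, B ≤ X → (X : ℝ) ^ ε ≤ (B : ℝ) - A →
        κ * ((B : ℝ) - A) * VQ S X ≤ ((GCu S H C t X A B).card : ℝ) ∧
        ((GCu S H C t X A B).card : ℝ) ≤ K * ((B : ℝ) - A) * VQ S X ∧
        ∀ χ : ℕ → Fin r, ∃ P : Finset (ℕ × ℕ),
          (∀ z ∈ P, 1 ≤ z.2 ∧ (z.2 : ℝ) ≤ Real.log X ^ c ∧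
            ∀ l < s, z.1 + l * z.2 ∈ GCu S H C t X A B ∧ χ (z.1 + l * z.2) = χ z.1) ∧
          (P : Set (ℕ × ℕ)).PairwiseDisjoint (apSet s) ∧
          (((GCu S H C t X A B \ P.biUnion (apSet s)).card : ℕ) : ℝ) ≤ δ * ((B : ℝ) - A) * VQ S X := by
  classical
  obtain ⟨T, hT⟩ : ∃ T : Finset (ℤ × ℤ), T = ((Icc (-(H : ℤ)) H) ×ˢ (Icc (-(H : ℤ)) H)).filter
      (fun z => ∀ l, S l ≠ z ∧ S l ≠ (z.2, z.1)) := ⟨_, rfl⟩
  have hTm : ∀ z, z ∈ T ↔ (|z.1| ≤ H ∧ |z.2| ≤ H) ∧ ∀ l, S l ≠ z ∧ S l ≠ (z.2, z.1) := by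
    intro z
    rw [hT, mem_filter, mem_product, mem_Icc, mem_Icc, abs_le, abs_le]
  obtain ⟨f, hf⟩ : ∃ f : Fin k → ℤ[X], f = fun l => pQ (S l) := ⟨_, rfl⟩
  have hfl : ∀ l, f l = pQ (S l) := fun l => by rw [hf]
  have hloc : Loc f := by
    intro p hp
    obtain ⟨x, hx⟩ := hS p hp
    refine ⟨x, fun hd => ?_⟩
    obtain ⟨l, _, hl⟩ := (Nat.prime_iff_prime_int.1 hp).exists_mem_finset_dvd hd
    rw [hfl, pQ_eval] at hl
    exact hx l hl
  have ho : ∀ p, om f p = omQ S p := by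
    intro p
    unfold om omQ
    simp only [hfl, pQ_eval]
  have hV : ∀ n, V f n = VQ S n := fun n => by
    unfold V VQ
    exact prod_congr rfl fun p _ => by rw [ho]
  have hG : ∀ C t X A B, GS f (T.image pQ) C t X A B = GCu S H C t X A B := by
    intro C t X A B
    ext n
    unfold GS GCu
    simp only [mem_filter, hfl, pQ_eval, pQ_deg, mul_comm t 2]
    refine and_congr_right fun _ => and_congr_right fun _ => ?_
    constructor
    · intro h u a hu ha hl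
      obtain ⟨q, h1, h2, h3⟩ := h (pQ (u, a)) (mem_image_of_mem _ ((hTm (u, a)).2 ⟨⟨hu, ha⟩, hl⟩))
      rw [pQ_eval] at h3
      exact ⟨q, h1, h2, h3⟩
    · intro h g hg
      rw [mem_image] at hg
      obtain ⟨z, hz, rfl⟩ := hg
      rw [pQ_eval]
      have := (hTm z).1 hz
      exact h z.1 z.2 this.1.1 this.1.2 this.2
  obtain ⟨C, t, ht, κ, K, hκ, hK, HH⟩ := killS f hk (fun l => by rw [hfl, pQ_deg]; norm_num) hloc (T.image pQ) (by
    intro g hg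
    rw [mem_image] at hg
    obtain ⟨z, hz, rfl⟩ := hg
    rw [hTm] at hz
    have hg0 : pQ z ≠ 0 := by
      intro h
      have := pQ_deg z
      rw [h, Polynomial.natDegree_zero] at this
      omega
    refine ⟨hg0, ?_⟩
    have hinj : Function.Injective (algebraMap ℤ ℂ) := RingHom.injective_int _
    obtain ⟨α, hα⟩ := IsAlgClosed.exists_aeval_eq_zero_of_injective ℂ hinj (pQ z) (by
      intro h
      have h1 := pQ_deg z
      have h2 := Polynomial.natDegree_eq_zero_iff_degree_le_zero.2 h.le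
      omega)
    refine ⟨α, hα, fun l h => ?_⟩
    rw [hfl] at h
    refine pQ_common z (S l) (hne l) (hz.2 l).1.symm ?_ α hα h
    intro h3
    apply (hz.2 l).2
    rw [h3]) ε hε
  refine ⟨C, t, ht, κ, K, hκ, hK, fun s r δ hs hδ => ?_⟩
  obtain ⟨c, X₀, hX⟩ := HH s r δ hs hδ
  refine ⟨c, X₀, fun X hXX => ?_⟩
  have := hX X hXX
  have hsum : ∑ l, (f l).natDegree = 2 * k := by
    simp only [hfl, pQ_deg]
    simp [mul_comm]
  simp only [hV, hG, hsum] at this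
  exact this

end Pool.Agent.X32.Uni
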