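import Pool.Agent.X32.Uni.Fam

/-!
The values `(n + h) ^ 3 + k`.
-/

set_option autoImplicit false

namespace Pool.Agent.X32.Uni

open Finset
open Polynomial (C X aeval)
open scoped Polynomial

variable {k : ℕ}

/-- the polynomial `(x + h) ^ 3 + k` -/
noncomputable def pC3 (z : ℤ × ℤ) : ℤ[X] := (X + C z.1) ^ 3 + C z.2

/-- the value -/
def vC3 (z : ℤ × ℤ) (x : ℤ) : ℤ := (x + z.1) ^ 3 + z.2

theorem pC3_eval (z : ℤ × ℤ) (x : ℤ) : (pC3 z).eval x = vC3 z x := by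
  unfold pC3 vC3
  simp

theorem pC3_aeval (z : ℤ × ℤ) (α : ℂ) : aeval α (pC3 z) = (α + z.1) ^ 3 + z.2 := by
  unfold pC3
  simp

theorem pC3_deg (z : ℤ × ℤ) : (pC3 z).natDegree = 3 := by
  unfold pC3
  rw [Polynomial.natDegree_add_C, Polynomial.natDegree_pow, Polynomial.natDegree_X_add_C]

/-- a cube of a rational number which is an integer -/
theorem cube_of_rat (u w κ : ℤ) (hw : w ≠ 0) (h : u ^ 3 = κ * w ^ 3) : ∃ a : ℤ, κ = a ^ 3 := by
  have h1 : w ^ 3 ∣ u ^ 3 := Dvd.intro_left _ h.symm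
  have h2 : w ∣ u := (Int.pow_dvd_pow_iff (by norm_num)).1 h1
  obtain ⟨a, rfl⟩ := h2
  refine ⟨a, ?_⟩
  have h4 : w ^ 3 ≠ 0 := pow_ne_zero 3 hw
  apply mul_right_cancel₀ h4
  rw [← h]
  ring

/-- no common zeros -/
theorem pC3_common (z s : ℤ × ℤ) (hs : ∀ a : ℤ, s.2 ≠ a ^ 3) (hne : s ≠ z) (α : ℂ) (h1 : aeval α (pC3 z) = 0)
    (h2 : aeval α (pC3 s) = 0) : False := by
  rw [pC3_aeval] at h1 h2
  obtain ⟨γ, hγ⟩ : ∃ γ : ℂ, γ = α + s.1 := ⟨_, rfl⟩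
  obtain ⟨e, he⟩ : ∃ e : ℤ, e = z.1 - s.1 := ⟨_, rfl⟩
  have hz : α + z.1 = γ + e := by
    rw [hγ, he]
    push_cast
    ring
  rw [hz] at h1
  rw [← hγ] at h2
  by_cases he0 : e = 0
  · apply hne
    have h3 : ((z.2 : ℤ) : ℂ) = s.2 := by
      rw [he0] at h1
      push_cast at h1
      linear_combination h1 - h2
    have h4 : z.2 = s.2 := by exact_mod_cast h3
    exact Prod.ext (by omega) h4.symm
  · obtain ⟨D, hD⟩ : ∃ D : ℤ, D = e ^ 3 + z.2 - s.2 := ⟨_, rfl⟩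
    have hq : 3 * (e : ℂ) * γ ^ 2 + 3 * e ^ 2 * γ + D = 0 := by
      rw [hD]
      push_cast
      linear_combination h1 - h2
    -- eliminate the square
    have hl : ((9 * e ^ 4 - 3 * e * D : ℤ) : ℂ) * γ + ((3 * e ^ 2 * D + 9 * e ^ 2 * s.2 : ℤ) : ℂ) = 0 := by
      push_cast
      linear_combination (3 * (e : ℂ) ^ 2 - 3 * e * γ) * hq + 9 * (e : ℂ) ^ 2 * h2
    by_cases h0 : 9 * e ^ 4 - 3 * e * D = 0
    · rw [h0] at hl
      have h3 : ((3 * e ^ 2 * D + 9 * e ^ 2 * s.2 : ℤ) : ℂ) = 0 := by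
        rw [← hl]
        push_cast
        ring
      have h4 : 3 * e ^ 2 * D + 9 * e ^ 2 * s.2 = 0 := by exact_mod_cast h3
      have h5 : 3 * e * (3 * e ^ 3 - D) = 0 := by linear_combination h0
      have h6 : D = 3 * e ^ 3 := by
        rcases mul_eq_zero.1 h5 with h | h
        · exact absurd (by omega) he0
        · linarith
      rw [h6] at h4
      have h7 : 9 * e ^ 2 * (e ^ 3 + s.2) = 0 := by linear_combination h4
      have h8 : e ^ 3 + s.2 = 0 := by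
        rcases mul_eq_zero.1 h7 with h | h
        · exfalso
          have : e ^ 2 = 0 := by omega
          exact he0 (pow_eq_zero_iff (by norm_num) |>.1 this)
        · exact h
      exact hs (-e) (by linear_combination h8)
    · obtain ⟨w, hw⟩ : ∃ w : ℤ, w = 9 * e ^ 4 - 3 * e * D := ⟨_, rfl⟩
      obtain ⟨u, hu⟩ : ∃ u : ℤ, u = 3 * e ^ 2 * D + 9 * e ^ 2 * s.2 := ⟨_, rfl⟩
      rw [← hw, ← hu] at hl
      rw [← hw] at h0
      have h3 : (w : ℂ) * γ = -u := by linear_combination hl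
      have h4 : ((u : ℤ) : ℂ) ^ 3 = s.2 * w ^ 3 := by
        have h5 : ((w : ℂ) * γ) ^ 3 = -s.2 * w ^ 3 := by linear_combination (w : ℂ) ^ 3 * h2
        rw [h3] at h5
        linear_combination -h5
      have h5 : u ^ 3 = s.2 * w ^ 3 := by exact_mod_cast h4
      obtain ⟨a, ha⟩ := cube_of_rat u w s.2 h0 h5
      exact hs a ha

/-- a nonreal zero -/
theorem pC3_zero (z : ℤ × ℤ) (hz : z.2 ≠ 0) : ∃ α : ℂ, aeval α (pC3 z) = 0 ∧ α.im ≠ 0 := by
  have h3 : (0 : ℕ) < 3 := by norm_num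
  obtain ⟨γ, hγ⟩ := IsAlgClosed.exists_pow_nat_eq (-(z.2 : ℂ)) h3
  by_cases him : γ.im ≠ 0
  · refine ⟨γ - z.1, ?_, by simpa using him⟩
    rw [pC3_aeval, sub_add_cancel, hγ]
    ring
  · push Not at him
    obtain ⟨ω, hω⟩ : ∃ ω : ℂ, ω = ⟨-1 / 2, Real.sqrt 3 / 2⟩ := ⟨_, rfl⟩
    have hs3 : Real.sqrt 3 * Real.sqrt 3 = 3 := Real.mul_self_sqrt (by norm_num)
    have hω2 : ω * ω = ⟨-1 / 2, -(Real.sqrt 3 / 2)⟩ := by
      rw [hω]
      apply Complex.ext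
      · rw [Complex.mul_re]
        simp only
        nlinarith
      · rw [Complex.mul_im]
        simp only
        ring
    have hω3 : ω ^ 3 = 1 := by
      have : ω ^ 3 = ω * (ω * ω) := by ring
      rw [this, hω2, hω]
      apply Complex.ext
      · rw [Complex.mul_re]
        simp only [Complex.one_re]
        nlinarith
      · rw [Complex.mul_im]
        simp only [Complex.one_im]
        ring
    refine ⟨γ * ω - z.1, ?_, ?_⟩
    · rw [pC3_aeval, sub_add_cancel, mul_pow, hω3, mul_one, hγ]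
      ring
    · have hre : γ.re ≠ 0 := by
        intro hre
        have : γ = 0 := Complex.ext hre him
        rw [this] at hγ
        apply hz
        have h5 : ((z.2 : ℤ) : ℂ) = 0 := by
          have : (0 : ℂ) ^ 3 = 0 := by norm_num
          rw [this] at hγ
          linear_combination hγ
        exact_mod_cast h5
      have h1 : (γ * ω - z.1).im = γ.re * (Real.sqrt 3 / 2) := by
        rw [Complex.sub_im, Complex.mul_im, him, hω]
        simp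
      rw [h1]
      have : Real.sqrt 3 ≠ 0 := by
        intro h
        rw [h] at hs3
        norm_num at hs3
      positivity

theorem cubK (b : ℤ) (hb : b ≠ 0) (S : Fin k → ℤ × ℤ) (hnc : ∀ l, ∀ a : ℤ, (S l).2 ≠ a ^ 3)
    (hS : ∀ p : ℕ, p.Prime → ∃ x : ℤ, ¬ (p : ℤ) ∣ x * (x + b) ∧ ∀ l, ¬ (p : ℤ) ∣ vC3 (S l) x) (H L : ℕ) :
    ∃ C t : ℕ, 1 ≤ t ∧ ∃ κ : ℝ, 0 < κ ∧ ∀ (s r : ℕ) (θ δ : ℝ), 1 ≤ s → 0 < θ → 0 < δ → ∃ c X₀ : ℕ, ∀ X : ℕ, X₀ ≤ X →
      κ / Real.log X ^ (3 * k + 2) ≤ VB b vC3 S X ∧ ∀ A B : ℕ, B ≤ X → θ * X ≤ (B : ℝ) - A →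
        κ * ((B : ℝ) - A) * VB b vC3 S X ≤
          ((GB b vC3 (fun _ => 3) S (fun z => (|z.1| ≤ H ∧ |z.2| ≤ L ∧ z.2 ≠ 0) ∧ ∀ l, S l ≠ z) C t X A B).card : ℝ) ∧
        ∀ χ : ℕ → Fin r, ∃ P : Finset (ℕ × ℕ),
          (∀ z ∈ P, 1 ≤ z.2 ∧ (z.2 : ℝ) ≤ Real.log X ^ c ∧
            ∀ l < s, z.1 + l * z.2 ∈ GB b vC3 (fun _ => 3) S (fun z => (|z.1| ≤ H ∧ |z.2| ≤ L ∧ z.2 ≠ 0) ∧
              ∀ l, S l ≠ z) C t X A B ∧ χ (z.1 + l * z.2) = χ z.1) ∧
          (P : Set (ℕ × ℕ)).PairwiseDisjoint (apSet s) ∧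
          (((GB b vC3 (fun _ => 3) S (fun z => (|z.1| ≤ H ∧ |z.2| ≤ L ∧ z.2 ≠ 0) ∧ ∀ l, S l ≠ z) C t X A B \
            P.biUnion (apSet s)).card : ℕ) : ℝ) ≤ δ * ((B : ℝ) - A) * VB b vC3 S X := by
  classical
  apply famK pC3 vC3 pC3_eval (fun _ => 3) b hb S (fun l => pC3_deg _) (fun _ => by norm_num) (3 * k)
    (by simp [mul_comm]) hS (((Icc (-(H : ℤ)) H) ×ˢ (Icc (-(L : ℤ)) L)).filter (fun z => z.2 ≠ 0 ∧ ∀ l, S l ≠ z))
  · intro z
    rw [mem_filter, mem_product, mem_Icc, mem_Icc, ← abs_le, ← abs_le]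
    tauto
  · intro z hz
    obtain ⟨α, hα, him⟩ := pC3_zero z hz.1.2.2
    refine ⟨?_, α, hα, ?_, ?_, fun l h => pC3_common z (S l) (hnc l) (hz.2 l) α hα h⟩
    · intro h
      have := pC3_deg z
      rw [h, Polynomial.natDegree_zero] at this
      omega
    · intro h
      rw [h] at him
      simp at him
    · intro h
      apply him
      have h2 := congrArg Complex.im h
      simpa using h2

end Pool.Agent.X32.Uni
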