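import Pool.Agent.X32.Uni.PairK

/-!
Cyclotomic polynomials at Chen primes.
-/

set_option autoImplicit false

namespace Pool.Agent.X32.Uni

open Finset
open Polynomial (C X aeval cyclotomic)
open scoped Polynomial

variable {k : ℕ}

theorem cyc_aeval (m : ℕ) (hm : 0 < m) (α : ℂ) : aeval α (cyclotomic m ℤ) = 0 ↔ IsPrimitiveRoot α m := by
  have : NeZero (m : ℂ) := ⟨by exact_mod_cast hm.ne'⟩
  rw [← Polynomial.isRoot_cyclotomic_iff, Polynomial.IsRoot.def, ← Polynomial.map_cyclotomic_int m ℂ,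
    Polynomial.eval_map]
  rfl

/-- `ω(p)` -/
noncomputable def omC (b : ℤ) (r : Fin k → ℕ) (p : ℕ) : ℕ :=
  ((range p).filter (fun x : ℕ => (p : ℤ) ∣ (x : ℤ) * (x + b) * ∏ l, (cyclotomic (r l) ℤ).eval (x : ℤ))).card

/-- the product of `1 - ω(p) / p` over the primes `p ≤ X` -/
noncomputable def VC (b : ℤ) (r : Fin k → ℕ) (X : ℕ) : ℝ :=
  ∏ p ∈ (Icc 1 X).filter Nat.Prime, (1 - (omC b r p : ℝ) / p)

open Classical in
/-- the good primes -/
noncomputable def GC (b : ℤ) (r : Fin k → ℕ) (M L C t X A B : ℕ) : Finset ℕ :=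
  (Ioc A B).filter (fun n : ℕ => n.Prime ∧ (X : ℝ) ^ (1 / (t : ℝ)) < n ∧
    Almost 2 ((X : ℝ) ^ (1 / 9 : ℝ)) (n + b) ∧ Almost t ((X : ℝ) ^ (1 / (t : ℝ))) (n + b) ∧
    (∀ l, Almost (t * (r l).totient) ((X : ℝ) ^ (1 / (t : ℝ))) ((cyclotomic (r l) ℤ).eval (n : ℤ))) ∧
    (∀ m : ℕ, 1 ≤ m → m ≤ M → (∀ l, r l ≠ m) →
      ∃ p : ℕ, p.Prime ∧ p ≤ C ∧ (p : ℤ) ∣ (cyclotomic m ℤ).eval (n : ℤ)) ∧
    ∀ h : ℤ, h ≠ 0 → h ≠ b → |h| ≤ L → ∃ p : ℕ, p.Prime ∧ p ≤ C ∧ (p : ℤ) ∣ (n : ℤ) + h)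

theorem cycP (b : ℤ) (hb : b ≠ 0) (r : Fin k → ℕ) (hr : ∀ l, 1 ≤ r l)
    (hloc : ∀ p : ℕ, p.Prime → ∃ x : ℤ, ¬ (p : ℤ) ∣ x * (x + b) * ∏ l, (cyclotomic (r l) ℤ).eval x) (M L : ℕ) :
    ∃ C t : ℕ, 1 ≤ t ∧ ∃ κ : ℝ, 0 < κ ∧ ∀ (s ρ : ℕ) (θ δ : ℝ), 1 ≤ s → 0 < θ → 0 < δ → ∃ c X₀ : ℕ, ∀ X : ℕ, X₀ ≤ X →
      κ / Real.log X ^ (∑ l, (r l).totient + 2) ≤ VC b r X ∧ ∀ A B : ℕ, B ≤ X → θ * X ≤ (B : ℝ) - A →
        κ * ((B : ℝ) - A) * VC b r X ≤ ((GC b r M L C t X A B).card : ℝ) ∧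
        ∀ χ : ℕ → Fin ρ, ∃ P : Finset (ℕ × ℕ),
          (∀ z ∈ P, 1 ≤ z.2 ∧ (z.2 : ℝ) ≤ Real.log X ^ c ∧
            ∀ l < s, z.1 + l * z.2 ∈ GC b r M L C t X A B ∧ χ (z.1 + l * z.2) = χ z.1) ∧
          (P : Set (ℕ × ℕ)).PairwiseDisjoint (apSet s) ∧
          (((GC b r M L C t X A B \ P.biUnion (apSet s)).card : ℕ) : ℝ) ≤ δ * ((B : ℝ) - A) * VC b r X := by
  classical
  -- consequences of the local condition at `2`
  obtain ⟨x, hx⟩ := hloc 2 Nat.prime_two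
  have hpi := Nat.prime_iff_prime_int.1 Nat.prime_two
  have hx1 : ¬ ((2 : ℕ) : ℤ) ∣ x := fun h => hx ((h.mul_right _).mul_right _)
  have hx2 : ¬ ((2 : ℕ) : ℤ) ∣ x + b := fun h => hx ((h.mul_left _).mul_right _)
  have hx3 : ∀ l, ¬ ((2 : ℕ) : ℤ) ∣ (cyclotomic (r l) ℤ).eval x := fun l h =>
    hx ((h.trans (dvd_prod_of_mem (fun l => (cyclotomic (r l) ℤ).eval x) (mem_univ l))).mul_left _)
  have hr3 : ∀ l, 3 ≤ r l := by
    intro l
    by_contra hcon
    have h1 := hr l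
    have h2 : r l = 1 ∨ r l = 2 := by omega
    rcases h2 with h2 | h2
    · apply hx3 l
      rw [h2, Polynomial.cyclotomic_one]
      simp
      push_cast at hx1
      omega
    · apply hx3 l
      rw [h2, Polynomial.cyclotomic_two]
      simp
      push_cast at hx1
      omega
  have hb1 : b ≠ 1 ∧ b ≠ -1 := by
    push_cast at hx1 hx2
    omega
  obtain ⟨g, hg⟩ : ∃ g : Fin k → ℤ[X], g = fun l => cyclotomic (r l) ℤ := ⟨_, rfl⟩
  have hgl : ∀ l, g l = cyclotomic (r l) ℤ := fun l => by rw [hg]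
  have hgd : ∀ l, (g l).natDegree = (r l).totient := fun l => by rw [hgl, Polynomial.natDegree_cyclotomic]
  obtain ⟨G₁, hG₁⟩ : ∃ G : Finset ℤ[X], G = ((Icc 1 M).filter (fun m => ∀ l, r l ≠ m)).image
      (fun m => cyclotomic m ℤ) := ⟨_, rfl⟩
  obtain ⟨G₂, hG₂⟩ : ∃ G : Finset ℤ[X], G = ((Icc (-(L : ℤ)) L).filter (fun h => h ≠ 0 ∧ h ≠ b)).image
      (fun h => X + C h) := ⟨_, rfl⟩
  have hint : ∀ (h : ℤ) (l : Fin k), aeval (-(h : ℂ)) (g l) ≠ 0 := by
    intro h l h0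
    rw [hgl, cyc_aeval _ (by have := hr l; omega)] at h0
    have h1 := h0.norm'_eq_one (by have := hr l; omega)
    rw [norm_neg, Complex.norm_intCast] at h1
    have h2 : |h| = 1 := by exact_mod_cast h1
    have h3 : (-(h : ℂ)) ^ 2 = 1 := by
      have h4 : h ^ 2 = 1 := by
        rw [← sq_abs, h2]
        norm_num
      have h5 : ((h : ℂ)) ^ 2 = 1 := by exact_mod_cast h4
      rw [neg_pow, h5]
      norm_num
    have h4 := Nat.le_of_dvd (by norm_num) (h0.dvd_of_pow_eq_one 2 h3)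
    have := hr3 l
    omega
  obtain ⟨C', t, ht, κ, hκ, H⟩ := pairK b hb g (fun l => by
      rw [hgd]
      exact Nat.totient_pos.2 (hr l)) (by
      intro p hp
      obtain ⟨x, hx⟩ := hloc p hp
      exact ⟨x, by simpa only [hgl] using hx⟩) (G₁ ∪ G₂) (by
      intro q hq
      rw [mem_union] at hq
      rcases hq with hq | hq
      · rw [hG₁, mem_image] at hq
        obtain ⟨m, hm, rfl⟩ := hq
        rw [mem_filter, mem_Icc] at hm
        obtain ⟨⟨hm1, hm2⟩, hm3⟩ := hm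
        have hprim := Complex.isPrimitiveRoot_exp m (by omega)
        refine ⟨Polynomial.cyclotomic_ne_zero m ℤ, _, (cyc_aeval m (by omega) _).2 hprim, ?_, ?_, ?_⟩
        · exact hprim.ne_zero (by omega)
        · intro h0
          have h1 := hprim.norm'_eq_one (by omega)
          rw [add_eq_zero_iff_eq_neg.1 h0, norm_neg, Complex.norm_intCast] at h1
          have h2 : |b| = 1 := by exact_mod_cast h1
          rcases abs_eq (by norm_num : (0 : ℤ) ≤ 1) |>.1 h2 with h3 | h3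
          · exact hb1.1 h3
          · exact hb1.2 h3
        · intro l h0
          rw [hgl, cyc_aeval _ (by have := hr l; omega)] at h0
          exact hm3 l (h0.unique hprim)
      · rw [hG₂, mem_image] at hq
        obtain ⟨h, hh, rfl⟩ := hq
        rw [mem_filter, mem_Icc] at hh
        refine ⟨Polynomial.X_add_C_ne_zero h, -(h : ℂ), by simp, ?_, ?_, hint h⟩
        · rw [neg_ne_zero]
          exact_mod_cast hh.2.1
        · intro h0
          apply hh.2.2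
          have h1 : (b : ℂ) = h := by linear_combination h0
          exact_mod_cast h1.symm)
  have ho : ∀ p, omP b g p = omC b r p := by
    intro p
    unfold omP omC
    simp only [hgl]
  have hV : ∀ n, VP b g n = VC b r n := fun n => by
    unfold VP VC
    exact prod_congr rfl fun p _ => by rw [ho]
  have hGe : ∀ X A B, GP b g (G₁ ∪ G₂) C' t X A B = GC b r M L C' t X A B := by
    intro X' A B
    ext n
    unfold GP GC
    rw [mem_filter, mem_filter]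
    refine and_congr_right fun _ => and_congr_right fun _ => and_congr_right fun _ => and_congr_right fun _ =>
      and_congr_right fun _ => ?_
    simp only [hgl, Polynomial.natDegree_cyclotomic]
    refine and_congr_right fun _ => ?_
    constructor
    · intro h
      refine ⟨fun m hm1 hm2 hm3 => ?_, fun j hj1 hj2 hj3 => ?_⟩
      · exact h _ (mem_union_left _ (by
          rw [hG₁]
          exact mem_image_of_mem _ (mem_filter.2 ⟨mem_Icc.2 ⟨hm1, hm2⟩, hm3⟩)))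
      · obtain ⟨p, p1, p2, p3⟩ := h (X + C j) (mem_union_right _ (by
          rw [hG₂]
          exact mem_image_of_mem _ (mem_filter.2 ⟨mem_Icc.2 (abs_le.1 hj3), hj1, hj2⟩)))
        exact ⟨p, p1, p2, by simpa using p3⟩
    · rintro ⟨h1, h2⟩ q hq
      rw [mem_union] at hq
      rcases hq with hq | hq
      · rw [hG₁, mem_image] at hq
        obtain ⟨m, hm, rfl⟩ := hq
        rw [mem_filter, mem_Icc] at hm
        exact h1 m hm.1.1 hm.1.2 hm.2
      · rw [hG₂, mem_image] at hq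
        obtain ⟨j, hj, rfl⟩ := hq
        rw [mem_filter, mem_Icc] at hj
        obtain ⟨p, p1, p2, p3⟩ := h2 j hj.2.1 hj.2.2 (abs_le.2 hj.1)
        exact ⟨p, p1, p2, by simpa using p3⟩
  refine ⟨C', t, ht, κ, hκ, fun s ρ θ δ hs hθ hδ => ?_⟩
  obtain ⟨c, X₀, hX⟩ := H s ρ θ δ hs hθ hδ
  refine ⟨c, X₀, fun X hXX => ?_⟩
  have := hX X hXX
  simp only [hV, hGe, hgd] at this
  exact this

end Pool.Agent.X32.Uni
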