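import Mathlib

/-!
Families of polynomials in one variable: definitions and elementary facts.
-/

set_option autoImplicit false

namespace Pool.Agent.X32.Uni

open Finset Polynomial

variable {m : ℕ}

/-- no prime divides the product of the values at every integer -/
def Loc (f : Fin m → ℤ[X]) : Prop := ∀ p : ℕ, p.Prime → ∃ x : ℤ, ¬ (p : ℤ) ∣ ∏ k, (f k).eval x

/-- the number of the zeros of the product modulo `p` -/
noncomputable def om (f : Fin m → ℤ[X]) (p : ℕ) : ℕ :=
  ((range p).filter (fun x : ℕ => (p : ℤ) ∣ ∏ k, (f k).eval (x : ℤ))).card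

/-- the product of `1 - ω(p) / p` over the primes `p ≤ n` -/
noncomputable def V (f : Fin m → ℤ[X]) (n : ℕ) : ℝ :=
  ∏ p ∈ (Icc 1 n).filter Nat.Prime, (1 - (om f p : ℝ) / p)

/-- the number of the zeros modulo a prime -/
theorem card_roots_le (G : ℤ[X]) {p : ℕ} (hp : p.Prime) (h : ∃ x : ℤ, ¬ (p : ℤ) ∣ G.eval x) :
    ((range p).filter (fun x : ℕ => (p : ℤ) ∣ G.eval (x : ℤ))).card ≤ G.natDegree := by
  classical
  have : Fact p.Prime := ⟨hp⟩
  obtain ⟨x, hx⟩ := h
  obtain ⟨H, hH⟩ : ∃ H : (ZMod p)[X], H = G.map (Int.castRingHom (ZMod p)) := ⟨_, rfl⟩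
  have hev : ∀ y : ℤ, H.eval (y : ZMod p) = ((G.eval y : ℤ) : ZMod p) := by
    intro y
    rw [hH]
    exact eval_intCast_map (Int.castRingHom (ZMod p)) G y
  have hH0 : H ≠ 0 := by
    intro h0
    apply hx
    have h1 := hev x
    rw [h0, eval_zero] at h1
    exact (ZMod.intCast_zmod_eq_zero_iff_dvd _ _).1 h1.symm
  have h2 : ((range p).filter (fun x : ℕ => (p : ℤ) ∣ G.eval (x : ℤ))).card ≤ H.roots.toFinset.card := by
    apply card_le_card_of_injOn (fun x : ℕ => (x : ZMod p))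
    · intro y hy
      rw [mem_coe, mem_filter] at hy
      rw [mem_coe, Multiset.mem_toFinset, mem_roots hH0, IsRoot.def]
      have h3 := hev y
      rw [(ZMod.intCast_zmod_eq_zero_iff_dvd _ _).2 hy.2] at h3
      simpa using h3
    · intro y hy y' hy' hyy
      rw [mem_coe, mem_filter, mem_range] at hy hy'
      have h3 := (ZMod.natCast_eq_natCast_iff _ _ _).1 hyy
      exact Nat.ModEq.eq_of_lt_of_lt h3 hy.1 hy'.1
  refine h2.trans ((Multiset.toFinset_card_le _).trans ((card_roots' H).trans ?_))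
  rw [hH]
  exact natDegree_map_le

/-- the number of the arguments with a given value -/
theorem card_val_le (G : ℤ[X]) (hG : 1 ≤ G.natDegree) (v : ℤ) (A B : ℕ) :
    ((Ioc A B).filter (fun x : ℕ => G.eval (x : ℤ) = v)).card ≤ G.natDegree := by
  classical
  have h0 : G - C v ≠ 0 := by
    intro h
    have h1 : G = C v := sub_eq_zero.1 h
    rw [h1, natDegree_C] at hG
    omega
  have h2 : ((Ioc A B).filter (fun x : ℕ => G.eval (x : ℤ) = v)).card ≤ (G - C v).roots.toFinset.card := by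
    apply card_le_card_of_injOn (fun x : ℕ => (x : ℤ))
    · intro y hy
      rw [mem_coe, mem_filter] at hy
      rw [mem_coe, Multiset.mem_toFinset, mem_roots h0, IsRoot.def, eval_sub, eval_C, hy.2, sub_self]
    · intro y _ y' _ hyy
      exact Nat.cast_injective hyy
  refine h2.trans ((Multiset.toFinset_card_le _).trans ((card_roots' _).trans ?_))
  exact (natDegree_sub_le _ _).trans (by simp)

theorem dvd_iff {f : Fin m → ℤ[X]} {p : ℕ} {x y : ℤ} (h : x ≡ y [ZMOD p]) :
    (p : ℤ) ∣ ∏ k, (f k).eval x ↔ (p : ℤ) ∣ ∏ k, (f k).eval y := by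
  have h1 : ∏ k, (f k).eval x ≡ ∏ k, (f k).eval y [ZMOD p] := by
    apply Int.ModEq.prod
    intro k _
    exact (Int.modEq_iff_dvd.2 (by
      have := sub_dvd_eval_sub y x (f k)
      exact ((Int.modEq_iff_dvd.1 h)).trans this))
  exact h1.dvd_iff

theorem om_le {f : Fin m → ℤ[X]} (hloc : Loc f) {p : ℕ} (hp : p.Prime) : om f p ≤ ∑ k, (f k).natDegree := by
  have h1 : om f p = ((range p).filter (fun x : ℕ => (p : ℤ) ∣ (∏ k, f k).eval (x : ℤ))).card := by
    unfold om
    congr 1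
    apply filter_congr
    intro x _
    rw [eval_prod]
  rw [h1]
  refine (card_roots_le _ hp ?_).trans (natDegree_prod_le _ _)
  obtain ⟨x, hx⟩ := hloc p hp
  exact ⟨x, by rwa [eval_prod]⟩

theorem om_lt {f : Fin m → ℤ[X]} (hloc : Loc f) {p : ℕ} (hp : p.Prime) : om f p < p := by
  obtain ⟨x, hx⟩ := hloc p hp
  have hp0 : (0 : ℤ) < p := by exact_mod_cast hp.pos
  have h3 := Int.emod_nonneg x hp0.ne'
  have h4 := Int.emod_lt_of_pos x hp0
  unfold om
  have h1 : (range p).filter (fun x : ℕ => (p : ℤ) ∣ ∏ k, (f k).eval (x : ℤ)) ⊂ range p := by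
    refine filter_ssubset.2 ⟨(x % p).toNat, mem_range.2 (by omega), ?_⟩
    rw [Int.toNat_of_nonneg h3, dvd_iff (Int.mod_modEq x p)]
    exact hx
  have h2 := card_lt_card h1
  rwa [card_range] at h2

theorem fac_bounds {f : Fin m → ℤ[X]} (hloc : Loc f) {p : ℕ} (hp : p.Prime) :
    0 < 1 - (om f p : ℝ) / p ∧ 1 - (om f p : ℝ) / p ≤ 1 := by
  have hp0 : (0 : ℝ) < p := by exact_mod_cast hp.pos
  have h1 : (om f p : ℝ) < p := by exact_mod_cast om_lt hloc hp
  constructor
  · rw [sub_pos, div_lt_one hp0]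
    exact h1
  · have : 0 ≤ (om f p : ℝ) / p := by positivity
    linarith

theorem V_nonneg {f : Fin m → ℤ[X]} (hloc : Loc f) (n : ℕ) : 0 ≤ V f n := by
  unfold V
  exact prod_nonneg fun p hp => (fac_bounds hloc (mem_filter.1 hp).2).1.le

theorem eval_lin {G : ℤ[X]} (h : G.natDegree = 1) (x : ℤ) : G.eval x = G.coeff 1 * x + G.coeff 0 := by
  conv_lhs => rw [eq_X_add_C_of_natDegree_le_one h.le]
  simp

theorem coeff_ne {G : ℤ[X]} (h : G.natDegree = 1) : G.coeff 1 ≠ 0 := by
  intro h0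
  have h1 : G.leadingCoeff = 0 := by
    unfold leadingCoeff
    rw [h]
    exact h0
  rw [leadingCoeff_eq_zero] at h1
  rw [h1, natDegree_zero] at h
  omega

theorem cop_lin {f : Fin m → ℤ[X]} (hloc : Loc f) {i : Fin m} (h : (f i).natDegree = 1) :
    IsCoprime ((f i).coeff 1) ((f i).coeff 0) := by
  rw [Int.isCoprime_iff_gcd_eq_one]
  by_contra hcon
  obtain ⟨p, hp, hpd⟩ := Nat.exists_prime_and_dvd hcon
  obtain ⟨x, hx⟩ := hloc p hp
  apply hx
  refine Dvd.dvd.trans ?_ (dvd_prod_of_mem _ (mem_univ i))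
  rw [eval_lin h]
  have e1 : (p : ℤ) ∣ (f i).coeff 1 := (Int.natCast_dvd_natCast.2 hpd).trans (Int.gcd_dvd_left _ _)
  have e2 : (p : ℤ) ∣ (f i).coeff 0 := (Int.natCast_dvd_natCast.2 hpd).trans (Int.gcd_dvd_right _ _)
  exact dvd_add (e1.mul_right _) e2

/-- the two linear polynomials are not proportional -/
theorem det_ne {f : Fin m → ℤ[X]} (hloc : Loc f) {i j : Fin m} (hi : (f i).natDegree = 1) (hj : (f j).natDegree = 1)
    (h1 : f j ≠ f i) (h2 : f j ≠ - f i) :
    (f i).coeff 1 * (f j).coeff 0 - (f j).coeff 1 * (f i).coeff 0 ≠ 0 := by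
  intro h0
  have hc0 := cop_lin hloc hi
  have hc1 := cop_lin hloc hj
  have he0 := coeff_ne hi
  have h3 : (f i).coeff 1 * (f j).coeff 0 = (f j).coeff 1 * (f i).coeff 0 := by linarith
  have h4 : (f i).coeff 1 ∣ (f j).coeff 1 := hc0.dvd_of_dvd_mul_right (Dvd.intro _ h3)
  have h5 : (f j).coeff 1 ∣ (f i).coeff 1 := hc1.dvd_of_dvd_mul_right (Dvd.intro _ h3.symm)
  have h6 := Int.natAbs_eq_natAbs_iff.1 (Nat.dvd_antisymm (Int.natAbs_dvd_natAbs.2 h4) (Int.natAbs_dvd_natAbs.2 h5))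
  have hfi := eq_X_add_C_of_natDegree_le_one hi.le
  have hfj := eq_X_add_C_of_natDegree_le_one hj.le
  rcases h6 with h6 | h6
  · apply h1
    rw [← h6] at h3
    have h7 := mul_left_cancel₀ he0 h3
    rw [hfi, hfj, ← h6, h7]
  · apply h2
    have h8 : (f j).coeff 1 = - (f i).coeff 1 := by linarith
    rw [h8] at h3
    have h7 : (f j).coeff 0 = - (f i).coeff 0 := by
      apply mul_left_cancel₀ he0
      linarith
    rw [hfi, hfj, h8, h7]
    simp only [map_neg]
    ring

end Pool.Agent.X32.Uni
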