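import Pool.Agent.X32.Uni.Pairs

/-!
Differences `h = P₂ - p`, uniformly in `h`.
-/

set_option autoImplicit false

namespace Pool.Agent.X32.Uni

open Finset Filter

/-- the number of the classes of `0, - h` modulo `p` -/
def wH (h : ℤ) (p : ℕ) : ℕ := if (p : ℤ) ∣ h then 1 else 2

/-- the product of `1 - w(p) / p` over the primes `p ≤ X` -/
noncomputable def WH (h : ℤ) (X : ℕ) : ℝ := ∏ p ∈ (Icc 1 X).filter Nat.Prime, (1 - (wH h p : ℝ) / p)

open Classical in
/-- the primes `p` of `(A, B]` such that `|p + h|` is a product of at most two primes `> X ^ (1 / 9)` -/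
noncomputable def GH (h : ℤ) (X A B : ℕ) : Finset ℕ :=
  (Ioc A B).filter (fun p : ℕ => p.Prime ∧ Almost 2 ((X : ℝ) ^ (1 / 9 : ℝ)) ((p : ℤ) + h))

theorem omL_pair (h : ℤ) {p : ℕ} (hp : p.Prime) : omL ![1, 1] ![0, h] p = wH h p := by
  classical
  have hp0 : (0 : ℤ) < p := by exact_mod_cast hp.pos
  have hpi := Nat.prime_iff_prime_int.1 hp
  unfold omL wH
  have hn := Int.emod_nonneg (-h) hp0.ne'
  have hl := Int.emod_lt_of_pos (-h) hp0
  obtain ⟨r, hr⟩ : ∃ r : ℕ, (r : ℤ) = (-h) % p := ⟨((-h) % p).toNat, Int.toNat_of_nonneg hn⟩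
  have hrp : r < p := by
    have : (r : ℤ) < p := by rw [hr]; exact hl
    exact_mod_cast this
  have key : (range p).filter (fun n : ℕ => (p : ℤ) ∣ ∏ i : Fin 2, ((![1, 1] : Fin 2 → ℤ) i * (n : ℤ) +
      (![0, h] : Fin 2 → ℤ) i)) = {0, r} := by
    ext n
    rw [mem_filter, mem_range, Fin.prod_univ_two]
    simp only [Matrix.cons_val_zero, Matrix.cons_val_one, one_mul, add_zero, mem_insert, mem_singleton]
    constructor
    · rintro ⟨h1, h2⟩
      rcases hpi.dvd_or_dvd h2 with h3 | h3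
      · left
        have h4 := Int.natCast_dvd_natCast.1 h3
        exact Nat.eq_zero_of_dvd_of_lt h4 h1
      · right
        have h4 : (n : ℤ) ≡ r [ZMOD p] := by
          have h5 : (n : ℤ) ≡ -h [ZMOD p] := by
            apply Int.ModEq.symm
            rw [Int.modEq_iff_dvd]
            have : (n : ℤ) - -h = n + h := by ring
            rwa [this]
          exact h5.trans (by rw [hr]; exact (Int.mod_modEq _ _).symm)
        exact Nat.ModEq.eq_of_lt_of_lt (Int.natCast_modEq_iff.1 h4) h1 hrp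
    · rintro (rfl | rfl)
      · exact ⟨hp.pos, by simp⟩
      · refine ⟨hrp, ?_⟩
        apply Dvd.dvd.mul_left
        rw [hr]
        have : (-h) % (p : ℤ) + h = - (-h - (-h) % p) := by ring
        rw [this, Int.dvd_neg]
        exact Int.dvd_self_sub_emod
  rw [key]
  by_cases h1 : (p : ℤ) ∣ h
  · rw [if_pos h1]
    have h2 : (-h) % (p : ℤ) = 0 := Int.emod_eq_zero_of_dvd ((Int.dvd_neg).2 h1)
    have h3 : r = 0 := by
      rw [h2] at hr
      exact_mod_cast hr
    rw [h3]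
    simp
  · rw [if_neg h1]
    have h3 : (0 : ℕ) ≠ r := by
      intro h0
      apply h1
      rw [← h0] at hr
      have := Int.dvd_of_emod_eq_zero hr.symm
      exact (Int.dvd_neg).1 this
    rw [card_pair h3]

theorem VL_pair (h : ℤ) (X : ℕ) : VL ![1, 1] ![0, h] X = WH h X := by
  unfold VL WH
  apply Finset.prod_congr rfl
  intro p hp
  rw [omL_pair h (mem_filter.1 hp).2]

theorem adm_pair {h : ℤ} (h2 : Even h) : AdmL ![1, 1] ![0, h] := by
  intro p hp
  rcases hp.eq_two_or_odd' with rfl | hodd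
  · refine ⟨1, fun i => ?_⟩
    obtain ⟨r, hr⟩ := h2
    fin_cases i
    · simp
    · simp only [Fin.mk_one, Matrix.cons_val_one, Matrix.cons_val_zero, one_mul]
      omega
  · have h3 : 3 ≤ p := by
      have := hp.two_le
      obtain ⟨r, hr⟩ := hodd
      omega
    have hpi := Nat.prime_iff_prime_int.1 hp
    by_cases h1 : (p : ℤ) ∣ 1 + h
    · refine ⟨2, fun i => ?_⟩
      fin_cases i
      · simp only [Fin.zero_eta, Matrix.cons_val_zero, one_mul, add_zero]
        intro h4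
        have := Int.le_of_dvd (by norm_num) h4
        omega
      · simp only [Fin.mk_one, Matrix.cons_val_one, Matrix.cons_val_zero, one_mul]
        intro h4
        have h5 := dvd_sub h4 h1
        have h6 : (2 : ℤ) + h - (1 + h) = 1 := by ring
        rw [h6] at h5
        exact hpi.not_isUnit (isUnit_of_dvd_one h5)
    · refine ⟨1, fun i => ?_⟩
      fin_cases i
      · simp only [Fin.zero_eta, Matrix.cons_val_zero, one_mul, add_zero]
        intro h4
        exact hpi.not_isUnit (isUnit_of_dvd_one h4)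
      · simpa using h1

theorem diffU : ∃ κ : ℝ, 0 < κ ∧ ∀ θ : ℝ, 0 < θ → ∀ K : ℕ,
    (∃ X₀ : ℕ, ∀ X : ℕ, X₀ ≤ X → ∀ h : ℤ, Even h → h ≠ 0 → |h| ≤ K * (X : ℤ) →
      κ / Real.log X ^ 2 ≤ WH h X ∧ ∀ A B : ℕ, B ≤ X → θ * X ≤ (B : ℝ) - A →
        κ * ((B : ℝ) - A) * WH h X ≤ ((GH h X A B).card : ℝ)) ∧
    ∀ k : ℕ, ∀ δ : ℝ, 0 < δ → ∃ C X₀ : ℕ, ∀ X : ℕ, X₀ ≤ X → ∀ h : ℤ, Even h → h ≠ 0 → |h| ≤ K * (X : ℤ) →
      ∀ A B : ℕ, B ≤ X → θ * X ≤ (B : ℝ) - A →
        ∀ S : Finset ℕ, S ⊆ GH h X A B → δ * ((B : ℝ) - A) * WH h X ≤ S.card →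
        ∃ p d : ℕ, 1 ≤ d ∧ (d : ℝ) ≤ Real.log X ^ C ∧ ∀ l < k, p + l * d ∈ S := by
  classical
  obtain ⟨t, ht, κ, hκ, H⟩ := linU 2 1 (by norm_num)
  have hsys : ∀ (K X : ℕ) (h : ℤ), Even h → h ≠ 0 → |h| ≤ K * (X : ℤ) →
      SysL 2 1 (K + 1) X ![1, 1] ![0, h] 0 1 := by
    intro K X h h2 h0 hK
    refine ⟨?_, by simp, by simp, ?_, ?_, adm_pair h2, ?_, ?_⟩
    · intro l
      fin_cases l <;> simp
    · intro l
      have : (0 : ℤ) ≤ K := Nat.cast_nonneg K
      fin_cases l <;> simp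
    · intro l
      have hX : (0 : ℤ) ≤ X := Nat.cast_nonneg X
      fin_cases l
      · simp
      · simp only [Fin.mk_one, Matrix.cons_val_one, Matrix.cons_val_zero]
        refine hK.trans ?_
        push_cast
        nlinarith
    · intro h1
      have := (Prod.ext_iff.1 h1).2
      simp at this
      exact h0 this
    · intro h1
      have := (Prod.ext_iff.1 h1).1
      simp at this
  refine ⟨κ, hκ, fun θ hθ K => ?_⟩
  obtain ⟨⟨X₁, h1⟩, _⟩ := H θ hθ (K + 1)
  refine ⟨⟨X₁, fun X hX h h2 h0 hK => ?_⟩, fun k δ hδ => ?_⟩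
  · have h3 := h1 X hX ![1, 1] ![0, h] 0 1 (hsys K X h h2 h0 hK)
    rw [VL_pair] at h3
    refine ⟨h3.1, fun A B hB hAB => (h3.2 A B hB hAB).trans ?_⟩
    rw [Nat.cast_le]
    apply card_le_card
    intro x hx
    unfold GoodL at hx
    rw [mem_filter] at hx
    unfold GH
    rw [mem_filter]
    refine ⟨hx.1, ?_, ?_⟩
    · have := hx.2.1
      simpa using this
    · have := hx.2.2.1
      simpa using this
  · obtain ⟨C, X₂, h3⟩ := prog_dense 2 9 (by norm_num) k θ δ κ hθ hδ hκ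
    refine ⟨C, max X₁ X₂, fun X hX h h2 h0 hK A B hB hAB S hS hSc => ?_⟩
    have h4 := h1 X ((le_max_left _ _).trans hX) ![1, 1] ![0, h] 0 1 (hsys K X h h2 h0 hK)
    have ha : ∀ l : Fin 2, (![1, 1] : Fin 2 → ℤ) l ≠ 0 := fun l => by fin_cases l <;> simp
    refine h3 X ((le_max_right _ _).trans hX) 2 (lf ![1, 1] ![0, h]) ?_ (loc_lf (adm_pair h2)) ?_ A B hB hAB S ?_ ?_ ?_
    · simp only [lf_deg _ _ _ (ha _)]
      simp
    · rw [V_lf]
      exact h4.1
    · intro x hx
      exact (mem_filter.1 (hS hx)).1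
    · intro x hx hxn l q hq hd
      have h5 := hS hx
      unfold GH at h5
      rw [mem_filter] at h5
      rw [lf_eval] at hd
      fin_cases l
      · simp only [Fin.zero_eta, Matrix.cons_val_zero, one_mul, add_zero] at hd
        have h6 := (Nat.prime_dvd_prime_iff_eq hq h5.2.1).1 (Int.natCast_dvd_natCast.1 hd)
        rw [h6]
        exact hxn
      · simp only [Fin.mk_one, Matrix.cons_val_one, Matrix.cons_val_zero, one_mul] at hd
        have h6 := h5.2.2.2.2 q hq hd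
        exact_mod_cast h6
    · rw [V_lf, VL_pair]
      exact hSc

end Pool.Agent.X32.Uni
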