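import Pool.Agent.X32.Uni.Eqn

/-!
The equation `a p - b q = c`, uniformly in `c`: the theorem.
-/

set_option autoImplicit false

namespace Pool.Agent.X32.Uni

open Finset Filter

/-- the hypotheses on the coefficients -/
structure CE (E K X a b : ℕ) (c : ℤ) : Prop where
  a1 : 1 ≤ a
  b1 : 1 ≤ b
  aE : a ≤ E
  bE : b ≤ E
  c0 : c ≠ 0
  cK : |c| ≤ K * (X : ℤ)
  ab : IsCoprime (a : ℤ) b
  ac : IsCoprime (a : ℤ) c
  bc : IsCoprime (b : ℤ) c
  par : 2 ∣ (a : ℤ) * b * c

/-- the residue class of `p` -/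
theorem CE.rs {E K X a b : ℕ} {c : ℤ} (H : CE E K X a b c) : ∃ r : ℕ, r < b ∧ ∃ s : ℤ, (a : ℤ) * r - c = b * s := by
  have hb0 : (0 : ℤ) < b := by exact_mod_cast H.b1
  obtain ⟨u, v, huv⟩ := H.ab
  obtain ⟨r, hr⟩ : ∃ r : ℕ, (r : ℤ) = (u * c) % b :=
    ⟨((u * c) % b).toNat, Int.toNat_of_nonneg (Int.emod_nonneg _ hb0.ne')⟩
  have hrb : (r : ℤ) < b := by
    rw [hr]
    exact Int.emod_lt_of_pos _ hb0
  refine ⟨r, by exact_mod_cast hrb, ?_⟩
  have h1 : (b : ℤ) ∣ u * c - r := by
    rw [hr]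
    exact Int.dvd_self_sub_emod
  have h2 : (a : ℤ) * r - c = b * (-(v * c)) - a * (u * c - r) := by
    linear_combination c * huv
  have h3 : (b : ℤ) ∣ a * r - c := by
    rw [h2]
    exact dvd_sub (dvd_mul_right _ _) (h1.mul_left _)
  obtain ⟨s, hs⟩ := h3
  exact ⟨s, hs⟩

theorem CE.sys {E K X a b : ℕ} {c : ℤ} (H : CE E K X a b c) (hX : 1 ≤ X) {r : ℕ} (hr : r < b) {s : ℤ}
    (hs : (a : ℤ) * r - c = b * s) : SysL 2 E (K + E * E + E) X ![(b : ℤ), (a : ℤ)] ![(r : ℤ), s] 0 1 := by
  have hXz : (1 : ℤ) ≤ X := by exact_mod_cast hX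
  have ha1 : (1 : ℤ) ≤ a := by exact_mod_cast H.a1
  have hb1 : (1 : ℤ) ≤ b := by exact_mod_cast H.b1
  have haE : (a : ℤ) ≤ E := by exact_mod_cast H.aE
  have hbE : (b : ℤ) ≤ E := by exact_mod_cast H.bE
  have hrE : (r : ℤ) ≤ E := by exact_mod_cast (hr.le.trans H.bE)
  have hE0 : (0 : ℤ) ≤ E := by positivity
  have hK0 : (0 : ℤ) ≤ K := by positivity
  have hr0 : (0 : ℤ) ≤ r := by positivity
  refine
    { a0 := ?_
      aE := by simpa using H.bE
      aE' := by simpa using H.aE
      aK := ?_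
      bK := ?_
      adm := adm_E H.ab H.ac H.bc H.par hs
      ne := ?_
      ne' := ?_ }
  · intro l
    fin_cases l
    · show (b : ℤ) ≠ 0
      omega
    · show (a : ℤ) ≠ 0
      omega
  · intro l
    have h1 : (E : ℤ) ≤ ((K + E * E + E : ℕ) : ℤ) := by
      push_cast
      nlinarith
    fin_cases l
    · show |(b : ℤ)| ≤ _
      rw [Nat.abs_cast]
      linarith
    · show |(a : ℤ)| ≤ _
      rw [Nat.abs_cast]
      linarith
  · intro l
    have h0 : (0 : ℤ) ≤ (X : ℤ) - 1 := by linarith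
    fin_cases l
    · show |(r : ℤ)| ≤ ((K + E * E + E : ℕ) : ℤ) * X
      rw [Nat.abs_cast]
      push_cast
      nlinarith [mul_nonneg hE0 h0, mul_nonneg hK0 (show (0 : ℤ) ≤ X by linarith),
        mul_nonneg (mul_nonneg hE0 hE0) (show (0 : ℤ) ≤ X by linarith)]
    · show |s| ≤ ((K + E * E + E : ℕ) : ℤ) * X
      have h1 : |s| ≤ |(b : ℤ) * s| := by
        rw [abs_mul, Nat.abs_cast]
        exact le_mul_of_one_le_left (abs_nonneg _) hb1
      have h2 : |(b : ℤ) * s| ≤ a * r + K * X := by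
        rw [← hs]
        refine (abs_sub _ _).trans ?_
        have := H.cK
        rw [abs_of_nonneg (mul_nonneg (by linarith) hr0)]
        linarith
      have h3 : (a : ℤ) * r ≤ E * E := mul_le_mul haE hrE hr0 hE0
      push_cast
      nlinarith [mul_nonneg (mul_nonneg hE0 hE0) h0, mul_nonneg hE0 (show (0 : ℤ) ≤ X by linarith)]
  · intro h
    have h1 : (a : ℤ) = b := (Prod.ext_iff.1 h).1
    have h2 : s = r := (Prod.ext_iff.1 h).2
    have h3 := H.ab
    rw [h1] at h3
    have h4 := isCoprime_self.1 h3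
    rw [Int.isUnit_iff] at h4
    have h5 : (b : ℤ) = 1 := by omega
    rw [h1, h2, h5] at hs
    apply H.c0
    linarith
  · intro h
    have h1 : (a : ℤ) = - (b : ℤ) := (Prod.ext_iff.1 h).1
    omega

theorem VL_E {a b : ℕ} {c r s : ℤ} (hab : IsCoprime (a : ℤ) b) (hac : IsCoprime (a : ℤ) c) (hbc : IsCoprime (b : ℤ) c)
    (hrs : (a : ℤ) * r - c = b * s) (X : ℕ) : VL ![(b : ℤ), (a : ℤ)] ![r, s] X = WE a b c X := by
  unfold VL WE
  apply prod_congr rfl
  intro l hl
  rw [omL_E hab hac hbc hrs (mem_filter.1 hl).2]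

theorem eqnU (E : ℕ) : ∃ κ : ℝ, 0 < κ ∧ ∀ θ : ℝ, 0 < θ → ∀ K : ℕ,
    (∃ X₀ : ℕ, ∀ X : ℕ, X₀ ≤ X → ∀ (a b : ℕ) (c : ℤ), CE E K X a b c → κ / Real.log X ^ 2 ≤ WE a b c X ∧
      ∀ A B : ℕ, B ≤ X → θ * X ≤ (B : ℝ) - A →
        κ * ((B : ℝ) - A) * WE a b c X ≤ ((GE a b c X A B).card : ℝ)) ∧
    ∀ k : ℕ, ∀ δ : ℝ, 0 < δ → ∃ C X₀ : ℕ, ∀ X : ℕ, X₀ ≤ X → ∀ (a b : ℕ) (c : ℤ), CE E K X a b c →
      ∀ A B : ℕ, B ≤ X → θ * X ≤ (B : ℝ) - A →
        ∀ S : Finset ℕ, S ⊆ GE a b c X A B → δ * ((B : ℝ) - A) * WE a b c X ≤ S.card →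
        ∃ p d : ℕ, 1 ≤ d ∧ (d : ℝ) ≤ Real.log X ^ C ∧ ∀ l < k, p + l * d ∈ S := by
  classical
  obtain ⟨t, ht, κ, hκ, HL⟩ := linU 2 E (by norm_num)
  have hE0 : (0 : ℝ) < 2 * E + 1 := by positivity
  refine ⟨κ / (2 * E + 1), by positivity, fun θ hθ K => ?_⟩
  obtain ⟨⟨X₁, h1⟩, _⟩ := HL (θ / (2 * E + 1)) (by positivity) (K + E * E + E)
  obtain ⟨N₁, hN₁⟩ := exists_nat_gt ((6 * E + 2 * E * E) / θ)
  have hκle : κ / (2 * E + 1) ≤ κ := by
    rw [div_le_iff₀ hE0]
    have : (0 : ℝ) ≤ 2 * E := by positivity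
    nlinarith
  have hVX : ∀ X : ℕ, max X₁ (max N₁ 3) ≤ X → ∀ (a b : ℕ) (c : ℤ), CE E K X a b c →
      κ / (2 * E + 1) / Real.log X ^ 2 ≤ WE a b c X := by
    intro X hX a b c H
    have hX1 : X₁ ≤ X := (le_max_left _ _).trans hX
    have hX3 : 3 ≤ X := (le_max_right _ _).trans ((le_max_right _ _).trans hX)
    have hlog : 0 < Real.log X := Real.log_pos (by exact_mod_cast (by omega : 1 < X))
    obtain ⟨r, hr, s, hs⟩ := H.rs
    have h2 := (h1 X hX1 _ _ 0 1 (H.sys (by omega) hr hs)).1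
    rw [VL_E H.ab H.ac H.bc hs] at h2
    exact (div_le_div_of_nonneg_right hκle (by positivity)).trans h2
  constructor
  · refine ⟨max X₁ (max N₁ 3), fun X hX a b c H => ⟨hVX X hX a b c H, fun A B hB hAB => ?_⟩⟩
    have hX1 : X₁ ≤ X := (le_max_left _ _).trans hX
    have hXN : N₁ ≤ X := (le_max_left _ _).trans ((le_max_right _ _).trans hX)
    have hX3 : 3 ≤ X := (le_max_right _ _).trans ((le_max_right _ _).trans hX)
    have hX0 : (0 : ℝ) < X := by exact_mod_cast (by omega : 0 < X)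
    have hlog : 0 < Real.log X := Real.log_pos (by exact_mod_cast (by omega : 1 < X))
    obtain ⟨r, hr, s, hs⟩ := H.rs
    have S := H.sys (by omega) hr hs
    have hb1 := H.b1
    have hbE := H.bE
    have hE1 : 1 ≤ E := hb1.trans hbE
    have hsize : 6 * (E : ℝ) + 2 * E * E ≤ θ * X := by
      have h2 : (6 * E + 2 * E * E) / θ ≤ X := by
        have : (N₁ : ℝ) ≤ X := by exact_mod_cast hXN
        linarith
      have h3 := (div_le_iff₀ hθ).1 h2
      linarith
    have hbr : (b : ℝ) ≤ E := by exact_mod_cast hbE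
    have hb1r : (1 : ℝ) ≤ b := by exact_mod_cast hb1
    have hrr : (r : ℝ) ≤ b := by exact_mod_cast hr.le
    have hEr : (0 : ℝ) ≤ (E : ℝ) * E := by positivity
    obtain ⟨A', hA'⟩ : ∃ A' : ℕ, A' = (A - r) / b := ⟨_, rfl⟩
    obtain ⟨B', hB'⟩ : ∃ B' : ℕ, B' = (B - r) / b := ⟨_, rfl⟩
    have hBr : A + 6 * b ≤ B := by
      have h2 : (A : ℝ) + 6 * b ≤ B := by linarith
      exact_mod_cast h2
    have hB'X : B' ≤ X := by
      rw [hB']
      exact (Nat.div_le_self _ _).trans ((Nat.sub_le _ _).trans hB)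
    have hB'lt : B - r < b * (B' + 1) := by
      rw [hB']
      exact Nat.lt_mul_div_succ _ hb1
    have hA'lt : A - r < b * (A' + 1) := by
      rw [hA']
      exact Nat.lt_mul_div_succ _ hb1
    have hlen : ((B : ℝ) - A) / (2 * E + 1) ≤ (B' : ℝ) - A' := by
      have h2 : (b : ℝ) * A' ≤ A := by
        have h3 : b * A' ≤ A := by
          rw [hA']
          exact (Nat.mul_div_le _ _).trans (Nat.sub_le _ _)
        exact_mod_cast h3
      have h3 : (B : ℝ) < b * (B' + 1) + r := by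
        have h4 : B < b * (B' + 1) + r := by omega
        exact_mod_cast h4
      have h4 : (B : ℝ) - A ≤ 2 * b * ((B' : ℝ) - A') := by
        have h6 : (A : ℝ) + 6 * b ≤ B := by exact_mod_cast hBr
        nlinarith
      have h5 : 0 ≤ (B' : ℝ) - A' := by
        by_contra hcon
        push Not at hcon
        have h6 : (A : ℝ) + 6 * b ≤ B := by exact_mod_cast hBr
        nlinarith
      rw [div_le_iff₀ (by positivity)]
      nlinarith
    have hθ' : θ / (2 * E + 1) * X ≤ (B' : ℝ) - A' := by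
      refine le_trans ?_ hlen
      rw [div_mul_eq_mul_div]
      exact div_le_div_of_nonneg_right hAB (by positivity)
    have h3 := (h1 X hX1 _ _ 0 1 S).2 A' B' hB'X hθ'
    rw [VL_E H.ab H.ac H.bc hs] at h3
    have hcard : (GoodL ![(b : ℤ), (a : ℤ)] ![(r : ℤ), s] 0 1 t X A' B').card ≤ (GE a b c X A B).card := by
      apply card_le_card_of_injOn (fun y => b * y + r)
      · intro y hy
        rw [mem_coe] at hy ⊢
        unfold GoodL at hy
        rw [mem_filter, mem_Ioc] at hy
        obtain ⟨⟨y1, y2⟩, y3, y4, _⟩ := hy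
        replace y3 : ((b : ℤ) * (y : ℤ) + r).natAbs.Prime := y3
        replace y4 : Almost 2 ((X : ℝ) ^ (1 / 9 : ℝ)) ((a : ℤ) * y + s) := y4
        unfold GE
        rw [mem_filter, mem_Ioc]
        refine ⟨⟨?_, ?_⟩, ?_, (a : ℤ) * y + s, ?_, y4⟩
        · have h5 : b * (A' + 1) ≤ b * y := Nat.mul_le_mul_left _ y1
          show A < b * y + r
          omega
        · have h4 : b * y ≤ b * B' := Nat.mul_le_mul_left _ y2
          have h5 : b * B' ≤ B - r := by
            rw [hB']
            exact Nat.mul_div_le _ _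
          show b * y + r ≤ B
          omega
        · have h5 : ((b : ℤ) * (y : ℤ) + r).natAbs = b * y + r := by
            have : ((b : ℤ) * (y : ℤ) + r) = ((b * y + r : ℕ) : ℤ) := by push_cast; ring
            rw [this, Int.natAbs_natCast]
          rwa [h5] at y3
        · push_cast
          linear_combination hs
      · intro y _ y' _ he
        simp only at he
        have h4 : b * y = b * y' := by omega
        exact Nat.eq_of_mul_eq_mul_left hb1 h4
    have hcard' : ((GoodL ![(b : ℤ), (a : ℤ)] ![(r : ℤ), s] 0 1 t X A' B').card : ℝ) ≤ (GE a b c X A B).card := by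
      exact_mod_cast hcard
    have hV0 : 0 ≤ WE a b c X := le_trans (by positivity) (hVX X hX a b c H)
    calc κ / (2 * E + 1) * ((B : ℝ) - A) * WE a b c X = κ * (((B : ℝ) - A) / (2 * E + 1)) * WE a b c X := by ring
      _ ≤ κ * ((B' : ℝ) - A') * WE a b c X :=
          mul_le_mul_of_nonneg_right (mul_le_mul_of_nonneg_left hlen hκ.le) hV0
      _ ≤ _ := h3.trans hcard'
  · intro k δ hδ
    obtain ⟨C, X₂, h3⟩ := prog_dense 2 9 (by norm_num) k 1 (δ * θ / 2) (κ / (2 * E + 1)) one_pos (by positivity)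
      (by positivity)
    obtain ⟨X₃, h4⟩ := eventually_atTop.1 (pow_small 2 1 (δ * θ / 2 * (κ / (2 * E + 1))) one_pos (by positivity))
    obtain ⟨X₄, h5⟩ := exists_nat_gt (Real.exp E)
    refine ⟨C + 1, max (max X₁ (max N₁ 3)) (max X₂ (max X₃ X₄)), fun X hX a b c H A B hB hAB S hS hSc => ?_⟩
    have hX1 := (le_max_left _ _).trans hX
    have hX2 : X₂ ≤ X := (le_max_left _ _).trans ((le_max_right _ _).trans hX)
    have hX3' : X₃ ≤ X := (le_max_left _ _).trans ((le_max_right _ _).trans ((le_max_right _ _).trans hX))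
    have hX4 : X₄ ≤ X := (le_max_right _ _).trans ((le_max_right _ _).trans ((le_max_right _ _).trans hX))
    have hX3 : 3 ≤ X := (le_max_right _ _).trans ((le_max_right _ _).trans hX1)
    have hX0 : (0 : ℝ) < X := by exact_mod_cast (by omega : 0 < X)
    have hlog : 0 < Real.log X := Real.log_pos (by exact_mod_cast (by omega : 1 < X))
    have hEX : (E : ℝ) ≤ Real.log X := by
      rw [Real.le_log_iff_exp_le hX0]
      have : (X₄ : ℝ) ≤ X := by exact_mod_cast hX4
      linarith
    obtain ⟨r, hr, s, hs⟩ := H.rs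
    have hb1 := H.b1
    have hb0 : (0 : ℤ) < b := by exact_mod_cast hb1
    have SL := H.sys (by omega) hr hs
    -- the arguments
    have hmod : ∀ p ∈ S, p = b * (p / b) + r ∧ Almost 2 ((X : ℝ) ^ (1 / 9 : ℝ)) ((a : ℤ) * ((p / b : ℕ) : ℤ) + s) := by
      intro p hp
      have h6 := hS hp
      unfold GE at h6
      rw [mem_filter] at h6
      obtain ⟨_, _, q, hq1, hq2⟩ := h6
      have h7 : (b : ℤ) ∣ a * ((p : ℤ) - r) := by
        refine ⟨q - s, ?_⟩
        linear_combination hq1 - hs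
      have h8 : (b : ℤ) ∣ (p : ℤ) - r := H.ab.symm.dvd_of_dvd_mul_left h7
      have h9 : r ≡ p [MOD b] := Int.natCast_modEq_iff.1 (Int.modEq_iff_dvd.2 h8)
      have h10 : p % b = r := by
        have h11 : p % b = r % b := h9.symm
        rw [h11, Nat.mod_eq_of_lt hr]
      have h11 : b * (p / b) + p % b = p := Nat.div_add_mod p b
      have h12 : p = b * (p / b) + r := by rw [← h10]; exact h11.symm
      refine ⟨h12, ?_⟩
      have h13 : (a : ℤ) * ((p / b : ℕ) : ℤ) + s = q := by
        apply mul_left_cancel₀ hb0.ne'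
        have h14 : (p : ℤ) = b * ((p / b : ℕ) : ℤ) + r := by exact_mod_cast h12
        rw [h14] at hq1
        linear_combination hq1 - hs
      rw [h13]
      exact hq2
    obtain ⟨S', hS'⟩ : ∃ S' : Finset ℕ, S' = (Ioc 0 X).filter (fun y : ℕ => b * y + r ∈ S) := ⟨_, rfl⟩
    have hSX : ∀ p ∈ S, p ≤ X := by
      intro p hp
      have h6 := hS hp
      unfold GE at h6
      rw [mem_filter, mem_Ioc] at h6
      omega
    have hcard : S.card ≤ S'.card + 1 := by
      have h6 : S ⊆ S'.image (fun y => b * y + r) ∪ {r} := by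
        intro p hp
        rw [mem_union, mem_image, mem_singleton]
        obtain ⟨h7, _⟩ := hmod p hp
        rcases Nat.eq_zero_or_pos (p / b) with h8 | h8
        · right
          rw [h8] at h7
          omega
        · left
          refine ⟨p / b, ?_, h7.symm⟩
          rw [hS', mem_filter, mem_Ioc]
          refine ⟨⟨h8, (Nat.div_le_self _ _).trans (hSX p hp)⟩, ?_⟩
          rw [← h7]
          exact hp
      have h7 := (card_le_card h6).trans (card_union_le _ _)
      rw [card_singleton] at h7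
      exact h7.trans (Nat.add_le_add_right card_image_le 1)
    have hcard' : (S.card : ℝ) ≤ S'.card + 1 := by exact_mod_cast hcard
    have hW := hVX X hX1 a b c H
    have hW0 : 0 ≤ WE a b c X := le_trans (by positivity) hW
    have hone : 1 ≤ δ * θ / 2 * X * WE a b c X := by
      have h6 := h4 X hX3'
      rw [sub_self, Real.rpow_zero] at h6
      refine h6.trans ?_
      calc δ * θ / 2 * (κ / (2 * E + 1)) * (X / Real.log X ^ 2) =
            δ * θ / 2 * X * (κ / (2 * E + 1) / Real.log X ^ 2) := by ring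
        _ ≤ _ := by gcongr
    have hden : δ * θ / 2 * ((X : ℝ) - (0 : ℕ)) * WE a b c X ≤ S'.card := by
      rw [Nat.cast_zero, sub_zero]
      have h6 : δ * (θ * X) * WE a b c X ≤ δ * ((B : ℝ) - A) * WE a b c X := by gcongr
      have h7 : δ * (θ * X) * WE a b c X = 2 * (δ * θ / 2 * X * WE a b c X) := by ring
      linarith
    obtain ⟨x, h, e1, e2, e3⟩ := h3 X hX2 2 (lf ![(b : ℤ), (a : ℤ)] ![(r : ℤ), s]) (by
        simp only [lf_deg _ _ _ (SL.a0 _)]
        simp) (loc_lf SL.adm) (by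
        rw [V_lf, VL_E H.ab H.ac H.bc hs]
        exact hW) 0 X le_rfl (by rw [Nat.cast_zero, sub_zero, one_mul]) S' (by
        rw [hS']
        exact filter_subset _ _) (by
        intro y hy hyX l q hq hd
        rw [hS', mem_filter] at hy
        obtain ⟨h6, h7⟩ := hmod _ hy.2
        have h8 : (b * y + r) / b = y := by
          rw [Nat.mul_add_div hb1, Nat.div_eq_of_lt hr, add_zero]
        rw [h8] at h7
        rw [lf_eval] at hd
        fin_cases l
        · replace hd : (q : ℤ) ∣ (b : ℤ) * y + r := hd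
          have h9 := hS hy.2
          unfold GE at h9
          rw [mem_filter] at h9
          have h10 : q ∣ b * y + r := by exact_mod_cast hd
          have h11 := (Nat.prime_dvd_prime_iff_eq hq h9.2.1).1 h10
          have h12 : y ≤ q := by
            rw [h11]
            have := Nat.le_mul_of_pos_left y hb1
            omega
          have h13 : (y : ℝ) ≤ q := by exact_mod_cast h12
          exact lt_of_lt_of_le hyX h13
        · replace hd : (q : ℤ) ∣ (a : ℤ) * y + s := hd
          have h9 := h7.2.2 q hq hd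
          have h10 : ((9 : ℕ) : ℝ) = 9 := by norm_num
          rw [h10]
          exact h9) (by
        rw [V_lf, VL_E H.ab H.ac H.bc hs]
        exact hden)
    refine ⟨b * x + r, b * h, Nat.one_le_iff_ne_zero.2 (Nat.mul_ne_zero (by omega) (by omega)), ?_, ?_⟩
    · push_cast
      rw [pow_succ, mul_comm]
      have h6 : (b : ℝ) ≤ Real.log X := by
        have : (b : ℝ) ≤ E := by exact_mod_cast H.bE
        linarith
      exact mul_le_mul e2 h6 (by positivity) (by positivity)
    · intro l hl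
      have h6 := e3 l hl
      rw [hS', mem_filter] at h6
      have h7 : b * x + r + l * (b * h) = b * (x + l * h) + r := by ring
      rw [h7]
      exact h6.2

end Pool.Agent.X32.Uni
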