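import Pool.Agent.X32.Uni.Short3

/-!
Exact sets of pairs `(h, a)` for which `(n + h) ^ 2 + (n + h) + a` is almost prime.
-/

set_option autoImplicit false

namespace Pool.Agent.X32.Uni

open Finset
open Polynomial (C X aeval)
open scoped Polynomial

variable {k : ℕ}

/-- the polynomial `(x + h) ^ 2 + (x + h) + a` -/
noncomputable def pE (z : ℤ × ℤ) : ℤ[X] := (X + C z.1) ^ 2 + (X + C z.1) + C z.2

/-- the value -/
def vE (z : ℤ × ℤ) (x : ℤ) : ℤ := (x + z.1) ^ 2 + (x + z.1) + z.2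

theorem pE_eval (z : ℤ × ℤ) (x : ℤ) : (pE z).eval x = vE z x := by
  unfold pE vE
  simp

theorem pE_aeval (z : ℤ × ℤ) (α : ℂ) : aeval α (pE z) = (α + z.1) ^ 2 + (α + z.1) + z.2 := by
  unfold pE
  simp

theorem pE_deg (z : ℤ × ℤ) : (pE z).natDegree = 2 := by
  have h1 : pE z = C 1 * X ^ 2 + C (2 * z.1 + 1) * X + C (z.1 ^ 2 + z.1 + z.2) := by
    unfold pE
    simp only [C.map_add, C.map_mul, C.map_pow, Polynomial.C_1]
    have : (C 2 : ℤ[X]) = 2 := rfl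
    rw [this]
    ring
  rw [h1]
  exact Polynomial.natDegree_quadratic (by norm_num)

theorem no_square (a u d : ℤ) (ha : a % 2 = 1) (hd : d ≠ 0) (h : u ^ 2 = (1 - 4 * a) * d ^ 2) : False := by
  have h1 : d ^ 2 ∣ u ^ 2 := Dvd.intro_left _ h.symm
  have h2 : d ∣ u := (Int.pow_dvd_pow_iff (by norm_num)).1 h1
  obtain ⟨w, rfl⟩ := h2
  have h3 : w ^ 2 = 1 - 4 * a := by
    have h4 : d ^ 2 ≠ 0 := pow_ne_zero 2 hd
    apply mul_left_cancel₀ h4
    linear_combination h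
  obtain ⟨e, he⟩ : ∃ e, a = 2 * e + 1 := ⟨a / 2, by omega⟩
  rw [he] at h3
  rcases Int.even_or_odd' w with ⟨v, hv | hv⟩
  · rw [hv] at h3
    have h4 : 4 * v ^ 2 = 1 - 4 * (2 * e + 1) := by linear_combination h3
    omega
  · rw [hv] at h3
    have h4 : v ^ 2 + v = -(2 * e + 1) := by
      have h5 : 4 * (v ^ 2 + v) = 4 * (-(2 * e + 1)) := by linear_combination h3
      exact mul_left_cancel₀ (by norm_num) h5
    have h5 : (v ^ 2 + v) % 2 = 0 := by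
      have h6 : v ^ 2 + v = v * (v + 1) := by ring
      rw [h6]
      exact Int.even_iff.1 (Int.even_mul_succ_self v)
    omega

/-- no common zeros -/
theorem pE_common (z s : ℤ × ℤ) (hs : s.2 % 2 = 1) (hne : z ≠ s) (α : ℂ) (h1 : aeval α (pE z) = 0)
    (h2 : aeval α (pE s) = 0) : False := by
  rw [pE_aeval] at h1 h2
  have h3 : 2 * ((z.1 : ℂ) - s.1) * α = s.1 ^ 2 + s.1 + s.2 - (z.1 ^ 2 + z.1 + z.2) := by linear_combination h1 - h2
  by_cases hz : z.1 = s.1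
  · apply hne
    have h4 : ((s.2 : ℤ) : ℂ) = z.2 := by
      rw [hz] at h3
      linear_combination -h3
    exact Prod.ext hz (by exact_mod_cast h4.symm)
  · obtain ⟨c, hc⟩ : ∃ c : ℤ, c = s.1 ^ 2 + s.1 + s.2 - (z.1 ^ 2 + z.1 + z.2) := ⟨_, rfl⟩
    obtain ⟨d, hd⟩ : ∃ d : ℤ, d = z.1 - s.1 := ⟨_, rfl⟩
    have hd0 : d ≠ 0 := by
      rw [hd]
      exact sub_ne_zero.2 hz
    have h4 : 2 * (d : ℂ) * α = c := by
      rw [hd, hc]
      push_cast
      exact h3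
    apply no_square s.2 (c + (2 * s.1 + 1) * d) d hs hd0
    have h5 : ((c : ℂ) + (2 * s.1 + 1) * d) ^ 2 = (1 - 4 * s.2) * d ^ 2 := by
      rw [← h4]
      linear_combination (4 * (d : ℂ) ^ 2) * h2
    exact_mod_cast h5

/-- `ω(p)` -/
def omE (S : Fin k → ℤ × ℤ) (p : ℕ) : ℕ := ((range p).filter (fun x : ℕ => (p : ℤ) ∣ ∏ l, vE (S l) x)).card

/-- the product of `1 - ω(p) / p` over the primes `p ≤ X` -/
noncomputable def VE (S : Fin k → ℤ × ℤ) (X : ℕ) : ℝ :=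
  ∏ p ∈ (Icc 1 X).filter Nat.Prime, (1 - (omE S p : ℝ) / p)

open Classical in
/-- the good `n` -/
noncomputable def GEu (S : Fin k → ℤ × ℤ) (H L C t X A B : ℕ) : Finset ℕ :=
  (Ioc A B).filter (fun n : ℕ =>
    (∀ l, Almost (2 * t) ((X : ℝ) ^ (1 / (t : ℝ))) (vE (S l) n)) ∧
    ∀ h a : ℤ, |h| ≤ H → |a| ≤ L → (∀ l, S l ≠ (h, a)) → ∃ q : ℕ, q.Prime ∧ q ≤ C ∧ (q : ℤ) ∣ vE (h, a) n)

theorem eulS (hk : 0 < k) (S : Fin k → ℤ × ℤ) (hS : ∀ p : ℕ, p.Prime → ∃ x : ℤ, ∀ l, ¬ (p : ℤ) ∣ vE (S l) x)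
    (H L : ℕ) (ε : ℝ) (hε : 0 < ε) :
    ∃ C t : ℕ, 1 ≤ t ∧ ∃ κ K : ℝ, 0 < κ ∧ 0 < K ∧ ∀ (s r : ℕ) (δ : ℝ), 1 ≤ s → 0 < δ → ∃ c X₀ : ℕ, ∀ X : ℕ, X₀ ≤ X →
      κ / Real.log X ^ (2 * k) ≤ VE S X ∧ ∀ A B : ℕ, B ≤ X → (X : ℝ) ^ ε ≤ (B : ℝ) - A →
        κ * ((B : ℝ) - A) * VE S X ≤ ((GEu S H L C t X A B).card : ℝ) ∧
        ((GEu S H L C t X A B).card : ℝ) ≤ K * ((B : ℝ) - A) * VE S X ∧
        ∀ χ : ℕ → Fin r, ∃ P : Finset (ℕ × ℕ),
          (∀ z ∈ P, 1 ≤ z.2 ∧ (z.2 : ℝ) ≤ Real.log X ^ c ∧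
            ∀ l < s, z.1 + l * z.2 ∈ GEu S H L C t X A B ∧ χ (z.1 + l * z.2) = χ z.1) ∧
          (P : Set (ℕ × ℕ)).PairwiseDisjoint (apSet s) ∧
          (((GEu S H L C t X A B \ P.biUnion (apSet s)).card : ℕ) : ℝ) ≤ δ * ((B : ℝ) - A) * VE S X := by
  classical
  have hodd : ∀ l, (S l).2 % 2 = 1 := by
    obtain ⟨x, hx⟩ := hS 2 Nat.prime_two
    intro l
    have h1 := hx l
    unfold vE at h1
    have h2 : (x + (S l).1) ^ 2 + (x + (S l).1) + (S l).2 =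
      (x + (S l).1) * (x + (S l).1 + 1) + (S l).2 := by ring
    rw [h2] at h1
    have h3 := Int.even_iff.1 (Int.even_mul_succ_self (x + (S l).1))
    push_cast at h1
    omega
  obtain ⟨T, hT⟩ : ∃ T : Finset (ℤ × ℤ), T = ((Icc (-(H : ℤ)) H) ×ˢ (Icc (-(L : ℤ)) L)).filter
      (fun z => ∀ l, S l ≠ z) := ⟨_, rfl⟩
  have hTm : ∀ z, z ∈ T ↔ (|z.1| ≤ H ∧ |z.2| ≤ L) ∧ ∀ l, S l ≠ z := by
    intro z
    rw [hT, mem_filter, mem_product, mem_Icc, mem_Icc, abs_le, abs_le]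
  obtain ⟨f, hf⟩ : ∃ f : Fin k → ℤ[X], f = fun l => pE (S l) := ⟨_, rfl⟩
  have hfl : ∀ l, f l = pE (S l) := fun l => by rw [hf]
  have hloc : Loc f := by
    intro p hp
    obtain ⟨x, hx⟩ := hS p hp
    refine ⟨x, fun hd => ?_⟩
    obtain ⟨l, _, hl⟩ := (Nat.prime_iff_prime_int.1 hp).exists_mem_finset_dvd hd
    rw [hfl, pE_eval] at hl
    exact hx l hl
  have ho : ∀ p, om f p = omE S p := by
    intro p
    unfold om omE
    simp only [hfl, pE_eval]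
  have hV : ∀ n, V f n = VE S n := fun n => by
    unfold V VE
    exact prod_congr rfl fun p _ => by rw [ho]
  have hG : ∀ C t X A B, GS f (T.image pE) C t X A B = GEu S H L C t X A B := by
    intro C t X A B
    ext n
    unfold GS GEu
    simp only [mem_filter, hfl, pE_eval, pE_deg, mul_comm t 2]
    refine and_congr_right fun _ => and_congr_right fun _ => ?_
    constructor
    · intro h u a hu ha hl
      obtain ⟨q, h1, h2, h3⟩ := h (pE (u, a)) (mem_image_of_mem _ ((hTm (u, a)).2 ⟨⟨hu, ha⟩, hl⟩))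
      rw [pE_eval] at h3
      exact ⟨q, h1, h2, h3⟩
    · intro h g hg
      rw [mem_image] at hg
      obtain ⟨z, hz, rfl⟩ := hg
      rw [pE_eval]
      have := (hTm z).1 hz
      exact h z.1 z.2 this.1.1 this.1.2 this.2
  obtain ⟨C, t, ht, κ, K, hκ, hK, HH⟩ := killS f hk (fun l => by rw [hfl, pE_deg]; norm_num) hloc (T.image pE) (by
    intro g hg
    rw [mem_image] at hg
    obtain ⟨z, hz, rfl⟩ := hg
    rw [hTm] at hz
    have hg0 : pE z ≠ 0 := by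
      intro h
      have := pE_deg z
      rw [h, Polynomial.natDegree_zero] at this
      omega
    refine ⟨hg0, ?_⟩
    have hinj : Function.Injective (algebraMap ℤ ℂ) := RingHom.injective_int _
    obtain ⟨α, hα⟩ := IsAlgClosed.exists_aeval_eq_zero_of_injective ℂ hinj (pE z) (by
      intro h
      have h1 := pE_deg z
      have h2 := Polynomial.natDegree_eq_zero_iff_degree_le_zero.2 h.le
      omega)
    refine ⟨α, hα, fun l h => ?_⟩
    rw [hfl] at h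
    exact pE_common z (S l) (hodd l) (hz.2 l).symm α hα h) ε hε
  refine ⟨C, t, ht, κ, K, hκ, hK, fun s r δ hs hδ => ?_⟩
  obtain ⟨c, X₀, hX⟩ := HH s r δ hs hδ
  refine ⟨c, X₀, fun X hXX => ?_⟩
  have := hX X hXX
  have hsum : ∑ l, (f l).natDegree = 2 * k := by
    simp only [hfl, pE_deg]
    simp [mul_comm]
  simp only [hV, hG, hsum] at this
  exact this

end Pool.Agent.X32.Uni
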