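import Pool.Agent.X32.Uni.Box

/-!
Chen's theorem for a fixed system of linear forms, with bounded prime factors in finitely many other forms.
-/

set_option autoImplicit false

namespace Pool.Agent.X32.Uni

open Finset Filter

variable {k : ℕ}

open Classical in
/-- the good `n` -/
noncomputable def GE' (a b : Fin k → ℤ) (T : Finset (ℤ × ℤ)) (i j : Fin k) (C t X A B : ℕ) : Finset ℕ :=
  (Ioc A B).filter (fun n : ℕ => (a i * (n : ℤ) + b i).natAbs.Prime ∧
    Almost 2 ((X : ℝ) ^ (1 / 9 : ℝ)) (a j * (n : ℤ) + b j) ∧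
    (∀ l, Almost t ((X : ℝ) ^ (1 / (t : ℝ))) (a l * (n : ℤ) + b l)) ∧
    ∀ τ ∈ T, ∃ q : ℕ, q.Prime ∧ q ≤ C ∧ (q : ℤ) ∣ τ.1 * n + τ.2)

theorem exactU (a b : Fin k → ℤ) (hadm : AdmL a b) (ha : ∀ l, a l ≠ 0)
    (hdet : ∀ l m, l ≠ m → a l * b m - a m * b l ≠ 0) (i j : Fin k) (hij : i ≠ j) (T : Finset (ℤ × ℤ))
    (hT : ∀ τ ∈ T, τ.1 ≠ 0) (hTne : ∀ τ ∈ T, ∀ l, τ.1 * b l - a l * τ.2 ≠ 0) :
    ∃ C t : ℕ, 1 ≤ t ∧ ∃ κ : ℝ, 0 < κ ∧ ∀ (s : ℕ) (θ δ : ℝ), 0 < θ → 0 < δ → ∃ c X₀ : ℕ, ∀ X : ℕ, X₀ ≤ X →
      ∀ A B : ℕ, B ≤ X → θ * X ≤ (B : ℝ) - A →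
        κ * ((B : ℝ) - A) / Real.log X ^ k ≤ ((GE' a b T i j C t X A B).card : ℝ) ∧
        ∀ S : Finset ℕ, S ⊆ GE' a b T i j C t X A B → δ * ((B : ℝ) - A) / Real.log X ^ k ≤ S.card →
          ∃ n d : ℕ, 1 ≤ d ∧ (d : ℝ) ≤ Real.log X ^ c ∧ ∀ l < s, n + l * d ∈ S := by
  classical
  obtain ⟨W, r, hW1, hW2, hW3⟩ := iso_lin T a b hT hTne
  have hk : 1 ≤ k := by
    have := i.isLt
    omega
  obtain ⟨t, ht, κ, hκ, HL⟩ := linU k (W * ((a i).natAbs + (a j).natAbs)) hk
  have hW0 : (0 : ℝ) < W := by exact_mod_cast hW1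
  obtain ⟨d0, hd0⟩ : ∃ d0, k = d0 + 1 := ⟨k - 1, by omega⟩
  obtain ⟨cV, hcV, hV⟩ := V_low d0
  have hdeg : ∀ l, (lf a b l).natDegree = 1 := fun l => lf_deg _ _ l (ha l)
  have hVlow : ∀ X : ℕ, 2 ≤ X → cV / Real.log X ^ k ≤ VL a b X := by
    intro X hX
    have h1 := hV k (lf a b) X hX (loc_lf hadm) (by
      simp only [hdeg]
      simp [← hd0])
    rw [V_lf, ← hd0] at h1
    exact h1
  obtain ⟨CV, hCV, hup⟩ := VL_up' a b hadm ha hdet
  obtain ⟨X₃, h3⟩ := eventually_atTop.1 hup
  refine ⟨W, t, ht, κ / (2 * W) * cV, by positivity, fun s θ δ hθ hδ => ?_⟩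
  obtain ⟨K, hK⟩ : ∃ K : ℕ, K = W * (∑ l, (a l).natAbs) + ∑ l, (a l * r + b l).natAbs := ⟨_, rfl⟩
  have hle1 : ∀ l, (a l).natAbs ≤ ∑ l, (a l).natAbs := fun l =>
    single_le_sum (f := fun l => (a l).natAbs) (fun _ _ => Nat.zero_le _) (mem_univ l)
  have hle2 : ∀ l, (a l * r + b l).natAbs ≤ ∑ l, (a l * r + b l).natAbs := fun l =>
    single_le_sum (f := fun l => (a l * r + b l).natAbs) (fun _ _ => Nat.zero_le _) (mem_univ l)
  obtain ⟨⟨X₁, h1⟩, _⟩ := HL (θ / (2 * W)) (by positivity) K
  obtain ⟨N₁, hN₁⟩ := exists_nat_gt ((4 * W + 2 * r) / θ)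
  obtain ⟨c, X₂, h2⟩ := prog_dense k (max t 2) (le_max_right _ _) s θ (δ / CV) cV hθ (by positivity) hcV
  refine ⟨c, max (max X₁ (max N₁ 3)) (max X₂ X₃), fun X hX A B hB hAB => ?_⟩
  have hX1 : X₁ ≤ X := (le_max_left _ _).trans ((le_max_left _ _).trans hX)
  have hXN : N₁ ≤ X := (le_max_left _ _).trans ((le_max_right _ _).trans ((le_max_left _ _).trans hX))
  have hX3 : 3 ≤ X := (le_max_right _ _).trans ((le_max_right _ _).trans ((le_max_left _ _).trans hX))
  have hX2 : X₂ ≤ X := (le_max_left _ _).trans ((le_max_right _ _).trans hX)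
  have hX3' : X₃ ≤ X := (le_max_right _ _).trans ((le_max_right _ _).trans hX)
  have hX0 : (0 : ℝ) < X := by exact_mod_cast (by omega : 0 < X)
  have hlog : 0 < Real.log X := Real.log_pos (by exact_mod_cast (by omega : 1 < X))
  have hBA0 : 0 ≤ (B : ℝ) - A := le_trans (by positivity) hAB
  constructor
  · have S : SysL k (W * ((a i).natAbs + (a j).natAbs)) K X (fun l => a l * W) (fun l => a l * r + b l) i j :=
      { a0 := fun l => mul_ne_zero (ha l) (by
          have : (0 : ℤ) < W := by exact_mod_cast hW1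
          exact this.ne')
        aE := by
          rw [Int.natAbs_mul, Int.natAbs_natCast, mul_comm]
          exact Nat.mul_le_mul_left _ (by omega)
        aE' := by
          rw [Int.natAbs_mul, Int.natAbs_natCast, mul_comm]
          exact Nat.mul_le_mul_left _ (by omega)
        aK := fun l => by
          rw [Int.abs_eq_natAbs, Int.natAbs_mul, Int.natAbs_natCast, mul_comm]
          have h4 := Nat.mul_le_mul_left W (hle1 l)
          exact_mod_cast (by omega : W * (a l).natAbs ≤ K)
        bK := fun l => by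
          rw [Int.abs_eq_natAbs]
          have h4 := hle2 l
          have h5 : (a l * r + b l).natAbs ≤ K * X := by
            calc (a l * r + b l).natAbs ≤ K := by omega
              _ ≤ K * X := Nat.le_mul_of_pos_right _ (by omega)
          exact_mod_cast h5
        adm := adm_sub hadm hW2
        ne := fun h => by
          have e1 := (Prod.ext_iff.1 h).1
          have e2 := (Prod.ext_iff.1 h).2
          simp only at e1 e2
          have hWz : (W : ℤ) ≠ 0 := by
            have : (0 : ℤ) < W := by exact_mod_cast hW1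
            exact this.ne'
          have e3 : a j = a i := mul_right_cancel₀ hWz e1
          apply hdet i j hij
          rw [e3] at e2 ⊢
          have e4 : b j = b i := by linarith
          rw [e4]
          ring
        ne' := fun h => by
          have e1 := (Prod.ext_iff.1 h).1
          have e2 := (Prod.ext_iff.1 h).2
          simp only at e1 e2
          have hWz : (W : ℤ) ≠ 0 := by
            have : (0 : ℤ) < W := by exact_mod_cast hW1
            exact this.ne'
          have e3 : a j = - a i := mul_right_cancel₀ hWz (by linarith)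
          apply hdet i j hij
          rw [e3] at e2 ⊢
          have e4 : b j = - b i := by linarith
          rw [e4]
          ring }
    have hsize : 4 * (W : ℝ) + 2 * r ≤ θ * X := by
      have h2 : (4 * W + 2 * r) / θ ≤ X := by
        have : (N₁ : ℝ) ≤ X := by exact_mod_cast hXN
        linarith
      have h3 := (div_le_iff₀ hθ).1 h2
      linarith
    obtain ⟨A', hA'⟩ : ∃ A' : ℕ, A' = (A - r) / W := ⟨_, rfl⟩
    obtain ⟨B', hB'⟩ : ∃ B' : ℕ, B' = (B - r) / W := ⟨_, rfl⟩
    have hBr : A + 2 * r ≤ B := by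
      have h2 : (A : ℝ) + 2 * r ≤ B := by
        have : (0 : ℝ) ≤ 4 * W := by positivity
        linarith
      exact_mod_cast h2
    have hB'X : B' ≤ X := by
      rw [hB']
      exact (Nat.div_le_self _ _).trans ((Nat.sub_le _ _).trans hB)
    have hB'lt : B - r < W * (B' + 1) := by
      rw [hB']
      exact Nat.lt_mul_div_succ _ hW1
    have hA'lt : A - r < W * (A' + 1) := by
      rw [hA']
      exact Nat.lt_mul_div_succ _ hW1
    have hlen : ((B : ℝ) - A) / (2 * W) ≤ (B' : ℝ) - A' := by
      have h2 : (W : ℝ) * A' ≤ A := by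
        have h3 : W * A' ≤ A := by
          rw [hA']
          exact (Nat.mul_div_le _ _).trans (Nat.sub_le _ _)
        exact_mod_cast h3
      have h3 : (B : ℝ) < W * (B' + 1) + r := by
        have h4 : B < W * (B' + 1) + r := by omega
        exact_mod_cast h4
      rw [div_le_iff₀ (by positivity)]
      nlinarith
    have hθ' : θ / (2 * W) * X ≤ (B' : ℝ) - A' := by
      refine le_trans ?_ hlen
      rw [div_mul_eq_mul_div]
      exact div_le_div_of_nonneg_right hAB (by positivity)
    have h4 := (h1 X hX1 _ _ i j S).2 A' B' hB'X hθ'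
    have hcard : (GoodL (fun l => a l * W) (fun l => a l * r + b l) i j t X A' B').card ≤
        (GE' a b T i j W t X A B).card := by
      apply card_le_card_of_injOn (fun y => W * y + r)
      · intro y hy
        rw [mem_coe] at hy ⊢
        unfold GoodL at hy
        rw [mem_filter, mem_Ioc] at hy
        obtain ⟨⟨y1, y2⟩, y3, y4, y5⟩ := hy
        have hcast : ∀ l, a l * (W : ℤ) * (y : ℤ) + (a l * r + b l) = a l * ((W * y + r : ℕ) : ℤ) + b l := by
          intro l
          push_cast
          ring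
        simp only [hcast] at y3 y4 y5
        unfold GE'
        rw [mem_filter, mem_Ioc]
        refine ⟨⟨?_, ?_⟩, y3, y4, y5, ?_⟩
        · have h5 : W * (A' + 1) ≤ W * y := Nat.mul_le_mul_left _ y1
          show A < W * y + r
          omega
        · have h4 : W * y ≤ W * B' := Nat.mul_le_mul_left _ y2
          have h5 : W * B' ≤ B - r := by
            rw [hB']
            exact Nat.mul_div_le _ _
          show W * y + r ≤ B
          omega
        · apply hW3 (W * y + r)
          unfold Nat.ModEq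
          rw [add_comm, Nat.add_mul_mod_self_left]
      · intro y _ y' _ he
        simp only at he
        have h4 : W * y = W * y' := by omega
        exact Nat.eq_of_mul_eq_mul_left hW1 h4
    have hcard' : ((GoodL (fun l => a l * W) (fun l => a l * r + b l) i j t X A' B').card : ℝ) ≤
        (GE' a b T i j W t X A B).card := by exact_mod_cast hcard
    have hVle := VL_sub hadm hW2 X
    have hVl := hVlow X (by omega)
    refine le_trans ?_ (h4.trans hcard')
    calc κ / (2 * W) * cV * ((B : ℝ) - A) / Real.log X ^ k =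
          κ * (((B : ℝ) - A) / (2 * W)) * (cV / Real.log X ^ k) := by
          field_simp
      _ ≤ κ * ((B' : ℝ) - A') * VL (fun l => a l * W) (fun l => a l * r + b l) X := by
          apply mul_le_mul _ (hVl.trans hVle) (by positivity)
          · exact mul_nonneg hκ.le (le_trans (div_nonneg hBA0 (by positivity)) hlen)
          · exact mul_le_mul_of_nonneg_left hlen hκ.le
  · intro S hS hSc
    refine h2 X hX2 k (lf a b) ?_ (loc_lf hadm) ?_ A B hB hAB S ?_ ?_ ?_
    · simp only [hdeg]
      simp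
    · rw [V_lf]
      exact hVlow X (by omega)
    · intro x hx
      exact (mem_filter.1 (hS hx)).1
    · intro x hx _ l q hq hd
      have h5 := hS hx
      unfold GE' at h5
      rw [mem_filter] at h5
      rw [lf_eval] at hd
      have h6 := (h5.2.2.2.1 l).2.2 q hq hd
      refine lt_of_le_of_lt ?_ h6
      apply Real.rpow_le_rpow_of_exponent_le (by exact_mod_cast (by omega : 1 ≤ X))
      have ht0 : (0 : ℝ) < t := by exact_mod_cast ht
      apply one_div_le_one_div_of_le ht0
      exact_mod_cast le_max_left t 2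
    · rw [V_lf]
      have h6 := h3 X hX3'
      refine le_trans ?_ hSc
      calc δ / CV * ((B : ℝ) - A) * VL a b X ≤ δ / CV * ((B : ℝ) - A) * (CV / Real.log X ^ k) :=
            mul_le_mul_of_nonneg_left h6 (mul_nonneg (by positivity) hBA0)
        _ = δ * ((B : ℝ) - A) / Real.log X ^ k := by
            field_simp

end Pool.Agent.X32.Uni
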