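import Pool.Agent.X32.Uni.Part

/-!
Exact patterns of linear forms with coverings by monochromatic progressions.
-/

set_option autoImplicit false

namespace Pool.Agent.X32.Uni

open Finset Filter

variable {k : ℕ}

theorem exactP (a b : Fin k → ℤ) (hadm : AdmL a b) (ha : ∀ l, a l ≠ 0)
    (hdet : ∀ l m, l ≠ m → a l * b m - a m * b l ≠ 0) (i j : Fin k) (hij : i ≠ j) (T : Finset (ℤ × ℤ))
    (hT : ∀ τ ∈ T, τ.1 ≠ 0) (hTne : ∀ τ ∈ T, ∀ l, τ.1 * b l - a l * τ.2 ≠ 0) :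
    ∃ C t : ℕ, 1 ≤ t ∧ ∃ κ : ℝ, 0 < κ ∧ ∀ (s r : ℕ) (θ δ : ℝ), 1 ≤ s → 0 < θ → 0 < δ → ∃ c X₀ : ℕ, ∀ X : ℕ, X₀ ≤ X →
      ∀ A B : ℕ, B ≤ X → θ * X ≤ (B : ℝ) - A →
        κ * ((B : ℝ) - A) / Real.log X ^ k ≤ ((GE' a b T i j C t X A B).card : ℝ) ∧
        ∀ χ : ℕ → Fin r, ∃ P : Finset (ℕ × ℕ),
          (∀ z ∈ P, 1 ≤ z.2 ∧ (z.2 : ℝ) ≤ Real.log X ^ c ∧
            ∀ m < s, z.1 + m * z.2 ∈ GE' a b T i j C t X A B ∧ χ (z.1 + m * z.2) = χ z.1) ∧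
          (P : Set (ℕ × ℕ)).PairwiseDisjoint (apSet s) ∧
          (((GE' a b T i j C t X A B \ P.biUnion (apSet s)).card : ℕ) : ℝ) ≤ δ * ((B : ℝ) - A) / Real.log X ^ k := by
  classical
  obtain ⟨C, t, ht, κ, hκ, H⟩ := exactU a b hadm ha hdet i j hij T hT hTne
  refine ⟨C, t, ht, κ, hκ, fun s r θ δ hs hθ hδ => ?_⟩
  obtain ⟨c, X₀, h⟩ := H s θ (δ / (r + 1)) hθ (by positivity)
  refine ⟨c, max X₀ 3, fun X hX A B hB hAB => ?_⟩
  obtain ⟨h1, h2⟩ := h X ((le_max_left _ _).trans hX) A B hB hAB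
  refine ⟨h1, fun χ => ?_⟩
  have hX3 : 3 ≤ X := (le_max_right _ _).trans hX
  have hX0 : (0 : ℝ) < X := by exact_mod_cast (by omega : 0 < X)
  have hlog : 0 < Real.log X := Real.log_pos (by exact_mod_cast (by omega : 1 < X))
  have hBA0 : 0 < (B : ℝ) - A := lt_of_lt_of_le (by positivity) hAB
  obtain ⟨P, p1, p2, p3⟩ := part_col s r hs (Real.log X ^ c) (δ / (r + 1) * ((B : ℝ) - A) / Real.log X ^ k)
    (by positivity) _ h2 χ
  refine ⟨P, p1, p2, p3.le.trans ?_⟩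
  have h3 : (r : ℝ) * (δ / (r + 1) * ((B : ℝ) - A) / Real.log X ^ k) =
      (r / (r + 1)) * (δ * ((B : ℝ) - A) / Real.log X ^ k) := by
    field_simp
  rw [h3]
  have h4 : (r : ℝ) / (r + 1) ≤ 1 := by
    rw [div_le_one (by positivity)]
    linarith
  exact mul_le_of_le_one_left (by positivity) h4

end Pool.Agent.X32.Uni
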