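import Pool.Agent.X32.Uni.PairK

/-!
Families of polynomials: exact patterns.
-/

set_option autoImplicit false

namespace Pool.Agent.X32.Uni

open Finset
open Polynomial (C X aeval)
open scoped Polynomial

variable {k : ℕ} {ι : Type}

/-- `ω(p)` -/
def omF (v : ι → ℤ → ℤ) (S : Fin k → ι) (p : ℕ) : ℕ :=
  ((range p).filter (fun x : ℕ => (p : ℤ) ∣ ∏ l, v (S l) x)).card

/-- the product of `1 - ω(p) / p` over the primes `p ≤ X` -/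
noncomputable def VF (v : ι → ℤ → ℤ) (S : Fin k → ι) (X : ℕ) : ℝ :=
  ∏ p ∈ (Icc 1 X).filter Nat.Prime, (1 - (omF v S p : ℝ) / p)

open Classical in
/-- the good `n` -/
noncomputable def GF (v : ι → ℤ → ℤ) (d : ι → ℕ) (S : Fin k → ι) (Q : ι → Prop) (C t X A B : ℕ) : Finset ℕ :=
  (Ioc A B).filter (fun n : ℕ =>
    (∀ l, Almost (d (S l) * t) ((X : ℝ) ^ (1 / (t : ℝ))) (v (S l) n)) ∧
    ∀ z, Q z → ∃ q : ℕ, q.Prime ∧ q ≤ C ∧ (q : ℤ) ∣ v z n)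

theorem famS (P : ι → ℤ[X]) (v : ι → ℤ → ℤ) (hv : ∀ z x, (P z).eval x = v z x) (d : ι → ℕ)
    (hk : 0 < k) (S : Fin k → ι) (hd : ∀ l, (P (S l)).natDegree = d (S l)) (hd1 : ∀ l, 1 ≤ d (S l))
    (D : ℕ) (hD : ∑ l, d (S l) = D)
    (hS : ∀ p : ℕ, p.Prime → ∃ x : ℤ, ∀ l, ¬ (p : ℤ) ∣ v (S l) x)
    (T : Finset ι) (Q : ι → Prop) (hTQ : ∀ z, z ∈ T ↔ Q z)
    (hQ : ∀ z, Q z → P z ≠ 0 ∧ ∃ α : ℂ, aeval α (P z) = 0 ∧ ∀ l, aeval α (P (S l)) ≠ 0) (ε : ℝ) (hε : 0 < ε) :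
    ∃ C t : ℕ, 1 ≤ t ∧ ∃ κ K : ℝ, 0 < κ ∧ 0 < K ∧ ∀ (s r : ℕ) (δ : ℝ), 1 ≤ s → 0 < δ → ∃ c X₀ : ℕ, ∀ X : ℕ, X₀ ≤ X →
      κ / Real.log X ^ D ≤ VF v S X ∧ ∀ A B : ℕ, B ≤ X → (X : ℝ) ^ ε ≤ (B : ℝ) - A →
        κ * ((B : ℝ) - A) * VF v S X ≤ ((GF v d S Q C t X A B).card : ℝ) ∧
        ((GF v d S Q C t X A B).card : ℝ) ≤ K * ((B : ℝ) - A) * VF v S X ∧
        ∀ χ : ℕ → Fin r, ∃ P : Finset (ℕ × ℕ),
          (∀ z ∈ P, 1 ≤ z.2 ∧ (z.2 : ℝ) ≤ Real.log X ^ c ∧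
            ∀ l < s, z.1 + l * z.2 ∈ GF v d S Q C t X A B ∧ χ (z.1 + l * z.2) = χ z.1) ∧
          (P : Set (ℕ × ℕ)).PairwiseDisjoint (apSet s) ∧
          (((GF v d S Q C t X A B \ P.biUnion (apSet s)).card : ℕ) : ℝ) ≤ δ * ((B : ℝ) - A) * VF v S X := by
  classical
  obtain ⟨f, hf⟩ : ∃ f : Fin k → ℤ[X], f = fun l => P (S l) := ⟨_, rfl⟩
  have hfl : ∀ l, f l = P (S l) := fun l => by rw [hf]
  have hloc : Loc f := by
    intro p hp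
    obtain ⟨x, hx⟩ := hS p hp
    refine ⟨x, fun hd => ?_⟩
    obtain ⟨l, _, hl⟩ := (Nat.prime_iff_prime_int.1 hp).exists_mem_finset_dvd hd
    rw [hfl, hv] at hl
    exact hx l hl
  have ho : ∀ p, om f p = omF v S p := by
    intro p
    unfold om omF
    simp only [hfl, hv]
  have hV : ∀ n, V f n = VF v S n := fun n => by
    unfold V VF
    exact prod_congr rfl fun p _ => by rw [ho]
  have hG : ∀ C t X A B, GS f (T.image P) C t X A B = GF v d S Q C t X A B := by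
    intro C t X A B
    ext n
    unfold GS GF
    simp only [mem_filter, hfl, hv, hd, mul_comm t]
    refine and_congr_right fun _ => and_congr_right fun _ => ?_
    constructor
    · intro h z hz
      obtain ⟨q, h1, h2, h3⟩ := h (P z) (mem_image_of_mem _ ((hTQ z).2 hz))
      rw [hv] at h3
      exact ⟨q, h1, h2, h3⟩
    · intro h g hg
      rw [mem_image] at hg
      obtain ⟨z, hz, rfl⟩ := hg
      rw [hv]
      exact h z ((hTQ z).1 hz)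
  obtain ⟨C, t, ht, κ, K, hκ, hK, HH⟩ := killS f hk (fun l => by rw [hfl, hd]; exact hd1 l) hloc (T.image P) (by
    intro g hg
    rw [mem_image] at hg
    obtain ⟨z, hz, rfl⟩ := hg
    obtain ⟨h0, α, hα, hα2⟩ := hQ z ((hTQ z).1 hz)
    exact ⟨h0, α, hα, fun l h => hα2 l (by rwa [hfl] at h)⟩) ε hε
  refine ⟨C, t, ht, κ, K, hκ, hK, fun s r δ hs hδ => ?_⟩
  obtain ⟨c, X₀, hX⟩ := HH s r δ hs hδ
  refine ⟨c, X₀, fun X hXX => ?_⟩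
  have := hX X hXX
  have hsum : ∑ l, (f l).natDegree = D := by
    simp only [hfl, hd]
    exact hD
  simp only [hV, hG, hsum] at this
  exact this

/-- `ω(p)` -/
noncomputable def omB (b : ℤ) (v : ι → ℤ → ℤ) (S : Fin k → ι) (p : ℕ) : ℕ :=
  ((range p).filter (fun x : ℕ => (p : ℤ) ∣ (x : ℤ) * (x + b) * ∏ l, v (S l) x)).card

/-- the product of `1 - ω(p) / p` over the primes `p ≤ X` -/
noncomputable def VB (b : ℤ) (v : ι → ℤ → ℤ) (S : Fin k → ι) (X : ℕ) : ℝ :=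
  ∏ p ∈ (Icc 1 X).filter Nat.Prime, (1 - (omB b v S p : ℝ) / p)

open Classical in
/-- the good primes -/
noncomputable def GB (b : ℤ) (v : ι → ℤ → ℤ) (d : ι → ℕ) (S : Fin k → ι) (Q : ι → Prop) (C t X A B : ℕ) : Finset ℕ :=
  (Ioc A B).filter (fun n : ℕ => n.Prime ∧ (X : ℝ) ^ (1 / (t : ℝ)) < n ∧
    Almost 2 ((X : ℝ) ^ (1 / 9 : ℝ)) (n + b) ∧ Almost t ((X : ℝ) ^ (1 / (t : ℝ))) (n + b) ∧
    (∀ l, Almost (d (S l) * t) ((X : ℝ) ^ (1 / (t : ℝ))) (v (S l) n)) ∧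
    ∀ z, Q z → ∃ q : ℕ, q.Prime ∧ q ≤ C ∧ (q : ℤ) ∣ v z n)

theorem famK (P : ι → ℤ[X]) (v : ι → ℤ → ℤ) (hv : ∀ z x, (P z).eval x = v z x) (d : ι → ℕ) (b : ℤ) (hb : b ≠ 0)
    (S : Fin k → ι) (hd : ∀ l, (P (S l)).natDegree = d (S l)) (hd1 : ∀ l, 1 ≤ d (S l))
    (D : ℕ) (hD : ∑ l, d (S l) = D)
    (hS : ∀ p : ℕ, p.Prime → ∃ x : ℤ, ¬ (p : ℤ) ∣ x * (x + b) ∧ ∀ l, ¬ (p : ℤ) ∣ v (S l) x)
    (T : Finset ι) (Q : ι → Prop) (hTQ : ∀ z, z ∈ T ↔ Q z)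
    (hQ : ∀ z, Q z → P z ≠ 0 ∧ ∃ α : ℂ, aeval α (P z) = 0 ∧ α ≠ 0 ∧ α + b ≠ 0 ∧ ∀ l, aeval α (P (S l)) ≠ 0) :
    ∃ C t : ℕ, 1 ≤ t ∧ ∃ κ : ℝ, 0 < κ ∧ ∀ (s r : ℕ) (θ δ : ℝ), 1 ≤ s → 0 < θ → 0 < δ → ∃ c X₀ : ℕ, ∀ X : ℕ, X₀ ≤ X →
      κ / Real.log X ^ (D + 2) ≤ VB b v S X ∧ ∀ A B : ℕ, B ≤ X → θ * X ≤ (B : ℝ) - A →
        κ * ((B : ℝ) - A) * VB b v S X ≤ ((GB b v d S Q C t X A B).card : ℝ) ∧
        ∀ χ : ℕ → Fin r, ∃ P : Finset (ℕ × ℕ),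
          (∀ z ∈ P, 1 ≤ z.2 ∧ (z.2 : ℝ) ≤ Real.log X ^ c ∧
            ∀ l < s, z.1 + l * z.2 ∈ GB b v d S Q C t X A B ∧ χ (z.1 + l * z.2) = χ z.1) ∧
          (P : Set (ℕ × ℕ)).PairwiseDisjoint (apSet s) ∧
          (((GB b v d S Q C t X A B \ P.biUnion (apSet s)).card : ℕ) : ℝ) ≤ δ * ((B : ℝ) - A) * VB b v S X := by
  classical
  obtain ⟨f, hf⟩ : ∃ f : Fin k → ℤ[X], f = fun l => P (S l) := ⟨_, rfl⟩
  have hfl : ∀ l, f l = P (S l) := fun l => by rw [hf]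
  have hloc : ∀ p : ℕ, p.Prime → ∃ x : ℤ, ¬ (p : ℤ) ∣ x * (x + b) * ∏ l, (f l).eval x := by
    intro p hp
    obtain ⟨x, hx0, hx⟩ := hS p hp
    refine ⟨x, fun hd => ?_⟩
    have hp' := Nat.prime_iff_prime_int.1 hp
    rcases hp'.dvd_or_dvd hd with h | h
    · exact hx0 h
    · obtain ⟨l, _, hl⟩ := hp'.exists_mem_finset_dvd h
      rw [hfl, hv] at hl
      exact hx l hl
  have ho : ∀ p, omP b f p = omB b v S p := by
    intro p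
    unfold omP omB
    simp only [hfl, hv]
  have hV : ∀ n, VP b f n = VB b v S n := fun n => by
    unfold VP VB
    exact prod_congr rfl fun p _ => by rw [ho]
  have hG : ∀ C t X A B, GP b f (T.image P) C t X A B = GB b v d S Q C t X A B := by
    intro C t X A B
    ext n
    unfold GP GB
    simp only [mem_filter, hfl, hv, hd, mul_comm t]
    refine and_congr_right fun _ => and_congr_right fun _ => and_congr_right fun _ => and_congr_right fun _ =>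
      and_congr_right fun _ => and_congr_right fun _ => ?_
    constructor
    · intro h z hz
      obtain ⟨q, h1, h2, h3⟩ := h (P z) (mem_image_of_mem _ ((hTQ z).2 hz))
      rw [hv] at h3
      exact ⟨q, h1, h2, h3⟩
    · intro h g hg
      rw [mem_image] at hg
      obtain ⟨z, hz, rfl⟩ := hg
      rw [hv]
      exact h z ((hTQ z).1 hz)
  obtain ⟨C, t, ht, κ, hκ, HH⟩ := pairK b hb f (fun l => by rw [hfl, hd]; exact hd1 l) hloc (T.image P) (by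
    intro g hg
    rw [mem_image] at hg
    obtain ⟨z, hz, rfl⟩ := hg
    obtain ⟨h0, α, hα, hα0, hαb, hα2⟩ := hQ z ((hTQ z).1 hz)
    exact ⟨h0, α, hα, hα0, hαb, fun l h => hα2 l (by rwa [hfl] at h)⟩)
  refine ⟨C, t, ht, κ, hκ, fun s r θ δ hs hθ hδ => ?_⟩
  obtain ⟨c, X₀, hX⟩ := HH s r θ δ hs hθ hδ
  refine ⟨c, X₀, fun X hXX => ?_⟩
  have := hX X hXX
  have hsum : ∑ l, (f l).natDegree = D := by
    simp only [hfl, hd]
    exact hD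
  simp only [hV, hG, hsum] at this
  exact this

end Pool.Agent.X32.Uni
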