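import Pool.Agent.X32.Uni.Short3

/-!
Chen's theorem `n`, `n + b` together with further polynomials, and bounded prime factors in other polynomials.
-/

set_option autoImplicit false

namespace Pool.Agent.X32.Uni

open Finset
open Polynomial (C X aeval)
open scoped Polynomial

variable {k : ℕ}

/-- the system `x, x + b, g_l` -/
noncomputable def fP (b : ℤ) (g : Fin k → ℤ[X]) : Fin (k + 2) → ℤ[X] := Fin.cons X (Fin.cons (X + C b) g)

theorem fP_zero (b : ℤ) (g : Fin k → ℤ[X]) : fP b g 0 = X := rfl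

theorem fP_one (b : ℤ) (g : Fin k → ℤ[X]) : fP b g 1 = X + C b := rfl

theorem fP_succ (b : ℤ) (g : Fin k → ℤ[X]) (l : Fin k) : fP b g l.succ.succ = g l := rfl

theorem fin_forall {P : Fin (k + 2) → Prop} : (∀ l, P l) ↔ P 0 ∧ P 1 ∧ ∀ l : Fin k, P l.succ.succ := by
  constructor
  · intro h
    exact ⟨h 0, h 1, fun l => h _⟩
  · rintro ⟨h0, h1, h2⟩ l
    refine Fin.cases h0 (fun l => ?_) l
    refine Fin.cases h1 (fun l => ?_) l
    exact h2 l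

theorem fP_prod (b : ℤ) (g : Fin k → ℤ[X]) (x : ℤ) :
    ∏ l, (fP b g l).eval x = x * (x + b) * ∏ l, (g l).eval x := by
  rw [Fin.prod_univ_succ, Fin.prod_univ_succ]
  have e0 : (fP b g 0).eval x = x := by rw [fP_zero]; simp
  have e1 : (fP b g (Fin.succ 0)).eval x = x + b := by
    show (fP b g 1).eval x = x + b
    rw [fP_one]
    simp
  rw [e0, e1, ← mul_assoc]
  rfl

theorem fP_sum (b : ℤ) (g : Fin k → ℤ[X]) : ∑ l, (fP b g l).natDegree = ∑ l, (g l).natDegree + 2 := by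
  rw [Fin.sum_univ_succ, Fin.sum_univ_succ]
  have e0 : (fP b g 0).natDegree = 1 := by rw [fP_zero]; exact Polynomial.natDegree_X
  have e1 : (fP b g (Fin.succ 0)).natDegree = 1 := by
    show (fP b g 1).natDegree = 1
    rw [fP_one]
    exact Polynomial.natDegree_X_add_C b
  rw [e0, e1]
  have e2 : ∀ l : Fin k, (fP b g l.succ.succ).natDegree = (g l).natDegree := fun l => rfl
  simp only [e2]
  ring

/-- `ω(p)` -/
noncomputable def omP (b : ℤ) (g : Fin k → ℤ[X]) (p : ℕ) : ℕ :=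
  ((range p).filter (fun x : ℕ => (p : ℤ) ∣ (x : ℤ) * (x + b) * ∏ l, (g l).eval (x : ℤ))).card

/-- the product of `1 - ω(p) / p` over the primes `p ≤ X` -/
noncomputable def VP (b : ℤ) (g : Fin k → ℤ[X]) (X : ℕ) : ℝ :=
  ∏ p ∈ (Icc 1 X).filter Nat.Prime, (1 - (omP b g p : ℝ) / p)

open Classical in
/-- the good primes -/
noncomputable def GP (b : ℤ) (g : Fin k → ℤ[X]) (G : Finset ℤ[X]) (C t X A B : ℕ) : Finset ℕ :=
  (Ioc A B).filter (fun n : ℕ => n.Prime ∧ (X : ℝ) ^ (1 / (t : ℝ)) < n ∧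
    Almost 2 ((X : ℝ) ^ (1 / 9 : ℝ)) (n + b) ∧ Almost t ((X : ℝ) ^ (1 / (t : ℝ))) (n + b) ∧
    (∀ l, Almost (t * (g l).natDegree) ((X : ℝ) ^ (1 / (t : ℝ))) ((g l).eval (n : ℤ))) ∧
    ∀ q ∈ G, ∃ p : ℕ, p.Prime ∧ p ≤ C ∧ (p : ℤ) ∣ q.eval (n : ℤ))

theorem omP_eq (b : ℤ) (g : Fin k → ℤ[X]) (p : ℕ) : om (fP b g) p = omP b g p := by
  unfold om omP
  simp only [fP_prod]

theorem VP_eq (b : ℤ) (g : Fin k → ℤ[X]) (n : ℕ) : V (fP b g) n = VP b g n := by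
  unfold V VP
  exact prod_congr rfl fun p _ => by rw [omP_eq]

theorem almost_prime {t : ℕ} (ht : 1 ≤ t) {y : ℝ} {n : ℕ} (hn : n.Prime) : Almost t y (n : ℤ) ↔ y < n := by
  constructor
  · intro h
    exact h.2.2 n hn (dvd_refl _)
  · intro h
    refine ⟨?_, ?_, ?_⟩
    · rw [Nat.abs_cast]
      exact_mod_cast hn.one_lt
    · rw [Int.natAbs_natCast, Nat.primeFactorsList_prime hn]
      simpa using ht
    · intro q hq hd
      rw [Int.natCast_dvd_natCast, Nat.prime_dvd_prime_iff_eq hq hn] at hd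
      rwa [hd]

theorem GP_eq (b : ℤ) (g : Fin k → ℤ[X]) (G : Finset ℤ[X]) (C t X A B : ℕ) (ht : 1 ≤ t) :
    GK (fP b g) G 0 1 C t X A B = GP b g G C t X A B := by
  classical
  ext n
  unfold GK GP
  rw [mem_filter, mem_filter]
  refine and_congr_right fun _ => ?_
  rw [fin_forall, fP_zero, fP_one]
  simp only [fP_succ, Polynomial.eval_X, Polynomial.eval_add, Polynomial.eval_C, Polynomial.natDegree_X,
    Polynomial.natDegree_X_add_C, mul_one, Int.natAbs_natCast]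
  constructor
  · rintro ⟨h1, h2, ⟨h3, h4, h5⟩, h6⟩
    exact ⟨h1, (almost_prime ht h1).1 h3, h2, h4, h5, h6⟩
  · rintro ⟨h1, h3, h2, h4, h5, h6⟩
    exact ⟨h1, h2, ⟨(almost_prime ht h1).2 h3, h4, h5⟩, h6⟩

theorem pairK (b : ℤ) (hb : b ≠ 0) (g : Fin k → ℤ[X]) (hg : ∀ l, 1 ≤ (g l).natDegree)
    (hloc : ∀ p : ℕ, p.Prime → ∃ x : ℤ, ¬ (p : ℤ) ∣ x * (x + b) * ∏ l, (g l).eval x) (G : Finset ℤ[X])
    (hG : ∀ q ∈ G, q ≠ 0 ∧ ∃ α : ℂ, aeval α q = 0 ∧ α ≠ 0 ∧ α + b ≠ 0 ∧ ∀ l, aeval α (g l) ≠ 0) :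
    ∃ C t : ℕ, 1 ≤ t ∧ ∃ κ : ℝ, 0 < κ ∧ ∀ (s r : ℕ) (θ δ : ℝ), 1 ≤ s → 0 < θ → 0 < δ → ∃ c X₀ : ℕ, ∀ X : ℕ, X₀ ≤ X →
      κ / Real.log X ^ (∑ l, (g l).natDegree + 2) ≤ VP b g X ∧ ∀ A B : ℕ, B ≤ X → θ * X ≤ (B : ℝ) - A →
        κ * ((B : ℝ) - A) * VP b g X ≤ ((GP b g G C t X A B).card : ℝ) ∧
        ∀ χ : ℕ → Fin r, ∃ P : Finset (ℕ × ℕ),
          (∀ z ∈ P, 1 ≤ z.2 ∧ (z.2 : ℝ) ≤ Real.log X ^ c ∧
            ∀ l < s, z.1 + l * z.2 ∈ GP b g G C t X A B ∧ χ (z.1 + l * z.2) = χ z.1) ∧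
          (P : Set (ℕ × ℕ)).PairwiseDisjoint (apSet s) ∧
          (((GP b g G C t X A B \ P.biUnion (apSet s)).card : ℕ) : ℝ) ≤ δ * ((B : ℝ) - A) * VP b g X := by
  classical
  obtain ⟨C', t, ht, κ, hκ, H⟩ := killP (fP b g) (by
      rw [fin_forall]
      exact ⟨by rw [fP_zero, Polynomial.natDegree_X], by rw [fP_one, Polynomial.natDegree_X_add_C], hg⟩)
    (by
      intro p hp
      obtain ⟨x, hx⟩ := hloc p hp
      exact ⟨x, by rwa [fP_prod]⟩) 0 1 (by rw [fP_zero, Polynomial.natDegree_X])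
    (by rw [fP_one, Polynomial.natDegree_X_add_C])
    (by
      rw [fP_zero, fP_one]
      intro h
      have := congrArg (fun q : ℤ[X] => q.coeff 0) h
      simp at this
      exact hb this)
    (by
      rw [fP_zero, fP_one]
      intro h
      have := congrArg (fun q : ℤ[X] => q.eval 0) h
      simp at this
      exact hb this) G (by
      intro q hq
      obtain ⟨h1, α, h2, h3, h4, h5⟩ := hG q hq
      refine ⟨h1, α, h2, ?_⟩
      rw [fin_forall]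
      refine ⟨?_, ?_, h5⟩
      · rw [fP_zero, Polynomial.aeval_X]
        exact h3
      · rw [fP_one]
        simpa using h4)
  refine ⟨C', t, ht, κ, hκ, fun s r θ δ hs hθ hδ => ?_⟩
  obtain ⟨c, X₀, hX⟩ := H s r θ δ hs hθ hδ
  refine ⟨c, X₀, fun X hXX => ?_⟩
  have := hX X hXX
  simp only [VP_eq, GP_eq b g G C' t X _ _ ht, fP_sum] at this
  exact this

end Pool.Agent.X32.Uni
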