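import Pool.Agent.X32.Uni.FamM
import Pool.Agent.X32.Uni.PairK

/-!
Families of polynomials at Chen type arguments: model values.
-/

set_option autoImplicit false

namespace Pool.Agent.X32.Uni

open Finset
open Polynomial (C X aeval)
open scoped Polynomial

variable {k : ℕ} {ι : Type}

/-- `z` -/
def zMB (b : ℤ) (v : ι → ℤ → ℤ) (S : Fin k → ι) (T : Finset ι) (n₀ Q : ℕ) : ℕ :=
  Q * ((n₀ * (((n₀ : ℤ) + b).natAbs * ∏ l, (v (S l) n₀).natAbs)) * ∏ z ∈ T, (v z n₀).natAbs)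

/-- the product of `1 - ω(p) / p` over the primes of `(z, X]` -/
noncomputable def VMB (b : ℤ) (v : ι → ℤ → ℤ) (S : Fin k → ι) (T : Finset ι) (n₀ Q X : ℕ) : ℝ :=
  ∏ p ∈ (Ioc (zMB b v S T n₀ Q) X).filter Nat.Prime, (1 - (omB b v S p : ℝ) / p)

open Classical in
/-- the good `n` -/
noncomputable def GMB (b : ℤ) (v : ι → ℤ → ℤ) (d : ι → ℕ) (S : Fin k → ι) (T : Finset ι) (n₀ Q C t X A B : ℕ) :
    Finset ℕ :=
  (Ioc A B).filter (fun n : ℕ => (∃ p : ℕ, ∃ u : ℤ, ∃ w : Fin k → ℤ,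
    n = n₀ * p ∧ (n : ℤ) + b = (n₀ + b) * u ∧ (∀ l, v (S l) n = v (S l) n₀ * w l) ∧
    p.Prime ∧ (X : ℝ) ^ (1 / (t : ℝ)) < p ∧ Almost 2 ((X : ℝ) ^ (1 / 9 : ℝ)) u ∧
    Almost t ((X : ℝ) ^ (1 / (t : ℝ))) u ∧ (∀ l, Almost (d (S l) * t) ((X : ℝ) ^ (1 / (t : ℝ))) (w l)) ∧
    p ≡ 1 [MOD Q] ∧ u ≡ 1 [ZMOD (Q : ℤ)] ∧ ∀ l, w l ≡ 1 [ZMOD (Q : ℤ)]) ∧
    ∀ z ∈ T, ∃ w : ℤ, v z n = v z n₀ * w ∧ w ≡ 1 [ZMOD (Q : ℤ)] ∧ ∃ q : ℕ, q.Prime ∧ q ≤ C ∧ (q : ℤ) ∣ w)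

/-- the extended family -/
def vX (v : ι → ℤ → ℤ) : ℤ ⊕ ι → ℤ → ℤ := Sum.elim (fun h x => x + h) v

/-- the extended family -/
noncomputable def PX (P : ι → ℤ[X]) : ℤ ⊕ ι → ℤ[X] := Sum.elim (fun h => X + C h) P

/-- the degrees -/
def dX (d : ι → ℕ) : ℤ ⊕ ι → ℕ := Sum.elim (fun _ => 1) d

/-- the members -/
def SX (b : ℤ) (S : Fin k → ι) : Fin (k + 2) → ℤ ⊕ ι :=
  Fin.cons (Sum.inl 0) (Fin.cons (Sum.inl b) (fun l => Sum.inr (S l)))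

theorem SX0 (b : ℤ) (S : Fin k → ι) : SX b S 0 = Sum.inl 0 := rfl
theorem SX1 (b : ℤ) (S : Fin k → ι) : SX b S 1 = Sum.inl b := rfl
theorem SXs (b : ℤ) (S : Fin k → ι) (l : Fin k) : SX b S l.succ.succ = Sum.inr (S l) := rfl

/-- the other members -/
def TX (T : Finset ι) : Finset (ℤ ⊕ ι) := T.map ⟨Sum.inr, Sum.inr_injective⟩

theorem TX_forall {T : Finset ι} {R : ℤ ⊕ ι → Prop} : (∀ z ∈ TX T, R z) ↔ ∀ z ∈ T, R (Sum.inr z) := by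
  unfold TX
  simp

theorem prod2 {M : Type} [CommMonoid M] (g : Fin (k + 2) → M) :
    ∏ l, g l = g 0 * (g 1 * ∏ l : Fin k, g l.succ.succ) := by
  rw [Fin.prod_univ_succ, Fin.prod_univ_succ]
  rfl

theorem sum2 {M : Type} [AddCommMonoid M] (g : Fin (k + 2) → M) :
    ∑ l, g l = g 0 + (g 1 + ∑ l : Fin k, g l.succ.succ) := by
  rw [Fin.sum_univ_succ, Fin.sum_univ_succ]
  rfl

theorem zMB_eq (b : ℤ) (v : ι → ℤ → ℤ) (S : Fin k → ι) (T : Finset ι) (n₀ Q : ℕ) :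
    zFM (vX v) (SX b S) (TX T) n₀ Q = zMB b v S T n₀ Q := by
  unfold zFM zMB TX
  rw [prod2, prod_map]
  simp only [SX0, SX1, SXs]
  simp [vX]

theorem omB_eq (b : ℤ) (v : ι → ℤ → ℤ) (S : Fin k → ι) (p : ℕ) : omF (vX v) (SX b S) p = omB b v S p := by
  unfold omF omB
  congr 1
  apply filter_congr
  intro x _
  rw [prod2]
  simp only [SX0, SX1, SXs]
  simp [vX, mul_assoc]

theorem VMB_eq (b : ℤ) (v : ι → ℤ → ℤ) (S : Fin k → ι) (T : Finset ι) (n₀ Q X : ℕ) :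
    VFM (vX v) (SX b S) (TX T) n₀ Q X = VMB b v S T n₀ Q X := by
  unfold VFM VMB
  rw [zMB_eq]
  exact prod_congr rfl fun p _ => by rw [omB_eq]

theorem GMB_eq (b : ℤ) (v : ι → ℤ → ℤ) (d : ι → ℕ) (S : Fin k → ι) (T : Finset ι) (n₀ Q C t X A B : ℕ)
    (hn₀ : 0 < n₀) (ht : 1 ≤ t) :
    GFM (vX v) (dX d) (SX b S) (TX T) 0 1 n₀ Q C t X A B = GMB b v d S T n₀ Q C t X A B := by
  ext n
  unfold GFM GMB
  simp only [mem_filter, TX_forall, and_congr_right_iff, mem_Ioc]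
  intro hn
  have hnpos : 0 < n := by omega
  have e3 : (∀ z ∈ T, ∃ w : ℤ, vX v (Sum.inr z) n = vX v (Sum.inr z) n₀ * w ∧ w ≡ 1 [ZMOD (Q : ℤ)] ∧
      ∃ q : ℕ, q.Prime ∧ q ≤ C ∧ (q : ℤ) ∣ w) ↔
      ∀ z ∈ T, ∃ w : ℤ, v z n = v z n₀ * w ∧ w ≡ 1 [ZMOD (Q : ℤ)] ∧ ∃ q : ℕ, q.Prime ∧ q ≤ C ∧ (q : ℤ) ∣ w := by
    simp [vX]
  rw [e3]
  refine and_congr_left fun _ => ?_
  constructor
  · rintro ⟨w, h1, h2, h3⟩
    rw [fin_forall] at h1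
    obtain ⟨⟨a1, a2, a3⟩, ⟨b1, b2, b3⟩, hl⟩ := h1
    simp only [SX0, vX, dX, Sum.elim_inl, add_zero, one_mul] at a1 a3
    simp only [SX1, vX, dX, Sum.elim_inl, one_mul] at b1 b3
    have hv0 : 0 < w 0 := by
      have h4 : (0 : ℤ) < n₀ * w 0 := by rw [← a1]; exact_mod_cast hnpos
      exact (pos_iff_pos_of_mul_pos h4).1 (by exact_mod_cast hn₀)
    obtain ⟨p, hp⟩ : ∃ p : ℕ, w 0 = p := ⟨(w 0).toNat, (Int.toNat_of_nonneg hv0.le).symm⟩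
    rw [hp] at a1 a2 a3 h2
    rw [Int.natAbs_natCast] at h2
    refine ⟨p, w 1, fun l => w l.succ.succ, by exact_mod_cast a1, b1, fun l => ?_, h2,
      a3.2.2 p h2 (dvd_refl _), h3, b3, fun l => ?_, ?_, b2, fun l => (hl l).2.1⟩
    · have := (hl l).1
      rwa [SXs] at this
    · have := (hl l).2.2
      rwa [SXs] at this
    · exact Int.natCast_modEq_iff.1 (by exact_mod_cast a2)
  · rintro ⟨p, u, w, h1, h2, h3, h4, h5, h6, h7, h8, h9, h10, h11⟩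
    refine ⟨Fin.cons (p : ℤ) (Fin.cons u w), ?_, ?_, ?_⟩
    · rw [fin_forall]
      refine ⟨⟨?_, ?_, ?_⟩, ⟨?_, h10, ?_⟩, fun l => ⟨?_, h11 l, ?_⟩⟩
      · rw [SX0, Fin.cons_zero]
        simp only [vX, Sum.elim_inl, add_zero]
        exact_mod_cast h1
      · rw [Fin.cons_zero]
        exact_mod_cast (Int.natCast_modEq_iff.2 h9)
      · rw [SX0, Fin.cons_zero]
        simp only [dX, Sum.elim_inl, one_mul]
        exact (almost_prime ht h4).2 h5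
      · rw [SX1]
        exact h2
      · rw [SX1]
        simp only [dX, Sum.elim_inl, one_mul]
        exact h7
      · rw [SXs]
        exact h3 l
      · rw [SXs]
        exact h8 l
    · rw [Fin.cons_zero, Int.natAbs_natCast]
      exact h4
    · exact h6

theorem famMB (P : ι → ℤ[X]) (v : ι → ℤ → ℤ) (hv : ∀ z x, (P z).eval x = v z x) (d : ι → ℕ) (b : ℤ) (hb : b ≠ 0)
    (S : Fin k → ι) (hd : ∀ l, (P (S l)).natDegree = d (S l)) (hd1 : ∀ l, 1 ≤ d (S l))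
    (D : ℕ) (hD : ∑ l, d (S l) = D)
    (T : Finset ι) (n₀ Q : ℕ) (hn₀ : 0 < n₀) (hn₁ : (n₀ : ℤ) + b ≠ 0) (hQ : 1 ≤ Q) (hS : ∀ l, v (S l) n₀ ≠ 0)
    (hT : ∀ z ∈ T, v z n₀ ≠ 0)
    (hG : ∀ z ∈ T, P z ≠ 0 ∧ ∃ α : ℂ, aeval α (P z) = 0 ∧ α ≠ 0 ∧ α + b ≠ 0 ∧ ∀ l, aeval α (P (S l)) ≠ 0) :
    ∃ C t : ℕ, 1 ≤ t ∧ ∃ κ : ℝ, 0 < κ ∧ ∀ (s r : ℕ) (θ δ : ℝ), 1 ≤ s → 0 < θ → 0 < δ → ∃ c X₀ : ℕ, ∀ X : ℕ, X₀ ≤ X →
      κ / Real.log X ^ (D + 2) ≤ VMB b v S T n₀ Q X ∧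
      ∀ A B : ℕ, B ≤ X → θ * X ≤ (B : ℝ) - A →
        κ * ((B : ℝ) - A) * VMB b v S T n₀ Q X ≤ ((GMB b v d S T n₀ Q C t X A B).card : ℝ) ∧
        ∀ χ : ℕ → Fin r, ∃ P : Finset (ℕ × ℕ),
          (∀ z ∈ P, 1 ≤ z.2 ∧ (z.2 : ℝ) ≤ Real.log X ^ c ∧
            ∀ l < s, z.1 + l * z.2 ∈ GMB b v d S T n₀ Q C t X A B ∧ χ (z.1 + l * z.2) = χ z.1) ∧
          (P : Set (ℕ × ℕ)).PairwiseDisjoint (apSet s) ∧
          (((GMB b v d S T n₀ Q C t X A B \ P.biUnion (apSet s)).card : ℕ) : ℝ) ≤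
            δ * ((B : ℝ) - A) * VMB b v S T n₀ Q X := by
  classical
  have h1 : ∀ h : ℤ, (X + C h : ℤ[X]).coeff 1 = 1 := fun h => by
    rw [Polynomial.coeff_add, Polynomial.coeff_X_one, Polynomial.coeff_C, if_neg one_ne_zero, add_zero]
  have h0 : ∀ h : ℤ, (X + C h : ℤ[X]).coeff 0 = h := fun h => by
    rw [Polynomial.coeff_add, Polynomial.coeff_X_zero, Polynomial.coeff_C_zero, zero_add]
  have hP0 : PX P (SX b S 0) = X + C 0 := rfl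
  have hP1 : PX P (SX b S 1) = X + C b := rfl
  have hPs : ∀ l : Fin k, PX P (SX b S l.succ.succ) = P (S l) := fun l => rfl
  obtain ⟨C, t, ht, κ, hκ, H⟩ := famMK (PX P) (vX v) (fun z x => by
      rcases z with h | z
      · simp [PX, vX]
      · simp only [PX, vX, Sum.elim_inr]
        exact hv z x) (dX d) (SX b S) (by
      rw [fin_forall]
      refine ⟨?_, ?_, fun l => ?_⟩
      · rw [hP0, Polynomial.natDegree_X_add_C]; rfl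
      · rw [hP1, Polynomial.natDegree_X_add_C]; rfl
      · rw [hPs, hd]; rfl) (by
      rw [fin_forall]
      exact ⟨le_rfl, le_rfl, hd1⟩) (D + 2) (by
      rw [sum2]
      have : ∑ l : Fin k, dX d (SX b S l.succ.succ) = D := hD
      rw [this]
      show 1 + (1 + D) = D + 2
      omega) 0 1 rfl rfl (by
      rw [hP0, hP1, h1, h1, h0, h0, one_mul, one_mul]
      exact hb) (TX T) n₀ Q hQ (by
      rw [fin_forall]
      refine ⟨?_, ?_, fun l => hS l⟩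
      · show (n₀ : ℤ) + 0 ≠ 0
        omega
      · exact hn₁) (TX_forall.2 hT) (TX_forall.2 (by
      intro z hz
      obtain ⟨g0, α, g1, g2, g3, g4⟩ := hG z hz
      refine ⟨g0, α, g1, ?_⟩
      rw [fin_forall]
      refine ⟨?_, ?_, fun l => ?_⟩
      · rw [hP0]
        simpa using g2
      · rw [hP1]
        simpa using g3
      · rw [hPs]
        exact g4 l))
  refine ⟨C, t, ht, κ, hκ, fun s r θ δ hs hθ hδ => ?_⟩
  obtain ⟨c, X₀, hX⟩ := H s r θ δ hs hθ hδ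
  refine ⟨c, X₀, fun X hXX => ?_⟩
  have := hX X hXX
  simp only [VMB_eq, GMB_eq b v d S T n₀ Q C t X _ _ hn₀ ht] at this
  exact this

end Pool.Agent.X32.Uni
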