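import Pool.Agent.X32.Uni.Model5
import Pool.Agent.X32.Uni.Fam

/-!
Families of polynomials: model values.
-/

set_option autoImplicit false

namespace Pool.Agent.X32.Uni

open Finset
open Polynomial (C X aeval)
open scoped Polynomial

variable {k : ℕ} {ι : Type}

/-- `z` -/
def zFM (v : ι → ℤ → ℤ) (S : Fin k → ι) (T : Finset ι) (n₀ Q : ℕ) : ℕ :=
  Q * ((∏ l, (v (S l) n₀).natAbs) * ∏ z ∈ T, (v z n₀).natAbs)

/-- the product of `1 - ω(p) / p` over the primes of `(z, X]` -/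
noncomputable def VFM (v : ι → ℤ → ℤ) (S : Fin k → ι) (T : Finset ι) (n₀ Q X : ℕ) : ℝ :=
  ∏ p ∈ (Ioc (zFM v S T n₀ Q) X).filter Nat.Prime, (1 - (omF v S p : ℝ) / p)

open Classical in
/-- the good `n` -/
noncomputable def GFM (v : ι → ℤ → ℤ) (d : ι → ℕ) (S : Fin k → ι) (T : Finset ι) (i j : Fin k) (n₀ Q C t X A B : ℕ) :
    Finset ℕ :=
  (Ioc A B).filter (fun n : ℕ => (∃ w : Fin k → ℤ,
    (∀ l, v (S l) n = v (S l) n₀ * w l ∧ w l ≡ 1 [ZMOD (Q : ℤ)] ∧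
      Almost (d (S l) * t) ((X : ℝ) ^ (1 / (t : ℝ))) (w l)) ∧
    (w i).natAbs.Prime ∧ Almost 2 ((X : ℝ) ^ (1 / 9 : ℝ)) (w j)) ∧
    ∀ z ∈ T, ∃ w : ℤ, v z n = v z n₀ * w ∧ w ≡ 1 [ZMOD (Q : ℤ)] ∧ ∃ q : ℕ, q.Prime ∧ q ≤ C ∧ (q : ℤ) ∣ w)

open Classical in
/-- the good `n` -/
noncomputable def GFMS (v : ι → ℤ → ℤ) (d : ι → ℕ) (S : Fin k → ι) (T : Finset ι) (n₀ Q C t X A B : ℕ) :
    Finset ℕ :=
  (Ioc A B).filter (fun n : ℕ => (∃ w : Fin k → ℤ,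
    ∀ l, v (S l) n = v (S l) n₀ * w l ∧ w l ≡ 1 [ZMOD (Q : ℤ)] ∧
      Almost (d (S l) * t) ((X : ℝ) ^ (1 / (t : ℝ))) (w l)) ∧
    ∀ z ∈ T, ∃ w : ℤ, v z n = v z n₀ * w ∧ w ≡ 1 [ZMOD (Q : ℤ)] ∧ ∃ q : ℕ, q.Prime ∧ q ≤ C ∧ (q : ℤ) ∣ w)

theorem fin_T (T : Finset ι) {R : ι → Prop} :
    (∀ l : Fin T.card, R (T.equivFin.symm l : ι)) ↔ ∀ z ∈ T, R z := by
  constructor
  · intro h z hz
    have := h (T.equivFin ⟨z, hz⟩)
    rwa [Equiv.symm_apply_apply] at this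
  · intro h l
    exact h _ (T.equivFin.symm l).2

theorem prod_T (T : Finset ι) (F : ι → ℕ) : ∏ l : Fin T.card, F (T.equivFin.symm l : ι) = ∏ z ∈ T, F z := by
  rw [← Finset.prod_coe_sort T F]
  exact Equiv.prod_comp T.equivFin.symm (fun x : T => F x)

theorem famMK (P : ι → ℤ[X]) (v : ι → ℤ → ℤ) (hv : ∀ z x, (P z).eval x = v z x) (d : ι → ℕ)
    (S : Fin k → ι) (hd : ∀ l, (P (S l)).natDegree = d (S l)) (hd1 : ∀ l, 1 ≤ d (S l))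
    (D : ℕ) (hD : ∑ l, d (S l) = D) (i j : Fin k) (hi : d (S i) = 1) (hj : d (S j) = 1)
    (hdet : (P (S i)).coeff 1 * (P (S j)).coeff 0 ≠ (P (S j)).coeff 1 * (P (S i)).coeff 0)
    (T : Finset ι) (n₀ Q : ℕ) (hQ : 1 ≤ Q) (hS : ∀ l, v (S l) n₀ ≠ 0) (hT : ∀ z ∈ T, v z n₀ ≠ 0)
    (hG : ∀ z ∈ T, P z ≠ 0 ∧ ∃ α : ℂ, aeval α (P z) = 0 ∧ ∀ l, aeval α (P (S l)) ≠ 0) :
    ∃ C t : ℕ, 1 ≤ t ∧ ∃ κ : ℝ, 0 < κ ∧ ∀ (s r : ℕ) (θ δ : ℝ), 1 ≤ s → 0 < θ → 0 < δ → ∃ c X₀ : ℕ, ∀ X : ℕ, X₀ ≤ X →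
      κ / Real.log X ^ D ≤ VFM v S T n₀ Q X ∧
      ∀ A B : ℕ, B ≤ X → θ * X ≤ (B : ℝ) - A →
        κ * ((B : ℝ) - A) * VFM v S T n₀ Q X ≤ ((GFM v d S T i j n₀ Q C t X A B).card : ℝ) ∧
        ∀ χ : ℕ → Fin r, ∃ P : Finset (ℕ × ℕ),
          (∀ z ∈ P, 1 ≤ z.2 ∧ (z.2 : ℝ) ≤ Real.log X ^ c ∧
            ∀ l < s, z.1 + l * z.2 ∈ GFM v d S T i j n₀ Q C t X A B ∧ χ (z.1 + l * z.2) = χ z.1) ∧
          (P : Set (ℕ × ℕ)).PairwiseDisjoint (apSet s) ∧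
          (((GFM v d S T i j n₀ Q C t X A B \ P.biUnion (apSet s)).card : ℕ) : ℝ) ≤
            δ * ((B : ℝ) - A) * VFM v S T n₀ Q X := by
  classical
  obtain ⟨f, hf⟩ : ∃ f : Fin k → ℤ[X], f = fun l => P (S l) := ⟨_, rfl⟩
  have hfl : ∀ l, f l = P (S l) := fun l => by rw [hf]
  obtain ⟨g, hg⟩ : ∃ g : Fin T.card → ℤ[X], g = fun l => P (T.equivFin.symm l : ι) := ⟨_, rfl⟩
  have hgl : ∀ l, g l = P (T.equivFin.symm l : ι) := fun l => by rw [hg]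
  have ho : ∀ p, om f p = omF v S p := by
    intro p
    unfold om omF
    simp only [hfl, hv]
  have hz : zMK f g n₀ Q = zFM v S T n₀ Q := by
    unfold zMK zFM
    simp only [hfl, hgl, hv]
    rw [prod_T T (fun z => (v z n₀).natAbs)]
  have hV : ∀ n, VZ f (zMK f g n₀ Q) n = VFM v S T n₀ Q n := fun n => by
    unfold VZ VFM
    rw [hz]
    exact prod_congr rfl fun p _ => by rw [ho]
  have hGG : ∀ C t X A B, GMK f g n₀ Q i j C t X A B = GFM v d S T i j n₀ Q C t X A B := by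
    intro C t X A B
    ext n
    unfold GMK GFM
    simp only [mem_filter, hfl, hgl, hv, hd, mul_comm t]
    refine and_congr_right fun _ => and_congr_right fun _ => ?_
    exact fin_T T (R := fun z => ∃ w : ℤ, v z n = v z n₀ * w ∧ w ≡ 1 [ZMOD (Q : ℤ)] ∧
      ∃ q : ℕ, q.Prime ∧ q ≤ C ∧ (q : ℤ) ∣ w)
  obtain ⟨C, t, ht, κ, hκ, HH⟩ := modelK f (fun l => by rw [hfl, hd]; exact hd1 l) i j
    (by rw [hfl, hd]; exact hi) (by rw [hfl, hd]; exact hj) (by rw [hfl, hfl]; exact hdet) g n₀ Q hQ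
    (fun l => by rw [hfl, hv]; exact hS l)
    (fun l => by rw [hgl, hv]; exact hT _ (T.equivFin.symm l).2)
    (fun l => by
      obtain ⟨h0, α, hα, hα2⟩ := hG _ (T.equivFin.symm l).2
      rw [hgl]
      exact ⟨h0, α, hα, fun l' h => hα2 l' (by rwa [hfl] at h)⟩)
  refine ⟨C, t, ht, κ, hκ, fun s r θ δ hs hθ hδ => ?_⟩
  obtain ⟨c, X₀, hX⟩ := HH s r θ δ hs hθ hδ
  refine ⟨c, X₀, fun X hXX => ?_⟩
  have := hX X hXX
  have hsum : ∑ l, (f l).natDegree = D := by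
    simp only [hfl, hd]
    exact hD
  simp only [hV, hGG, hsum] at this
  exact this

theorem famMKS (P : ι → ℤ[X]) (v : ι → ℤ → ℤ) (hv : ∀ z x, (P z).eval x = v z x) (d : ι → ℕ) (hk : 0 < k)
    (S : Fin k → ι) (hd : ∀ l, (P (S l)).natDegree = d (S l)) (hd1 : ∀ l, 1 ≤ d (S l))
    (D : ℕ) (hD : ∑ l, d (S l) = D)
    (T : Finset ι) (n₀ Q : ℕ) (hQ : 1 ≤ Q) (hS : ∀ l, v (S l) n₀ ≠ 0) (hT : ∀ z ∈ T, v z n₀ ≠ 0)
    (hG : ∀ z ∈ T, P z ≠ 0 ∧ ∃ α : ℂ, aeval α (P z) = 0 ∧ ∀ l, aeval α (P (S l)) ≠ 0) (ε : ℝ) (hε : 0 < ε) :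
    ∃ C t : ℕ, 1 ≤ t ∧ ∃ κ : ℝ, 0 < κ ∧ ∀ (s r : ℕ) (δ : ℝ), 1 ≤ s → 0 < δ → ∃ c X₀ : ℕ, ∀ X : ℕ, X₀ ≤ X →
      κ / Real.log X ^ D ≤ VFM v S T n₀ Q X ∧
      ∀ A B : ℕ, B ≤ X → (X : ℝ) ^ ε ≤ (B : ℝ) - A →
        κ * ((B : ℝ) - A) * VFM v S T n₀ Q X ≤ ((GFMS v d S T n₀ Q C t X A B).card : ℝ) ∧
        ∀ χ : ℕ → Fin r, ∃ P : Finset (ℕ × ℕ),
          (∀ z ∈ P, 1 ≤ z.2 ∧ (z.2 : ℝ) ≤ Real.log X ^ c ∧
            ∀ l < s, z.1 + l * z.2 ∈ GFMS v d S T n₀ Q C t X A B ∧ χ (z.1 + l * z.2) = χ z.1) ∧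
          (P : Set (ℕ × ℕ)).PairwiseDisjoint (apSet s) ∧
          (((GFMS v d S T n₀ Q C t X A B \ P.biUnion (apSet s)).card : ℕ) : ℝ) ≤
            δ * ((B : ℝ) - A) * VFM v S T n₀ Q X := by
  classical
  obtain ⟨f, hf⟩ : ∃ f : Fin k → ℤ[X], f = fun l => P (S l) := ⟨_, rfl⟩
  have hfl : ∀ l, f l = P (S l) := fun l => by rw [hf]
  obtain ⟨g, hg⟩ : ∃ g : Fin T.card → ℤ[X], g = fun l => P (T.equivFin.symm l : ι) := ⟨_, rfl⟩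
  have hgl : ∀ l, g l = P (T.equivFin.symm l : ι) := fun l => by rw [hg]
  have ho : ∀ p, om f p = omF v S p := by
    intro p
    unfold om omF
    simp only [hfl, hv]
  have hz : zMK f g n₀ Q = zFM v S T n₀ Q := by
    unfold zMK zFM
    simp only [hfl, hgl, hv]
    rw [prod_T T (fun z => (v z n₀).natAbs)]
  have hV : ∀ n, VZ f (zMK f g n₀ Q) n = VFM v S T n₀ Q n := fun n => by
    unfold VZ VFM
    rw [hz]
    exact prod_congr rfl fun p _ => by rw [ho]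
  have hGG : ∀ C t X A B, GMKS f g n₀ Q C t X A B = GFMS v d S T n₀ Q C t X A B := by
    intro C t X A B
    ext n
    unfold GMKS GFMS
    simp only [mem_filter, hfl, hgl, hv, hd, mul_comm t]
    refine and_congr_right fun _ => and_congr_right fun _ => ?_
    exact fin_T T (R := fun z => ∃ w : ℤ, v z n = v z n₀ * w ∧ w ≡ 1 [ZMOD (Q : ℤ)] ∧
      ∃ q : ℕ, q.Prime ∧ q ≤ C ∧ (q : ℤ) ∣ w)
  obtain ⟨C, t, ht, κ, hκ, HH⟩ := modelKS f hk (fun l => by rw [hfl, hd]; exact hd1 l) g n₀ Q hQ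
    (fun l => by rw [hfl, hv]; exact hS l)
    (fun l => by rw [hgl, hv]; exact hT _ (T.equivFin.symm l).2)
    (fun l => by
      obtain ⟨h0, α, hα, hα2⟩ := hG _ (T.equivFin.symm l).2
      rw [hgl]
      exact ⟨h0, α, hα, fun l' h => hα2 l' (by rwa [hfl] at h)⟩) ε hε
  refine ⟨C, t, ht, κ, hκ, fun s r δ hs hδ => ?_⟩
  obtain ⟨c, X₀, hX⟩ := HH s r δ hs hδ
  refine ⟨c, X₀, fun X hXX => ?_⟩
  have := hX X hXX
  have hsum : ∑ l, (f l).natDegree = D := by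
    simp only [hfl, hd]
    exact hD
  simp only [hV, hGG, hsum] at this
  exact this

end Pool.Agent.X32.Uni
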