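import Pool.Agent.X32.Uni.ModZ2
import Pool.Agent.X32.Uni.FamB

/-!
Families of polynomials: prescribed smooth parts.
-/

set_option autoImplicit false

namespace Pool.Agent.X32.Uni

open Finset
open Polynomial (C X aeval)
open scoped Polynomial

variable {k : ℕ} {ι : Type}

/-- the product of `1 - ω(p) / p` over the primes of `(z, X]` -/
noncomputable def VFZ (v : ι → ℤ → ℤ) (S : Fin k → ι) (z X : ℕ) : ℝ :=
  ∏ p ∈ (Ioc z X).filter Nat.Prime, (1 - (omF v S p : ℝ) / p)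

open Classical in
/-- the good `n` -/
noncomputable def GFZ (v : ι → ℤ → ℤ) (d : ι → ℕ) (S : Fin k → ι) (T : Finset ι) (i j : Fin k) (n₀ z Q C t X A B : ℕ) :
    Finset ℕ :=
  (Ioc A B).filter (fun n : ℕ => n ≡ n₀ [MOD Q] ∧ (∃ w : Fin k → ℤ,
    (∀ l, v (S l) n = sm z (v (S l) n₀) * w l ∧ Almost (d (S l) * t) ((X : ℝ) ^ (1 / (t : ℝ))) (w l)) ∧
    (w i).natAbs.Prime ∧ Almost 2 ((X : ℝ) ^ (1 / 9 : ℝ)) (w j)) ∧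
    ∀ τ ∈ T, ∃ w : ℤ, v τ n = sm z (v τ n₀) * w ∧ ∃ q : ℕ, q.Prime ∧ z < q ∧ q ≤ C ∧ (q : ℤ) ∣ w)

open Classical in
/-- the good `n` -/
noncomputable def GFZS (v : ι → ℤ → ℤ) (d : ι → ℕ) (S : Fin k → ι) (T : Finset ι) (n₀ z Q C t X A B : ℕ) :
    Finset ℕ :=
  (Ioc A B).filter (fun n : ℕ => n ≡ n₀ [MOD Q] ∧ (∃ w : Fin k → ℤ,
    ∀ l, v (S l) n = sm z (v (S l) n₀) * w l ∧ Almost (d (S l) * t) ((X : ℝ) ^ (1 / (t : ℝ))) (w l)) ∧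
    ∀ τ ∈ T, ∃ w : ℤ, v τ n = sm z (v τ n₀) * w ∧ ∃ q : ℕ, q.Prime ∧ z < q ∧ q ≤ C ∧ (q : ℤ) ∣ w)

theorem famZ (P : ι → ℤ[X]) (v : ι → ℤ → ℤ) (hv : ∀ z x, (P z).eval x = v z x) (d : ι → ℕ)
    (S : Fin k → ι) (hd : ∀ l, (P (S l)).natDegree = d (S l)) (hd1 : ∀ l, 1 ≤ d (S l))
    (D : ℕ) (hD : ∑ l, d (S l) = D) (i j : Fin k) (hi : d (S i) = 1) (hj : d (S j) = 1)
    (hdet : (P (S i)).coeff 1 * (P (S j)).coeff 0 ≠ (P (S j)).coeff 1 * (P (S i)).coeff 0)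
    (T : Finset ι) (n₀ z Q : ℕ) (hQ : 1 ≤ Q) (hQz : ∀ p : ℕ, p.Prime → p ∣ Q → p ≤ z)
    (hS : ∀ l, v (S l) n₀ ≠ 0) (hT : ∀ τ ∈ T, v τ n₀ ≠ 0)
    (hlz : ∀ p : ℕ, p.Prime → z < p → ∃ x : ℤ, ∀ l, ¬ (p : ℤ) ∣ v (S l) x)
    (hG : ∀ τ ∈ T, P τ ≠ 0 ∧ ∃ α : ℂ, aeval α (P τ) = 0 ∧ ∀ l, aeval α (P (S l)) ≠ 0) :
    ∃ C t : ℕ, 1 ≤ t ∧ ∃ κ : ℝ, 0 < κ ∧ ∀ (s r : ℕ) (θ δ : ℝ), 1 ≤ s → 0 < θ → 0 < δ → ∃ c X₀ : ℕ, ∀ X : ℕ, X₀ ≤ X →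
      κ / Real.log X ^ D ≤ VFZ v S z X ∧
      ∀ A B : ℕ, B ≤ X → θ * X ≤ (B : ℝ) - A →
        κ * ((B : ℝ) - A) * VFZ v S z X ≤ ((GFZ v d S T i j n₀ z Q C t X A B).card : ℝ) ∧
        ∀ χ : ℕ → Fin r, ∃ P : Finset (ℕ × ℕ),
          (∀ τ ∈ P, 1 ≤ τ.2 ∧ (τ.2 : ℝ) ≤ Real.log X ^ c ∧
            ∀ l < s, τ.1 + l * τ.2 ∈ GFZ v d S T i j n₀ z Q C t X A B ∧ χ (τ.1 + l * τ.2) = χ τ.1) ∧
          (P : Set (ℕ × ℕ)).PairwiseDisjoint (apSet s) ∧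
          (((GFZ v d S T i j n₀ z Q C t X A B \ P.biUnion (apSet s)).card : ℕ) : ℝ) ≤
            δ * ((B : ℝ) - A) * VFZ v S z X := by
  classical
  obtain ⟨f, hf⟩ : ∃ f : Fin k → ℤ[X], f = fun l => P (S l) := ⟨_, rfl⟩
  have hfl : ∀ l, f l = P (S l) := fun l => by rw [hf]
  obtain ⟨g, hg⟩ : ∃ g : Fin T.card → ℤ[X], g = fun l => P (T.equivFin.symm l : ι) := ⟨_, rfl⟩
  have hgl : ∀ l, g l = P (T.equivFin.symm l : ι) := fun l => by rw [hg]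
  have ho : ∀ p, om f p = omF v S p := by
    intro p
    unfold om omF
    simp only [hfl, hv]
  have hV : ∀ n, VZ f z n = VFZ v S z n := fun n => by
    unfold VZ VFZ
    exact prod_congr rfl fun p _ => by rw [ho]
  have hlf : ∀ p : ℕ, p.Prime → z < p → ∃ x : ℤ, ¬ (p : ℤ) ∣ ∏ l, (f l).eval x := by
    intro p hp hzp
    obtain ⟨x, hx⟩ := hlz p hp hzp
    refine ⟨x, fun hd => ?_⟩
    obtain ⟨l, _, hl⟩ := (Nat.prime_iff_prime_int.1 hp).exists_mem_finset_dvd hd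
    rw [hfl, hv] at hl
    exact hx l hl
  have hGG : ∀ C t X A B, GMZ f g n₀ z Q i j C t X A B = GFZ v d S T i j n₀ z Q C t X A B := by
    intro C t X A B
    ext n
    unfold GMZ GFZ
    simp only [mem_filter, hfl, hgl, hv, hd, mul_comm t]
    refine and_congr_right fun _ => and_congr_right fun _ => and_congr_right fun _ => ?_
    exact fin_T T (R := fun τ => ∃ w : ℤ, v τ n = sm z (v τ n₀) * w ∧
      ∃ q : ℕ, q.Prime ∧ z < q ∧ q ≤ C ∧ (q : ℤ) ∣ w)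
  obtain ⟨C, t, ht, κ, hκ, HH⟩ := modelZ f (fun l => by rw [hfl, hd]; exact hd1 l) i j
    (by rw [hfl, hd]; exact hi) (by rw [hfl, hd]; exact hj) (by rw [hfl, hfl]; exact hdet) g n₀ z Q hQ hQz
    (fun l => by rw [hfl, hv]; exact hS l) hlf
    (fun l => by rw [hgl, hv]; exact hT _ (T.equivFin.symm l).2)
    (fun l => by
      obtain ⟨h0, α, hα, hα2⟩ := hG _ (T.equivFin.symm l).2
      rw [hgl]
      exact ⟨h0, α, hα, fun l' h => hα2 l' (by rwa [hfl] at h)⟩)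
  refine ⟨C, t, ht, κ, hκ, fun s r θ δ hs hθ hδ => ?_⟩
  obtain ⟨c, X₀, hX⟩ := HH s r θ δ hs hθ hδ
  refine ⟨c, X₀, fun X hXX => ?_⟩
  have := hX X hXX
  have hsum : ∑ l, (f l).natDegree = D := by
    simp only [hfl, hd]
    exact hD
  simp only [hV, hGG, hsum] at this
  exact this

theorem famZS (P : ι → ℤ[X]) (v : ι → ℤ → ℤ) (hv : ∀ z x, (P z).eval x = v z x) (d : ι → ℕ) (hk : 0 < k)
    (S : Fin k → ι) (hd : ∀ l, (P (S l)).natDegree = d (S l)) (hd1 : ∀ l, 1 ≤ d (S l))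
    (D : ℕ) (hD : ∑ l, d (S l) = D)
    (T : Finset ι) (n₀ z Q : ℕ) (hQ : 1 ≤ Q) (hQz : ∀ p : ℕ, p.Prime → p ∣ Q → p ≤ z)
    (hS : ∀ l, v (S l) n₀ ≠ 0) (hT : ∀ τ ∈ T, v τ n₀ ≠ 0)
    (hlz : ∀ p : ℕ, p.Prime → z < p → ∃ x : ℤ, ∀ l, ¬ (p : ℤ) ∣ v (S l) x)
    (hG : ∀ τ ∈ T, P τ ≠ 0 ∧ ∃ α : ℂ, aeval α (P τ) = 0 ∧ ∀ l, aeval α (P (S l)) ≠ 0) (ε : ℝ) (hε : 0 < ε) :
    ∃ C t : ℕ, 1 ≤ t ∧ ∃ κ : ℝ, 0 < κ ∧ ∀ (s r : ℕ) (δ : ℝ), 1 ≤ s → 0 < δ → ∃ c X₀ : ℕ, ∀ X : ℕ, X₀ ≤ X →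
      κ / Real.log X ^ D ≤ VFZ v S z X ∧
      ∀ A B : ℕ, B ≤ X → (X : ℝ) ^ ε ≤ (B : ℝ) - A →
        κ * ((B : ℝ) - A) * VFZ v S z X ≤ ((GFZS v d S T n₀ z Q C t X A B).card : ℝ) ∧
        ∀ χ : ℕ → Fin r, ∃ P : Finset (ℕ × ℕ),
          (∀ τ ∈ P, 1 ≤ τ.2 ∧ (τ.2 : ℝ) ≤ Real.log X ^ c ∧
            ∀ l < s, τ.1 + l * τ.2 ∈ GFZS v d S T n₀ z Q C t X A B ∧ χ (τ.1 + l * τ.2) = χ τ.1) ∧
          (P : Set (ℕ × ℕ)).PairwiseDisjoint (apSet s) ∧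
          (((GFZS v d S T n₀ z Q C t X A B \ P.biUnion (apSet s)).card : ℕ) : ℝ) ≤
            δ * ((B : ℝ) - A) * VFZ v S z X := by
  classical
  obtain ⟨f, hf⟩ : ∃ f : Fin k → ℤ[X], f = fun l => P (S l) := ⟨_, rfl⟩
  have hfl : ∀ l, f l = P (S l) := fun l => by rw [hf]
  obtain ⟨g, hg⟩ : ∃ g : Fin T.card → ℤ[X], g = fun l => P (T.equivFin.symm l : ι) := ⟨_, rfl⟩
  have hgl : ∀ l, g l = P (T.equivFin.symm l : ι) := fun l => by rw [hg]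
  have ho : ∀ p, om f p = omF v S p := by
    intro p
    unfold om omF
    simp only [hfl, hv]
  have hV : ∀ n, VZ f z n = VFZ v S z n := fun n => by
    unfold VZ VFZ
    exact prod_congr rfl fun p _ => by rw [ho]
  have hlf : ∀ p : ℕ, p.Prime → z < p → ∃ x : ℤ, ¬ (p : ℤ) ∣ ∏ l, (f l).eval x := by
    intro p hp hzp
    obtain ⟨x, hx⟩ := hlz p hp hzp
    refine ⟨x, fun hd => ?_⟩
    obtain ⟨l, _, hl⟩ := (Nat.prime_iff_prime_int.1 hp).exists_mem_finset_dvd hd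
    rw [hfl, hv] at hl
    exact hx l hl
  have hGG : ∀ C t X A B, GMZS f g n₀ z Q C t X A B = GFZS v d S T n₀ z Q C t X A B := by
    intro C t X A B
    ext n
    unfold GMZS GFZS
    simp only [mem_filter, hfl, hgl, hv, hd, mul_comm t]
    refine and_congr_right fun _ => and_congr_right fun _ => and_congr_right fun _ => ?_
    exact fin_T T (R := fun τ => ∃ w : ℤ, v τ n = sm z (v τ n₀) * w ∧
      ∃ q : ℕ, q.Prime ∧ z < q ∧ q ≤ C ∧ (q : ℤ) ∣ w)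
  obtain ⟨C, t, ht, κ, hκ, HH⟩ := modelZS f hk (fun l => by rw [hfl, hd]; exact hd1 l) g n₀ z Q hQ hQz
    (fun l => by rw [hfl, hv]; exact hS l) hlf
    (fun l => by rw [hgl, hv]; exact hT _ (T.equivFin.symm l).2)
    (fun l => by
      obtain ⟨h0, α, hα, hα2⟩ := hG _ (T.equivFin.symm l).2
      rw [hgl]
      exact ⟨h0, α, hα, fun l' h => hα2 l' (by rwa [hfl] at h)⟩) ε hε
  refine ⟨C, t, ht, κ, hκ, fun s r δ hs hδ => ?_⟩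
  obtain ⟨c, X₀, hX⟩ := HH s r δ hs hδ
  refine ⟨c, X₀, fun X hXX => ?_⟩
  have := hX X hXX
  have hsum : ∑ l, (f l).natDegree = D := by
    simp only [hfl, hd]
    exact hD
  simp only [hV, hGG, hsum] at this
  exact this

end Pool.Agent.X32.Uni
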