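import Pool.Agent.X32.Uni.Tup

/-!
Simultaneous representations `m_l = p + q_l`.
-/

set_option autoImplicit false

namespace Pool.Agent.X32.Uni

open Finset Filter

variable {K : ℕ}

/-- the number of the residue classes of `0, m_1, ..., m_K` modulo `p` -/
def nuG (m : Fin K → ℕ) (p : ℕ) : ℕ := ((insert 0 (univ.image m)).image (fun a => a % p)).card

/-- the product over the primes `p ≤ X` -/
noncomputable def VG (m : Fin K → ℕ) (X : ℕ) : ℝ := ∏ p ∈ (Icc 1 X).filter Nat.Prime, (1 - (nuG m p : ℝ) / p)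

/-- no local obstruction -/
def AdmG (m : Fin K → ℕ) : Prop := ∀ p : ℕ, p.Prime → ∃ n : ℕ, ¬ p ∣ n ∧ ∀ l, ¬ n ≡ m l [MOD p]

/-- `v > 1` is a product of at most `r` primes, all of them larger than `y` -/
def AlmostN (r : ℕ) (y : ℝ) (v : ℕ) : Prop :=
  1 < v ∧ v.primeFactorsList.length ≤ r ∧ ∀ q : ℕ, q.Prime → q ∣ v → y < q

theorem almostN_iff (r : ℕ) (y : ℝ) (v : ℕ) : Almost r y (v : ℤ) ↔ AlmostN r y v := by
  unfold Almost AlmostN
  rw [Nat.abs_cast, Int.natAbs_natCast]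
  constructor
  · rintro ⟨h1, h2, h3⟩
    exact ⟨by exact_mod_cast h1, h2, fun q hq hd => h3 q hq (Int.natCast_dvd_natCast.2 hd)⟩
  · rintro ⟨h1, h2, h3⟩
    exact ⟨by exact_mod_cast h1, h2, fun q hq hd => h3 q hq (Int.natCast_dvd_natCast.1 hd)⟩

open Classical in
/-- the good primes -/
noncomputable def GG (m : Fin K → ℕ) (j : Fin K) (t X A B : ℕ) : Finset ℕ :=
  (Ioc A B).filter (fun p : ℕ => p.Prime ∧ (X : ℝ) ^ (1 / (t : ℝ)) < p ∧
    AlmostN 2 ((X : ℝ) ^ (1 / 9 : ℝ)) (m j - p) ∧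
    ∀ l, AlmostN t ((X : ℝ) ^ (1 / (t : ℝ))) (m l - p))

/-- slopes and constant terms -/
def uG (K : ℕ) : Fin (K + 1) → ℤ := Fin.cons 1 (fun _ => -1)
def vG (m : Fin K → ℕ) : Fin (K + 1) → ℤ := Fin.cons 0 (fun l => (m l : ℤ))

theorem uG0 : uG K 0 = 1 := rfl
theorem uGs (l : Fin K) : uG K l.succ = -1 := rfl
theorem vG0 (m : Fin K → ℕ) : vG m 0 = 0 := rfl
theorem vGs (m : Fin K → ℕ) (l : Fin K) : vG m l.succ = (m l : ℤ) := rfl

theorem omG (m : Fin K → ℕ) {p : ℕ} (hp : p.Prime) : omL (uG K) (vG m) p = nuG m p := by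
  classical
  unfold omL nuG
  congr 1
  ext n
  rw [mem_filter, mem_image, mem_range]
  have hpi := Nat.prime_iff_prime_int.1 hp
  constructor
  · rintro ⟨hn, hd⟩
    obtain ⟨i, _, hi⟩ := hpi.exists_mem_finset_dvd hd
    revert hi
    refine Fin.cases ?_ (fun l => ?_) i
    · intro hi
      rw [uG0, vG0, one_mul, add_zero] at hi
      refine ⟨0, mem_insert_self _ _, ?_⟩
      have h1 : p ∣ n := Int.natCast_dvd_natCast.1 hi
      rw [Nat.zero_mod]
      exact (Nat.eq_zero_of_dvd_of_lt h1 hn).symm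
    · intro hi
      rw [uGs, vGs] at hi
      refine ⟨m l, mem_insert_of_mem (mem_image_of_mem _ (mem_univ l)), ?_⟩
      have h1 : (n : ℤ) ≡ m l [ZMOD p] := by
        rw [Int.modEq_iff_dvd]
        have h2 : (m l : ℤ) - n = -1 * n + m l := by ring
        rw [h2]
        exact hi
      have h2 : n ≡ m l [MOD p] := Int.natCast_modEq_iff.1 h1
      unfold Nat.ModEq at h2
      rw [Nat.mod_eq_of_lt hn] at h2
      exact h2.symm
  · rintro ⟨a, ha, rfl⟩
    refine ⟨Nat.mod_lt _ hp.pos, ?_⟩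
    rcases mem_insert.1 ha with h | h
    · rw [h]
      refine Dvd.dvd.trans ?_ (dvd_prod_of_mem _ (mem_univ (0 : Fin (K + 1))))
      rw [uG0, vG0]
      simp
    · obtain ⟨l, _, hl⟩ := mem_image.1 h
      refine Dvd.dvd.trans ?_ (dvd_prod_of_mem _ (mem_univ (l.succ : Fin (K + 1))))
      rw [uGs, vGs, hl]
      have h1 : (-1 : ℤ) * ((a % p : ℕ) : ℤ) + (a : ℤ) = (a : ℤ) - (a : ℤ) % (p : ℤ) := by
        push_cast
        ring
      rw [h1]
      exact Int.dvd_self_sub_emod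

theorem VG_eq (m : Fin K → ℕ) (X : ℕ) : VL (uG K) (vG m) X = VG m X := by
  unfold VL VG
  apply Finset.prod_congr rfl
  intro p hp
  rw [omG m (mem_filter.1 hp).2]

theorem admG {m : Fin K → ℕ} (h : AdmG m) : AdmL (uG K) (vG m) := by
  intro p hp
  obtain ⟨n, h1, h2⟩ := h p hp
  refine ⟨n, fun i => ?_⟩
  refine Fin.cases ?_ (fun l => ?_) i
  · rw [uG0, vG0, one_mul, add_zero]
    intro h3
    exact h1 (Int.natCast_dvd_natCast.1 h3)
  · rw [uGs, vGs]
    intro h3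
    apply h2 l
    apply Int.natCast_modEq_iff.1
    rw [Int.modEq_iff_dvd]
    have h4 : (m l : ℤ) - n = -1 * n + m l := by ring
    rw [h4]
    exact h3

theorem GG_eq (m : Fin K → ℕ) (j : Fin K) (t X A B : ℕ) (ht : 1 ≤ t) (hm : ∀ l, B ≤ m l) :
    GoodL (uG K) (vG m) 0 j.succ t X A B = GG m j t X A B := by
  classical
  ext p
  unfold GoodL GG
  rw [mem_filter, mem_filter]
  refine and_congr_right (fun hp => ?_)
  rw [mem_Ioc] at hp
  have hv0 : uG K 0 * (p : ℤ) + vG m 0 = (p : ℤ) := by rw [uG0, vG0]; ring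
  have hvs : ∀ l : Fin K, uG K l.succ * (p : ℤ) + vG m l.succ = ((m l - p : ℕ) : ℤ) := by
    intro l
    rw [uGs, vGs, Nat.cast_sub (hp.2.trans (hm l))]
    ring
  rw [hv0, hvs, Int.natAbs_natCast, almostN_iff]
  constructor
  · rintro ⟨h1, h2, h3⟩
    refine ⟨h1, ?_, h2, fun l => ?_⟩
    · have := h3 0
      rw [hv0] at this
      exact this.2.2 p h1 dvd_rfl
    · have := h3 l.succ
      rw [hvs, almostN_iff] at this
      exact this
  · rintro ⟨h1, h2, h3, h4⟩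
    refine ⟨h1, h3, fun i => ?_⟩
    refine Fin.cases ?_ (fun l => ?_) i
    · rw [hv0, almostN_iff]
      refine ⟨h1.one_lt, ?_, ?_⟩
      · rw [Nat.primeFactorsList_prime h1]
        exact ht
      · intro q hq hqd
        rw [(Nat.prime_dvd_prime_iff_eq hq h1).1 hqd]
        exact h2
    · rw [hvs, almostN_iff]
      exact h4 l

/-- simultaneous representations, uniformly -/
theorem goldP (K : ℕ) : ∃ t : ℕ, 1 ≤ t ∧ ∃ κ : ℝ, 0 < κ ∧ ∀ (D s r : ℕ) (θ δ : ℝ), 1 ≤ s → 0 < θ → 0 < δ →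
    ∃ c X₀ : ℕ, ∀ X : ℕ, X₀ ≤ X → ∀ m : Fin K → ℕ, (∀ l, m l ≤ D * X) → AdmG m → ∀ j : Fin K,
      ∀ A B : ℕ, B ≤ X → θ * X ≤ (B : ℝ) - A → (∀ l, B ≤ m l) →
        κ / Real.log X ^ (K + 1) ≤ VG m X ∧
        κ * ((B : ℝ) - A) * VG m X ≤ ((GG m j t X A B).card : ℝ) ∧
        ∀ χ : ℕ → Fin r, ∃ P : Finset (ℕ × ℕ),
          (∀ z ∈ P, 1 ≤ z.2 ∧ (z.2 : ℝ) ≤ Real.log X ^ c ∧
            ∀ i < s, z.1 + i * z.2 ∈ GG m j t X A B ∧ χ (z.1 + i * z.2) = χ z.1) ∧
          (P : Set (ℕ × ℕ)).PairwiseDisjoint (apSet s) ∧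
          (((GG m j t X A B \ P.biUnion (apSet s)).card : ℕ) : ℝ) ≤ δ * ((B : ℝ) - A) * VG m X := by
  obtain ⟨t, ht, κ, hκ, H⟩ := linP (K + 1) 1 (by omega)
  refine ⟨t, ht, κ, hκ, fun D s r θ δ hs hθ hδ => ?_⟩
  obtain ⟨c, X₀, h⟩ := H (D + 1) s r θ δ hs hθ hδ
  refine ⟨c, max X₀ 1, fun X hX m hm hadm j A B hB hAB hBm => ?_⟩
  have hX0 : X₀ ≤ X := (le_max_left _ _).trans hX
  have hX1 : 1 ≤ X := (le_max_right _ _).trans hX
  have hXr : (0 : ℝ) < X := by exact_mod_cast hX1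
  have hB0 : 0 < B := by
    have h1 : (0 : ℝ) < (B : ℝ) - A := lt_of_lt_of_le (by positivity) hAB
    have h2 : (0 : ℝ) < B := by linarith [(Nat.cast_nonneg A : (0 : ℝ) ≤ A)]
    exact_mod_cast h2
  have S : SysL (K + 1) 1 (D + 1) X (uG K) (vG m) 0 j.succ :=
    { a0 := fun i => by
        refine Fin.cases ?_ (fun l => ?_) i
        · rw [uG0]; exact one_ne_zero
        · rw [uGs]; norm_num
      aE := by rw [uG0]; simp
      aE' := by rw [uGs]; simp
      aK := fun i => by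
        refine Fin.cases ?_ (fun l => ?_) i
        · rw [uG0, abs_one]
          push_cast
          linarith [(Nat.cast_nonneg D : (0 : ℤ) ≤ D)]
        · rw [uGs, abs_neg, abs_one]
          push_cast
          linarith [(Nat.cast_nonneg D : (0 : ℤ) ≤ D)]
      bK := fun i => by
        refine Fin.cases ?_ (fun l => ?_) i
        · rw [vG0, abs_zero]
          positivity
        · rw [vGs, Nat.abs_cast]
          have h1 : ((m l : ℕ) : ℤ) ≤ ((D * X : ℕ) : ℤ) := by exact_mod_cast hm l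
          refine h1.trans ?_
          push_cast
          nlinarith [(Nat.cast_nonneg X : (0 : ℤ) ≤ X)]
      adm := admG hadm
      ne := fun h => by
        have h2 := (Prod.ext_iff.1 h).1
        simp only [uG0, uGs] at h2
        norm_num at h2
      ne' := fun h => by
        have h2 := (Prod.ext_iff.1 h).2
        simp only [vG0, vGs] at h2
        have h3 := hBm j
        omega }
  obtain ⟨h1, h2⟩ := h X hX0 _ _ _ _ S
  have h3 := h2 A B hB hAB
  rw [VG_eq] at h1 h3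
  rw [GG_eq m j t X A B ht hBm] at h3
  exact ⟨h1, h3⟩

end Pool.Agent.X32.Uni
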