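import Pool.Agent.X32.Uni.FamM

/-!
Arbitrary tuples of integers: exact model patterns.
-/

set_option autoImplicit false

namespace Pool.Agent.X32.Uni

open Finset
open Polynomial (C X aeval)
open scoped Polynomial

variable {k : ℕ}

/-- the value `x + h` -/
def vT1 (h : ℤ) (x : ℤ) : ℤ := x + h

/-- the other shifts -/
noncomputable def restT (a : Fin k → ℤ) (n₀ L : ℕ) : Finset ℤ :=
  (Icc (-(L : ℤ)) L).filter (fun h => (∀ l, a l ≠ h) ∧ (n₀ : ℤ) + h ≠ 0)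

theorem tupM (a : Fin k → ℤ) (hinj : Function.Injective a) (i j : Fin k) (hij : i ≠ j) (n₀ Q L : ℕ) (hQ : 1 ≤ Q)
    (hn₀ : ∀ l, (n₀ : ℤ) + a l ≠ 0) :
    ∃ C t : ℕ, 1 ≤ t ∧ ∃ κ : ℝ, 0 < κ ∧ ∀ (s r : ℕ) (θ δ : ℝ), 1 ≤ s → 0 < θ → 0 < δ → ∃ c X₀ : ℕ, ∀ X : ℕ, X₀ ≤ X →
      κ / Real.log X ^ k ≤ VFM vT1 a (restT a n₀ L) n₀ Q X ∧
      ∀ A B : ℕ, B ≤ X → θ * X ≤ (B : ℝ) - A →
        κ * ((B : ℝ) - A) * VFM vT1 a (restT a n₀ L) n₀ Q X ≤
          ((GFM vT1 (fun _ => 1) a (restT a n₀ L) i j n₀ Q C t X A B).card : ℝ) ∧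
        ∀ χ : ℕ → Fin r, ∃ P : Finset (ℕ × ℕ),
          (∀ z ∈ P, 1 ≤ z.2 ∧ (z.2 : ℝ) ≤ Real.log X ^ c ∧
            ∀ l < s, z.1 + l * z.2 ∈ GFM vT1 (fun _ => 1) a (restT a n₀ L) i j n₀ Q C t X A B ∧
              χ (z.1 + l * z.2) = χ z.1) ∧
          (P : Set (ℕ × ℕ)).PairwiseDisjoint (apSet s) ∧
          (((GFM vT1 (fun _ => 1) a (restT a n₀ L) i j n₀ Q C t X A B \ P.biUnion (apSet s)).card : ℕ) : ℝ) ≤
            δ * ((B : ℝ) - A) * VFM vT1 a (restT a n₀ L) n₀ Q X := by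
  classical
  have h1 : ∀ h : ℤ, (X + C h : ℤ[X]).coeff 1 = 1 := fun h => by
    rw [Polynomial.coeff_add, Polynomial.coeff_X_one, Polynomial.coeff_C, if_neg one_ne_zero, add_zero]
  have h0 : ∀ h : ℤ, (X + C h : ℤ[X]).coeff 0 = h := fun h => by
    rw [Polynomial.coeff_add, Polynomial.coeff_X_zero, Polynomial.coeff_C_zero, zero_add]
  refine famMK (fun h : ℤ => X + C h) vT1 (fun h x => by unfold vT1; simp) (fun _ => 1) a
    (fun l => Polynomial.natDegree_X_add_C _) (fun _ => le_rfl) k (by simp) i j rfl rfl ?_ (restT a n₀ L) n₀ Q hQ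
    (fun l => by unfold vT1; exact hn₀ l) ?_ ?_
  · rw [h1, h1, h0, h0, one_mul, one_mul]
    intro h
    exact hij (hinj h).symm
  · intro h hh
    unfold restT at hh
    rw [mem_filter] at hh
    exact hh.2.2
  · intro h hh
    unfold restT at hh
    rw [mem_filter] at hh
    refine ⟨Polynomial.X_add_C_ne_zero h, -(h : ℂ), by simp, fun l hl => ?_⟩
    apply hh.2.1 l
    simp only [map_add, Polynomial.aeval_X, Polynomial.aeval_C] at hl
    have h2 : ((a l : ℤ) : ℂ) = (h : ℂ) := by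
      have h3 : (algebraMap ℤ ℂ) (a l) = ((a l : ℤ) : ℂ) := rfl
      rw [h3] at hl
      linear_combination hl
    exact_mod_cast h2

end Pool.Agent.X32.Uni
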