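import Pool.Agent.X32.Uni.FamZ
import Pool.Agent.X32.Uni.ModT
import Pool.Agent.X32.Uni.Gold

/-!
Five consecutive odd integers.
-/

set_option autoImplicit false

namespace Pool.Agent.X32.Uni

open Finset
open Polynomial (C X aeval)
open scoped Polynomial

/-- the shifts `0, 2, 4, 6, 8` -/
def S5 (l : Fin 5) : ℤ := 2 * ((l : ℕ) : ℤ)

theorem om5 {p : ℕ} (hp : p.Prime) (h5 : 5 < p) : omF vT1 S5 p = 5 := by
  classical
  have hp0 : (0 : ℤ) < p := by exact_mod_cast hp.pos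
  have hpi := Nat.prime_iff_prime_int.1 hp
  have hp7 : (6 : ℤ) ≤ p := by exact_mod_cast h5
  obtain ⟨φ, hφ⟩ : ∃ φ : Fin 5 → ℕ, φ = fun l => ((-(S5 l)) % p).toNat := ⟨_, rfl⟩
  have hφz : ∀ l, ((φ l : ℕ) : ℤ) = (-(S5 l)) % p := by
    intro l
    rw [hφ]
    exact Int.toNat_of_nonneg (Int.emod_nonneg _ hp0.ne')
  have hφlt : ∀ l, φ l < p := by
    intro l
    have := Int.emod_lt_of_pos (-(S5 l)) hp0
    have h2 := hφz l
    omega
  have hφd : ∀ l, (p : ℤ) ∣ φ l + S5 l := by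
    intro l
    rw [hφz]
    have h1 : (-(S5 l)) % p ≡ -(S5 l) [ZMOD p] := Int.mod_modEq _ _
    have h2 := h1.add_right (S5 l)
    rw [neg_add_cancel] at h2
    exact (Int.modEq_zero_iff_dvd).1 h2
  have hinj : Function.Injective φ := by
    intro l l' hll
    have h1 := hφd l
    have h2 := hφd l'
    rw [hll] at h1
    have h3 := dvd_sub h1 h2
    have h4 : (φ l' : ℤ) + S5 l - (φ l' + S5 l') = 2 * (((l : ℕ) : ℤ) - ((l' : ℕ) : ℤ)) := by
      unfold S5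
      ring
    rw [h4] at h3
    have hl := l.2
    have hl' := l'.2
    rcases hpi.dvd_or_dvd h3 with h5 | h5
    · exact absurd (Int.le_of_dvd (by norm_num) h5) (by omega)
    · by_contra hne
      have hne' : ((l : ℕ) : ℤ) - ((l' : ℕ) : ℤ) ≠ 0 := by
        intro h
        apply hne
        ext
        omega
      have h6 := Int.le_of_dvd (abs_pos.2 hne') ((dvd_abs _ _).2 h5)
      have h7 : |((l : ℕ) : ℤ) - ((l' : ℕ) : ℤ)| ≤ 4 := by
        rw [abs_le]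
        constructor <;> omega
      omega
  have : (range p).filter (fun x : ℕ => (p : ℤ) ∣ ∏ l, vT1 (S5 l) (x : ℤ)) = univ.image φ := by
    ext x
    rw [mem_filter, mem_range, mem_image]
    constructor
    · rintro ⟨hx, hd⟩
      obtain ⟨l, _, hl⟩ := hpi.exists_mem_finset_dvd hd
      refine ⟨l, mem_univ _, ?_⟩
      unfold vT1 at hl
      have h3 := dvd_sub hl (hφd l)
      have h4 : (x : ℤ) + S5 l - (φ l + S5 l) = x - φ l := by ring
      rw [h4] at h3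
      have h5 : (φ l : ℤ) ≡ x [ZMOD p] := Int.modEq_iff_dvd.2 h3
      exact Nat.ModEq.eq_of_lt_of_lt (Int.natCast_modEq_iff.1 h5) (hφlt l) hx
    · rintro ⟨l, _, rfl⟩
      exact ⟨hφlt l, (hφd l).trans (dvd_prod_of_mem (fun i => vT1 (S5 i) (φ l : ℤ)) (mem_univ l))⟩
  unfold omF
  rw [this, card_image_of_injective _ hinj]
  simp

/-- the product of `1 - 5 / p` over the primes of `(z, X]` -/
noncomputable def V5 (z X : ℕ) : ℝ := ∏ p ∈ (Ioc z X).filter Nat.Prime, (1 - (5 : ℝ) / p)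

theorem V5_eq (z X : ℕ) (hz : 5 ≤ z) : VFZ vT1 S5 z X = V5 z X := by
  unfold VFZ V5
  apply Finset.prod_congr rfl
  intro p hp
  rw [mem_filter, mem_Ioc] at hp
  rw [om5 hp.2 (by omega)]
  norm_num

/-- the numbers `n, n + 2, (n + 4) / g, n + 6, n + 8` -/
def u5 (g n : ℕ) : Fin 5 → ℕ := ![n, n + 2, (n + 4) / g, n + 6, n + 8]

/-- the other shifts -/
noncomputable def T5 (L : ℕ) : Finset ℤ := (Icc (-(L : ℤ)) (L + 8)).filter (fun h => ∀ l : Fin 5, S5 l ≠ h)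

open Classical in
/-- the good `n` -/
noncomputable def G5 (L z n₀ Q : ℕ) (i j : Fin 5) (C t X A B : ℕ) : Finset ℕ :=
  (Ioc A B).filter (fun n : ℕ => n ≡ n₀ [MOD Q] ∧ sm z ((n₀ : ℤ) + 4) ∣ n + 4 ∧
    (∀ l, AlmostN t ((X : ℝ) ^ (1 / (t : ℝ))) (u5 (sm z ((n₀ : ℤ) + 4)) n l)) ∧
    (u5 (sm z ((n₀ : ℤ) + 4)) n i).Prime ∧ AlmostN 2 ((X : ℝ) ^ (1 / 9 : ℝ)) (u5 (sm z ((n₀ : ℤ) + 4)) n j) ∧
    ∀ h : ℤ, -(L : ℤ) ≤ h → h ≤ L + 8 → (∀ l : Fin 5, 2 * ((l : ℕ) : ℤ) ≠ h) →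
      ∃ w : ℤ, (n : ℤ) + h = sm z ((n₀ : ℤ) + h) * w ∧ ∃ q : ℕ, q.Prime ∧ z < q ∧ q ≤ C ∧ (q : ℤ) ∣ w)

theorem sm_one {z : ℕ} {a : ℤ} (h : ∀ p : ℕ, p.Prime → p ≤ z → ¬ (p : ℤ) ∣ a) : sm z a = 1 := by
  unfold sm
  apply prod_eq_one
  intro p hp
  rw [mem_filter, mem_range] at hp
  rw [Nat.factorization_eq_zero_of_not_dvd, pow_zero]
  intro hd
  exact h p hp.2 (by omega) (Int.natCast_dvd.2 hd)

theorem G5_eq (L z n₀ Q : ℕ) (hn₀ : ∀ p : ℕ, p.Prime → p ≤ z → ¬ p ∣ n₀ * (n₀ + 2) * (n₀ + 6) * (n₀ + 8))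
    (i j : Fin 5) (C t X A B : ℕ) :
    GFZ vT1 (fun _ => 1) S5 (T5 L) i j n₀ z Q C t X A B = G5 L z n₀ Q i j C t X A B := by
  classical
  obtain ⟨g, hg⟩ : ∃ g : ℕ, g = sm z ((n₀ : ℤ) + 4) := ⟨_, rfl⟩
  have hg0 : 0 < g := by rw [hg]; exact sm_pos _ _
  have hs : ∀ a : ℕ, a ∣ n₀ * (n₀ + 2) * (n₀ + 6) * (n₀ + 8) → sm z (a : ℤ) = 1 := fun a ha =>
    sm_one fun p hp hpz hd => hn₀ p hp hpz ((Int.natCast_dvd_natCast.1 hd).trans ha)
  have s0 : sm z (vT1 (S5 0) n₀) = 1 := by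
    have : vT1 (S5 0) n₀ = ((n₀ : ℕ) : ℤ) := by unfold vT1 S5; simp
    rw [this]
    exact hs _ ⟨(n₀ + 2) * (n₀ + 6) * (n₀ + 8), by ring⟩
  have s1 : sm z (vT1 (S5 1) n₀) = 1 := by
    have : vT1 (S5 1) n₀ = ((n₀ + 2 : ℕ) : ℤ) := by unfold vT1 S5; simp
    rw [this]
    exact hs _ ⟨n₀ * (n₀ + 6) * (n₀ + 8), by ring⟩
  have s2 : sm z (vT1 (S5 2) n₀) = g := by
    have : vT1 (S5 2) n₀ = (n₀ : ℤ) + 4 := by unfold vT1 S5; norm_num
    rw [this, hg]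
  have s3 : sm z (vT1 (S5 3) n₀) = 1 := by
    have : vT1 (S5 3) n₀ = ((n₀ + 6 : ℕ) : ℤ) := by unfold vT1 S5; push_cast; norm_num
    rw [this]
    exact hs _ ⟨n₀ * (n₀ + 2) * (n₀ + 8), by ring⟩
  have s4 : sm z (vT1 (S5 4) n₀) = 1 := by
    have : vT1 (S5 4) n₀ = ((n₀ + 8 : ℕ) : ℤ) := by unfold vT1 S5; push_cast; norm_num
    rw [this]
    exact hs _ ⟨n₀ * (n₀ + 2) * (n₀ + 6), by ring⟩
  -- the cofactors are determined
  have key : ∀ (n : ℕ) (w : Fin 5 → ℤ), (∀ l, vT1 (S5 l) n = sm z (vT1 (S5 l) n₀) * w l) ↔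
      (g ∣ n + 4 ∧ w = fun l => ((u5 g n l : ℕ) : ℤ)) := by
    intro n w
    have e0 : vT1 (S5 0) n = ((n : ℕ) : ℤ) := by unfold vT1 S5; simp
    have e1 : vT1 (S5 1) n = ((n + 2 : ℕ) : ℤ) := by unfold vT1 S5; simp
    have e2 : vT1 (S5 2) n = ((n + 4 : ℕ) : ℤ) := by unfold vT1 S5; push_cast; norm_num
    have e3 : vT1 (S5 3) n = ((n + 6 : ℕ) : ℤ) := by unfold vT1 S5; push_cast; norm_num
    have e4 : vT1 (S5 4) n = ((n + 8 : ℕ) : ℤ) := by unfold vT1 S5; push_cast; norm_num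
    constructor
    · intro h
      have h0 := h 0
      have h1 := h 1
      have h2 := h 2
      have h3 := h 3
      have h4 := h 4
      rw [s0, e0, Nat.cast_one, one_mul] at h0
      rw [s1, e1, Nat.cast_one, one_mul] at h1
      rw [s2, e2] at h2
      rw [s3, e3, Nat.cast_one, one_mul] at h3
      rw [s4, e4, Nat.cast_one, one_mul] at h4
      have hd : g ∣ n + 4 := Int.natCast_dvd_natCast.1 (Dvd.intro _ h2.symm)
      refine ⟨hd, ?_⟩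
      obtain ⟨c, hc⟩ := hd
      funext l
      fin_cases l
      · exact h0.symm
      · exact h1.symm
      · show w 2 = (((n + 4) / g : ℕ) : ℤ)
        rw [hc, Nat.mul_div_cancel_left _ hg0]
        rw [hc, Nat.cast_mul] at h2
        exact (mul_left_cancel₀ (by exact_mod_cast hg0.ne') h2).symm
      · exact h3.symm
      · exact h4.symm
    · rintro ⟨⟨c, hc⟩, rfl⟩ l
      fin_cases l
      · show vT1 (S5 0) n = sm z (vT1 (S5 0) n₀) * ((n : ℕ) : ℤ)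
        rw [s0, e0, Nat.cast_one, one_mul]
      · show vT1 (S5 1) n = sm z (vT1 (S5 1) n₀) * ((n + 2 : ℕ) : ℤ)
        rw [s1, e1, Nat.cast_one, one_mul]
      · show vT1 (S5 2) n = sm z (vT1 (S5 2) n₀) * (((n + 4) / g : ℕ) : ℤ)
        rw [s2, e2, hc, Nat.mul_div_cancel_left _ hg0, Nat.cast_mul]
      · show vT1 (S5 3) n = sm z (vT1 (S5 3) n₀) * ((n + 6 : ℕ) : ℤ)
        rw [s3, e3, Nat.cast_one, one_mul]
      · show vT1 (S5 4) n = sm z (vT1 (S5 4) n₀) * ((n + 8 : ℕ) : ℤ)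
        rw [s4, e4, Nat.cast_one, one_mul]
  have hTT : ∀ R : ℤ → Prop, (∀ τ ∈ T5 L, R τ) ↔
      ∀ h : ℤ, -(L : ℤ) ≤ h → h ≤ L + 8 → (∀ l : Fin 5, 2 * ((l : ℕ) : ℤ) ≠ h) → R h := by
    intro R
    unfold T5
    constructor
    · intro H h h1 h2 h3
      exact H h (mem_filter.2 ⟨mem_Icc.2 ⟨h1, h2⟩, h3⟩)
    · intro H h hh
      rw [mem_filter, mem_Icc] at hh
      exact H h hh.1.1 hh.1.2 hh.2
  ext n
  unfold GFZ G5
  rw [mem_filter, mem_filter, ← hg]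
  refine and_congr_right fun hn => and_congr_right fun hn1 => ?_
  rw [hTT]
  constructor
  · rintro ⟨⟨w, h1, h2, h3⟩, h4⟩
    obtain ⟨hd, rfl⟩ := (key n w).1 fun l => (h1 l).1
    rw [Int.natAbs_natCast] at h2
    rw [almostN_iff] at h3
    refine ⟨hd, fun l => ?_, h2, h3, h4⟩
    have := (h1 l).2
    rwa [one_mul, almostN_iff] at this
  · rintro ⟨hd, h1, h2, h3, h4⟩
    refine ⟨⟨fun l => ((u5 g n l : ℕ) : ℤ), fun l => ⟨((key n _).2 ⟨hd, rfl⟩) l, ?_⟩, ?_, ?_⟩, h4⟩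
    · rw [one_mul, almostN_iff]
      exact h1 l
    · rw [Int.natAbs_natCast]
      exact h2
    · rw [almostN_iff]
      exact h3

theorem fiveM (L z n₀ Q : ℕ) (hz : 5 ≤ z) (hL : L < n₀) (hQ : 1 ≤ Q) (hQz : ∀ p : ℕ, p.Prime → p ∣ Q → p ≤ z)
    (hn₀ : ∀ p : ℕ, p.Prime → p ≤ z → ¬ p ∣ n₀ * (n₀ + 2) * (n₀ + 6) * (n₀ + 8)) (i j : Fin 5) (hij : i ≠ j) :
    ∃ C t : ℕ, 1 ≤ t ∧ ∃ κ : ℝ, 0 < κ ∧ ∀ (s r : ℕ) (θ δ : ℝ), 1 ≤ s → 0 < θ → 0 < δ → ∃ c X₀ : ℕ, ∀ X : ℕ, X₀ ≤ X →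
      κ / Real.log X ^ 5 ≤ V5 z X ∧ ∀ A B : ℕ, B ≤ X → θ * X ≤ (B : ℝ) - A →
        κ * ((B : ℝ) - A) * V5 z X ≤ ((G5 L z n₀ Q i j C t X A B).card : ℝ) ∧
        ∀ χ : ℕ → Fin r, ∃ P : Finset (ℕ × ℕ),
          (∀ τ ∈ P, 1 ≤ τ.2 ∧ (τ.2 : ℝ) ≤ Real.log X ^ c ∧
            ∀ l < s, τ.1 + l * τ.2 ∈ G5 L z n₀ Q i j C t X A B ∧ χ (τ.1 + l * τ.2) = χ τ.1) ∧
          (P : Set (ℕ × ℕ)).PairwiseDisjoint (apSet s) ∧
          (((G5 L z n₀ Q i j C t X A B \ P.biUnion (apSet s)).card : ℕ) : ℝ) ≤ δ * ((B : ℝ) - A) * V5 z X := by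
  classical
  have h1 : ∀ h : ℤ, (X + C h : ℤ[X]).coeff 1 = 1 := fun h => by
    rw [Polynomial.coeff_add, Polynomial.coeff_X_one, Polynomial.coeff_C, if_neg one_ne_zero, add_zero]
  have h0 : ∀ h : ℤ, (X + C h : ℤ[X]).coeff 0 = h := fun h => by
    rw [Polynomial.coeff_add, Polynomial.coeff_X_zero, Polynomial.coeff_C_zero, zero_add]
  have hSinj : ∀ a b : Fin 5, S5 a = S5 b → a = b := by
    intro a b hab
    unfold S5 at hab
    ext
    omega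
  have hn0 : (0 : ℤ) < n₀ := by exact_mod_cast (by omega : 0 < n₀)
  have H := famZ (fun h : ℤ => X + C h) vT1 (fun h x => by unfold vT1; simp) (fun _ => 1) S5
    (fun l => Polynomial.natDegree_X_add_C _) (fun _ => le_rfl) 5 (by simp) i j rfl rfl (by
      rw [h1, h1, h0, h0, one_mul, one_mul]
      intro h
      exact hij (hSinj _ _ h).symm) (T5 L) n₀ z Q hQ hQz (fun l => by
      unfold vT1 S5
      have : (0 : ℤ) ≤ 2 * ((l : ℕ) : ℤ) := by positivity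
      omega) (fun τ hτ => by
      unfold T5 at hτ
      rw [mem_filter, mem_Icc] at hτ
      unfold vT1
      have : (L : ℤ) < n₀ := by exact_mod_cast hL
      omega) (fun p hp hzp => by
      refine ⟨2, fun l hd => ?_⟩
      unfold vT1 S5 at hd
      have hl := l.2
      have hl0 : (0 : ℤ) ≤ ((l : ℕ) : ℤ) := by positivity
      have h3 := Int.le_of_dvd (by omega) hd
      have h4 : p ≤ 10 := by
        have : (p : ℤ) ≤ 10 := by omega
        exact_mod_cast this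
      have h5 : p = 7 := by
        have : 5 < p := by omega
        interval_cases p
        · exact absurd hp (by norm_num)
        · rfl
        · exact absurd hp (by norm_num)
        · exact absurd hp (by norm_num)
        · exact absurd hp (by norm_num)
      rw [h5] at hd
      obtain ⟨l, hl'⟩ := l
      simp only at hd
      interval_cases l <;> norm_num at hd
      ) (fun τ hτ => by
      unfold T5 at hτ
      rw [mem_filter] at hτ
      refine ⟨Polynomial.X_add_C_ne_zero τ, -(τ : ℂ), by simp, fun l hl => ?_⟩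
      apply hτ.2 l
      simp only [map_add, Polynomial.aeval_X, Polynomial.aeval_C] at hl
      have h2 : ((S5 l : ℤ) : ℂ) = (τ : ℂ) := by
        have h3 : (algebraMap ℤ ℂ) (S5 l) = ((S5 l : ℤ) : ℂ) := rfl
        rw [h3] at hl
        linear_combination hl
      exact_mod_cast h2)
  simp only [V5_eq _ _ hz, G5_eq L z n₀ Q hn₀] at H
  exact H

end Pool.Agent.X32.Uni
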