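import Pool.Agent.X32.Uni.IsoU

/-!
The forms `n - e x`, `n + e x`.
-/

set_option autoImplicit false

namespace Pool.Agent.X32.Uni

open Finset Filter

/-- the number of the zeros of `(n - x) (n + x)` modulo a prime `p` -/
def omPM (n p : ℕ) : ℕ := if p ∣ 2 * n then 1 else 2

theorem card_PM (n : ℕ) {p : ℕ} (hp : p.Prime) :
    ((range p).filter (fun x : ℕ => (p : ℤ) ∣ ((n : ℤ) - x) * (n + x))).card = omPM n p := by
  have hp0 := hp.pos
  have hpi := Nat.prime_iff_prime_int.1 hp
  obtain ⟨a, ha⟩ : ∃ a, a = n % p := ⟨_, rfl⟩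
  have hap : a < p := by rw [ha]; exact Nat.mod_lt _ hp0
  have hset : (range p).filter (fun x : ℕ => (p : ℤ) ∣ ((n : ℤ) - x) * (n + x)) = {a, (p - a) % p} := by
    ext x
    rw [mem_filter, mem_range, mem_insert, mem_singleton]
    have e1 : ∀ x < p, ((p : ℤ) ∣ (n : ℤ) - x ↔ x = a) := by
      intro x hx
      rw [← Int.modEq_iff_dvd, Int.natCast_modEq_iff]
      unfold Nat.ModEq
      rw [Nat.mod_eq_of_lt hx, ha]
    have e2 : ∀ x < p, ((p : ℤ) ∣ (n : ℤ) + x ↔ x = (p - a) % p) := by
      intro x hx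
      have e3 : (p : ℤ) ∣ (n : ℤ) + x ↔ p ∣ a + x := by
        rw [show (n : ℤ) + x = ((n + x : ℕ) : ℤ) by push_cast; rfl, Int.natCast_dvd_natCast]
        rw [Nat.dvd_iff_mod_eq_zero, Nat.dvd_iff_mod_eq_zero, Nat.add_mod, ← ha, Nat.mod_eq_of_lt hx]
      rw [e3]
      constructor
      · rintro ⟨c, hc⟩
        have hc2 : c < 2 := by
          by_contra h
          have : p * 2 ≤ p * c := Nat.mul_le_mul_left _ (by omega)
          omega
        rcases Nat.eq_zero_or_pos a with h0 | h0
        · rw [h0, Nat.sub_zero, Nat.mod_self]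
          have : c = 0 := by
            by_contra h
            have : p * 1 ≤ p * c := Nat.mul_le_mul_left _ (by omega)
            omega
          rw [this] at hc
          omega
        · have : c = 1 := by
            by_contra h
            have : c = 0 := by omega
            rw [this] at hc
            omega
          rw [this] at hc
          rw [Nat.mod_eq_of_lt (by omega)]
          omega
      · intro h
        rcases Nat.eq_zero_or_pos a with h0 | h0
        · rw [h0, Nat.sub_zero, Nat.mod_self] at h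
          rw [h0, h]
          exact dvd_zero _
        · rw [Nat.mod_eq_of_lt (by omega)] at h
          rw [h, Nat.add_sub_cancel' hap.le]
    constructor
    · rintro ⟨h1, h2⟩
      rcases hpi.dvd_mul.1 h2 with h | h
      · exact Or.inl ((e1 x h1).1 h)
      · exact Or.inr ((e2 x h1).1 h)
    · rintro (h | h)
      · have hx : x < p := by rw [h]; exact hap
        exact ⟨hx, ((e1 x hx).2 h).mul_right _⟩
      · have hx : x < p := by rw [h]; exact Nat.mod_lt _ hp0
        exact ⟨hx, ((e2 x hx).2 h).mul_left _⟩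
  have hdv : p ∣ 2 * n ↔ (a = 0 ∨ 2 * a = p) := by
    rw [Nat.dvd_iff_mod_eq_zero, Nat.mul_mod, ← ha, Nat.mod_mul_mod, ← Nat.dvd_iff_mod_eq_zero]
    constructor
    · rintro ⟨c, hc⟩
      have hc2 : c < 2 := by
        by_contra h
        have : p * 2 ≤ p * c := Nat.mul_le_mul_left _ (by omega)
        omega
      have : c = 0 ∨ c = 1 := by omega
      rcases this with h | h
      · rw [h] at hc
        left
        omega
      · rw [h] at hc
        right
        omega
    · rintro (h | h)
      · rw [h]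
        simp
      · rw [h]
  rw [hset]
  unfold omPM
  by_cases h : p ∣ 2 * n
  · rw [if_pos h]
    have h1 : (p - a) % p = a := by
      rcases hdv.1 h with h0 | h0
      · rw [h0, Nat.sub_zero, Nat.mod_self]
      · rw [Nat.mod_eq_of_lt (by omega)]
        omega
    rw [h1]
    simp
  · rw [if_neg h]
    apply card_pair
    intro h1
    apply h
    rw [hdv]
    rcases Nat.eq_zero_or_pos a with h0 | h0
    · exact Or.inl h0
    · right
      rw [Nat.mod_eq_of_lt (by omega)] at h1
      omega

theorem omPM_lt (n : ℕ) {p : ℕ} (hp : p.Prime) : omPM n p < p := by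
  unfold omPM
  have := hp.two_le
  split_ifs with h
  · omega
  · rcases Nat.lt_or_ge p 3 with h1 | h1
    · exfalso
      apply h
      have : p = 2 := by omega
      rw [this]
      exact dvd_mul_right _ _
    · omega

theorem prod_PM (n : ℕ) {e : ℤ} (he : e = 1 ∨ e = -1) (x : ℤ) :
    ∏ i : Fin 2, ((![-e, e] : Fin 2 → ℤ) i * x + (![(n : ℤ), (n : ℤ)] : Fin 2 → ℤ) i) = (n - x) * (n + x) := by
  rw [Fin.prod_univ_two]
  simp only [Matrix.cons_val_zero, Matrix.cons_val_one]
  rcases he with rfl | rfl <;> ring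

theorem omL_PM (n : ℕ) {e : ℤ} (he : e = 1 ∨ e = -1) {p : ℕ} (hp : p.Prime) :
    omL ![-e, e] ![(n : ℤ), (n : ℤ)] p = omPM n p := by
  unfold omL
  rw [← card_PM n hp]
  congr 1
  ext x
  rw [mem_filter, mem_filter, prod_PM n he]

/-- the product -/
noncomputable def VPM (n X : ℕ) : ℝ := ∏ p ∈ (Icc 1 X).filter Nat.Prime, (1 - (omPM n p : ℝ) / p)

theorem VL_PM (n X : ℕ) {e : ℤ} (he : e = 1 ∨ e = -1) : VL ![-e, e] ![(n : ℤ), (n : ℤ)] X = VPM n X := by
  unfold VL VPM
  apply Finset.prod_congr rfl
  intro p hp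
  rw [omL_PM n he (mem_filter.1 hp).2]

theorem adm_PM (n : ℕ) {e : ℤ} (he : e = 1 ∨ e = -1) : AdmL ![-e, e] ![(n : ℤ), (n : ℤ)] := by
  intro p hp
  by_contra hcon
  push Not at hcon
  have h1 : (range p).filter (fun x : ℕ => (p : ℤ) ∣ ((n : ℤ) - x) * (n + x)) = range p := by
    apply filter_true_of_mem
    intro x _
    obtain ⟨i, hi⟩ := hcon x
    rw [← prod_PM n he]
    exact Dvd.dvd.trans hi (dvd_prod_of_mem _ (mem_univ i))
  have h2 := card_PM n hp
  rw [h1, card_range] at h2
  have := omPM_lt n hp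
  omega

theorem sys_PM {n : ℕ} (hn : 1 ≤ n) {e : ℤ} (he : e = 1 ∨ e = -1) : SysI 2 1 1 n ![-e, e] ![(n : ℤ), (n : ℤ)] where
  a0 := by
    intro l
    fin_cases l <;> rcases he with rfl | rfl <;> simp
  aE := by
    intro l
    fin_cases l <;> rcases he with rfl | rfl <;> simp
  bK := by
    intro l
    fin_cases l <;> simp
  adm := adm_PM n he
  det := by
    have hn0 : (n : ℤ) ≠ 0 := by exact_mod_cast (by omega : n ≠ 0)
    intro l m hlm
    fin_cases l <;> fin_cases m
    · exact absurd rfl hlm
    · rcases he with rfl | rfl <;> simp <;> omega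
    · rcases he with rfl | rfl <;> simp <;> omega
    · exact absurd rfl hlm

end Pool.Agent.X32.Uni
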