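import Pool.Agent.X32.Uni.Short3

/-!
Sifting by a growing number of residue classes.
-/

set_option autoImplicit false

namespace Pool.Agent.X32.Uni

open Finset Filter
open Pool.Agent.Y843.HS (Pr VV Pr_mem Pr_prime VV_split Sv card_res)
open Pool.Agent.X32.CL (Mz Mz_pos Mz_prime)
open Pool.Agent.X32.Fam (ex_J)

/-- admissible families of residue classes -/
def AdmZ (k : ℕ) (Z : ℕ → Finset ℕ) : Prop :=
  ∀ p : ℕ, p.Prime → (Z p).card ≤ k ∧ (Z p).card < p ∧ ∀ x ∈ Z p, x < p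

theorem vv_fac {k : ℕ} {Z : ℕ → Finset ℕ} (hZ : AdmZ k Z) {p : ℕ} (hp : p.Prime) :
    0 < 1 - ((Z p).card : ℝ) / p ∧ 1 - ((Z p).card : ℝ) / p ≤ 1 := by
  have hp0 : (0 : ℝ) < p := by exact_mod_cast hp.pos
  have h1 : ((Z p).card : ℝ) < p := by exact_mod_cast (hZ p hp).2.1
  constructor
  · rw [sub_pos, div_lt_one hp0]
    exact h1
  · have : 0 ≤ ((Z p).card : ℝ) / p := by positivity
    linarith

theorem vv_pos {k : ℕ} {Z : ℕ → Finset ℕ} (hZ : AdmZ k Z) (a b : ℕ) : 0 < VV Z a b := by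
  unfold VV
  exact prod_pos fun p hp => (vv_fac hZ (Pr_prime hp)).1

theorem vv_small {k : ℕ} {Z : ℕ → Finset ℕ} (hZ : AdmZ k Z) (s : ℕ) : 1 / (Mz s : ℝ) ≤ VV Z 0 s := by
  unfold VV Mz
  push_cast
  rw [one_div, ← Finset.prod_inv_distrib]
  apply Finset.prod_le_prod
  · intro p hp
    positivity
  · intro p hp
    have hpp := Pr_prime hp
    have hp0 : (0 : ℝ) < p := by exact_mod_cast hpp.pos
    have h1 : (Z p).card + 1 ≤ p := (hZ p hpp).2.1
    have h2 : ((Z p).card : ℝ) + 1 ≤ p := by exact_mod_cast h1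
    rw [inv_eq_one_div, le_sub_iff_add_le, ← add_div, div_le_one hp0]
    linarith

theorem Mz_le (s : ℕ) : Mz s ≤ 4 ^ s := by
  refine le_trans (le_of_eq ?_) (primorial_le_four_pow s)
  unfold Mz primorial
  apply prod_congr _ fun _ _ => rfl
  ext p
  rw [Pr_mem, mem_filter, mem_range]
  constructor
  · rintro ⟨⟨a, b⟩, c⟩
    exact ⟨by omega, c⟩
  · rintro ⟨a, c⟩
    exact ⟨⟨c.pos, by omega⟩, c⟩

/-- the sum over the residue classes modulo the small primes -/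
theorem split_res {k : ℕ} {Z : ℕ → Finset ℕ} (hZ : AdmZ k Z) (b z A X : ℕ) (hbz : b ≤ z) (P E : ℝ)
    (hE : ∀ a : ℕ, |(((Ioc A (A + X)).filter (fun x => x % Mz b = a % Mz b ∧
      ∀ p ∈ Pr b z, x % p ∉ Z p)).card : ℝ) - (X : ℝ) / Mz b * P| ≤ E) :
    |(((Ioc A (A + X)).filter (fun x => ∀ p ∈ Pr 0 z, x % p ∉ Z p)).card : ℝ) - X * (VV Z 0 b * P)| ≤ Mz b * VV Z 0 b * E := by
  classical
  have hM0 := Mz_pos b
  have hM : (0 : ℝ) < Mz b := by exact_mod_cast hM0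
  obtain ⟨cl, hcl⟩ : ∃ cl : ℕ → Finset ℕ, cl = fun p => range p \ Z p := ⟨_, rfl⟩
  obtain ⟨S, hS⟩ : ∃ S : Finset ℕ, S = (range (Mz b)).filter (fun a => ∀ p ∈ Pr 0 b, a % p ∈ cl p) := ⟨_, rfl⟩
  have hSc : S.card = ∏ p ∈ Pr 0 b, (cl p).card := by
    rw [hS]
    exact card_res (Pr 0 b) (fun p hp => Pr_prime hp) cl (fun p _ c hc => by
      rw [hcl] at hc
      exact mem_range.1 (mem_sdiff.1 hc).1)
  have hclc : ∀ p ∈ Pr 0 b, ((cl p).card : ℝ) = p - (Z p).card := by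
    intro p hp
    have hpp := Pr_prime hp
    have h1 : Z p ⊆ range p := fun x hx => mem_range.2 ((hZ p hpp).2.2 x hx)
    rw [hcl]
    simp only
    rw [card_sdiff_of_subset h1, card_range, Nat.cast_sub (hZ p hpp).2.1.le]
  have hSV : (S.card : ℝ) = Mz b * VV Z 0 b := by
    rw [hSc]
    unfold Mz VV
    push_cast
    rw [← prod_mul_distrib]
    apply prod_congr rfl
    intro p hp
    rw [hclc p hp]
    have hp0 : (0 : ℝ) < p := by exact_mod_cast (Pr_prime hp).pos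
    field_simp
  obtain ⟨N, hN⟩ : ∃ N : ℕ → Finset ℕ, N = fun a => (Ioc A (A + X)).filter (fun x => x % Mz b = a % Mz b ∧
      ∀ p ∈ Pr b z, x % p ∉ Z p) := ⟨_, rfl⟩
  have hmod : ∀ x p, p ∈ Pr 0 b → (x % Mz b) % p = x % p := by
    intro x p hp
    apply Nat.mod_mod_of_dvd
    exact (Mz_prime (Pr_prime hp)).2 (Pr_mem.1 hp).1.2
  have hcount : ((Ioc A (A + X)).filter (fun x => ∀ p ∈ Pr 0 z, x % p ∉ Z p)).card = ∑ a ∈ S, (N a).card := by
    rw [card_eq_sum_card_fiberwise (f := fun x => x % Mz b) (t := S)]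
    · apply sum_congr rfl
      intro a ha
      congr 1
      rw [hS, mem_filter, mem_range] at ha
      ext x
      rw [hN]
      simp only [mem_filter]
      constructor
      · rintro ⟨⟨h1, h2⟩, h3⟩
        refine ⟨h1, ?_, fun p hp => h2 p ?_⟩
        · rw [h3, Nat.mod_eq_of_lt ha.1]
        · rw [Pr_mem] at hp ⊢
          exact ⟨⟨by omega, hp.1.2⟩, hp.2⟩
      · rintro ⟨h1, h2, h3⟩
        rw [Nat.mod_eq_of_lt ha.1] at h2
        refine ⟨⟨h1, fun p hp => ?_⟩, h2⟩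
        rcases le_or_gt p b with h4 | h4
        · have hpb : p ∈ Pr 0 b := by
            rw [Pr_mem] at hp ⊢
            exact ⟨⟨hp.1.1, h4⟩, hp.2⟩
          have h5 := ha.2 p hpb
          rw [← h2, hmod x p hpb, hcl] at h5
          exact (mem_sdiff.1 h5).2
        · apply h3
          rw [Pr_mem] at hp ⊢
          exact ⟨⟨h4, hp.1.2⟩, hp.2⟩
    · intro x hx
      rw [mem_coe, mem_filter] at hx
      rw [mem_coe, hS, mem_filter, mem_range]
      refine ⟨Nat.mod_lt _ hM0, fun p hp => ?_⟩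
      rw [hmod x p hp, hcl]
      refine Finset.mem_sdiff.2 ⟨mem_range.2 (Nat.mod_lt _ (Pr_prime hp).pos), hx.2 p ?_⟩
      rw [Pr_mem] at hp ⊢
      exact ⟨⟨hp.1.1, hp.1.2.trans hbz⟩, hp.2⟩
  have h1 : (((Ioc A (A + X)).filter (fun x => ∀ p ∈ Pr 0 z, x % p ∉ Z p)).card : ℝ) - X * (VV Z 0 b * P) =
      ∑ a ∈ S, (((N a).card : ℝ) - (X : ℝ) / Mz b * P) := by
    rw [sum_sub_distrib, sum_const, nsmul_eq_mul, hSV, hcount]
    push_cast
    have : (Mz b : ℝ) * VV Z 0 b * (X / Mz b * P) = X * (VV Z 0 b * P) := by field_simp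
    rw [this]
  rw [h1]
  calc |∑ a ∈ S, (((N a).card : ℝ) - (X : ℝ) / Mz b * P)| ≤ ∑ a ∈ S, |((N a).card : ℝ) - (X : ℝ) / Mz b * P| :=
        abs_sum_le_sum_abs _ _
    _ ≤ ∑ a ∈ S, E := sum_le_sum fun a _ => by rw [hN]; exact hE a
    _ = Mz b * VV Z 0 b * E := by rw [sum_const, nsmul_eq_mul, hSV]

theorem growS (ε : ℝ) (hε : 0 < ε) : ∃ c : ℝ, 0 < c ∧ c ≤ 1 ∧ ∃ X₀ : ℕ, ∀ X : ℕ, X₀ ≤ X → ∀ k : ℕ, 1 ≤ k →
    (k : ℝ) * Real.log (Real.log X) ≤ c * Real.log X → ∀ Z : ℕ → Finset ℕ, AdmZ k Z → ∀ A : ℕ, ∃ z : ℕ,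
      (X : ℝ) ^ (c / k) ≤ z ∧ (z : ℝ) ≤ (X : ℝ) ^ (2 * c / k) ∧ (X : ℝ) ^ (1 - ε) ≤ X * VV Z 0 z ∧
      |(((Ioc A (A + X)).filter (fun x => ∀ p ∈ Pr 0 z, x % p ∉ Z p)).card : ℝ) - X * VV Z 0 z| ≤
        (1 / 2 : ℝ) ^ k * (X * VV Z 0 z) := by
  classical
  obtain ⟨C₁, hC₁, HF⟩ := Pool.Agent.Y151.HS.flc
  obtain ⟨C₂, hC₂⟩ := Pool.Agent.Helper256.KM.mertens_inv
  have hC₂0 : 0 ≤ C₂ := (abs_nonneg _).trans (hC₂ 3 le_rfl)
  have hC₁r : (1 : ℝ) ≤ C₁ := by exact_mod_cast hC₁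
  obtain ⟨δ, hδ⟩ : ∃ δ : ℝ, δ = min ε (1 / 8) := ⟨_, rfl⟩
  have hδ0 : 0 < δ := by rw [hδ]; positivity
  have hδε : δ ≤ ε := by rw [hδ]; exact min_le_left _ _
  have hδ8 : δ ≤ 1 / 8 := by rw [hδ]; exact min_le_right _ _
  obtain ⟨T, hT⟩ : ∃ T : ℝ, T = 16 * C₁ ^ 2 + 16 * C₁ + 4 * C₂ + 16 := ⟨_, rfl⟩
  have hT0 : 16 ≤ T := by rw [hT]; nlinarith
  obtain ⟨c, hc⟩ : ∃ c : ℝ, c = δ / T := ⟨_, rfl⟩
  have hc0 : 0 < c := by rw [hc]; positivity
  have hcT : c * T = δ := by rw [hc]; field_simp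
  have hc1 : c ≤ 1 := by nlinarith
  have hl0 : ∀ᶠ X : ℕ in atTop, Real.exp (Real.exp 1) ≤ X := by
    exact tendsto_natCast_atTop_atTop.eventually (eventually_ge_atTop _)
  obtain ⟨X₀, hX₀⟩ := eventually_atTop.1 hl0
  refine ⟨c, hc0, hc1, X₀, fun X hX k hk hkX Z hZ A => ?_⟩
  have hXe := hX₀ X hX
  have hX0 : (0 : ℝ) < X := lt_of_lt_of_le (Real.exp_pos _) hXe
  have hL : Real.exp 1 ≤ Real.log X := by
    rw [← Real.log_exp (Real.exp 1)]
    exact Real.log_le_log (Real.exp_pos _) hXe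
  have hL1 : 1 ≤ Real.log X := le_trans (by have := Real.add_one_le_exp (1 : ℝ); linarith) hL
  have hll : 1 ≤ Real.log (Real.log X) := by
    rw [← Real.log_exp 1]
    exact Real.log_le_log (Real.exp_pos _) hL
  have hkr : (1 : ℝ) ≤ k := by exact_mod_cast hk
  have hk0 : (0 : ℝ) < k := by linarith
  have hkL : (k : ℝ) ≤ c * Real.log X := by nlinarith
  have hX1 : (1 : ℝ) ≤ X := by
    have : (1 : ℝ) ≤ Real.exp (Real.exp 1) := Real.one_le_exp (Real.exp_pos 1).le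
    linarith
  -- the level
  obtain ⟨w, hw⟩ : ∃ w : ℝ, w = (X : ℝ) ^ (c / k) := ⟨_, rfl⟩
  have hwL : Real.log X ≤ w := by
    rw [hw, Real.rpow_def_of_pos hX0]
    calc Real.log X = Real.exp (Real.log (Real.log X)) := (Real.exp_log (by linarith)).symm
      _ ≤ Real.exp (Real.log X * (c / k)) := by
          apply Real.exp_le_exp.2
          rw [mul_div_assoc', le_div_iff₀ hk0]
          linarith
  have hw2 : 2 ≤ w := by
    have := Real.add_one_le_exp (1 : ℝ)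
    linarith
  have hww : w * w = (X : ℝ) ^ (2 * c / k) := by
    rw [hw, ← Real.rpow_add hX0]
    congr 1
    ring
  obtain ⟨J, hJ1, hJ2⟩ := ex_J (w * w) (by nlinarith)
  obtain ⟨z, hz⟩ : ∃ z : ℕ, z = 2 ^ 2 ^ J := ⟨_, rfl⟩
  rw [← hz] at hJ1 hJ2
  have hwz : w ≤ z := by
    by_contra hcon
    have h1 : (z : ℝ) < w := not_le.1 hcon
    have h2 : (z : ℝ) ^ 2 ≤ w * w := by
      rw [pow_two]
      gcongr
    linarith
  refine ⟨z, by rw [← hw]; exact hwz, by rw [← hww]; exact hJ1, ?_⟩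
  obtain ⟨b, hb⟩ : ∃ b : ℕ, b = 2 * C₁ * (k + 1) := ⟨_, rfl⟩
  have hbk : (b : ℝ) ≤ 4 * C₁ * k := by
    rw [hb]
    push_cast
    nlinarith
  have hb4 : 4 ≤ b := by
    rw [hb]
    nlinarith
  have hb2 : 2 * k ≤ b := by
    rw [hb]
    nlinarith
  have hcC : 4 * C₁ * c ≤ 1 := by
    have h1 : c * (16 * C₁) ≤ c * T := by
      apply mul_le_mul_of_nonneg_left _ hc0.le
      rw [hT]
      nlinarith
    nlinarith
  have hbz : b ≤ z := by
    have h1 : (b : ℝ) ≤ Real.log X := by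
      calc (b : ℝ) ≤ 4 * C₁ * k := hbk
        _ ≤ 4 * C₁ * (c * Real.log X) := by gcongr
        _ = (4 * C₁ * c) * Real.log X := by ring
        _ ≤ 1 * Real.log X := by gcongr
        _ = Real.log X := one_mul _
    have : (b : ℝ) ≤ z := by linarith
    exact_mod_cast this
  have hzX : (z : ℝ) ≤ X := by
    refine hJ1.trans ?_
    rw [hww]
    calc (X : ℝ) ^ (2 * c / k) ≤ (X : ℝ) ^ (1 : ℝ) := by
          apply Real.rpow_le_rpow_of_exponent_le hX1
          rw [div_le_one hk0]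
          nlinarith
      _ = X := Real.rpow_one _
  have hM0 := Mz_pos b
  have hM : (0 : ℝ) < Mz b := by exact_mod_cast hM0
  -- the bounds
  have hD : (Mz b : ℝ) ≤ Real.exp (8 * C₁ * c * Real.log X) := by
    have h1 : (Mz b : ℝ) ≤ (4 : ℝ) ^ b := by exact_mod_cast Mz_le b
    have h2 : (4 : ℝ) ≤ Real.exp 2 := by
      have h3 := Real.add_one_le_exp (1 : ℝ)
      have h4 : Real.exp 2 = Real.exp 1 * Real.exp 1 := by rw [← Real.exp_add]; norm_num
      rw [h4]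
      nlinarith
    calc (Mz b : ℝ) ≤ (4 : ℝ) ^ b := h1
      _ ≤ (Real.exp 2) ^ b := pow_le_pow_left₀ (by norm_num) h2 b
      _ = Real.exp (2 * b) := by rw [← Real.exp_nat_mul]; ring_nf
      _ ≤ Real.exp (8 * C₁ * c * Real.log X) := by
          apply Real.exp_le_exp.2
          have h3 : (C₁ : ℝ) * k ≤ C₁ * (c * Real.log X) := by gcongr
          nlinarith
  have hzb : ((2 : ℝ) ^ 2 ^ J) ^ (C₁ * b) ≤ Real.exp (8 * C₁ ^ 2 * c * Real.log X) := by
    have h1 : ((2 : ℝ) ^ 2 ^ J) = z := by rw [hz]; push_cast; rfl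
    rw [h1]
    calc (z : ℝ) ^ (C₁ * b) ≤ ((X : ℝ) ^ (2 * c / k)) ^ (C₁ * b) :=
          pow_le_pow_left₀ (Nat.cast_nonneg _) (by rw [← hww]; exact hJ1) _
      _ = Real.exp (Real.log X * (2 * c / k) * (C₁ * b)) := by
          rw [← Real.rpow_natCast, ← Real.rpow_mul hX0.le, Real.rpow_def_of_pos hX0]
          push_cast
          ring_nf
      _ ≤ Real.exp (8 * C₁ ^ 2 * c * Real.log X) := by
          apply Real.exp_le_exp.2
          have h2 : (b : ℝ) / k ≤ 4 * C₁ := by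
            rw [div_le_iff₀ hk0]
            exact hbk
          calc Real.log X * (2 * c / k) * (C₁ * b) = (2 * c * C₁ * Real.log X) * (b / k) := by ring
            _ ≤ (2 * c * C₁ * Real.log X) * (4 * C₁) := by gcongr
            _ = 8 * C₁ ^ 2 * c * Real.log X := by ring
  have hV1 : Real.exp (-(8 * C₁ * c * Real.log X)) ≤ VV Z 0 b := by
    refine le_trans ?_ (vv_small hZ b)
    rw [Real.exp_neg, one_div]
    exact inv_anti₀ hM hD
  have hV2 : Real.exp (-((2 + 4 * C₂) * c * Real.log X)) ≤ VV Z b z := by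
    have hs := Pool.Agent.Y79.HS.sum_pr hC₂ (by omega : 3 ≤ b) hbz
    have hlb : 0 ≤ Real.log (Real.log b) := by
      have h1 : Real.exp 1 ≤ b := by
        have h2 : (4 : ℝ) ≤ b := by exact_mod_cast hb4
        have h3 := Real.exp_one_lt_d9
        linarith
      have h2 : 1 ≤ Real.log b := by
        rw [← Real.log_exp 1]
        exact Real.log_le_log (Real.exp_pos _) h1
      exact Real.log_nonneg h2
    have hz0 : (0 : ℝ) < z := by linarith
    have hz1 : 1 < (z : ℝ) := by linarith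
    have hllz : Real.log (Real.log z) ≤ Real.log (Real.log X) :=
      Real.log_le_log (Real.log_pos hz1) (Real.log_le_log hz0 hzX)
    have hsum : ∑ p ∈ Pr b z, (1 : ℝ) / p ≤ Real.log (Real.log X) + 2 * C₂ := by linarith
    have hterm : ∀ p ∈ Pr b z, Real.exp (-(2 * (k * (1 / (p : ℝ))))) ≤ 1 - ((Z p).card : ℝ) / p := by
      intro p hp
      have hpb : b < p := (Pr_mem.1 hp).1.1
      have hp0 : (0 : ℝ) < p := by exact_mod_cast (by omega : 0 < p)
      have hZ1 : ((Z p).card : ℝ) ≤ k := by exact_mod_cast (hZ p (Pr_prime hp)).1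
      have hx1 : ((Z p).card : ℝ) / p ≤ k / p := div_le_div_of_nonneg_right hZ1 hp0.le
      have hx2 : (k : ℝ) / p ≤ 1 / 2 := by
        rw [div_le_div_iff₀ hp0 (by norm_num)]
        have : ((2 * k : ℕ) : ℝ) ≤ p := by exact_mod_cast (by omega : 2 * k ≤ p)
        push_cast at this
        linarith
      have h1 := Pool.Agent.Y79.HS.one_sub_ge (x := (k : ℝ) / p) (by positivity) hx2
      have h2 : (k : ℝ) * (1 / (p : ℝ)) = k / p := by ring
      rw [h2]
      linarith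
    unfold VV
    calc Real.exp (-((2 + 4 * C₂) * c * Real.log X)) ≤ Real.exp (∑ p ∈ Pr b z, (-(2 * (k * (1 / (p : ℝ)))))) := by
          apply Real.exp_le_exp.2
          rw [Finset.sum_neg_distrib, ← Finset.mul_sum, ← Finset.mul_sum, neg_le_neg_iff]
          calc 2 * ((k : ℝ) * ∑ p ∈ Pr b z, 1 / (p : ℝ)) ≤ 2 * (k * (Real.log (Real.log X) + 2 * C₂)) := by gcongr
            _ = 2 * (k * Real.log (Real.log X)) + 4 * C₂ * k := by ring
            _ ≤ 2 * (c * Real.log X) + 4 * C₂ * (c * Real.log X) := by gcongr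
            _ = (2 + 4 * C₂) * c * Real.log X := by ring
      _ = ∏ p ∈ Pr b z, Real.exp (-(2 * (k * (1 / (p : ℝ))))) := by rw [Real.exp_sum]
      _ ≤ ∏ p ∈ Pr b z, (1 - ((Z p).card : ℝ) / p) :=
          prod_le_prod (fun p _ => (Real.exp_pos _).le) hterm
  have hVs := VV_split Z (Nat.zero_le b) hbz
  obtain ⟨V, hV⟩ : ∃ V : ℝ, V = VV Z 0 z := ⟨_, rfl⟩
  obtain ⟨P, hP⟩ : ∃ P : ℝ, P = VV Z b z := ⟨_, rfl⟩
  have hVP : V = VV Z 0 b * P := by rw [hV, hP, hVs]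
  have hVlow : Real.exp (-(δ * Real.log X)) ≤ V := by
    rw [hVP, hP]
    calc Real.exp (-(δ * Real.log X)) ≤ Real.exp (-(8 * C₁ * c * Real.log X)) *
          Real.exp (-((2 + 4 * C₂) * c * Real.log X)) := by
          rw [← Real.exp_add]
          apply Real.exp_le_exp.2
          have h1 : c * (8 * C₁ + 2 + 4 * C₂) ≤ δ := by
            rw [← hcT, hT]
            apply mul_le_mul_of_nonneg_left _ hc0.le
            nlinarith
          have h2 := mul_le_mul_of_nonneg_right h1 (by linarith : 0 ≤ Real.log X)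
          nlinarith
      _ ≤ VV Z 0 b * VV Z b z := mul_le_mul hV1 hV2 (Real.exp_pos _).le (vv_pos hZ 0 b).le
  have hXV : (X : ℝ) ^ (1 - δ) ≤ X * V := by
    calc (X : ℝ) ^ (1 - δ) = X * Real.exp (-(δ * Real.log X)) := by
          rw [sub_eq_add_neg, Real.rpow_add hX0, Real.rpow_one, Real.rpow_def_of_pos hX0]
          ring_nf
      _ ≤ X * V := mul_le_mul_of_nonneg_left hVlow hX0.le
  rw [← hV]
  constructor
  · refine le_trans ?_ hXV
    apply Real.rpow_le_rpow_of_exponent_le hX1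
    linarith
  have hP0 : 0 < P := by rw [hP]; exact vv_pos hZ b z
  have hE : ∀ a : ℕ, |(((Ioc A (A + X)).filter (fun x => x % Mz b = a % Mz b ∧
      ∀ p ∈ Pr b z, x % p ∉ Z p)).card : ℝ) - (X : ℝ) / Mz b * P| ≤
      (1 / 2 : ℝ) ^ b * ((X : ℝ) / Mz b * P) + Real.exp (8 * C₁ ^ 2 * c * Real.log X) := by
    intro a
    have h1 := HF k b b J (by rw [hb]; nlinarith) (by rw [hb]; nlinarith) Z (fun p hp =>
      ⟨(hZ p (Pr_prime hp)).1, (hZ p (Pr_prime hp)).2.2⟩) (Mz b) a A X (by omega) (by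
      intro p hp hd
      have h4 := (Mz_prime (Pr_prime hp)).1 hd
      have h5 := (Pr_mem.1 hp).1.1
      omega)
    rw [← hz] at h1
    have h2 : ∏ p ∈ Pr b z, (1 - ((Z p).card : ℝ) / p) = P := by rw [hP]; rfl
    rw [h2] at h1
    have h3 := h1.trans (add_le_add_right hzb _)
    refine le_trans (le_of_eq ?_) h3
    congr! 6
  have h1 := split_res hZ b z A X hbz P _ hE
  rw [← hVP] at h1
  refine h1.trans ?_
  have hhalf : (1 / 2 : ℝ) ^ b ≤ (1 / 2 : ℝ) ^ (k + 1) :=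
    pow_le_pow_of_le_one (by norm_num) (by norm_num) (by rw [hb]; nlinarith)
  have hpow : Real.exp (-(2 * c * Real.log X)) ≤ (1 / 2 : ℝ) ^ (k + 1) := by
    have h2 : (1 / 2 : ℝ) ^ (2 * k) ≤ (1 / 2 : ℝ) ^ (k + 1) :=
      pow_le_pow_of_le_one (by norm_num) (by norm_num) (by omega)
    refine le_trans ?_ h2
    have h3 : Real.exp (-1) ≤ 1 / 2 := by
      rw [Real.exp_neg, one_div]
      apply inv_anti₀ (by norm_num)
      have := Real.add_one_le_exp (1 : ℝ)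
      linarith
    calc Real.exp (-(2 * c * Real.log X)) ≤ Real.exp (-(2 * k)) := by
          apply Real.exp_le_exp.2
          linarith
      _ = (Real.exp (-1)) ^ (2 * k) := by
          rw [← Real.exp_nat_mul]
          push_cast
          ring_nf
      _ ≤ (1 / 2 : ℝ) ^ (2 * k) := pow_le_pow_left₀ (Real.exp_pos _).le h3 _
  have herr : Mz b * Real.exp (8 * C₁ ^ 2 * c * Real.log X) ≤ (1 / 2 : ℝ) ^ (k + 1) * (X * V) := by
    calc Mz b * Real.exp (8 * C₁ ^ 2 * c * Real.log X) ≤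
          Real.exp (8 * C₁ * c * Real.log X) * Real.exp (8 * C₁ ^ 2 * c * Real.log X) := by gcongr
      _ = Real.exp ((8 * C₁ + 8 * C₁ ^ 2) * c * Real.log X) := by
          rw [← Real.exp_add]
          ring_nf
      _ ≤ Real.exp (-(2 * c * Real.log X) + (1 - δ) * Real.log X) := by
          apply Real.exp_le_exp.2
          have h2 : c * (8 * C₁ + 8 * C₁ ^ 2 + 2) ≤ δ := by
            rw [← hcT, hT]
            apply mul_le_mul_of_nonneg_left _ hc0.le
            nlinarith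
          have h3 : (8 * C₁ + 8 * C₁ ^ 2 + 2) * c ≤ 1 - δ := by linarith
          have h4 := mul_le_mul_of_nonneg_right h3 (by linarith : 0 ≤ Real.log X)
          nlinarith
      _ = Real.exp (-(2 * c * Real.log X)) * (X : ℝ) ^ (1 - δ) := by
          rw [Real.exp_add, Real.rpow_def_of_pos hX0]
          ring_nf
      _ ≤ (1 / 2 : ℝ) ^ (k + 1) * (X * V) := by gcongr
  have hXV0 : 0 ≤ X * V := by rw [hV]; exact mul_nonneg hX0.le (vv_pos hZ 0 z).le
  have hVb1 : VV Z 0 b ≤ 1 := by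
    unfold VV
    exact prod_le_one (fun p hp => (vv_fac hZ (Pr_prime hp)).1.le) (fun p hp => (vv_fac hZ (Pr_prime hp)).2)
  have hVb0 := vv_pos hZ 0 b
  have hX0' : (X : ℝ) ≠ 0 := hX0.ne'
  calc (Mz b : ℝ) * VV Z 0 b * ((1 / 2 : ℝ) ^ b * ((X : ℝ) / Mz b * P) + Real.exp (8 * C₁ ^ 2 * c * Real.log X)) =
        (1 / 2 : ℝ) ^ b * (X * V) + VV Z 0 b * (Mz b * Real.exp (8 * C₁ ^ 2 * c * Real.log X)) := by
        rw [hVP]
        field_simp
    _ ≤ (1 / 2 : ℝ) ^ (k + 1) * (X * V) + 1 * ((1 / 2 : ℝ) ^ (k + 1) * (X * V)) := by gcongr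
    _ = (1 / 2 : ℝ) ^ k * (X * V) := by rw [pow_succ]; ring

end Pool.Agent.X32.Uni
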