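import Pool.Agent.X32.Uni.Grow

/-!
Sifting by a growing number of residue classes: choice of small primes killing other shifts.
-/

set_option autoImplicit false

namespace Pool.Agent.X32.Uni

open Finset Filter
open Pool.Agent.Y843.HS (Pr VV Pr_mem Pr_prime)

/-- greedy choice of distinct elements -/
theorem greedy (T : Finset ℤ) (G : ℤ → Finset ℕ) (h : ∀ b ∈ T, T.card ≤ (G b).card) :
    ∃ f : ℤ → ℕ, (∀ b ∈ T, f b ∈ G b) ∧ ∀ b ∈ T, ∀ b' ∈ T, f b = f b' → b = b' := by
  classical
  induction T using Finset.induction_on with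
  | empty => exact ⟨fun _ => 0, by simp, by simp⟩
  | insert b T hb ih =>
    obtain ⟨f, hf, hinj⟩ := ih (fun x hx => le_trans (card_le_card (subset_insert _ _)) (h x (mem_insert_of_mem hx)))
    have h1 : (T.image f).card < (G b).card := by
      have h3 := h b (mem_insert_self _ _)
      rw [card_insert_of_notMem hb] at h3
      have h2 : (T.image f).card ≤ T.card := card_image_le
      omega
    obtain ⟨y, hy, hyn⟩ := exists_mem_notMem_of_card_lt_card h1
    have hne : ∀ x ∈ T, x ≠ b := fun x hx hxb => hb (hxb ▸ hx)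
    refine ⟨Function.update f b y, ?_, ?_⟩
    · intro x hx
      rcases mem_insert.1 hx with rfl | hx
      · rw [Function.update_self]
        exact hy
      · rw [Function.update_of_ne (hne x hx)]
        exact hf x hx
    · intro x hx x' hx' hxx
      rcases mem_insert.1 hx with hx1 | hx1 <;> rcases mem_insert.1 hx' with hx2 | hx2
      · rw [hx1, hx2]
      · rw [hx1, Function.update_self, Function.update_of_ne (hne x' hx2)] at hxx
        exact absurd (mem_image.2 ⟨x', hx2, hxx.symm⟩) hyn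
      · rw [hx2, Function.update_self, Function.update_of_ne (hne x hx1)] at hxx
        exact absurd (mem_image.2 ⟨x, hx1, hxx⟩) hyn
      · rw [Function.update_of_ne (hne x hx1), Function.update_of_ne (hne x' hx2)] at hxx
        exact hinj x hx1 x' hx2 hxx

theorem crt_T (T : Finset ℤ) (f : ℤ → ℕ) (hf : ∀ b ∈ T, (f b).Prime) (hinj : ∀ b ∈ T, ∀ b' ∈ T, f b = f b' → b = b') :
    ∃ r : ℤ, ∀ b ∈ T, (f b : ℤ) ∣ r + b := by
  classical
  induction T using Finset.induction_on with
  | empty => exact ⟨0, by simp⟩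
  | insert b T hb ih =>
    obtain ⟨r, hr⟩ := ih (fun x hx => hf x (mem_insert_of_mem hx))
      (fun x hx x' hx' => hinj x (mem_insert_of_mem hx) x' (mem_insert_of_mem hx'))
    have hco : (∏ x ∈ T, f x).Coprime (f b) := by
      apply Nat.Coprime.prod_left
      intro x hx
      rw [Nat.coprime_primes (hf x (mem_insert_of_mem hx)) (hf b (mem_insert_self _ _))]
      intro h
      exact hb (hinj x (mem_insert_of_mem hx) b (mem_insert_self _ _) h ▸ hx)
    obtain ⟨u, v, huv⟩ := Nat.isCoprime_iff_coprime.2 hco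
    refine ⟨r - (r + b) * (u * ((∏ x ∈ T, f x : ℕ) : ℤ)), fun x hx => ?_⟩
    rcases mem_insert.1 hx with rfl | hx
    · refine ⟨(r + x) * v, ?_⟩
      have : u * ((∏ x ∈ T, f x : ℕ) : ℤ) = 1 - v * (f x : ℤ) := by linarith
      rw [this]
      ring
    · have h1 : (f x : ℤ) ∣ ((∏ x ∈ T, f x : ℕ) : ℤ) := by exact_mod_cast dvd_prod_of_mem f hx
      have h2 : r - (r + b) * (u * ((∏ x ∈ T, f x : ℕ) : ℤ)) + x =
          (r + x) - (r + b) * (u * ((∏ x ∈ T, f x : ℕ) : ℤ)) := by ring
      rw [h2]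
      exact dvd_sub (hr x hx) (dvd_mul_of_dvd_right (dvd_mul_of_dvd_right h1 _) _)

/-- the number of prime factors -/
theorem pf_le (n : ℕ) (hn : n ≠ 0) : 2 ^ n.primeFactors.card ≤ n := by
  calc 2 ^ n.primeFactors.card ≤ ∏ p ∈ n.primeFactors, p :=
        Finset.pow_card_le_prod _ _ _ (fun p hp => (Nat.prime_of_mem_primeFactors hp).two_le)
    _ ≤ n := Nat.le_of_dvd (Nat.pos_of_ne_zero hn) (Nat.prod_primeFactors_dvd n)

/-- many primes up to a cube -/
theorem pi_cube (K : ℝ) (hK : 1 ≤ K) : ∃ L₀ : ℕ, ∀ L : ℕ, L₀ ≤ L → K * L ^ 2 ≤ (Nat.primeCounting (L ^ 3) : ℝ) := by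
  have hlo := Real.isLittleO_log_id_atTop
  have hη : (0 : ℝ) < 1 / (100 * K) := by positivity
  have h1 : ∀ᶠ y : ℝ in atTop, Real.log y ≤ 1 / (100 * K) * y := by
    filter_upwards [hlo.bound hη, eventually_ge_atTop 1] with y hy hy1
    rw [id, Real.norm_of_nonneg (Real.log_nonneg hy1), Real.norm_of_nonneg (by linarith)] at hy
    exact hy
  have h2 : ∀ᶠ L : ℕ in atTop, Real.log L ≤ 1 / (100 * K) * L := tendsto_natCast_atTop_atTop.eventually h1
  obtain ⟨L₀, hL₀⟩ := eventually_atTop.1 h2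
  refine ⟨max L₀ 4, fun L hL => ?_⟩
  have hL1 := hL₀ L (le_of_max_le_left hL)
  have hL4 : (4 : ℝ) ≤ L := by exact_mod_cast le_of_max_le_right hL
  have h3 := Chebyshev.pi_ge (L ^ 3)
  push_cast at h3
  have hLp : (0 : ℝ) < L := by linarith
  have hlog3 : Real.log ((L : ℝ) ^ 3) = 3 * Real.log L := by
    rw [Real.log_pow]
    norm_num
  have hlL : 0 < Real.log L := Real.log_pos (by linarith)
  refine le_trans ?_ h3
  rw [hlog3, le_div_iff₀ (by linarith)]
  have h4 : Real.log ((L : ℝ) ^ 3 + 1) ≤ 1 + 3 * Real.log L := by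
    calc Real.log ((L : ℝ) ^ 3 + 1) ≤ Real.log (2 * (L : ℝ) ^ 3) := by
          apply Real.log_le_log (by positivity)
          have : (1 : ℝ) ≤ (L : ℝ) ^ 3 := one_le_pow₀ (by linarith)
          linarith
      _ = Real.log 2 + 3 * Real.log L := by
          rw [Real.log_mul (by norm_num) (by positivity), hlog3]
      _ ≤ 1 + 3 * Real.log L := by
          have := Real.log_two_lt_d9
          linarith
  have hln2 : (1 : ℝ) / 2 ≤ Real.log 2 := by
    have := Real.log_two_gt_d9
    linarith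
  have h5 : K * (L : ℝ) ^ 2 * (3 * Real.log L) ≤ 3 / 100 * (L : ℝ) ^ 3 := by
    calc K * (L : ℝ) ^ 2 * (3 * Real.log L) ≤ K * (L : ℝ) ^ 2 * (3 * (1 / (100 * K) * L)) := by gcongr
      _ = 3 / 100 * (L : ℝ) ^ 3 := by
          field_simp
  have h6 : Real.log L ≤ L / 100 := by
    refine hL1.trans ?_
    calc 1 / (100 * K) * (L : ℝ) ≤ 1 / (100 * 1) * L := by gcongr
      _ = L / 100 := by ring
  have h7 : (16 : ℝ) * L ≤ (L : ℝ) ^ 3 := by nlinarith [sq_nonneg ((L : ℝ) - 4)]
  have h8 : (L : ℝ) ^ 3 * (1 / 2) ≤ (L : ℝ) ^ 3 * Real.log 2 := by gcongr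
  nlinarith

end Pool.Agent.X32.Uni
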