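import Pool.Agent.X32.Uni.Grow2

/-!
Many shifts without small prime factors and many other shifts with very small prime factors.
-/

set_option autoImplicit false

namespace Pool.Agent.X32.Uni

open Finset Filter
open Pool.Agent.Y843.HS (Pr VV Pr_mem Pr_prime)

/-- the choice of primes -/
theorem kill_choice (B : ℝ) (hB : 1 ≤ B) : ∃ L₀ : ℝ, 4 ≤ L₀ ∧ ∀ x : ℝ, 1 ≤ x → L₀ ≤ Real.log x → ∀ S T : Finset ℤ,
    Disjoint S T → (S.card : ℝ) ≤ Real.log x → (T.card : ℝ) ≤ Real.log x →
    (∀ a ∈ S ∪ T, ((|a| : ℤ) : ℝ) ≤ x ^ B) →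
    ∃ f : ℤ → ℕ, (∀ b ∈ T, (f b).Prime ∧ (f b : ℝ) ≤ (Real.log x) ^ 3 ∧ ∀ a ∈ S, ¬ (f b : ℤ) ∣ b - a) ∧
      ∀ b ∈ T, ∀ b' ∈ T, f b = f b' → b = b' := by
  classical
  obtain ⟨L₁, hL₁⟩ := pi_cube (28 * B) (by linarith)
  refine ⟨max (L₁ + 1) 4, le_max_right _ _, fun x hx1 hL S T hST hS hT hST2 => ?_⟩
  have hx0 : 0 < x := by linarith
  have hL1 : (L₁ : ℝ) + 1 ≤ Real.log x := (le_max_left _ _).trans hL
  have hL4 : (4 : ℝ) ≤ Real.log x := (le_max_right _ _).trans hL
  obtain ⟨L, hLd⟩ : ∃ L : ℕ, L = ⌊Real.log x⌋₊ := ⟨_, rfl⟩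
  have hLle : (L : ℝ) ≤ Real.log x := by rw [hLd]; exact Nat.floor_le (by linarith)
  have hLlt : Real.log x < L + 1 := by rw [hLd]; exact Nat.lt_floor_add_one _
  have hL₁L : L₁ ≤ L := by
    have : (L₁ : ℝ) < L + 1 := by linarith
    have h2 : L₁ < L + 1 := by exact_mod_cast this
    omega
  have hL4' : (4 : ℝ) ≤ L := by
    have h1 : 4 ≤ L := by rw [hLd]; exact Nat.le_floor (by exact_mod_cast hL4)
    exact_mod_cast h1
  have hπ := hL₁ L hL₁L
  -- the good primes
  obtain ⟨G, hG⟩ : ∃ G : ℤ → Finset ℕ, G = fun b => (Nat.primesLE (L ^ 3)) \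
      S.biUnion (fun a => (b - a).natAbs.primeFactors) := ⟨_, rfl⟩
  have hGc : ∀ b ∈ T, T.card ≤ (G b).card := by
    intro b hb
    have h1 : ∀ a ∈ S, (((b - a).natAbs.primeFactors.card : ℕ) : ℝ) ≤ 4 * B * Real.log x := by
      intro a ha
      have hne : b - a ≠ 0 := by
        intro h
        have : b = a := by linarith
        rw [this] at hb
        exact disjoint_left.1 hST ha hb
      have h2 := pf_le (b - a).natAbs (Int.natAbs_ne_zero.2 hne)
      have h3 : (((b - a).natAbs : ℕ) : ℝ) ≤ 2 * x ^ B := by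
        have h4 : (((b - a).natAbs : ℕ) : ℝ) = |(b : ℝ) - a| := by
          rw [Nat.cast_natAbs]
          push_cast
          rfl
        rw [h4]
        have h5 := hST2 b (mem_union_right _ hb)
        have h6 := hST2 a (mem_union_left _ ha)
        push_cast at h5 h6
        calc |(b : ℝ) - a| ≤ |(b : ℝ)| + |(a : ℝ)| := abs_sub _ _
          _ ≤ 2 * x ^ B := by linarith
      have h4 : (2 : ℝ) ^ (b - a).natAbs.primeFactors.card ≤ 2 * x ^ B :=
        le_trans (by exact_mod_cast h2) h3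
      have h5 := Real.log_le_log (by positivity) h4
      rw [Real.log_pow, Real.log_mul (by norm_num) (by positivity), Real.log_rpow hx0] at h5
      have h6 : (1 : ℝ) / 2 ≤ Real.log 2 := by
        have := Real.log_two_gt_d9
        linarith
      have h7 : Real.log 2 ≤ 1 := by
        have := Real.log_two_lt_d9
        linarith
      have h8 : (((b - a).natAbs.primeFactors.card : ℕ) : ℝ) * (1 / 2) ≤
          (((b - a).natAbs.primeFactors.card : ℕ) : ℝ) * Real.log 2 := by gcongr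
      nlinarith
    have h2 : (S.biUnion (fun a => (b - a).natAbs.primeFactors)).card ≤ ∑ a ∈ S, (b - a).natAbs.primeFactors.card :=
      card_biUnion_le
    have h3 : ((S.biUnion (fun a => (b - a).natAbs.primeFactors)).card : ℝ) ≤ Real.log x * (4 * B * Real.log x) := by
      calc ((S.biUnion (fun a => (b - a).natAbs.primeFactors)).card : ℝ) ≤
            ((∑ a ∈ S, (b - a).natAbs.primeFactors.card : ℕ) : ℝ) := by exact_mod_cast h2
        _ = ∑ a ∈ S, (((b - a).natAbs.primeFactors.card : ℕ) : ℝ) := by push_cast; rfl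
        _ ≤ ∑ a ∈ S, 4 * B * Real.log x := sum_le_sum h1
        _ = S.card * (4 * B * Real.log x) := by rw [sum_const, nsmul_eq_mul]
        _ ≤ Real.log x * (4 * B * Real.log x) := by gcongr
    have h4 : (Nat.primesLE (L ^ 3)).card - (S.biUnion (fun a => (b - a).natAbs.primeFactors)).card ≤ (G b).card := by
      rw [hG]
      exact le_card_sdiff _ _
    have h5 : (Nat.primesLE (L ^ 3)).card = Nat.primeCounting (L ^ 3) := by
      rw [Nat.primesLE_card_eq_primeCounting]
    have h6 : ((Nat.primeCounting (L ^ 3) : ℕ) : ℝ) ≤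
        (G b).card + (S.biUnion (fun a => (b - a).natAbs.primeFactors)).card := by
      rw [h5] at h4
      have : Nat.primeCounting (L ^ 3) ≤ (G b).card + (S.biUnion (fun a => (b - a).natAbs.primeFactors)).card := by
        omega
      exact_mod_cast this
    have h7 : Real.log x ≤ 2 * L := by linarith
    have h8 : Real.log x * (4 * B * Real.log x) ≤ 16 * B * (L : ℝ) ^ 2 := by
      calc Real.log x * (4 * B * Real.log x) ≤ (2 * L) * (4 * B * (2 * L)) := by gcongr
        _ = 16 * B * (L : ℝ) ^ 2 := by ring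
    have h9 : Real.log x ≤ 12 * B * (L : ℝ) ^ 2 := by
      nlinarith
    have h10 : (T.card : ℝ) ≤ (G b).card := by linarith
    exact_mod_cast h10
  obtain ⟨f, hf, hinj⟩ := greedy T G hGc
  refine ⟨f, fun b hb => ?_, hinj⟩
  have h1 := hf b hb
  rw [hG, Finset.mem_sdiff, Nat.mem_primesLE] at h1
  refine ⟨h1.1.2, ?_, fun a ha hd => ?_⟩
  · calc (f b : ℝ) ≤ ((L ^ 3 : ℕ) : ℝ) := by exact_mod_cast h1.1.1
      _ = (L : ℝ) ^ 3 := by push_cast; ring
      _ ≤ (Real.log x) ^ 3 := by gcongr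
  · apply h1.2
    rw [mem_biUnion]
    refine ⟨a, ha, Nat.mem_primeFactors.2 ⟨h1.1.2, Int.natCast_dvd.1 hd, ?_⟩⟩
    rw [Int.natAbs_ne_zero]
    intro h
    have : b = a := by linarith
    rw [this] at hb
    exact disjoint_left.1 hST ha hb

end Pool.Agent.X32.Uni
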