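import Pool.Agent.X32.Uni.Grow3

/-!
Many shifts without small prime factors and many other shifts with very small prime factors.
-/

set_option autoImplicit false

namespace Pool.Agent.X32.Uni

open Finset Filter
open Pool.Agent.Y843.HS (Pr VV Pr_mem Pr_prime)

/-- forbidden classes for `r + Q m` -/
noncomputable def zr (S : Finset ℤ) (r : ℤ) (Q : ℕ) (p : ℕ) : Finset ℕ :=
  (range p).filter (fun m : ℕ => ∃ a ∈ S, (p : ℤ) ∣ r + Q * m + a)

theorem zr_adm (S : Finset ℤ) (hS : ∀ p : ℕ, p.Prime → ∃ y : ℤ, ∀ a ∈ S, ¬ (p : ℤ) ∣ y + a) (r : ℤ) (Q : ℕ)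
    (hQ : ∀ p : ℕ, p.Prime → p ∣ Q → ∀ a ∈ S, ¬ (p : ℤ) ∣ r + a) :
    AdmZ S.card (zr S r Q) := by
  classical
  intro p hp
  have hsub : zr S r Q p ⊆ range p := filter_subset _ _
  by_cases hpQ : p ∣ Q
  · have h0 : zr S r Q p = ∅ := by
      unfold zr
      rw [filter_eq_empty_iff]
      rintro m - ⟨a, ha, hd⟩
      apply hQ p hp hpQ a ha
      have h1 : (p : ℤ) ∣ Q * m := dvd_mul_of_dvd_left (by exact_mod_cast hpQ) _
      have h2 : r + a = (r + Q * m + a) - Q * m := by ring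
      rw [h2]
      exact dvd_sub hd h1
    rw [h0]
    refine ⟨by simp, by rw [card_empty]; exact hp.pos, by simp⟩
  · have hco : IsCoprime (Q : ℤ) p := by
      rw [Nat.isCoprime_iff_coprime]
      exact ((Nat.Prime.coprime_iff_not_dvd hp).2 hpQ).symm
    have hp' : Prime (p : ℤ) := Nat.prime_iff_prime_int.1 hp
    refine ⟨?_, ?_, fun x hx => mem_range.1 (hsub hx)⟩
    · apply card_le_card_of_forall_subsingleton (fun (m : ℕ) (a : ℤ) => (p : ℤ) ∣ r + Q * m + a)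
      · intro m hm
        exact (mem_filter.1 hm).2
      · intro a ha m hm m' hm'
        have h1 : (p : ℤ) ∣ Q * ((m : ℤ) - m') := by
          have h2 : (Q : ℤ) * ((m : ℤ) - m') = (r + Q * m + a) - (r + Q * m' + a) := by ring
          rw [h2]
          exact dvd_sub hm.2 hm'.2
        have h3 : (p : ℤ) ∣ (m : ℤ) - m' := hco.symm.dvd_of_dvd_mul_left h1
        have h4 := mem_range.1 (hsub hm.1)
        have h5 := mem_range.1 (hsub hm'.1)
        have h6 := Int.eq_zero_of_abs_lt_dvd h3 (by rw [abs_lt]; constructor <;> omega)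
        omega
    · obtain ⟨y, hy⟩ := hS p hp
      obtain ⟨u, v, huv⟩ := hco
      have hp0 : (p : ℤ) ≠ 0 := by exact_mod_cast hp.ne_zero
      obtain ⟨m, hm⟩ : ∃ m : ℕ, (m : ℤ) = (u * (y - r)) % p := ⟨((u * (y - r)) % p).toNat, by
        rw [Int.toNat_of_nonneg (Int.emod_nonneg _ hp0)]⟩
      have hmp : m < p := by
        have := Int.emod_lt_of_pos (u * (y - r)) (by exact_mod_cast hp.pos : (0 : ℤ) < p)
        rw [← hm] at this
        exact_mod_cast this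
      have hmn : m ∉ zr S r Q p := by
        intro h
        obtain ⟨a, ha, hd⟩ := (mem_filter.1 h).2
        apply hy a ha
        have h1 : (p : ℤ) ∣ u * (y - r) - m := by
          rw [hm]
          exact Int.dvd_self_sub_emod
        have h2 : y + a = (r + Q * m + a) + Q * (u * (y - r) - m) + (y - r) * v * p := by
          have : u * (Q : ℤ) = 1 - v * p := by linarith
          calc y + a = (r + Q * m + a) + (y - r) - Q * m := by ring
            _ = (r + Q * m + a) + (y - r) * (u * Q + v * p) - Q * m := by rw [huv]; ring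
            _ = _ := by ring
        rw [h2]
        exact dvd_add (dvd_add hd (dvd_mul_of_dvd_right h1 _)) (dvd_mul_left _ _)
      calc (zr S r Q p).card < (range p).card := by
            apply card_lt_card
            rw [ssubset_iff_of_subset hsub]
            exact ⟨m, mem_range.2 hmp, hmn⟩
        _ = p := card_range p

/-- the count of `n` close to `-b` for some `b ∈ T` -/
theorem near_count (T : Finset ℤ) (x : ℕ) (Y : ℝ) (hY : 1 ≤ Y) :
    (((Icc 1 x).filter (fun n : ℕ => ∃ b ∈ T, |((n : ℤ) + b : ℝ)| ≤ Y)).card : ℝ) ≤ T.card * (3 * Y) := by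
  classical
  have h1 : (Icc 1 x).filter (fun n : ℕ => ∃ b ∈ T, |((n : ℤ) + b : ℝ)| ≤ Y) ⊆
      T.biUnion (fun b => (Icc 1 x).filter (fun n : ℕ => |((n : ℤ) + b : ℝ)| ≤ Y)) := by
    intro n hn
    obtain ⟨h2, b, hb, h3⟩ := mem_filter.1 hn
    exact mem_biUnion.2 ⟨b, hb, mem_filter.2 ⟨h2, h3⟩⟩
  have h2 : ∀ b ∈ T, (((Icc 1 x).filter (fun n : ℕ => |((n : ℤ) + b : ℝ)| ≤ Y)).card : ℝ) ≤ 3 * Y := by
    intro b _
    have h3 : ((Icc 1 x).filter (fun n : ℕ => |((n : ℤ) + b : ℝ)| ≤ Y)).card ≤ (Icc (-⌊Y⌋) ⌊Y⌋).card := by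
      apply card_le_card_of_injOn (fun n : ℕ => (n : ℤ) + b)
      · intro n hn
        rw [mem_coe, mem_filter] at hn
        rw [mem_coe, Finset.mem_Icc]
        have h4 := abs_le.1 hn.2
        constructor
        · rw [neg_le, Int.le_floor]
          push_cast
          push_cast at h4
          linarith
        · rw [Int.le_floor]
          push_cast
          push_cast at h4
          linarith
      · intro n _ n' _ h
        simp only at h
        omega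
    rw [Int.card_Icc] at h3
    have h0 : (0 : ℤ) ≤ ⌊Y⌋ := Int.floor_nonneg.2 (by linarith)
    have h4 : (((⌊Y⌋ + 1 - -⌊Y⌋).toNat : ℕ) : ℝ) ≤ 3 * Y := by
      have h5 : (((⌊Y⌋ + 1 - -⌊Y⌋).toNat : ℕ) : ℤ) = 2 * ⌊Y⌋ + 1 := by
        rw [Int.toNat_of_nonneg (by linarith)]
        ring
      have h6 : (((⌊Y⌋ + 1 - -⌊Y⌋).toNat : ℕ) : ℝ) = 2 * (⌊Y⌋ : ℝ) + 1 := by exact_mod_cast h5
      rw [h6]
      have := Int.floor_le Y
      linarith
    exact le_trans (by exact_mod_cast h3) h4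
  calc (((Icc 1 x).filter (fun n : ℕ => ∃ b ∈ T, |((n : ℤ) + b : ℝ)| ≤ Y)).card : ℝ) ≤
        ((∑ b ∈ T, ((Icc 1 x).filter (fun n : ℕ => |((n : ℤ) + b : ℝ)| ≤ Y)).card : ℕ) : ℝ) := by
        exact_mod_cast (card_le_card h1).trans card_biUnion_le
    _ = ∑ b ∈ T, (((Icc 1 x).filter (fun n : ℕ => |((n : ℤ) + b : ℝ)| ≤ Y)).card : ℝ) := by push_cast; rfl
    _ ≤ ∑ b ∈ T, 3 * Y := sum_le_sum h2
    _ = T.card * (3 * Y) := by rw [sum_const, nsmul_eq_mul]

/-- conditions on `x` -/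
theorem grow_ev (ε B c : ℝ) (hε : 0 < ε) (hc : 0 < c) (X₀ : ℕ) (L₀ : ℝ) : ∃ x₀ : ℕ, ∀ x : ℕ, x₀ ≤ x →
    3 ≤ (x : ℝ) ^ c ∧ (X₀ : ℝ) ≤ (x : ℝ) ^ (1 / 2 : ℝ) ∧ 4 ≤ (x : ℝ) ^ (ε / 2) ∧
      12 * (Real.log x) ^ 4 ≤ (x : ℝ) ^ (1 / 2 : ℝ) ∧ Real.exp (Real.exp 1) ≤ x ∧ L₀ ≤ Real.log x := by
  have h1 : Tendsto (fun x : ℝ => x ^ c) atTop atTop := tendsto_rpow_atTop hc
  have h2 : Tendsto (fun x : ℝ => x ^ (1 / 2 : ℝ)) atTop atTop := tendsto_rpow_atTop (by norm_num)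
  have h3 : Tendsto (fun x : ℝ => x ^ (ε / 2)) atTop atTop := tendsto_rpow_atTop (by linarith)
  have h4 : (fun x : ℝ => Real.log x ^ (4 : ℝ)) =o[atTop] (fun x : ℝ => x ^ (1 / 2 : ℝ)) :=
    isLittleO_log_rpow_rpow_atTop 4 (by norm_num)
  have h5 : ∀ᶠ x : ℝ in atTop, 3 ≤ x ^ c ∧ (X₀ : ℝ) ≤ x ^ (1 / 2 : ℝ) ∧ 4 ≤ x ^ (ε / 2) ∧
      12 * (Real.log x) ^ 4 ≤ x ^ (1 / 2 : ℝ) ∧ Real.exp (Real.exp 1) ≤ x ∧ L₀ ≤ Real.log x := by
    filter_upwards [h1.eventually_ge_atTop 3, h2.eventually_ge_atTop (X₀ : ℝ), h3.eventually_ge_atTop 4,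
      h4.bound (by norm_num : (0 : ℝ) < 1 / 12), eventually_ge_atTop (Real.exp (Real.exp 1)),
      Real.tendsto_log_atTop.eventually_ge_atTop L₀] with x a1 a2 a3 a4 a5 a6
    refine ⟨a1, a2, a3, ?_, a5, a6⟩
    have hx1 : 1 ≤ x := le_trans (Real.one_le_exp (Real.exp_pos 1).le) a5
    have hl : 0 ≤ Real.log x := Real.log_nonneg hx1
    rw [Real.norm_of_nonneg (Real.rpow_nonneg hl _), Real.norm_of_nonneg (Real.rpow_nonneg (by linarith) _)] at a4
    have a7 : Real.log x ^ (4 : ℝ) = Real.log x ^ 4 := by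
      rw [← Real.rpow_natCast]
      norm_num
    rw [a7] at a4
    linarith
  obtain ⟨x₀, hx₀⟩ := eventually_atTop.1 (tendsto_natCast_atTop_atTop.eventually h5)
  exact ⟨x₀, hx₀⟩

end Pool.Agent.X32.Uni
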