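import Pool.Agent.X32.Uni.Grow4

/-!
Many shifts without small prime factors and many other shifts with very small prime factors.
-/

set_option autoImplicit false

namespace Pool.Agent.X32.Uni

open Finset Filter
open Pool.Agent.Y843.HS (Pr VV Pr_mem Pr_prime)

open Classical in
theorem growK (ε : ℝ) (hε : 0 < ε) (hε1 : ε ≤ 1) (B : ℝ) (hB : 1 ≤ B) : ∃ c : ℝ, 0 < c ∧ c ≤ 1 ∧ ∃ x₀ : ℕ, ∀ x : ℕ,
    x₀ ≤ x → ∀ S T : Finset ℤ, Disjoint S T → S.Nonempty →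
    (∀ p : ℕ, p.Prime → ∃ y : ℤ, ∀ a ∈ S, ¬ (p : ℤ) ∣ y + a) →
    ((S.card : ℝ) + T.card) * Real.log (Real.log x) ≤ c * Real.log x →
    (∀ a ∈ S ∪ T, ((|a| : ℤ) : ℝ) ≤ (x : ℝ) ^ B) →
    (x : ℝ) ^ (1 - ε) ≤ (((Icc 1 x).filter (fun n : ℕ =>
      (∀ a ∈ S, ∀ p : ℕ, p.Prime → (p : ℤ) ∣ n + a → (x : ℝ) ^ (c / S.card) < p) ∧
      ∀ b ∈ T, (∃ q : ℕ, q.Prime ∧ (q : ℝ) ≤ (Real.log x) ^ 3 ∧ (q : ℤ) ∣ n + b) ∧
        (Real.log x) ^ 3 < |((n : ℤ) + b : ℝ)|)).card : ℝ) := by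
  classical
  obtain ⟨c₀, hc₀, hc₀1, X₀, HG⟩ := growS (ε / 4) (by linarith)
  obtain ⟨L₀, hL₀4, HK⟩ := kill_choice B hB
  obtain ⟨c, hc⟩ : ∃ c : ℝ, c = min (c₀ / 4) (ε / 20) := ⟨_, rfl⟩
  have hc0 : 0 < c := by rw [hc]; positivity
  have hcc₀ : c ≤ c₀ / 4 := by rw [hc]; exact min_le_left _ _
  have hcε : c ≤ ε / 20 := by rw [hc]; exact min_le_right _ _
  obtain ⟨x₀, hx₀⟩ := grow_ev ε B c hε hc0 X₀ L₀
  refine ⟨c, hc0, by linarith, x₀, fun x hx S T hST hSne hadm hcard hbd => ?_⟩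
  obtain ⟨e1, e2, e3, e4, e5, e6⟩ := hx₀ x hx
  have hx1 : (1 : ℝ) ≤ x := le_trans (Real.one_le_exp (Real.exp_pos 1).le) e5
  have hx0 : (0 : ℝ) < x := by linarith
  have hL : Real.exp 1 ≤ Real.log x := by
    rw [← Real.log_exp (Real.exp 1)]
    exact Real.log_le_log (Real.exp_pos _) e5
  have hll : 1 ≤ Real.log (Real.log x) := by
    rw [← Real.log_exp 1]
    exact Real.log_le_log (Real.exp_pos _) hL
  have hL0 : 0 < Real.log x := lt_of_lt_of_le (Real.exp_pos _) hL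
  have hL1 : 1 ≤ Real.log x := le_trans (by have := Real.add_one_le_exp (1 : ℝ); linarith) hL
  obtain ⟨k, hk⟩ : ∃ k : ℕ, k = S.card := ⟨_, rfl⟩
  have hk1 : 1 ≤ k := by rw [hk]; exact card_pos.2 hSne
  have hk1r : (1 : ℝ) ≤ k := by exact_mod_cast hk1
  have hT0 : (0 : ℝ) ≤ T.card := Nat.cast_nonneg _
  rw [← hk] at hcard ⊢
  have hkc : (k : ℝ) * Real.log (Real.log x) ≤ c * Real.log x := by nlinarith
  have hTc : (T.card : ℝ) * Real.log (Real.log x) ≤ c * Real.log x := by nlinarith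
  have hkL : (k : ℝ) ≤ Real.log x := by nlinarith
  have hTL : (T.card : ℝ) ≤ Real.log x := by nlinarith
  obtain ⟨f, hf, hinj⟩ := HK x hx1 e6 S T hST (by rw [← hk]; exact hkL) hTL hbd
  obtain ⟨r₀, hr₀⟩ := crt_T T f (fun b hb => (hf b hb).1) hinj
  obtain ⟨Q, hQ⟩ : ∃ Q : ℕ, Q = ∏ b ∈ T, f b := ⟨_, rfl⟩
  have hQ0 : 0 < Q := by rw [hQ]; exact prod_pos fun b hb => (hf b hb).1.pos
  have hQr : (0 : ℝ) < Q := by exact_mod_cast hQ0
  have hQx : (Q : ℝ) ≤ (x : ℝ) ^ (3 * c) := by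
    have h1 : (Q : ℝ) ≤ (Real.log x ^ 3) ^ T.card := by
      rw [hQ]
      push_cast
      exact (prod_le_prod (fun b _ => Nat.cast_nonneg _) fun b hb => (hf b hb).2.1).trans
        (by rw [prod_const])
    refine h1.trans ?_
    rw [Real.rpow_def_of_pos hx0]
    calc (Real.log x ^ 3) ^ T.card = Real.exp (Real.log ((Real.log x ^ 3) ^ T.card)) := by
          rw [Real.exp_log (by positivity)]
      _ ≤ Real.exp (Real.log x * (3 * c)) := by
          apply Real.exp_le_exp.2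
          rw [Real.log_pow, Real.log_pow]
          push_cast
          nlinarith
  -- the residue
  obtain ⟨r, hr, hrQ, hr0⟩ : ∃ r : ℤ, (∀ b ∈ T, (f b : ℤ) ∣ r + b) ∧ r ≤ Q ∧ 1 ≤ r := by
    have hQi : (0 : ℤ) < Q := by exact_mod_cast hQ0
    refine ⟨(r₀ - 1) % Q + 1, fun b hb => ?_, ?_, ?_⟩
    · have h1 : (f b : ℤ) ∣ Q := by
        rw [hQ]
        exact_mod_cast dvd_prod_of_mem f hb
      have h2 : (r₀ - 1) % Q + 1 + b = (r₀ + b) - Q * ((r₀ - 1) / Q) := by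
        have := Int.emod_add_mul_ediv (r₀ - 1) Q
        linarith
      rw [h2]
      exact dvd_sub (hr₀ b hb) (dvd_mul_of_dvd_left h1 _)
    · have := Int.emod_lt_of_pos (r₀ - 1) hQi
      omega
    · have := Int.emod_nonneg (r₀ - 1) hQi.ne'
      omega
  have hQS : ∀ p : ℕ, p.Prime → p ∣ Q → ∀ a ∈ S, ¬ (p : ℤ) ∣ r + a := by
    intro p hp hpQ a ha hd
    rw [hQ] at hpQ
    obtain ⟨b, hb, hpb⟩ := (Prime.dvd_finset_prod_iff hp.prime _).1 hpQ
    have hpf : p = f b := (Nat.prime_dvd_prime_iff_eq hp (hf b hb).1).1 hpb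
    apply (hf b hb).2.2 a ha
    rw [← hpf]
    have h1 := hr b hb
    rw [← hpf] at h1
    have h2 : b - a = (r + b) - (r + a) := by ring
    rw [h2]
    exact dvd_sub h1 hd
  have hZ := zr_adm S hadm r Q hQS
  rw [← hk] at hZ
  obtain ⟨X, hX⟩ : ∃ X : ℕ, X = x / Q - 1 := ⟨_, rfl⟩
  have hxQ : (x : ℝ) ^ (1 - 3 * c) ≤ x / Q := by
    rw [le_div_iff₀ hQr]
    calc (x : ℝ) ^ (1 - 3 * c) * Q ≤ (x : ℝ) ^ (1 - 3 * c) * (x : ℝ) ^ (3 * c) := by gcongr
      _ = x := by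
          rw [← Real.rpow_add hx0]
          norm_num
  have hXge : (x : ℝ) ^ (1 - 4 * c) ≤ X := by
    have h1 : ((x / Q : ℕ) : ℝ) > (x : ℝ) / Q - 1 := by
      have := Nat.lt_floor_add_one ((x : ℝ) / Q)
      rw [Nat.floor_div_natCast, Nat.floor_natCast] at this
      linarith
    have h2 : (x : ℝ) ^ (1 - 3 * c) = (x : ℝ) ^ c * (x : ℝ) ^ (1 - 4 * c) := by
      rw [← Real.rpow_add hx0]
      congr 1
      ring
    have h3 : (1 : ℝ) ≤ (x : ℝ) ^ (1 - 4 * c) := Real.one_le_rpow hx1 (by linarith)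
    have h4 : 3 * (x : ℝ) ^ (1 - 4 * c) ≤ (x : ℝ) ^ (1 - 3 * c) := by
      rw [h2]
      gcongr
    have h5 : 1 ≤ x / Q := by
      have h6 : (0 : ℝ) < ((x / Q : ℕ) : ℝ) := by linarith
      have h7 : 0 < x / Q := by exact_mod_cast h6
      omega
    rw [hX, Nat.cast_sub h5]
    push_cast
    linarith
  have hXhalf : (x : ℝ) ^ (1 / 2 : ℝ) ≤ X :=
    (Real.rpow_le_rpow_of_exponent_le hx1 (by linarith)).trans hXge
  have hXX₀ : X₀ ≤ X := by
    have : (X₀ : ℝ) ≤ X := e2.trans hXhalf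
    exact_mod_cast this
  have hX0 : (0 : ℝ) < X := lt_of_lt_of_le (by positivity) hXhalf
  have hXx : (X : ℝ) ≤ x := by
    have : X ≤ x := by
      rw [hX]
      exact (Nat.sub_le _ _).trans (Nat.div_le_self _ _)
    exact_mod_cast this
  have hlogX : Real.log x / 2 ≤ Real.log X := by
    have := Real.log_le_log (by positivity) hXhalf
    rw [Real.log_rpow hx0] at this
    linarith
  have hX1 : (1 : ℝ) ≤ X := (Real.one_le_rpow hx1 (by norm_num)).trans hXhalf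
  have hkX : (k : ℝ) * Real.log (Real.log X) ≤ c₀ * Real.log X := by
    have h1 : Real.log (Real.log X) ≤ Real.log (Real.log x) := by
      apply Real.log_le_log
      · linarith
      · exact Real.log_le_log hX0 hXx
    calc (k : ℝ) * Real.log (Real.log X) ≤ k * Real.log (Real.log x) := by gcongr
      _ ≤ c * Real.log x := hkc
      _ ≤ c₀ / 4 * Real.log x := by gcongr
      _ ≤ c₀ * Real.log X := by nlinarith
  obtain ⟨z, hz1, hz2, hz3, hz4⟩ := HG X hXX₀ k hk1 hkX (zr S r Q) hZ 0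
  rw [zero_add] at hz4
  obtain ⟨Ssf, hSsf⟩ : ∃ Ssf : Finset ℕ, Ssf = (Ioc 0 X).filter (fun x => ∀ p ∈ Pr 0 z, x % p ∉ zr S r Q p) := ⟨_, rfl⟩
  rw [← hSsf] at hz4
  have hcount : (1 / 2 : ℝ) * (X : ℝ) ^ (1 - ε / 4) ≤ Ssf.card := by
    have h1 := (abs_le.1 hz4).1
    have h2 : (1 / 2 : ℝ) ^ k ≤ 1 / 2 := by
      calc (1 / 2 : ℝ) ^ k ≤ (1 / 2 : ℝ) ^ 1 := pow_le_pow_of_le_one (by norm_num) (by norm_num) hk1
        _ = 1 / 2 := pow_one _
    have h3 : 0 ≤ X * VV (zr S r Q) 0 z := mul_nonneg hX0.le (vv_pos hZ 0 z).le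
    nlinarith
  have hzx : (x : ℝ) ^ (c / k) ≤ z := by
    refine le_trans ?_ hz1
    calc (x : ℝ) ^ (c / k) = ((x : ℝ) ^ (1 / 2 : ℝ)) ^ (2 * c / k) := by
          rw [← Real.rpow_mul hx0.le]
          congr 1
          ring
      _ ≤ (X : ℝ) ^ (2 * c / k) := Real.rpow_le_rpow (by positivity) hXhalf (by positivity)
      _ ≤ (X : ℝ) ^ (c₀ / k) := by
          apply Real.rpow_le_rpow_of_exponent_le hX1
          gcongr
          linarith
  -- the injection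
  obtain ⟨W, hW⟩ : ∃ W : Finset ℕ, W = (Icc 1 x).filter (fun n : ℕ =>
      (∀ a ∈ S, ∀ p : ℕ, p.Prime → (p : ℤ) ∣ n + a → (x : ℝ) ^ (c / k) < p) ∧
      ∀ b ∈ T, (∃ q : ℕ, q.Prime ∧ (q : ℝ) ≤ (Real.log x) ^ 3 ∧ (q : ℤ) ∣ n + b) ∧
        (Real.log x) ^ 3 < |((n : ℤ) + b : ℝ)|) := ⟨_, rfl⟩
  rw [← hW]
  have himg : Ssf.image (fun m : ℕ => (r + Q * m).toNat) ⊆
      W ∪ (Icc 1 x).filter (fun n : ℕ => ∃ b ∈ T, |((n : ℤ) + b : ℝ)| ≤ (Real.log x) ^ 3) := by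
    intro n hn
    obtain ⟨m, hm, rfl⟩ := mem_image.1 hn
    rw [hSsf, mem_filter, mem_Ioc] at hm
    have hn0 : (((r + Q * m).toNat : ℕ) : ℤ) = r + Q * m := by
      rw [Int.toNat_of_nonneg]
      positivity
    have hmem : (r + Q * m).toNat ∈ Icc 1 x := by
      rw [mem_Icc]
      have h1 : r + Q * m ≤ x := by
        have h2 : (m : ℤ) + 1 ≤ ((x / Q : ℕ) : ℤ) := by
          have := hm.1.2
          rw [hX] at this
          have := hm.1.1
          omega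
        have h3 : ((x / Q : ℕ) : ℤ) * Q ≤ x := by exact_mod_cast Nat.div_mul_le_self x Q
        have hQi : (0 : ℤ) < Q := by exact_mod_cast hQ0
        nlinarith
      have h2 : 1 ≤ r + Q * m := by
        have : (0 : ℤ) ≤ Q * m := by positivity
        linarith
      constructor <;> omega
    rw [mem_union]
    by_cases hnear : ∃ b ∈ T, |((((r + Q * m).toNat : ℕ) : ℤ) + b : ℝ)| ≤ (Real.log x) ^ 3
    · right
      rw [mem_filter]
      exact ⟨hmem, hnear⟩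
    · left
      push Not at hnear
      rw [hW, mem_filter]
      refine ⟨hmem, fun a ha p hp hd => ?_, fun b hb => ⟨⟨f b, (hf b hb).1, (hf b hb).2.1, ?_⟩, hnear b hb⟩⟩
      · by_contra hcon
        have h1 : (p : ℝ) ≤ z := (not_lt.1 hcon).trans hzx
        have h2 : p ≤ z := by exact_mod_cast h1
        apply hm.2 p (Pr_mem.2 ⟨⟨hp.pos, h2⟩, hp⟩)
        unfold zr
        rw [mem_filter, mem_range]
        refine ⟨Nat.mod_lt _ hp.pos, a, ha, ?_⟩
        rw [hn0] at hd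
        have h3 : r + Q * ((m % p : ℕ) : ℤ) + a = (r + Q * m + a) - Q * (p * ((m / p : ℕ) : ℤ)) := by
          have h4 : (m : ℤ) = ((m % p : ℕ) : ℤ) + p * ((m / p : ℕ) : ℤ) := by
            exact_mod_cast (Nat.mod_add_div m p).symm
          rw [h4]
          push_cast
          ring
        rw [h3]
        exact dvd_sub hd (dvd_mul_of_dvd_right (dvd_mul_right _ _) _)
      · rw [hn0]
        have h1 : (f b : ℤ) ∣ Q := by
          rw [hQ]
          exact_mod_cast dvd_prod_of_mem f hb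
        have h2 : r + Q * m + b = (r + b) + Q * m := by ring
        rw [h2]
        exact dvd_add (hr b hb) (dvd_mul_of_dvd_left h1 _)
  have hcardimg : (Ssf.image (fun m : ℕ => (r + Q * m).toNat)).card = Ssf.card := by
    apply card_image_of_injOn
    intro m _ m' _ h
    simp only at h
    have hQi : (0 : ℤ) < Q := by exact_mod_cast hQ0
    have h1 : (0 : ℤ) ≤ r + Q * m := by positivity
    have h2 : (0 : ℤ) ≤ r + Q * m' := by positivity
    have h3 : r + Q * m = r + Q * (m' : ℤ) := by omega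
    have h4 : (Q : ℤ) * m = Q * m' := by linarith
    have h5 := mul_left_cancel₀ hQi.ne' h4
    exact_mod_cast h5
  have hY1 : 1 ≤ (Real.log x) ^ 3 := one_le_pow₀ hL1
  have hnear := near_count T x ((Real.log x) ^ 3) hY1
  have hU : (Ssf.card : ℝ) ≤ W.card + T.card * (3 * (Real.log x) ^ 3) := by
    have h1 : Ssf.card ≤ W.card + ((Icc 1 x).filter (fun n : ℕ => ∃ b ∈ T, |((n : ℤ) + b : ℝ)| ≤ (Real.log x) ^ 3)).card := by
      rw [← hcardimg]
      exact (card_le_card himg).trans (card_union_le _ _)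
    have h2 : (Ssf.card : ℝ) ≤ W.card +
        (((Icc 1 x).filter (fun n : ℕ => ∃ b ∈ T, |((n : ℤ) + b : ℝ)| ≤ (Real.log x) ^ 3)).card : ℝ) := by
      exact_mod_cast h1
    linarith
  have hT4 : T.card * (3 * (Real.log x) ^ 3) ≤ (x : ℝ) ^ (1 / 2 : ℝ) / 4 := by
    calc T.card * (3 * (Real.log x) ^ 3) ≤ Real.log x * (3 * (Real.log x) ^ 3) := by gcongr
      _ = 12 * (Real.log x) ^ 4 / 4 := by ring
      _ ≤ (x : ℝ) ^ (1 / 2 : ℝ) / 4 := by gcongr
  have hmain : (x : ℝ) ^ (1 - ε / 2) ≤ (X : ℝ) ^ (1 - ε / 4) := by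
    calc (x : ℝ) ^ (1 - ε / 2) ≤ (x : ℝ) ^ ((1 - 4 * c) * (1 - ε / 4)) := by
          apply Real.rpow_le_rpow_of_exponent_le hx1
          nlinarith
      _ = ((x : ℝ) ^ (1 - 4 * c)) ^ (1 - ε / 4) := by rw [Real.rpow_mul hx0.le]
      _ ≤ (X : ℝ) ^ (1 - ε / 4) := Real.rpow_le_rpow (by positivity) hXge (by linarith)
  have h1 : (x : ℝ) ^ (1 - ε / 2) = (x : ℝ) ^ (ε / 2) * (x : ℝ) ^ (1 - ε) := by
    rw [← Real.rpow_add hx0]
    congr 1
    ring
  have h2 : 4 * (x : ℝ) ^ (1 - ε) ≤ (x : ℝ) ^ (1 - ε / 2) := by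
    rw [h1]
    gcongr
  have h3 : (x : ℝ) ^ (1 / 2 : ℝ) ≤ (x : ℝ) ^ (1 - ε / 2) :=
    Real.rpow_le_rpow_of_exponent_le hx1 (by linarith)
  linarith

end Pool.Agent.X32.Uni
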