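import Pool.Agent.X32.Uni.Grow5

/-!
Many shifts: final form.
-/

set_option autoImplicit false

namespace Pool.Agent.X32.Uni

open Finset Filter

/-- `S` is admissible -/
def AdmS (S : Finset ℤ) : Prop := ∀ p : ℕ, p.Prime → ∃ y : ℤ, ∀ a ∈ S, ¬ (p : ℤ) ∣ y + a

open Classical in
/-- the good `n` -/
noncomputable def GoodG (S T : Finset ℤ) (c : ℝ) (x : ℕ) : Finset ℕ :=
  (Icc 1 x).filter (fun n : ℕ =>
    (∀ a ∈ S, (((n : ℤ) + a).natAbs.primeFactorsList.length : ℝ) ≤ S.card / c ∧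
      ∀ p : ℕ, p.Prime → (p : ℤ) ∣ n + a → (x : ℝ) ^ (c / S.card) < p) ∧
    ∀ b ∈ T, Real.log x ^ 3 < |((n : ℝ) + b)| ∧ ∃ q : ℕ, q.Prime ∧ (q : ℝ) ≤ Real.log x ^ 3 ∧ (q : ℤ) ∣ n + b)

theorem list_low (l : List ℕ) (y : ℝ) (hy : 1 ≤ y) (h : ∀ p ∈ l, y < p) : y ^ l.length ≤ l.prod := by
  induction l with
  | nil => simp
  | cons a l ih =>
    rw [List.length_cons, List.prod_cons, pow_succ, Nat.cast_mul, mul_comm]
    have h1 := ih fun p hp => h p (List.mem_cons_of_mem _ hp)
    have h2 := (h a List.mem_cons_self).le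
    gcongr

theorem growF (ε B : ℝ) (hε : 0 < ε) (hB : 1 ≤ B) : ∃ c : ℝ, 0 < c ∧ ∃ x₀ : ℕ, ∀ x : ℕ,
    x₀ ≤ x → ∀ S T : Finset ℤ, AdmS S → S.Nonempty → Disjoint S T →
    ((S.card : ℝ) + T.card) * Real.log (Real.log x) ≤ c * Real.log x →
    (∀ a ∈ S ∪ T, |(a : ℝ)| ≤ (x : ℝ) ^ B) →
    (x : ℝ) ^ (1 - ε) ≤ ((GoodG S T c x).card : ℝ) := by
  classical
  obtain ⟨c, hc0, hc1, x₀, H⟩ := growK (min ε 1) (by positivity) (min_le_right _ _) B hB
  obtain ⟨c', hc'⟩ : ∃ c' : ℝ, c' = c / (B + 1) := ⟨_, rfl⟩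
  have hB0 : 0 < B + 1 := by linarith
  have hc'0 : 0 < c' := by rw [hc']; positivity
  have hc'c : c' ≤ c := by rw [hc']; exact div_le_self hc0.le (by linarith)
  refine ⟨c', hc'0, max x₀ 8, fun x hx S T hadm hSne hST hcard hbd => ?_⟩
  have hx8 : (8 : ℝ) ≤ x := by exact_mod_cast le_of_max_le_right hx
  have hx2r : (2 : ℝ) ≤ x := by linarith
  have hl2 : 2 ≤ Real.log x := by
    have h1 : Real.log 8 ≤ Real.log x := Real.log_le_log (by norm_num) hx8
    have h2 : Real.log 8 = 3 * Real.log 2 := by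
      rw [show (8 : ℝ) = 2 ^ 3 by norm_num, Real.log_pow]
      norm_num
    have h3 := Real.log_two_gt_d9
    linarith
  have hx0 : (0 : ℝ) < x := by linarith
  have hlx : 0 < Real.log x := Real.log_pos (by linarith)
  have hk1 : 1 ≤ S.card := card_pos.2 hSne
  have hk1r : (1 : ℝ) ≤ S.card := by exact_mod_cast hk1
  have hll0 : 0 ≤ Real.log (Real.log x) := Real.log_nonneg (by linarith)
  have hyl : Real.log x ≤ (x : ℝ) ^ (c / S.card) := by
    rw [Real.rpow_def_of_pos hx0]
    calc Real.log x = Real.exp (Real.log (Real.log x)) := (Real.exp_log hlx).symm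
      _ ≤ Real.exp (Real.log x * (c / S.card)) := by
          apply Real.exp_le_exp.2
          rw [mul_div_assoc', le_div_iff₀ (by linarith)]
          have h3 : (0 : ℝ) ≤ T.card * Real.log (Real.log x) := by positivity
          have h4 : c' * Real.log x ≤ c * Real.log x := by gcongr
          nlinarith
  have h1 := H x (le_of_max_le_left hx) S T hST hSne hadm (hcard.trans (by gcongr)) (fun a ha => by
    push_cast
    exact hbd a ha)
  refine le_trans (Real.rpow_le_rpow_of_exponent_le (by linarith) (by linarith [min_le_left ε 1])) (h1.trans ?_)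
  have hsub : ((Icc 1 x).filter (fun n : ℕ =>
      (∀ a ∈ S, ∀ p : ℕ, p.Prime → (p : ℤ) ∣ n + a → (x : ℝ) ^ (c / S.card) < p) ∧
      ∀ b ∈ T, (∃ q : ℕ, q.Prime ∧ (q : ℝ) ≤ (Real.log x) ^ 3 ∧ (q : ℤ) ∣ n + b) ∧
        (Real.log x) ^ 3 < |((n : ℤ) + b : ℝ)|)) ⊆ GoodG S T c' x := by
    intro n hn
    rw [mem_filter] at hn
    unfold GoodG
    rw [mem_filter]
    have hnx := Finset.mem_Icc.1 hn.1
    refine ⟨hn.1, fun a ha => ⟨?_, fun p hp hd => ?_⟩, fun b hb => ⟨?_, (hn.2.2 b hb).1⟩⟩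
    · have hne : (n : ℤ) + a ≠ 0 := by
        intro h0
        have h2 := hn.2.1 a ha 2 Nat.prime_two (by rw [h0]; exact dvd_zero _)
        push_cast at h2
        linarith
      have h2 : ((x : ℝ) ^ (c / S.card)) ^ ((n : ℤ) + a).natAbs.primeFactorsList.length ≤
          (((n : ℤ) + a).natAbs : ℝ) := by
        have h3 := list_low ((n : ℤ) + a).natAbs.primeFactorsList _ (by linarith : 1 ≤ (x : ℝ) ^ (c / S.card))
          (fun p hp => hn.2.1 a ha p (Nat.prime_of_mem_primeFactorsList hp)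
            (Int.natCast_dvd.2 (Nat.dvd_of_mem_primeFactorsList hp)))
        rwa [Nat.prod_primeFactorsList (Int.natAbs_ne_zero.2 hne)] at h3
      have h3 : (((n : ℤ) + a).natAbs : ℝ) ≤ (x : ℝ) ^ (B + 1) := by
        have h4 : (((n : ℤ) + a).natAbs : ℝ) = |(n : ℝ) + a| := by
          rw [Nat.cast_natAbs]
          push_cast
          rfl
        rw [h4]
        have h5 := hbd a (mem_union_left _ ha)
        have h6 : (n : ℝ) ≤ x := by exact_mod_cast hnx.2
        have h7 : (x : ℝ) ≤ (x : ℝ) ^ B := by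
          calc (x : ℝ) = (x : ℝ) ^ (1 : ℝ) := (Real.rpow_one _).symm
            _ ≤ (x : ℝ) ^ B := Real.rpow_le_rpow_of_exponent_le (by linarith) hB
        calc |(n : ℝ) + a| ≤ |(n : ℝ)| + |(a : ℝ)| := abs_add_le _ _
          _ = n + |(a : ℝ)| := by rw [Nat.abs_cast]
          _ ≤ 2 * (x : ℝ) ^ B := by linarith
          _ ≤ x * (x : ℝ) ^ B := by gcongr
          _ = (x : ℝ) ^ (B + 1) := by rw [Real.rpow_add hx0, Real.rpow_one, mul_comm]
      have h4 := Real.log_le_log (by positivity) (h2.trans h3)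
      rw [Real.log_pow, Real.log_rpow hx0, Real.log_rpow hx0] at h4
      rw [hc', div_div_eq_mul_div, le_div_iff₀ hc0]
      have h5 : (((n : ℤ) + a).natAbs.primeFactorsList.length : ℝ) * (c / S.card) ≤ B + 1 := by
        have h6 : (((n : ℤ) + a).natAbs.primeFactorsList.length : ℝ) * (c / S.card) * Real.log x ≤ (B + 1) * Real.log x := by
          linarith
        exact le_of_mul_le_mul_right h6 hlx
      have h6 : (((n : ℤ) + a).natAbs.primeFactorsList.length : ℝ) * (c / S.card) * S.card =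
          ((n : ℤ) + a).natAbs.primeFactorsList.length * c := by
        field_simp
      rw [← h6, mul_comm (S.card : ℝ)]
      gcongr
    · refine lt_of_le_of_lt ?_ (hn.2.1 a ha p hp hd)
      apply Real.rpow_le_rpow_of_exponent_le (by linarith)
      gcongr
    · have := (hn.2.2 b hb).2
      push_cast at this
      exact this
  exact_mod_cast card_le_card hsub

end Pool.Agent.X32.Uni
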