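import Pool.Agent.X32.Uni.Tup
import Pool.Agent.X32.Uni.Box

/-!
Isolation, uniformly: congruences which force bounded prime factors in all integers near the values of given linear
forms, with a bounded number of exceptional offsets.
-/

set_option autoImplicit false

namespace Pool.Agent.X32.Uni

open Finset Filter

variable {k : ℕ}

theorem iso_uni (k E L : ℕ) : ∃ C : ℕ, 1 ≤ C ∧ ∀ a b : Fin k → ℤ, (∀ l, a l ≠ 0) → (∀ l, (a l).natAbs ≤ E) →
    ∃ Ex : Fin k → Finset ℤ, (∀ l, (Ex l).card < k) ∧ ∃ W r : ℕ, 1 ≤ W ∧ W ≤ C ∧ r < W ∧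
    (∀ p : ℕ, p.Prime → p ∣ W → ∀ l, ¬ (p : ℤ) ∣ a l * r + b l) ∧
    ∀ n : ℕ, n ≡ r [MOD W] → ∀ (l : Fin k) (h : ℤ), h ≠ 0 → |h| ≤ L → h ∉ Ex l →
      ∃ q : ℕ, q.Prime ∧ q ≤ C ∧ (q : ℤ) ∣ a l * n + b l + h := by
  classical
  obtain ⟨M, hM⟩ : ∃ M : ℕ, M = E * L + E + 2 * L + 1 := ⟨_, rfl⟩
  obtain ⟨Hs, hHs⟩ : ∃ Hs : Finset ℤ, Hs = (Icc (-(L : ℤ)) L).erase 0 := ⟨_, rfl⟩
  have hHm : ∀ h : ℤ, h ∈ Hs ↔ h ≠ 0 ∧ |h| ≤ L := by
    intro h
    rw [hHs, mem_erase, mem_Icc, abs_le]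
  obtain ⟨T, hT⟩ : ∃ T : ℕ, T = k * Hs.card := ⟨_, rfl⟩
  obtain ⟨Q, hQ⟩ : ∃ Q : Finset ℕ, Q = (range (k * T + 1)).image (fun i => Nat.nth Nat.Prime (M + i)) := ⟨_, rfl⟩
  have hQp : ∀ q ∈ Q, q.Prime := by
    intro q hq
    rw [hQ, mem_image] at hq
    obtain ⟨i, _, rfl⟩ := hq
    exact Nat.nth_mem_of_infinite Nat.infinite_setOfPred_prime _
  have hQM : ∀ q ∈ Q, M < q := by
    intro q hq
    rw [hQ, mem_image] at hq
    obtain ⟨i, _, rfl⟩ := hq
    have := Nat.add_two_le_nth_prime (M + i)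
    omega
  have hQc : Q.card = k * T + 1 := by
    rw [hQ, card_image_of_injective, card_range]
    intro i i' hii
    have := Nat.nth_injective Nat.infinite_setOfPred_prime hii
    omega
  have hnd : ∀ q ∈ Q, ∀ v : ℤ, v ≠ 0 → v.natAbs ≤ M → ¬ (q : ℤ) ∣ v := by
    intro q hq v hv hlt hd
    have h3 := Int.natAbs_dvd_natAbs.2 hd
    rw [Int.natAbs_natCast] at h3
    have h4 := Nat.le_of_dvd (Int.natAbs_pos.2 hv) h3
    have := hQM q hq
    omega
  refine ⟨∏ q ∈ Q, q, Nat.one_le_iff_ne_zero.2 (prod_ne_zero_iff.2 fun q hq => (hQp q hq).ne_zero), ?_⟩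
  intro a b ha haE
  have hpos : 0 < ∏ q ∈ Q, q := Nat.pos_of_ne_zero (prod_ne_zero_iff.2 fun q hq => (hQp q hq).ne_zero)
  obtain ⟨D, hD⟩ : ∃ D : Fin k → Fin k → ℤ → Finset ℕ, D = fun l m h =>
    Q.filter (fun q : ℕ => (q : ℤ) ∣ a l * b m - a m * (b l + h)) := ⟨_, rfl⟩
  obtain ⟨S, hS⟩ : ∃ S : Fin k → ℤ → Finset ℕ, S = fun l h =>
    Q.filter (fun q : ℕ => ∀ m, m ≠ l → ¬ (q : ℤ) ∣ a l * b m - a m * (b l + h)) := ⟨_, rfl⟩
  obtain ⟨Ex, hEx⟩ : ∃ Ex : Fin k → Finset ℤ, Ex = fun l => Hs.filter (fun h => (S l h).card < T) := ⟨_, rfl⟩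
  have hExc : ∀ l, (Ex l).card < k := by
    intro l
    by_contra hcon
    rw [not_lt] at hcon
    have h1 : ∀ h ∈ Ex l, k * T + 2 ≤ T + ∑ m ∈ univ.erase l, (D l m h).card := by
      intro h hh
      rw [hEx] at hh
      simp only at hh
      rw [mem_filter] at hh
      have h2 : Q ⊆ S l h ∪ (univ.erase l).biUnion (fun m => D l m h) := by
        intro q hq
        rw [mem_union]
        by_cases h3 : ∀ m, m ≠ l → ¬ (q : ℤ) ∣ a l * b m - a m * (b l + h)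
        · left
          rw [hS]
          exact mem_filter.2 ⟨hq, h3⟩
        · right
          push Not at h3
          obtain ⟨m, h4, h5⟩ := h3
          rw [mem_biUnion]
          refine ⟨m, mem_erase.2 ⟨h4, mem_univ _⟩, ?_⟩
          rw [hD]
          exact mem_filter.2 ⟨hq, h5⟩
      have h3 := (card_le_card h2).trans ((card_union_le _ _).trans (Nat.add_le_add_left card_biUnion_le _))
      rw [hQc] at h3
      omega
    have h2 : ∀ m ∈ univ.erase l, ∑ h ∈ Ex l, (D l m h).card ≤ k * T + 1 := by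
      intro m hm
      rw [← hQc, ← card_biUnion]
      · apply card_le_card
        intro q hq
        rw [mem_biUnion] at hq
        obtain ⟨h, _, hq⟩ := hq
        rw [hD] at hq
        exact (mem_filter.1 hq).1
      · intro h hh h' hh' hne
        show Disjoint (D l m h) (D l m h')
        rw [disjoint_left]
        intro q hq hq'
        rw [hD] at hq hq'
        simp only at hq hq'
        rw [mem_filter] at hq hq'
        rw [mem_coe, hEx] at hh hh'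
        simp only at hh hh'
        rw [mem_filter, hHm] at hh hh'
        have h3 := dvd_sub hq'.2 hq.2
        have h4 : a l * b m - a m * (b l + h') - (a l * b m - a m * (b l + h)) = a m * (h - h') := by ring
        rw [h4] at h3
        rcases (Nat.prime_iff_prime_int.1 (hQp q hq.1)).dvd_mul.1 h3 with h5 | h5
        · refine hnd q hq.1 _ (ha m) ?_ h5
          have := haE m
          have : E ≤ M := by rw [hM]; omega
          omega
        · refine hnd q hq.1 _ (sub_ne_zero.2 hne) ?_ h5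
          have e1 := abs_le.1 hh.1.2
          have e2 := abs_le.1 hh'.1.2
          omega
    have h3 : ∑ h ∈ Ex l, (k * T + 2) ≤ ∑ h ∈ Ex l, (T + ∑ m ∈ univ.erase l, (D l m h).card) :=
      sum_le_sum h1
    rw [sum_const, smul_eq_mul, sum_add_distrib, sum_const, smul_eq_mul, sum_comm] at h3
    have h4 : ∑ m ∈ univ.erase l, ∑ h ∈ Ex l, (D l m h).card ≤ (k - 1) * (k * T + 1) := by
      refine (sum_le_sum h2).trans ?_
      rw [sum_const, smul_eq_mul, card_erase_of_mem (mem_univ l), card_univ, Fintype.card_fin]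
    have hk1 : 1 ≤ k := by
      have := l.isLt
      omega
    obtain ⟨k', rfl⟩ : ∃ k', k = k' + 1 := ⟨k - 1, by omega⟩
    obtain ⟨x, hx⟩ : ∃ x, (Ex l).card = k' + 1 + x := ⟨(Ex l).card - (k' + 1), by omega⟩
    rw [Nat.add_sub_cancel] at h4
    rw [hx] at h3
    have e1 : (k' + 1 + x) * ((k' + 1) * T + 2) = (k' + 1 + x) * T + (k' + 1) * (k' * T + 2) + x * (k' * T + 2) := by
      ring
    have e2 : (k' + 1) * (k' * T + 2) = k' * ((k' + 1) * T + 1) + k' + 2 := by ring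
    have e3 : 0 ≤ x * (k' * T + 2) := Nat.zero_le _
    omega
  refine ⟨Ex, hExc, ?_⟩
  -- the distinct representatives
  obtain ⟨Pa, hPa⟩ : ∃ Pa : Finset (Fin k × ℤ), Pa = ((univ : Finset (Fin k)) ×ˢ Hs).filter (fun p => p.2 ∉ Ex p.1) :=
    ⟨_, rfl⟩
  have hPm : ∀ p : Fin k × ℤ, p ∈ Pa ↔ (p.2 ≠ 0 ∧ |p.2| ≤ L) ∧ p.2 ∉ Ex p.1 := by
    intro p
    rw [hPa, mem_filter, mem_product, hHm]
    simp
  have hPc : Pa.card ≤ T := by
    rw [hPa, hT]
    refine (card_filter_le _ _).trans ?_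
    rw [card_product, card_univ, Fintype.card_fin]
  have hSc : ∀ p ∈ Pa, T ≤ (S p.1 p.2).card := by
    intro p hp
    rw [hPm] at hp
    by_contra hcon
    rw [not_le] at hcon
    apply hp.2
    rw [hEx]
    exact mem_filter.2 ⟨(hHm _).2 hp.1, hcon⟩
  obtain ⟨f, hfi, hfS⟩ := (Finset.all_card_le_biUnion_card_iff_exists_injective
    (fun p : {p // p ∈ Pa} => S p.1.1 p.1.2)).1 (by
      intro s
      rcases s.eq_empty_or_nonempty with h0 | ⟨p, hp⟩
      · rw [h0]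
        simp
      · have h1 : s.card ≤ Pa.card := by
          have h2 := card_le_univ s
          rwa [Fintype.card_coe] at h2
        have h2 : (S p.1.1 p.1.2).card ≤ (s.biUnion (fun p : {p // p ∈ Pa} => S p.1.1 p.1.2)).card :=
          card_le_card (subset_biUnion_of_mem (fun p : {p // p ∈ Pa} => S p.1.1 p.1.2) hp)
        have h3 := hSc p.1 p.2
        omega)
  have hfQ : ∀ p, f p ∈ Q := by
    intro p
    have h1 := hfS p
    rw [hS] at h1
    exact (mem_filter.1 h1).1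
  have hfn : ∀ p : {p // p ∈ Pa}, ∀ m, m ≠ p.1.1 → ¬ (f p : ℤ) ∣ a p.1.1 * b m - a m * (b p.1.1 + p.1.2) := by
    intro p
    have h1 := hfS p
    rw [hS] at h1
    exact (mem_filter.1 h1).2
  have hroot : ∀ p : {p // p ∈ Pa}, ∃ ρ : ℕ, (f p : ℤ) ∣ a p.1.1 * ρ + (b p.1.1 + p.1.2) := by
    intro p
    obtain ⟨ρ, h1, h2⟩ := lin_root (hQp _ (hfQ p)) (hnd _ (hfQ p) _ (ha p.1.1) (by
      have := haE p.1.1
      have : E ≤ M := by rw [hM]; omega
      omega)) (b p.1.1 + p.1.2)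
    exact ⟨ρ, (h2 ρ h1).2 rfl⟩
  choose ρ hρ using hroot
  obtain ⟨⟨r0, hr0⟩⟩ : Nonempty {r : ℕ // ∀ p ∈ (univ : Finset {p // p ∈ Pa}), r ≡ ρ p [MOD f p]} :=
    ⟨Nat.chineseRemainderOfFinset ρ f univ (fun p _ => (hQp _ (hfQ p)).ne_zero) (by
      intro p _ p' _ hne
      exact (Nat.coprime_primes (hQp _ (hfQ p)) (hQp _ (hfQ p'))).2 (fun h => hne (hfi h)))⟩
  obtain ⟨W, hW⟩ : ∃ W : ℕ, W = ∏ p : {p // p ∈ Pa}, f p := ⟨_, rfl⟩
  have hW1 : 1 ≤ W := by
    rw [hW]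
    exact Nat.one_le_iff_ne_zero.2 (prod_ne_zero_iff.2 fun p _ => (hQp _ (hfQ p)).ne_zero)
  have hfW : ∀ p, f p ∣ W := fun p => by
    rw [hW]
    exact dvd_prod_of_mem _ (mem_univ p)
  have hWC : W ≤ ∏ q ∈ Q, q := by
    rw [hW, ← prod_image (s := univ) (g := f) (f := fun q => q) (fun x _ y _ h => hfi h)]
    apply Finset.prod_le_prod_of_subset_of_one_le'
    · intro q hq
      rw [mem_image] at hq
      obtain ⟨p, _, rfl⟩ := hq
      exact hfQ p
    · intro q hq _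
      exact (hQp q hq).one_lt.le
  have hrz : ∀ n : ℕ, ∀ p, n ≡ r0 [MOD f p] → (f p : ℤ) ∣ a p.1.1 * n + b p.1.1 + p.1.2 := by
    intro n p hn
    have h1 : n ≡ ρ p [MOD f p] := hn.trans (hr0 p (mem_univ _))
    have h2 : (f p : ℤ) ∣ (ρ p : ℤ) - n := Int.modEq_iff_dvd.1 (Int.natCast_modEq_iff.2 h1)
    have h3 := dvd_sub (hρ p) (h2.mul_left (a p.1.1))
    have h4 : a p.1.1 * (ρ p : ℤ) + (b p.1.1 + p.1.2) - a p.1.1 * ((ρ p : ℤ) - n) =
        a p.1.1 * n + b p.1.1 + p.1.2 := by ring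
    rwa [h4] at h3
  refine ⟨W, r0 % W, hW1, hWC, Nat.mod_lt _ hW1, ?_, ?_⟩
  · intro p hp hpW l hd
    rw [hW] at hpW
    obtain ⟨z, _, hpd⟩ := (hp.prime.dvd_finsetProd_iff _).1 hpW
    have h1 : p = f z := (Nat.prime_dvd_prime_iff_eq hp (hQp _ (hfQ z))).1 hpd
    subst h1
    have hmod : r0 % W ≡ r0 [MOD f z] := (Nat.mod_modEq r0 W).of_dvd (hfW z)
    have h2 := hrz (r0 % W) z hmod
    by_cases hl : l = z.1.1
    · rw [hl] at hd
      have h3 := dvd_sub h2 hd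
      rw [add_sub_cancel_left] at h3
      have h4 := ((hPm _).1 z.2).1
      refine hnd _ (hfQ z) _ h4.1 ?_ h3
      have e1 := abs_le.1 h4.2
      omega
    · have h3 := dvd_sub (hd.mul_left (a z.1.1)) (h2.mul_left (a l))
      have h4 : a z.1.1 * (a l * ((r0 % W : ℕ) : ℤ) + b l) - a l * (a z.1.1 * ((r0 % W : ℕ) : ℤ) + b z.1.1 + z.1.2) =
          a z.1.1 * b l - a l * (b z.1.1 + z.1.2) := by ring
      rw [h4] at h3
      exact hfn z l hl h3
  · intro n hn l h h0 hL hne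
    have hz : (l, h) ∈ Pa := (hPm _).2 ⟨⟨h0, hL⟩, hne⟩
    have hmod : n ≡ r0 [MOD f ⟨(l, h), hz⟩] :=
      (hn.of_dvd (hfW ⟨(l, h), hz⟩)).trans ((Nat.mod_modEq r0 W).of_dvd (hfW ⟨(l, h), hz⟩))
    refine ⟨f ⟨(l, h), hz⟩, hQp _ (hfQ _), Nat.le_of_dvd hpos (dvd_prod_of_mem _ (hfQ _)), ?_⟩
    exact hrz n ⟨(l, h), hz⟩ hmod

end Pool.Agent.X32.Uni
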