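import Pool.Agent.X32.Uni.UncS
import Pool.Agent.X32.Uni.Short3

/-!
Arbitrary systems of polynomials in short intervals, uniformly, without local conditions.
-/

set_option autoImplicit false

namespace Pool.Agent.X32.Uni

open Finset Filter
open Polynomial (C X)
open scoped Polynomial
open Pool.Agent.Y843.HS (Pr VV Pr_mem Pr_prime VV_split Sv)
open Pool.Agent.X32.CL
open Pool.Agent.X32.Fam (ex_J log_small')

variable {m : ℕ}

/-- admissible sets of classes -/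
def OmA (D : ℕ) (Ω : ℕ → Finset ℕ) : Prop := ∀ p : ℕ, p.Prime → (Ω p).card ≤ D ∧ (Ω p).card < p ∧ ∀ x ∈ Ω p, x < p

theorem OmA.nonneg {D : ℕ} {Ω : ℕ → Finset ℕ} (h : OmA D Ω) (a b : ℕ) : 0 ≤ VV Ω a b := by
  unfold VV
  refine prod_nonneg fun p hp => ?_
  have hpp := Pr_prime hp
  have hp0 : (0 : ℝ) < p := by exact_mod_cast hpp.pos
  have h8 : ((Ω p).card : ℝ) < p := by exact_mod_cast (h p hpp).2.1
  rw [sub_nonneg, div_le_one hp0]
  exact h8.le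

theorem OmA.small {D : ℕ} {Ω : ℕ → Finset ℕ} (h : OmA D Ω) (s : ℕ) : 1 / (Mz s : ℝ) ≤ VV Ω 0 s := by
  unfold VV Mz
  push_cast
  rw [one_div, ← Finset.prod_inv_distrib]
  apply Finset.prod_le_prod
  · intro p hp
    positivity
  · intro p hp
    have hpp := Pr_prime hp
    have hp0 : (0 : ℝ) < p := by exact_mod_cast hpp.pos
    have h2 : ((Ω p).card : ℝ) + 1 ≤ p := by exact_mod_cast (h p hpp).2.1
    rw [inv_eq_one_div, le_sub_iff_add_le, ← add_div, div_le_one hp0]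
    linarith

/-- the upper bound -/
theorem upper_om (D t : ℕ) (ht : 1 ≤ t) (ε cV : ℝ) (hε : 0 < ε) (hcV : 0 < cV) : ∃ KU : ℝ, 0 < KU ∧ ∃ n₀ : ℕ,
    ∀ n : ℕ, n₀ ≤ n → ∀ Ω : ℕ → Finset ℕ, OmA D Ω → cV / Real.log n ^ D ≤ VV Ω 0 n → ∀ A B : ℕ, B ≤ n →
      (n : ℝ) ^ ε ≤ (B : ℝ) - A → ∀ T : Finset ℕ, T ⊆ Ioc A B →
      (∀ x ∈ T, ∀ p : ℕ, p.Prime → (p : ℝ) ≤ (n : ℝ) ^ (1 / (t : ℝ)) → x % p ∉ Ω p) →
      (T.card : ℝ) ≤ KU * ((B : ℝ) - A) * VV Ω 0 n := by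
  classical
  obtain ⟨C, hC, HF⟩ := Pool.Agent.Y151.HS.flc
  obtain ⟨b, hb⟩ : ∃ b : ℕ, b = C * (D + 1) := ⟨_, rfl⟩
  obtain ⟨E, hE⟩ : ∃ E : ℕ, E = C * b := ⟨_, rfl⟩
  have hb1 : 1 ≤ b := by rw [hb]; exact Nat.mul_pos hC (by omega)
  have hE1 : 1 ≤ E := by rw [hE]; exact Nat.mul_pos hC hb1
  have hE0 : (0 : ℝ) < E := by exact_mod_cast hE1
  obtain ⟨t', ht'⟩ : ∃ t' : ℕ, t' = max t ⌈4 * E / ε⌉₊ := ⟨_, rfl⟩
  have htt : t ≤ t' := by rw [ht']; exact le_max_left _ _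
  have ht4 : 4 * E / ε ≤ t' := by
    rw [ht']
    refine (Nat.le_ceil _).trans ?_
    exact_mod_cast le_max_right _ _
  have ht0 : (0 : ℝ) < t := by exact_mod_cast ht
  have ht0' : (0 : ℝ) < t' := lt_of_lt_of_le (by positivity) ht4
  have ht1' : 1 ≤ t' := by exact_mod_cast ht0'
  have htE : 1 / (t' : ℝ) ≤ ε / (4 * E) := by
    rw [div_le_div_iff₀ ht0' (by positivity)]
    rw [div_le_iff₀ hε] at ht4
    linarith
  have hhalf : (1 / 2 : ℝ) ^ b ≤ 1 / 2 := by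
    calc (1 / 2 : ℝ) ^ b ≤ (1 / 2 : ℝ) ^ 1 := pow_le_pow_of_le_one (by norm_num) (by norm_num) hb1
      _ = 1 / 2 := pow_one _
  obtain ⟨cD, hcD, R₀, hden⟩ := Pool.Agent.Y79.HS.den D (2 * t')
  have hM0 := Mz_pos b
  have hM : (0 : ℝ) < Mz b := by exact_mod_cast hM0
  obtain ⟨n₁, h1⟩ := eventually_atTop.1 (pow_ge t' ht1' (max (b + 4) ((R₀ : ℝ) ^ 2 + (b : ℝ) ^ 2)))
  obtain ⟨n₃, h3⟩ := eventually_atTop.1 (log_small' D (1 / cV) (ε / 2) (by positivity))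
  refine ⟨2 * Mz b / cD + 1, by positivity, n₁ + n₃ + 3, ?_⟩
  intro n hn Ω hΩ hVlow A B hBn hAB T₀ hT₀ hT₀p
  have hn1 : 1 ≤ n := by omega
  have hn0 : (0 : ℝ) < n := by exact_mod_cast hn1
  have hnr : (1 : ℝ) ≤ n := by exact_mod_cast hn1
  have hlog : 0 < Real.log n := Real.log_pos (by exact_mod_cast (by omega : 1 < n))
  obtain ⟨y, hy⟩ : ∃ y : ℝ, y = (n : ℝ) ^ (1 / (t' : ℝ)) := ⟨_, rfl⟩
  have h1' := h1 n (by omega)
  rw [← hy] at h1'
  have hyb : (b : ℝ) + 4 < y := lt_of_le_of_lt (le_max_left _ _) h1'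
  have hyR : (R₀ : ℝ) ^ 2 + (b : ℝ) ^ 2 < y := lt_of_le_of_lt (le_max_right _ _) h1'
  have hb0 : (0 : ℝ) ≤ b := Nat.cast_nonneg b
  have hε1 : (1 : ℝ) ≤ (n : ℝ) ^ ε := Real.one_le_rpow hnr hε.le
  have hBA0 : 0 < (B : ℝ) - A := by linarith
  have hAB' : A ≤ B := by
    have : (A : ℝ) ≤ B := by linarith
    exact_mod_cast this
  obtain ⟨L, hL⟩ : ∃ L : ℕ, B = A + L := ⟨B - A, by omega⟩
  have hLr : (L : ℝ) = (B : ℝ) - A := by rw [hL]; push_cast; ring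
  have hSv : ∀ a c, Sv D a c Ω := by
    intro a c p hp
    exact ⟨(hΩ p (Pr_prime hp)).1, (hΩ p (Pr_prime hp)).2.2⟩
  have hε2 : (n : ℝ) ^ (ε / 2) * (n : ℝ) ^ (ε / 2) = (n : ℝ) ^ ε := by
    rw [← Real.rpow_add hn0]
    congr 1
    ring
  have hεp : 0 < (n : ℝ) ^ (ε / 2) := by positivity
  have hy2 : 2 ≤ y := by linarith
  obtain ⟨J, hJ1, hJ2⟩ := ex_J y hy2
  obtain ⟨R, hR⟩ : ∃ R : ℕ, R = 2 ^ 2 ^ J := ⟨_, rfl⟩
  rw [← hR] at hJ1 hJ2
  have hR0R : R₀ ≤ R := by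
    have h4 : (R₀ : ℝ) ^ 2 ≤ (R : ℝ) ^ 2 := by nlinarith
    have h5 : (R₀ : ℝ) ≤ R := le_of_sq_le_sq h4 (Nat.cast_nonneg R)
    exact_mod_cast h5
  have hbR : b ≤ R := by
    have h4 : (b : ℝ) ^ 2 ≤ (R : ℝ) ^ 2 := by nlinarith
    have h5 : (b : ℝ) ≤ R := le_of_sq_le_sq h4 (Nat.cast_nonneg R)
    exact_mod_cast h5
  have hyt : y ^ t' = n := by
    rw [hy, ← Real.rpow_natCast, ← Real.rpow_mul hn0.le, one_div, inv_mul_cancel₀ ht0'.ne', Real.rpow_one]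
  have hnR : n ≤ R ^ (2 * t') := by
    have h4 : y ^ t' ≤ ((R : ℝ) ^ 2) ^ t' := pow_le_pow_left₀ (by linarith) hJ2.le _
    rw [hyt, ← pow_mul] at h4
    exact_mod_cast h4
  have hyn : y ≤ n := by
    rw [← hyt]
    calc y = y ^ 1 := (pow_one y).symm
      _ ≤ y ^ t' := pow_le_pow_right₀ (by linarith) ht1'
  have hRn : R ≤ n := by
    have : (R : ℝ) ≤ n := by linarith
    exact_mod_cast this
  have hyy : y ≤ (n : ℝ) ^ (1 / (t : ℝ)) := by
    rw [hy]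
    apply Real.rpow_le_rpow_of_exponent_le hnr
    apply one_div_le_one_div_of_le ht0
    exact_mod_cast htt
  have hRE : (R : ℝ) ^ E ≤ (n : ℝ) ^ (ε / 2) := by
    calc (R : ℝ) ^ E ≤ y ^ E := pow_le_pow_left₀ (Nat.cast_nonneg R) hJ1 _
      _ = (n : ℝ) ^ (1 / (t' : ℝ) * E) := by
          rw [hy, ← Real.rpow_natCast, ← Real.rpow_mul hn0.le]
      _ ≤ (n : ℝ) ^ (ε / 2) := by
          apply Real.rpow_le_rpow_of_exponent_le hnr
          calc 1 / (t' : ℝ) * E ≤ ε / (4 * E) * E := by gcongr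
            _ = ε / 4 := by field_simp
            _ ≤ ε / 2 := by linarith
  have hflc := HF D b b J (by rw [hb]) (by rw [hb]) Ω (hSv _ _) 1 0 A L le_rfl (by
    intro p hp hd
    have h4 := Nat.le_of_dvd one_pos hd
    have h5 := (Pr_prime hp).two_le
    omega)
  rw [← hR] at hflc
  obtain ⟨Pb, hPb⟩ : ∃ Pb : ℝ, Pb = ∏ p ∈ Pr b R, (1 - ((Ω p).card : ℝ) / p) := ⟨_, rfl⟩
  rw [← hPb] at hflc
  obtain ⟨T, hflc, hT⟩ : ∃ T : Finset ℕ, |((T.card : ℝ)) - (L : ℝ) / (1 : ℕ) * Pb| ≤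
      (1 / 2 : ℝ) ^ b * ((L : ℝ) / (1 : ℕ) * Pb) + ((2 : ℝ) ^ 2 ^ J) ^ (C * b) ∧
    ∀ x, x ∈ T ↔ x ∈ Ioc A (A + L) ∧ (x % 1 = 0 % 1 ∧ ∀ p ∈ Pr b R, x % p ∉ Ω p) :=
    ⟨_, hflc, fun x => by simp only [mem_filter]⟩
  have hPbV : cD / Mz b * Pb ≤ VV Ω 0 n := by
    have h4 : Pb = VV Ω b R := hPb
    rw [h4, ← VV_split Ω (Nat.zero_le R) hRn, ← VV_split Ω (Nat.zero_le b) hbR]
    have a1 := hΩ.small b
    have a3 := hΩ.nonneg b R
    have a4 := hden R n hR0R hnR Ω (hSv _ _)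
    have a5 := hΩ.nonneg 0 b
    calc cD / Mz b * VV Ω b R = (1 / Mz b) * VV Ω b R * cD := by ring
      _ ≤ VV Ω 0 b * VV Ω b R * VV Ω R n := by gcongr
  have hPb0 : 0 ≤ Pb := by
    have h4 : Pb = VV Ω b R := hPb
    rw [h4]
    exact hΩ.nonneg b R
  have hcast : ((2 : ℝ) ^ 2 ^ J) = R := by rw [hR]; push_cast; rfl
  have hL0 : (0 : ℝ) ≤ L := Nat.cast_nonneg L
  have hup : (T.card : ℝ) ≤ 2 * ((L : ℝ) * Pb) + (n : ℝ) ^ (ε / 2) := by
    have h4 := (abs_le.1 hflc).2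
    rw [hcast, ← hE, Nat.cast_one, div_one] at h4
    have h5 : 0 ≤ (L : ℝ) * Pb := by positivity
    have h6 : (1 / 2 : ℝ) ^ b * ((L : ℝ) * Pb) ≤ 1 / 2 * ((L : ℝ) * Pb) :=
      mul_le_mul_of_nonneg_right hhalf h5
    linarith
  have hsub : T₀ ⊆ T := by
    intro x hx
    have hx1 := hT₀ hx
    rw [hT, ← hL]
    refine ⟨hx1, by simp [Nat.mod_one], ?_⟩
    intro p hp
    have hpp := Pr_prime hp
    apply hT₀p x hx p hpp
    have h5 : (p : ℝ) ≤ R := by exact_mod_cast (Pr_mem.1 hp).1.2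
    linarith
  have hcard : (T₀.card : ℝ) ≤ T.card := by exact_mod_cast card_le_card hsub
  have hVn := hΩ.nonneg 0 n
  have herr : (n : ℝ) ^ (ε / 2) ≤ (L : ℝ) * VV Ω 0 n := by
    have h4 := h3 n (by omega)
    have h6 : (1 : ℝ) ≤ (n : ℝ) ^ (ε / 2) * (cV / Real.log n ^ D) := by
      rw [div_mul_eq_mul_div, div_le_iff₀ hcV] at h4
      rw [mul_div_assoc', le_div_iff₀ (by positivity)]
      linarith
    calc (n : ℝ) ^ (ε / 2) = 1 * (n : ℝ) ^ (ε / 2) := (one_mul _).symm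
      _ ≤ ((n : ℝ) ^ (ε / 2) * (cV / Real.log n ^ D)) * (n : ℝ) ^ (ε / 2) := by gcongr
      _ = ((n : ℝ) ^ (ε / 2) * (n : ℝ) ^ (ε / 2)) * (cV / Real.log n ^ D) := by ring
      _ ≤ (L : ℝ) * VV Ω 0 n := by
          rw [hε2, hLr]
          gcongr
  have h7 : Pb ≤ Mz b / cD * VV Ω 0 n := by
    rw [div_mul_eq_mul_div, div_le_iff₀ hM] at hPbV
    rw [div_mul_eq_mul_div, le_div_iff₀ hcD]
    linarith
  calc (T₀.card : ℝ) ≤ 2 * ((L : ℝ) * Pb) + (n : ℝ) ^ (ε / 2) := hcard.trans hup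
    _ ≤ 2 * ((L : ℝ) * (Mz b / cD * VV Ω 0 n)) + (L : ℝ) * VV Ω 0 n := by gcongr
    _ = (2 * Mz b / cD + 1) * ((B : ℝ) - A) * VV Ω 0 n := by
        rw [hLr]
        ring

theorem omA_Zz (D z : ℕ) (f : Fin m → ℤ[X]) (hfD : ∑ k, (f k).natDegree ≤ D)
    (hloc : ∀ p : ℕ, p.Prime → z < p → ∃ x : ℤ, ¬ (p : ℤ) ∣ ∏ k, (f k).eval x) : OmA D (Zz f z) := by
  intro p hp
  unfold Zz
  split_ifs with h
  · refine ⟨by simp, by simpa using hp.pos, fun x hx => absurd hx (notMem_empty _)⟩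
  · have hl := hloc p hp (not_le.1 h)
    refine ⟨(om_le' hp hl).trans hfD, om_lt' hp hl, fun x hx => mem_range.1 (mem_filter.1 hx).1⟩

theorem VZ_eq (f : Fin m → ℤ[X]) (z n : ℕ) : VZ f z n = VV (Zz f z) 0 n := by
  classical
  have hcard0 : ∀ p, p ≤ z → (Zz f z p).card = 0 := by
    intro p hzp
    unfold Zz
    rw [if_pos hzp]
    rfl
  have hcard : ∀ p, z < p → (Zz f z p).card = om f p := by
    intro p hzp
    unfold Zz
    rw [if_neg (not_le.2 hzp)]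
    rfl
  unfold VZ VV
  have h3 : ∏ p ∈ Pr 0 n, (1 - ((Zz f z p).card : ℝ) / p) =
      (∏ p ∈ (Pr 0 n).filter (fun p => z < p), (1 - ((Zz f z p).card : ℝ) / p)) *
      ∏ p ∈ (Pr 0 n).filter (fun p => ¬ z < p), (1 - ((Zz f z p).card : ℝ) / p) :=
    (prod_filter_mul_prod_filter_not _ _ _).symm
  have h4 : ∏ p ∈ (Pr 0 n).filter (fun p => ¬ z < p), (1 - ((Zz f z p).card : ℝ) / p) = 1 := by
    apply prod_eq_one
    intro p hp
    rw [mem_filter] at hp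
    rw [hcard0 p (not_lt.1 hp.2)]
    simp
  rw [h3, h4, mul_one]
  have h5 : (Ioc z n).filter Nat.Prime = (Pr 0 n).filter (fun p => z < p) := by
    ext p
    rw [mem_filter, mem_filter, Pr_mem, mem_Ioc]
    constructor
    · rintro ⟨⟨a, b⟩, c⟩
      exact ⟨⟨⟨c.pos, b⟩, c⟩, a⟩
    · rintro ⟨⟨⟨a, b⟩, c⟩, e⟩
      exact ⟨⟨e, b⟩, c⟩
  rw [h5]
  apply prod_congr rfl
  intro p hp
  rw [mem_filter] at hp
  rw [hcard p hp.2]

theorem upper_z (D t z : ℕ) (ht : 1 ≤ t) (ε cV : ℝ) (hε : 0 < ε) (hcV : 0 < cV) : ∃ KU : ℝ, 0 < KU ∧ ∃ n₀ : ℕ,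
    ∀ n : ℕ, n₀ ≤ n → ∀ (m : ℕ) (f : Fin m → ℤ[X]), ∑ k, (f k).natDegree ≤ D →
      (∀ p : ℕ, p.Prime → z < p → ∃ x : ℤ, ¬ (p : ℤ) ∣ ∏ k, (f k).eval x) →
      cV / Real.log n ^ D ≤ VZ f z n → ∀ A B : ℕ, B ≤ n → (n : ℝ) ^ ε ≤ (B : ℝ) - A → ∀ T : Finset ℕ, T ⊆ Ioc A B →
      (∀ x ∈ T, ∀ k, ∀ q : ℕ, q.Prime → z < q → (q : ℤ) ∣ (f k).eval (x : ℤ) → (n : ℝ) ^ (1 / (t : ℝ)) < q) →
      (T.card : ℝ) ≤ KU * ((B : ℝ) - A) * VZ f z n := by
  obtain ⟨KU, hKU, n₀, h⟩ := upper_om D t ht ε cV hε hcV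
  refine ⟨KU, hKU, n₀, fun n hn m f hfD hloc hV A B hB hAB T hT hTq => ?_⟩
  rw [VZ_eq] at hV ⊢
  refine h n hn (Zz f z) (omA_Zz D z f hfD hloc) hV A B hB hAB T hT ?_
  intro x hx p hp hpy hcon
  unfold Zz at hcon
  split_ifs at hcon with hpz
  · exact absurd hcon (notMem_empty _)
  rw [mem_Zf hp.pos] at hcon
  obtain ⟨k', _, hk'⟩ := (Nat.prime_iff_prime_int.1 hp).exists_mem_finset_dvd hcon
  have := hTq x hx k' p hp (not_le.1 hpz) hk'
  linarith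

/-- the hypotheses: no local condition except for the members of `I` -/
structure SysT (D E K X : ℕ) (f : Fin m → ℤ[X]) (I : Finset (Fin m)) : Prop where
  deg : ∀ l, 1 ≤ (f l).natDegree
  sum : ∑ l, (f l).natDegree ≤ D
  lc : ∀ l, (f l).leadingCoeff.natAbs ≤ E
  size : ∀ l n, n ≤ (f l).natDegree → |(f l).coeff n| ≤ K * (X : ℤ) ^ ((f l).natDegree - n)
  loc : ∀ p : ℕ, p.Prime → ∃ x : ℤ, ∀ l ∈ I, ¬ (p : ℤ) ∣ (f l).eval x

theorem SysT.locBig {D E K X : ℕ} {f : Fin m → ℤ[X]} {I : Finset (Fin m)} (S : SysT D E K X f I)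
    {p : ℕ} (hp : p.Prime) (hpD : max D E < p) : ∃ x : ℤ, ¬ (p : ℤ) ∣ ∏ l, (f l).eval x := by
  have hlc0 : ∀ l, (f l).leadingCoeff ≠ 0 := by
    intro l h
    have h1 := S.deg l
    rw [Polynomial.leadingCoeff_eq_zero] at h
    rw [h, Polynomial.natDegree_zero] at h1
    omega
  obtain ⟨x, hx⟩ := loc_big (∏ l, f l) hp
    (lc_prod_not_dvd f hp (lt_of_le_of_lt (le_max_right _ _) hpD) hlc0 S.lc)
    (lt_of_le_of_lt ((Polynomial.natDegree_prod_le _ _).trans (S.sum.trans (le_max_left _ _))) hpD)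
  exact ⟨x, by rwa [Polynomial.eval_prod] at hx⟩

/-- the substituted system -/
theorem SysT.sub {D E K X : ℕ} {f : Fin m → ℤ[X]} {I : Finset (Fin m)} (S : SysT D E K X f I)
    (hX : 1 ≤ X) (hE : 1 ≤ E) (z : ℕ) (hz : max D E ≤ z) (hz2 : 2 ≤ z) :
    ∃ (r : ℕ) (h : Fin m → ℤ[X]), r ≤ Mze z (E + D * (D + 1)) ∧
      Sbs f h (fun l => (sm z ((f l).eval (r : ℤ)) : ℤ)) (Mze z (E + D * (D + 1))) r ∧
      (∀ l ∈ I, sm z ((f l).eval (r : ℤ)) = 1) ∧ (∀ l, sm z ((f l).eval (r : ℤ)) ≤ Mze z (E + D * (D + 1))) ∧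
      SysA D ((D + 1) * K * (2 * Mze z (E + D * (D + 1))) ^ D) X h := by
  classical
  obtain ⟨e, he⟩ : ∃ e : ℕ, e = E + D * (D + 1) := ⟨_, rfl⟩
  have he1 : 1 ≤ e := by omega
  obtain ⟨M, hM⟩ : ∃ M : ℕ, M = Mze z e := ⟨_, rfl⟩
  have hM1 : 1 ≤ M := by rw [hM]; exact Mze_pos _ _
  have hlc0 : ∀ l, (f l).leadingCoeff ≠ 0 := by
    intro l h
    have h1 := S.deg l
    rw [Polynomial.leadingCoeff_eq_zero] at h
    rw [h, Polynomial.natDegree_zero] at h1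
    omega
  obtain ⟨r, hr, hrp⟩ := res_allP f I D E hE S.sum hlc0 S.lc S.loc z
  rw [← he] at hr hrp ⊢
  have hne : ∀ l, (f l).eval (r : ℤ) ≠ 0 := by
    intro l h0
    apply (hrp 2 Nat.prime_two hz2).2 l
    rw [h0]
    exact dvd_zero _
  have hvp : ∀ l, ∀ p : ℕ, p.Prime → p ≤ z → ((f l).eval (r : ℤ)).natAbs.factorization p < e := by
    intro l p hp hpz
    by_contra hcon
    push Not at hcon
    apply (hrp p hp hpz).2 l
    have h1 : p ^ e ∣ ((f l).eval (r : ℤ)).natAbs := (pow_dvd_pow p hcon).trans (Nat.ordProj_dvd _ _)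
    have h2 := Int.natCast_dvd.2 h1
    push_cast at h2
    exact h2
  have hsmM : ∀ l, sm z ((f l).eval (r : ℤ)) ∣ M := by
    intro l
    apply prodpow_dvd
    intro p hp hpz
    rw [hM]
    exact (pow_dvd_pow p (hvp l p hp hpz).le).trans (Mze_dvd hp hpz)
  have hMp : ∀ p : ℕ, p.Prime → p ∣ M → p ≤ z := fun p hp hd => Mze_prime hp (by rw [← hM]; exact hd)
  obtain ⟨h, S'⟩ := smooth_sbs' f r z M hM1 hMp hne (fun l p hp hpz => by
      rw [hM]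
      exact (pow_dvd_pow p (hvp l p hp hpz)).trans (Mze_dvd hp hpz))
  rw [← hM] at hr ⊢
  refine ⟨r, h, hr, S', fun l hl => sm_one' fun p hp hpz => (hrp p hp hpz).1 l hl,
    fun l => Nat.le_of_dvd hM1 (hsmM l), ?_⟩
  have hdeg : ∀ l, (h l).natDegree = (f l).natDegree := fun l => S'.deg l
  have hMz : (1 : ℤ) ≤ M := by exact_mod_cast hM1
  have hXz : (1 : ℤ) ≤ X := by exact_mod_cast hX
  have hrz : (r : ℤ) ≤ M := by exact_mod_cast hr
  have hr0 : (0 : ℤ) ≤ r := by positivity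
  have hev : ∀ l (x : ℤ), (sm z ((f l).eval (r : ℤ)) : ℤ) * (h l).eval x = (f l).eval (M * x + r) := fun l x =>
    S'.eval l x
  have hsm1 : ∀ l, (1 : ℤ) ≤ (sm z ((f l).eval (r : ℤ)) : ℤ) := fun l => by exact_mod_cast sm_pos _ _
  exact
    { deg := fun l => by rw [hdeg]; exact S.deg l
      sum := by simp only [hdeg]; exact S.sum
      loc := by
        apply S'.loc
        intro p hp hpM
        have hzp : z < p := by
          by_contra hcon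
          apply hpM
          rw [hM]
          exact (dvd_pow_self p (by omega)).trans (Mze_dvd hp (not_lt.1 hcon))
        exact S.locBig hp (lt_of_le_of_lt hz hzp)
      size := fun l x hx0 hxX => by
        rw [hdeg]
        have h1 := hev l x
        have h2 : |(h l).eval x| ≤ |(f l).eval (M * x + r)| := by
          rw [← h1, abs_mul, abs_of_nonneg (by linarith [hsm1 l] : (0 : ℤ) ≤ (sm z ((f l).eval (r : ℤ)) : ℤ))]
          exact le_mul_of_one_le_left (abs_nonneg _) (hsm1 l)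
        have h3 := eval_bound (f l) K X (2 * M) hX (by omega) (S.size l) (M * x + r) (by positivity) (by
          push_cast
          nlinarith)
        refine h2.trans (h3.trans ?_)
        have hdD : (f l).natDegree ≤ D :=
          (single_le_sum (f := fun l => (f l).natDegree) (fun i _ => Nat.zero_le _) (mem_univ l)).trans S.sum
        apply mul_le_mul_of_nonneg_right _ (by positivity)
        have h4 : ((f l).natDegree + 1) * K * (2 * M) ^ (f l).natDegree ≤ (D + 1) * K * (2 * M) ^ D := by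
          apply Nat.mul_le_mul
          · exact Nat.mul_le_mul_right _ (by omega)
          · exact Nat.pow_le_pow_right (by omega) hdD
        exact_mod_cast h4 }

open Classical in
/-- the good arguments -/
noncomputable def GTs (f : Fin m → ℤ[X]) (I : Finset (Fin m)) (z G t X A B : ℕ) : Finset ℕ :=
  (Ioc A B).filter (fun x : ℕ => (∀ l ∈ I, Almost (t * (f l).natDegree) ((X : ℝ) ^ (1 / (t : ℝ))) ((f l).eval (x : ℤ))) ∧
    ∀ l, Near z G (t * (f l).natDegree) ((X : ℝ) ^ (1 / (t : ℝ))) ((f l).eval (x : ℤ)))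

theorem uncT (D E : ℕ) (hD : 1 ≤ D) (hE : 1 ≤ E) (ε : ℝ) (hε : 0 < ε) :
    ∃ z G t : ℕ, 1 ≤ G ∧ 1 ≤ t ∧ ∃ κ KU : ℝ, 0 < κ ∧ 0 < KU ∧ ∀ (K s ρ : ℕ) (δ : ℝ),
    1 ≤ s → 0 < δ → ∃ c X₀ : ℕ, ∀ X : ℕ, X₀ ≤ X → ∀ (m : ℕ) (f : Fin m → ℤ[X]) (I : Finset (Fin m)),
      SysT D E K X f I → κ / Real.log X ^ D ≤ VZ f z X ∧
      ∀ A B : ℕ, B ≤ X → (X : ℝ) ^ ε ≤ (B : ℝ) - A →
        κ * ((B : ℝ) - A) * VZ f z X ≤ ((GTs f I z G t X A B).card : ℝ) ∧
        ((GTs f I z G t X A B).card : ℝ) ≤ KU * ((B : ℝ) - A) * VZ f z X ∧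
        ∀ χ : ℕ → Fin ρ, ∃ P : Finset (ℕ × ℕ),
          (∀ τ ∈ P, 1 ≤ τ.2 ∧ (τ.2 : ℝ) ≤ Real.log X ^ c ∧
            ∀ l < s, τ.1 + l * τ.2 ∈ GTs f I z G t X A B ∧ χ (τ.1 + l * τ.2) = χ τ.1) ∧
          (P : Set (ℕ × ℕ)).PairwiseDisjoint (apSet s) ∧
          (((GTs f I z G t X A B \ P.biUnion (apSet s)).card : ℕ) : ℝ) ≤
            δ * ((B : ℝ) - A) * VZ f z X := by
  classical
  obtain ⟨z, hz⟩ : ∃ z : ℕ, z = max (max D E) 2 := ⟨_, rfl⟩
  have hz1 : max D E ≤ z := by rw [hz]; exact le_max_left _ _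
  have hz2 : 2 ≤ z := by rw [hz]; exact le_max_right _ _
  obtain ⟨e, he⟩ : ∃ e : ℕ, e = E + D * (D + 1) := ⟨_, rfl⟩
  obtain ⟨M, hM⟩ : ∃ M : ℕ, M = Mze z e := ⟨_, rfl⟩
  have hM1 : 1 ≤ M := by rw [hM]; exact Mze_pos _ _
  have hM0 : (0 : ℝ) < M := by exact_mod_cast hM1
  obtain ⟨t, ht, κ, _, hκ, _, H⟩ := shortU D hD (ε / 2) (by positivity)
  obtain ⟨KU, hKU, X₅, h5⟩ := upper_z D t z ht ε κ hε hκ
  refine ⟨z, M, t, hM1, ht, κ / (2 * M), KU, by positivity, hKU, fun K s ρ δ hs hδ => ?_⟩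
  obtain ⟨X₁, h1⟩ := H ((D + 1) * K * (2 * M) ^ D)
  obtain ⟨c, X₂, h2⟩ := prog_z D t z ht s ε (δ / (ρ + 1)) hε (by positivity)
  have hpow : ∀ᶠ X : ℕ in atTop, (6 * M + 2 : ℝ) ^ 2 < (X : ℝ) ^ (ε / 2) :=
    ((tendsto_rpow_atTop (by positivity)).comp tendsto_natCast_atTop_atTop).eventually (eventually_gt_atTop _)
  obtain ⟨X₃, h3⟩ := eventually_atTop.1 hpow
  refine ⟨c, max (max X₁ (max X₅ 3)) (max X₂ X₃), fun X hX m f I S => ?_⟩
  have hX1 : X₁ ≤ X := (le_max_left _ _).trans ((le_max_left _ _).trans hX)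
  have hX5 : X₅ ≤ X := (le_max_left _ _).trans ((le_max_right _ _).trans ((le_max_left _ _).trans hX))
  have hX3 : 3 ≤ X := (le_max_right _ _).trans ((le_max_right _ _).trans ((le_max_left _ _).trans hX))
  have hX2 : X₂ ≤ X := (le_max_left _ _).trans ((le_max_right _ _).trans hX)
  have hX3' : X₃ ≤ X := (le_max_right _ _).trans ((le_max_right _ _).trans hX)
  have hX0 : (0 : ℝ) < X := by exact_mod_cast (by omega : 0 < X)
  have hXr : (1 : ℝ) ≤ X := by exact_mod_cast (by omega : 1 ≤ X)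
  have hlog : 0 < Real.log X := Real.log_pos (by exact_mod_cast (by omega : 1 < X))
  obtain ⟨r, h, hr, S', hI, hg, HS⟩ := S.sub (by omega) hE z hz1 hz2
  rw [← he, ← hM] at hr S' hg HS
  have hVZ : V h X = VZ f z X := by rw [S'.V_eq, hM, VM_Mze _ _ _ _ (by omega)]
  obtain ⟨hVl, hcnt⟩ := h1 X hX1 m h HS
  rw [hVZ] at hVl hcnt
  have hV0 : 0 < VZ f z X := lt_of_lt_of_le (by positivity) hVl
  have hdeg : ∀ l, (h l).natDegree = (f l).natDegree := fun l => S'.deg l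
  have hMr : (1 : ℝ) ≤ M := by exact_mod_cast hM1
  have hlz : ∀ p : ℕ, p.Prime → z < p → ∃ x : ℤ, ¬ (p : ℤ) ∣ ∏ l, (f l).eval x := fun p hp hzp =>
    S.locBig hp (lt_of_le_of_lt hz1 hzp)
  have hrough : ∀ A B, ∀ x ∈ GTs f I z M t X A B, ∀ k, ∀ q : ℕ, q.Prime → z < q → (q : ℤ) ∣ (f k).eval (x : ℤ) →
      (X : ℝ) ^ (1 / (t : ℝ)) < q := by
    intro A B x hx' l q hq hzq hd
    unfold GTs at hx'
    rw [mem_filter] at hx'
    obtain ⟨g, w, e1, _, _, e4, e5⟩ := hx'.2.2 l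
    rw [e1] at hd
    rcases (Nat.prime_iff_prime_int.1 hq).dvd_or_dvd hd with h6 | h6
    · exact absurd (e4 q hq (Int.natCast_dvd_natCast.1 h6)) (by omega)
    · exact e5.2.2 q hq h6
  refine ⟨le_trans ?_ hVl, fun A B hB hAB => ?_⟩
  · apply div_le_div_of_nonneg_right _ (by positivity)
    rw [div_le_iff₀ (by positivity)]
    nlinarith
  have hBA0 : 0 < (B : ℝ) - A := lt_of_lt_of_le (by positivity) hAB
  refine ⟨?_, ?_, ?_⟩
  · have hee : (X : ℝ) ^ (ε / 2) * (X : ℝ) ^ (ε / 2) = (X : ℝ) ^ ε := by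
      rw [← Real.rpow_add hX0]
      congr 1
      ring
    have h3' := h3 X hX3'
    have hp1 : 1 ≤ (X : ℝ) ^ (ε / 2) := Real.one_le_rpow hXr (by positivity)
    have hbig : (6 * M + 2 : ℝ) * (X : ℝ) ^ (ε / 2) ≤ (X : ℝ) ^ ε := by
      rw [← hee]
      apply mul_le_mul_of_nonneg_right _ (by positivity)
      have : (6 * M + 2 : ℝ) ≤ (6 * M + 2 : ℝ) ^ 2 := by nlinarith
      linarith
    have hsize : 4 * (M : ℝ) + 2 * r ≤ (X : ℝ) ^ ε := by
      have h6 : (r : ℝ) ≤ M := by exact_mod_cast hr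
      nlinarith
    obtain ⟨A', B', hB'B, hlen, hcard⟩ := transfer hM1 (fun A' B' => GoodB h t X A' B')
      (fun A B => GTs f I z M t X A B) (fun A' B' => filter_subset _ _) (by
        intro A' B' A B y hy hA hB
        unfold GoodB at hy
        rw [mem_filter] at hy
        obtain ⟨_, y5⟩ := hy
        unfold GTs
        rw [mem_filter, mem_Ioc]
        have hev : ∀ l, (f l).eval (((M * y + r : ℕ)) : ℤ) = (sm z ((f l).eval (r : ℤ)) : ℤ) * (h l).eval (y : ℤ) := by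
          intro l
          rw [S'.eval]
          push_cast
          rfl
        have hevI : ∀ l ∈ I, (f l).eval (((M * y + r : ℕ)) : ℤ) = (h l).eval (y : ℤ) := by
          intro l hl
          rw [hev, hI l hl]
          simp
        refine ⟨⟨hA, hB⟩, fun l hl => ?_, fun l => ?_⟩
        · rw [hevI l hl, ← hdeg]
          exact y5 l
        · refine ⟨sm z ((f l).eval (r : ℤ)), (h l).eval (y : ℤ), hev l, sm_pos _ _, hg l,
            fun p hp hd => sm_smooth z _ hp hd, ?_⟩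
          rw [← hdeg]
          exact y5 l) A B (hsize.trans hAB)
    have hθ' : (X : ℝ) ^ (ε / 2) ≤ (B' : ℝ) - A' := by
      refine le_trans ?_ hlen
      rw [le_div_iff₀ (by positivity)]
      refine le_trans ?_ (hbig.trans hAB)
      rw [mul_comm]
      apply mul_le_mul_of_nonneg_right _ (by positivity)
      linarith
    have h4 := (hcnt A' B' (hB'B.trans hB) hθ').1
    have hcard' : ((GoodB h t X A' B').card : ℝ) ≤ (GTs f I z M t X A B).card := by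
      exact_mod_cast hcard
    refine le_trans ?_ (h4.trans hcard')
    calc κ / (2 * M) * ((B : ℝ) - A) * VZ f z X = κ * (((B : ℝ) - A) / (2 * M)) * VZ f z X := by
          field_simp
      _ ≤ κ * ((B' : ℝ) - A') * VZ f z X := by
          apply mul_le_mul_of_nonneg_right _ hV0.le
          exact mul_le_mul_of_nonneg_left hlen hκ.le
  · exact h5 X hX5 m f S.sum hlz hVl A B hB hAB _ (filter_subset _ _) (hrough A B)
  · intro χ
    obtain ⟨P, p1, p2, p3⟩ := part_col s ρ hs (Real.log X ^ c) (δ / (ρ + 1) * ((B : ℝ) - A) * VZ f z X)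
      (by positivity) (GTs f I z M t X A B) (by
        intro T' hT' hTc
        refine h2 X hX2 m f S.sum hlz A B hB hAB T' (hT'.trans (filter_subset _ _)) ?_ hTc
        intro x hx
        exact hrough A B x (hT' hx)) χ
    refine ⟨P, p1, p2, p3.le.trans ?_⟩
    have h6 : (ρ : ℝ) * (δ / (ρ + 1) * ((B : ℝ) - A) * VZ f z X) =
        (ρ / (ρ + 1)) * (δ * ((B : ℝ) - A) * VZ f z X) := by
      field_simp
    rw [h6]
    have h7 : (ρ : ℝ) / (ρ + 1) ≤ 1 := by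
      rw [div_le_one (by positivity)]
      linarith
    exact mul_le_of_le_one_left (by positivity) h7

open Classical in
/-- the good arguments -/
noncomputable def GSs (S T : Finset ℤ[X]) (z G t X A B : ℕ) : Finset ℕ :=
  (Ioc A B).filter (fun x : ℕ => (∀ f ∈ T, Almost (t * f.natDegree) ((X : ℝ) ^ (1 / (t : ℝ))) (f.eval (x : ℤ))) ∧
    ∀ f ∈ S, Near z G (t * f.natDegree) ((X : ℝ) ^ (1 / (t : ℝ))) (f.eval (x : ℤ)))

theorem uncTS (D E : ℕ) (hD : 1 ≤ D) (ε : ℝ) (hε : 0 < ε) :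
    ∃ z G t : ℕ, 1 ≤ t ∧ ∃ κ KU : ℝ, 0 < κ ∧ 0 < KU ∧ ∀ (K s ρ : ℕ) (δ : ℝ),
    1 ≤ s → 0 < δ → ∃ c X₀ : ℕ, ∀ X : ℕ, X₀ ≤ X → ∀ S T : Finset ℤ[X], T ⊆ S → ∑ f ∈ S, f.natDegree ≤ D →
      (∀ f ∈ S, 1 ≤ f.natDegree ∧ f.leadingCoeff.natAbs ≤ E ∧
        ∀ n, n < f.natDegree → |f.coeff n| ≤ K * (X : ℤ) ^ (f.natDegree - n)) →
      (∀ p : ℕ, p.Prime → ∃ x : ℤ, ¬ (p : ℤ) ∣ ∏ f ∈ T, f.eval x) →
      κ / Real.log X ^ D ≤ VS S z X ∧
      ∀ A B : ℕ, B ≤ X → (X : ℝ) ^ ε ≤ (B : ℝ) - A →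
        κ * ((B : ℝ) - A) * VS S z X ≤ ((GSs S T z G t X A B).card : ℝ) ∧
        ((GSs S T z G t X A B).card : ℝ) ≤ KU * ((B : ℝ) - A) * VS S z X ∧
        ∀ χ : ℕ → Fin ρ, ∃ P : Finset (ℕ × ℕ),
          (∀ τ ∈ P, 1 ≤ τ.2 ∧ (τ.2 : ℝ) ≤ Real.log X ^ c ∧
            ∀ l < s, τ.1 + l * τ.2 ∈ GSs S T z G t X A B ∧ χ (τ.1 + l * τ.2) = χ τ.1) ∧
          (P : Set (ℕ × ℕ)).PairwiseDisjoint (apSet s) ∧
          (((GSs S T z G t X A B \ P.biUnion (apSet s)).card : ℕ) : ℝ) ≤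
            δ * ((B : ℝ) - A) * VS S z X := by
  classical
  obtain ⟨z, G, t, hG1, ht, κ, KU, hκ, hKU, H⟩ := uncT D (max E 1) hD (le_max_right _ _) ε hε
  refine ⟨z, G, t, ht, κ, KU, hκ, hKU, fun K s ρ δ hs hδ => ?_⟩
  obtain ⟨c, X₀, h⟩ := H (K + E) s ρ δ hs hδ
  refine ⟨c, max X₀ 1, fun X hX S T hTS hsum hS hloc => ?_⟩
  have hX0 : X₀ ≤ X := (le_max_left _ _).trans hX
  have hX1 : 1 ≤ X := (le_max_right _ _).trans hX
  have hmem : ∀ l : Fin S.card, ((S.equivFin.symm l : S) : ℤ[X]) ∈ S := fun l => (S.equivFin.symm l).2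
  obtain ⟨f, hf⟩ : ∃ f : Fin S.card → ℤ[X], f = fun l => ((S.equivFin.symm l : S) : ℤ[X]) := ⟨_, rfl⟩
  obtain ⟨I, hI⟩ : ∃ I : Finset (Fin S.card), I = univ.filter (fun l => f l ∈ T) := ⟨_, rfl⟩
  have hfm : ∀ l, f l ∈ S := fun l => by rw [hf]; exact hmem l
  have hfs : ∀ g ∈ S, ∃ l, f l = g := fun g hg => ⟨S.equivFin ⟨g, hg⟩, by rw [hf]; simp⟩
  have hprod : ∀ x : ℤ, ∏ l, (f l).eval x = ∏ g ∈ S, g.eval x := by
    intro x
    rw [hf]
    rw [← Finset.prod_coe_sort S (fun g => g.eval x)]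
    exact Equiv.prod_comp S.equivFin.symm (fun g : S => (g : ℤ[X]).eval x)
  have hsum' : ∑ l, (f l).natDegree = ∑ g ∈ S, g.natDegree := by
    rw [hf]
    rw [← Finset.sum_coe_sort S (fun g => g.natDegree)]
    exact Equiv.sum_comp S.equivFin.symm (fun g : S => (g : ℤ[X]).natDegree)
  have hV : VZ f z X = VS S z X := by
    unfold VZ VS
    apply prod_congr rfl fun p _ => ?_
    have : om f p = omS S p := by
      unfold om omS
      congr 1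
      apply filter_congr fun x _ => ?_
      rw [hprod]
    rw [this]
  have hG : ∀ A B, GTs f I z G t X A B = GSs S T z G t X A B := by
    intro A B
    unfold GTs GSs
    apply filter_congr fun x _ => ?_
    constructor
    · rintro ⟨c, d⟩
      refine ⟨fun g hg => ?_, fun g hg => ?_⟩
      · obtain ⟨l, hl⟩ := hfs g (hTS hg)
        have := c l (by rw [hI, mem_filter, hl]; exact ⟨mem_univ _, hg⟩)
        rwa [hl] at this
      · obtain ⟨l, hl⟩ := hfs g hg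
        have := d l
        rwa [hl] at this
    · rintro ⟨c, d⟩
      refine ⟨fun l hl => ?_, fun l => ?_⟩
      · rw [hI, mem_filter] at hl
        exact c _ hl.2
      · exact d _ (hfm l)
  have hsizeQ : ∀ f ∈ S, ∀ n, n ≤ f.natDegree → |f.coeff n| ≤ ((K + E : ℕ) : ℤ) * (X : ℤ) ^ (f.natDegree - n) := by
    intro f hf n hn
    rcases Nat.lt_or_ge n f.natDegree with h1 | h1
    · refine ((hS f hf).2.2 n h1).trans ?_
      apply mul_le_mul_of_nonneg_right _ (by positivity)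
      push_cast
      linarith [(by positivity : (0 : ℤ) ≤ E)]
    · have h2 : n = f.natDegree := by omega
      rw [h2, Nat.sub_self, pow_zero, mul_one, Int.abs_eq_natAbs]
      have h3 := (hS f hf).2.1
      unfold Polynomial.leadingCoeff at h3
      push_cast
      have : ((f.coeff f.natDegree).natAbs : ℤ) ≤ E := by exact_mod_cast h3
      linarith [(by positivity : (0 : ℤ) ≤ K)]
  have h1 := h X hX0 S.card f I
    { deg := fun l => (hS _ (hfm l)).1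
      sum := by rw [hsum']; exact hsum
      lc := fun l => (hS _ (hfm l)).2.1.trans (le_max_left _ _)
      size := fun l => hsizeQ _ (hfm l)
      loc := by
        intro p hp
        obtain ⟨x, hx⟩ := hloc p hp
        refine ⟨x, fun l hl hd => hx ?_⟩
        rw [hI, mem_filter] at hl
        exact hd.trans (dvd_prod_of_mem (fun f : ℤ[X] => f.eval x) hl.2) }
  rw [hV] at h1
  simp only [hG] at h1
  exact h1

end Pool.Agent.X32.Uni
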