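import Pool.Agent.X32.Uni.IsoU
import Pool.Agent.X32.Uni.UShort

/-!
Systems of linear forms in short intervals, uniformly, isolated, both bounds, with coverings.
-/

set_option autoImplicit false

namespace Pool.Agent.X32.Uni

open Finset Filter
open Polynomial (C X)
open scoped Polynomial
open Pool.Agent.Y843.HS (Pr VV Pr_mem Pr_prime VV_split Sv)

variable {k : ℕ}

theorem VZ_zero {m : ℕ} (f : Fin m → ℤ[X]) (n : ℕ) : VZ f 0 n = V f n := by
  unfold VZ V
  apply prod_congr _ fun _ _ => rfl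
  ext p
  rw [mem_filter, mem_filter, mem_Icc, mem_Ioc]
  constructor
  · rintro ⟨⟨a, b⟩, c⟩
    exact ⟨⟨a, b⟩, c⟩
  · rintro ⟨⟨a, b⟩, c⟩
    exact ⟨⟨c.pos, b⟩, c⟩

open Classical in
/-- the good arguments -/
noncomputable def GIS (a b : Fin k → ℤ) (Ex : Fin k → Finset ℤ) (L C t X A B : ℕ) : Finset ℕ :=
  (Ioc A B).filter (fun x : ℕ => (∀ l, Almost t ((X : ℝ) ^ (1 / (t : ℝ))) (a l * (x : ℤ) + b l)) ∧
    ∀ (l : Fin k) (h : ℤ), h ≠ 0 → |h| ≤ L → h ∉ Ex l →
      ∃ q : ℕ, q.Prime ∧ q ≤ C ∧ (q : ℤ) ∣ a l * (x : ℤ) + b l + h)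

theorem isoS (k E L : ℕ) (hk : 1 ≤ k) (ε : ℝ) (hε : 0 < ε) : ∃ C t : ℕ, 1 ≤ t ∧ ∃ κ KU : ℝ, 0 < κ ∧ 0 < KU ∧
    ∀ (K s r : ℕ) (δ : ℝ), 1 ≤ s → 0 < δ → ∃ c X₀ : ℕ, ∀ X : ℕ, X₀ ≤ X → ∀ a b : Fin k → ℤ,
      (∀ l, a l ≠ 0) → (∀ l, (a l).natAbs ≤ E) → (∀ l, |b l| ≤ K * (X : ℤ)) → AdmL a b →
      κ / Real.log X ^ k ≤ VL a b X ∧ ∃ Ex : Fin k → Finset ℤ, (∀ l, (Ex l).card < k) ∧
        ∀ A B : ℕ, B ≤ X → (X : ℝ) ^ ε ≤ (B : ℝ) - A →
        κ * ((B : ℝ) - A) * VL a b X ≤ ((GIS a b Ex L C t X A B).card : ℝ) ∧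
        ((GIS a b Ex L C t X A B).card : ℝ) ≤ KU * ((B : ℝ) - A) * VL a b X ∧
        ∀ χ : ℕ → Fin r, ∃ P : Finset (ℕ × ℕ),
          (∀ z ∈ P, 1 ≤ z.2 ∧ (z.2 : ℝ) ≤ Real.log X ^ c ∧
            ∀ m < s, z.1 + m * z.2 ∈ GIS a b Ex L C t X A B ∧ χ (z.1 + m * z.2) = χ z.1) ∧
          (P : Set (ℕ × ℕ)).PairwiseDisjoint (apSet s) ∧
          (((GIS a b Ex L C t X A B \ P.biUnion (apSet s)).card : ℕ) : ℝ) ≤ δ * ((B : ℝ) - A) * VL a b X := by
  classical
  obtain ⟨C, hC1, hiso⟩ := iso_uni k E L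
  obtain ⟨t, ht, κ, _, hκ, _, HL⟩ := shortU k hk (ε / 2) (by positivity)
  have hC0 : (0 : ℝ) < C := by exact_mod_cast hC1
  obtain ⟨d0, hd0⟩ : ∃ d0, k = d0 + 1 := ⟨k - 1, by omega⟩
  obtain ⟨cV, hcV, hV⟩ := V_low d0
  obtain ⟨KU, hKU, X₅, h5⟩ := upper_z k t 0 ht ε cV hε hcV
  refine ⟨C, t, ht, min (κ / (2 * C)) cV, KU, by positivity, hKU, fun K s r δ hs hδ => ?_⟩
  obtain ⟨X₁, h1⟩ := HL (K + 2 * (C * E))
  obtain ⟨c, X₂, h2⟩ := prog_z k t 0 ht s ε (δ / (r + 1)) hε (by positivity)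
  have hpow : ∀ᶠ X : ℕ in atTop, (6 * C + 2 : ℝ) ^ 2 < (X : ℝ) ^ (ε / 2) :=
    ((tendsto_rpow_atTop (by positivity)).comp tendsto_natCast_atTop_atTop).eventually (eventually_gt_atTop _)
  obtain ⟨X₃, h3⟩ := eventually_atTop.1 hpow
  refine ⟨c, max (max X₁ (max X₅ 3)) (max X₂ X₃), fun X hX a b a0 aE bK adm => ?_⟩
  have hX1 : X₁ ≤ X := (le_max_left _ _).trans ((le_max_left _ _).trans hX)
  have hX5 : X₅ ≤ X := (le_max_left _ _).trans ((le_max_right _ _).trans ((le_max_left _ _).trans hX))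
  have hX3 : 3 ≤ X := (le_max_right _ _).trans ((le_max_right _ _).trans ((le_max_left _ _).trans hX))
  have hX2 : X₂ ≤ X := (le_max_left _ _).trans ((le_max_right _ _).trans hX)
  have hX3' : X₃ ≤ X := (le_max_right _ _).trans ((le_max_right _ _).trans hX)
  have hX0 : (0 : ℝ) < X := by exact_mod_cast (by omega : 0 < X)
  have hXr : (1 : ℝ) ≤ X := by exact_mod_cast (by omega : 1 ≤ X)
  have hlog : 0 < Real.log X := Real.log_pos (by exact_mod_cast (by omega : 1 < X))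
  have hdeg : ∀ l, (lf a b l).natDegree = 1 := fun l => lf_deg _ _ l (a0 l)
  have hsum : ∑ l, (lf a b l).natDegree ≤ k := by
    simp only [hdeg]
    simp
  have hVl : cV / Real.log X ^ k ≤ VL a b X := by
    have h1 := hV k (lf a b) X (by omega) (loc_lf adm) (by
      simp only [hdeg]
      simp [← hd0])
    rw [V_lf, ← hd0] at h1
    exact h1
  have hVZ : VZ (lf a b) 0 X = VL a b X := by rw [VZ_zero, V_lf]
  have hV0 : 0 < VL a b X := lt_of_lt_of_le (by positivity) hVl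
  refine ⟨le_trans (div_le_div_of_nonneg_right (min_le_right _ _) (by positivity)) hVl, ?_⟩
  obtain ⟨Ex, hEx, W, r0, hW1, hWC, hrW, hW2, hW3⟩ := hiso a b a0 aE
  have hW0 : (0 : ℝ) < W := by exact_mod_cast hW1
  have hWr : (1 : ℝ) ≤ W := by exact_mod_cast hW1
  have hWCr : (W : ℝ) ≤ C := by exact_mod_cast hWC
  have hlz : ∀ p : ℕ, p.Prime → 0 < p → ∃ x : ℤ, ¬ (p : ℤ) ∣ ∏ l, (lf a b l).eval x := fun p hp _ => loc_lf adm p hp
  have hrough : ∀ A B, ∀ x ∈ GIS a b Ex L C t X A B, ∀ l, ∀ q : ℕ, q.Prime → 0 < q →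
      (q : ℤ) ∣ (lf a b l).eval (x : ℤ) → (X : ℝ) ^ (1 / (t : ℝ)) < q := by
    intro A B x hx l q hq _ hd
    unfold GIS at hx
    rw [mem_filter] at hx
    rw [lf_eval] at hd
    exact (hx.2.1 l).2.2 q hq hd
  refine ⟨Ex, hEx, fun A B hB hAB => ?_⟩
  have hBA0 : 0 < (B : ℝ) - A := lt_of_lt_of_le (by positivity) hAB
  refine ⟨?_, ?_, ?_⟩
  · have hWz : (W : ℤ) ≠ 0 := by
      have : (0 : ℤ) < W := by exact_mod_cast hW1
      exact this.ne'
    obtain ⟨a', ha'⟩ : ∃ a' : Fin k → ℤ, a' = fun l => a l * W := ⟨_, rfl⟩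
    obtain ⟨b', hb'⟩ : ∃ b' : Fin k → ℤ, b' = fun l => a l * r0 + b l := ⟨_, rfl⟩
    have ha'0 : ∀ l, a' l ≠ 0 := fun l => by rw [ha']; exact mul_ne_zero (a0 l) hWz
    have hdeg' : ∀ l, (lf a' b' l).natDegree = 1 := fun l => lf_deg _ _ l (ha'0 l)
    have haC : ∀ l, |a' l| ≤ ((C * E : ℕ) : ℤ) := by
      intro l
      rw [ha', Int.abs_eq_natAbs, Int.natAbs_mul, Int.natAbs_natCast, mul_comm]
      exact_mod_cast Nat.mul_le_mul hWC (aE l)
    have hbC : ∀ l, |b' l| ≤ ((C * E : ℕ) : ℤ) + K * X := by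
      intro l
      rw [hb']
      have h5 : |a l * (r0 : ℤ)| ≤ ((C * E : ℕ) : ℤ) := by
        rw [Int.abs_eq_natAbs, Int.natAbs_mul, Int.natAbs_natCast, mul_comm]
        exact_mod_cast Nat.mul_le_mul (hrW.le.trans hWC) (aE l)
      have h6 := abs_add_le (a l * (r0 : ℤ)) (b l)
      have h4 := bK l
      simp only
      linarith
    have hXz : (1 : ℤ) ≤ X := by exact_mod_cast (by omega : 1 ≤ X)
    have SS : SysA k (K + 2 * (C * E)) X (lf a' b') :=
      { deg := fun l => (hdeg' l).ge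
        sum := by
          simp only [hdeg']
          simp
        loc := loc_lf (by rw [ha', hb']; exact adm_sub adm hW2)
        size := by
          intro l x hx0 hxX
          rw [hdeg' l, pow_one, lf_eval]
          have e1 := abs_add_le (a' l * x) (b' l)
          have e2 : |a' l * x| ≤ ((C * E : ℕ) : ℤ) * X := by
            rw [abs_mul, abs_of_nonneg hx0]
            exact mul_le_mul (haC l) hxX hx0 (by positivity)
          have e3 := hbC l
          have e4 : ((C * E : ℕ) : ℤ) ≤ ((C * E : ℕ) : ℤ) * X := le_mul_of_one_le_right (by positivity) hXz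
          have e5 : ((K + 2 * (C * E) : ℕ) : ℤ) * X = (K : ℤ) * X + 2 * (((C * E : ℕ) : ℤ) * X) := by
            push_cast
            ring
          rw [e5]
          linarith }
    have hee : (X : ℝ) ^ (ε / 2) * (X : ℝ) ^ (ε / 2) = (X : ℝ) ^ ε := by
      rw [← Real.rpow_add hX0]
      congr 1
      ring
    have h3' := h3 X hX3'
    have hp1 : 1 ≤ (X : ℝ) ^ (ε / 2) := Real.one_le_rpow hXr (by positivity)
    have hbig : (6 * C + 2 : ℝ) * (X : ℝ) ^ (ε / 2) ≤ (X : ℝ) ^ ε := by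
      rw [← hee]
      apply mul_le_mul_of_nonneg_right _ (by positivity)
      have : (6 * C + 2 : ℝ) ≤ (6 * C + 2 : ℝ) ^ 2 := by nlinarith
      linarith
    have hr0C : (r0 : ℝ) ≤ C := by exact_mod_cast hrW.le.trans hWC
    have hsize : 4 * (W : ℝ) + 2 * r0 ≤ (X : ℝ) ^ ε := by nlinarith
    obtain ⟨A', B', hB'B, hlen, hcard⟩ := transfer hW1 (fun A' B' => GoodB (lf a' b') t X A' B')
      (fun A B => GIS a b Ex L C t X A B) (fun A' B' => filter_subset _ _) (by
        intro A' B' A B y hy hA hB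
        unfold GoodB at hy
        rw [mem_filter] at hy
        obtain ⟨_, y5⟩ := hy
        unfold GIS
        rw [mem_filter, mem_Ioc]
        have hcast : ∀ l, (lf a' b' l).eval (y : ℤ) = a l * ((W * y + r0 : ℕ) : ℤ) + b l := by
          intro l
          rw [lf_eval, ha', hb']
          push_cast
          ring
        refine ⟨⟨hA, hB⟩, fun l => ?_, fun l h g1 g2 g3 => ?_⟩
        · have := y5 l
          rwa [hcast, hdeg', mul_one] at this
        · apply hW3 (W * y + r0) _ l h g1 g2 g3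
          unfold Nat.ModEq
          rw [add_comm, Nat.add_mul_mod_self_left]) A B (hsize.trans hAB)
    have hθ' : (X : ℝ) ^ (ε / 2) ≤ (B' : ℝ) - A' := by
      refine le_trans ?_ hlen
      rw [le_div_iff₀ (by positivity)]
      refine le_trans ?_ (hbig.trans hAB)
      rw [mul_comm]
      apply mul_le_mul_of_nonneg_right _ (by positivity)
      linarith
    have h4 := ((h1 X hX1 k (lf a' b') SS).2 A' B' (hB'B.trans hB) hθ').1
    have hcard' : ((GoodB (lf a' b') t X A' B').card : ℝ) ≤ (GIS a b Ex L C t X A B).card := by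
      exact_mod_cast hcard
    have hVle : VL a b X ≤ V (lf a' b') X := by
      rw [V_lf, ha', hb']
      exact VL_sub adm hW2 X
    have hlen2 : ((B : ℝ) - A) / (2 * C) ≤ (B' : ℝ) - A' := by
      refine le_trans ?_ hlen
      apply div_le_div_of_nonneg_left hBA0.le (by positivity)
      linarith
    refine le_trans ?_ (h4.trans hcard')
    calc min (κ / (2 * C)) cV * ((B : ℝ) - A) * VL a b X ≤ κ / (2 * C) * ((B : ℝ) - A) * VL a b X := by
          apply mul_le_mul_of_nonneg_right _ hV0.le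
          exact mul_le_mul_of_nonneg_right (min_le_left _ _) hBA0.le
      _ = κ * (((B : ℝ) - A) / (2 * C)) * VL a b X := by
          field_simp
      _ ≤ κ * ((B' : ℝ) - A') * V (lf a' b') X := by
          apply mul_le_mul _ hVle hV0.le
          · exact mul_nonneg hκ.le (le_trans (div_nonneg hBA0.le (by positivity)) hlen)
          · exact mul_le_mul_of_nonneg_left hlen2 hκ.le
  · have := h5 X hX5 k (lf a b) hsum hlz (by rw [hVZ]; exact hVl) A B hB hAB _ (filter_subset _ _) (hrough A B)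
    rwa [hVZ] at this
  · intro χ
    obtain ⟨P, p1, p2, p3⟩ := part_col s r hs (Real.log X ^ c) (δ / (r + 1) * ((B : ℝ) - A) * VL a b X)
      (by positivity) (GIS a b Ex L C t X A B) (by
        intro T hT hTc
        refine h2 X hX2 k (lf a b) hsum hlz A B hB hAB T (hT.trans (filter_subset _ _)) ?_ (by
          rw [hVZ]
          exact hTc)
        intro x hx
        exact hrough A B x (hT hx)) χ
    refine ⟨P, p1, p2, p3.le.trans ?_⟩
    have h6 : (r : ℝ) * (δ / (r + 1) * ((B : ℝ) - A) * VL a b X) =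
        (r / (r + 1)) * (δ * ((B : ℝ) - A) * VL a b X) := by
      field_simp
    rw [h6]
    have h7 : (r : ℝ) / (r + 1) ≤ 1 := by
      rw [div_le_one (by positivity)]
      linarith
    exact mul_le_of_le_one_left (by positivity) h7

end Pool.Agent.X32.Uni
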