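import Pool.Agent.X32.Uni.Iso

/-!
Chen's theorem for systems of linear forms, uniformly, isolated, with coverings.
-/

set_option autoImplicit false

namespace Pool.Agent.X32.Uni

open Finset Filter

variable {k : ℕ}

/-- the hypotheses on the forms -/
structure SysI (k E K X : ℕ) (a b : Fin k → ℤ) : Prop where
  a0 : ∀ l, a l ≠ 0
  aE : ∀ l, (a l).natAbs ≤ E
  bK : ∀ l, |b l| ≤ K * (X : ℤ)
  adm : AdmL a b
  det : ∀ l m, l ≠ m → a l * b m - a m * b l ≠ 0

open Classical in
/-- the good arguments -/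
noncomputable def GI (a b : Fin k → ℤ) (Ex : Fin k → Finset ℤ) (i j : Fin k) (L C t X A B : ℕ) : Finset ℕ :=
  (Ioc A B).filter (fun x : ℕ => (a i * (x : ℤ) + b i).natAbs.Prime ∧
    Almost 2 ((X : ℝ) ^ (1 / 9 : ℝ)) (a j * (x : ℤ) + b j) ∧
    (∀ l, Almost t ((X : ℝ) ^ (1 / (t : ℝ))) (a l * (x : ℤ) + b l)) ∧
    ∀ (l : Fin k) (h : ℤ), h ≠ 0 → |h| ≤ L → h ∉ Ex l →
      ∃ q : ℕ, q.Prime ∧ q ≤ C ∧ (q : ℤ) ∣ a l * (x : ℤ) + b l + h)

theorem isoU (k E L : ℕ) (hk : 1 ≤ k) : ∃ C t : ℕ, 1 ≤ t ∧ ∃ κ : ℝ, 0 < κ ∧ ∀ (K s r : ℕ) (θ δ : ℝ),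
    1 ≤ s → 0 < θ → 0 < δ → ∃ c X₀ : ℕ, ∀ X : ℕ, X₀ ≤ X → ∀ a b : Fin k → ℤ, SysI k E K X a b →
      κ / Real.log X ^ k ≤ VL a b X ∧ ∃ Ex : Fin k → Finset ℤ, (∀ l, (Ex l).card < k) ∧
        ∀ i j : Fin k, i ≠ j → ∀ A B : ℕ, B ≤ X → θ * X ≤ (B : ℝ) - A →
        κ * ((B : ℝ) - A) * VL a b X ≤ ((GI a b Ex i j L C t X A B).card : ℝ) ∧
        ∀ χ : ℕ → Fin r, ∃ P : Finset (ℕ × ℕ),
          (∀ z ∈ P, 1 ≤ z.2 ∧ (z.2 : ℝ) ≤ Real.log X ^ c ∧
            ∀ m < s, z.1 + m * z.2 ∈ GI a b Ex i j L C t X A B ∧ χ (z.1 + m * z.2) = χ z.1) ∧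
          (P : Set (ℕ × ℕ)).PairwiseDisjoint (apSet s) ∧
          (((GI a b Ex i j L C t X A B \ P.biUnion (apSet s)).card : ℕ) : ℝ) ≤ δ * ((B : ℝ) - A) * VL a b X := by
  classical
  obtain ⟨C, hC1, hiso⟩ := iso_uni k E L
  obtain ⟨t, ht, κ, hκ, HL⟩ := linU k (C * E) hk
  have hC0 : (0 : ℝ) < C := by exact_mod_cast hC1
  obtain ⟨d0, hd0⟩ : ∃ d0, k = d0 + 1 := ⟨k - 1, by omega⟩
  obtain ⟨cV, hcV, hV⟩ := V_low d0
  refine ⟨C, t, ht, min (κ / (2 * C)) cV, by positivity, fun K s r θ δ hs hθ hδ => ?_⟩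
  obtain ⟨⟨X₁, h1⟩, _⟩ := HL (θ / (2 * C)) (by positivity) (K + 2 * (C * E))
  obtain ⟨N₁, hN₁⟩ := exists_nat_gt ((4 * C + 2 * C) / θ)
  obtain ⟨c, X₂, h2⟩ := prog_dense k (max t 2) (le_max_right _ _) s θ (δ / (r + 1)) cV hθ (by positivity) hcV
  refine ⟨c, max (max X₁ (max N₁ 3)) X₂, fun X hX a b S0 => ?_⟩
  have hX1 : X₁ ≤ X := (le_max_left _ _).trans ((le_max_left _ _).trans hX)
  have hXN : N₁ ≤ X := (le_max_left _ _).trans ((le_max_right _ _).trans ((le_max_left _ _).trans hX))
  have hX3 : 3 ≤ X := (le_max_right _ _).trans ((le_max_right _ _).trans ((le_max_left _ _).trans hX))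
  have hX2 : X₂ ≤ X := (le_max_right _ _).trans hX
  have hX0 : (0 : ℝ) < X := by exact_mod_cast (by omega : 0 < X)
  have hlog : 0 < Real.log X := Real.log_pos (by exact_mod_cast (by omega : 1 < X))
  have hdeg : ∀ l, (lf a b l).natDegree = 1 := fun l => lf_deg _ _ l (S0.a0 l)
  have hVl : cV / Real.log X ^ k ≤ VL a b X := by
    have h1 := hV k (lf a b) X (by omega) (loc_lf S0.adm) (by
      simp only [hdeg]
      simp [← hd0])
    rw [V_lf, ← hd0] at h1
    exact h1
  have hV0 : 0 < VL a b X := lt_of_lt_of_le (by positivity) hVl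
  refine ⟨le_trans (div_le_div_of_nonneg_right (min_le_right _ _) (by positivity)) hVl, ?_⟩
  obtain ⟨Ex, hEx, W, r0, hW1, hWC, hrW, hW2, hW3⟩ := hiso a b S0.a0 S0.aE
  have hW0 : (0 : ℝ) < W := by exact_mod_cast hW1
  have hWCr : (W : ℝ) ≤ C := by exact_mod_cast hWC
  refine ⟨Ex, hEx, fun i j hij A B hB hAB => ?_⟩
  have hBA0 : 0 < (B : ℝ) - A := lt_of_lt_of_le (by positivity) hAB
  constructor
  · have hWz : (W : ℤ) ≠ 0 := by
      have : (0 : ℤ) < W := by exact_mod_cast hW1
      exact this.ne'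
    have S : SysL k (C * E) (K + 2 * (C * E)) X (fun l => a l * W) (fun l => a l * r0 + b l) i j :=
      { a0 := fun l => mul_ne_zero (S0.a0 l) hWz
        aE := by
          rw [Int.natAbs_mul, Int.natAbs_natCast, mul_comm]
          exact Nat.mul_le_mul hWC (S0.aE i)
        aE' := by
          rw [Int.natAbs_mul, Int.natAbs_natCast, mul_comm]
          exact Nat.mul_le_mul hWC (S0.aE j)
        aK := fun l => by
          rw [Int.abs_eq_natAbs, Int.natAbs_mul, Int.natAbs_natCast, mul_comm]
          have h4 := Nat.mul_le_mul hWC (S0.aE l)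
          exact_mod_cast (by omega : W * (a l).natAbs ≤ K + 2 * (C * E))
        bK := fun l => by
          have h4 := S0.bK l
          have h5 : |a l * (r0 : ℤ)| ≤ ((C * E : ℕ) : ℤ) := by
            rw [Int.abs_eq_natAbs, Int.natAbs_mul, Int.natAbs_natCast, mul_comm]
            have h6 := Nat.mul_le_mul (hrW.le.trans hWC) (S0.aE l)
            exact_mod_cast h6
          have h6 := abs_add_le (a l * (r0 : ℤ)) (b l)
          have h7 : ((C * E : ℕ) : ℤ) ≤ ((2 * (C * E) : ℕ) : ℤ) * X := by
            have h8 : C * E ≤ (2 * (C * E)) * X :=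
              (by omega : C * E ≤ 2 * (C * E)).trans (Nat.le_mul_of_pos_right _ (by omega))
            exact_mod_cast h8
          have h8 : ((K + 2 * (C * E) : ℕ) : ℤ) * X = (K : ℤ) * X + ((2 * (C * E) : ℕ) : ℤ) * X := by
            push_cast
            ring
          rw [h8]
          linarith
        adm := adm_sub S0.adm hW2
        ne := fun h => by
          have e1 := (Prod.ext_iff.1 h).1
          have e2 := (Prod.ext_iff.1 h).2
          simp only at e1 e2
          have e3 : a j = a i := mul_right_cancel₀ hWz e1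
          apply S0.det i j hij
          rw [e3] at e2 ⊢
          have e4 : b j = b i := by linarith
          rw [e4]
          ring
        ne' := fun h => by
          have e1 := (Prod.ext_iff.1 h).1
          have e2 := (Prod.ext_iff.1 h).2
          simp only at e1 e2
          have e3 : a j = - a i := mul_right_cancel₀ hWz (by linarith)
          apply S0.det i j hij
          rw [e3] at e2 ⊢
          have e4 : b j = - b i := by linarith
          rw [e4]
          ring }
    have hsize : 4 * (W : ℝ) + 2 * r0 ≤ θ * X := by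
      have h2 : (4 * C + 2 * C) / θ ≤ X := by
        have : (N₁ : ℝ) ≤ X := by exact_mod_cast hXN
        linarith
      have h3 := (div_le_iff₀ hθ).1 h2
      have h4 : (r0 : ℝ) ≤ C := by exact_mod_cast hrW.le.trans hWC
      linarith
    obtain ⟨A', hA'⟩ : ∃ A' : ℕ, A' = (A - r0) / W := ⟨_, rfl⟩
    obtain ⟨B', hB'⟩ : ∃ B' : ℕ, B' = (B - r0) / W := ⟨_, rfl⟩
    have hBr : A + 2 * r0 ≤ B := by
      have h2 : (A : ℝ) + 2 * r0 ≤ B := by
        have : (0 : ℝ) ≤ 4 * W := by positivity
        linarith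
      exact_mod_cast h2
    have hB'X : B' ≤ X := by
      rw [hB']
      exact (Nat.div_le_self _ _).trans ((Nat.sub_le _ _).trans hB)
    have hB'lt : B - r0 < W * (B' + 1) := by
      rw [hB']
      exact Nat.lt_mul_div_succ _ hW1
    have hA'lt : A - r0 < W * (A' + 1) := by
      rw [hA']
      exact Nat.lt_mul_div_succ _ hW1
    have hlen : ((B : ℝ) - A) / (2 * W) ≤ (B' : ℝ) - A' := by
      have h2 : (W : ℝ) * A' ≤ A := by
        have h3 : W * A' ≤ A := by
          rw [hA']
          exact (Nat.mul_div_le _ _).trans (Nat.sub_le _ _)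
        exact_mod_cast h3
      have h3 : (B : ℝ) < W * (B' + 1) + r0 := by
        have h4 : B < W * (B' + 1) + r0 := by omega
        exact_mod_cast h4
      rw [div_le_iff₀ (by positivity)]
      nlinarith
    have hlen2 : ((B : ℝ) - A) / (2 * C) ≤ (B' : ℝ) - A' := by
      refine le_trans ?_ hlen
      apply div_le_div_of_nonneg_left hBA0.le (by positivity)
      linarith
    have hθ' : θ / (2 * C) * X ≤ (B' : ℝ) - A' := by
      refine le_trans ?_ hlen2
      rw [div_mul_eq_mul_div]
      exact div_le_div_of_nonneg_right hAB (by positivity)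
    have h4 := (h1 X hX1 _ _ i j S).2 A' B' hB'X hθ'
    have hcard : (GoodL (fun l => a l * W) (fun l => a l * r0 + b l) i j t X A' B').card ≤
        (GI a b Ex i j L C t X A B).card := by
      apply card_le_card_of_injOn (fun y => W * y + r0)
      · intro y hy
        rw [mem_coe] at hy ⊢
        unfold GoodL at hy
        rw [mem_filter, mem_Ioc] at hy
        obtain ⟨⟨y1, y2⟩, y3, y4, y5⟩ := hy
        have hcast : ∀ l, a l * (W : ℤ) * (y : ℤ) + (a l * r0 + b l) = a l * ((W * y + r0 : ℕ) : ℤ) + b l := by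
          intro l
          push_cast
          ring
        simp only [hcast] at y3 y4 y5
        unfold GI
        rw [mem_filter, mem_Ioc]
        refine ⟨⟨?_, ?_⟩, y3, y4, y5, ?_⟩
        · have h5 : W * (A' + 1) ≤ W * y := Nat.mul_le_mul_left _ y1
          show A < W * y + r0
          omega
        · have h4 : W * y ≤ W * B' := Nat.mul_le_mul_left _ y2
          have h5 : W * B' ≤ B - r0 := by
            rw [hB']
            exact Nat.mul_div_le _ _
          show W * y + r0 ≤ B
          omega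
        · intro l h g1 g2 g3
          apply hW3 (W * y + r0) _ l h g1 g2 g3
          unfold Nat.ModEq
          rw [add_comm, Nat.add_mul_mod_self_left]
      · intro y _ y' _ he
        simp only at he
        have h4 : W * y = W * y' := by omega
        exact Nat.eq_of_mul_eq_mul_left hW1 h4
    have hcard' : ((GoodL (fun l => a l * W) (fun l => a l * r0 + b l) i j t X A' B').card : ℝ) ≤
        (GI a b Ex i j L C t X A B).card := by exact_mod_cast hcard
    have hVle := VL_sub S0.adm hW2 X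
    refine le_trans ?_ (h4.trans hcard')
    calc min (κ / (2 * C)) cV * ((B : ℝ) - A) * VL a b X ≤ κ / (2 * C) * ((B : ℝ) - A) * VL a b X := by
          apply mul_le_mul_of_nonneg_right _ hV0.le
          exact mul_le_mul_of_nonneg_right (min_le_left _ _) hBA0.le
      _ = κ * (((B : ℝ) - A) / (2 * C)) * VL a b X := by
          field_simp
      _ ≤ κ * ((B' : ℝ) - A') * VL (fun l => a l * W) (fun l => a l * r0 + b l) X := by
          apply mul_le_mul _ hVle hV0.le
          · exact mul_nonneg hκ.le (le_trans (div_nonneg hBA0.le (by positivity)) hlen)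
          · exact mul_le_mul_of_nonneg_left hlen2 hκ.le
  · intro χ
    obtain ⟨P, p1, p2, p3⟩ := part_col s r hs (Real.log X ^ c) (δ / (r + 1) * ((B : ℝ) - A) * VL a b X)
      (by positivity) (GI a b Ex i j L C t X A B) (by
        intro T hT hTc
        refine h2 X hX2 k (lf a b) (by
          simp only [hdeg]
          simp) (loc_lf S0.adm) (by
          rw [V_lf]
          exact hVl) A B hB hAB T ?_ ?_ (by
          rw [V_lf]
          exact hTc)
        · exact hT.trans (filter_subset _ _)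
        · intro x hx _ l q hq hd
          have h5 := hT hx
          unfold GI at h5
          rw [mem_filter] at h5
          rw [lf_eval] at hd
          refine lt_of_le_of_lt ?_ ((h5.2.2.2.1 l).2.2 q hq hd)
          apply Real.rpow_le_rpow_of_exponent_le (by exact_mod_cast (by omega : 1 ≤ X))
          have ht0 : (0 : ℝ) < t := by exact_mod_cast ht
          apply one_div_le_one_div_of_le ht0
          exact_mod_cast le_max_left t 2) χ
    refine ⟨P, p1, p2, p3.le.trans ?_⟩
    have h6 : (r : ℝ) * (δ / (r + 1) * ((B : ℝ) - A) * VL a b X) =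
        (r / (r + 1)) * (δ * ((B : ℝ) - A) * VL a b X) := by
      field_simp
    rw [h6]
    have h7 : (r : ℝ) / (r + 1) ≤ 1 := by
      rw [div_le_one (by positivity)]
      linarith
    exact mul_le_of_le_one_left (by positivity) h7

end Pool.Agent.X32.Uni
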