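import Pool.Agent.X32.Uni.Defs

/-!
Residue classes in which given polynomials have small prime factors and other polynomials do not.
-/

set_option autoImplicit false

namespace Pool.Agent.X32.Uni

open Finset Polynomial

/-- infinitely many primes divide the values of a nonconstant polynomial -/
theorem schur (M : ℤ[X]) (hM : 1 ≤ M.natDegree) (B : ℕ) :
    ∃ p : ℕ, p.Prime ∧ B < p ∧ ∃ x : ℤ, (p : ℤ) ∣ M.eval x := by
  classical
  by_cases h0 : M.eval 0 = 0
  · obtain ⟨p, hp, hpp⟩ := Nat.exists_infinite_primes (B + 1)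
    exact ⟨p, hpp, by omega, 0, by rw [h0]; exact dvd_zero _⟩
  · obtain ⟨c, hc⟩ : ∃ c : ℤ, c = M.eval 0 := ⟨_, rfl⟩
    obtain ⟨a, ha⟩ : ∃ a : ℤ, a = c * (B.factorial : ℤ) := ⟨_, rfl⟩
    have hc0 : c ≠ 0 := by rw [hc]; exact h0
    have ha0 : a ≠ 0 := by
      rw [ha]
      exact mul_ne_zero hc0 (by exact_mod_cast B.factorial_ne_zero)
    have h1 : ∃ y : ℤ, M.eval (a * y) ≠ c ∧ M.eval (a * y) ≠ -c := by
      by_contra hcon
      push Not at hcon
      have h2 : (M.comp (C a * X)) ^ 2 = C (c ^ 2) := by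
        apply Polynomial.funext
        intro y
        rw [eval_pow, eval_comp, eval_mul, eval_C, eval_X, eval_C]
        by_cases h3 : M.eval (a * y) = c
        · rw [h3]
        · rw [hcon y h3]
          ring
      have h3 := congrArg natDegree h2
      rw [natDegree_pow, natDegree_C, natDegree_comp, natDegree_C_mul_X a ha0, mul_one] at h3
      omega
    obtain ⟨y, hy1, hy2⟩ := h1
    have h2 : a * y - 0 ∣ M.eval (a * y) - M.eval 0 := sub_dvd_eval_sub (a * y) 0 M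
    rw [sub_zero] at h2
    obtain ⟨k, hk⟩ := h2
    rw [← hc] at hk
    obtain ⟨u, hu⟩ : ∃ u : ℤ, u = 1 + (B.factorial : ℤ) * y * k := ⟨_, rfl⟩
    have h3 : M.eval (a * y) = c * u := by
      rw [hu, sub_eq_iff_eq_add.1 hk, ha]
      ring
    have hu1 : u.natAbs ≠ 1 := by
      intro h
      rcases Int.natAbs_eq_iff.1 h with h4 | h4
      · apply hy1
        rw [h3, h4]
        simp
      · apply hy2
        rw [h3, h4]
        simp
    obtain ⟨p, hp, hpu⟩ := Nat.exists_prime_and_dvd hu1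
    have hpu' : (p : ℤ) ∣ u := Int.natCast_dvd.2 hpu
    refine ⟨p, hp, ?_, a * y, ?_⟩
    · by_contra hpB
      have h4 : (p : ℤ) ∣ (B.factorial : ℤ) := Int.natCast_dvd_natCast.2 ((hp.dvd_factorial).2 (not_lt.1 hpB))
      have h5 : (p : ℤ) ∣ 1 := by
        have h6 : (p : ℤ) ∣ (B.factorial : ℤ) * y * k := (h4.mul_right _).mul_right _
        have h7 := dvd_sub hpu' h6
        rw [hu, add_sub_cancel_right] at h7
        exact h7
      exact (Nat.prime_iff_prime_int.1 hp).not_isUnit (isUnit_of_dvd_one h5)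
    · rw [h3]
      exact hpu'.mul_left _

/-- clearing denominators -/
theorem clear (q : ℚ[X]) : ∃ b : ℤ, b ≠ 0 ∧ ∃ Q : ℤ[X], Q.map (Int.castRingHom ℚ) = C (b : ℚ) * q := by
  obtain ⟨b, hb⟩ := IsLocalization.integerNormalization_map_to_map (M := nonZeroDivisors ℤ) q
  refine ⟨b, nonZeroDivisors.ne_zero b.2, IsLocalization.integerNormalization (nonZeroDivisors ℤ) q, ?_⟩
  rw [show Int.castRingHom ℚ = algebraMap ℤ ℚ from rfl, hb, ← smul_eq_C_mul]
  ext n
  simp

/-- a prime for which `g` has a zero which is not a zero of `F` -/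
theorem kill_prime (g F : ℤ[X]) (hg : g ≠ 0) (α : ℂ) (h1 : aeval α g = 0) (h2 : aeval α F ≠ 0) (B : ℕ) :
    ∃ p : ℕ, p.Prime ∧ B < p ∧ ∃ x : ℤ, (p : ℤ) ∣ g.eval x ∧ ¬ (p : ℤ) ∣ F.eval x := by
  classical
  obtain ⟨ι, hι⟩ : ∃ ι : ℤ →+* ℚ, ι = Int.castRingHom ℚ := ⟨_, rfl⟩
  have hinj : Function.Injective ι := by rw [hι]; exact Int.cast_injective
  have hgQ : g.map ι ≠ 0 := (Polynomial.map_ne_zero_iff hinj).2 hg
  have hae : ∀ q : ℤ[X], aeval α (q.map ι) = aeval α q := by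
    intro q
    rw [hι]
    exact aeval_map_algebraMap ℚ α q
  have halg : IsAlgebraic ℚ α := ⟨g.map ι, hgQ, by rw [hae, h1]⟩
  have hint : IsIntegral ℚ α := halg.isIntegral
  obtain ⟨μ, hμ⟩ : ∃ μ : ℚ[X], μ = minpoly ℚ α := ⟨_, rfl⟩
  have hirr : Irreducible μ := by rw [hμ]; exact minpoly.irreducible hint
  have hμg : μ ∣ g.map ι := by
    rw [hμ]
    exact minpoly.dvd _ _ (by rw [hae, h1])
  have hμF : ¬ μ ∣ F.map ι := by
    rw [hμ, minpoly.dvd_iff, hae]
    exact h2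
  obtain ⟨u, v, huv⟩ := (hirr.coprime_iff_not_dvd).2 hμF
  obtain ⟨t, ht⟩ := hμg
  obtain ⟨bM, hbM, M, hM⟩ := clear μ
  obtain ⟨bT, hbT, T, hT⟩ := clear t
  obtain ⟨bu, hbu, U, hU⟩ := clear u
  obtain ⟨bv, hbv, V, hV⟩ := clear v
  rw [← hι] at hM hT hU hV
  have hmapC : ∀ c : ℤ, (C c : ℤ[X]).map ι = C (c : ℚ) := by
    intro c
    rw [Polynomial.map_C, hι]
    rfl
  have e1 : C bv * U * M + C (bu * bM) * V * F = C (bu * bv * bM) := by
    apply Polynomial.map_injective ι hinj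
    rw [Polynomial.map_add, Polynomial.map_mul, Polynomial.map_mul, Polynomial.map_mul, Polynomial.map_mul,
      hmapC, hmapC, hmapC, hM, hU, hV]
    push_cast
    simp only [C_mul]
    linear_combination (C (bu : ℚ) * C (bv : ℚ) * C (bM : ℚ)) * huv
  have e2 : M * T = C (bM * bT) * g := by
    apply Polynomial.map_injective ι hinj
    rw [Polynomial.map_mul, Polynomial.map_mul, hmapC, hM, hT, ht]
    push_cast
    simp only [C_mul]
    ring
  have hMdeg : 1 ≤ M.natDegree := by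
    have h3 : (M.map ι).natDegree = M.natDegree := natDegree_map_eq_of_injective hinj M
    have h4 : (M.map ι).natDegree = μ.natDegree := by
      rw [hM]
      exact natDegree_C_mul (by exact_mod_cast hbM)
    rw [← h3, h4]
    exact hirr.natDegree_pos
  obtain ⟨p, hp, hpB, x, hx⟩ := schur M hMdeg (B + bM.natAbs + bT.natAbs + bu.natAbs + bv.natAbs)
  have hpi := Nat.prime_iff_prime_int.1 hp
  have hnd : ∀ b : ℤ, b ≠ 0 → b.natAbs < p → ¬ (p : ℤ) ∣ b := by
    intro b hb hbp hd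
    have h3 := Nat.le_of_dvd (Int.natAbs_pos.2 hb) (Int.natCast_dvd.1 hd)
    omega
  refine ⟨p, hp, by omega, x, ?_, ?_⟩
  · have h3 := congrArg (fun q : ℤ[X] => q.eval x) e2
    simp only [eval_mul, eval_C] at h3
    have h4 : (p : ℤ) ∣ bM * bT * g.eval x := by
      rw [← h3]
      exact hx.mul_right _
    rcases hpi.dvd_or_dvd h4 with h5 | h5
    · rcases hpi.dvd_or_dvd h5 with h6 | h6
      · exact absurd h6 (hnd _ hbM (by omega))
      · exact absurd h6 (hnd _ hbT (by omega))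
    · exact h5
  · intro hF
    have h3 := congrArg (fun q : ℤ[X] => q.eval x) e1
    simp only [eval_mul, eval_C, eval_add] at h3
    have h4 : (p : ℤ) ∣ bu * bv * bM := by
      rw [← h3]
      exact dvd_add (hx.mul_left _) (hF.mul_left _)
    rcases hpi.dvd_or_dvd h4 with h5 | h5
    · rcases hpi.dvd_or_dvd h5 with h6 | h6
      · exact hnd _ hbu (by omega) h6
      · exact hnd _ hbv (by omega) h6
    · exact hnd _ hbM (by omega) h5

/-- a residue class in which all members of `G` have bounded prime factors and `F` does not -/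
theorem kill_all (F : ℤ[X]) (G : Finset ℤ[X]) (hG : ∀ g ∈ G, g ≠ 0 ∧ ∃ α : ℂ, aeval α g = 0 ∧ aeval α F ≠ 0) :
    ∃ W r : ℕ, 1 ≤ W ∧ r < W ∧ (∀ p : ℕ, p.Prime → p ∣ W → ¬ (p : ℤ) ∣ F.eval (r : ℤ)) ∧
      ∀ n : ℕ, n ≡ r [MOD W] → ∀ g ∈ G, ∃ q : ℕ, q.Prime ∧ q ≤ W ∧ (q : ℤ) ∣ g.eval (n : ℤ) := by
  classical
  induction G using Finset.induction_on with
  | empty =>
    refine ⟨1, 0, le_rfl, one_pos, fun p hp hd => ?_, fun n _ g hg => absurd hg (notMem_empty g)⟩
    exact absurd (Nat.le_of_dvd one_pos hd) (by have := hp.two_le; omega)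
  | insert g G hgG ih =>
    obtain ⟨W, r, hW1, hrW, hW2, hW3⟩ := ih (fun g' hg' => hG g' (mem_insert_of_mem hg'))
    obtain ⟨hg0, α, hα1, hα2⟩ := hG g (mem_insert_self _ _)
    obtain ⟨p, hp, hpW, x, hx1, hx2⟩ := kill_prime g F hg0 α hα1 hα2 W
    have hpz : (0 : ℤ) < p := by exact_mod_cast hp.pos
    obtain ⟨y, hy⟩ : ∃ y : ℕ, y = (x % (p : ℤ)).toNat := ⟨_, rfl⟩
    have hyx : (y : ℤ) ≡ x [ZMOD p] := by
      rw [hy, Int.toNat_of_nonneg (Int.emod_nonneg x hpz.ne')]
      exact Int.mod_modEq _ _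
    have hcop : Nat.Coprime W p := by
      apply Nat.Coprime.symm
      rw [hp.coprime_iff_not_dvd]
      intro hd
      have := Nat.le_of_dvd hW1 hd
      omega
    obtain ⟨z, hz1, hz2⟩ := Nat.chineseRemainder hcop r y
    have hev : ∀ (q : ℤ[X]) (N : ℕ) (s s' : ℤ), s ≡ s' [ZMOD N] → ((N : ℤ) ∣ q.eval s ↔ (N : ℤ) ∣ q.eval s') := by
      intro q N s s' hs
      have h1 : q.eval s ≡ q.eval s' [ZMOD N] :=
        Int.modEq_iff_dvd.2 ((Int.modEq_iff_dvd.1 hs).trans (sub_dvd_eval_sub s' s q))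
      exact h1.dvd_iff
    have hm : z % (W * p) ≡ z [MOD W * p] := Nat.mod_modEq _ _
    have hmW : z % (W * p) ≡ z [MOD W] := hm.of_mul_right p
    have hmp : z % (W * p) ≡ z [MOD p] := hm.of_mul_left W
    refine ⟨W * p, z % (W * p), Nat.mul_pos hW1 hp.pos, Nat.mod_lt _ (Nat.mul_pos hW1 hp.pos), ?_, ?_⟩
    · intro q hq hd hF
      rcases hq.dvd_mul.1 hd with h1 | h1
      · apply hW2 q hq h1
        refine (hev F q _ _ ?_).1 hF
        have h2 : z % (W * p) ≡ r [MOD q] := (hmW.trans hz1).of_dvd h1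
        exact (Int.natCast_modEq_iff.2 h2)
      · rw [(Nat.prime_dvd_prime_iff_eq hq hp).1 h1] at hF
        apply hx2
        refine (hev F p _ _ ?_).1 hF
        exact (Int.natCast_modEq_iff.2 (hmp.trans hz2)).trans hyx
    · intro n hn g' hg'
      have hnW : n ≡ r [MOD W] := (hn.of_mul_right p).trans (hmW.trans hz1)
      have hnp : n ≡ y [MOD p] := (hn.of_mul_left W).trans (hmp.trans hz2)
      rcases mem_insert.1 hg' with h1 | h1
      · refine ⟨p, hp, Nat.le_mul_of_pos_left _ hW1, ?_⟩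
        rw [h1]
        exact (hev g p _ _ ((Int.natCast_modEq_iff.2 hnp).trans hyx)).2 hx1
      · obtain ⟨q, hq1, hq2, hq3⟩ := hW3 n hnW g' h1
        exact ⟨q, hq1, hq2.trans (Nat.le_mul_of_pos_right _ hp.pos), hq3⟩

end Pool.Agent.X32.Uni
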