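import Pool.Agent.X32.Uni.Sub

/-!
Chen's theorem for a fixed system of polynomials, with bounded prime factors in finitely many other polynomials.
-/

set_option autoImplicit false

namespace Pool.Agent.X32.Uni

open Finset Filter
open Polynomial (C X aeval)
open scoped Polynomial

variable {m : ℕ}

open Classical in
/-- the good `n` -/
noncomputable def GK (f : Fin m → ℤ[X]) (G : Finset ℤ[X]) (i j : Fin m) (C t X A B : ℕ) : Finset ℕ :=
  (Ioc A B).filter (fun x : ℕ => ((f i).eval (x : ℤ)).natAbs.Prime ∧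
    Almost 2 ((X : ℝ) ^ (1 / 9 : ℝ)) ((f j).eval (x : ℤ)) ∧
    (∀ l, Almost (t * (f l).natDegree) ((X : ℝ) ^ (1 / (t : ℝ))) ((f l).eval (x : ℤ))) ∧
    ∀ g ∈ G, ∃ q : ℕ, q.Prime ∧ q ≤ C ∧ (q : ℤ) ∣ g.eval (x : ℤ))

/-- the substitution `x ↦ W x + r` -/
noncomputable def sbf (f : Fin m → ℤ[X]) (W r : ℕ) (l : Fin m) : ℤ[X] := (f l).comp (C (W : ℤ) * X + C (r : ℤ))

theorem sbf_eval (f : Fin m → ℤ[X]) (W r : ℕ) (l : Fin m) (x : ℤ) :
    (sbf f W r l).eval x = (f l).eval (W * x + r) := by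
  unfold sbf
  simp [Polynomial.eval_comp]

theorem sbf_deg (f : Fin m → ℤ[X]) {W : ℕ} (hW : 1 ≤ W) (r : ℕ) (l : Fin m) :
    (sbf f W r l).natDegree = (f l).natDegree := by
  unfold sbf
  have hW0 : (W : ℤ) ≠ 0 := by exact_mod_cast (by omega : W ≠ 0)
  rw [Polynomial.natDegree_comp, Polynomial.natDegree_linear hW0, mul_one]

theorem sbf_sbs (f : Fin m → ℤ[X]) {W r : ℕ} (hW : 1 ≤ W)
    (hr : ∀ p : ℕ, p.Prime → p ∣ W → ¬ (p : ℤ) ∣ (∏ l, f l).eval (r : ℤ)) :
    Sbs f (sbf f W r) (fun _ => 1) W r where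
  hM := hW
  eq := fun l => by rw [Polynomial.C_1, one_mul]; rfl
  dM := fun l p hp hd => by
    exfalso
    exact (Nat.prime_iff_prime_int.1 hp).not_isUnit (isUnit_of_dvd_one hd)
  nz := fun p hp hpW x hd => by
    apply hr p hp hpW
    rw [Polynomial.eval_prod]
    have h1 : ∏ l, (sbf f W r l).eval x = ∏ l, (f l).eval (W * x + r) :=
      prod_congr rfl fun l _ => sbf_eval f W r l x
    rw [h1] at hd
    refine (dvd_iff ?_).1 hd
    rw [Int.modEq_iff_dvd]
    have h2 : (r : ℤ) - (W * x + r) = W * (-x) := by ring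
    rw [h2]
    exact (Int.natCast_dvd_natCast.2 hpW).mul_right _

theorem sbf_inj (f : Fin m → ℤ[X]) {W : ℕ} (hW : 1 ≤ W) (r : ℕ) (i j : Fin m) (e : ℤ)
    (he : sbf f W r j = C e * sbf f W r i) : f j = C e * f i := by
  have hW0 : (W : ℤ) ≠ 0 := by exact_mod_cast (by omega : W ≠ 0)
  have h1 : (f j - C e * f i).comp (C (W : ℤ) * X + C (r : ℤ)) = 0 := by
    rw [Polynomial.sub_comp, Polynomial.mul_comp, Polynomial.C_comp]
    exact sub_eq_zero.2 he
  rcases Polynomial.comp_eq_zero_iff.1 h1 with h2 | h2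
  · exact sub_eq_zero.1 h2
  · exfalso
    have h3 := congrArg Polynomial.natDegree h2.2
    rw [Polynomial.natDegree_linear hW0, Polynomial.natDegree_C] at h3
    omega

/-- the sizes of a fixed system -/
theorem sys_of (h : Fin m → ℤ[X]) (i j : Fin m) (hdeg : ∀ l, 1 ≤ (h l).natDegree) (hloc : Loc h)
    (hi : (h i).natDegree = 1) (hj : (h j).natDegree = 1) (hne : h j ≠ h i) (hne' : h j ≠ - h i) :
    ∃ K : ℕ, ∀ n : ℕ, 1 ≤ n → Sys (∑ l, (h l).natDegree) (((h i).coeff 1).natAbs + ((h j).coeff 1).natAbs) K n h i j := by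
  classical
  choose Kf hKf using fun l => eval_size (h l)
  refine ⟨∑ l, Kf l, fun n hn => ?_⟩
  refine
    { deg := hdeg
      sum := le_rfl
      loc := hloc
      size := fun l x hx0 hxn => ?_
      di := hi
      dj := hj
      ei := by omega
      ej := by omega
      ne := hne
      ne' := hne' }
  refine (hKf l n hn x hx0 hxn).trans ?_
  apply mul_le_mul_of_nonneg_right _ (by positivity)
  exact_mod_cast single_le_sum (f := Kf) (fun _ _ => Nat.zero_le _) (mem_univ l)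

theorem killP (f : Fin m → ℤ[X]) (hdeg : ∀ l, 1 ≤ (f l).natDegree) (hloc : Loc f) (i j : Fin m)
    (hi : (f i).natDegree = 1) (hj : (f j).natDegree = 1) (hne : f j ≠ f i) (hne' : f j ≠ - f i)
    (G : Finset ℤ[X]) (hG : ∀ g ∈ G, g ≠ 0 ∧ ∃ α : ℂ, aeval α g = 0 ∧ ∀ l, aeval α (f l) ≠ 0) :
    ∃ C t : ℕ, 1 ≤ t ∧ ∃ κ : ℝ, 0 < κ ∧ ∀ (s r : ℕ) (θ δ : ℝ), 1 ≤ s → 0 < θ → 0 < δ → ∃ c X₀ : ℕ, ∀ X : ℕ, X₀ ≤ X →
      κ / Real.log X ^ (∑ l, (f l).natDegree) ≤ V f X ∧ ∀ A B : ℕ, B ≤ X → θ * X ≤ (B : ℝ) - A →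
        κ * ((B : ℝ) - A) * V f X ≤ ((GK f G i j C t X A B).card : ℝ) ∧
        ∀ χ : ℕ → Fin r, ∃ P : Finset (ℕ × ℕ),
          (∀ z ∈ P, 1 ≤ z.2 ∧ (z.2 : ℝ) ≤ Real.log X ^ c ∧
            ∀ l < s, z.1 + l * z.2 ∈ GK f G i j C t X A B ∧ χ (z.1 + l * z.2) = χ z.1) ∧
          (P : Set (ℕ × ℕ)).PairwiseDisjoint (apSet s) ∧
          (((GK f G i j C t X A B \ P.biUnion (apSet s)).card : ℕ) : ℝ) ≤ δ * ((B : ℝ) - A) * V f X := by
  classical
  obtain ⟨W, r₀, hW1, hrW, hW2, hW3⟩ := kill_all (∏ l, f l) G (by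
    intro g hg
    obtain ⟨h1, α, h2, h3⟩ := hG g hg
    refine ⟨h1, α, h2, ?_⟩
    rw [map_prod]
    exact prod_ne_zero_iff.2 fun l _ => h3 l)
  have S := sbf_sbs f hW1 hW2
  have hlocM : ∀ p : ℕ, p.Prime → ¬ p ∣ W → ∃ x : ℤ, ¬ (p : ℤ) ∣ ∏ l, (f l).eval x := fun p hp _ => hloc p hp
  have hdegh : ∀ l, (sbf f W r₀ l).natDegree = (f l).natDegree := fun l => sbf_deg f hW1 r₀ l
  obtain ⟨K, hK⟩ := sys_of (sbf f W r₀) i j (fun l => by rw [hdegh]; exact hdeg l) (S.loc hlocM)
    (by rw [hdegh]; exact hi) (by rw [hdegh]; exact hj)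
    (by
      intro he
      apply hne
      have := sbf_inj f hW1 r₀ i j 1 (by rw [Polynomial.C_1, one_mul]; exact he)
      rwa [Polynomial.C_1, one_mul] at this)
    (by
      intro he
      apply hne'
      have := sbf_inj f hW1 r₀ i j (-1) (by rw [Polynomial.C_neg, Polynomial.C_1, neg_one_mul]; exact he)
      rwa [Polynomial.C_neg, Polynomial.C_1, neg_one_mul] at this)
  obtain ⟨D, hD⟩ : ∃ D : ℕ, D = ∑ l, (f l).natDegree := ⟨_, rfl⟩
  have hDh : ∑ l, (sbf f W r₀ l).natDegree = D := by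
    rw [hD]
    exact sum_congr rfl fun l _ => hdegh l
  obtain ⟨E, hE⟩ : ∃ E : ℕ, E = ((sbf f W r₀ i).coeff 1).natAbs + ((sbf f W r₀ j).coeff 1).natAbs := ⟨_, rfl⟩
  rw [hDh, ← hE] at hK
  rw [← hD]
  have hD1 : 1 ≤ D := by
    rw [hD]
    exact (hdeg i).trans (single_le_sum (f := fun l => (f l).natDegree) (fun _ _ => Nat.zero_le _) (mem_univ i))
  obtain ⟨d0, hd0⟩ : ∃ d0, D = d0 + 1 := ⟨D - 1, by omega⟩
  obtain ⟨cV, hcV, hVl⟩ := V_low d0
  obtain ⟨t, ht, κ, hκ, HL⟩ := progU D E hD1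
  have hW0 : (0 : ℝ) < W := by exact_mod_cast hW1
  have hVlow : ∀ X : ℕ, 2 ≤ X → cV / Real.log X ^ D ≤ V f X := by
    intro X hX
    have h1 := hVl m f X hX hloc (by omega)
    rwa [← hd0] at h1
  refine ⟨W, t, ht, min (κ / (2 * W)) cV, by positivity, fun s r θ δ hs hθ hδ => ?_⟩
  obtain ⟨⟨X₁, h1⟩, _⟩ := HL (θ / (2 * W)) (by positivity) K
  obtain ⟨N₁, hN₁⟩ := exists_nat_gt ((4 * W + 2 * r₀) / θ)
  obtain ⟨c, X₂, h2⟩ := prog_dense D (max t 2) (le_max_right _ _) s θ (δ / (r + 1)) cV hθ (by positivity) hcV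
  refine ⟨c, max (max X₁ (max N₁ 3)) X₂, fun X hX => ?_⟩
  have hX1 : X₁ ≤ X := (le_max_left _ _).trans ((le_max_left _ _).trans hX)
  have hXN : N₁ ≤ X := (le_max_left _ _).trans ((le_max_right _ _).trans ((le_max_left _ _).trans hX))
  have hX3 : 3 ≤ X := (le_max_right _ _).trans ((le_max_right _ _).trans ((le_max_left _ _).trans hX))
  have hX2 : X₂ ≤ X := (le_max_right _ _).trans hX
  have hX0 : (0 : ℝ) < X := by exact_mod_cast (by omega : 0 < X)
  have hlog : 0 < Real.log X := Real.log_pos (by exact_mod_cast (by omega : 1 < X))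
  have hVf := hVlow X (by omega)
  have hV0 : 0 < V f X := lt_of_lt_of_le (by positivity) hVf
  refine ⟨(div_le_div_of_nonneg_right (min_le_right _ _) (by positivity)).trans hVf, fun A B hB hAB => ?_⟩
  have hBA0 : 0 < (B : ℝ) - A := lt_of_lt_of_le (by positivity) hAB
  constructor
  · have hsize : 4 * (W : ℝ) + 2 * r₀ ≤ θ * X := by
      have h2 : (4 * W + 2 * r₀) / θ ≤ X := by
        have : (N₁ : ℝ) ≤ X := by exact_mod_cast hXN
        linarith
      have h3 := (div_le_iff₀ hθ).1 h2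
      linarith
    obtain ⟨A', hA'⟩ : ∃ A' : ℕ, A' = (A - r₀) / W := ⟨_, rfl⟩
    obtain ⟨B', hB'⟩ : ∃ B' : ℕ, B' = (B - r₀) / W := ⟨_, rfl⟩
    have hBr : A + 2 * r₀ ≤ B := by
      have h2 : (A : ℝ) + 2 * r₀ ≤ B := by
        have : (0 : ℝ) ≤ 4 * W := by positivity
        linarith
      exact_mod_cast h2
    have hB'X : B' ≤ X := by
      rw [hB']
      exact (Nat.div_le_self _ _).trans ((Nat.sub_le _ _).trans hB)
    have hB'lt : B - r₀ < W * (B' + 1) := by
      rw [hB']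
      exact Nat.lt_mul_div_succ _ hW1
    have hA'lt : A - r₀ < W * (A' + 1) := by
      rw [hA']
      exact Nat.lt_mul_div_succ _ hW1
    have hlen : ((B : ℝ) - A) / (2 * W) ≤ (B' : ℝ) - A' := by
      have h2 : (W : ℝ) * A' ≤ A := by
        have h3 : W * A' ≤ A := by
          rw [hA']
          exact (Nat.mul_div_le _ _).trans (Nat.sub_le _ _)
        exact_mod_cast h3
      have h3 : (B : ℝ) < W * (B' + 1) + r₀ := by
        have h4 : B < W * (B' + 1) + r₀ := by omega
        exact_mod_cast h4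
      rw [div_le_iff₀ (by positivity)]
      nlinarith
    have hθ' : θ / (2 * W) * X ≤ (B' : ℝ) - A' := by
      refine le_trans ?_ hlen
      rw [div_mul_eq_mul_div]
      exact div_le_div_of_nonneg_right hAB (by positivity)
    have h4 := (h1 X hX1 _ _ i j (hK X (by omega))).2 A' B' hB'X hθ'
    have hcard : (GoodX (sbf f W r₀) i j t X A' B').card ≤ (GK f G i j W t X A B).card := by
      apply card_le_card_of_injOn (fun y => W * y + r₀)
      · intro y hy
        rw [mem_coe] at hy ⊢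
        unfold GoodX at hy
        rw [mem_filter, mem_Ioc] at hy
        obtain ⟨⟨y1, y2⟩, y3, y4, y5⟩ := hy
        have hcast : ∀ l, (sbf f W r₀ l).eval (y : ℤ) = (f l).eval ((W * y + r₀ : ℕ) : ℤ) := by
          intro l
          rw [sbf_eval]
          push_cast
          rfl
        rw [hcast] at y3 y4
        simp only [hcast, hdegh] at y5
        unfold GK
        rw [mem_filter, mem_Ioc]
        refine ⟨⟨?_, ?_⟩, y3, y4, y5, ?_⟩
        · have h5 : W * (A' + 1) ≤ W * y := Nat.mul_le_mul_left _ y1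
          show A < W * y + r₀
          omega
        · have h4 : W * y ≤ W * B' := Nat.mul_le_mul_left _ y2
          have h5 : W * B' ≤ B - r₀ := by
            rw [hB']
            exact Nat.mul_div_le _ _
          show W * y + r₀ ≤ B
          omega
        · apply hW3 (W * y + r₀)
          unfold Nat.ModEq
          rw [add_comm, Nat.add_mul_mod_self_left]
      · intro y _ y' _ he
        simp only at he
        have h4 : W * y = W * y' := by omega
        exact Nat.eq_of_mul_eq_mul_left hW1 h4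
    have hcard' : ((GoodX (sbf f W r₀) i j t X A' B').card : ℝ) ≤ (GK f G i j W t X A B).card := by
      exact_mod_cast hcard
    have hVle := (V_le_VM hloc W X).trans (S.V_le hlocM X)
    refine le_trans ?_ (h4.trans hcard')
    calc min (κ / (2 * W)) cV * ((B : ℝ) - A) * V f X ≤ κ / (2 * W) * ((B : ℝ) - A) * V f X := by
          apply mul_le_mul_of_nonneg_right _ hV0.le
          exact mul_le_mul_of_nonneg_right (min_le_left _ _) hBA0.le
      _ = κ * (((B : ℝ) - A) / (2 * W)) * V f X := by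
          field_simp
      _ ≤ κ * ((B' : ℝ) - A') * V (sbf f W r₀) X := by
          apply mul_le_mul _ hVle hV0.le
          · exact mul_nonneg hκ.le (le_trans (by positivity) hlen)
          · exact mul_le_mul_of_nonneg_left hlen hκ.le
  · intro χ
    obtain ⟨P, p1, p2, p3⟩ := part_col s r hs (Real.log X ^ c) (δ / (r + 1) * ((B : ℝ) - A) * V f X)
      (by positivity) (GK f G i j W t X A B) (by
        intro T hT hTc
        refine h2 X hX2 m f (by omega) hloc hVf A B hB hAB T ?_ ?_ hTc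
        · exact hT.trans (filter_subset _ _)
        · intro x hx _ l q hq hd
          have h5 := hT hx
          unfold GK at h5
          rw [mem_filter] at h5
          refine lt_of_le_of_lt ?_ ((h5.2.2.2.1 l).2.2 q hq hd)
          apply Real.rpow_le_rpow_of_exponent_le (by exact_mod_cast (by omega : 1 ≤ X))
          have ht0 : (0 : ℝ) < t := by exact_mod_cast ht
          apply one_div_le_one_div_of_le ht0
          exact_mod_cast le_max_left t 2) χ
    refine ⟨P, p1, p2, p3.le.trans ?_⟩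
    have h6 : (r : ℝ) * (δ / (r + 1) * ((B : ℝ) - A) * V f X) =
        (r / (r + 1)) * (δ * ((B : ℝ) - A) * V f X) := by
      field_simp
    rw [h6]
    have h7 : (r : ℝ) / (r + 1) ≤ 1 := by
      rw [div_le_one (by positivity)]
      linarith
    exact mul_le_of_le_one_left (by positivity) h7

end Pool.Agent.X32.Uni
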