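import Pool.Agent.X32.Uni.Main
import Pool.Agent.X32.Uni.UShort

/-!
Systems of polynomials with two linear members, uniformly in the coefficients, which may be as large as a power of the
length.
-/

set_option autoImplicit false

namespace Pool.Agent.X32.Uni

open Finset Filter
open Polynomial (X C)
open scoped Polynomial
open Pool.Agent.Y843.HS (Pr VV Pr_mem Pr_prime VV_split card_res)
open Pool.Agent.Y843.HG (Adm Z0 V1)
open Pool.Agent.Y843.CH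
open Pool.Agent.X32.CL

variable {m : ℕ}

open Classical in
/-- the good arguments -/
noncomputable def GoodE (f : Fin m → ℤ[X]) (ee : Fin m → ℕ) (i j : Fin m) (t n A B : ℕ) : Finset ℕ :=
  (Ioc A B).filter (fun x : ℕ => ((f i).eval (x : ℤ)).natAbs.Prime ∧
    Almost 2 ((n : ℝ) ^ (1 / 9 : ℝ)) ((f j).eval (x : ℤ)) ∧
    ∀ k, Almost (t * ee k) ((n : ℝ) ^ (1 / (t : ℝ))) ((f k).eval (x : ℤ)))

/-- the systems: `D` bounds the sum of the degrees, `E` the slopes of the two linear members, `ee` the exponents of the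
sizes -/
structure SysE (D E K n : ℕ) (f : Fin m → ℤ[X]) (ee : Fin m → ℕ) (i j : Fin m) : Prop where
  deg : ∀ k, 1 ≤ (f k).natDegree
  sum : ∑ k, (f k).natDegree ≤ D
  loc : Loc f
  size : ∀ k, ∀ x : ℤ, 0 ≤ x → x ≤ n → |(f k).eval x| ≤ K * (n : ℤ) ^ ee k
  e_i : ee i = 1
  e_j : ee j = 1
  di : (f i).natDegree = 1
  dj : (f j).natDegree = 1
  ei : ((f i).coeff 1).natAbs ≤ E
  ej : ((f j).coeff 1).natAbs ≤ E
  ne : f j ≠ f i
  ne' : f j ≠ - f i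

section
variable {f : Fin m → ℤ[X]} {i j : Fin m} {n z d u : ℕ} {σ τ e0 e1 β0 β1 : ℤ}

/-- a good prime gives a good argument -/
theorem Da.goodE (D : Da f i j z d u σ τ e0 e1 β0 β1) (ee : Fin m → ℕ) {A B x0 Y N t K P' Q : ℕ}
    (hBn : B ≤ n) (hn1 : 1 ≤ n) (ht : 1 ≤ t)
    (hx0 : ∀ q ∈ Pr 0 z, ¬ (q : ℤ) ∣ ∏ k, (f k).eval x0)
    (hY : (n : ℝ) ^ (1 / (t : ℝ)) < Y + 1) (hN : (n : ℝ) ^ (1 / 9 : ℝ) < (N : ℝ) ^ (1 / 4 : ℝ))
    (hK : (K : ℝ) < (n : ℝ) ^ (1 / (t : ℝ)))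
    (hKv : ∀ k, ∀ x : ℤ, 0 ≤ x → x ≤ n → |(f k).eval (x : ℤ)| ≤ K * (n : ℤ) ^ ee k)
    {x p : ℕ} (hx1 : A < x) (hx2 : x ≤ B) (hp : (p : ℤ) = σ * e0 * x + σ * β0)
    (hpG : p ∈ GD2 P' Q N z Y (u * Mz z) (aP z u (σ * e0) (σ * β0) x0) u (τ * e1)
      (τ * (σ * e0 * β1 - e1 * (σ * β0))) (OmE f z (σ * e0) (σ * β0)))
    (h1 : ∀ k, 1 < |(f k).eval (x : ℤ)|) : x ∈ GoodE f ee i j t n A B := by
  classical
  unfold GD2 at hpG
  rw [mem_filter, mem_PNX] at hpG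
  obtain ⟨⟨⟨hPp, hpQ⟩, hpp⟩, hmod, hZ, hf0, hf2, hfq⟩ := hpG
  have hu0 : (0 : ℤ) < u := by exact_mod_cast D.u0
  have hss := D.ss
  have htt := D.tt
  -- the absolute value of the first form
  have hvi : (f i).eval (x : ℤ) = σ * p := by
    rw [D.hi, hp]
    linear_combination (-(e0 * x) - β0) * hss
  have hvi' : ((f i).eval (x : ℤ)).natAbs = p := by
    rw [hvi, Int.natAbs_mul]
    rcases D.hσ with h | h <;> rw [h] <;> simp
  -- the second form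
  have hvj : fv u (τ * e1) (τ * (σ * e0 * β1 - e1 * (σ * β0))) p = ((f j).eval (x : ℤ)).natAbs := by
    unfold fv
    rw [hp, D.idn, Int.mul_ediv_cancel_left _ hu0.ne', D.hj]
  -- the small primes
  have hcong : ((Mz z : ℕ) : ℤ) ∣ (x : ℤ) - x0 := by
    have h2 : ((u * Mz z : ℕ) : ℤ) ∣ (aP z u (σ * e0) (σ * β0) x0 : ℤ) - p := (Nat.modEq_iff_dvd).1 hmod
    have h3 := dvd_sub (aP_dvd z u D.u0 (σ * e0) (σ * β0) x0) h2
    have h4 : (aP z u (σ * e0) (σ * β0) x0 : ℤ) - (σ * e0 * x0 + σ * β0) -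
        ((aP z u (σ * e0) (σ * β0) x0 : ℤ) - p) = u * (τ * (x - x0)) := by
      have h5 : σ * e0 = τ * u := by
        rw [D.hu]
        linear_combination (- (σ * e0)) * htt
      rw [hp, h5]
      ring
    rw [h4] at h3
    push_cast at h3
    have h5 := Int.dvd_of_mul_dvd_mul_left hu0.ne' h3
    have h6 : (x : ℤ) - x0 = τ * (τ * (x - x0)) := by
      linear_combination (- ((x : ℤ) - x0)) * htt
    rw [h6]
    exact h5.mul_left _
  have hsm : ∀ q : ℕ, q.Prime → q ≤ Y → ¬ (q : ℤ) ∣ ∏ k, (f k).eval (x : ℤ) := by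
    intro q hq hqY hd
    rcases Nat.lt_or_ge z q with hz | hz
    · have hc := hZ q (Pr_mem.2 ⟨⟨hz, hqY⟩, hq⟩)
      apply hc
      unfold Z0
      rw [mem_insert]
      rcases Nat.eq_zero_or_pos (p % q) with h0 | h0
      · exact Or.inl h0
      right
      rw [mem_OmE]
      refine ⟨hz, h0.ne', Nat.mod_lt _ hq.pos, x % q, mem_range.2 (Nat.mod_lt _ hq.pos), ?_, ?_⟩
      · have h2 : ((q : ℕ) : ℤ) ∣ (x : ℤ) - (x % q : ℕ) := by
          push_cast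
          exact Int.dvd_self_sub_emod
        have h3 : ((q : ℕ) : ℤ) ∣ (p : ℤ) - (p % q : ℕ) := by
          push_cast
          exact Int.dvd_self_sub_emod
        have h4 := dvd_sub h3 (h2.mul_left (σ * e0))
        have h5 : (p : ℤ) - (p % q : ℕ) - σ * e0 * ((x : ℤ) - (x % q : ℕ)) =
            σ * e0 * ((x % q : ℕ) : ℤ) + σ * β0 - ((p % q : ℕ) : ℤ) := by
          rw [hp]
          ring
        rwa [h5] at h4
      · have h2 : (((x % q : ℕ) : ℤ)) ≡ x [ZMOD q] := by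
          push_cast
          exact Int.mod_modEq _ _
        rwa [dvd_iff h2]
    · apply hx0 q (Pr_mem.2 ⟨⟨hq.pos, hz⟩, hq⟩)
      have h2 : (x : ℤ) ≡ x0 [ZMOD q] := by
        rw [Int.modEq_comm, Int.modEq_iff_dvd]
        exact (Int.natCast_dvd_natCast.2 ((Mz_prime hq).2 hz)).trans hcong
      rwa [← dvd_iff h2]
  have hlarge : ∀ k, ∀ q : ℕ, q.Prime → (q : ℤ) ∣ (f k).eval (x : ℤ) → (n : ℝ) ^ (1 / (t : ℝ)) < q := by
    intro k q hq hd
    have h2 : ¬ q ≤ Y := fun h => hsm q hq h (hd.trans (dvd_prod_of_mem _ (mem_univ k)))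
    have h3 : Y + 1 ≤ q := by omega
    have h4 : (Y : ℝ) + 1 ≤ q := by exact_mod_cast h3
    linarith
  unfold GoodE
  rw [mem_filter, mem_Ioc]
  refine ⟨⟨hx1, hx2⟩, by rw [hvi']; exact hpp, ⟨h1 j, ?_, ?_⟩, fun k => ?_⟩
  · rw [← hvj]
    exact hf2
  · intro q hq hd
    have h2 : q ∣ fv u (τ * e1) (τ * (σ * e0 * β1 - e1 * (σ * β0))) p := by
      rw [hvj]
      exact Int.natCast_dvd.1 hd
    exact lt_of_lt_of_le hN (hfq q hq h2)
  · refine almost_of ht hn1 (h1 k) hK (hKv k x (by positivity) ?_) (hlarge k)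
    exact_mod_cast hx2.trans hBn

/-- the number of the good arguments -/
theorem Da.countE (D : Da f i j z d u σ τ e0 e1 β0 β1) (ee : Fin m → ℕ) {A B A1 B1 x0 Y N t K P P' Q : ℕ}
    (hBn : B ≤ n) (hn1 : 1 ≤ n) (ht : 1 ≤ t) (hA : A ≤ A1) (hB : B1 ≤ B)
    (hd : ∀ k, 1 ≤ (f k).natDegree)
    (hx0 : ∀ q ∈ Pr 0 z, ¬ (q : ℤ) ∣ ∏ k, (f k).eval x0)
    (hY : (n : ℝ) ^ (1 / (t : ℝ)) < Y + 1) (hN : (n : ℝ) ^ (1 / 9 : ℝ) < (N : ℝ) ^ (1 / 4 : ℝ))
    (hK : (K : ℝ) < (n : ℝ) ^ (1 / (t : ℝ)))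
    (hKv : ∀ k, ∀ x : ℤ, 0 ≤ x → x ≤ n → |(f k).eval (x : ℤ)| ≤ K * (n : ℤ) ^ ee k)
    (hPP : P ≤ P')
    (hrange : ∀ p : ℕ, P < p → p ≤ Q → σ * e0 ∣ (p : ℤ) - σ * β0 → ∃ x : ℕ, A1 < x ∧ x ≤ B1 ∧
      (p : ℤ) = σ * e0 * x + σ * β0) :
    (GD2 P' Q N z Y (u * Mz z) (aP z u (σ * e0) (σ * β0) x0) u (τ * e1)
      (τ * (σ * e0 * β1 - e1 * (σ * β0))) (OmE f z (σ * e0) (σ * β0))).card ≤
      (GoodE f ee i j t n A B).card + 3 * ∑ k, (f k).natDegree := by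
  classical
  have h1 : GD2 P' Q N z Y (u * Mz z) (aP z u (σ * e0) (σ * β0) x0) u (τ * e1)
      (τ * (σ * e0 * β1 - e1 * (σ * β0))) (OmE f z (σ * e0) (σ * β0)) ⊆
      (GoodE f ee i j t n A B ∪ BadX f A B).image (fun x : ℕ => (σ * e0 * (x : ℤ) + σ * β0).toNat) := by
    intro p hp
    have hp' := hp
    unfold GD2 at hp
    rw [mem_filter, mem_PNX] at hp
    obtain ⟨⟨⟨hPp, hpQ⟩, hpp⟩, hmod, _⟩ := hp
    have hE : σ * e0 ∣ (p : ℤ) - σ * β0 := by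
      have h2 : ((u * Mz z : ℕ) : ℤ) ∣ (aP z u (σ * e0) (σ * β0) x0 : ℤ) - p := (Nat.modEq_iff_dvd).1 hmod
      have h3 := dvd_sub (aP_dvd z u D.u0 (σ * e0) (σ * β0) x0) h2
      have h4 : σ * e0 ∣ ((u * Mz z : ℕ) : ℤ) := by
        push_cast
        rw [D.hu]
        exact Dvd.intro (τ * (Mz z : ℤ)) (by ring)
      have h5 := dvd_add (h4.trans h3) (dvd_mul_right (σ * e0) (x0 : ℤ))
      have h6 : (aP z u (σ * e0) (σ * β0) x0 : ℤ) - (σ * e0 * x0 + σ * β0) -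
        ((aP z u (σ * e0) (σ * β0) x0 : ℤ) - p) + σ * e0 * x0 = (p : ℤ) - σ * β0 := by ring
      rwa [h6] at h5
    obtain ⟨x, hx1, hx2, hpx⟩ := hrange p (by omega) hpQ hE
    rw [mem_image]
    refine ⟨x, ?_, by rw [← hpx]; simp⟩
    rw [mem_union]
    by_cases hb : ∀ k, 1 < |(f k).eval (x : ℤ)|
    · left
      exact D.goodE ee hBn hn1 ht hx0 hY hN hK hKv (lt_of_le_of_lt hA hx1) (hx2.trans hB) hpx hp' hb
    · right
      push Not at hb
      unfold BadX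
      rw [mem_filter, mem_Ioc]
      exact ⟨⟨lt_of_le_of_lt hA hx1, hx2.trans hB⟩, hb⟩
  refine (card_le_card h1).trans (card_image_le.trans ((card_union_le _ _).trans ?_))
  exact Nat.add_le_add_left (card_BadX hd A B) _


end

theorem mainE (D E : ℕ) (hD1 : 1 ≤ D) : ∃ t : ℕ, 1 ≤ t ∧ ∃ κ : ℝ, 0 < κ ∧ ∀ θ : ℝ, 0 < θ → ∀ K : ℕ, ∃ n₀ : ℕ,
    ∀ n : ℕ, n₀ ≤ n → ∀ (m : ℕ) (f : Fin m → ℤ[X]) (ee : Fin m → ℕ) (i j : Fin m), SysE D E K n f ee i j →
      κ / Real.log n ^ D ≤ V f n ∧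
      ∀ A B : ℕ, B ≤ n → θ * n ≤ (B : ℝ) - A →
        κ * ((B : ℝ) - A) * V f n ≤ ((GoodE f ee i j t n A B).card : ℝ) := by
  classical
  obtain ⟨d0, hd0⟩ : ∃ d0 : ℕ, D = d0 + 1 := ⟨D - 1, by omega⟩
  obtain ⟨z, hz1, hz2, t, ht, cc, hcc0, HC⟩ := chenU D E
  obtain ⟨cV, hcV, HV⟩ := V_low d0
  have hVz := V1_pos z
  refine ⟨t, by omega, min (cc * V1 z / 8) cV, by positivity, fun θ hθ K => ?_⟩
  obtain ⟨C1, hC1⟩ : ∃ C1 : ℕ, C1 = 2 * K + 4 * E + 1 := ⟨_, rfl⟩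
  have hC1p : 1 ≤ C1 := by omega
  have hC1r : (0 : ℝ) < C1 := by exact_mod_cast hC1p
  obtain ⟨X₁, hX₁⟩ := HC (θ / (4 * C1)) (by positivity)
  obtain ⟨n₂, hn₂⟩ := eventually_atTop.1 Pool.Agent.Y840.CT.ninth
  obtain ⟨n₃, hn₃⟩ := eventually_atTop.1 (pow_ge t (by omega) (max K z))
  obtain ⟨n₄, hn₄⟩ := eventually_atTop.1 (log_small D (3 * D / (cc * V1 z / 8 * θ * cV)))
  obtain ⟨n₅, hn₅⟩ := exists_nat_gt (12 / θ)
  refine ⟨3 + X₁ + n₂ + n₃ + n₄ + n₅ + C1, ?_⟩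
  intro n hn m f ee i j SS
  obtain ⟨e0, he0d⟩ : ∃ e0 : ℤ, e0 = (f i).coeff 1 := ⟨_, rfl⟩
  obtain ⟨e1, he1d⟩ : ∃ e1 : ℤ, e1 = (f j).coeff 1 := ⟨_, rfl⟩
  obtain ⟨β0, hβ0⟩ : ∃ β0 : ℤ, β0 = (f i).coeff 0 := ⟨_, rfl⟩
  obtain ⟨β1, hβ1⟩ : ∃ β1 : ℤ, β1 = (f j).coeff 0 := ⟨_, rfl⟩
  have hdet := det_ne SS.loc SS.di SS.dj SS.ne SS.ne'
  rw [← he0d, ← he1d, ← hβ0, ← hβ1] at hdet
  have he0 : e0 ≠ 0 := by rw [he0d]; exact coeff_ne SS.di
  have he1 : e1 ≠ 0 := by rw [he1d]; exact coeff_ne SS.dj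
  have hEi := SS.ei
  rw [← he0d] at hEi
  have hEj := SS.ej
  rw [← he1d] at hEj
  obtain ⟨u, hu⟩ : ∃ u : ℕ, u = e0.natAbs := ⟨_, rfl⟩
  have hu0 : 0 < u := by rw [hu]; exact Int.natAbs_pos.2 he0
  have huE1 : u ≤ E := by omega
  have huz : u ≤ z := by omega
  have he1z : e1.natAbs ≤ z := by omega
  have hloc := SS.loc
  have hn3 : 3 ≤ n := by omega
  have hnC : C1 ≤ n := by omega
  have hn1 : 1 ≤ n := by omega
  have hn0 : (0 : ℝ) < n := by exact_mod_cast hn1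
  have hVl := HV m f n (by omega) hloc (by rw [← hd0]; exact SS.sum)
  rw [← hd0] at hVl
  have hlog : 0 < Real.log n := Real.log_pos (by exact_mod_cast (by omega : 1 < n))
  have hVn := V_nonneg hloc n
  refine ⟨?_, ?_⟩
  · refine le_trans ?_ hVl
    apply div_le_div_of_nonneg_right (min_le_right _ _) (by positivity)
  intro A B hBn hθn
  have hθ12 : 12 ≤ θ * n := by
    have h1 : 12 / θ ≤ n := by
      have : (n₅ : ℝ) ≤ n := by exact_mod_cast (by omega : n₅ ≤ n)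
      linarith
    rwa [div_le_iff₀ hθ, mul_comm] at h1
  have hAB12 : A + 12 ≤ B := by
    have h1 : (A : ℝ) + 12 ≤ B := by linarith
    exact_mod_cast h1
  obtain ⟨A1, B1, σ, hA1, hAB1, hB1, hlen, hσ, hpos⟩ := window e0 β0 he0 A B (by omega)
  obtain ⟨τ, hτd⟩ : ∃ τ : ℤ, τ = (σ * e0).sign := ⟨_, rfl⟩
  have hE0 : σ * e0 ≠ 0 := by
    apply mul_ne_zero _ he0
    rcases hσ with h | h <;> rw [h] <;> norm_num
  have hτ : τ = 1 ∨ τ = -1 := by
    rw [hτd]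
    rcases lt_or_gt_of_ne hE0 with h | h
    · right
      exact Int.sign_eq_neg_one_of_neg h
    · left
      exact Int.sign_eq_one_of_pos h
  have huE : (u : ℤ) = τ * (σ * e0) := by
    rw [hτd, Int.sign_mul_self, hu, Int.natAbs_mul]
    rcases hσ with h | h <;> rw [h] <;> simp
  have Dd : Da f i j z D u σ τ e0 e1 β0 β1 :=
    { hi := fun x => by rw [eval_lin SS.di, ← he0d, ← hβ0]
      hj := fun x => by rw [eval_lin SS.dj, ← he1d, ← hβ1]
      loc := hloc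
      deg := SS.sum
      dz := hz2
      hσ := hσ
      hτ := hτ
      hu := huE
      u0 := hu0
      uz := huz
      e10 := he1
      H0 := hdet }
  obtain ⟨x0, hx0⟩ := exists_x0 f z hloc
  have hwq : ∀ q : ℕ, q.Prime → z < q → ¬ (q : ℤ) ∣ τ * e1 := by
    intro q hq hzq hd
    have h1 : (q : ℤ) ∣ e1 := by
      rcases hτ with h | h
      · rwa [h, one_mul] at hd
      · rwa [h, neg_one_mul, Int.dvd_neg] at hd
    have h2 : q ∣ e1.natAbs := Int.natCast_dvd.1 h1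
    have h3 := Nat.le_of_dvd (Int.natAbs_pos.2 he1) h2
    omega
  have hA1B1 : A1 < B1 := by omega
  obtain ⟨P, Q, hPQ, hPQl, hrange, ⟨y1, hy1, hyP⟩, ⟨y2, hy2, hyQ⟩⟩ :=
    range_p (E := σ * e0) (F := σ * β0) huE hτ hu0 hA1B1 (by
      intro x h1 h2
      have h3 := hpos x h1 h2
      have h4 : σ * e0 * x + σ * β0 = σ * (e0 * x + β0) := by ring
      rw [h4]
      exact h3)
  obtain ⟨w, hw⟩ : ∃ w : ℤ, w = τ * e1 := ⟨_, rfl⟩
  obtain ⟨H, hH⟩ : ∃ H : ℤ, H = τ * (σ * e0 * β1 - e1 * (σ * β0)) := ⟨_, rfl⟩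
  obtain ⟨Y, hY⟩ : ∃ Y : ℕ, Y = ⌊((C1 * n : ℕ) : ℝ) ^ (1 / (t : ℝ))⌋₊ := ⟨_, rfl⟩
  have hnr : (1 : ℤ) ≤ n := by exact_mod_cast hn1
  have huz0 : (1 : ℤ) ≤ u := by exact_mod_cast hu0
  -- the sizes
  have hsize : ∀ y T : ℕ, y ≤ B1 → |(T : ℤ) - (σ * e0 * y + σ * β0)| ≤ u + 1 →
      |w * T + H| ≤ u * ((C1 * n : ℕ) : ℤ) ∧ T ≤ C1 * n := by
    intro y T hy hT
    have hyn : (y : ℤ) ≤ n := by exact_mod_cast (hy.trans hB1).trans hBn
    have hy0 : (0 : ℤ) ≤ y := by positivity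
    have l0 := SS.size i y hy0 hyn
    have l1 := SS.size j y hy0 hyn
    rw [eval_lin SS.di, ← he0d, ← hβ0, SS.e_i, pow_one] at l0
    rw [eval_lin SS.dj, ← he1d, ← hβ1, SS.e_j, pow_one] at l1
    constructor
    · have h1 : w * T + H = u * (e1 * y + β1) + w * ((T : ℤ) - (σ * e0 * y + σ * β0)) := by
        rw [← Dd.idn y, hw, hH]
        ring
      rw [h1]
      have h2 : |(u : ℤ) * (e1 * y + β1)| ≤ u * (K * n) := by
        rw [abs_mul, Nat.abs_cast]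
        exact mul_le_mul_of_nonneg_left l1 (by positivity)
      have h3 : |w * ((T : ℤ) - (σ * e0 * y + σ * β0))| ≤ e1.natAbs * (u + 1) := by
        rw [abs_mul]
        have h4 : |w| = e1.natAbs := by
          rw [hw, abs_mul, Int.abs_eq_natAbs e1]
          rcases hτ with h | h <;> rw [h] <;> simp
        rw [h4]
        exact mul_le_mul_of_nonneg_left hT (by positivity)
      refine (abs_add_le _ _).trans ((add_le_add h2 h3).trans ?_)
      rw [hC1]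
      push_cast
      have h5 : (0 : ℤ) ≤ |e1| := abs_nonneg _
      have h6 : |e1| * ((u : ℤ) + 1) ≤ |e1| * (2 * u * n) := by
        apply mul_le_mul_of_nonneg_left _ h5
        nlinarith
      have h8 : |e1| ≤ (E : ℤ) := by
        rw [Int.abs_eq_natAbs]
        exact_mod_cast hEj
      have h9 : |e1| * (2 * u * n) ≤ E * (2 * u * n) := mul_le_mul_of_nonneg_right h8 (by positivity)
      have h7 : 0 ≤ (u : ℤ) * ((K + 2 * E + 1) * n) := by positivity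
      have h10 : (u : ℤ) * ((2 * K + 4 * E + 1) * n) =
        u * (K * n) + E * (2 * u * n) + u * ((K + 2 * E + 1) * n) := by ring
      linarith
    · have h1 : (T : ℤ) ≤ |σ * e0 * y + σ * β0| + (u + 1) := by
        have := (abs_le.1 hT).2
        have := le_abs_self (σ * e0 * y + σ * β0)
        linarith
      have h2 : |σ * e0 * y + σ * β0| = |e0 * y + β0| := by
        have h3 : σ * e0 * y + σ * β0 = σ * (e0 * y + β0) := by ring
        rw [h3, abs_mul]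
        rcases hσ with h | h <;> rw [h] <;> simp
      rw [h2] at h1
      have h3 : (T : ℤ) ≤ ((C1 * n : ℕ) : ℤ) := by
        rw [hC1]
        push_cast
        have h4 : (u : ℤ) + 1 ≤ 2 * u * n := by nlinarith
        have h8 : (u : ℤ) ≤ E := by exact_mod_cast huE1
        have h9 : 2 * (u : ℤ) * n ≤ 2 * E * n := by
          apply mul_le_mul_of_nonneg_right _ (by positivity)
          linarith
        have h5 : 0 ≤ ((K : ℤ) + 2 * E + 1) * n := by positivity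
        have h10 : (2 * (K : ℤ) + 4 * E + 1) * n = K * n + 2 * E * n + (K + 2 * E + 1) * n := by ring
        linarith
      exact_mod_cast h3
  obtain ⟨tA, _⟩ := hsize y1 P hy1 hyP
  obtain ⟨tB, hQX⟩ := hsize y2 Q hy2 hyQ
  obtain ⟨hcop, hua, haq⟩ := Dd.cop hx0
  have hCL : CLd D z Y (C1 * n) u w H (aP z u (σ * e0) (σ * β0) x0) P Q (OmE f z (σ * e0) (σ * β0)) :=
    { BX := hQX
      tA := tA
      tB := tB
      H0 := by rw [hH]; exact Dd.Hne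
      adm := Dd.adm Y
      hm := by rw [hw, hH]; exact Dd.hm hwq
      cop := hcop
      ua := by rw [hw, hH]; exact hua
      aq := by rw [hw, hH]; exact haq }
  -- the length
  have hQP : ((B : ℝ) - A) / 4 ≤ (Q : ℝ) - P := by
    have h1 : (u : ℝ) * ((B1 : ℝ) - A1) ≤ (Q : ℝ) - P + u := by exact_mod_cast hPQl
    have h2 : (1 : ℝ) ≤ u := by exact_mod_cast hu0
    have h3 : (1 : ℝ) ≤ (B1 : ℝ) - A1 := by
      have : (A1 : ℝ) + 1 ≤ B1 := by exact_mod_cast hA1B1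
      linarith
    have h4 : (B : ℝ) + 2 * A1 ≤ A + 2 * B1 + 1 := by exact_mod_cast hlen
    have h5 : (A : ℝ) + 12 ≤ B := by exact_mod_cast hAB12
    have h6 : (1 : ℝ) * ((B1 : ℝ) - A1 - 1) ≤ u * ((B1 : ℝ) - A1 - 1) :=
      mul_le_mul_of_nonneg_right h2 (by linarith)
    linarith
  have hθX : θ / (4 * C1) * ((C1 * n : ℕ) : ℝ) ≤ (Q : ℝ) - P := by
    have h1 : θ / (4 * C1) * ((C1 * n : ℕ) : ℝ) = θ * n / 4 := by
      push_cast
      field_simp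
    rw [h1]
    linarith
  have hXn : n ≤ C1 * n := Nat.le_mul_of_pos_left n hC1p
  have hchen : cc * ((Q : ℝ) - P) * VV (Z0 (OmE f z (σ * e0) (σ * β0))) 0 Y ≤
      ((GD2 (max P (Nat.sqrt (C1 * n))) Q (Nat.sqrt (C1 * n)) z Y (u * Mz z) (aP z u (σ * e0) (σ * β0) x0) u w H
        (OmE f z (σ * e0) (σ * β0))).card : ℝ) := by
    have hVV0 : 0 ≤ VV (Z0 (OmE f z (σ * e0) (σ * β0))) 0 Y := VV_nonneg (Dd.adm Y)
    have hQP0 : 0 ≤ (Q : ℝ) - P := by
      have : (P : ℝ) ≤ Q := by exact_mod_cast hPQ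
      linarith
    rw [hY] at hCL ⊢
    refine hX₁ (C1 * n) (by omega) u w hu0 ?_ huE1 ?_ H _ P Q _ hCL hθX
    · rw [hw]
      apply mul_ne_zero _ he1
      rcases hτ with h | h <;> rw [h] <;> norm_num
    · rw [hw, Int.natAbs_mul]
      rcases hτ with h | h <;> rw [h] <;> simpa using hEj
  -- the parameters
  have ht0 : (0 : ℝ) < t := by exact_mod_cast (by omega : 0 < t)
  have hnX : (n : ℝ) ≤ ((C1 * n : ℕ) : ℝ) := by exact_mod_cast hXn
  have hroot : (n : ℝ) ^ (1 / (t : ℝ)) ≤ ((C1 * n : ℕ) : ℝ) ^ (1 / (t : ℝ)) :=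
    Real.rpow_le_rpow hn0.le hnX (by positivity)
  have hKz := hn₃ n (by omega)
  have hKK' : (K : ℝ) < (n : ℝ) ^ (1 / (t : ℝ)) := lt_of_le_of_lt (le_max_left _ _) hKz
  have hzz' : (z : ℝ) < (n : ℝ) ^ (1 / (t : ℝ)) := lt_of_le_of_lt (le_max_right _ _) hKz
  have hzY : z ≤ Y := by
    rw [hY]
    exact Nat.le_floor (hzz'.le.trans hroot)
  have hYlt : (n : ℝ) ^ (1 / (t : ℝ)) < Y + 1 := by
    rw [hY]
    exact lt_of_le_of_lt hroot (Nat.lt_floor_add_one _)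
  have hYn : Y ≤ n := by
    have h1 : ((C1 * n : ℕ) : ℝ) ≤ (n : ℝ) ^ (2 : ℝ) := by
      have : C1 * n ≤ n ^ 2 := by
        rw [pow_two]
        exact Nat.mul_le_mul_right _ hnC
      rw [Real.rpow_two]
      exact_mod_cast this
    have h2 : ((C1 * n : ℕ) : ℝ) ^ (1 / (t : ℝ)) ≤ n := by
      calc ((C1 * n : ℕ) : ℝ) ^ (1 / (t : ℝ)) ≤ ((n : ℝ) ^ (2 : ℝ)) ^ (1 / (t : ℝ)) :=
            Real.rpow_le_rpow (by positivity) h1 (by positivity)
        _ = (n : ℝ) ^ (2 * (1 / (t : ℝ))) := by rw [Real.rpow_mul hn0.le]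
        _ ≤ (n : ℝ) ^ (1 : ℝ) := by
            apply Real.rpow_le_rpow_of_exponent_le (by exact_mod_cast hn1)
            rw [mul_one_div, div_le_one ht0]
            exact_mod_cast (by omega : 2 ≤ t)
        _ = n := Real.rpow_one _
    have h3 : (Y : ℝ) ≤ n := by
      rw [hY]
      exact (Nat.floor_le (by positivity)).trans h2
    exact_mod_cast h3
  have hNn : (n : ℝ) ^ (1 / 9 : ℝ) < (Nat.sqrt (C1 * n) : ℝ) ^ (1 / 4 : ℝ) := by
    refine lt_of_le_of_lt ?_ (hn₂ (C1 * n) (by omega))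
    exact Real.rpow_le_rpow hn0.le hnX (by norm_num)
  have hcount := Dd.countE ee (P' := max P (Nat.sqrt (C1 * n))) hBn hn1 (by omega : 1 ≤ t) hA1 hB1
    SS.deg hx0 hYlt hNn hKK' SS.size (le_max_left _ _) hrange
  rw [← hw, ← hH] at hcount
  replace hcount := hcount.trans (Nat.add_le_add_left (Nat.mul_le_mul_left 3 SS.sum) _)
  have hcount' : ((GD2 (max P (Nat.sqrt (C1 * n))) Q (Nat.sqrt (C1 * n)) z Y (u * Mz z)
      (aP z u (σ * e0) (σ * β0) x0) u w H (OmE f z (σ * e0) (σ * β0))).card : ℝ) ≤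
      ((GoodE f ee i j t n A B).card : ℝ) + 3 * D := by exact_mod_cast hcount
  have hVV := Dd.VV_ge hzY hYn
  have hBA0 : (12 : ℝ) ≤ (B : ℝ) - A := by linarith
  have hmain : cc * V1 z / 4 * ((B : ℝ) - A) * V f n ≤ ((GoodE f ee i j t n A B).card : ℝ) + 3 * D := by
    refine le_trans ?_ (hchen.trans hcount')
    calc cc * V1 z / 4 * ((B : ℝ) - A) * V f n = cc * (((B : ℝ) - A) / 4) * (V1 z * V f n) := by ring
      _ ≤ cc * ((Q : ℝ) - P) * VV (Z0 (OmE f z (σ * e0) (σ * β0))) 0 Y := by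
          apply mul_le_mul _ hVV (by positivity)
          · apply mul_nonneg hcc0.le
            linarith
          · exact mul_le_mul_of_nonneg_left hQP hcc0.le
  -- the error
  have herr : (3 * D : ℝ) ≤ cc * V1 z / 8 * ((B : ℝ) - A) * V f n := by
    have h1 := hn₄ n (by omega)
    have h2 : 0 < cc * V1 z / 8 * θ * cV := by positivity
    rw [div_mul_eq_mul_div, div_le_iff₀ h2] at h1
    have h3 : (3 * D : ℝ) ≤ cc * V1 z / 8 * (θ * n) * (cV / Real.log n ^ D) := by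
      rw [mul_div_assoc', le_div_iff₀ (by positivity)]
      linarith
    refine h3.trans ?_
    gcongr
  have h9 : cc * V1 z / 8 * ((B : ℝ) - A) * V f n ≤ ((GoodE f ee i j t n A B).card : ℝ) := by
    have h10 : cc * V1 z / 4 * ((B : ℝ) - A) * V f n = 2 * (cc * V1 z / 8 * ((B : ℝ) - A) * V f n) := by ring
    linarith
  refine le_trans ?_ h9
  have h11 : 0 ≤ ((B : ℝ) - A) * V f n := by positivity
  have h12 : min (cc * V1 z / 8) cV ≤ cc * V1 z / 8 := min_le_left _ _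
  have := mul_le_mul_of_nonneg_right h12 h11
  linarith


end Pool.Agent.X32.Uni
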