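import Pool.Agent.X32.Uni.Model3

/-!
Arbitrary tuples of integers: `N + a_l = (n₀ + a_l) v_l`.
-/

set_option autoImplicit false

namespace Pool.Agent.X32.Uni

open Finset
open Polynomial (C X)
open scoped Polynomial

variable {k : ℕ}

/-- `ν_p` -/
def omT (a : Fin k → ℤ) (p : ℕ) : ℕ := ((range p).filter (fun x : ℕ => (p : ℤ) ∣ ∏ l, ((x : ℤ) + a l))).card

/-- `z` -/
def zTz (a : Fin k → ℤ) (n₀ Q : ℕ) : ℕ := Q * ∏ l, ((n₀ : ℤ) + a l).natAbs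

/-- the product of `1 - ν_p / p` over the primes of `(z, X]` -/
noncomputable def VTz (a : Fin k → ℤ) (z X : ℕ) : ℝ :=
  ∏ p ∈ (Ioc z X).filter Nat.Prime, (1 - (omT a p : ℝ) / p)

open Classical in
/-- the good `N` -/
noncomputable def GLi (a : Fin k → ℤ) (i j : Fin k) (n₀ Q t X A B : ℕ) : Finset ℕ :=
  (Ioc A B).filter (fun N : ℕ => ∃ v : Fin k → ℤ,
    (∀ l, (N : ℤ) + a l = (n₀ + a l) * v l ∧ v l ≡ 1 [ZMOD (Q : ℤ)] ∧ Almost t ((X : ℝ) ^ (1 / (t : ℝ))) (v l)) ∧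
    (v i).natAbs.Prime ∧ Almost 2 ((X : ℝ) ^ (1 / 9 : ℝ)) (v j))

theorem modL (a : Fin k → ℤ) (hinj : Function.Injective a) (i j : Fin k) (hij : i ≠ j) (n₀ Q : ℕ) (hQ : 1 ≤ Q)
    (hn₀ : ∀ l, (n₀ : ℤ) + a l ≠ 0) :
    ∃ t : ℕ, 1 ≤ t ∧ ∃ κ : ℝ, 0 < κ ∧ ∀ (s r : ℕ) (θ δ : ℝ), 1 ≤ s → 0 < θ → 0 < δ → ∃ c X₀ : ℕ, ∀ X : ℕ, X₀ ≤ X →
      κ / Real.log X ^ k ≤ VTz a (zTz a n₀ Q) X ∧ ∀ A B : ℕ, B ≤ X → θ * X ≤ (B : ℝ) - A →
        κ * ((B : ℝ) - A) * VTz a (zTz a n₀ Q) X ≤ ((GLi a i j n₀ Q t X A B).card : ℝ) ∧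
        ∀ χ : ℕ → Fin r, ∃ P : Finset (ℕ × ℕ),
          (∀ z ∈ P, 1 ≤ z.2 ∧ (z.2 : ℝ) ≤ Real.log X ^ c ∧
            ∀ l < s, z.1 + l * z.2 ∈ GLi a i j n₀ Q t X A B ∧ χ (z.1 + l * z.2) = χ z.1) ∧
          (P : Set (ℕ × ℕ)).PairwiseDisjoint (apSet s) ∧
          (((GLi a i j n₀ Q t X A B \ P.biUnion (apSet s)).card : ℕ) : ℝ) ≤
            δ * ((B : ℝ) - A) * VTz a (zTz a n₀ Q) X := by
  classical
  obtain ⟨f, hf⟩ : ∃ f : Fin k → ℤ[X], f = fun l => X + C (a l) := ⟨_, rfl⟩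
  have hfl : ∀ l, f l = X + C (a l) := fun l => by rw [hf]
  have hev : ∀ l (x : ℤ), (f l).eval x = x + a l := fun l x => by rw [hfl]; simp
  have hd : ∀ l, (f l).natDegree = 1 := fun l => by rw [hfl, Polynomial.natDegree_X_add_C]
  have h1 : ∀ l, (f l).coeff 1 = 1 := fun l => by
    rw [hfl, Polynomial.coeff_add, Polynomial.coeff_X_one, Polynomial.coeff_C, if_neg one_ne_zero, add_zero]
  have h0 : ∀ l, (f l).coeff 0 = a l := fun l => by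
    rw [hfl, Polynomial.coeff_add, Polynomial.coeff_X_zero, Polynomial.coeff_C_zero, zero_add]
  have hz : zM f n₀ Q = zTz a n₀ Q := by
    unfold zM zTz
    simp only [hev]
  have ho : ∀ p, om f p = omT a p := by
    intro p
    unfold om omT
    simp only [hev]
  have hV : ∀ z n, VZ f z n = VTz a z n := fun z n => by
    unfold VZ VTz
    exact prod_congr rfl fun p _ => by rw [ho]
  have hG : ∀ t X A B, GM f n₀ Q i j t X A B = GLi a i j n₀ Q t X A B := by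
    intro t X A B
    unfold GM GLi
    simp only [hev, hd, mul_one]
  obtain ⟨t, ht, κ, hκ, H⟩ := modelP f (fun l => (hd l).ge) i j (hd i) (hd j) (by
    rw [h1, h1, h0, h0, one_mul, one_mul]
    intro h
    exact hij (hinj h).symm) n₀ Q hQ (fun l => by rw [hev]; exact hn₀ l)
  refine ⟨t, ht, κ, hκ, fun s r θ δ hs hθ hδ => ?_⟩
  obtain ⟨c, X₀, hX⟩ := H s r θ δ hs hθ hδ
  refine ⟨c, X₀, fun X hXX => ?_⟩
  have := hX X hXX
  have hsum : ∑ l, (f l).natDegree = k := by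
    simp only [hd]
    simp
  simp only [hz, hV, hG, hsum] at this
  exact this

end Pool.Agent.X32.Uni
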