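import Pool.Agent.X32.Uni.Model5

/-!
Prescribed smooth parts: values of polynomials whose `z`-smooth parts are those at a given point, with almost prime
cofactors.
-/

set_option autoImplicit false

namespace Pool.Agent.X32.Uni

open Finset Filter
open Polynomial (C X aeval)
open scoped Polynomial

variable {m m' : ℕ}

/-- the part of `a` composed of the primes `≤ z` -/
def sm (z : ℕ) (a : ℤ) : ℕ := ∏ p ∈ (range (z + 1)).filter Nat.Prime, p ^ a.natAbs.factorization p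

theorem sm_coprime (z : ℕ) (e : ℕ → ℕ) :
    ((((range (z + 1)).filter Nat.Prime : Finset ℕ)) : Set ℕ).Pairwise (fun p q => Nat.Coprime (p ^ e p) (q ^ e q)) := by
  intro p hp q hq hpq
  rw [mem_coe, mem_filter] at hp hq
  exact Nat.Coprime.pow _ _ ((Nat.coprime_primes hp.2 hq.2).2 hpq)

theorem sm_pos (z : ℕ) (a : ℤ) : 0 < sm z a := by
  unfold sm
  apply prod_pos
  intro p hp
  exact pow_pos (mem_filter.1 hp).2.pos _

theorem prodpow_dvd {z : ℕ} {e : ℕ → ℕ} {N : ℕ} (h : ∀ p, p.Prime → p ≤ z → p ^ e p ∣ N) :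
    ∏ p ∈ (range (z + 1)).filter Nat.Prime, p ^ e p ∣ N := by
  apply Finset.prod_dvd_of_isRelPrime
  · intro p hp q hq hpq
    exact Nat.coprime_iff_isRelPrime.1 (sm_coprime z e hp hq hpq)
  · intro p hp
    rw [mem_filter, mem_range] at hp
    exact h p hp.2 (by omega)

theorem sm_dvd (z : ℕ) (a : ℤ) : (sm z a : ℤ) ∣ a := by
  rw [Int.natCast_dvd]
  exact prodpow_dvd fun p _ _ => Nat.ordProj_dvd _ _

theorem sm_not (z : ℕ) {a : ℤ} (ha : a ≠ 0) {p : ℕ} (hp : p.Prime) (hpz : p ≤ z) {b : ℤ} (hb : a = sm z a * b) :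
    ¬ (p : ℤ) ∣ b := by
  intro hd
  have h0 : ((p ^ a.natAbs.factorization p * p : ℕ) : ℤ) ∣ sm z a * b := by
    rw [Nat.cast_mul]
    apply mul_dvd_mul _ hd
    apply Int.natCast_dvd_natCast.2
    unfold sm
    exact dvd_prod_of_mem (fun p => p ^ a.natAbs.factorization p) (mem_filter.2 ⟨mem_range.2 (by omega), hp⟩)
  have h1 : ((p ^ a.natAbs.factorization p * p : ℕ) : ℤ) ∣ a := by
    rw [← hb] at h0
    exact h0
  rw [Int.natCast_dvd, ← pow_succ] at h1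
  exact Nat.pow_succ_factorization_not_dvd (Int.natAbs_ne_zero.2 ha) hp h1

theorem sm_dvd_fac {z : ℕ} {a : ℤ} (ha : a ≠ 0) {F : ℕ} (hF : a.natAbs ≤ F) : sm z a ∣ z.factorial ^ F := by
  apply prodpow_dvd
  intro p hp hpz
  have h1 : p ∣ z.factorial := hp.dvd_factorial.2 hpz
  have h2 : a.natAbs.factorization p ≤ F := (Nat.factorization_lt p (Int.natAbs_ne_zero.2 ha)).le.trans hF
  exact (pow_dvd_pow_of_dvd h1 _).trans (pow_dvd_pow _ h2)

theorem smooth_sbs (f : Fin m → ℤ[X]) (n₀ z F : ℕ) (hne : ∀ l, (f l).eval (n₀ : ℤ) ≠ 0)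
    (hF : ∀ l, ((f l).eval (n₀ : ℤ)).natAbs ≤ F) :
    ∃ h : Fin m → ℤ[X], Sbs f h (fun l => (sm z ((f l).eval (n₀ : ℤ)) : ℤ)) (z.factorial ^ (F + 1)) n₀ := by
  classical
  have hdv : ∀ l, ∃ c : ℤ, ((z.factorial : ℤ)) ^ F = sm z ((f l).eval (n₀ : ℤ)) * c := by
    intro l
    obtain ⟨c, hc⟩ := sm_dvd_fac (z := z) (hne l) (hF l)
    exact ⟨c, by exact_mod_cast hc⟩
  choose c hc using hdv
  have hr : ∀ l, ∃ r : ℤ, (f l).eval (n₀ : ℤ) = sm z ((f l).eval (n₀ : ℤ)) * r := fun l => sm_dvd z _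
  choose r hr using hr
  obtain ⟨M, hM⟩ : ∃ M : ℕ, M = z.factorial ^ (F + 1) := ⟨_, rfl⟩
  have hMz : ∀ l, (M : ℤ) = sm z ((f l).eval (n₀ : ℤ)) * (c l * z.factorial) := by
    intro l
    rw [hM]
    push_cast
    rw [pow_succ, hc l]
    ring
  rw [← hM]
  have hk : ∀ l, ∃ k : ℤ[X], (f l).comp (C (M : ℤ) * X + C (n₀ : ℤ)) - C ((f l).eval (n₀ : ℤ)) =
      (C (M : ℤ) * X) * k := by
    intro l
    have h1 := Polynomial.sub_dvd_eval_sub (C (M : ℤ) * X + C (n₀ : ℤ)) (C (n₀ : ℤ)) ((f l).map C)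
    rw [add_sub_cancel_right, Polynomial.eval_map, Polynomial.eval_map] at h1
    obtain ⟨k, hk⟩ := h1
    refine ⟨k, ?_⟩
    rw [← hk]
    have h2 : (f l).eval₂ C (C (n₀ : ℤ)) = C ((f l).eval (n₀ : ℤ)) := by
      rw [Polynomial.eval₂_at_apply]
    rw [h2]
    rfl
  choose k hk using hk
  refine ⟨fun l => C (r l) + C (c l * (z.factorial : ℤ)) * X * k l, ?_⟩
  refine
    { hM := by rw [hM]; exact Nat.one_le_pow _ _ (Nat.factorial_pos _)
      eq := fun l => ?_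
      dM := fun l p hp hd => ?_
      nz := fun p hp hpM x hd => ?_ }
  · have h1 := sub_eq_iff_eq_add.1 (hk l)
    rw [h1]
    have h2 : (C (M : ℤ) : ℤ[X]) = C (sm z ((f l).eval (n₀ : ℤ)) : ℤ) * C (c l * (z.factorial : ℤ)) := by
      rw [← C.map_mul, ← hMz]
    have h3 : (C ((f l).eval (n₀ : ℤ)) : ℤ[X]) = C (sm z ((f l).eval (n₀ : ℤ)) : ℤ) * C (r l) := by
      rw [← C.map_mul, ← hr]
    rw [h2, h3]
    ring
  · have h1 : (p : ℤ) ∣ (M : ℤ) := hd.trans (Dvd.intro _ (hMz l).symm)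
    exact Int.natCast_dvd_natCast.1 h1
  · obtain ⟨l, _, hl⟩ := (Nat.prime_iff_prime_int.1 hp).exists_mem_finset_dvd hd
    rw [hM] at hpM
    have hpz : p ∣ z.factorial := hp.dvd_of_dvd_pow hpM
    have hpz' : p ≤ z := (hp.dvd_factorial).1 hpz
    apply sm_not z (hne l) hp hpz' (hr l)
    simp only [Polynomial.eval_add, Polynomial.eval_mul, Polynomial.eval_C, Polynomial.eval_X] at hl
    have h2 : (p : ℤ) ∣ c l * (z.factorial : ℤ) * x * (k l).eval x :=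
      ((Dvd.dvd.mul_left (Int.natCast_dvd_natCast.2 hpz) _).mul_right _).mul_right _
    exact (dvd_add_left h2).1 hl

theorem VM_fac' (f : Fin m → ℤ[X]) (z e n : ℕ) (he : 1 ≤ e) : VM f (z.factorial ^ e) n = VZ f z n := by
  unfold VM VZ
  apply prod_congr _ fun _ _ => rfl
  ext p
  rw [mem_filter, mem_filter, mem_Icc, mem_Ioc]
  constructor
  · rintro ⟨⟨a, b⟩, c, d⟩
    refine ⟨⟨?_, b⟩, c⟩
    by_contra hcon
    exact d (((c.dvd_factorial).2 (not_lt.1 hcon)).trans (dvd_pow_self _ (by omega)))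
  · rintro ⟨⟨a, b⟩, c⟩
    refine ⟨⟨c.one_lt.le, b⟩, c, fun d => ?_⟩
    have := (c.dvd_factorial).1 (c.dvd_of_dvd_pow d)
    omega

end Pool.Agent.X32.Uni
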