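import Pool.Agent.X32.Uni.ModZ

/-!
Prescribed smooth parts: the main theorems.
-/

set_option autoImplicit false

namespace Pool.Agent.X32.Uni

open Finset Filter
open Polynomial (C X aeval)
open scoped Polynomial

variable {m m' : ℕ}

open Classical in
/-- the good `n` -/
noncomputable def GMZ (f : Fin m → ℤ[X]) (g : Fin m' → ℤ[X]) (n₀ z Q : ℕ) (i j : Fin m) (C t X A B : ℕ) : Finset ℕ :=
  (Ioc A B).filter (fun n : ℕ => n ≡ n₀ [MOD Q] ∧ (∃ v : Fin m → ℤ,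
    (∀ l, (f l).eval (n : ℤ) = sm z ((f l).eval (n₀ : ℤ)) * v l ∧
      Almost (t * (f l).natDegree) ((X : ℝ) ^ (1 / (t : ℝ))) (v l)) ∧
    (v i).natAbs.Prime ∧ Almost 2 ((X : ℝ) ^ (1 / 9 : ℝ)) (v j)) ∧
    ∀ l, ∃ w : ℤ, (g l).eval (n : ℤ) = sm z ((g l).eval (n₀ : ℤ)) * w ∧
      ∃ q : ℕ, q.Prime ∧ z < q ∧ q ≤ C ∧ (q : ℤ) ∣ w)

open Classical in
/-- the good `n` -/
noncomputable def GMZS (f : Fin m → ℤ[X]) (g : Fin m' → ℤ[X]) (n₀ z Q : ℕ) (C t X A B : ℕ) : Finset ℕ :=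
  (Ioc A B).filter (fun n : ℕ => n ≡ n₀ [MOD Q] ∧ (∃ v : Fin m → ℤ,
    ∀ l, (f l).eval (n : ℤ) = sm z ((f l).eval (n₀ : ℤ)) * v l ∧
      Almost (t * (f l).natDegree) ((X : ℝ) ^ (1 / (t : ℝ))) (v l)) ∧
    ∀ l, ∃ w : ℤ, (g l).eval (n : ℤ) = sm z ((g l).eval (n₀ : ℤ)) * w ∧
      ∃ q : ℕ, q.Prime ∧ z < q ∧ q ≤ C ∧ (q : ℤ) ∣ w)

theorem smooth_dvd {z Q F : ℕ} (hQ : 1 ≤ Q) (hQz : ∀ p : ℕ, p.Prime → p ∣ Q → p ≤ z) (hF : Q ≤ F) :
    Q ∣ z.factorial ^ F := by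
  have hz0 : z.factorial ≠ 0 := Nat.factorial_ne_zero z
  rw [← Nat.factorization_prime_le_iff_dvd (by omega) (pow_ne_zero _ hz0)]
  intro p hp
  rw [Nat.factorization_pow]
  by_cases hd : p ∣ Q
  · have h1 : 1 ≤ z.factorial.factorization p :=
      (hp.dvd_iff_one_le_factorization hz0).1 ((hp.dvd_factorial).2 (hQz p hp hd))
    have h2 : Q.factorization p < Q := Nat.factorization_lt p (by omega)
    have h3 : F * 1 ≤ F * z.factorial.factorization p := Nat.mul_le_mul_left _ h1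
    show Q.factorization p ≤ F * z.factorial.factorization p
    omega
  · rw [Nat.factorization_eq_zero_of_not_dvd hd]
    exact Nat.zero_le _

/-- the two systems after the substitution -/
theorem model_twoZ (f : Fin m → ℤ[X]) (g : Fin m' → ℤ[X]) (n₀ z Q : ℕ) (hQ : 1 ≤ Q)
    (hQz : ∀ p : ℕ, p.Prime → p ∣ Q → p ≤ z)
    (hf : ∀ l, (f l).eval (n₀ : ℤ) ≠ 0) (hg : ∀ l, (g l).eval (n₀ : ℤ) ≠ 0)
    (hlz : ∀ p : ℕ, p.Prime → z < p → ∃ x : ℤ, ¬ (p : ℤ) ∣ ∏ k, (f k).eval x)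
    (hG : ∀ l, g l ≠ 0 ∧ ∃ α : ℂ, aeval α (g l) = 0 ∧ ∀ l', aeval α (f l') ≠ 0) :
    ∃ (e : ℕ) (h : Fin m → ℤ[X]) (u : Fin m' → ℤ[X]), 1 ≤ e ∧ Q ∣ z.factorial ^ e ∧
      Sbs f h (fun l => (sm z ((f l).eval (n₀ : ℤ)) : ℤ)) (z.factorial ^ e) n₀ ∧
      Loc h ∧ (∀ l (x : ℤ) (p : ℕ), p.Prime → (p : ℤ) ∣ (u l).eval x → z < p) ∧
      (∀ l x, (g l).eval (((z.factorial ^ e : ℕ) : ℤ) * x + n₀) = sm z ((g l).eval (n₀ : ℤ)) * (u l).eval x) ∧
      ∀ l, u l ≠ 0 ∧ ∃ α : ℂ, aeval α (u l) = 0 ∧ ∀ l', aeval α (h l') ≠ 0 := by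
  classical
  obtain ⟨F, hF⟩ : ∃ F : Fin (m + m') → ℤ[X], F = Fin.append f g := ⟨_, rfl⟩
  have hFf : ∀ l, F (Fin.castAdd m' l) = f l := fun l => by rw [hF, Fin.append_left]
  have hFg : ∀ l, F (Fin.natAdd m l) = g l := fun l => by rw [hF, Fin.append_right]
  have hne : ∀ l, (F l).eval (n₀ : ℤ) ≠ 0 := by
    intro l
    refine Fin.addCases (fun l => ?_) (fun l => ?_) l
    · rw [hFf]
      exact hf l
    · rw [hFg]
      exact hg l
  obtain ⟨E, hE⟩ : ∃ E : ℕ, E = Q + ∑ l, ((F l).eval (n₀ : ℤ)).natAbs := ⟨_, rfl⟩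
  have hEl : ∀ l, ((F l).eval (n₀ : ℤ)).natAbs ≤ E := by
    intro l
    rw [hE]
    exact (single_le_sum (f := fun l => ((F l).eval (n₀ : ℤ)).natAbs) (fun i _ => Nat.zero_le _)
      (mem_univ l)).trans (Nat.le_add_left _ _)
  obtain ⟨k, S⟩ := smooth_sbs F n₀ z E hne hEl
  have hQd : Q ∣ z.factorial ^ (E + 1) := smooth_dvd hQ hQz (by omega)
  obtain ⟨M, hM⟩ : ∃ M : ℕ, M = z.factorial ^ (E + 1) := ⟨_, rfl⟩
  have hpM : ∀ p : ℕ, p.Prime → (p ∣ M ↔ p ≤ z) := by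
    intro p hp
    rw [hM]
    constructor
    · intro h
      exact (hp.dvd_factorial).1 (hp.dvd_of_dvd_pow h)
    · intro h
      exact ((hp.dvd_factorial).2 h).trans (dvd_pow_self _ (by omega))
  refine ⟨E + 1, fun l => k (Fin.castAdd m' l), fun l => k (Fin.natAdd m l), by omega, hQd, ?_⟩
  rw [← hM] at S ⊢
  have hM1 : 1 ≤ M := S.hM
  have hM0 : (M : ℂ) ≠ 0 := by exact_mod_cast (by omega : M ≠ 0)
  have haev : ∀ (l : Fin (m + m')) (α : ℂ), ((sm z ((F l).eval (n₀ : ℤ)) : ℕ) : ℂ) * aeval α (k l) = aeval (M * α + n₀) (F l) := by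
    intro l α
    have h1 := congrArg (fun q : ℤ[X] => aeval α q) (S.eq l)
    simp only [map_mul, Polynomial.aeval_C, Polynomial.aeval_comp, map_add, Polynomial.aeval_X] at h1
    simpa using h1
  have hprod : ∀ x : ℤ, ∏ l, (k l).eval x = (∏ l : Fin m, (k (Fin.castAdd m' l)).eval x) *
      ∏ l : Fin m', (k (Fin.natAdd m l)).eval x := fun x => by rw [Fin.prod_univ_add]
  have S' : Sbs f (fun l => k (Fin.castAdd m' l)) (fun l => (sm z ((f l).eval (n₀ : ℤ)) : ℤ)) M n₀ :=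
    { hM := hM1
      eq := fun l => by
        have := S.eq (Fin.castAdd m' l)
        simp only [hFf] at this
        exact this
      dM := fun l p hp hd => by
        apply S.dM (Fin.castAdd m' l) p hp
        simp only [hFf]
        exact hd
      nz := fun p hp hpM x hd => by
        apply S.nz p hp hpM x
        rw [hprod]
        exact hd.mul_right _ }
  refine ⟨S', ?_, ?_, ?_, ?_⟩
  · apply S'.loc
    intro p hp hpM'
    exact hlz p hp (not_le.1 fun h => hpM' ((hpM p hp).2 h))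
  · intro l x p hp hd
    by_contra hcon
    apply S.nz p hp ((hpM p hp).2 (not_lt.1 hcon)) x
    rw [hprod]
    exact Dvd.dvd.mul_left (hd.trans (dvd_prod_of_mem (fun l => (k (Fin.natAdd m l)).eval x) (mem_univ l))) _
  · intro l x
    have := S.eval (Fin.natAdd m l) x
    simp only [hFg] at this
    exact this.symm
  · intro l
    obtain ⟨hg0, α, hα, hα2⟩ := hG l
    refine ⟨?_, (α - n₀) / M, ?_, fun l' h => hα2 l' ?_⟩
    · intro h0
      apply hne (Fin.natAdd m l)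
      have h1 := S.eq (Fin.natAdd m l)
      simp only at h0
      rw [h0, mul_zero] at h1
      have h2 := congrArg (fun q : ℤ[X] => q.eval 0) h1
      simp [Polynomial.eval_comp] at h2
      exact h2.symm
    · have h1 := haev (Fin.natAdd m l) ((α - n₀) / M)
      rw [mul_div_cancel₀ _ hM0, sub_add_cancel, hFg, hα] at h1
      rcases mul_eq_zero.1 h1 with h2 | h2
      · exfalso
        have := sm_pos z ((g l).eval (n₀ : ℤ))
        have h3 : sm z ((g l).eval (n₀ : ℤ)) = 0 := by exact_mod_cast h2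
        omega
      · exact h2
    · have h1 := haev (Fin.castAdd m' l') ((α - n₀) / M)
      rw [mul_div_cancel₀ _ hM0, sub_add_cancel, hFf] at h1
      rw [← h1]
      simp only at h
      rw [h, mul_zero]

theorem modelZ (f : Fin m → ℤ[X]) (hdeg : ∀ l, 1 ≤ (f l).natDegree) (i j : Fin m)
    (hi : (f i).natDegree = 1) (hj : (f j).natDegree = 1)
    (hdet : (f i).coeff 1 * (f j).coeff 0 ≠ (f j).coeff 1 * (f i).coeff 0)
    (g : Fin m' → ℤ[X]) (n₀ z Q : ℕ) (hQ : 1 ≤ Q) (hQz : ∀ p : ℕ, p.Prime → p ∣ Q → p ≤ z)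
    (hf : ∀ l, (f l).eval (n₀ : ℤ) ≠ 0)
    (hlz : ∀ p : ℕ, p.Prime → z < p → ∃ x : ℤ, ¬ (p : ℤ) ∣ ∏ k, (f k).eval x)
    (hg : ∀ l, (g l).eval (n₀ : ℤ) ≠ 0)
    (hG : ∀ l, g l ≠ 0 ∧ ∃ α : ℂ, aeval α (g l) = 0 ∧ ∀ l', aeval α (f l') ≠ 0) :
    ∃ C t : ℕ, 1 ≤ t ∧ ∃ κ : ℝ, 0 < κ ∧ ∀ (s r : ℕ) (θ δ : ℝ), 1 ≤ s → 0 < θ → 0 < δ → ∃ c X₀ : ℕ, ∀ X : ℕ, X₀ ≤ X →
      κ / Real.log X ^ (∑ l, (f l).natDegree) ≤ VZ f z X ∧
      ∀ A B : ℕ, B ≤ X → θ * X ≤ (B : ℝ) - A →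
        κ * ((B : ℝ) - A) * VZ f z X ≤ ((GMZ f g n₀ z Q i j C t X A B).card : ℝ) ∧
        ∀ χ : ℕ → Fin r, ∃ P : Finset (ℕ × ℕ),
          (∀ τ ∈ P, 1 ≤ τ.2 ∧ (τ.2 : ℝ) ≤ Real.log X ^ c ∧
            ∀ l < s, τ.1 + l * τ.2 ∈ GMZ f g n₀ z Q i j C t X A B ∧ χ (τ.1 + l * τ.2) = χ τ.1) ∧
          (P : Set (ℕ × ℕ)).PairwiseDisjoint (apSet s) ∧
          (((GMZ f g n₀ z Q i j C t X A B \ P.biUnion (apSet s)).card : ℕ) : ℝ) ≤
            δ * ((B : ℝ) - A) * VZ f z X := by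
  classical
  obtain ⟨e, h, u, he, hQe, S, hloc, huz, hu, hGu⟩ := model_twoZ f g n₀ z Q hQ hQz hf hg hlz hG
  have hVZ : ∀ X, V h X = VZ f z X := fun X => by rw [S.V_eq, VM_fac' _ _ _ _ he]
  obtain ⟨M, hM⟩ : ∃ M : ℕ, M = z.factorial ^ e := ⟨_, rfl⟩
  rw [← hM] at S hu hQe
  have hM1 : 1 ≤ M := S.hM
  have hdegh : ∀ l, (h l).natDegree = (f l).natDegree := fun l => S.deg l
  obtain ⟨C', t, ht, κ, hκ, HK⟩ := killP h (fun l => by rw [hdegh]; exact hdeg l) hloc i j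
    (by rw [hdegh]; exact hi) (by rw [hdegh]; exact hj)
    (by
      have := S.ne hdet 1
      rwa [Polynomial.C_1, one_mul] at this)
    (by
      have := S.ne hdet (-1)
      rwa [Polynomial.C_neg, Polynomial.C_1, neg_one_mul] at this) (univ.image u) (by
      intro q hq
      obtain ⟨l, _, rfl⟩ := mem_image.1 hq
      exact hGu l)
  have hsum : ∑ l, (h l).natDegree = ∑ l, (f l).natDegree := sum_congr rfl fun l _ => hdegh l
  simp only [hsum, hVZ] at HK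
  obtain ⟨D, hD⟩ : ∃ D : ℕ, D = ∑ l, (f l).natDegree := ⟨_, rfl⟩
  rw [← hD] at HK ⊢
  have hM0 : (0 : ℝ) < M := by exact_mod_cast hM1
  refine ⟨C', t, ht, κ / (2 * M), by positivity, fun s r θ δ hs hθ hδ => ?_⟩
  obtain ⟨c₁, X₁, h1⟩ := HK s r (θ / (2 * M)) δ hs (by positivity) hδ
  obtain ⟨N₁, hN₁⟩ := exists_nat_gt ((4 * M + 2 * n₀) / θ)
  obtain ⟨c, X₂, h2⟩ := cover_z f D t z s r ht hs hD.ge hlz (1 / 2) δ (by norm_num) hδ
  obtain ⟨X₃, h3⟩ := eventually_atTop.1 (long_short θ hθ)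
  refine ⟨c, max (max X₁ (max N₁ 3)) (max X₂ X₃), fun X hX => ?_⟩
  have hX1 : X₁ ≤ X := (le_max_left _ _).trans ((le_max_left _ _).trans hX)
  have hXN : N₁ ≤ X := (le_max_left _ _).trans ((le_max_right _ _).trans ((le_max_left _ _).trans hX))
  have hX3 : 3 ≤ X := (le_max_right _ _).trans ((le_max_right _ _).trans ((le_max_left _ _).trans hX))
  have hX2 : X₂ ≤ X := (le_max_left _ _).trans ((le_max_right _ _).trans hX)
  have hX3' : X₃ ≤ X := (le_max_right _ _).trans ((le_max_right _ _).trans hX)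
  have hX0 : (0 : ℝ) < X := by exact_mod_cast (by omega : 0 < X)
  have hlog : 0 < Real.log X := Real.log_pos (by exact_mod_cast (by omega : 1 < X))
  obtain ⟨hVl, hcnt⟩ := h1 X hX1
  have hV0 : 0 < VZ f z X := lt_of_lt_of_le (by positivity) hVl
  refine ⟨le_trans ?_ hVl, fun A B hB hAB => ?_⟩
  · apply div_le_div_of_nonneg_right _ (by positivity)
    rw [div_le_iff₀ (by positivity)]
    have : (1 : ℝ) ≤ M := by exact_mod_cast hM1
    nlinarith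
  have hBA0 : 0 < (B : ℝ) - A := lt_of_lt_of_le (by positivity) hAB
  constructor
  · have hsize : 4 * (M : ℝ) + 2 * n₀ ≤ θ * X := by
      have h2 : (4 * M + 2 * n₀) / θ ≤ X := by
        have : (N₁ : ℝ) ≤ X := by exact_mod_cast hXN
        linarith
      have h3 := (div_le_iff₀ hθ).1 h2
      linarith
    obtain ⟨A', B', hB'B, hlen, hcard⟩ := transfer hM1 (fun A' B' => GK h (univ.image u) i j C' t X A' B')
      (fun A B => GMZ f g n₀ z Q i j C' t X A B) (fun A' B' => filter_subset _ _) (by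
        intro A' B' A B y hy hA hB
        unfold GK at hy
        rw [mem_filter] at hy
        obtain ⟨_, y3, y4, y5, y6⟩ := hy
        unfold GMZ
        rw [mem_filter, mem_Ioc]
        refine ⟨⟨hA, hB⟩, ?_, ⟨fun l => (h l).eval (y : ℤ), fun l => ⟨?_, ?_⟩, y3, y4⟩, fun l =>
          ⟨(u l).eval (y : ℤ), ?_, ?_⟩⟩
        · have h6 : M * y ≡ 0 [MOD Q] := (Nat.modEq_zero_iff_dvd).2 (hQe.mul_right y)
          simpa using h6.add_right n₀
        · rw [S.eval]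
          push_cast
          rfl
        · have := y5 l
          rwa [hdegh] at this
        · rw [← hu]
          push_cast
          rfl
        · obtain ⟨q, q1, q2, q3⟩ := y6 _ (mem_image_of_mem _ (mem_univ l))
          exact ⟨q, q1, huz l y q q1 q3, q2, q3⟩) A B (hsize.trans hAB)
    have hθ' : θ / (2 * M) * X ≤ (B' : ℝ) - A' := by
      refine le_trans ?_ hlen
      rw [div_mul_eq_mul_div]
      exact div_le_div_of_nonneg_right hAB (by positivity)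
    have h4 := (hcnt A' B' (hB'B.trans hB) hθ').1
    have hcard' : ((GK h (univ.image u) i j C' t X A' B').card : ℝ) ≤ (GMZ f g n₀ z Q i j C' t X A B).card := by
      exact_mod_cast hcard
    refine le_trans ?_ (h4.trans hcard')
    calc κ / (2 * M) * ((B : ℝ) - A) * VZ f z X = κ * (((B : ℝ) - A) / (2 * M)) * VZ f z X := by
          field_simp
      _ ≤ κ * ((B' : ℝ) - A') * VZ f z X := by
          apply mul_le_mul_of_nonneg_right _ hV0.le
          exact mul_le_mul_of_nonneg_left hlen hκ.le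
  · refine h2 X hX2 hV0 A B hB ((h3 X hX3').trans hAB) _ (filter_subset _ _) ?_
    intro x hx l q hq hzq hd
    unfold GMZ at hx
    rw [mem_filter] at hx
    obtain ⟨_, ⟨v, hv, _⟩, _⟩ := hx.2
    obtain ⟨hv1, hv3⟩ := hv l
    rw [hv1] at hd
    rcases (Nat.prime_iff_prime_int.1 hq).dvd_or_dvd hd with h6 | h6
    · exfalso
      have h7 := hM ▸ S.dM l q hq h6
      have := (hq.dvd_factorial).1 (hq.dvd_of_dvd_pow h7)
      omega
    · exact hv3.2.2 q hq h6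

theorem modelZS (f : Fin m → ℤ[X]) (hm : 0 < m) (hdeg : ∀ l, 1 ≤ (f l).natDegree)
    (g : Fin m' → ℤ[X]) (n₀ z Q : ℕ) (hQ : 1 ≤ Q) (hQz : ∀ p : ℕ, p.Prime → p ∣ Q → p ≤ z)
    (hf : ∀ l, (f l).eval (n₀ : ℤ) ≠ 0)
    (hlz : ∀ p : ℕ, p.Prime → z < p → ∃ x : ℤ, ¬ (p : ℤ) ∣ ∏ k, (f k).eval x)
    (hg : ∀ l, (g l).eval (n₀ : ℤ) ≠ 0)
    (hG : ∀ l, g l ≠ 0 ∧ ∃ α : ℂ, aeval α (g l) = 0 ∧ ∀ l', aeval α (f l') ≠ 0) (ε : ℝ) (hε : 0 < ε) :
    ∃ C t : ℕ, 1 ≤ t ∧ ∃ κ : ℝ, 0 < κ ∧ ∀ (s r : ℕ) (δ : ℝ), 1 ≤ s → 0 < δ → ∃ c X₀ : ℕ, ∀ X : ℕ, X₀ ≤ X →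
      κ / Real.log X ^ (∑ l, (f l).natDegree) ≤ VZ f z X ∧
      ∀ A B : ℕ, B ≤ X → (X : ℝ) ^ ε ≤ (B : ℝ) - A →
        κ * ((B : ℝ) - A) * VZ f z X ≤ ((GMZS f g n₀ z Q C t X A B).card : ℝ) ∧
        ∀ χ : ℕ → Fin r, ∃ P : Finset (ℕ × ℕ),
          (∀ τ ∈ P, 1 ≤ τ.2 ∧ (τ.2 : ℝ) ≤ Real.log X ^ c ∧
            ∀ l < s, τ.1 + l * τ.2 ∈ GMZS f g n₀ z Q C t X A B ∧ χ (τ.1 + l * τ.2) = χ τ.1) ∧
          (P : Set (ℕ × ℕ)).PairwiseDisjoint (apSet s) ∧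
          (((GMZS f g n₀ z Q C t X A B \ P.biUnion (apSet s)).card : ℕ) : ℝ) ≤
            δ * ((B : ℝ) - A) * VZ f z X := by
  classical
  obtain ⟨e, h, u, he, hQe, S, hloc, huz, hu, hGu⟩ := model_twoZ f g n₀ z Q hQ hQz hf hg hlz hG
  have hVZ : ∀ X, V h X = VZ f z X := fun X => by rw [S.V_eq, VM_fac' _ _ _ _ he]
  obtain ⟨M, hM⟩ : ∃ M : ℕ, M = z.factorial ^ e := ⟨_, rfl⟩
  rw [← hM] at S hu hQe
  have hM1 : 1 ≤ M := S.hM
  have hdegh : ∀ l, (h l).natDegree = (f l).natDegree := fun l => S.deg l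
  obtain ⟨C', t, ht, κ, KU, hκ, hKU, HK⟩ := killS h hm (fun l => by rw [hdegh]; exact hdeg l) hloc
    (univ.image u) (by
      intro q hq
      obtain ⟨l, _, rfl⟩ := mem_image.1 hq
      exact hGu l) (ε / 2) (by positivity)
  have hsum : ∑ l, (h l).natDegree = ∑ l, (f l).natDegree := sum_congr rfl fun l _ => hdegh l
  simp only [hsum, hVZ] at HK
  obtain ⟨D, hD⟩ : ∃ D : ℕ, D = ∑ l, (f l).natDegree := ⟨_, rfl⟩
  rw [← hD] at HK ⊢
  have hM0 : (0 : ℝ) < M := by exact_mod_cast hM1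
  refine ⟨C', t, ht, κ / (2 * M), by positivity, fun s r δ hs hδ => ?_⟩
  obtain ⟨c₁, X₁, h1⟩ := HK s r δ hs hδ
  have hpow : ∀ M : ℝ, ∀ a : ℝ, 0 < a → ∀ᶠ n : ℕ in atTop, M < (n : ℝ) ^ a := fun M a ha =>
    ((tendsto_rpow_atTop ha).comp tendsto_natCast_atTop_atTop).eventually (eventually_gt_atTop M)
  obtain ⟨N₁, hN₁⟩ := eventually_atTop.1 (hpow (4 * M + 2 * n₀) (ε / 2) (by positivity))
  obtain ⟨c, X₂, h2⟩ := cover_z f D t z s r ht hs hD.ge hlz ε δ hε hδ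
  refine ⟨c, max (max X₁ (max N₁ 3)) X₂, fun X hX => ?_⟩
  have hX1 : X₁ ≤ X := (le_max_left _ _).trans ((le_max_left _ _).trans hX)
  have hXN : N₁ ≤ X := (le_max_left _ _).trans ((le_max_right _ _).trans ((le_max_left _ _).trans hX))
  have hX3 : 3 ≤ X := (le_max_right _ _).trans ((le_max_right _ _).trans ((le_max_left _ _).trans hX))
  have hX2 : X₂ ≤ X := (le_max_right _ _).trans hX
  have hX0 : (0 : ℝ) < X := by exact_mod_cast (by omega : 0 < X)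
  have hXr : (1 : ℝ) ≤ X := by exact_mod_cast (by omega : 1 ≤ X)
  have hlog : 0 < Real.log X := Real.log_pos (by exact_mod_cast (by omega : 1 < X))
  obtain ⟨hVl, hcnt⟩ := h1 X hX1
  have hV0 : 0 < VZ f z X := lt_of_lt_of_le (by positivity) hVl
  refine ⟨le_trans ?_ hVl, fun A B hB hAB => ?_⟩
  · apply div_le_div_of_nonneg_right _ (by positivity)
    rw [div_le_iff₀ (by positivity)]
    have : (1 : ℝ) ≤ M := by exact_mod_cast hM1
    nlinarith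
  have hε2 : (X : ℝ) ^ (ε / 2) * (X : ℝ) ^ (ε / 2) = (X : ℝ) ^ ε := by
    rw [← Real.rpow_add hX0]
    congr 1
    ring
  have hsize : 4 * (M : ℝ) + 2 * n₀ ≤ (X : ℝ) ^ (ε / 2) := (hN₁ X hXN).le
  have hBA0 : 0 < (B : ℝ) - A := lt_of_lt_of_le (by positivity) hAB
  have hrr : (0 : ℝ) ≤ n₀ := Nat.cast_nonneg _
  have hpos : (1 : ℝ) ≤ (X : ℝ) ^ (ε / 2) := Real.one_le_rpow hXr (by positivity)
  have hAB2 : (X : ℝ) ^ (ε / 2) ≤ (B : ℝ) - A := by
    refine le_trans ?_ hAB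
    rw [← hε2]
    nlinarith
  constructor
  · obtain ⟨A', B', hB'B, hlen, hcard⟩ := transfer hM1 (fun A' B' => GS h (univ.image u) C' t X A' B')
      (fun A B => GMZS f g n₀ z Q C' t X A B) (fun A' B' => filter_subset _ _) (by
        intro A' B' A B y hy hA hB
        unfold GS at hy
        rw [mem_filter] at hy
        obtain ⟨_, y5, y6⟩ := hy
        unfold GMZS
        rw [mem_filter, mem_Ioc]
        refine ⟨⟨hA, hB⟩, ?_, ⟨fun l => (h l).eval (y : ℤ), fun l => ⟨?_, ?_⟩⟩, fun l =>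
          ⟨(u l).eval (y : ℤ), ?_, ?_⟩⟩
        · have h6 : M * y ≡ 0 [MOD Q] := (Nat.modEq_zero_iff_dvd).2 (hQe.mul_right y)
          simpa using h6.add_right n₀
        · rw [S.eval]
          push_cast
          rfl
        · have := y5 l
          rwa [hdegh] at this
        · rw [← hu]
          push_cast
          rfl
        · obtain ⟨q, q1, q2, q3⟩ := y6 _ (mem_image_of_mem _ (mem_univ l))
          exact ⟨q, q1, huz l y q q1 q3, q2, q3⟩) A B (hsize.trans hAB2)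
    have hθ' : (X : ℝ) ^ (ε / 2) ≤ (B' : ℝ) - A' := by
      refine le_trans ?_ hlen
      rw [le_div_iff₀ (by positivity)]
      calc (X : ℝ) ^ (ε / 2) * (2 * M) ≤ (X : ℝ) ^ (ε / 2) * (X : ℝ) ^ (ε / 2) := by
            apply mul_le_mul_of_nonneg_left _ (by positivity)
            linarith
        _ ≤ (B : ℝ) - A := by rw [hε2]; exact hAB
    have h4 := (hcnt A' B' (hB'B.trans hB) hθ').1
    have hcard' : ((GS h (univ.image u) C' t X A' B').card : ℝ) ≤ (GMZS f g n₀ z Q C' t X A B).card := by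
      exact_mod_cast hcard
    refine le_trans ?_ (h4.trans hcard')
    calc κ / (2 * M) * ((B : ℝ) - A) * VZ f z X = κ * (((B : ℝ) - A) / (2 * M)) * VZ f z X := by
          field_simp
      _ ≤ κ * ((B' : ℝ) - A') * VZ f z X := by
          apply mul_le_mul_of_nonneg_right _ hV0.le
          exact mul_le_mul_of_nonneg_left hlen hκ.le
  · refine h2 X hX2 hV0 A B hB hAB _ (filter_subset _ _) ?_
    intro x hx l q hq hzq hd
    unfold GMZS at hx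
    rw [mem_filter] at hx
    obtain ⟨_, ⟨v, hv⟩, _⟩ := hx.2
    obtain ⟨hv1, hv3⟩ := hv l
    rw [hv1] at hd
    rcases (Nat.prime_iff_prime_int.1 hq).dvd_or_dvd hd with h6 | h6
    · exfalso
      have h7 := hM ▸ S.dM l q hq h6
      have := (hq.dvd_factorial).1 (hq.dvd_of_dvd_pow h7)
      omega
    · exact hv3.2.2 q hq h6

end Pool.Agent.X32.Uni
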