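import Pool.Agent.X32.Uni.Short3

/-!
Values of polynomials which are those at a given point times almost primes.
-/

set_option autoImplicit false

namespace Pool.Agent.X32.Uni

open Finset Filter
open Polynomial (C X aeval)
open scoped Polynomial

variable {m : ℕ} {f h : Fin m → ℤ[X]} {d : Fin m → ℤ} {M r : ℕ}

theorem Sbs.om_ge (S : Sbs f h d M r) {p : ℕ} (hp : p.Prime) (hpM : ¬ p ∣ M) : om f p ≤ om h p := by
  classical
  have hpi := Nat.prime_iff_prime_int.1 hp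
  have hpz : (0 : ℤ) < p := by exact_mod_cast hp.pos
  obtain ⟨u, v, huv⟩ : IsCoprime (M : ℤ) p := (hpi.coprime_iff_not_dvd.2 (by exact_mod_cast hpM)).symm
  obtain ⟨φ, hφ⟩ : ∃ φ : ℕ → ℕ, φ = fun y : ℕ => ((u * ((y : ℤ) - r)) % p).toNat := ⟨_, rfl⟩
  have hφz : ∀ y, ((φ y : ℕ) : ℤ) = (u * ((y : ℤ) - r)) % p := by
    intro y
    rw [hφ]
    exact Int.toNat_of_nonneg (Int.emod_nonneg _ hpz.ne')
  have hφm : ∀ y : ℕ, (M : ℤ) * φ y + r ≡ y [ZMOD p] := by
    intro y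
    rw [hφz]
    have h1 : (u * ((y : ℤ) - r)) % p ≡ u * ((y : ℤ) - r) [ZMOD p] := Int.mod_modEq _ _
    have h2 : (M : ℤ) * ((u * ((y : ℤ) - r)) % p) + r ≡ M * (u * ((y : ℤ) - r)) + r [ZMOD p] :=
      (h1.mul_left _).add_right _
    refine h2.trans ?_
    rw [Int.modEq_iff_dvd]
    refine ⟨v * (y - r), ?_⟩
    linear_combination ((y : ℤ) - r) * (-huv)
  unfold om
  apply card_le_card_of_injOn φ
  · intro y hy
    rw [mem_coe, mem_filter] at hy
    rw [mem_coe, mem_filter, mem_range]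
    refine ⟨?_, ?_⟩
    · have h1 := hφz y
      have h2 := Int.emod_lt_of_pos (u * ((y : ℤ) - r)) hpz
      omega
    · apply S.dvd_h hp hpM
      exact (dvd_iff (hφm y)).2 hy.2
  · intro y hy y' hy' he
    rw [mem_coe, mem_filter, mem_range] at hy hy'
    have h1 : (y : ℤ) ≡ y' [ZMOD p] := (hφm y).symm.trans (by rw [he]; exact hφm y')
    exact Nat.ModEq.eq_of_lt_of_lt (Int.natCast_modEq_iff.1 h1) hy.1 hy'.1

theorem Sbs.V_eq (S : Sbs f h d M r) (n : ℕ) : V h n = VM f M n := by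
  classical
  have h1 : V h n = (∏ p ∈ (Icc 1 n).filter (fun p => p.Prime ∧ ¬ p ∣ M), (1 - (om h p : ℝ) / p)) *
      ∏ p ∈ (Icc 1 n).filter (fun p => p.Prime ∧ p ∣ M), (1 - (om h p : ℝ) / p) := by
    unfold V
    rw [← prod_filter_mul_prod_filter_not ((Icc 1 n).filter Nat.Prime) (fun p => ¬ p ∣ M), filter_filter,
      filter_filter]
    simp only [not_not]
  have h2 : ∏ p ∈ (Icc 1 n).filter (fun p => p.Prime ∧ p ∣ M), (1 - (om h p : ℝ) / p) = 1 := by
    apply prod_eq_one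
    intro p hp
    rw [mem_filter] at hp
    rw [S.om_zero hp.2.1 hp.2.2]
    simp
  rw [h1, h2, mul_one]
  unfold VM
  apply prod_congr rfl
  intro p hp
  rw [mem_filter] at hp
  rw [le_antisymm (S.om_le hp.2.1 hp.2.2) (S.om_ge hp.2.1 hp.2.2)]

theorem Sbs.deg (S : Sbs f h d M r) (l : Fin m) : (h l).natDegree = (f l).natDegree := by
  have hM0 : (M : ℤ) ≠ 0 := by
    have := S.hM
    exact_mod_cast (by omega : M ≠ 0)
  have h1 := congrArg Polynomial.natDegree (S.eq l)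
  rwa [Polynomial.natDegree_C_mul (S.d0 l), Polynomial.natDegree_comp, Polynomial.natDegree_linear hM0,
    mul_one] at h1

theorem Sbs.ne (S : Sbs f h d M r) {i j : Fin m}
    (hdet : (f i).coeff 1 * (f j).coeff 0 ≠ (f j).coeff 1 * (f i).coeff 0) (e : ℤ) :
    h j ≠ C e * h i := by
  intro h1
  have hM0 : (M : ℤ) ≠ 0 := by
    have := S.hM
    exact_mod_cast (by omega : M ≠ 0)
  have h2 : (C (d i) * f j).comp (C (M : ℤ) * X + C (r : ℤ)) = (C (e * d j) * f i).comp (C (M : ℤ) * X + C (r : ℤ)) := by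
    rw [Polynomial.mul_comp, Polynomial.mul_comp, Polynomial.C_comp, Polynomial.C_comp, ← S.eq, ← S.eq, h1, C.map_mul]
    ring
  have h3 : C (d i) * f j = C (e * d j) * f i := by
    have h4 : (C (d i) * f j - C (e * d j) * f i).comp (C (M : ℤ) * X + C (r : ℤ)) = 0 := by
      rw [Polynomial.sub_comp]
      exact sub_eq_zero.2 h2
    rcases Polynomial.comp_eq_zero_iff.1 h4 with h5 | h5
    · exact sub_eq_zero.1 h5
    · exfalso
      have h6 := congrArg Polynomial.natDegree h5.2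
      rw [Polynomial.natDegree_linear hM0, Polynomial.natDegree_C] at h6
      omega
  have h4 := congrArg (fun q : ℤ[X] => q.coeff 1) h3
  have h5 := congrArg (fun q : ℤ[X] => q.coeff 0) h3
  simp only [Polynomial.coeff_C_mul] at h4 h5
  apply hdet
  apply mul_left_cancel₀ (S.d0 i)
  linear_combination ((f i).coeff 1) * h5 - ((f i).coeff 0) * h4

/-- the modulus -/
def zM (f : Fin m → ℤ[X]) (n₀ Q : ℕ) : ℕ := Q * ∏ l, ((f l).eval (n₀ : ℤ)).natAbs

theorem model_sbs (f : Fin m → ℤ[X]) (n₀ Q : ℕ) (hQ : 1 ≤ Q) (hne : ∀ l, (f l).eval (n₀ : ℤ) ≠ 0) :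
    ∃ h : Fin m → ℤ[X], Sbs f h (fun l => (f l).eval (n₀ : ℤ)) ((zM f n₀ Q).factorial ^ 2) n₀ ∧ Loc h ∧
      ∀ l x, (h l).eval x ≡ 1 [ZMOD ((zM f n₀ Q).factorial : ℤ)] := by
  classical
  obtain ⟨z, hz⟩ : ∃ z : ℕ, z = zM f n₀ Q := ⟨_, rfl⟩
  rw [← hz]
  have hpos : ∀ l, 0 < ((f l).eval (n₀ : ℤ)).natAbs := fun l => Int.natAbs_pos.2 (hne l)
  have hprod : 0 < ∏ l, ((f l).eval (n₀ : ℤ)).natAbs := prod_pos fun l _ => hpos l
  have hle : ∀ l, ((f l).eval (n₀ : ℤ)).natAbs ≤ z := by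
    intro l
    rw [hz]
    unfold zM
    have h1 : ((f l).eval (n₀ : ℤ)).natAbs ∣ ∏ l, ((f l).eval (n₀ : ℤ)).natAbs := dvd_prod_of_mem _ (mem_univ l)
    exact (Nat.le_of_dvd hprod h1).trans (Nat.le_mul_of_pos_left _ hQ)
  have hdv : ∀ l, (f l).eval (n₀ : ℤ) ∣ (z.factorial : ℤ) := by
    intro l
    exact Int.dvd_natCast.2 (Nat.dvd_factorial (hpos l) (hle l))
  choose c hc using hdv
  have hk : ∀ l, ∃ k : ℤ[X], (f l).comp (C (((z.factorial ^ 2 : ℕ)) : ℤ) * X + C (n₀ : ℤ)) - C ((f l).eval (n₀ : ℤ)) =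
      (C (((z.factorial ^ 2 : ℕ)) : ℤ) * X) * k := by
    intro l
    have h1 := Polynomial.sub_dvd_eval_sub (C (((z.factorial ^ 2 : ℕ)) : ℤ) * X + C (n₀ : ℤ)) (C (n₀ : ℤ))
      ((f l).map C)
    rw [add_sub_cancel_right, Polynomial.eval_map, Polynomial.eval_map] at h1
    obtain ⟨k, hk⟩ := h1
    refine ⟨k, ?_⟩
    rw [← hk]
    have h2 : (f l).eval₂ C (C (n₀ : ℤ)) = C ((f l).eval (n₀ : ℤ)) := by
      rw [Polynomial.eval₂_at_apply]
    rw [h2]
    rfl
  choose k hk using hk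
  have hev : ∀ l x, (1 + C (c l * (z.factorial : ℤ)) * X * k l : ℤ[X]).eval x ≡ 1 [ZMOD (z.factorial : ℤ)] := by
    intro l x
    rw [Int.modEq_iff_dvd]
    refine ⟨-(c l * x * (k l).eval x), ?_⟩
    simp only [Polynomial.eval_add, Polynomial.eval_one, Polynomial.eval_mul, Polynomial.eval_C, Polynomial.eval_X]
    ring
  refine ⟨fun l => 1 + C (c l * (z.factorial : ℤ)) * X * k l, ?_, ?_, hev⟩
  · refine
      { hM := Nat.one_le_pow _ _ (Nat.factorial_pos _)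
        eq := fun l => ?_
        dM := fun l p hp hd => ?_
        nz := fun p hp hpM x hd => ?_ }
    · have h1 := sub_eq_iff_eq_add.1 (hk l)
      rw [h1]
      have h2 : (C (((z.factorial ^ 2 : ℕ)) : ℤ) : ℤ[X]) = C ((f l).eval (n₀ : ℤ)) * C (c l * (z.factorial : ℤ)) := by
        rw [← C.map_mul]
        congr 1
        push_cast
        rw [pow_two]
        nth_rewrite 1 [hc l]
        ring
      rw [h2]
      ring
    · have h1 : (p : ℤ) ∣ (z.factorial : ℤ) := hd.trans (Dvd.intro _ (hc l).symm)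
      exact (Int.natCast_dvd_natCast.1 h1).trans (dvd_pow_self _ (by norm_num))
    · obtain ⟨l, _, hl⟩ := (Nat.prime_iff_prime_int.1 hp).exists_mem_finset_dvd hd
      have h1 : (p : ℤ) ∣ (z.factorial : ℤ) := Int.natCast_dvd_natCast.2 (hp.dvd_of_dvd_pow hpM)
      have h2 := (Int.ModEq.of_dvd h1 (hev l x))
      have h3 := (h2.dvd_iff).1 hl
      exact (Nat.prime_iff_prime_int.1 hp).not_isUnit (isUnit_of_dvd_one h3)
  · intro p hp
    refine ⟨0, fun hd => ?_⟩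
    have h1 : ∏ l, (1 + C (c l * (z.factorial : ℤ)) * X * k l : ℤ[X]).eval 0 = 1 := by
      apply prod_eq_one
      intro l _
      simp
    rw [h1] at hd
    exact (Nat.prime_iff_prime_int.1 hp).not_isUnit (isUnit_of_dvd_one hd)

/-- the sieve product over the primes of `(z, n]` -/
noncomputable def VZ (f : Fin m → ℤ[X]) (z n : ℕ) : ℝ :=
  ∏ p ∈ (Ioc z n).filter Nat.Prime, (1 - (om f p : ℝ) / p)

theorem VM_fac (f : Fin m → ℤ[X]) (z n : ℕ) : VM f (z.factorial ^ 2) n = VZ f z n := by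
  unfold VM VZ
  apply prod_congr _ fun _ _ => rfl
  ext p
  rw [mem_filter, mem_filter, mem_Icc, mem_Ioc]
  constructor
  · rintro ⟨⟨a, b⟩, c, d⟩
    refine ⟨⟨?_, b⟩, c⟩
    by_contra hcon
    exact d (((c.dvd_factorial).2 (not_lt.1 hcon)).trans (dvd_pow_self _ (by norm_num)))
  · rintro ⟨⟨a, b⟩, c⟩
    refine ⟨⟨c.one_lt.le, b⟩, c, fun d => ?_⟩
    have := (c.dvd_factorial).1 (c.dvd_of_dvd_pow d)
    omega

end Pool.Agent.X32.Uni
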