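import Pool.Agent.X32.Uni.Model

/-!
Values of polynomials which are those at a given point times almost primes: the counts and the coverings.
-/

set_option autoImplicit false

namespace Pool.Agent.X32.Uni

open Finset Filter
open Polynomial (C X aeval)
open scoped Polynomial
open Pool.Agent.Y843.HS (Pr VV Pr_mem Pr_prime VV_split Sv)

variable {m : ℕ}

/-- the zeros modulo `p`, for `p > z` -/
noncomputable def Zz (f : Fin m → ℤ[X]) (z p : ℕ) : Finset ℕ := if p ≤ z then ∅ else Zf f p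

theorem om_lt' {f : Fin m → ℤ[X]} {p : ℕ} (hp : p.Prime) (hloc : ∃ x : ℤ, ¬ (p : ℤ) ∣ ∏ k, (f k).eval x) :
    om f p < p := by
  obtain ⟨x, hx⟩ := hloc
  have hp0 : (0 : ℤ) < p := by exact_mod_cast hp.pos
  have h3 := Int.emod_nonneg x hp0.ne'
  have h4 := Int.emod_lt_of_pos x hp0
  unfold om
  have h1 : (range p).filter (fun x : ℕ => (p : ℤ) ∣ ∏ k, (f k).eval (x : ℤ)) ⊂ range p := by
    refine filter_ssubset.2 ⟨(x % p).toNat, mem_range.2 (by omega), ?_⟩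
    rw [Int.toNat_of_nonneg h3, dvd_iff (Int.mod_modEq x p)]
    exact hx
  have h2 := card_lt_card h1
  rwa [card_range] at h2

theorem om_le' {f : Fin m → ℤ[X]} {p : ℕ} (hp : p.Prime) (hloc : ∃ x : ℤ, ¬ (p : ℤ) ∣ ∏ k, (f k).eval x) :
    om f p ≤ ∑ k, (f k).natDegree := by
  have h1 : om f p = ((range p).filter (fun x : ℕ => (p : ℤ) ∣ (∏ k, f k).eval (x : ℤ))).card := by
    unfold om
    congr 1
    apply filter_congr
    intro x _
    rw [Polynomial.eval_prod]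
  rw [h1]
  refine (card_roots_le _ hp ?_).trans (Polynomial.natDegree_prod_le _ _)
  obtain ⟨x, hx⟩ := hloc
  exact ⟨x, by rwa [Polynomial.eval_prod]⟩

/-- narrow progressions in dense sets of arguments in short intervals for which all the values are rough, up to the
primes `≤ z` -/
theorem prog_z (D t z : ℕ) (ht : 1 ≤ t) (k : ℕ) (ε δ : ℝ) (hε : 0 < ε) (hδ : 0 < δ) :
    ∃ C n₀ : ℕ, ∀ n : ℕ, n₀ ≤ n → ∀ (m : ℕ) (f : Fin m → ℤ[X]), (∑ k, (f k).natDegree) ≤ D →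
      (∀ p : ℕ, p.Prime → z < p → ∃ x : ℤ, ¬ (p : ℤ) ∣ ∏ k, (f k).eval x) →
      ∀ A B : ℕ, B ≤ n → (n : ℝ) ^ ε ≤ (B : ℝ) - A → ∀ S : Finset ℕ, S ⊆ Ioc A B →
      (∀ x ∈ S, ∀ k, ∀ q : ℕ, q.Prime → z < q → (q : ℤ) ∣ (f k).eval (x : ℤ) → (n : ℝ) ^ (1 / (t : ℝ)) < q) →
      δ * ((B : ℝ) - A) * VZ f z n ≤ (S.card : ℝ) →
        ∃ a h : ℕ, 1 ≤ h ∧ (h : ℝ) ≤ Real.log n ^ C ∧ ∀ j < k, a + j * h ∈ S := by
  classical
  have ht0 : (0 : ℝ) < t := by exact_mod_cast ht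
  obtain ⟨L, hL⟩ : ∃ L : ℕ, L = ⌈(t : ℝ) / ε⌉₊ * 2 + 1 := ⟨_, rfl⟩
  obtain ⟨c, hc, Y₀, hR⟩ := Pool.Agent.Y79.HS.den D L
  obtain ⟨C, X₀, hfin⟩ := Pool.Agent.Y843.HS.fin k D (1 / (t : ℝ)) (δ * c) (by positivity) (by positivity)
  have hεt : 0 < ε / t := by positivity
  have hpow : ∀ M : ℝ, ∀ a : ℝ, 0 < a → ∀ᶠ n : ℕ in atTop, M < (n : ℝ) ^ a := fun M a ha =>
    ((tendsto_rpow_atTop ha).comp tendsto_natCast_atTop_atTop).eventually (eventually_gt_atTop M)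
  obtain ⟨n₁, h1⟩ := eventually_atTop.1 (hpow (max (Y₀ + 2) 4) (ε / t) hεt)
  obtain ⟨n₂, h2⟩ := eventually_atTop.1 (hpow X₀ ε hε)
  refine ⟨C, max (max n₁ n₂) 3, ?_⟩
  intro n hn m f hfD hloc A B hBn hAB S hS hSq hSc
  have hn1 : n₁ ≤ n := (le_max_left _ _).trans ((le_max_left _ _).trans hn)
  have hn2 : n₂ ≤ n := (le_max_right _ _).trans ((le_max_left _ _).trans hn)
  have hn3 : 3 ≤ n := (le_max_right _ _).trans hn
  have hn0 : (0 : ℝ) < n := by exact_mod_cast (by omega : 0 < n)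
  have hnr : (1 : ℝ) ≤ n := by exact_mod_cast (by omega : 1 ≤ n)
  have h1' := h1 n hn1
  have h2' := h2 n hn2
  have hBA0 : 0 < (B : ℝ) - A := lt_of_lt_of_le (by positivity) hAB
  obtain ⟨N, hN⟩ : ∃ N : ℕ, B = A + N := by
    have : A ≤ B := by
      have : (A : ℝ) ≤ B := by linarith
      exact_mod_cast this
    exact ⟨B - A, by omega⟩
  have hNr : (N : ℝ) = (B : ℝ) - A := by rw [hN]; push_cast; ring
  rw [← hNr] at hAB hSc hBA0
  have hNn : (N : ℝ) ≤ n := by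
    have : N ≤ n := by omega
    exact_mod_cast this
  obtain ⟨Y, hY⟩ : ∃ Y : ℕ, Y = ⌊(N : ℝ) ^ (1 / (t : ℝ))⌋₊ := ⟨_, rfl⟩
  have hw : (n : ℝ) ^ (ε / t) ≤ (N : ℝ) ^ (1 / (t : ℝ)) := by
    calc (n : ℝ) ^ (ε / t) = ((n : ℝ) ^ ε) ^ (1 / (t : ℝ)) := by
          rw [← Real.rpow_mul hn0.le]
          congr 1
          ring
      _ ≤ (N : ℝ) ^ (1 / (t : ℝ)) := by
          apply Real.rpow_le_rpow (by positivity) hAB (by positivity)
  have hYw : (Y : ℝ) ≤ (N : ℝ) ^ (1 / (t : ℝ)) := by rw [hY]; exact Nat.floor_le (by positivity)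
  have hwY : (N : ℝ) ^ (1 / (t : ℝ)) < Y + 1 := by rw [hY]; exact Nat.lt_floor_add_one _
  have hNt : (N : ℝ) ^ (1 / (t : ℝ)) ≤ (n : ℝ) ^ (1 / (t : ℝ)) :=
    Real.rpow_le_rpow hBA0.le hNn (by positivity)
  have hY0 : Y₀ ≤ Y := by
    have h3 : ((Y₀ : ℝ) + 2) < Y + 1 := lt_of_le_of_lt (le_max_left _ _) (h1'.trans_le (hw.trans hwY.le))
    have : (Y₀ : ℝ) ≤ Y := by linarith
    exact_mod_cast this
  have hYn : Y ≤ n := by
    have h3 : (n : ℝ) ^ (1 / (t : ℝ)) ≤ n := by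
      calc (n : ℝ) ^ (1 / (t : ℝ)) ≤ (n : ℝ) ^ (1 : ℝ) := by
            apply Real.rpow_le_rpow_of_exponent_le hnr
            rw [div_le_one ht0]
            exact_mod_cast ht
        _ = n := Real.rpow_one _
    have : (Y : ℝ) ≤ n := by linarith
    exact_mod_cast this
  have hnY : n ≤ Y ^ L := by
    obtain ⟨w, hwd⟩ : ∃ w : ℝ, w = (n : ℝ) ^ (ε / t) := ⟨_, rfl⟩
    rw [← hwd] at hw h1'
    have hw4 : 4 < w := lt_of_le_of_lt (le_max_right _ _) h1'
    have h3 : w ≤ Y + 1 := hw.trans hwY.le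
    have h4 : w ^ (1 / 2 : ℝ) ≤ Y := by
      have h5 : (w ^ (1 / 2 : ℝ)) ^ 2 = w := by
        rw [← Real.rpow_natCast, ← Real.rpow_mul (by linarith)]
        norm_num
      have h6 : 0 ≤ w ^ (1 / 2 : ℝ) := by positivity
      have h7 : 2 < w ^ (1 / 2 : ℝ) := by
        by_contra hcon
        have : (w ^ (1 / 2 : ℝ)) ^ 2 ≤ 2 ^ 2 := pow_le_pow_left₀ h6 (not_lt.1 hcon) 2
        linarith
      nlinarith
    have h5 : (n : ℝ) ≤ (w ^ (1 / 2 : ℝ)) ^ L := by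
      rw [← Real.rpow_natCast, ← Real.rpow_mul (by linarith), hwd, ← Real.rpow_mul hn0.le]
      calc (n : ℝ) = (n : ℝ) ^ (1 : ℝ) := (Real.rpow_one _).symm
        _ ≤ (n : ℝ) ^ (ε / t * (1 / 2 * L)) := by
            apply Real.rpow_le_rpow_of_exponent_le hnr
            have h6 : (t : ℝ) / ε ≤ ⌈(t : ℝ) / ε⌉₊ := Nat.le_ceil _
            have h7 : 2 * ((t : ℝ) / ε) ≤ L := by
              rw [hL]
              push_cast
              linarith
            have h8 : ε / t * (t / ε) = 1 := by field_simp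
            calc (1 : ℝ) = ε / t * (1 / 2 * (2 * (t / ε))) := by linear_combination -h8
              _ ≤ ε / t * (1 / 2 * L) := by gcongr
    have h6 : (n : ℝ) ≤ (Y : ℝ) ^ L := h5.trans (pow_le_pow_left₀ (by positivity) h4 _)
    exact_mod_cast h6
  have hcard : ∀ p, p.Prime → z < p → (Zz f z p).card = om f p := by
    intro p _ hzp
    unfold Zz
    rw [if_neg (not_le.2 hzp)]
    rfl
  have hcard0 : ∀ p, p ≤ z → (Zz f z p).card = 0 := by
    intro p hzp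
    unfold Zz
    rw [if_pos hzp]
    rfl
  have hZlt : ∀ p, p.Prime → (Zz f z p).card < p := by
    intro p hp
    rcases le_or_gt p z with h | h
    · rw [hcard0 p h]
      exact hp.pos
    · rw [hcard p hp h]
      exact om_lt' hp (hloc p hp h)
  have hZle : ∀ p, p.Prime → (Zz f z p).card ≤ D := by
    intro p hp
    rcases le_or_gt p z with h | h
    · rw [hcard0 p h]
      exact Nat.zero_le _
    · rw [hcard p hp h]
      exact (om_le' hp (hloc p hp h)).trans hfD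
  have hZmem : ∀ p c, c ∈ Zz f z p → c < p := by
    intro p c hc
    unfold Zz at hc
    split_ifs at hc with h
    · exact absurd hc (notMem_empty c)
    · exact mem_range.1 (mem_filter.1 hc).1
  have hVZ : VZ f z n = VV (Zz f z) 0 n := by
    unfold VZ VV
    have h3 : ∏ p ∈ Pr 0 n, (1 - ((Zz f z p).card : ℝ) / p) =
        (∏ p ∈ (Pr 0 n).filter (fun p => z < p), (1 - ((Zz f z p).card : ℝ) / p)) *
        ∏ p ∈ (Pr 0 n).filter (fun p => ¬ z < p), (1 - ((Zz f z p).card : ℝ) / p) :=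
      (prod_filter_mul_prod_filter_not _ _ _).symm
    have h4 : ∏ p ∈ (Pr 0 n).filter (fun p => ¬ z < p), (1 - ((Zz f z p).card : ℝ) / p) = 1 := by
      apply prod_eq_one
      intro p hp
      rw [mem_filter] at hp
      rw [hcard0 p (not_lt.1 hp.2)]
      simp
    rw [h3, h4, mul_one]
    have h5 : (Ioc z n).filter Nat.Prime = (Pr 0 n).filter (fun p => z < p) := by
      ext p
      rw [mem_filter, mem_filter, Pr_mem, mem_Ioc]
      constructor
      · rintro ⟨⟨a, b⟩, c⟩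
        exact ⟨⟨⟨c.pos, b⟩, c⟩, a⟩
      · rintro ⟨⟨⟨a, b⟩, c⟩, e⟩
        exact ⟨⟨e, b⟩, c⟩
    rw [h5]
    apply prod_congr rfl
    intro p hp
    rw [mem_filter] at hp
    rw [hcard p (Pr_prime hp.1) hp.2]
  have hVn : c * VV (Zz f z) 0 Y ≤ VZ f z n := by
    rw [hVZ, ← VV_split (Zz f z) (Nat.zero_le Y) hYn]
    have h6 := hR Y n hY0 hnY (Zz f z) (by
      intro p hp
      exact ⟨hZle p (Pr_prime hp), hZmem p⟩)
    have h7 : 0 ≤ VV (Zz f z) 0 Y := by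
      unfold VV
      refine prod_nonneg fun p hp => ?_
      have hp0 : (0 : ℝ) < p := by exact_mod_cast (Pr_prime hp).pos
      have h8 : ((Zz f z p).card : ℝ) < p := by exact_mod_cast hZlt p (Pr_prime hp)
      rw [sub_nonneg, div_le_one hp0]
      exact h8.le
    rw [mul_comm]
    exact mul_le_mul_of_nonneg_left h6 h7
  have hX0 : X₀ ≤ N := by
    have : (X₀ : ℝ) ≤ N := by linarith
    exact_mod_cast this
  obtain ⟨a, h, ha1, ha2, ha3⟩ := hfin N A hX0 (Zz f z) (by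
    intro p hp _
    exact ⟨hZle p hp, hZlt p hp, hZmem p⟩) S (by
    intro x hx
    have h2 := hS hx
    rwa [hN] at h2) (by
    intro x hx p hp hpn hcon
    unfold Zz at hcon
    split_ifs at hcon with hpz
    · exact absurd hcon (notMem_empty _)
    rw [mem_Zf hp.pos] at hcon
    obtain ⟨k', _, hk'⟩ := (Nat.prime_iff_prime_int.1 hp).exists_mem_finset_dvd hcon
    have := hSq x hx k' p hp (not_le.1 hpz) hk'
    linarith) (by
    rw [← hY]
    refine le_trans ?_ hSc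
    calc δ * c * N * VV (Zz f z) 0 Y = δ * N * (c * VV (Zz f z) 0 Y) := by ring
      _ ≤ δ * N * VZ f z n := mul_le_mul_of_nonneg_left hVn (by positivity))
  refine ⟨a, h, ha1, ha2.trans ?_, ha3⟩
  have hN0 : (1 : ℝ) ≤ N := le_trans (Real.one_le_rpow hnr hε.le) hAB
  exact pow_le_pow_left₀ (Real.log_nonneg hN0) (Real.log_le_log (by linarith) hNn) _

/-- long intervals are short intervals -/
theorem long_short (θ : ℝ) (hθ : 0 < θ) : ∀ᶠ X : ℕ in atTop, (X : ℝ) ^ (1 / 2 : ℝ) ≤ θ * X := by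
  have h1 : ∀ᶠ X : ℕ in atTop, 1 / θ < (X : ℝ) ^ (1 / 2 : ℝ) :=
    ((tendsto_rpow_atTop (by norm_num)).comp tendsto_natCast_atTop_atTop).eventually (eventually_gt_atTop _)
  filter_upwards [h1, eventually_ge_atTop 1] with X hX hX1
  have hX0 : (0 : ℝ) < X := by exact_mod_cast hX1
  have h2 : (X : ℝ) ^ (1 / 2 : ℝ) * (X : ℝ) ^ (1 / 2 : ℝ) = X := by
    rw [← Real.rpow_add hX0]
    norm_num
  rw [div_lt_iff₀ hθ] at hX
  have h3 : 0 < (X : ℝ) ^ (1 / 2 : ℝ) := by positivity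
  calc (X : ℝ) ^ (1 / 2 : ℝ) = 1 * (X : ℝ) ^ (1 / 2 : ℝ) := (one_mul _).symm
    _ ≤ ((X : ℝ) ^ (1 / 2 : ℝ) * θ) * (X : ℝ) ^ (1 / 2 : ℝ) := by gcongr
    _ = θ * X := by linear_combination θ * h2

end Pool.Agent.X32.Uni
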