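import Pool.Agent.X32.Uni.Model2

/-!
Values of polynomials which are those at a given point times almost primes.
-/

set_option autoImplicit false

namespace Pool.Agent.X32.Uni

open Finset Filter
open Polynomial (C X aeval)
open scoped Polynomial

variable {m : ℕ}

open Classical in
/-- the good `n`, with two linear members -/
noncomputable def GM (f : Fin m → ℤ[X]) (n₀ Q : ℕ) (i j : Fin m) (t X A B : ℕ) : Finset ℕ :=
  (Ioc A B).filter (fun n : ℕ => ∃ v : Fin m → ℤ,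
    (∀ l, (f l).eval (n : ℤ) = (f l).eval (n₀ : ℤ) * v l ∧ v l ≡ 1 [ZMOD (Q : ℤ)] ∧
      Almost (t * (f l).natDegree) ((X : ℝ) ^ (1 / (t : ℝ))) (v l)) ∧
    (v i).natAbs.Prime ∧ Almost 2 ((X : ℝ) ^ (1 / 9 : ℝ)) (v j))

open Classical in
/-- the good `n` -/
noncomputable def GMS (f : Fin m → ℤ[X]) (n₀ Q : ℕ) (t X A B : ℕ) : Finset ℕ :=
  (Ioc A B).filter (fun n : ℕ => ∃ v : Fin m → ℤ,
    ∀ l, (f l).eval (n : ℤ) = (f l).eval (n₀ : ℤ) * v l ∧ v l ≡ 1 [ZMOD (Q : ℤ)] ∧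
      Almost (t * (f l).natDegree) ((X : ℝ) ^ (1 / (t : ℝ))) (v l))

theorem zM_pos {f : Fin m → ℤ[X]} {n₀ Q : ℕ} (hQ : 1 ≤ Q) (hne : ∀ l, (f l).eval (n₀ : ℤ) ≠ 0) : 1 ≤ zM f n₀ Q := by
  unfold zM
  exact Nat.mul_pos hQ (prod_pos fun l _ => Int.natAbs_pos.2 (hne l))

theorem zM_dvd {f : Fin m → ℤ[X]} {n₀ Q : ℕ} (hQ : 1 ≤ Q) (hne : ∀ l, (f l).eval (n₀ : ℤ) ≠ 0) :
    Q ∣ (zM f n₀ Q).factorial := by
  apply Nat.dvd_factorial hQ
  unfold zM
  exact Nat.le_mul_of_pos_right _ (prod_pos fun l _ => Int.natAbs_pos.2 (hne l))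

/-- primes larger than `zM` do not divide the values at `n₀` -/
theorem zM_lt {f : Fin m → ℤ[X]} {n₀ Q : ℕ} (hQ : 1 ≤ Q) (hne : ∀ l, (f l).eval (n₀ : ℤ) ≠ 0) {p : ℕ} (hp : p.Prime)
    (hz : zM f n₀ Q < p) (l : Fin m) : ¬ (p : ℤ) ∣ (f l).eval (n₀ : ℤ) := by
  intro hd
  have h1 := Nat.le_of_dvd (Int.natAbs_pos.2 (hne l)) (Int.natCast_dvd.1 hd)
  have h2 : ((f l).eval (n₀ : ℤ)).natAbs ≤ zM f n₀ Q := by
    unfold zM
    have h3 : ((f l).eval (n₀ : ℤ)).natAbs ∣ ∏ l, ((f l).eval (n₀ : ℤ)).natAbs := dvd_prod_of_mem _ (mem_univ l)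
    exact (Nat.le_of_dvd (prod_pos fun l _ => Int.natAbs_pos.2 (hne l)) h3).trans (Nat.le_mul_of_pos_left _ hQ)
  omega

theorem loc_z {f : Fin m → ℤ[X]} {n₀ Q : ℕ} (hQ : 1 ≤ Q) (hne : ∀ l, (f l).eval (n₀ : ℤ) ≠ 0) :
    ∀ p : ℕ, p.Prime → zM f n₀ Q < p → ∃ x : ℤ, ¬ (p : ℤ) ∣ ∏ k, (f k).eval x := by
  intro p hp hz
  refine ⟨n₀, fun hd => ?_⟩
  obtain ⟨l, _, hl⟩ := (Nat.prime_iff_prime_int.1 hp).exists_mem_finset_dvd hd
  exact zM_lt hQ hne hp hz l hl

theorem modelP (f : Fin m → ℤ[X]) (hdeg : ∀ l, 1 ≤ (f l).natDegree) (i j : Fin m)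
    (hi : (f i).natDegree = 1) (hj : (f j).natDegree = 1)
    (hdet : (f i).coeff 1 * (f j).coeff 0 ≠ (f j).coeff 1 * (f i).coeff 0)
    (n₀ Q : ℕ) (hQ : 1 ≤ Q) (hne : ∀ l, (f l).eval (n₀ : ℤ) ≠ 0) :
    ∃ t : ℕ, 1 ≤ t ∧ ∃ κ : ℝ, 0 < κ ∧ ∀ (s r : ℕ) (θ δ : ℝ), 1 ≤ s → 0 < θ → 0 < δ → ∃ c X₀ : ℕ, ∀ X : ℕ, X₀ ≤ X →
      κ / Real.log X ^ (∑ l, (f l).natDegree) ≤ VZ f (zM f n₀ Q) X ∧ ∀ A B : ℕ, B ≤ X → θ * X ≤ (B : ℝ) - A →
        κ * ((B : ℝ) - A) * VZ f (zM f n₀ Q) X ≤ ((GM f n₀ Q i j t X A B).card : ℝ) ∧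
        ∀ χ : ℕ → Fin r, ∃ P : Finset (ℕ × ℕ),
          (∀ z ∈ P, 1 ≤ z.2 ∧ (z.2 : ℝ) ≤ Real.log X ^ c ∧
            ∀ l < s, z.1 + l * z.2 ∈ GM f n₀ Q i j t X A B ∧ χ (z.1 + l * z.2) = χ z.1) ∧
          (P : Set (ℕ × ℕ)).PairwiseDisjoint (apSet s) ∧
          (((GM f n₀ Q i j t X A B \ P.biUnion (apSet s)).card : ℕ) : ℝ) ≤ δ * ((B : ℝ) - A) * VZ f (zM f n₀ Q) X := by
  classical
  obtain ⟨h, S, hloc, hmod⟩ := model_sbs f n₀ Q hQ hne
  obtain ⟨M, hM⟩ : ∃ M : ℕ, M = (zM f n₀ Q).factorial ^ 2 := ⟨_, rfl⟩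
  have hVZ : ∀ X, V h X = VZ f (zM f n₀ Q) X := fun X => by rw [S.V_eq, VM_fac]
  rw [← hM] at S
  have hW1 : 1 ≤ M := S.hM
  have hdegh : ∀ l, (h l).natDegree = (f l).natDegree := fun l => S.deg l
  obtain ⟨K, hK⟩ := sys_of h i j (fun l => by rw [hdegh]; exact hdeg l) hloc
    (by rw [hdegh]; exact hi) (by rw [hdegh]; exact hj)
    (by
      have := S.ne hdet 1
      rwa [Polynomial.C_1, one_mul] at this)
    (by
      have := S.ne hdet (-1)
      rwa [Polynomial.C_neg, Polynomial.C_1, neg_one_mul] at this)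
  obtain ⟨D, hD⟩ : ∃ D : ℕ, D = ∑ l, (f l).natDegree := ⟨_, rfl⟩
  have hDh : ∑ l, (h l).natDegree = D := by
    rw [hD]
    exact sum_congr rfl fun l _ => hdegh l
  obtain ⟨E, hE⟩ : ∃ E : ℕ, E = ((h i).coeff 1).natAbs + ((h j).coeff 1).natAbs := ⟨_, rfl⟩
  rw [hDh, ← hE] at hK
  rw [← hD]
  have hD1 : 1 ≤ D := by
    rw [hD]
    exact (hdeg i).trans (single_le_sum (f := fun l => (f l).natDegree) (fun _ _ => Nat.zero_le _) (mem_univ i))
  obtain ⟨t, ht, κ, hκ, HL⟩ := progU D E hD1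
  have hW0 : (0 : ℝ) < M := by exact_mod_cast hW1
  have ht0 : (0 : ℝ) < t := by exact_mod_cast ht
  refine ⟨t, ht, κ / (2 * M), by positivity, fun s r θ δ hs hθ hδ => ?_⟩
  obtain ⟨⟨X₁, h1⟩, _⟩ := HL (θ / (2 * M)) (by positivity) K
  obtain ⟨N₁, hN₁⟩ := exists_nat_gt ((4 * M + 2 * n₀) / θ)
  obtain ⟨c, X₂, h2⟩ := prog_z D t (zM f n₀ Q) ht s (1 / 2) (δ / (r + 1)) (by norm_num) (by positivity)
  obtain ⟨X₃, h3⟩ := eventually_atTop.1 (long_short θ hθ)
  refine ⟨c, max (max X₁ (max N₁ 3)) (max X₂ X₃), fun X hX => ?_⟩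
  have hX1 : X₁ ≤ X := (le_max_left _ _).trans ((le_max_left _ _).trans hX)
  have hXN : N₁ ≤ X := (le_max_left _ _).trans ((le_max_right _ _).trans ((le_max_left _ _).trans hX))
  have hX3 : 3 ≤ X := (le_max_right _ _).trans ((le_max_right _ _).trans ((le_max_left _ _).trans hX))
  have hX2 : X₂ ≤ X := (le_max_left _ _).trans ((le_max_right _ _).trans hX)
  have hX3' : X₃ ≤ X := (le_max_right _ _).trans ((le_max_right _ _).trans hX)
  have hX0 : (0 : ℝ) < X := by exact_mod_cast (by omega : 0 < X)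
  have hlog : 0 < Real.log X := Real.log_pos (by exact_mod_cast (by omega : 1 < X))
  obtain ⟨hVl, hcnt⟩ := h1 X hX1 _ _ i j (hK X (by omega))
  rw [hVZ] at hVl
  have hV0 : 0 < VZ f (zM f n₀ Q) X := lt_of_lt_of_le (by positivity) hVl
  refine ⟨le_trans ?_ hVl, fun A B hB hAB => ?_⟩
  · apply div_le_div_of_nonneg_right _ (by positivity)
    rw [div_le_iff₀ (by positivity)]
    have : (1 : ℝ) ≤ M := by exact_mod_cast hW1
    nlinarith
  have hBA0 : 0 < (B : ℝ) - A := lt_of_lt_of_le (by positivity) hAB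
  constructor
  · have hsize : 4 * (M : ℝ) + 2 * n₀ ≤ θ * X := by
      have h2 : (4 * M + 2 * n₀) / θ ≤ X := by
        have : (N₁ : ℝ) ≤ X := by exact_mod_cast hXN
        linarith
      have h3 := (div_le_iff₀ hθ).1 h2
      linarith
    obtain ⟨A', hA'⟩ : ∃ A' : ℕ, A' = (A - n₀) / M := ⟨_, rfl⟩
    obtain ⟨B', hB'⟩ : ∃ B' : ℕ, B' = (B - n₀) / M := ⟨_, rfl⟩
    have hBr : A + 2 * n₀ ≤ B := by
      have h2 : (A : ℝ) + 2 * n₀ ≤ B := by
        have : (0 : ℝ) ≤ 4 * M := by positivity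
        linarith
      exact_mod_cast h2
    have hB'X : B' ≤ X := by
      rw [hB']
      exact (Nat.div_le_self _ _).trans ((Nat.sub_le _ _).trans hB)
    have hB'lt : B - n₀ < M * (B' + 1) := by
      rw [hB']
      exact Nat.lt_mul_div_succ _ hW1
    have hA'lt : A - n₀ < M * (A' + 1) := by
      rw [hA']
      exact Nat.lt_mul_div_succ _ hW1
    have hlen : ((B : ℝ) - A) / (2 * M) ≤ (B' : ℝ) - A' := by
      have h2 : (M : ℝ) * A' ≤ A := by
        have h3 : M * A' ≤ A := by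
          rw [hA']
          exact (Nat.mul_div_le _ _).trans (Nat.sub_le _ _)
        exact_mod_cast h3
      have h3 : (B : ℝ) < M * (B' + 1) + n₀ := by
        have h4 : B < M * (B' + 1) + n₀ := by omega
        exact_mod_cast h4
      rw [div_le_iff₀ (by positivity)]
      nlinarith
    have hθ' : θ / (2 * M) * X ≤ (B' : ℝ) - A' := by
      refine le_trans ?_ hlen
      rw [div_mul_eq_mul_div]
      exact div_le_div_of_nonneg_right hAB (by positivity)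
    have h4 := hcnt A' B' hB'X hθ'
    have hcard : (GoodX h i j t X A' B').card ≤ (GM f n₀ Q i j t X A B).card := by
      apply card_le_card_of_injOn (fun y => M * y + n₀)
      · intro y hy
        rw [mem_coe] at hy ⊢
        unfold GoodX at hy
        rw [mem_filter, mem_Ioc] at hy
        obtain ⟨⟨y1, y2⟩, y3, y4, y5⟩ := hy
        unfold GM
        rw [mem_filter, mem_Ioc]
        refine ⟨⟨?_, ?_⟩, fun l => (h l).eval (y : ℤ), fun l => ⟨?_, ?_, ?_⟩, y3, y4⟩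
        · have h5 : M * (A' + 1) ≤ M * y := Nat.mul_le_mul_left _ y1
          show A < M * y + n₀
          omega
        · have h4 : M * y ≤ M * B' := Nat.mul_le_mul_left _ y2
          have h5 : M * B' ≤ B - n₀ := by
            rw [hB']
            exact Nat.mul_div_le _ _
          show M * y + n₀ ≤ B
          omega
        · rw [S.eval]
          push_cast
          rfl
        · exact Int.ModEq.of_dvd (Int.natCast_dvd_natCast.2 (zM_dvd hQ hne)) (hmod l y)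
        · have := y5 l
          rwa [hdegh] at this
      · intro y _ y' _ he
        simp only at he
        have h4 : M * y = M * y' := by omega
        exact Nat.eq_of_mul_eq_mul_left hW1 h4
    have hcard' : ((GoodX h i j t X A' B').card : ℝ) ≤ (GM f n₀ Q i j t X A B).card := by
      exact_mod_cast hcard
    rw [hVZ] at h4
    refine le_trans ?_ (h4.trans hcard')
    calc κ / (2 * M) * ((B : ℝ) - A) * VZ f (zM f n₀ Q) X = κ * (((B : ℝ) - A) / (2 * M)) * VZ f (zM f n₀ Q) X := by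
          field_simp
      _ ≤ κ * ((B' : ℝ) - A') * VZ f (zM f n₀ Q) X := by
          apply mul_le_mul_of_nonneg_right _ hV0.le
          exact mul_le_mul_of_nonneg_left hlen hκ.le
  · intro χ
    obtain ⟨P, p1, p2, p3⟩ := part_col s r hs (Real.log X ^ c) (δ / (r + 1) * ((B : ℝ) - A) * VZ f (zM f n₀ Q) X)
      (by positivity) (GM f n₀ Q i j t X A B) (by
        intro T hT hTc
        refine h2 X hX2 m f (by omega) (loc_z hQ hne) A B hB ((h3 X hX3').trans hAB) T ?_ ?_ hTc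
        · exact hT.trans (filter_subset _ _)
        · intro x hx l q hq hzq hd
          have h5 := hT hx
          unfold GM at h5
          rw [mem_filter] at h5
          obtain ⟨v, hv, _⟩ := h5.2
          obtain ⟨hv1, _, hv3⟩ := hv l
          rw [hv1] at hd
          rcases (Nat.prime_iff_prime_int.1 hq).dvd_or_dvd hd with h6 | h6
          · exact absurd h6 (zM_lt hQ hne hq hzq l)
          · exact hv3.2.2 q hq h6) χ
    refine ⟨P, p1, p2, p3.le.trans ?_⟩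
    have h6 : (r : ℝ) * (δ / (r + 1) * ((B : ℝ) - A) * VZ f (zM f n₀ Q) X) =
        (r / (r + 1)) * (δ * ((B : ℝ) - A) * VZ f (zM f n₀ Q) X) := by
      field_simp
    rw [h6]
    have h7 : (r : ℝ) / (r + 1) ≤ 1 := by
      rw [div_le_one (by positivity)]
      linarith
    exact mul_le_of_le_one_left (by positivity) h7

theorem modelS (f : Fin m → ℤ[X]) (hm : 0 < m) (hdeg : ∀ l, 1 ≤ (f l).natDegree)
    (n₀ Q : ℕ) (hQ : 1 ≤ Q) (hne : ∀ l, (f l).eval (n₀ : ℤ) ≠ 0) (ε : ℝ) (hε : 0 < ε) :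
    ∃ t : ℕ, 1 ≤ t ∧ ∃ κ : ℝ, 0 < κ ∧ ∀ (s r : ℕ) (δ : ℝ), 1 ≤ s → 0 < δ → ∃ c X₀ : ℕ, ∀ X : ℕ, X₀ ≤ X →
      κ / Real.log X ^ (∑ l, (f l).natDegree) ≤ VZ f (zM f n₀ Q) X ∧
      ∀ A B : ℕ, B ≤ X → (X : ℝ) ^ ε ≤ (B : ℝ) - A →
        κ * ((B : ℝ) - A) * VZ f (zM f n₀ Q) X ≤ ((GMS f n₀ Q t X A B).card : ℝ) ∧
        ∀ χ : ℕ → Fin r, ∃ P : Finset (ℕ × ℕ),
          (∀ z ∈ P, 1 ≤ z.2 ∧ (z.2 : ℝ) ≤ Real.log X ^ c ∧
            ∀ l < s, z.1 + l * z.2 ∈ GMS f n₀ Q t X A B ∧ χ (z.1 + l * z.2) = χ z.1) ∧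
          (P : Set (ℕ × ℕ)).PairwiseDisjoint (apSet s) ∧
          (((GMS f n₀ Q t X A B \ P.biUnion (apSet s)).card : ℕ) : ℝ) ≤ δ * ((B : ℝ) - A) * VZ f (zM f n₀ Q) X := by
  classical
  obtain ⟨h, S, hloc, hmod⟩ := model_sbs f n₀ Q hQ hne
  obtain ⟨M, hM⟩ : ∃ M : ℕ, M = (zM f n₀ Q).factorial ^ 2 := ⟨_, rfl⟩
  have hVZ : ∀ X, V h X = VZ f (zM f n₀ Q) X := fun X => by rw [S.V_eq, VM_fac]
  rw [← hM] at S
  have hW1 : 1 ≤ M := S.hM
  have hdegh : ∀ l, (h l).natDegree = (f l).natDegree := fun l => S.deg l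
  obtain ⟨K, hK⟩ := sysA_of h (fun l => by rw [hdegh]; exact hdeg l) hloc
  obtain ⟨D, hD⟩ : ∃ D : ℕ, D = ∑ l, (f l).natDegree := ⟨_, rfl⟩
  have hDh : ∑ l, (h l).natDegree = D := by
    rw [hD]
    exact sum_congr rfl fun l _ => hdegh l
  rw [hDh] at hK
  rw [← hD]
  have hD1 : 1 ≤ D := by
    rw [hD]
    obtain ⟨l0, _⟩ : ∃ l0 : Fin m, l0 = ⟨0, hm⟩ := ⟨_, rfl⟩
    exact (hdeg l0).trans (single_le_sum (f := fun l => (f l).natDegree) (fun _ _ => Nat.zero_le _) (mem_univ l0))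
  obtain ⟨t, ht, κ, KU, hκ, hKU, HL⟩ := shortU D hD1 (ε / 2) (by positivity)
  have hW0 : (0 : ℝ) < M := by exact_mod_cast hW1
  have ht0 : (0 : ℝ) < t := by exact_mod_cast ht
  refine ⟨t, ht, κ / (2 * M), by positivity, fun s r δ hs hδ => ?_⟩
  obtain ⟨X₁, h1⟩ := HL K
  have hpow : ∀ M : ℝ, ∀ a : ℝ, 0 < a → ∀ᶠ n : ℕ in atTop, M < (n : ℝ) ^ a := fun M a ha =>
    ((tendsto_rpow_atTop ha).comp tendsto_natCast_atTop_atTop).eventually (eventually_gt_atTop M)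
  obtain ⟨N₁, hN₁⟩ := eventually_atTop.1 (hpow (4 * M + 2 * n₀) (ε / 2) (by positivity))
  obtain ⟨c, X₂, h2⟩ := prog_z D t (zM f n₀ Q) ht s ε (δ / (r + 1)) hε (by positivity)
  refine ⟨c, max (max X₁ (max N₁ 3)) X₂, fun X hX => ?_⟩
  have hX1 : X₁ ≤ X := (le_max_left _ _).trans ((le_max_left _ _).trans hX)
  have hXN : N₁ ≤ X := (le_max_left _ _).trans ((le_max_right _ _).trans ((le_max_left _ _).trans hX))
  have hX3 : 3 ≤ X := (le_max_right _ _).trans ((le_max_right _ _).trans ((le_max_left _ _).trans hX))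
  have hX2 : X₂ ≤ X := (le_max_right _ _).trans hX
  have hX0 : (0 : ℝ) < X := by exact_mod_cast (by omega : 0 < X)
  have hXr : (1 : ℝ) ≤ X := by exact_mod_cast (by omega : 1 ≤ X)
  have hlog : 0 < Real.log X := Real.log_pos (by exact_mod_cast (by omega : 1 < X))
  obtain ⟨hVl, hcnt⟩ := h1 X hX1 m h (hK X (by omega))
  rw [hVZ] at hVl
  have hV0 : 0 < VZ f (zM f n₀ Q) X := lt_of_lt_of_le (by positivity) hVl
  refine ⟨le_trans ?_ hVl, fun A B hB hAB => ?_⟩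
  · apply div_le_div_of_nonneg_right _ (by positivity)
    rw [div_le_iff₀ (by positivity)]
    have : (1 : ℝ) ≤ M := by exact_mod_cast hW1
    nlinarith
  have hε2 : (X : ℝ) ^ (ε / 2) * (X : ℝ) ^ (ε / 2) = (X : ℝ) ^ ε := by
    rw [← Real.rpow_add hX0]
    congr 1
    ring
  have hsize : 4 * (M : ℝ) + 2 * n₀ ≤ (X : ℝ) ^ (ε / 2) := (hN₁ X hXN).le
  have hBA0 : 0 < (B : ℝ) - A := lt_of_lt_of_le (by positivity) hAB
  have hrr : (0 : ℝ) ≤ n₀ := Nat.cast_nonneg _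
  have hpos : (1 : ℝ) ≤ (X : ℝ) ^ (ε / 2) := Real.one_le_rpow hXr (by positivity)
  have hAB2 : (X : ℝ) ^ (ε / 2) ≤ (B : ℝ) - A := by
    refine le_trans ?_ hAB
    rw [← hε2]
    nlinarith
  constructor
  · obtain ⟨A', hA'⟩ : ∃ A' : ℕ, A' = (A - n₀) / M := ⟨_, rfl⟩
    obtain ⟨B', hB'⟩ : ∃ B' : ℕ, B' = (B - n₀) / M := ⟨_, rfl⟩
    have hBr : A + 2 * n₀ ≤ B := by
      have h2 : (A : ℝ) + 2 * n₀ ≤ B := by
        have : (0 : ℝ) ≤ 4 * M := by positivity
        linarith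
      exact_mod_cast h2
    have hB'X : B' ≤ X := by
      rw [hB']
      exact (Nat.div_le_self _ _).trans ((Nat.sub_le _ _).trans hB)
    have hB'lt : B - n₀ < M * (B' + 1) := by
      rw [hB']
      exact Nat.lt_mul_div_succ _ hW1
    have hA'lt : A - n₀ < M * (A' + 1) := by
      rw [hA']
      exact Nat.lt_mul_div_succ _ hW1
    have hlen : ((B : ℝ) - A) / (2 * M) ≤ (B' : ℝ) - A' := by
      have h2 : (M : ℝ) * A' ≤ A := by
        have h3 : M * A' ≤ A := by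
          rw [hA']
          exact (Nat.mul_div_le _ _).trans (Nat.sub_le _ _)
        exact_mod_cast h3
      have h3 : (B : ℝ) < M * (B' + 1) + n₀ := by
        have h4 : B < M * (B' + 1) + n₀ := by omega
        exact_mod_cast h4
      rw [div_le_iff₀ (by positivity)]
      nlinarith
    have hθ' : (X : ℝ) ^ (ε / 2) ≤ (B' : ℝ) - A' := by
      refine le_trans ?_ hlen
      rw [le_div_iff₀ (by positivity)]
      calc (X : ℝ) ^ (ε / 2) * (2 * M) ≤ (X : ℝ) ^ (ε / 2) * (X : ℝ) ^ (ε / 2) := by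
            apply mul_le_mul_of_nonneg_left _ (by positivity)
            linarith
        _ ≤ (B : ℝ) - A := by rw [hε2]; exact hAB
    have h4 := (hcnt A' B' hB'X hθ').1
    have hcard : (GoodB h t X A' B').card ≤ (GMS f n₀ Q t X A B).card := by
      apply card_le_card_of_injOn (fun y => M * y + n₀)
      · intro y hy
        rw [mem_coe] at hy ⊢
        unfold GoodB at hy
        rw [mem_filter, mem_Ioc] at hy
        obtain ⟨⟨y1, y2⟩, y5⟩ := hy
        unfold GMS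
        rw [mem_filter, mem_Ioc]
        refine ⟨⟨?_, ?_⟩, fun l => (h l).eval (y : ℤ), fun l => ⟨?_, ?_, ?_⟩⟩
        · have h5 : M * (A' + 1) ≤ M * y := Nat.mul_le_mul_left _ y1
          show A < M * y + n₀
          omega
        · have h4 : M * y ≤ M * B' := Nat.mul_le_mul_left _ y2
          have h5 : M * B' ≤ B - n₀ := by
            rw [hB']
            exact Nat.mul_div_le _ _
          show M * y + n₀ ≤ B
          omega
        · rw [S.eval]
          push_cast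
          rfl
        · exact Int.ModEq.of_dvd (Int.natCast_dvd_natCast.2 (zM_dvd hQ hne)) (hmod l y)
        · have := y5 l
          rwa [hdegh] at this
      · intro y _ y' _ he
        simp only at he
        have h4 : M * y = M * y' := by omega
        exact Nat.eq_of_mul_eq_mul_left hW1 h4
    have hcard' : ((GoodB h t X A' B').card : ℝ) ≤ (GMS f n₀ Q t X A B).card := by
      exact_mod_cast hcard
    rw [hVZ] at h4
    refine le_trans ?_ (h4.trans hcard')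
    calc κ / (2 * M) * ((B : ℝ) - A) * VZ f (zM f n₀ Q) X = κ * (((B : ℝ) - A) / (2 * M)) * VZ f (zM f n₀ Q) X := by
          field_simp
      _ ≤ κ * ((B' : ℝ) - A') * VZ f (zM f n₀ Q) X := by
          apply mul_le_mul_of_nonneg_right _ hV0.le
          exact mul_le_mul_of_nonneg_left hlen hκ.le
  · intro χ
    obtain ⟨P, p1, p2, p3⟩ := part_col s r hs (Real.log X ^ c) (δ / (r + 1) * ((B : ℝ) - A) * VZ f (zM f n₀ Q) X)
      (by positivity) (GMS f n₀ Q t X A B) (by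
        intro T hT hTc
        refine h2 X hX2 m f (by omega) (loc_z hQ hne) A B hB hAB T ?_ ?_ hTc
        · exact hT.trans (filter_subset _ _)
        · intro x hx l q hq hzq hd
          have h5 := hT hx
          unfold GMS at h5
          rw [mem_filter] at h5
          obtain ⟨v, hv⟩ := h5.2
          obtain ⟨hv1, _, hv3⟩ := hv l
          rw [hv1] at hd
          rcases (Nat.prime_iff_prime_int.1 hq).dvd_or_dvd hd with h6 | h6
          · exact absurd h6 (zM_lt hQ hne hq hzq l)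
          · exact hv3.2.2 q hq h6) χ
    refine ⟨P, p1, p2, p3.le.trans ?_⟩
    have h6 : (r : ℝ) * (δ / (r + 1) * ((B : ℝ) - A) * VZ f (zM f n₀ Q) X) =
        (r / (r + 1)) * (δ * ((B : ℝ) - A) * VZ f (zM f n₀ Q) X) := by
      field_simp
    rw [h6]
    have h7 : (r : ℝ) / (r + 1) ≤ 1 := by
      rw [div_le_one (by positivity)]
      linarith
    exact mul_le_of_le_one_left (by positivity) h7

end Pool.Agent.X32.Uni
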