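import Pool.Agent.X32.Uni.Model3
import Pool.Agent.X32.Uni.Short3

/-!
Model values, with bounded prime factors in the cofactors of further polynomials.
-/

set_option autoImplicit false

namespace Pool.Agent.X32.Uni

open Finset Filter
open Polynomial (C X aeval)
open scoped Polynomial

variable {m m' : ℕ}

open Classical in
/-- the good `n` -/
noncomputable def GMK (f : Fin m → ℤ[X]) (g : Fin m' → ℤ[X]) (n₀ Q : ℕ) (i j : Fin m) (C t X A B : ℕ) : Finset ℕ :=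
  (Ioc A B).filter (fun n : ℕ => (∃ v : Fin m → ℤ,
    (∀ l, (f l).eval (n : ℤ) = (f l).eval (n₀ : ℤ) * v l ∧ v l ≡ 1 [ZMOD (Q : ℤ)] ∧
      Almost (t * (f l).natDegree) ((X : ℝ) ^ (1 / (t : ℝ))) (v l)) ∧
    (v i).natAbs.Prime ∧ Almost 2 ((X : ℝ) ^ (1 / 9 : ℝ)) (v j)) ∧
    ∀ l, ∃ w : ℤ, (g l).eval (n : ℤ) = (g l).eval (n₀ : ℤ) * w ∧ w ≡ 1 [ZMOD (Q : ℤ)] ∧
      ∃ q : ℕ, q.Prime ∧ q ≤ C ∧ (q : ℤ) ∣ w)

open Classical in
/-- the good `n` -/
noncomputable def GMKS (f : Fin m → ℤ[X]) (g : Fin m' → ℤ[X]) (n₀ Q : ℕ) (C t X A B : ℕ) : Finset ℕ :=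
  (Ioc A B).filter (fun n : ℕ => (∃ v : Fin m → ℤ,
    ∀ l, (f l).eval (n : ℤ) = (f l).eval (n₀ : ℤ) * v l ∧ v l ≡ 1 [ZMOD (Q : ℤ)] ∧
      Almost (t * (f l).natDegree) ((X : ℝ) ^ (1 / (t : ℝ))) (v l)) ∧
    ∀ l, ∃ w : ℤ, (g l).eval (n : ℤ) = (g l).eval (n₀ : ℤ) * w ∧ w ≡ 1 [ZMOD (Q : ℤ)] ∧
      ∃ q : ℕ, q.Prime ∧ q ≤ C ∧ (q : ℤ) ∣ w)

theorem transfer {M n₀ : ℕ} (hM : 1 ≤ M) (U T : ℕ → ℕ → Finset ℕ) (hU : ∀ A' B', U A' B' ⊆ Ioc A' B')
    (hmap : ∀ A' B' A B y : ℕ, y ∈ U A' B' → A < M * y + n₀ → M * y + n₀ ≤ B → M * y + n₀ ∈ T A B)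
    (A B : ℕ) (hAB : 4 * (M : ℝ) + 2 * n₀ ≤ (B : ℝ) - A) :
    ∃ A' B' : ℕ, B' ≤ B ∧ ((B : ℝ) - A) / (2 * M) ≤ (B' : ℝ) - A' ∧ (U A' B').card ≤ (T A B).card := by
  have hM0 : (0 : ℝ) < M := by exact_mod_cast hM
  obtain ⟨A', hA'⟩ : ∃ A' : ℕ, A' = (A - n₀) / M := ⟨_, rfl⟩
  obtain ⟨B', hB'⟩ : ∃ B' : ℕ, B' = (B - n₀) / M := ⟨_, rfl⟩
  have hBr : A + 2 * n₀ ≤ B := by
    have h2 : (A : ℝ) + 2 * n₀ ≤ B := by
      have : (0 : ℝ) ≤ 4 * M := by positivity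
      linarith
    exact_mod_cast h2
  have hB'lt : B - n₀ < M * (B' + 1) := by
    rw [hB']
    exact Nat.lt_mul_div_succ _ hM
  have hA'lt : A - n₀ < M * (A' + 1) := by
    rw [hA']
    exact Nat.lt_mul_div_succ _ hM
  refine ⟨A', B', ?_, ?_, ?_⟩
  · rw [hB']
    exact (Nat.div_le_self _ _).trans (Nat.sub_le _ _)
  · have h2 : (M : ℝ) * A' ≤ A := by
      have h3 : M * A' ≤ A := by
        rw [hA']
        exact (Nat.mul_div_le _ _).trans (Nat.sub_le _ _)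
      exact_mod_cast h3
    have h3 : (B : ℝ) < M * (B' + 1) + n₀ := by
      have h4 : B < M * (B' + 1) + n₀ := by omega
      exact_mod_cast h4
    rw [div_le_iff₀ (by positivity)]
    nlinarith
  · apply card_le_card_of_injOn (fun y => M * y + n₀)
    · intro y hy
      rw [mem_coe] at hy
      have h0 := mem_Ioc.1 (hU _ _ hy)
      refine hmap A' B' A B y hy ?_ ?_
      · have h5 : M * (A' + 1) ≤ M * y := Nat.mul_le_mul_left _ h0.1
        omega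
      · have h4 : M * y ≤ M * B' := Nat.mul_le_mul_left _ h0.2
        have h5 : M * B' ≤ B - n₀ := by
          rw [hB']
          exact Nat.mul_div_le _ _
        omega
    · intro y _ y' _ he
      simp only at he
      have h4 : M * y = M * y' := by omega
      exact Nat.eq_of_mul_eq_mul_left hM h4

/-- the modulus -/
def zMK (f : Fin m → ℤ[X]) (g : Fin m' → ℤ[X]) (n₀ Q : ℕ) : ℕ :=
  Q * ((∏ l, ((f l).eval (n₀ : ℤ)).natAbs) * ∏ l, ((g l).eval (n₀ : ℤ)).natAbs)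

/-- the two systems after the substitution -/
theorem model_two (f : Fin m → ℤ[X]) (g : Fin m' → ℤ[X]) (n₀ Q : ℕ) (hQ : 1 ≤ Q)
    (hf : ∀ l, (f l).eval (n₀ : ℤ) ≠ 0) (hg : ∀ l, (g l).eval (n₀ : ℤ) ≠ 0)
    (hG : ∀ l, g l ≠ 0 ∧ ∃ α : ℂ, aeval α (g l) = 0 ∧ ∀ l', aeval α (f l') ≠ 0) :
    ∃ (h : Fin m → ℤ[X]) (u : Fin m' → ℤ[X]), Sbs f h (fun l => (f l).eval (n₀ : ℤ)) ((zMK f g n₀ Q).factorial ^ 2) n₀ ∧
      Loc h ∧ (∀ l x, (h l).eval x ≡ 1 [ZMOD (Q : ℤ)]) ∧ (∀ l x, (u l).eval x ≡ 1 [ZMOD (Q : ℤ)]) ∧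
      (∀ l x, (g l).eval ((((zMK f g n₀ Q).factorial ^ 2 : ℕ) : ℤ) * x + n₀) = (g l).eval (n₀ : ℤ) * (u l).eval x) ∧
      ∀ l, u l ≠ 0 ∧ ∃ α : ℂ, aeval α (u l) = 0 ∧ ∀ l', aeval α (h l') ≠ 0 := by
  classical
  obtain ⟨F, hF⟩ : ∃ F : Fin (m + m') → ℤ[X], F = Fin.append f g := ⟨_, rfl⟩
  have hFf : ∀ l, F (Fin.castAdd m' l) = f l := fun l => by rw [hF, Fin.append_left]
  have hFg : ∀ l, F (Fin.natAdd m l) = g l := fun l => by rw [hF, Fin.append_right]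
  have hne : ∀ l, (F l).eval (n₀ : ℤ) ≠ 0 := by
    intro l
    refine Fin.addCases (fun l => ?_) (fun l => ?_) l
    · rw [hFf]
      exact hf l
    · rw [hFg]
      exact hg l
  have hz : zM F n₀ Q = zMK f g n₀ Q := by
    unfold zM zMK
    rw [Fin.prod_univ_add]
    simp only [hFf, hFg]
  obtain ⟨k, S, hloc, hmod⟩ := model_sbs F n₀ Q hQ hne
  have hQd : (Q : ℤ) ∣ ((zM F n₀ Q).factorial : ℤ) := Int.natCast_dvd_natCast.2 (zM_dvd hQ hne)
  rw [hz] at S hmod hQd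
  obtain ⟨M, hM⟩ : ∃ M : ℕ, M = (zMK f g n₀ Q).factorial ^ 2 := ⟨_, rfl⟩
  rw [← hM] at S ⊢
  have hM1 : 1 ≤ M := S.hM
  have hM0 : (M : ℂ) ≠ 0 := by exact_mod_cast (by omega : M ≠ 0)
  have haev : ∀ (l : Fin (m + m')) (α : ℂ), (((F l).eval (n₀ : ℤ) : ℤ) : ℂ) * aeval α (k l) = aeval (M * α + n₀) (F l) := by
    intro l α
    have h1 := congrArg (fun q : ℤ[X] => aeval α q) (S.eq l)
    simp only [map_mul, Polynomial.aeval_C, Polynomial.aeval_comp, map_add, Polynomial.aeval_X] at h1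
    simpa using h1
  have hprod : ∀ x : ℤ, ∏ l, (k l).eval x = (∏ l : Fin m, (k (Fin.castAdd m' l)).eval x) *
      ∏ l : Fin m', (k (Fin.natAdd m l)).eval x := fun x => by rw [Fin.prod_univ_add]
  refine ⟨fun l => k (Fin.castAdd m' l), fun l => k (Fin.natAdd m l), ?_, ?_, ?_, ?_, ?_, ?_⟩
  · refine
      { hM := hM1
        eq := fun l => ?_
        dM := fun l p hp hd => ?_
        nz := fun p hp hpM x hd => ?_ }
    · have := S.eq (Fin.castAdd m' l)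
      simp only [hFf] at this
      exact this
    · apply S.dM (Fin.castAdd m' l) p hp
      simp only [hFf]
      exact hd
    · apply S.nz p hp hpM x
      rw [hprod]
      exact hd.mul_right _
  · intro p hp
    obtain ⟨x, hx⟩ := hloc p hp
    refine ⟨x, fun hd => hx ?_⟩
    rw [hprod]
    exact hd.mul_right _
  · intro l x
    exact Int.ModEq.of_dvd hQd (hmod _ x)
  · intro l x
    exact Int.ModEq.of_dvd hQd (hmod _ x)
  · intro l x
    have := S.eval (Fin.natAdd m l) x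
    simp only [hFg] at this
    exact this.symm
  · intro l
    obtain ⟨hg0, α, hα, hα2⟩ := hG l
    refine ⟨?_, (α - n₀) / M, ?_, fun l' h => hα2 l' ?_⟩
    · intro h0
      apply hne (Fin.natAdd m l)
      have h1 := S.eq (Fin.natAdd m l)
      simp only at h0
      rw [h0, mul_zero] at h1
      have h2 := congrArg (fun q : ℤ[X] => q.eval 0) h1
      simp [Polynomial.eval_comp] at h2
      exact h2.symm
    · have h1 := haev (Fin.natAdd m l) ((α - n₀) / M)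
      rw [mul_div_cancel₀ _ hM0, sub_add_cancel, hFg, hα] at h1
      rcases mul_eq_zero.1 h1 with h2 | h2
      · exfalso
        apply hg l
        exact_mod_cast h2
      · exact h2
    · have h1 := haev (Fin.castAdd m' l') ((α - n₀) / M)
      rw [mul_div_cancel₀ _ hM0, sub_add_cancel, hFf] at h1
      rw [← h1]
      simp only at h
      rw [h, mul_zero]

end Pool.Agent.X32.Uni
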