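import Pool.Agent.X32.Uni.Model4

/-!
Model values, with bounded prime factors in the cofactors of further polynomials.
-/

set_option autoImplicit false

namespace Pool.Agent.X32.Uni

open Finset Filter
open Polynomial (C X aeval)
open scoped Polynomial

variable {m m' : ℕ}

theorem zMK_lt {f : Fin m → ℤ[X]} {g : Fin m' → ℤ[X]} {n₀ Q : ℕ} (hQ : 1 ≤ Q)
    (hf : ∀ l, (f l).eval (n₀ : ℤ) ≠ 0) (hg : ∀ l, (g l).eval (n₀ : ℤ) ≠ 0) {p : ℕ}
    (hz : zMK f g n₀ Q < p) (l : Fin m) : ¬ (p : ℤ) ∣ (f l).eval (n₀ : ℤ) := by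
  intro hd
  have h1 := Nat.le_of_dvd (Int.natAbs_pos.2 (hf l)) (Int.natCast_dvd.1 hd)
  have h2 : ((f l).eval (n₀ : ℤ)).natAbs ≤ zMK f g n₀ Q := by
    unfold zMK
    have h3 : ((f l).eval (n₀ : ℤ)).natAbs ∣ ∏ l, ((f l).eval (n₀ : ℤ)).natAbs := dvd_prod_of_mem _ (mem_univ l)
    have h4 : 0 < ∏ l, ((f l).eval (n₀ : ℤ)).natAbs := prod_pos fun l _ => Int.natAbs_pos.2 (hf l)
    have h5 : 0 < ∏ l, ((g l).eval (n₀ : ℤ)).natAbs := prod_pos fun l _ => Int.natAbs_pos.2 (hg l)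
    exact (Nat.le_of_dvd h4 h3).trans ((Nat.le_mul_of_pos_right _ h5).trans (Nat.le_mul_of_pos_left _ hQ))
  omega

/-- the covering part -/
theorem cover_z (f : Fin m → ℤ[X]) (D t z s r : ℕ) (ht : 1 ≤ t) (hs : 1 ≤ s) (hD : ∑ l, (f l).natDegree ≤ D)
    (hlz : ∀ p : ℕ, p.Prime → z < p → ∃ x : ℤ, ¬ (p : ℤ) ∣ ∏ k, (f k).eval x) (ε δ : ℝ) (hε : 0 < ε) (hδ : 0 < δ) :
    ∃ c X₀ : ℕ, ∀ X : ℕ, X₀ ≤ X → 0 < VZ f z X → ∀ A B : ℕ, B ≤ X → (X : ℝ) ^ ε ≤ (B : ℝ) - A →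
      ∀ T : Finset ℕ, T ⊆ Ioc A B →
        (∀ x ∈ T, ∀ k, ∀ q : ℕ, q.Prime → z < q → (q : ℤ) ∣ (f k).eval (x : ℤ) → (X : ℝ) ^ (1 / (t : ℝ)) < q) →
        ∀ χ : ℕ → Fin r, ∃ P : Finset (ℕ × ℕ),
          (∀ z ∈ P, 1 ≤ z.2 ∧ (z.2 : ℝ) ≤ Real.log X ^ c ∧ ∀ l < s, z.1 + l * z.2 ∈ T ∧ χ (z.1 + l * z.2) = χ z.1) ∧
          (P : Set (ℕ × ℕ)).PairwiseDisjoint (apSet s) ∧
          (((T \ P.biUnion (apSet s)).card : ℕ) : ℝ) ≤ δ * ((B : ℝ) - A) * VZ f z X := by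
  classical
  obtain ⟨c, X₂, h2⟩ := prog_z D t z ht s ε (δ / (r + 1)) hε (by positivity)
  refine ⟨c, max X₂ 3, fun X hX hV0 A B hB hAB T hT hT2 χ => ?_⟩
  have hX2 : X₂ ≤ X := (le_max_left _ _).trans hX
  have hX3 : 3 ≤ X := (le_max_right _ _).trans hX
  have hX0 : (0 : ℝ) < X := by exact_mod_cast (by omega : 0 < X)
  have hlog : 0 < Real.log X := Real.log_pos (by exact_mod_cast (by omega : 1 < X))
  have hBA0 : 0 < (B : ℝ) - A := lt_of_lt_of_le (by positivity) hAB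
  obtain ⟨P, p1, p2, p3⟩ := part_col s r hs (Real.log X ^ c) (δ / (r + 1) * ((B : ℝ) - A) * VZ f z X)
    (by positivity) T (by
      intro T' hT' hTc
      exact h2 X hX2 m f hD hlz A B hB hAB T' (hT'.trans hT) (fun x hx => hT2 x (hT' hx)) hTc) χ
  refine ⟨P, p1, p2, p3.le.trans ?_⟩
  have h6 : (r : ℝ) * (δ / (r + 1) * ((B : ℝ) - A) * VZ f z X) = (r / (r + 1)) * (δ * ((B : ℝ) - A) * VZ f z X) := by
    field_simp
  rw [h6]
  have h7 : (r : ℝ) / (r + 1) ≤ 1 := by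
    rw [div_le_one (by positivity)]
    linarith
  exact mul_le_of_le_one_left (by positivity) h7

theorem loc_zK {f : Fin m → ℤ[X]} {g : Fin m' → ℤ[X]} {n₀ Q : ℕ} (hQ : 1 ≤ Q)
    (hf : ∀ l, (f l).eval (n₀ : ℤ) ≠ 0) (hg : ∀ l, (g l).eval (n₀ : ℤ) ≠ 0) :
    ∀ p : ℕ, p.Prime → zMK f g n₀ Q < p → ∃ x : ℤ, ¬ (p : ℤ) ∣ ∏ k, (f k).eval x := by
  intro p hp hz
  refine ⟨n₀, fun hd => ?_⟩
  obtain ⟨l, _, hl⟩ := (Nat.prime_iff_prime_int.1 hp).exists_mem_finset_dvd hd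
  exact zMK_lt hQ hf hg hz l hl

theorem modelK (f : Fin m → ℤ[X]) (hdeg : ∀ l, 1 ≤ (f l).natDegree) (i j : Fin m)
    (hi : (f i).natDegree = 1) (hj : (f j).natDegree = 1)
    (hdet : (f i).coeff 1 * (f j).coeff 0 ≠ (f j).coeff 1 * (f i).coeff 0)
    (g : Fin m' → ℤ[X]) (n₀ Q : ℕ) (hQ : 1 ≤ Q) (hf : ∀ l, (f l).eval (n₀ : ℤ) ≠ 0)
    (hg : ∀ l, (g l).eval (n₀ : ℤ) ≠ 0)
    (hG : ∀ l, g l ≠ 0 ∧ ∃ α : ℂ, aeval α (g l) = 0 ∧ ∀ l', aeval α (f l') ≠ 0) :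
    ∃ C t : ℕ, 1 ≤ t ∧ ∃ κ : ℝ, 0 < κ ∧ ∀ (s r : ℕ) (θ δ : ℝ), 1 ≤ s → 0 < θ → 0 < δ → ∃ c X₀ : ℕ, ∀ X : ℕ, X₀ ≤ X →
      κ / Real.log X ^ (∑ l, (f l).natDegree) ≤ VZ f (zMK f g n₀ Q) X ∧
      ∀ A B : ℕ, B ≤ X → θ * X ≤ (B : ℝ) - A →
        κ * ((B : ℝ) - A) * VZ f (zMK f g n₀ Q) X ≤ ((GMK f g n₀ Q i j C t X A B).card : ℝ) ∧
        ∀ χ : ℕ → Fin r, ∃ P : Finset (ℕ × ℕ),
          (∀ z ∈ P, 1 ≤ z.2 ∧ (z.2 : ℝ) ≤ Real.log X ^ c ∧
            ∀ l < s, z.1 + l * z.2 ∈ GMK f g n₀ Q i j C t X A B ∧ χ (z.1 + l * z.2) = χ z.1) ∧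
          (P : Set (ℕ × ℕ)).PairwiseDisjoint (apSet s) ∧
          (((GMK f g n₀ Q i j C t X A B \ P.biUnion (apSet s)).card : ℕ) : ℝ) ≤
            δ * ((B : ℝ) - A) * VZ f (zMK f g n₀ Q) X := by
  classical
  obtain ⟨h, u, S, hloc, hmodh, hmodu, hu, hGu⟩ := model_two f g n₀ Q hQ hf hg hG
  have hVZ : ∀ X, V h X = VZ f (zMK f g n₀ Q) X := fun X => by rw [S.V_eq, VM_fac]
  obtain ⟨M, hM⟩ : ∃ M : ℕ, M = (zMK f g n₀ Q).factorial ^ 2 := ⟨_, rfl⟩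
  rw [← hM] at S hu
  have hM1 : 1 ≤ M := S.hM
  have hdegh : ∀ l, (h l).natDegree = (f l).natDegree := fun l => S.deg l
  obtain ⟨C', t, ht, κ, hκ, HK⟩ := killP h (fun l => by rw [hdegh]; exact hdeg l) hloc i j
    (by rw [hdegh]; exact hi) (by rw [hdegh]; exact hj)
    (by
      have := S.ne hdet 1
      rwa [Polynomial.C_1, one_mul] at this)
    (by
      have := S.ne hdet (-1)
      rwa [Polynomial.C_neg, Polynomial.C_1, neg_one_mul] at this) (univ.image u) (by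
      intro q hq
      obtain ⟨l, _, rfl⟩ := mem_image.1 hq
      exact hGu l)
  have hsum : ∑ l, (h l).natDegree = ∑ l, (f l).natDegree := sum_congr rfl fun l _ => hdegh l
  simp only [hsum, hVZ] at HK
  obtain ⟨D, hD⟩ : ∃ D : ℕ, D = ∑ l, (f l).natDegree := ⟨_, rfl⟩
  rw [← hD] at HK ⊢
  have hM0 : (0 : ℝ) < M := by exact_mod_cast hM1
  refine ⟨C', t, ht, κ / (2 * M), by positivity, fun s r θ δ hs hθ hδ => ?_⟩
  obtain ⟨c₁, X₁, h1⟩ := HK s r (θ / (2 * M)) δ hs (by positivity) hδ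
  obtain ⟨N₁, hN₁⟩ := exists_nat_gt ((4 * M + 2 * n₀) / θ)
  obtain ⟨c, X₂, h2⟩ := cover_z f D t (zMK f g n₀ Q) s r ht hs hD.ge (loc_zK hQ hf hg) (1 / 2) δ (by norm_num) hδ
  obtain ⟨X₃, h3⟩ := eventually_atTop.1 (long_short θ hθ)
  refine ⟨c, max (max X₁ (max N₁ 3)) (max X₂ X₃), fun X hX => ?_⟩
  have hX1 : X₁ ≤ X := (le_max_left _ _).trans ((le_max_left _ _).trans hX)
  have hXN : N₁ ≤ X := (le_max_left _ _).trans ((le_max_right _ _).trans ((le_max_left _ _).trans hX))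
  have hX3 : 3 ≤ X := (le_max_right _ _).trans ((le_max_right _ _).trans ((le_max_left _ _).trans hX))
  have hX2 : X₂ ≤ X := (le_max_left _ _).trans ((le_max_right _ _).trans hX)
  have hX3' : X₃ ≤ X := (le_max_right _ _).trans ((le_max_right _ _).trans hX)
  have hX0 : (0 : ℝ) < X := by exact_mod_cast (by omega : 0 < X)
  have hlog : 0 < Real.log X := Real.log_pos (by exact_mod_cast (by omega : 1 < X))
  obtain ⟨hVl, hcnt⟩ := h1 X hX1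
  have hV0 : 0 < VZ f (zMK f g n₀ Q) X := lt_of_lt_of_le (by positivity) hVl
  refine ⟨le_trans ?_ hVl, fun A B hB hAB => ?_⟩
  · apply div_le_div_of_nonneg_right _ (by positivity)
    rw [div_le_iff₀ (by positivity)]
    have : (1 : ℝ) ≤ M := by exact_mod_cast hM1
    nlinarith
  have hBA0 : 0 < (B : ℝ) - A := lt_of_lt_of_le (by positivity) hAB
  constructor
  · have hsize : 4 * (M : ℝ) + 2 * n₀ ≤ θ * X := by
      have h2 : (4 * M + 2 * n₀) / θ ≤ X := by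
        have : (N₁ : ℝ) ≤ X := by exact_mod_cast hXN
        linarith
      have h3 := (div_le_iff₀ hθ).1 h2
      linarith
    obtain ⟨A', B', hB'B, hlen, hcard⟩ := transfer hM1 (fun A' B' => GK h (univ.image u) i j C' t X A' B')
      (fun A B => GMK f g n₀ Q i j C' t X A B) (fun A' B' => filter_subset _ _) (by
        intro A' B' A B y hy hA hB
        unfold GK at hy
        rw [mem_filter] at hy
        obtain ⟨_, y3, y4, y5, y6⟩ := hy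
        unfold GMK
        rw [mem_filter, mem_Ioc]
        refine ⟨⟨hA, hB⟩, ⟨fun l => (h l).eval (y : ℤ), fun l => ⟨?_, hmodh l y, ?_⟩, y3, y4⟩, fun l =>
          ⟨(u l).eval (y : ℤ), ?_, hmodu l y, y6 _ (mem_image_of_mem _ (mem_univ l))⟩⟩
        · rw [S.eval]
          push_cast
          rfl
        · have := y5 l
          rwa [hdegh] at this
        · rw [← hu]
          push_cast
          rfl) A B (hsize.trans hAB)
    have hθ' : θ / (2 * M) * X ≤ (B' : ℝ) - A' := by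
      refine le_trans ?_ hlen
      rw [div_mul_eq_mul_div]
      exact div_le_div_of_nonneg_right hAB (by positivity)
    have h4 := (hcnt A' B' (hB'B.trans hB) hθ').1
    have hcard' : ((GK h (univ.image u) i j C' t X A' B').card : ℝ) ≤ (GMK f g n₀ Q i j C' t X A B).card := by
      exact_mod_cast hcard
    refine le_trans ?_ (h4.trans hcard')
    calc κ / (2 * M) * ((B : ℝ) - A) * VZ f (zMK f g n₀ Q) X = κ * (((B : ℝ) - A) / (2 * M)) * VZ f (zMK f g n₀ Q) X := by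
          field_simp
      _ ≤ κ * ((B' : ℝ) - A') * VZ f (zMK f g n₀ Q) X := by
          apply mul_le_mul_of_nonneg_right _ hV0.le
          exact mul_le_mul_of_nonneg_left hlen hκ.le
  · refine h2 X hX2 hV0 A B hB ((h3 X hX3').trans hAB) _ (filter_subset _ _) ?_
    intro x hx l q hq hzq hd
    unfold GMK at hx
    rw [mem_filter] at hx
    obtain ⟨⟨v, hv, _⟩, _⟩ := hx.2
    obtain ⟨hv1, _, hv3⟩ := hv l
    rw [hv1] at hd
    rcases (Nat.prime_iff_prime_int.1 hq).dvd_or_dvd hd with h6 | h6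
    · exact absurd h6 (zMK_lt hQ hf hg hzq l)
    · exact hv3.2.2 q hq h6

theorem modelKS (f : Fin m → ℤ[X]) (hm : 0 < m) (hdeg : ∀ l, 1 ≤ (f l).natDegree)
    (g : Fin m' → ℤ[X]) (n₀ Q : ℕ) (hQ : 1 ≤ Q) (hf : ∀ l, (f l).eval (n₀ : ℤ) ≠ 0)
    (hg : ∀ l, (g l).eval (n₀ : ℤ) ≠ 0)
    (hG : ∀ l, g l ≠ 0 ∧ ∃ α : ℂ, aeval α (g l) = 0 ∧ ∀ l', aeval α (f l') ≠ 0) (ε : ℝ) (hε : 0 < ε) :
    ∃ C t : ℕ, 1 ≤ t ∧ ∃ κ : ℝ, 0 < κ ∧ ∀ (s r : ℕ) (δ : ℝ), 1 ≤ s → 0 < δ → ∃ c X₀ : ℕ, ∀ X : ℕ, X₀ ≤ X →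
      κ / Real.log X ^ (∑ l, (f l).natDegree) ≤ VZ f (zMK f g n₀ Q) X ∧
      ∀ A B : ℕ, B ≤ X → (X : ℝ) ^ ε ≤ (B : ℝ) - A →
        κ * ((B : ℝ) - A) * VZ f (zMK f g n₀ Q) X ≤ ((GMKS f g n₀ Q C t X A B).card : ℝ) ∧
        ∀ χ : ℕ → Fin r, ∃ P : Finset (ℕ × ℕ),
          (∀ z ∈ P, 1 ≤ z.2 ∧ (z.2 : ℝ) ≤ Real.log X ^ c ∧
            ∀ l < s, z.1 + l * z.2 ∈ GMKS f g n₀ Q C t X A B ∧ χ (z.1 + l * z.2) = χ z.1) ∧
          (P : Set (ℕ × ℕ)).PairwiseDisjoint (apSet s) ∧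
          (((GMKS f g n₀ Q C t X A B \ P.biUnion (apSet s)).card : ℕ) : ℝ) ≤
            δ * ((B : ℝ) - A) * VZ f (zMK f g n₀ Q) X := by
  classical
  obtain ⟨h, u, S, hloc, hmodh, hmodu, hu, hGu⟩ := model_two f g n₀ Q hQ hf hg hG
  have hVZ : ∀ X, V h X = VZ f (zMK f g n₀ Q) X := fun X => by rw [S.V_eq, VM_fac]
  obtain ⟨M, hM⟩ : ∃ M : ℕ, M = (zMK f g n₀ Q).factorial ^ 2 := ⟨_, rfl⟩
  rw [← hM] at S hu
  have hM1 : 1 ≤ M := S.hM
  have hdegh : ∀ l, (h l).natDegree = (f l).natDegree := fun l => S.deg l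
  obtain ⟨C', t, ht, κ, KU, hκ, hKU, HK⟩ := killS h hm (fun l => by rw [hdegh]; exact hdeg l) hloc
    (univ.image u) (by
      intro q hq
      obtain ⟨l, _, rfl⟩ := mem_image.1 hq
      exact hGu l) (ε / 2) (by positivity)
  have hsum : ∑ l, (h l).natDegree = ∑ l, (f l).natDegree := sum_congr rfl fun l _ => hdegh l
  simp only [hsum, hVZ] at HK
  obtain ⟨D, hD⟩ : ∃ D : ℕ, D = ∑ l, (f l).natDegree := ⟨_, rfl⟩
  rw [← hD] at HK ⊢
  have hM0 : (0 : ℝ) < M := by exact_mod_cast hM1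
  refine ⟨C', t, ht, κ / (2 * M), by positivity, fun s r δ hs hδ => ?_⟩
  obtain ⟨c₁, X₁, h1⟩ := HK s r δ hs hδ
  have hpow : ∀ M : ℝ, ∀ a : ℝ, 0 < a → ∀ᶠ n : ℕ in atTop, M < (n : ℝ) ^ a := fun M a ha =>
    ((tendsto_rpow_atTop ha).comp tendsto_natCast_atTop_atTop).eventually (eventually_gt_atTop M)
  obtain ⟨N₁, hN₁⟩ := eventually_atTop.1 (hpow (4 * M + 2 * n₀) (ε / 2) (by positivity))
  obtain ⟨c, X₂, h2⟩ := cover_z f D t (zMK f g n₀ Q) s r ht hs hD.ge (loc_zK hQ hf hg) ε δ hε hδ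
  refine ⟨c, max (max X₁ (max N₁ 3)) X₂, fun X hX => ?_⟩
  have hX1 : X₁ ≤ X := (le_max_left _ _).trans ((le_max_left _ _).trans hX)
  have hXN : N₁ ≤ X := (le_max_left _ _).trans ((le_max_right _ _).trans ((le_max_left _ _).trans hX))
  have hX3 : 3 ≤ X := (le_max_right _ _).trans ((le_max_right _ _).trans ((le_max_left _ _).trans hX))
  have hX2 : X₂ ≤ X := (le_max_right _ _).trans hX
  have hX0 : (0 : ℝ) < X := by exact_mod_cast (by omega : 0 < X)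
  have hXr : (1 : ℝ) ≤ X := by exact_mod_cast (by omega : 1 ≤ X)
  have hlog : 0 < Real.log X := Real.log_pos (by exact_mod_cast (by omega : 1 < X))
  obtain ⟨hVl, hcnt⟩ := h1 X hX1
  have hV0 : 0 < VZ f (zMK f g n₀ Q) X := lt_of_lt_of_le (by positivity) hVl
  refine ⟨le_trans ?_ hVl, fun A B hB hAB => ?_⟩
  · apply div_le_div_of_nonneg_right _ (by positivity)
    rw [div_le_iff₀ (by positivity)]
    have : (1 : ℝ) ≤ M := by exact_mod_cast hM1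
    nlinarith
  have hε2 : (X : ℝ) ^ (ε / 2) * (X : ℝ) ^ (ε / 2) = (X : ℝ) ^ ε := by
    rw [← Real.rpow_add hX0]
    congr 1
    ring
  have hsize : 4 * (M : ℝ) + 2 * n₀ ≤ (X : ℝ) ^ (ε / 2) := (hN₁ X hXN).le
  have hBA0 : 0 < (B : ℝ) - A := lt_of_lt_of_le (by positivity) hAB
  have hrr : (0 : ℝ) ≤ n₀ := Nat.cast_nonneg _
  have hpos : (1 : ℝ) ≤ (X : ℝ) ^ (ε / 2) := Real.one_le_rpow hXr (by positivity)
  have hAB2 : (X : ℝ) ^ (ε / 2) ≤ (B : ℝ) - A := by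
    refine le_trans ?_ hAB
    rw [← hε2]
    nlinarith
  constructor
  · obtain ⟨A', B', hB'B, hlen, hcard⟩ := transfer hM1 (fun A' B' => GS h (univ.image u) C' t X A' B')
      (fun A B => GMKS f g n₀ Q C' t X A B) (fun A' B' => filter_subset _ _) (by
        intro A' B' A B y hy hA hB
        unfold GS at hy
        rw [mem_filter] at hy
        obtain ⟨_, y5, y6⟩ := hy
        unfold GMKS
        rw [mem_filter, mem_Ioc]
        refine ⟨⟨hA, hB⟩, ⟨fun l => (h l).eval (y : ℤ), fun l => ⟨?_, hmodh l y, ?_⟩⟩, fun l =>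
          ⟨(u l).eval (y : ℤ), ?_, hmodu l y, y6 _ (mem_image_of_mem _ (mem_univ l))⟩⟩
        · rw [S.eval]
          push_cast
          rfl
        · have := y5 l
          rwa [hdegh] at this
        · rw [← hu]
          push_cast
          rfl) A B (hsize.trans hAB2)
    have hθ' : (X : ℝ) ^ (ε / 2) ≤ (B' : ℝ) - A' := by
      refine le_trans ?_ hlen
      rw [le_div_iff₀ (by positivity)]
      calc (X : ℝ) ^ (ε / 2) * (2 * M) ≤ (X : ℝ) ^ (ε / 2) * (X : ℝ) ^ (ε / 2) := by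
            apply mul_le_mul_of_nonneg_left _ (by positivity)
            linarith
        _ ≤ (B : ℝ) - A := by rw [hε2]; exact hAB
    have h4 := (hcnt A' B' (hB'B.trans hB) hθ').1
    have hcard' : ((GS h (univ.image u) C' t X A' B').card : ℝ) ≤ (GMKS f g n₀ Q C' t X A B).card := by
      exact_mod_cast hcard
    refine le_trans ?_ (h4.trans hcard')
    calc κ / (2 * M) * ((B : ℝ) - A) * VZ f (zMK f g n₀ Q) X = κ * (((B : ℝ) - A) / (2 * M)) * VZ f (zMK f g n₀ Q) X := by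
          field_simp
      _ ≤ κ * ((B' : ℝ) - A') * VZ f (zMK f g n₀ Q) X := by
          apply mul_le_mul_of_nonneg_right _ hV0.le
          exact mul_le_mul_of_nonneg_left hlen hκ.le
  · refine h2 X hX2 hV0 A B hB hAB _ (filter_subset _ _) ?_
    intro x hx l q hq hzq hd
    unfold GMKS at hx
    rw [mem_filter] at hx
    obtain ⟨⟨v, hv⟩, _⟩ := hx.2
    obtain ⟨hv1, _, hv3⟩ := hv l
    rw [hv1] at hd
    rcases (Nat.prime_iff_prime_int.1 hq).dvd_or_dvd hd with h6 | h6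
    · exact absurd h6 (zMK_lt hQ hf hg hzq l)
    · exact hv3.2.2 q hq h6

end Pool.Agent.X32.Uni
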