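import Pool.Agent.X32.Uni.Five

/-!
Multipliers `a n + 1` at primes `n`: prescribed smooth parts.
-/

set_option autoImplicit false

namespace Pool.Agent.X32.Uni

open Finset
open Polynomial (C X aeval)
open scoped Polynomial

variable {k : ℕ}

/-- the value `a x + c` for `z = (a, c)` -/
def vL2 (z : ℤ × ℤ) (x : ℤ) : ℤ := z.1 * x + z.2

/-- the polynomial -/
noncomputable def pL2 (z : ℤ × ℤ) : ℤ[X] := C z.1 * X + C z.2

theorem pL2_eval (z : ℤ × ℤ) (x : ℤ) : (pL2 z).eval x = vL2 z x := by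
  unfold pL2 vL2
  simp

theorem pL2_deg (z : ℤ × ℤ) (hz : z.1 ≠ 0) : (pL2 z).natDegree = 1 := by
  unfold pL2
  exact Polynomial.natDegree_linear hz

theorem pL2_coeff (z : ℤ × ℤ) : (pL2 z).coeff 1 = z.1 ∧ (pL2 z).coeff 0 = z.2 := by
  unfold pL2
  constructor
  · rw [Polynomial.coeff_add, Polynomial.coeff_C_mul, Polynomial.coeff_X_one, Polynomial.coeff_C, if_neg one_ne_zero,
      mul_one, add_zero]
  · rw [Polynomial.coeff_add, Polynomial.coeff_C_mul, Polynomial.coeff_X_zero, Polynomial.coeff_C_zero, mul_zero,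
      zero_add]

/-- the linear forms with nonproportional coefficients have different zeros -/
theorem pL2_root (z s : ℤ × ℤ) (hz : z.1 ≠ 0) (hdet : s.1 * z.2 ≠ z.1 * s.2) :
    aeval (-(z.2 : ℂ) / z.1) (pL2 z) = 0 ∧ aeval (-(z.2 : ℂ) / z.1) (pL2 s) ≠ 0 := by
  have hz0 : (z.1 : ℂ) ≠ 0 := by exact_mod_cast hz
  unfold pL2
  simp only [map_add, map_mul, Polynomial.aeval_C, Polynomial.aeval_X]
  have h1 : ∀ a : ℤ, (algebraMap ℤ ℂ) a = (a : ℂ) := fun a => rfl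
  rw [h1, h1, h1, h1]
  constructor
  · field_simp
    ring
  · intro h
    apply hdet
    field_simp at h
    have h2 : (s.1 : ℂ) * z.2 = z.1 * s.2 := by linear_combination -h
    exact_mod_cast h2

/-- `ω(p)` -/
noncomputable def omM (a : Fin k → ℕ) (p : ℕ) : ℕ :=
  ((range p).filter (fun x : ℕ => (p : ℤ) ∣ (x : ℤ) * ∏ l, ((a l : ℤ) * x + 1))).card

/-- the product of `1 - ω(p) / p` over the primes of `(z, X]` -/
noncomputable def VMu (a : Fin k → ℕ) (z X : ℕ) : ℝ := ∏ p ∈ (Ioc z X).filter Nat.Prime, (1 - (omM a p : ℝ) / p)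

open Classical in
/-- the good primes -/
noncomputable def GMu (a : Fin k → ℕ) (j : Fin k) (R n₀ z Q C t X A B : ℕ) : Finset ℕ :=
  (Ioc A B).filter (fun n : ℕ => n ≡ n₀ [MOD Q] ∧ (n.Prime ∧ (X : ℝ) ^ (1 / (t : ℝ)) < n ∧ ∃ w : Fin k → ℤ,
    (∀ l, (a l : ℤ) * n + 1 = sm z ((a l : ℤ) * n₀ + 1) * w l ∧ Almost t ((X : ℝ) ^ (1 / (t : ℝ))) (w l)) ∧
    Almost 2 ((X : ℝ) ^ (1 / 9 : ℝ)) (w j)) ∧
    ∀ b : ℕ, 1 ≤ b → b ≤ R → (∀ l, a l ≠ b) →
      ∃ w : ℤ, (b : ℤ) * n + 1 = sm z ((b : ℤ) * n₀ + 1) * w ∧ ∃ q : ℕ, q.Prime ∧ z < q ∧ q ≤ C ∧ (q : ℤ) ∣ w)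

/-- the members -/
def SMu (a : Fin k → ℕ) : Fin (k + 1) → ℤ × ℤ := Fin.cons (1, 0) (fun l => ((a l : ℤ), 1))

theorem SMu0 (a : Fin k → ℕ) : SMu a 0 = (1, 0) := rfl
theorem SMus (a : Fin k → ℕ) (l : Fin k) : SMu a l.succ = ((a l : ℤ), 1) := rfl

/-- the other multipliers -/
def TMu (a : Fin k → ℕ) (R : ℕ) : Finset (ℤ × ℤ) :=
  ((Icc 1 R).filter (fun b => ∀ l, a l ≠ b)).image (fun b : ℕ => ((b : ℤ), (1 : ℤ)))

theorem TMu_forall {a : Fin k → ℕ} {R : ℕ} {P : ℤ × ℤ → Prop} :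
    (∀ τ ∈ TMu a R, P τ) ↔ ∀ b : ℕ, 1 ≤ b → b ≤ R → (∀ l, a l ≠ b) → P ((b : ℤ), 1) := by
  unfold TMu
  constructor
  · intro h b h1 h2 h3
    exact h _ (mem_image_of_mem _ (mem_filter.2 ⟨mem_Icc.2 ⟨h1, h2⟩, h3⟩))
  · intro h τ hτ
    obtain ⟨b, hb, rfl⟩ := mem_image.1 hτ
    rw [mem_filter, mem_Icc] at hb
    exact h b hb.1.1 hb.1.2 hb.2

theorem omM_eq (a : Fin k → ℕ) (p : ℕ) : omF vL2 (SMu a) p = omM a p := by
  unfold omF omM
  congr 1
  apply filter_congr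
  intro x _
  rw [Fin.prod_univ_succ]
  simp only [SMu0, SMus, vL2, one_mul, add_zero]

theorem VMu_eq (a : Fin k → ℕ) (z X : ℕ) : VFZ vL2 (SMu a) z X = VMu a z X := by
  unfold VFZ VMu
  exact prod_congr rfl fun p _ => by rw [omM_eq]

theorem GMu_eq (a : Fin k → ℕ) (j : Fin k) (R n₀ z Q C t X A B : ℕ)
    (hn₀ : ∀ p : ℕ, p.Prime → p ≤ z → ¬ p ∣ n₀) (ht : 1 ≤ t) :
    GFZ vL2 (fun _ => 1) (SMu a) (TMu a R) 0 j.succ n₀ z Q C t X A B = GMu a j R n₀ z Q C t X A B := by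
  classical
  have hs0 : sm z (n₀ : ℤ) = 1 := by
    exact sm_one fun p hp hpz hd => hn₀ p hp hpz (Int.natCast_dvd_natCast.1 hd)
  ext n
  unfold GFZ GMu
  rw [mem_filter, mem_filter]
  refine and_congr_right fun hn => and_congr_right fun hn1 => ?_
  rw [TMu_forall]
  refine and_congr ?_ Iff.rfl
  simp only [Fin.forall_fin_succ, SMu0, SMus, vL2, one_mul, add_zero, hs0, Nat.cast_one]
  constructor
  · rintro ⟨w, ⟨⟨h0, h0'⟩, h1⟩, h2, h3⟩
    have hw0 : w 0 = n := h0.symm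
    rw [hw0] at h2 h0'
    rw [Int.natAbs_natCast] at h2
    exact ⟨h2, (almost_prime ht h2).1 h0', fun l => w l.succ, h1, h3⟩
  · rintro ⟨h1, h2, w, h3, h4⟩
    refine ⟨Fin.cons (n : ℤ) w, ⟨⟨?_, ?_⟩, ?_⟩, ?_, ?_⟩
    · rw [Fin.cons_zero]
    · rw [Fin.cons_zero]
      exact (almost_prime ht h1).2 h2
    · intro l
      rw [Fin.cons_succ]
      exact h3 l
    · rw [Fin.cons_zero, Int.natAbs_natCast]
      exact h1
    · rw [Fin.cons_succ]
      exact h4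

theorem mulM (a : Fin k → ℕ) (ha : ∀ l, 1 ≤ a l) (j : Fin k) (R n₀ z Q : ℕ) (hz : k + 1 ≤ z)
    (hn₀ : ∀ p : ℕ, p.Prime → p ≤ z → ¬ p ∣ n₀) (hQ : 1 ≤ Q) (hQz : ∀ p : ℕ, p.Prime → p ∣ Q → p ≤ z) :
    ∃ C t : ℕ, 1 ≤ t ∧ ∃ κ : ℝ, 0 < κ ∧ ∀ (s r : ℕ) (θ δ : ℝ), 1 ≤ s → 0 < θ → 0 < δ → ∃ c X₀ : ℕ, ∀ X : ℕ, X₀ ≤ X →
      κ / Real.log X ^ (k + 1) ≤ VMu a z X ∧ ∀ A B : ℕ, B ≤ X → θ * X ≤ (B : ℝ) - A →
        κ * ((B : ℝ) - A) * VMu a z X ≤ ((GMu a j R n₀ z Q C t X A B).card : ℝ) ∧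
        ∀ χ : ℕ → Fin r, ∃ P : Finset (ℕ × ℕ),
          (∀ τ ∈ P, 1 ≤ τ.2 ∧ (τ.2 : ℝ) ≤ Real.log X ^ c ∧
            ∀ l < s, τ.1 + l * τ.2 ∈ GMu a j R n₀ z Q C t X A B ∧ χ (τ.1 + l * τ.2) = χ τ.1) ∧
          (P : Set (ℕ × ℕ)).PairwiseDisjoint (apSet s) ∧
          (((GMu a j R n₀ z Q C t X A B \ P.biUnion (apSet s)).card : ℕ) : ℝ) ≤ δ * ((B : ℝ) - A) * VMu a z X := by
  classical
  have hn0 : 0 < n₀ := by
    rcases Nat.eq_zero_or_pos n₀ with h | h
    · exfalso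
      have hk : 0 < k := j.pos
      exact hn₀ 2 Nat.prime_two (by omega) (by rw [h]; exact dvd_zero _)
    · exact h
  have hn0z : (0 : ℤ) < n₀ := by exact_mod_cast hn0
  have ha1 : ∀ l, (SMu a l).1 ≠ 0 := by
    intro l
    refine Fin.cases ?_ (fun l => ?_) l
    · rw [SMu0]
      norm_num
    · rw [SMus]
      have := ha l
      simp only
      exact_mod_cast (by omega : a l ≠ 0)
  obtain ⟨C, t, ht, κ, hκ, H⟩ := famZ pL2 vL2 pL2_eval (fun _ => 1) (SMu a) (fun l => pL2_deg _ (ha1 l))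
    (fun _ => le_rfl) (k + 1) (by simp) 0 j.succ rfl rfl (by
      rw [(pL2_coeff _).1, (pL2_coeff _).1, (pL2_coeff _).2, (pL2_coeff _).2, SMu0, SMus]
      norm_num) (TMu a R) n₀ z Q hQ hQz (by
      intro l
      refine Fin.cases ?_ (fun l => ?_) l
      · rw [SMu0]
        unfold vL2
        simp
        omega
      · rw [SMus]
        unfold vL2
        positivity) (by
      rw [TMu_forall]
      intro b _ _ _
      unfold vL2
      positivity) (by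
      intro p hp hzp
      -- counting zeros
      have : Fact p.Prime := ⟨hp⟩
      by_contra hcon
      push Not at hcon
      have hroots : (range p) ⊆ univ.biUnion (fun l : Fin (k + 1) =>
          (range p).filter (fun x : ℕ => (p : ℤ) ∣ vL2 (SMu a l) x)) := by
        intro x hx
        obtain ⟨l, hl⟩ := hcon x
        exact mem_biUnion.2 ⟨l, mem_univ _, mem_filter.2 ⟨hx, hl⟩⟩
      have h1 : ∀ l : Fin (k + 1), ((range p).filter (fun x : ℕ => (p : ℤ) ∣ vL2 (SMu a l) x)).card ≤ 1 := by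
        intro l
        rw [card_le_one]
        intro x hx y hy
        rw [mem_filter, mem_range] at hx hy
        have h2 := dvd_sub hx.2 hy.2
        have h3 : vL2 (SMu a l) x - vL2 (SMu a l) y = (SMu a l).1 * ((x : ℤ) - y) := by
          unfold vL2
          ring
        rw [h3] at h2
        rcases (Nat.prime_iff_prime_int.1 hp).dvd_or_dvd h2 with h4 | h4
        · exfalso
          -- then `p` divides the constant term too
          have h5 : (p : ℤ) ∣ (SMu a l).2 := by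
            have h6 := hx.2
            unfold vL2 at h6
            exact (dvd_add_right (h4.mul_right _)).1 h6
          revert h4 h5
          refine Fin.cases ?_ (fun l => ?_) l
          · rw [SMu0]
            intro h4 _
            exact (Nat.prime_iff_prime_int.1 hp).not_isUnit (isUnit_of_dvd_one h4)
          · rw [SMus]
            intro _ h5
            exact (Nat.prime_iff_prime_int.1 hp).not_isUnit (isUnit_of_dvd_one h5)
        · have h5 : (y : ℤ) ≡ x [ZMOD p] := Int.modEq_iff_dvd.2 h4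
          exact (Nat.ModEq.eq_of_lt_of_lt (Int.natCast_modEq_iff.1 h5) hy.1 hx.1).symm
      have h2 := (card_le_card hroots).trans card_biUnion_le
      rw [card_range] at h2
      have h3 : ∑ l : Fin (k + 1), ((range p).filter (fun x : ℕ => (p : ℤ) ∣ vL2 (SMu a l) x)).card ≤ ∑ _l : Fin (k + 1), 1 :=
        sum_le_sum fun l _ => h1 l
      simp at h3
      omega) (by
      rw [TMu_forall]
      intro b hb1 _ hb3
      have hb0 : ((b : ℤ), (1 : ℤ)).1 ≠ 0 := by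
        simp only
        exact_mod_cast (by omega : b ≠ 0)
      have hdet : ∀ l, (SMu a l).1 * ((b : ℤ), (1 : ℤ)).2 ≠ ((b : ℤ), (1 : ℤ)).1 * (SMu a l).2 := by
        intro l
        refine Fin.cases ?_ (fun l => ?_) l
        · rw [SMu0]
          norm_num
        · rw [SMus]
          simp only [mul_one]
          exact_mod_cast hb3 l
      refine ⟨fun h => ?_, _, (pL2_root _ _ hb0 (hdet 0)).1, fun l => (pL2_root _ _ hb0 (hdet l)).2⟩
      have := pL2_deg _ hb0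
      rw [h, Polynomial.natDegree_zero] at this
      omega)
  refine ⟨C, t, ht, κ, hκ, fun s r θ δ hs hθ hδ => ?_⟩
  obtain ⟨c, X₀, hX⟩ := H s r θ δ hs hθ hδ
  refine ⟨c, X₀, fun X hXX => ?_⟩
  have := hX X hXX
  simp only [VMu_eq, GMu_eq a j R n₀ z Q C t X _ _ hn₀ ht] at this
  exact this

end Pool.Agent.X32.Uni
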