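import Pool.Agent.X32.Uni.LinC

/-!
The numbers `2 k p + 1` with almost prime `k` in short intervals.
-/

set_option autoImplicit false

namespace Pool.Agent.X32.Uni

open Finset Filter
open Polynomial (C X)
open scoped Polynomial

/-- the number of zeros of `∏ (x + j) ∏ (2 p x + j)` -/
noncomputable def omMu (p L q : ℕ) : ℕ :=
  ((range q).filter fun x : ℕ => (q : ℤ) ∣ (∏ j ∈ Icc (-(L : ℤ)) L, ((x : ℤ) + j)) *
    ∏ j ∈ (Icc (-(L : ℤ)) L).erase 0, (2 * p * (x : ℤ) + j)).card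

/-- the local factors at the primes in `(z, p]` -/
noncomputable def VMu (p L z : ℕ) : ℝ :=
  ∏ q ∈ (Ioc z p).filter Nat.Prime, (1 - (omMu p L q : ℝ) / q)

open Classical in
/-- the good arguments -/
noncomputable def GMu (p L z G t A B : ℕ) : Finset ℕ :=
  (Ioc A B).filter (fun k : ℕ => Almost t ((p : ℝ) ^ (1 / (t : ℝ))) (k : ℤ) ∧
    Almost t ((p : ℝ) ^ (1 / (t : ℝ))) (2 * p * (k : ℤ) + 1) ∧
    ∀ j : ℤ, |j| ≤ L → Near z G t ((p : ℝ) ^ (1 / (t : ℝ))) ((k : ℤ) + j) ∧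
      (j ≠ 0 → Near z G t ((p : ℝ) ^ (1 / (t : ℝ))) (2 * p * (k : ℤ) + j)))

theorem multS (L : ℕ) (hL : 1 ≤ L) (ε : ℝ) (hε : 0 < ε) :
    ∃ z G t : ℕ, 1 ≤ t ∧ ∃ κ KU : ℝ, 0 < κ ∧ 0 < KU ∧ ∀ (s ρ : ℕ) (δ : ℝ),
    1 ≤ s → 0 < δ → ∃ c p₀ : ℕ, ∀ p : ℕ, p₀ ≤ p →
      κ / Real.log p ^ (4 * L + 1) ≤ VMu p L z ∧
      ∀ A B : ℕ, B ≤ p → (p : ℝ) ^ ε ≤ (B : ℝ) - A →
        κ * ((B : ℝ) - A) * VMu p L z ≤ ((GMu p L z G t A B).card : ℝ) ∧
        ((GMu p L z G t A B).card : ℝ) ≤ KU * ((B : ℝ) - A) * VMu p L z ∧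
        ∀ χ : ℕ → Fin ρ, ∃ P : Finset (ℕ × ℕ),
          (∀ τ ∈ P, 1 ≤ τ.2 ∧ (τ.2 : ℝ) ≤ Real.log p ^ c ∧
            ∀ l < s, τ.1 + l * τ.2 ∈ GMu p L z G t A B ∧ χ (τ.1 + l * τ.2) = χ τ.1) ∧
          (P : Set (ℕ × ℕ)).PairwiseDisjoint (apSet s) ∧
          (((GMu p L z G t A B \ P.biUnion (apSet s)).card : ℕ) : ℝ) ≤ δ * ((B : ℝ) - A) * VMu p L z := by
  classical
  obtain ⟨z, G, t, ht, κ, KU, hκ, hKU, H⟩ := uncCS (4 * L + 1) (L + 1) 2 (by omega) (by omega) ε hε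
  refine ⟨z, G, t, ht, κ, KU, hκ, hKU, fun s ρ δ hs hδ => ?_⟩
  obtain ⟨c, X₀, h⟩ := H s ρ δ hs hδ
  refine ⟨c, max X₀ (L + 3), fun p hp => ?_⟩
  have hX0 : X₀ ≤ p := (le_max_left _ _).trans hp
  have hpL : L + 3 ≤ p := (le_max_right _ _).trans hp
  have hpz : (L : ℤ) + 3 ≤ p := by exact_mod_cast hpL
  obtain ⟨J, hJ⟩ : ∃ J : Finset ℤ, J = Icc (-(L : ℤ)) L := ⟨_, rfl⟩
  have hJm : ∀ j : ℤ, j ∈ J ↔ |j| ≤ L := by
    intro j
    rw [hJ, mem_Icc, abs_le]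
  have hJc : J.card = 2 * L + 1 := by
    rw [hJ, Int.card_Icc]
    omega
  obtain ⟨S1, hS1⟩ : ∃ S1 : Finset ℤ[X], S1 = J.image (fun j => lp 1 j) := ⟨_, rfl⟩
  obtain ⟨S2, hS2⟩ : ∃ S2 : Finset ℤ[X], S2 = (J.erase 0).image (fun j => lp (2 * p) j) := ⟨_, rfl⟩
  obtain ⟨T, hT⟩ : ∃ T : Finset ℤ[X], T = {lp 1 0, lp (2 * p) 1} := ⟨_, rfl⟩
  have h0J : (0 : ℤ) ∈ J := by rw [hJm]; simp
  have h1J : (1 : ℤ) ∈ J.erase 0 := by
    rw [mem_erase, hJm]
    refine ⟨one_ne_zero, ?_⟩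
    rw [abs_one]
    exact_mod_cast hL
  have hTS : T ⊆ S1 ∪ S2 := by
    intro f hf
    rw [hT, mem_insert, mem_singleton] at hf
    rw [mem_union, hS1, hS2, mem_image, mem_image]
    rcases hf with rfl | rfl
    · exact Or.inl ⟨0, h0J, rfl⟩
    · exact Or.inr ⟨1, h1J, rfl⟩
  have h2p : (2 * (p : ℤ)) ≠ 0 := by omega
  have hdeg : ∀ f ∈ S1 ∪ S2, f.natDegree = 1 := by
    intro f hf
    rw [mem_union, hS1, hS2, mem_image, mem_image] at hf
    rcases hf with ⟨j, _, rfl⟩ | ⟨j, _, rfl⟩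
    · exact lp_deg one_ne_zero
    · exact lp_deg h2p
  have hall : ∀ f ∈ S1 ∪ S2, 1 ≤ f.natDegree ∧ ContB (L + 1) f ∧ ∀ n, |f.coeff n| ≤ (p : ℤ) ^ 2 := by
    intro f hf
    refine ⟨(hdeg f hf).ge, ?_⟩
    rw [mem_union, hS1, hS2, mem_image, mem_image] at hf
    have e1 : (0 : ℤ) ≤ (p : ℤ) ^ 2 := by positivity
    have e2 : (L : ℤ) ≤ (p : ℤ) ^ 2 := by nlinarith [(by positivity : (0 : ℤ) ≤ L)]
    rcases hf with ⟨j, hj, rfl⟩ | ⟨j, hj, rfl⟩
    · rw [hJm] at hj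
      refine ⟨lp_contB_a one_ne_zero (by push_cast; simp), fun n => lp_size e1 ?_ ?_ n⟩
      · rw [abs_one]
        nlinarith [(by positivity : (0 : ℤ) ≤ L)]
      · exact hj.trans e2
    · rw [mem_erase, hJm] at hj
      refine ⟨lp_contB_b hj.1 (by push_cast; linarith [hj.2]), fun n => lp_size e1 ?_ ?_ n⟩
      · rw [abs_of_nonneg (by positivity)]
        nlinarith [(by positivity : (0 : ℤ) ≤ L)]
      · exact hj.2.trans e2
  have hsum : ∑ f ∈ S1 ∪ S2, f.natDegree ≤ 4 * L + 1 := by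
    rw [sum_congr rfl hdeg, sum_const, smul_eq_mul, mul_one]
    refine (card_union_le _ _).trans ?_
    have e1 : S1.card ≤ 2 * L + 1 := by
      rw [hS1, ← hJc]
      exact card_image_le
    have e2 : S2.card ≤ 2 * L := by
      rw [hS2]
      refine card_image_le.trans ?_
      rw [card_erase_of_mem h0J, hJc]
      omega
    omega
  have hdvd : ∀ (q : ℕ), q.Prime → ∀ x : ℤ, ((q : ℤ) ∣ ∏ f ∈ S1 ∪ S2, f.eval x) ↔
      (q : ℤ) ∣ (∏ j ∈ Icc (-(L : ℤ)) L, (x + j)) * ∏ j ∈ (Icc (-(L : ℤ)) L).erase 0, (2 * p * x + j) := by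
    intro q hq x
    have hpi := Nat.prime_iff_prime_int.1 hq
    rw [hpi.dvd_mul, hpi.dvd_finsetProd_iff, hpi.dvd_finsetProd_iff, hpi.dvd_finsetProd_iff, ← hJ]
    constructor
    · rintro ⟨f, hf, hd⟩
      rw [mem_union, hS1, hS2, mem_image, mem_image] at hf
      rcases hf with ⟨j, hj, rfl⟩ | ⟨j, hj, rfl⟩
      · left
        rw [lp_eval, one_mul] at hd
        exact ⟨j, hj, hd⟩
      · right
        rw [lp_eval] at hd
        exact ⟨j, hj, hd⟩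
    · rintro (⟨j, hj, hd⟩ | ⟨j, hj, hd⟩)
      · refine ⟨lp 1 j, ?_, by rwa [lp_eval, one_mul]⟩
        rw [mem_union, hS1]
        exact Or.inl (mem_image_of_mem _ hj)
      · refine ⟨lp (2 * p) j, ?_, by rwa [lp_eval]⟩
        rw [mem_union, hS2]
        exact Or.inr (mem_image_of_mem _ hj)
  have hloc : ∀ q : ℕ, q.Prime → ∃ x : ℤ, ¬ (q : ℤ) ∣ ∏ f ∈ T, f.eval x := by
    intro q hq
    have hpi := Nat.prime_iff_prime_int.1 hq
    have hTe : ∀ x : ℤ, ((q : ℤ) ∣ ∏ f ∈ T, f.eval x) ↔ (q : ℤ) ∣ x ∨ (q : ℤ) ∣ 2 * p * x + 1 := by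
      intro x
      rw [hpi.dvd_finsetProd_iff, hT]
      constructor
      · rintro ⟨f, hf, hd⟩
        rw [mem_insert, mem_singleton] at hf
        rcases hf with rfl | rfl
        · left
          rwa [lp_eval, one_mul, add_zero] at hd
        · right
          rwa [lp_eval] at hd
      · rintro (h | h)
        · exact ⟨lp 1 0, by simp, by rwa [lp_eval, one_mul, add_zero]⟩
        · exact ⟨lp (2 * p) 1, by simp, by rwa [lp_eval]⟩
    by_cases h2 : q = 2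
    · refine ⟨1, ?_⟩
      rw [hTe, h2]
      rintro (h | h) <;> omega
    · have h3 : 2 < q := lt_of_le_of_ne hq.two_le (Ne.symm h2)
      obtain ⟨r, hr⟩ := lin_avoid hq (a := 2 * p) (b := 1) (by
        rintro ⟨_, h⟩
        exact hpi.not_isUnit (isUnit_of_dvd_one h))
      obtain ⟨x, hx⟩ := avoid q 2 h3 ![0, r]
      refine ⟨x, ?_⟩
      rw [hTe]
      rintro (h | h)
      · apply hx 0
        simpa using h
      · exact hr x (by simpa using hx 1) h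
  have h1 := h p hX0 (S1 ∪ S2) T hTS hsum hall hloc
  have hV : VS (S1 ∪ S2) z p = VMu p L z := by
    unfold VS VMu
    apply prod_congr rfl fun q hq => ?_
    have : omS (S1 ∪ S2) q = omMu p L q := by
      unfold omS omMu
      congr 1
      apply filter_congr fun x _ => ?_
      exact hdvd q (mem_filter.1 hq).2 _
    rw [this]
  have hG : ∀ A B, GSc (S1 ∪ S2) T z G t p A B = GMu p L z G t A B := by
    intro A B
    unfold GSc GMu
    apply filter_congr fun k _ => ?_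
    constructor
    · rintro ⟨a, b⟩
      refine ⟨?_, ?_, fun j hj => ⟨?_, fun hj0 => ?_⟩⟩
      · have := a (lp 1 0) (by rw [hT]; simp)
        rwa [lp_eval, one_mul, add_zero] at this
      · have := a (lp (2 * p) 1) (by rw [hT]; simp)
        rwa [lp_eval] at this
      · have := b (lp 1 j) (by rw [mem_union, hS1]; exact Or.inl (mem_image_of_mem _ ((hJm j).2 hj)))
        rwa [lp_eval, one_mul] at this
      · have := b (lp (2 * p) j) (by
          rw [mem_union, hS2]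
          exact Or.inr (mem_image_of_mem _ (mem_erase.2 ⟨hj0, (hJm j).2 hj⟩)))
        rwa [lp_eval] at this
    · rintro ⟨a1, a2, b⟩
      refine ⟨fun f hf => ?_, fun f hf => ?_⟩
      · rw [hT, mem_insert, mem_singleton] at hf
        rcases hf with rfl | rfl
        · rwa [lp_eval, one_mul, add_zero]
        · rwa [lp_eval]
      · rw [mem_union, hS1, hS2, mem_image, mem_image] at hf
        rcases hf with ⟨j, hj, rfl⟩ | ⟨j, hj, rfl⟩
        · rw [lp_eval, one_mul]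
          exact (b j ((hJm j).1 hj)).1
        · rw [mem_erase] at hj
          rw [lp_eval]
          exact (b j ((hJm j).1 hj.2)).2 hj.1
  rw [hV] at h1
  simp only [hG] at h1
  exact h1

end Pool.Agent.X32.Uni
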