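import Pool.Agent.X32.Uni.Model3

/-!
All the numbers near the squares at once.
-/

set_option autoImplicit false

namespace Pool.Agent.X32.Uni

open Finset
open Polynomial (C X)
open scoped Polynomial

variable {k : ℕ}

/-- the system `x, x + b, x ^ 2 + a_l` -/
noncomputable def fN (a : Fin k → ℤ) (b : ℤ) : Fin (k + 2) → ℤ[X] :=
  Fin.cons X (Fin.cons (X + C b) (fun l => X ^ 2 + C (a l)))

theorem fN_zero (a : Fin k → ℤ) (b : ℤ) : fN a b 0 = X := rfl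

theorem fN_one (a : Fin k → ℤ) (b : ℤ) : fN a b 1 = X + C b := rfl

theorem fN_succ (a : Fin k → ℤ) (b : ℤ) (l : Fin k) : fN a b l.succ.succ = X ^ 2 + C (a l) := rfl

theorem fN_forall {a : Fin k → ℤ} {b : ℤ} {P : Fin (k + 2) → Prop} :
    (∀ l, P l) ↔ P 0 ∧ P 1 ∧ ∀ l : Fin k, P l.succ.succ := by
  constructor
  · intro h
    exact ⟨h 0, h 1, fun l => h _⟩
  · rintro ⟨h0, h1, h2⟩ l
    refine Fin.cases h0 (fun l => ?_) l
    refine Fin.cases h1 (fun l => ?_) l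
    exact h2 l

theorem fN_prod (a : Fin k → ℤ) (b : ℤ) (g : ℤ[X] → ℤ) :
    ∏ l, g (fN a b l) = g X * (g (X + C b) * ∏ l, g (X ^ 2 + C (a l))) := by
  rw [Fin.prod_univ_succ, Fin.prod_univ_succ]
  rfl

theorem fN_prodn (a : Fin k → ℤ) (b : ℤ) (g : ℤ[X] → ℕ) :
    ∏ l, g (fN a b l) = g X * (g (X + C b) * ∏ l, g (X ^ 2 + C (a l))) := by
  rw [Fin.prod_univ_succ, Fin.prod_univ_succ]
  rfl

theorem deg_sq (c : ℤ) : (X ^ 2 + C c : ℤ[X]).natDegree = 2 := Polynomial.natDegree_X_pow_add_C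

/-- `ω(p)` -/
def omN (a : Fin k → ℤ) (b : ℤ) (p : ℕ) : ℕ :=
  ((range p).filter (fun x : ℕ => (p : ℤ) ∣ (x : ℤ) * ((x : ℤ) + b) * ∏ l, ((x : ℤ) ^ 2 + a l))).card

/-- `z` -/
def zN (a : Fin k → ℤ) (b : ℤ) (n₀ Q : ℕ) : ℕ :=
  Q * (((n₀ : ℤ) * (n₀ + b) * ∏ l, ((n₀ : ℤ) ^ 2 + a l)).natAbs)

/-- the product of `1 - ω(p) / p` over the primes of `(z, X]` -/
noncomputable def VN (a : Fin k → ℤ) (b : ℤ) (z X : ℕ) : ℝ :=
  ∏ p ∈ (Ioc z X).filter Nat.Prime, (1 - (omN a b p : ℝ) / p)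

open Classical in
/-- the good `n` -/
noncomputable def GN (a : Fin k → ℤ) (b : ℤ) (n₀ Q t X A B : ℕ) : Finset ℕ :=
  (Ioc A B).filter (fun n : ℕ => ∃ p : ℕ, ∃ v : ℤ, ∃ w : Fin k → ℤ,
    n = n₀ * p ∧ (n : ℤ) + b = (n₀ + b) * v ∧ (∀ l, (n : ℤ) ^ 2 + a l = ((n₀ : ℤ) ^ 2 + a l) * w l) ∧
    p.Prime ∧ (X : ℝ) ^ (1 / (t : ℝ)) < p ∧ Almost 2 ((X : ℝ) ^ (1 / 9 : ℝ)) v ∧
    Almost t ((X : ℝ) ^ (1 / (t : ℝ))) v ∧ (∀ l, Almost (2 * t) ((X : ℝ) ^ (1 / (t : ℝ))) (w l)) ∧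
    p ≡ 1 [MOD Q] ∧ v ≡ 1 [ZMOD (Q : ℤ)] ∧ ∀ l, w l ≡ 1 [ZMOD (Q : ℤ)])

theorem omN_eq (a : Fin k → ℤ) (b : ℤ) (p : ℕ) : om (fN a b) p = omN a b p := by
  unfold om omN
  congr 1
  apply filter_congr
  intro x _
  rw [fN_prod a b (fun g => g.eval (x : ℤ))]
  simp [mul_assoc]

theorem zN_eq (a : Fin k → ℤ) (b : ℤ) (n₀ Q : ℕ) : zM (fN a b) n₀ Q = zN a b n₀ Q := by
  unfold zM zN
  have h1 : (∏ l, ((n₀ : ℤ) ^ 2 + a l)).natAbs = ∏ l, ((n₀ : ℤ) ^ 2 + a l).natAbs := map_prod Int.natAbsHom _ _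
  rw [fN_prodn a b (fun g => (g.eval (n₀ : ℤ)).natAbs), Int.natAbs_mul, Int.natAbs_mul, h1]
  simp [mul_assoc]

theorem VN_eq (a : Fin k → ℤ) (b : ℤ) (z n : ℕ) : VZ (fN a b) z n = VN a b z n := by
  unfold VZ VN
  exact prod_congr rfl fun p _ => by rw [omN_eq]

theorem GN_eq (a : Fin k → ℤ) (b : ℤ) (n₀ Q t X A B : ℕ) (hn₀ : 0 < n₀) (ht : 1 ≤ t) :
    GM (fN a b) n₀ Q 0 1 t X A B = GN a b n₀ Q t X A B := by
  ext n
  unfold GM GN
  simp only [mem_filter, and_congr_right_iff, mem_Ioc]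
  intro hn
  have hnpos : 0 < n := by omega
  constructor
  · rintro ⟨v, h1, h2, h3⟩
    rw [fN_forall (a := a) (b := b)] at h1
    obtain ⟨⟨a1, a2, a3⟩, ⟨b1, b2, b3⟩, hl⟩ := h1
    rw [fN_zero] at a1 a3
    rw [fN_one] at b1 b3
    simp only [Polynomial.eval_X, Polynomial.eval_add, Polynomial.eval_C] at a1 b1
    rw [Polynomial.natDegree_X, mul_one] at a3
    rw [Polynomial.natDegree_X_add_C, mul_one] at b3
    have hv0 : 0 < v 0 := by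
      have h4 : (0 : ℤ) < n₀ * v 0 := by rw [← a1]; exact_mod_cast hnpos
      exact (pos_iff_pos_of_mul_pos h4).1 (by exact_mod_cast hn₀)
    obtain ⟨p, hp⟩ : ∃ p : ℕ, v 0 = p := ⟨(v 0).toNat, (Int.toNat_of_nonneg hv0.le).symm⟩
    rw [hp] at a1 a2 a3 h2
    rw [Int.natAbs_natCast] at h2
    refine ⟨p, v 1, fun l => v l.succ.succ, by exact_mod_cast a1, b1, fun l => ?_, h2,
      a3.2.2 p h2 (dvd_refl _), h3, b3, fun l => ?_, ?_, b2, fun l => (hl l).2.1⟩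
    · have := (hl l).1
      rw [fN_succ] at this
      simpa using this
    · have := (hl l).2.2
      rwa [fN_succ, deg_sq, mul_comm] at this
    · exact Int.natCast_modEq_iff.1 (by exact_mod_cast a2)
  · rintro ⟨p, v, w, h1, h2, h3, h4, h5, h6, h7, h8, h9, h10, h11⟩
    refine ⟨Fin.cons (p : ℤ) (Fin.cons v w), ?_, ?_, ?_⟩
    · rw [fN_forall (a := a) (b := b)]
      refine ⟨⟨?_, ?_, ?_⟩, ⟨?_, h10, ?_⟩, fun l => ⟨?_, h11 l, ?_⟩⟩
      · rw [fN_zero]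
        simp only [Polynomial.eval_X, Fin.cons_zero]
        exact_mod_cast h1
      · rw [Fin.cons_zero]
        exact_mod_cast (Int.natCast_modEq_iff.2 h9)
      · rw [fN_zero, Polynomial.natDegree_X, mul_one]
        refine ⟨?_, ?_, ?_⟩
        · rw [Fin.cons_zero, Nat.abs_cast]
          exact_mod_cast h4.one_lt
        · rw [Fin.cons_zero, Int.natAbs_natCast, Nat.primeFactorsList_prime h4]
          simpa using ht
        · intro q hq hd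
          rw [Fin.cons_zero, Int.natCast_dvd_natCast, Nat.prime_dvd_prime_iff_eq hq h4] at hd
          rw [hd]
          exact h5
      · rw [fN_one]
        simpa using h2
      · rw [fN_one, Polynomial.natDegree_X_add_C, mul_one]
        exact h7
      · rw [fN_succ]
        simpa using h3 l
      · rw [fN_succ, deg_sq, mul_comm]
        exact h8 l
    · rw [Fin.cons_zero, Int.natAbs_natCast]
      exact h4
    · exact h6

theorem nbrP (a : Fin k → ℤ) (b : ℤ) (hb : b ≠ 0) (n₀ Q : ℕ) (hn₀ : 0 < n₀) (hQ : 1 ≤ Q)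
    (h1 : (n₀ : ℤ) + b ≠ 0) (h2 : ∀ l, (n₀ : ℤ) ^ 2 + a l ≠ 0) :
    ∃ t : ℕ, 1 ≤ t ∧ ∃ κ : ℝ, 0 < κ ∧ ∀ (s r : ℕ) (θ δ : ℝ), 1 ≤ s → 0 < θ → 0 < δ → ∃ c X₀ : ℕ, ∀ X : ℕ, X₀ ≤ X →
      κ / Real.log X ^ (2 * k + 2) ≤ VN a b (zN a b n₀ Q) X ∧ ∀ A B : ℕ, B ≤ X → θ * X ≤ (B : ℝ) - A →
        κ * ((B : ℝ) - A) * VN a b (zN a b n₀ Q) X ≤ ((GN a b n₀ Q t X A B).card : ℝ) ∧
        ∀ χ : ℕ → Fin r, ∃ P : Finset (ℕ × ℕ),
          (∀ z ∈ P, 1 ≤ z.2 ∧ (z.2 : ℝ) ≤ Real.log X ^ c ∧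
            ∀ l < s, z.1 + l * z.2 ∈ GN a b n₀ Q t X A B ∧ χ (z.1 + l * z.2) = χ z.1) ∧
          (P : Set (ℕ × ℕ)).PairwiseDisjoint (apSet s) ∧
          (((GN a b n₀ Q t X A B \ P.biUnion (apSet s)).card : ℕ) : ℝ) ≤
            δ * ((B : ℝ) - A) * VN a b (zN a b n₀ Q) X := by
  classical
  have hsum : ∑ l, (fN a b l).natDegree = 2 * k + 2 := by
    rw [Fin.sum_univ_succ, Fin.sum_univ_succ]
    have e1 : (fN a b 0).natDegree = 1 := by rw [fN_zero]; exact Polynomial.natDegree_X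
    have e2 : (fN a b (Fin.succ 0)).natDegree = 1 := by
      show (fN a b 1).natDegree = 1
      rw [fN_one]
      exact Polynomial.natDegree_X_add_C b
    have e3 : ∀ l : Fin k, (fN a b l.succ.succ).natDegree = 2 := fun l => by rw [fN_succ]; exact deg_sq _
    rw [e1, e2]
    simp only [e3]
    simp
    ring
  obtain ⟨t, ht, κ, hκ, H⟩ := modelP (fN a b) (by
      rw [fN_forall (a := a) (b := b)]
      refine ⟨?_, ?_, fun l => ?_⟩
      · rw [fN_zero, Polynomial.natDegree_X]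
      · rw [fN_one, Polynomial.natDegree_X_add_C]
      · rw [fN_succ, deg_sq]
        norm_num) 0 1 (by rw [fN_zero, Polynomial.natDegree_X]) (by rw [fN_one, Polynomial.natDegree_X_add_C])
    (by
      rw [fN_zero, fN_one]
      simp [Polynomial.coeff_X]
      exact hb) n₀ Q hQ (by
      rw [fN_forall (a := a) (b := b)]
      refine ⟨?_, ?_, fun l => ?_⟩
      · rw [fN_zero]
        simp
        omega
      · rw [fN_one]
        simpa using h1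
      · rw [fN_succ]
        simpa using h2 l)
  refine ⟨t, ht, κ, hκ, fun s r θ δ hs hθ hδ => ?_⟩
  obtain ⟨c, X₀, hX⟩ := H s r θ δ hs hθ hδ
  refine ⟨c, X₀, fun X hXX => ?_⟩
  have := hX X hXX
  simp only [zN_eq, VN_eq, GN_eq a b n₀ Q t X _ _ hn₀ ht, hsum] at this
  exact this

end Pool.Agent.X32.Uni
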