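import Pool.Agent.X32.Uni.Unc
import Pool.Agent.X32.Uni.Gold
import Pool.Agent.X32.Uni.PairK

/-!
Representations `N = p + P₂` with all the neighbours of both summands bounded multiples of almost primes.
-/

set_option autoImplicit false

namespace Pool.Agent.X32.Uni

open Finset
open Polynomial (C X)
open scoped Polynomial

/-- the slopes -/
def aG (L : ℕ) : Fin ((2 * L + 1) + (2 * L + 1)) → ℤ := Fin.append (fun _ => 1) (fun _ => -1)

/-- the constant terms -/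
def bG (N L : ℕ) : Fin ((2 * L + 1) + (2 * L + 1)) → ℤ :=
  Fin.append (fun l => ((l : ℕ) : ℤ) - L) (fun l => (N : ℤ) + (((l : ℕ) : ℤ) - L))

/-- the middle indices -/
def iG (L : ℕ) : Fin ((2 * L + 1) + (2 * L + 1)) := Fin.castAdd (2 * L + 1) ⟨L, by omega⟩
def jG (L : ℕ) : Fin ((2 * L + 1) + (2 * L + 1)) := Fin.natAdd (2 * L + 1) ⟨L, by omega⟩

theorem aG_l (L : ℕ) (l : Fin (2 * L + 1)) : aG L (Fin.castAdd (2 * L + 1) l) = 1 := by
  unfold aG
  rw [Fin.append_left]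
theorem aG_r (L : ℕ) (l : Fin (2 * L + 1)) : aG L (Fin.natAdd (2 * L + 1) l) = -1 := by
  unfold aG
  rw [Fin.append_right]
theorem bG_l (N L : ℕ) (l : Fin (2 * L + 1)) : bG N L (Fin.castAdd (2 * L + 1) l) = ((l : ℕ) : ℤ) - L := by
  unfold bG
  rw [Fin.append_left]
theorem bG_r (N L : ℕ) (l : Fin (2 * L + 1)) :
    bG N L (Fin.natAdd (2 * L + 1) l) = (N : ℤ) + (((l : ℕ) : ℤ) - L) := by
  unfold bG
  rw [Fin.append_right]

theorem forall_add {m n : ℕ} {P : Fin (m + n) → Prop} :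
    (∀ l, P l) ↔ (∀ l, P (Fin.castAdd n l)) ∧ ∀ l, P (Fin.natAdd m l) := by
  constructor
  · intro h
    exact ⟨fun l => h _, fun l => h _⟩
  · rintro ⟨h1, h2⟩ l
    exact Fin.addCases h1 h2 l

theorem exists_add {m n : ℕ} {P : Fin (m + n) → Prop} :
    (∃ l, P l) ↔ (∃ l, P (Fin.castAdd n l)) ∨ ∃ l, P (Fin.natAdd m l) := by
  constructor
  · rintro ⟨l, hl⟩
    revert hl
    refine Fin.addCases (fun l hl => Or.inl ⟨l, hl⟩) (fun l hl => Or.inr ⟨l, hl⟩) l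
  · rintro (⟨l, hl⟩ | ⟨l, hl⟩)
    · exact ⟨_, hl⟩
    · exact ⟨_, hl⟩

theorem shift_forall {L : ℕ} {P : ℤ → Prop} :
    (∀ l : Fin (2 * L + 1), P (((l : ℕ) : ℤ) - L)) ↔ ∀ h : ℤ, |h| ≤ L → P h := by
  constructor
  · intro H h hh
    rw [abs_le] at hh
    have h1 : (((h + L).toNat : ℕ) : ℤ) = h + L := Int.toNat_of_nonneg (by omega)
    have h2 := H ⟨(h + L).toNat, by omega⟩
    simp only at h2
    rw [h1] at h2
    simpa using h2
  · intro H l
    apply H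
    have := l.2
    rw [abs_le]
    constructor <;> omega

theorem shift_exists {L : ℕ} {P : ℤ → Prop} :
    (∃ l : Fin (2 * L + 1), P (((l : ℕ) : ℤ) - L)) ↔ ∃ h : ℤ, |h| ≤ L ∧ P h := by
  constructor
  · rintro ⟨l, hl⟩
    refine ⟨_, ?_, hl⟩
    have := l.2
    rw [abs_le]
    constructor <;> omega
  · rintro ⟨h, hh, hP⟩
    rw [abs_le] at hh
    have h1 : (((h + L).toNat : ℕ) : ℤ) = h + L := Int.toNat_of_nonneg (by omega)
    refine ⟨⟨(h + L).toNat, by omega⟩, ?_⟩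
    simp only
    rw [h1]
    simpa using hP

open Classical in
/-- `ω(p)` -/
noncomputable def omNb (N L p : ℕ) : ℕ :=
  ((range p).filter (fun x : ℕ => ∃ h : ℤ, |h| ≤ L ∧ ((p : ℤ) ∣ x + h ∨ (p : ℤ) ∣ N - x + h))).card

/-- the product of `1 - ω(p) / p` over the primes of `(z, N]` -/
noncomputable def VNb (N L z : ℕ) : ℝ := ∏ p ∈ (Ioc z N).filter Nat.Prime, (1 - (omNb N L p : ℝ) / p)

open Classical in
/-- the good primes -/
noncomputable def GNb (N L z G t A B : ℕ) : Finset ℕ :=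
  (Ioc A B).filter (fun p : ℕ => p.Prime ∧ (N : ℝ) ^ (1 / (t : ℝ)) < p ∧
    AlmostN 2 ((N : ℝ) ^ (1 / 9 : ℝ)) (N - p) ∧ AlmostN t ((N : ℝ) ^ (1 / (t : ℝ))) (N - p) ∧
    ∀ h : ℤ, |h| ≤ L → Near z G t ((N : ℝ) ^ (1 / (t : ℝ))) (p + h) ∧
      Near z G t ((N : ℝ) ^ (1 / (t : ℝ))) (N - p + h))

theorem omNb_eq (N L : ℕ) {p : ℕ} (hp : p.Prime) : om (lf (aG L) (bG N L)) p = omNb N L p := by
  classical
  unfold om omNb
  congr 1
  apply filter_congr
  intro x _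
  have hpi := Nat.prime_iff_prime_int.1 hp
  have h1 : (p : ℤ) ∣ ∏ l, (lf (aG L) (bG N L) l).eval (x : ℤ) ↔
      ∃ l, (p : ℤ) ∣ (lf (aG L) (bG N L) l).eval (x : ℤ) := by
    constructor
    · intro h
      obtain ⟨l, _, hl⟩ := hpi.exists_mem_finset_dvd h
      exact ⟨l, hl⟩
    · rintro ⟨l, hl⟩
      exact hl.trans (dvd_prod_of_mem (fun l => (lf (aG L) (bG N L) l).eval (x : ℤ)) (mem_univ l))
  rw [h1, exists_add]
  simp only [lf_eval, aG_l, aG_r, bG_l, bG_r]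
  have e1 : ∀ l : Fin (2 * L + 1), (1 : ℤ) * x + (((l : ℕ) : ℤ) - L) = x + (((l : ℕ) : ℤ) - L) := fun l => by ring
  have e2 : ∀ l : Fin (2 * L + 1), (-1 : ℤ) * x + ((N : ℤ) + (((l : ℕ) : ℤ) - L)) = N - x + (((l : ℕ) : ℤ) - L) :=
    fun l => by ring
  simp only [e1, e2]
  rw [shift_exists (P := fun h => (p : ℤ) ∣ x + h), shift_exists (P := fun h => (p : ℤ) ∣ N - x + h)]
  constructor
  · rintro (⟨h, h1, h2⟩ | ⟨h, h1, h2⟩)
    · exact ⟨h, h1, Or.inl h2⟩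
    · exact ⟨h, h1, Or.inr h2⟩
  · rintro ⟨h, h1, h2 | h2⟩
    · exact Or.inl ⟨h, h1, h2⟩
    · exact Or.inr ⟨h, h1, h2⟩

theorem VNb_eq (N L z : ℕ) : VZ (lf (aG L) (bG N L)) z N = VNb N L z := by
  unfold VZ VNb
  apply Finset.prod_congr rfl
  intro p hp
  rw [omNb_eq N L (mem_filter.1 hp).2]

theorem GNb_eq (N L z G t A B : ℕ) (ht : 1 ≤ t) (hB : B ≤ N) :
    GN' (aG L) (bG N L) {iG L, jG L} (iG L) (jG L) z G t N A B = GNb N L z G t A B := by
  classical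
  ext x
  unfold GN' GNb
  rw [mem_filter, mem_filter]
  refine and_congr_right fun hx => ?_
  have hxN : x ≤ N := (mem_Ioc.1 hx).2.trans hB
  have e0 : aG L (iG L) * (x : ℤ) + bG N L (iG L) = (x : ℤ) := by
    unfold iG
    rw [aG_l, bG_l]
    simp
  have e0' : aG L (jG L) * (x : ℤ) + bG N L (jG L) = ((N - x : ℕ) : ℤ) := by
    unfold jG
    rw [aG_r, bG_r, Nat.cast_sub hxN]
    simp
    ring
  have eI : ∀ P : Fin ((2 * L + 1) + (2 * L + 1)) → Prop, (∀ l ∈ ({iG L, jG L} : Finset _), P l) ↔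
      P (iG L) ∧ P (jG L) := by
    intro P
    simp
  rw [eI, e0, e0', Int.natAbs_natCast, almostN_iff, almostN_iff, forall_add]
  simp only [aG_l, aG_r, bG_l, bG_r]
  have e1 : ∀ l : Fin (2 * L + 1), (1 : ℤ) * x + (((l : ℕ) : ℤ) - L) = x + (((l : ℕ) : ℤ) - L) := fun l => by ring
  have e2 : ∀ l : Fin (2 * L + 1), (-1 : ℤ) * x + ((N : ℤ) + (((l : ℕ) : ℤ) - L)) = N - x + (((l : ℕ) : ℤ) - L) :=
    fun l => by ring
  simp only [e1, e2]
  rw [shift_forall (P := fun h => Near z G t ((N : ℝ) ^ (1 / (t : ℝ))) (x + h)),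
    shift_forall (P := fun h => Near z G t ((N : ℝ) ^ (1 / (t : ℝ))) (N - x + h))]
  constructor
  · rintro ⟨h1, h2, ⟨h3, h4⟩, h5, h6⟩
    exact ⟨h1, (almost_prime ht h1).1 ((almostN_iff _ _ _).2 h3), h2, (almostN_iff _ _ _).1 h4,
      fun h hh => ⟨h5 h hh, h6 h hh⟩⟩
  · rintro ⟨h1, h3, h2, h4, h5⟩
    exact ⟨h1, h2, ⟨(almostN_iff _ _ _).1 ((almost_prime ht h1).2 h3), (almostN_iff _ _ _).2 h4⟩,
      fun h hh => (h5 h hh).1, fun h hh => (h5 h hh).2⟩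

theorem sysNb (N L : ℕ) (hN : 1 ≤ N) (he : N % 2 = 0) :
    SysN ((2 * L + 1) + (2 * L + 1)) 1 (L + 1) N (aG L) (bG N L) {iG L, jG L} (iG L) (jG L) where
  a0 := by
    rw [forall_add]
    simp only [aG_l, aG_r]
    norm_num
  aE := by
    rw [forall_add]
    simp only [aG_l, aG_r]
    norm_num
  bK := by
    have hNz : (1 : ℤ) ≤ N := by exact_mod_cast hN
    have hL0 : (0 : ℤ) ≤ L := by positivity
    rw [forall_add]
    simp only [bG_l, bG_r]
    constructor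
    · intro l
      have := l.2
      rw [abs_le]
      push_cast
      constructor <;> nlinarith [(by omega : ((l : ℕ) : ℤ) ≤ 2 * L), (by positivity : (0 : ℤ) ≤ ((l : ℕ) : ℤ))]
    · intro l
      have := l.2
      rw [abs_le]
      push_cast
      constructor <;> nlinarith [(by omega : ((l : ℕ) : ℤ) ≤ 2 * L), (by positivity : (0 : ℤ) ≤ ((l : ℕ) : ℤ))]
  cop := by
    rw [forall_add]
    simp only [aG_l, aG_r]
    exact ⟨fun l => isCoprime_one_left, fun l => isCoprime_one_left.neg_left⟩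
  loc := by
    intro p hp
    have e0 : ∀ x : ℤ, aG L (iG L) * x + bG N L (iG L) = x := by
      intro x
      unfold iG
      rw [aG_l, bG_l]
      simp
    have e0' : ∀ x : ℤ, aG L (jG L) * x + bG N L (jG L) = N - x := by
      intro x
      unfold jG
      rw [aG_r, bG_r]
      simp
      ring
    have eI : ∀ P : Fin ((2 * L + 1) + (2 * L + 1)) → Prop, P (iG L) → P (jG L) →
        (∀ l ∈ ({iG L, jG L} : Finset _), P l) := by
      intro P h1 h2 l hl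
      rw [mem_insert, mem_singleton] at hl
      rcases hl with rfl | rfl
      · exact h1
      · exact h2
    have hpz : (2 : ℤ) ≤ p := by exact_mod_cast hp.two_le
    by_cases h1 : (p : ℤ) ∣ N - 1
    · refine ⟨-1, eI _ ?_ ?_⟩
      · rw [e0]
        intro h
        have := Int.le_of_dvd (by norm_num) ((dvd_neg).2 h)
        omega
      · rw [e0']
        intro h
        have h2 := dvd_sub h h1
        have h3 : (N : ℤ) - -1 - (N - 1) = 2 := by ring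
        rw [h3] at h2
        have h4 := Int.le_of_dvd (by norm_num) h2
        have h5 : (p : ℤ) = 2 := by omega
        rw [h5] at h1
        omega
    · refine ⟨1, eI _ ?_ ?_⟩
      · rw [e0]
        intro h
        have := Int.le_of_dvd (by norm_num) h
        omega
      · rw [e0']
        exact h1
  det := by
    have hNz : (1 : ℤ) ≤ N := by exact_mod_cast hN
    unfold iG jG
    rw [aG_l, aG_r, bG_l, bG_r]
    simp
    omega
  iI := by simp
  jI := by simp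

theorem neighG (L : ℕ) : ∃ z G t : ℕ, 1 ≤ t ∧ ∃ κ : ℝ, 0 < κ ∧ ∀ (s ρ : ℕ) (θ δ : ℝ), 1 ≤ s → 0 < θ → 0 < δ →
    ∃ c N₀ : ℕ, ∀ N : ℕ, N₀ ≤ N → N % 2 = 0 →
      κ / Real.log N ^ (4 * L + 2) ≤ VNb N L z ∧ ∀ A B : ℕ, B ≤ N → θ * N ≤ (B : ℝ) - A →
        κ * ((B : ℝ) - A) * VNb N L z ≤ ((GNb N L z G t A B).card : ℝ) ∧
        ∀ χ : ℕ → Fin ρ, ∃ P : Finset (ℕ × ℕ),
          (∀ τ ∈ P, 1 ≤ τ.2 ∧ (τ.2 : ℝ) ≤ Real.log N ^ c ∧
            ∀ l < s, τ.1 + l * τ.2 ∈ GNb N L z G t A B ∧ χ (τ.1 + l * τ.2) = χ τ.1) ∧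
          (P : Set (ℕ × ℕ)).PairwiseDisjoint (apSet s) ∧
          (((GNb N L z G t A B \ P.biUnion (apSet s)).card : ℕ) : ℝ) ≤ δ * ((B : ℝ) - A) * VNb N L z := by
  obtain ⟨z, G, t, ht, κ, hκ, H⟩ := uncU ((2 * L + 1) + (2 * L + 1)) 1 (by omega)
  refine ⟨z, G, t, ht, κ, hκ, fun s ρ θ δ hs hθ hδ => ?_⟩
  obtain ⟨c, X₀, h⟩ := H (L + 1) s ρ θ δ hs hθ hδ
  refine ⟨c, max X₀ 1, fun N hN he => ?_⟩
  obtain ⟨h1, h2⟩ := h N ((le_max_left _ _).trans hN) _ _ _ _ _ (sysNb N L ((le_max_right _ _).trans hN) he)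
  rw [VNb_eq] at h1 h2
  refine ⟨by
    have : 4 * L + 2 = (2 * L + 1) + (2 * L + 1) := by omega
    rw [this]
    exact h1, fun A B hB hAB => ?_⟩
  have h3 := h2 A B hB hAB
  rw [GNb_eq N L z G t A B ht hB] at h3
  exact h3

end Pool.Agent.X32.Uni
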