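import Pool.Agent.X32.Uni.ExactP

/-!
Orbits of the map `x ↦ a + d x`.
-/

set_option autoImplicit false

namespace Pool.Agent.X32.Uni

open Finset Filter

variable {k : ℕ}

/-- the map -/
def St (a d : ℤ) (x : ℤ) : ℤ := a + d * x

/-- `1 + d + ... + d ^ (m - 1)` -/
def gs (d : ℤ) (m : ℕ) : ℤ := ∑ i ∈ range m, d ^ i

theorem gs_mul (d : ℤ) (m : ℕ) : gs d m * (d - 1) = d ^ m - 1 := geom_sum_mul d m

theorem iter_eq (a d : ℤ) (m : ℕ) (x : ℤ) : (St a d)^[m] x = d ^ m * x + a * gs d m := by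
  induction m with
  | zero => simp [gs]
  | succ m ih =>
    rw [Function.iterate_succ_apply', ih]
    unfold St gs
    rw [geom_sum_succ]
    ring

theorem orb_adm (a d : ℤ) (hcop : IsCoprime a d) (J : Fin k → ℕ)
    (hJ : ∀ p : ℕ, p.Prime → (p : ℤ) ∣ d - 1 → ¬ (p : ℤ) ∣ a → ∃ c : ℕ, ∀ l, ¬ J l ≡ c [MOD p]) :
    AdmL (fun l => d ^ J l) (fun l => a * gs d (J l)) := by
  intro p hp
  have hpi := Nat.prime_iff_prime_int.1 hp
  by_cases h1 : (p : ℤ) ∣ d
  · -- `x = 1`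
    have h2 : ¬ (p : ℤ) ∣ a := by
      intro h3
      have := hcop.isUnit_of_dvd' h3 h1
      exact hpi.not_isUnit this
    refine ⟨1, fun l hd => ?_⟩
    simp only at hd
    rcases Nat.eq_zero_or_pos (J l) with h0 | h0
    · rw [h0] at hd
      simp [gs] at hd
      exact hpi.not_isUnit (isUnit_of_dvd_one hd)
    · obtain ⟨m, hm⟩ : ∃ m, J l = m + 1 := ⟨J l - 1, by omega⟩
      rw [hm] at hd
      have h3 : gs d (m + 1) = d * gs d m + 1 := by
        unfold gs
        rw [geom_sum_succ]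
      rw [h3] at hd
      have h4 : d ^ (m + 1) * 1 + a * (d * gs d m + 1) = d * (d ^ m + a * gs d m) + a := by ring
      rw [h4] at hd
      exact h2 ((dvd_add_right (h1.mul_right _)).1 hd)
  · have hdm : ∀ m : ℕ, ¬ (p : ℤ) ∣ d ^ m := fun m h => h1 (hpi.dvd_of_dvd_pow h)
    by_cases h2 : (p : ℤ) ∣ a
    · refine ⟨1, fun l hd => ?_⟩
      simp only [mul_one] at hd
      exact hdm _ ((dvd_add_left (h2.mul_right _)).1 hd)
    · by_cases h3 : (p : ℤ) ∣ d - 1
      · obtain ⟨c, hc⟩ := hJ p hp h3 h2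
        refine ⟨-(c * a), fun l hd => ?_⟩
        simp only at hd
        -- modulo `p`: `d ^ m ≡ 1`, `gs d m ≡ m`
        have e1 : ∀ m : ℕ, (p : ℤ) ∣ d ^ m - 1 := fun m => by
          rw [← gs_mul]
          exact h3.mul_left _
        have e2 : ∀ m : ℕ, (p : ℤ) ∣ gs d m - m := by
          intro m
          induction m with
          | zero => simp [gs]
          | succ m ih =>
            have h4 : gs d (m + 1) - ((m + 1 : ℕ) : ℤ) = (gs d m - m) + (d ^ m - 1) := by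
              unfold gs
              rw [sum_range_succ]
              push_cast
              ring
            rw [h4]
            exact dvd_add ih (e1 m)
        have e3 : (p : ℤ) ∣ a * ((J l : ℤ) - c) := by
          have h4 : a * ((J l : ℤ) - c) = (d ^ J l * (-(c * a)) + a * gs d (J l)) + c * a * (d ^ J l - 1) -
              a * (gs d (J l) - J l) := by ring
          rw [h4]
          exact dvd_sub (dvd_add hd ((e1 _).mul_left _)) ((e2 _).mul_left _)
        rcases hpi.dvd_mul.1 e3 with h4 | h4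
        · exact h2 h4
        · apply hc l
          exact (Int.natCast_modEq_iff.1 (Int.modEq_iff_dvd.2 h4)).symm
      · -- the fixed point
        obtain ⟨u, v, huv⟩ := (hpi.coprime_iff_not_dvd.2 h3).symm
        -- u * (d - 1) + v * p = 1
        refine ⟨-(u * a), fun l hd => ?_⟩
        simp only at hd
        have e3 : (p : ℤ) ∣ (d - 1) * (d ^ J l * (-(u * a)) + a * gs d (J l)) := hd.mul_left _
        have e4 : (d - 1) * (d ^ J l * (-(u * a)) + a * gs d (J l)) = -a + p * (d ^ J l * v * a) := by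
          linear_combination (-(d ^ J l * a)) * huv + a * gs_mul d (J l)
        rw [e4] at e3
        have e5 := (dvd_add_left (dvd_mul_right (p : ℤ) (d ^ J l * v * a))).1 e3
        exact h2 ((dvd_neg).1 e5)

open Classical in
/-- the integers `n` of `(A, B]` for which exactly the iterates `J_l` are almost primes -/
noncomputable def GO (a d : ℤ) (J : Fin k → ℕ) (i j : Fin k) (R C t X A B : ℕ) : Finset ℕ :=
  (Ioc A B).filter (fun n : ℕ => ((St a d)^[J i] (n : ℤ)).natAbs.Prime ∧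
    Almost 2 ((X : ℝ) ^ (1 / 9 : ℝ)) ((St a d)^[J j] (n : ℤ)) ∧
    (∀ l, Almost t ((X : ℝ) ^ (1 / (t : ℝ))) ((St a d)^[J l] (n : ℤ))) ∧
    ∀ m ≤ R, (∀ l, J l ≠ m) → ∃ q : ℕ, q.Prime ∧ q ≤ C ∧ (q : ℤ) ∣ (St a d)^[m] (n : ℤ))

theorem orbP (a d : ℤ) (hd : 1 ≤ d) (ha : a ≠ 0) (hcop : IsCoprime a d) (J : Fin k → ℕ)
    (hinj : Function.Injective J)
    (hJ : ∀ p : ℕ, p.Prime → (p : ℤ) ∣ d - 1 → ¬ (p : ℤ) ∣ a → ∃ c : ℕ, ∀ l, ¬ J l ≡ c [MOD p])
    (i j : Fin k) (hij : i ≠ j)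
    (R : ℕ) : ∃ C t : ℕ, 1 ≤ t ∧ ∃ κ : ℝ, 0 < κ ∧ ∀ (s r : ℕ) (θ δ : ℝ), 1 ≤ s → 0 < θ → 0 < δ → ∃ c X₀ : ℕ,
      ∀ X : ℕ, X₀ ≤ X → ∀ A B : ℕ, B ≤ X → θ * X ≤ (B : ℝ) - A →
        κ * ((B : ℝ) - A) / Real.log X ^ k ≤ ((GO a d J i j R C t X A B).card : ℝ) ∧
        ∀ χ : ℕ → Fin r, ∃ P : Finset (ℕ × ℕ),
          (∀ z ∈ P, 1 ≤ z.2 ∧ (z.2 : ℝ) ≤ Real.log X ^ c ∧
            ∀ m < s, z.1 + m * z.2 ∈ GO a d J i j R C t X A B ∧ χ (z.1 + m * z.2) = χ z.1) ∧
          (P : Set (ℕ × ℕ)).PairwiseDisjoint (apSet s) ∧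
          (((GO a d J i j R C t X A B \ P.biUnion (apSet s)).card : ℕ) : ℝ) ≤ δ * ((B : ℝ) - A) / Real.log X ^ k := by
  classical
  have hpow : ∀ m n : ℕ, m ≠ n → d ^ m * (a * gs d n) - d ^ n * (a * gs d m) ≠ 0 := by
    intro m n hmn h0
    rcases hd.eq_or_lt with hd1 | hd1
    · rw [← hd1] at h0
      simp only [gs, one_pow, sum_const, card_range, nsmul_eq_mul, mul_one, one_mul] at h0
      have h1 : a * ((n : ℤ) - m) = 0 := by linear_combination h0
      rcases mul_eq_zero.1 h1 with h2 | h2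
      · exact ha h2
      · apply hmn
        have h3 : (n : ℤ) = m := by linarith
        exact_mod_cast h3.symm
    have h1 : a * (d ^ n - d ^ m) = 0 := by
      have h2 : (d - 1) * (d ^ m * (a * gs d n) - d ^ n * (a * gs d m)) = 0 := by rw [h0, mul_zero]
      have h3 := gs_mul d n
      have h4 := gs_mul d m
      linear_combination h2 - d ^ m * a * h3 + d ^ n * a * h4
    rcases mul_eq_zero.1 h1 with h2 | h2
    · exact ha h2
    · apply hmn
      have h3 : d ^ n = d ^ m := by linarith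
      exact (pow_right_injective₀ (by omega : (0 : ℤ) < d) (by omega) h3).symm
  have hd0 : ∀ m : ℕ, d ^ m ≠ 0 := fun m => pow_ne_zero _ (by omega)
  obtain ⟨T, hT⟩ : ∃ T : Finset (ℤ × ℤ), T = ((range (R + 1)).filter (fun m => ∀ l, J l ≠ m)).image
      (fun m => (d ^ m, a * gs d m)) := ⟨_, rfl⟩
  have hTm : ∀ τ : ℤ × ℤ, τ ∈ T ↔ ∃ m ≤ R, (∀ l, J l ≠ m) ∧ τ = (d ^ m, a * gs d m) := by
    intro τ
    rw [hT, mem_image]
    constructor
    · rintro ⟨m, hm, rfl⟩
      rw [mem_filter, mem_range] at hm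
      exact ⟨m, by omega, hm.2, rfl⟩
    · rintro ⟨m, h1, h2, rfl⟩
      exact ⟨m, by rw [mem_filter, mem_range]; exact ⟨by omega, h2⟩, rfl⟩
  obtain ⟨C, t, ht, κ, hκ, H⟩ := exactP (fun l => d ^ J l) (fun l => a * gs d (J l)) (orb_adm a d hcop J hJ)
    (fun l => hd0 _) (fun l m hlm => hpow _ _ (fun h => hlm (hinj h))) i j hij T (by
      intro τ hτ
      obtain ⟨m, _, _, rfl⟩ := (hTm τ).1 hτ
      exact hd0 _) (by
      intro τ hτ l
      obtain ⟨m, _, h2, rfl⟩ := (hTm τ).1 hτ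
      exact hpow _ _ (h2 l).symm)
  have hgood : ∀ X A B : ℕ, GE' (fun l => d ^ J l) (fun l => a * gs d (J l)) T i j C t X A B =
      GO a d J i j R C t X A B := by
    intro X A B
    ext n
    unfold GE' GO
    rw [mem_filter, mem_filter]
    simp only [← iter_eq]
    refine and_congr_right (fun _ => and_congr_right (fun _ => and_congr_right (fun _ => and_congr_right (fun _ => ?_))))
    constructor
    · intro h m h1 h2
      obtain ⟨q, q1, q2, q3⟩ := h _ ((hTm _).2 ⟨m, h1, h2, rfl⟩)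
      refine ⟨q, q1, q2, ?_⟩
      simp only at q3
      rwa [← iter_eq] at q3
    · intro h τ hτ
      obtain ⟨m, h1, h2, rfl⟩ := (hTm τ).1 hτ
      simp only
      rw [← iter_eq]
      exact h m h1 h2
  refine ⟨C, t, ht, κ, hκ, fun s r θ δ hs hθ hδ => ?_⟩
  obtain ⟨c, X₀, h⟩ := H s r θ δ hs hθ hδ
  refine ⟨c, X₀, fun X hX A B hB hAB => ?_⟩
  have h1 := h X hX A B hB hAB
  rw [hgood] at h1
  exact h1

end Pool.Agent.X32.Uni
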