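import Pool.Agent.X32.Uni.Short3

/-!
Exact sets of times at which the iterates of a polynomial are almost primes.
-/

set_option autoImplicit false

namespace Pool.Agent.X32.Uni

open Finset
open Polynomial (C X aeval)
open scoped Polynomial

variable {k : ℕ}

/-- the iterates of `F` -/
def itF (F : ℤ[X]) (j : ℕ) (x : ℤ) : ℤ := (fun y => F.eval y)^[j] x

/-- the polynomials of the iterates -/
noncomputable def pI (F : ℤ[X]) (j : ℕ) : ℤ[X] := F.comp^[j] X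

theorem pI_eval (F : ℤ[X]) (j : ℕ) (x : ℤ) : (pI F j).eval x = itF F j x := by
  unfold pI itF
  rw [Polynomial.iterate_comp_eval, Polynomial.eval_X]

theorem pI_deg (F : ℤ[X]) (j : ℕ) : (pI F j).natDegree = F.natDegree ^ j := by
  unfold pI
  rw [Polynomial.natDegree_iterate_comp, Polynomial.natDegree_X, mul_one]

theorem pI_aeval (F : ℤ[X]) (j : ℕ) (α : ℂ) : aeval α (pI F j) = (fun z : ℂ => aeval z F)^[j] α := by
  unfold pI
  induction j with
  | zero => simp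
  | succ j ih =>
    rw [Function.iterate_succ_apply', Function.iterate_succ_apply', Polynomial.aeval_comp, ih]

theorem it_cast (F : ℤ[X]) (j : ℕ) (x : ℤ) : (fun z : ℂ => aeval z F)^[j] (x : ℂ) = ((itF F j x : ℤ) : ℂ) := by
  unfold itF
  induction j with
  | zero => simp
  | succ j ih =>
    rw [Function.iterate_succ_apply', Function.iterate_succ_apply', ih]
    have := Polynomial.aeval_algebraMap_apply ℂ ((fun y => F.eval y)^[j] x) F
    simpa using this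

theorem pI_common (F : ℤ[X]) (h0 : ∀ m, 1 ≤ m → itF F m 0 ≠ 0) (m j : ℕ) (hmj : m < j) (α : ℂ)
    (h1 : aeval α (pI F m) = 0) (h2 : aeval α (pI F j) = 0) : False := by
  rw [pI_aeval] at h1 h2
  obtain ⟨d, hd⟩ : ∃ d, j = d + m := ⟨j - m, by omega⟩
  rw [hd, Function.iterate_add_apply, h1] at h2
  have h3 := it_cast F d 0
  rw [Int.cast_zero, h2] at h3
  apply h0 d (by omega)
  exact_mod_cast h3.symm

/-- `ω(p)` -/
def omI (F : ℤ[X]) (J : Fin k → ℕ) (p : ℕ) : ℕ :=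
  ((range p).filter (fun x : ℕ => (p : ℤ) ∣ ∏ l, itF F (J l) x)).card

/-- the product of `1 - ω(p) / p` over the primes `p ≤ X` -/
noncomputable def VI (F : ℤ[X]) (J : Fin k → ℕ) (X : ℕ) : ℝ :=
  ∏ p ∈ (Icc 1 X).filter Nat.Prime, (1 - (omI F J p : ℝ) / p)

open Classical in
/-- the good `n` -/
noncomputable def GIt (F : ℤ[X]) (J : Fin k → ℕ) (R C t X A B : ℕ) : Finset ℕ :=
  (Ioc A B).filter (fun n : ℕ =>
    (∀ l, Almost (t * F.natDegree ^ J l) ((X : ℝ) ^ (1 / (t : ℝ))) (itF F (J l) n)) ∧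
    ∀ m ≤ R, (∀ l, J l ≠ m) → ∃ q : ℕ, q.Prime ∧ q ≤ C ∧ (q : ℤ) ∣ itF F m n)

theorem orbS (F : ℤ[X]) (hF : 1 ≤ F.natDegree) (h0 : ∀ m, 1 ≤ m → itF F m 0 ≠ 0) (hk : 0 < k) (J : Fin k → ℕ)
    (hJ : ∀ p : ℕ, p.Prime → ∃ x : ℤ, ∀ l, ¬ (p : ℤ) ∣ itF F (J l) x) (R : ℕ) (ε : ℝ) (hε : 0 < ε) :
    ∃ C t : ℕ, 1 ≤ t ∧ ∃ κ K : ℝ, 0 < κ ∧ 0 < K ∧ ∀ (s r : ℕ) (δ : ℝ), 1 ≤ s → 0 < δ → ∃ c X₀ : ℕ, ∀ X : ℕ, X₀ ≤ X →
      κ / Real.log X ^ (∑ l, F.natDegree ^ J l) ≤ VI F J X ∧ ∀ A B : ℕ, B ≤ X → (X : ℝ) ^ ε ≤ (B : ℝ) - A →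
        κ * ((B : ℝ) - A) * VI F J X ≤ ((GIt F J R C t X A B).card : ℝ) ∧
        ((GIt F J R C t X A B).card : ℝ) ≤ K * ((B : ℝ) - A) * VI F J X ∧
        ∀ χ : ℕ → Fin r, ∃ P : Finset (ℕ × ℕ),
          (∀ z ∈ P, 1 ≤ z.2 ∧ (z.2 : ℝ) ≤ Real.log X ^ c ∧
            ∀ l < s, z.1 + l * z.2 ∈ GIt F J R C t X A B ∧ χ (z.1 + l * z.2) = χ z.1) ∧
          (P : Set (ℕ × ℕ)).PairwiseDisjoint (apSet s) ∧
          (((GIt F J R C t X A B \ P.biUnion (apSet s)).card : ℕ) : ℝ) ≤ δ * ((B : ℝ) - A) * VI F J X := by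
  classical
  obtain ⟨T, hT⟩ : ∃ T : Finset ℕ, T = (range (R + 1)).filter (fun m => ∀ l, J l ≠ m) := ⟨_, rfl⟩
  have hTm : ∀ m, m ∈ T ↔ m ≤ R ∧ ∀ l, J l ≠ m := by
    intro m
    rw [hT, mem_filter, mem_range, Nat.lt_succ_iff]
  obtain ⟨f, hf⟩ : ∃ f : Fin k → ℤ[X], f = fun l => pI F (J l) := ⟨_, rfl⟩
  have hfl : ∀ l, f l = pI F (J l) := fun l => by rw [hf]
  have hdeg1 : ∀ m, 1 ≤ (pI F m).natDegree := fun m => by
    rw [pI_deg]
    exact Nat.one_le_pow _ _ hF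
  have hloc : Loc f := by
    intro p hp
    obtain ⟨x, hx⟩ := hJ p hp
    refine ⟨x, fun hd => ?_⟩
    obtain ⟨l, _, hl⟩ := (Nat.prime_iff_prime_int.1 hp).exists_mem_finset_dvd hd
    rw [hfl, pI_eval] at hl
    exact hx l hl
  have ho : ∀ p, om f p = omI F J p := by
    intro p
    unfold om omI
    simp only [hfl, pI_eval]
  have hV : ∀ n, V f n = VI F J n := fun n => by
    unfold V VI
    exact prod_congr rfl fun p _ => by rw [ho]
  have hG : ∀ C t X A B, GS f (T.image (pI F)) C t X A B = GIt F J R C t X A B := by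
    intro C t X A B
    ext n
    unfold GS GIt
    simp only [mem_filter, hfl, pI_eval, pI_deg]
    refine and_congr_right fun _ => and_congr_right fun _ => ?_
    constructor
    · intro h m hm hl
      obtain ⟨q, h1, h2, h3⟩ := h (pI F m) (mem_image_of_mem _ ((hTm m).2 ⟨hm, hl⟩))
      rw [pI_eval] at h3
      exact ⟨q, h1, h2, h3⟩
    · intro h g hg
      rw [mem_image] at hg
      obtain ⟨m, hm, rfl⟩ := hg
      rw [pI_eval]
      exact h m ((hTm m).1 hm).1 ((hTm m).1 hm).2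
  obtain ⟨C, t, ht, κ, K, hκ, hK, H⟩ := killS f hk (fun l => by rw [hfl]; exact hdeg1 _) hloc (T.image (pI F)) (by
    intro g hg
    rw [mem_image] at hg
    obtain ⟨m, hm, rfl⟩ := hg
    rw [hTm] at hm
    have hg0 : pI F m ≠ 0 := by
      intro h
      have := hdeg1 m
      rw [h, Polynomial.natDegree_zero] at this
      omega
    refine ⟨hg0, ?_⟩
    have hinj : Function.Injective (algebraMap ℤ ℂ) := RingHom.injective_int _
    obtain ⟨α, hα⟩ := IsAlgClosed.exists_aeval_eq_zero_of_injective ℂ hinj (pI F m) (by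
      intro h
      have h1 := hdeg1 m
      have h2 := Polynomial.natDegree_eq_zero_iff_degree_le_zero.2 h.le
      omega)
    refine ⟨α, hα, fun l h => ?_⟩
    rw [hfl] at h
    rcases lt_trichotomy (J l) m with h1 | h1 | h1
    · exact pI_common F h0 (J l) m h1 α h hα
    · exact hm.2 l h1
    · exact pI_common F h0 m (J l) h1 α hα h) ε hε
  refine ⟨C, t, ht, κ, K, hκ, hK, fun s r δ hs hδ => ?_⟩
  obtain ⟨c, X₀, hX⟩ := H s r δ hs hδ
  refine ⟨c, X₀, fun X hXX => ?_⟩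
  have := hX X hXX
  have hsum : ∑ l, (f l).natDegree = ∑ l, F.natDegree ^ J l := sum_congr rfl fun l _ => by rw [hfl, pI_deg]
  simp only [hV, hG, hsum] at this
  exact this

end Pool.Agent.X32.Uni
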