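import Pool.Agent.X32.Uni.Part

/-!
Two linear forms: one prime, the other `P₂`, with bounded prime factors in finitely many other forms.
-/

set_option autoImplicit false

namespace Pool.Agent.X32.Uni

open Finset Filter

open Classical in
/-- the good `n` -/
noncomputable def G2 (a b a' b' : ℤ) (T : Finset (ℤ × ℤ)) (C X A B : ℕ) : Finset ℕ :=
  (Ioc A B).filter (fun n : ℕ => (a * (n : ℤ) + b).natAbs.Prime ∧
    Almost 2 ((X : ℝ) ^ (1 / 9 : ℝ)) (a' * (n : ℤ) + b') ∧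
    ∀ τ ∈ T, ∃ q : ℕ, q.Prime ∧ q ≤ C ∧ (q : ℤ) ∣ τ.1 * n + τ.2)

theorem pairU (a b a' b' : ℤ) (ha : a ≠ 0) (ha' : a' ≠ 0) (hdet : a * b' - a' * b ≠ 0)
    (hadm : ∀ p : ℕ, p.Prime → ∃ n : ℤ, ¬ (p : ℤ) ∣ a * n + b ∧ ¬ (p : ℤ) ∣ a' * n + b')
    (T : Finset (ℤ × ℤ)) (hT : ∀ τ ∈ T, τ.1 ≠ 0) (hT1 : ∀ τ ∈ T, τ.1 * b - a * τ.2 ≠ 0)
    (hT2 : ∀ τ ∈ T, τ.1 * b' - a' * τ.2 ≠ 0) :
    ∃ C : ℕ, ∃ κ : ℝ, 0 < κ ∧ ∀ (s : ℕ) (θ δ : ℝ), 0 < θ → 0 < δ → ∃ c X₀ : ℕ, ∀ X : ℕ, X₀ ≤ X →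
      ∀ A B : ℕ, B ≤ X → θ * X ≤ (B : ℝ) - A →
        κ * ((B : ℝ) - A) / Real.log X ^ 2 ≤ ((G2 a b a' b' T C X A B).card : ℝ) ∧
        ∀ S : Finset ℕ, S ⊆ G2 a b a' b' T C X A B → δ * ((B : ℝ) - A) / Real.log X ^ 2 ≤ S.card →
          ∃ n d : ℕ, 1 ≤ d ∧ (d : ℝ) ≤ Real.log X ^ c ∧ ∀ l < s, n + l * d ∈ S := by
  classical
  have hA : AdmL ![a, a'] ![b, b'] := by
    intro p hp
    obtain ⟨n, h1, h2⟩ := hadm p hp
    refine ⟨n, fun l => ?_⟩
    fin_cases l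
    · exact h1
    · exact h2
  have ha0 : ∀ l : Fin 2, (![a, a'] : Fin 2 → ℤ) l ≠ 0 := by
    intro l
    fin_cases l
    · exact ha
    · exact ha'
  have hd0 : ∀ l m : Fin 2, l ≠ m → (![a, a'] : Fin 2 → ℤ) l * (![b, b'] : Fin 2 → ℤ) m -
      (![a, a'] : Fin 2 → ℤ) m * (![b, b'] : Fin 2 → ℤ) l ≠ 0 := by
    intro l m hlm
    fin_cases l <;> fin_cases m
    · exact absurd rfl hlm
    · exact hdet
    · show a' * b - a * b' ≠ 0
      intro h
      apply hdet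
      linarith
    · exact absurd rfl hlm
  obtain ⟨C, t, ht, κ, hκ, H⟩ := exactU ![a, a'] ![b, b'] hA ha0 hd0 0 1 (by norm_num) T hT (by
    intro τ hτ l
    fin_cases l
    · exact hT1 τ hτ
    · exact hT2 τ hτ)
  obtain ⟨CV, hCV, hup⟩ := VL_up' ![a, a'] ![b, b'] hA ha0 hd0
  obtain ⟨X₃, h3⟩ := eventually_atTop.1 hup
  obtain ⟨cV, hcV, hVlow⟩ := V_low 1
  have hdeg : ∀ l, (lf ![a, a'] ![b, b'] l).natDegree = 1 := fun l => lf_deg _ _ l (ha0 l)
  refine ⟨C, κ, hκ, fun s θ δ hθ hδ => ?_⟩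
  obtain ⟨_, X₁, h1⟩ := H 0 θ 1 hθ one_pos
  obtain ⟨c, X₂, h2⟩ := prog_dense 2 9 (by norm_num) s θ (δ / 2 / CV) cV hθ (by positivity) hcV
  obtain ⟨X₄, h4⟩ := eventually_atTop.1 (pow_small 2 (7 / 8) (δ / 2 * θ) (by norm_num) (by positivity))
  obtain ⟨X₅, h5⟩ := eventually_atTop.1 ((((tendsto_rpow_atTop (show (0 : ℝ) < 1 / 8 - 1 / 9 by norm_num)).comp
    tendsto_natCast_atTop_atTop).eventually (eventually_gt_atTop ((b.natAbs : ℝ) + 1))))
  refine ⟨c, max (max X₁ X₂) (max (max X₃ X₄) (max X₅ 3)), fun X hX A B hB hAB => ?_⟩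
  have hX1 : X₁ ≤ X := (le_max_left _ _).trans ((le_max_left _ _).trans hX)
  have hX2 : X₂ ≤ X := (le_max_right _ _).trans ((le_max_left _ _).trans hX)
  have hX3 : X₃ ≤ X := (le_max_left _ _).trans ((le_max_left _ _).trans ((le_max_right _ _).trans hX))
  have hX4 : X₄ ≤ X := (le_max_right _ _).trans ((le_max_left _ _).trans ((le_max_right _ _).trans hX))
  have hX5 : X₅ ≤ X := (le_max_left _ _).trans ((le_max_right _ _).trans ((le_max_right _ _).trans hX))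
  have hX6 : 3 ≤ X := (le_max_right _ _).trans ((le_max_right _ _).trans ((le_max_right _ _).trans hX))
  have hX0 : (0 : ℝ) < X := by exact_mod_cast (by omega : 0 < X)
  have hXr : (1 : ℝ) ≤ X := by exact_mod_cast (by omega : 1 ≤ X)
  have hlog : 0 < Real.log X := Real.log_pos (by exact_mod_cast (by omega : 1 < X))
  have hBA0 : 0 ≤ (B : ℝ) - A := le_trans (by positivity) hAB
  constructor
  · refine ((h1 X hX1 A B hB hAB).1).trans ?_
    have h6 : GE' ![a, a'] ![b, b'] T 0 1 C t X A B ⊆ G2 a b a' b' T C X A B := by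
      intro n hn
      unfold GE' at hn
      rw [mem_filter] at hn
      obtain ⟨e1, e2, e3, _, e5⟩ := hn
      unfold G2
      rw [mem_filter]
      exact ⟨e1, e2, e3, e5⟩
    exact_mod_cast card_le_card h6
  · intro S hS hSc
    obtain ⟨S', hS'⟩ : ∃ S' : Finset ℕ, S' = S.filter (fun n : ℕ => (X : ℝ) ^ (1 / 8 : ℝ) < n) := ⟨_, rfl⟩
    have hsub : S' ⊆ S := by rw [hS']; exact filter_subset _ _
    have hcard : δ / 2 * ((B : ℝ) - A) / Real.log X ^ 2 ≤ (S'.card : ℝ) := by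
      have h6 : (S.card : ℝ) ≤ S'.card + (X : ℝ) ^ (1 / 8 : ℝ) := by
        have h7 : S ⊆ S' ∪ Ioc 0 ⌊(X : ℝ) ^ (1 / 8 : ℝ)⌋₊ := by
          intro x hx
          rw [mem_union]
          by_cases h8 : (X : ℝ) ^ (1 / 8 : ℝ) < x
          · left
            rw [hS', mem_filter]
            exact ⟨hx, h8⟩
          · right
            rw [mem_Ioc]
            have h9 := hS hx
            unfold G2 at h9
            rw [mem_filter, mem_Ioc] at h9
            exact ⟨by omega, Nat.le_floor (not_lt.1 h8)⟩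
        have h8 := (card_le_card h7).trans (card_union_le _ _)
        rw [Nat.card_Ioc, Nat.sub_zero] at h8
        have h9 : ((⌊(X : ℝ) ^ (1 / 8 : ℝ)⌋₊ : ℕ) : ℝ) ≤ (X : ℝ) ^ (1 / 8 : ℝ) := Nat.floor_le (by positivity)
        have h10 : (S.card : ℝ) ≤ S'.card + ((⌊(X : ℝ) ^ (1 / 8 : ℝ)⌋₊ : ℕ) : ℝ) := by exact_mod_cast h8
        linarith
      have h7 := h4 X hX4
      rw [show (1 : ℝ) - 7 / 8 = 1 / 8 by norm_num] at h7
      have h8 : δ / 2 * θ * (X / Real.log X ^ 2) ≤ δ / 2 * ((B : ℝ) - A) / Real.log X ^ 2 := by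
        calc δ / 2 * θ * (X / Real.log X ^ 2) = δ / 2 * (θ * X) / Real.log X ^ 2 := by ring
          _ ≤ δ / 2 * ((B : ℝ) - A) / Real.log X ^ 2 := by gcongr
      have h9 : δ * ((B : ℝ) - A) / Real.log X ^ 2 = 2 * (δ / 2 * ((B : ℝ) - A) / Real.log X ^ 2) := by ring
      linarith
    obtain ⟨x, d, e1, e2, e3⟩ := h2 X hX2 2 (lf ![a, a'] ![b, b']) (by
        simp only [hdeg]
        simp) (loc_lf hA) (by
        exact hVlow 2 (lf ![a, a'] ![b, b']) X (by omega) (loc_lf hA) (by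
          simp only [hdeg]
          simp)) A B hB hAB S' (by
        intro x hx
        have := hS (hsub hx)
        unfold G2 at this
        exact (mem_filter.1 this).1) (by
        intro x hx _ l q hq hd
        have h6 := hS (hsub hx)
        unfold G2 at h6
        rw [mem_filter] at h6
        obtain ⟨_, g1, g2, _⟩ := h6
        rw [hS', mem_filter] at hx
        have hcast : ((9 : ℕ) : ℝ) = 9 := by norm_num
        rw [hcast]
        rw [lf_eval] at hd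
        fin_cases l
        · replace hd : (q : ℤ) ∣ a * x + b := hd
          have h7 : q ∣ (a * x + b).natAbs := Int.natCast_dvd.1 hd
          have h8 := (Nat.prime_dvd_prime_iff_eq hq g1).1 h7
          have h9 : x ≤ (a * x + b).natAbs + b.natAbs := by
            have h10 : x ≤ (a * (x : ℤ)).natAbs := by
              rw [Int.natAbs_mul, Int.natAbs_natCast]
              exact Nat.le_mul_of_pos_left x (Int.natAbs_pos.2 ha)
            have h11 : (a * (x : ℤ)).natAbs ≤ (a * x + b).natAbs + b.natAbs := by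
              have := Int.natAbs_sub_le (a * x + b) b
              rwa [add_sub_cancel_right] at this
            omega
          rw [← h8] at h9
          have h10 : (x : ℝ) ≤ q + b.natAbs := by exact_mod_cast h9
          have h11 : (X : ℝ) ^ (1 / 8 : ℝ) = (X : ℝ) ^ (1 / 8 - 1 / 9 : ℝ) * (X : ℝ) ^ (1 / 9 : ℝ) := by
            rw [← Real.rpow_add hX0]
            norm_num
          have h12 := h5 X hX5
          simp only [Function.comp] at h12
          have h13 : 1 ≤ (X : ℝ) ^ (1 / 9 : ℝ) := Real.one_le_rpow hXr (by norm_num)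
          have h14 : ((b.natAbs : ℝ) + 1) * (X : ℝ) ^ (1 / 9 : ℝ) ≤ (X : ℝ) ^ (1 / 8 : ℝ) := by
            rw [h11]
            exact mul_le_mul_of_nonneg_right h12.le (by positivity)
          have h15 : (b.natAbs : ℝ) * 1 ≤ b.natAbs * (X : ℝ) ^ (1 / 9 : ℝ) :=
            mul_le_mul_of_nonneg_left h13 (Nat.cast_nonneg _)
          linarith [hx.2]
        · replace hd : (q : ℤ) ∣ a' * x + b' := hd
          exact g2.2.2 q hq hd) (by
        rw [V_lf]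
        have h6 := h3 X hX3
        refine le_trans ?_ hcard
        calc δ / 2 / CV * ((B : ℝ) - A) * VL ![a, a'] ![b, b'] X ≤
              δ / 2 / CV * ((B : ℝ) - A) * (CV / Real.log X ^ 2) :=
              mul_le_mul_of_nonneg_left h6 (mul_nonneg (by positivity) hBA0)
          _ = δ / 2 * ((B : ℝ) - A) / Real.log X ^ 2 := by
              field_simp)
    exact ⟨x, d, e1, e2, fun l hl => hsub (e3 l hl)⟩

/-- with partitions into monochromatic progressions -/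
theorem pairP (a b a' b' : ℤ) (ha : a ≠ 0) (ha' : a' ≠ 0) (hdet : a * b' - a' * b ≠ 0)
    (hadm : ∀ p : ℕ, p.Prime → ∃ n : ℤ, ¬ (p : ℤ) ∣ a * n + b ∧ ¬ (p : ℤ) ∣ a' * n + b')
    (T : Finset (ℤ × ℤ)) (hT : ∀ τ ∈ T, τ.1 ≠ 0) (hT1 : ∀ τ ∈ T, τ.1 * b - a * τ.2 ≠ 0)
    (hT2 : ∀ τ ∈ T, τ.1 * b' - a' * τ.2 ≠ 0) :
    ∃ C : ℕ, ∃ κ : ℝ, 0 < κ ∧ ∀ (l r : ℕ) (θ δ : ℝ), 1 ≤ l → 0 < θ → 0 < δ → ∃ c X₀ : ℕ, ∀ X : ℕ, X₀ ≤ X →
      ∀ A B : ℕ, B ≤ X → θ * X ≤ (B : ℝ) - A →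
        κ * ((B : ℝ) - A) / Real.log X ^ 2 ≤ ((G2 a b a' b' T C X A B).card : ℝ) ∧
        ∀ χ : ℕ → Fin r, ∃ P : Finset (ℕ × ℕ),
          (∀ z ∈ P, 1 ≤ z.2 ∧ (z.2 : ℝ) ≤ Real.log X ^ c ∧
            ∀ i < l, z.1 + i * z.2 ∈ G2 a b a' b' T C X A B ∧ χ (z.1 + i * z.2) = χ z.1) ∧
          (P : Set (ℕ × ℕ)).PairwiseDisjoint (apSet l) ∧
          (((G2 a b a' b' T C X A B \ P.biUnion (apSet l)).card : ℕ) : ℝ) ≤ δ * ((B : ℝ) - A) / Real.log X ^ 2 := by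
  classical
  obtain ⟨C, κ, hκ, H⟩ := pairU a b a' b' ha ha' hdet hadm T hT hT1 hT2
  refine ⟨C, κ, hκ, fun l r θ δ hl hθ hδ => ?_⟩
  obtain ⟨c, X₀, h⟩ := H l θ (δ / (r + 1)) hθ (by positivity)
  refine ⟨c, max X₀ 3, fun X hX A B hB hAB => ?_⟩
  obtain ⟨h1, h2⟩ := h X ((le_max_left _ _).trans hX) A B hB hAB
  refine ⟨h1, fun χ => ?_⟩
  have hX3 : 3 ≤ X := (le_max_right _ _).trans hX
  have hX0 : (0 : ℝ) < X := by exact_mod_cast (by omega : 0 < X)
  have hlog : 0 < Real.log X := Real.log_pos (by exact_mod_cast (by omega : 1 < X))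
  have hBA0 : 0 < (B : ℝ) - A := lt_of_lt_of_le (by positivity) hAB
  obtain ⟨P, p1, p2, p3⟩ := part_col l r hl (Real.log X ^ c) (δ / (r + 1) * ((B : ℝ) - A) / Real.log X ^ 2)
    (by positivity) _ h2 χ
  refine ⟨P, p1, p2, p3.le.trans ?_⟩
  have h3 : (r : ℝ) * (δ / (r + 1) * ((B : ℝ) - A) / Real.log X ^ 2) =
      (r / (r + 1)) * (δ * ((B : ℝ) - A) / Real.log X ^ 2) := by
    field_simp
  rw [h3]
  have h4 : (r : ℝ) / (r + 1) ≤ 1 := by
    rw [div_le_one (by positivity)]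
    linarith
  exact mul_le_of_le_one_left (by positivity) h4

end Pool.Agent.X32.Uni
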