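import Pool.Agent.X32.Uni.Lin

/-!
Sets of arguments with rough values which are dense with respect to the sieve product.
-/

set_option autoImplicit false

namespace Pool.Agent.X32.Uni

open Finset Filter
open scoped Polynomial

/-- the powers of `X` are smaller than `X / log ^ k X` -/
theorem pow_small (k : ℕ) (ε M : ℝ) (hε : 0 < ε) (hM : 0 < M) : ∀ᶠ X : ℕ in atTop,
    (X : ℝ) ^ (1 - ε) ≤ M * (X / Real.log X ^ k) := by
  have h1 := (isLittleO_log_rpow_rpow_atTop (k : ℝ) hε).comp_tendsto tendsto_natCast_atTop_atTop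
  have h2 := h1.bound hM
  filter_upwards [h2, eventually_ge_atTop 3] with X hX hX3
  have hX0 : (0 : ℝ) < X := by exact_mod_cast (by omega : 0 < X)
  have hlog : 0 < Real.log X := Real.log_pos (by exact_mod_cast (by omega : 1 < X))
  simp only [Function.comp, Real.norm_eq_abs, Real.rpow_natCast] at hX
  rw [abs_of_pos (by positivity), abs_of_pos (by positivity)] at hX
  rw [mul_div_assoc', le_div_iff₀ (by positivity)]
  calc (X : ℝ) ^ (1 - ε) * Real.log X ^ k ≤ (X : ℝ) ^ (1 - ε) * (M * (X : ℝ) ^ ε) := by gcongr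
    _ = M * ((X : ℝ) ^ (1 - ε) * (X : ℝ) ^ ε) := by ring
    _ = M * X := by
        rw [← Real.rpow_add hX0, sub_add_cancel, Real.rpow_one]

/-- narrow progressions in sets of arguments whose large elements have rough values -/
theorem prog_dense (D t : ℕ) (ht : 2 ≤ t) (k : ℕ) (θ δ c : ℝ) (hθ : 0 < θ) (hδ : 0 < δ) (hc : 0 < c) :
    ∃ C n₀ : ℕ, ∀ n : ℕ, n₀ ≤ n → ∀ (m : ℕ) (f : Fin m → ℤ[X]), (∑ k, (f k).natDegree) ≤ D →
      Loc f → c / Real.log n ^ D ≤ V f n → ∀ A B : ℕ, B ≤ n → θ * n ≤ (B : ℝ) - A → ∀ S : Finset ℕ, S ⊆ Ioc A B →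
      (∀ x ∈ S, (n : ℝ) ^ (1 / (t : ℝ)) < x →
        ∀ k, ∀ q : ℕ, q.Prime → (q : ℤ) ∣ (f k).eval (x : ℤ) → (n : ℝ) ^ (1 / (t : ℝ)) < q) →
      δ * ((B : ℝ) - A) * V f n ≤ (S.card : ℝ) →
        ∃ a h : ℕ, 1 ≤ h ∧ (h : ℝ) ≤ Real.log n ^ C ∧ ∀ j < k, a + j * h ∈ S := by
  classical
  obtain ⟨C, n₁, h1⟩ := prog_of D t (by omega) (δ / 2) (by positivity) k θ 1 hθ one_pos
  have ht0 : (2 : ℝ) ≤ t := by exact_mod_cast ht
  obtain ⟨n₂, h2⟩ := eventually_atTop.1 (pow_small D (1 / 2) (δ / 2 * θ * c) (by norm_num) (by positivity))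
  refine ⟨C, max n₁ (max n₂ 3), ?_⟩
  intro n hn m f hD hloc hV A B hBn hAB S hS hSq hSc
  have hn1 : n₁ ≤ n := (le_max_left _ _).trans hn
  have hn2 : n₂ ≤ n := (le_max_left _ _).trans ((le_max_right _ _).trans hn)
  have hn3 : 3 ≤ n := (le_max_right _ _).trans ((le_max_right _ _).trans hn)
  have hn0 : (0 : ℝ) < n := by exact_mod_cast (by omega : 0 < n)
  have hnr : (1 : ℝ) ≤ n := by exact_mod_cast (by omega : 1 ≤ n)
  have hlog : 0 < Real.log n := Real.log_pos (by exact_mod_cast (by omega : 1 < n))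
  obtain ⟨S', hS'⟩ : ∃ S' : Finset ℕ, S' = S.filter (fun x : ℕ => (n : ℝ) ^ (1 / (t : ℝ)) < x) := ⟨_, rfl⟩
  have hsub : S' ⊆ S := by rw [hS']; exact filter_subset _ _
  have hV0 : 0 ≤ V f n := le_trans (by positivity) hV
  have hcard : δ / 2 * ((B : ℝ) - A) * V f n ≤ (S'.card : ℝ) := by
    have h3 : (S.card : ℝ) ≤ S'.card + (n : ℝ) ^ (1 / 2 : ℝ) := by
      have h4 : S ⊆ S' ∪ Ioc 0 ⌊(n : ℝ) ^ (1 / (t : ℝ))⌋₊ := by
        intro x hx
        rw [mem_union]
        by_cases h5 : (n : ℝ) ^ (1 / (t : ℝ)) < x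
        · left
          rw [hS', mem_filter]
          exact ⟨hx, h5⟩
        · right
          rw [mem_Ioc]
          have h6 := (mem_Ioc.1 (hS hx)).1
          exact ⟨by omega, Nat.le_floor (not_lt.1 h5)⟩
      have h5 := (card_le_card h4).trans (card_union_le _ _)
      rw [Nat.card_Ioc, Nat.sub_zero] at h5
      have h6 : ((⌊(n : ℝ) ^ (1 / (t : ℝ))⌋₊ : ℕ) : ℝ) ≤ (n : ℝ) ^ (1 / 2 : ℝ) := by
        refine (Nat.floor_le (by positivity)).trans ?_
        apply Real.rpow_le_rpow_of_exponent_le hnr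
        rw [div_le_div_iff₀ (by linarith) (by norm_num)]
        linarith
      have h7 : (S.card : ℝ) ≤ S'.card + ((⌊(n : ℝ) ^ (1 / (t : ℝ))⌋₊ : ℕ) : ℝ) := by exact_mod_cast h5
      linarith
    have h4 := h2 n hn2
    rw [show (1 : ℝ) - 1 / 2 = 1 / 2 by norm_num] at h4
    have h5 : δ / 2 * θ * c * (n / Real.log n ^ D) ≤ δ / 2 * ((B : ℝ) - A) * V f n := by
      calc δ / 2 * θ * c * (n / Real.log n ^ D) = δ / 2 * (θ * n) * (c / Real.log n ^ D) := by ring
        _ ≤ δ / 2 * ((B : ℝ) - A) * V f n :=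
          mul_le_mul (mul_le_mul_of_nonneg_left hAB (by positivity)) hV (by positivity)
            (mul_nonneg (by positivity) (le_trans (by positivity) hAB))
    have h6 : δ * ((B : ℝ) - A) * V f n = 2 * (δ / 2 * ((B : ℝ) - A) * V f n) := by ring
    linarith
  obtain ⟨a, h, e1, e2, e3⟩ := h1 n hn1 m f hD hloc A B hBn hAB S' (hsub.trans hS) (fun x hx => by
    rw [hS', mem_filter] at hx
    exact hSq x hx.1 hx.2) hcard S' Finset.Subset.rfl (by rw [one_mul])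
  exact ⟨a, h, e1, e2, fun j hj => hsub (e3 j hj)⟩

end Pool.Agent.X32.Uni
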