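import Pool.Agent.X32.Uni.Exact

/-!
Partition into progressions.
-/

set_option autoImplicit false

namespace Pool.Agent.X32.Uni

open Finset

/-- the terms of a progression -/
def apSet (l : ℕ) (z : ℕ × ℕ) : Finset ℕ := (range l).image (fun i => z.1 + i * z.2)

/-- if every set with at least `D` elements contains a progression, then the whole set is, up to fewer than `D`
elements, a disjoint union of progressions -/
theorem part_of (l : ℕ) (hl : 1 ≤ l) (H D : ℝ) (hD : 0 < D) (G : Finset ℕ) (Q : ℕ × ℕ → Prop)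
    (h : ∀ S : Finset ℕ, S ⊆ G → D ≤ S.card → ∃ a b : ℕ, 1 ≤ b ∧ (b : ℝ) ≤ H ∧ Q (a, b) ∧ ∀ i < l, a + i * b ∈ S) :
    ∃ P : Finset (ℕ × ℕ), (∀ z ∈ P, 1 ≤ z.2 ∧ (z.2 : ℝ) ≤ H ∧ Q z ∧ apSet l z ⊆ G) ∧
      (P : Set (ℕ × ℕ)).PairwiseDisjoint (apSet l) ∧ (((G \ P.biUnion (apSet l)).card : ℕ) : ℝ) < D := by
  classical
  -- a maximal family
  have key : ∀ n : ℕ, ∀ S : Finset ℕ, S ⊆ G → S.card = n → ∃ P : Finset (ℕ × ℕ),
      (∀ z ∈ P, 1 ≤ z.2 ∧ (z.2 : ℝ) ≤ H ∧ Q z ∧ apSet l z ⊆ S) ∧
      (P : Set (ℕ × ℕ)).PairwiseDisjoint (apSet l) ∧ (((S \ P.biUnion (apSet l)).card : ℕ) : ℝ) < D := by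
    intro n
    induction n using Nat.strong_induction_on with
    | _ n ih =>
      intro S hS hn
      rcases lt_or_ge ((S.card : ℕ) : ℝ) D with hlt | hge
      · refine ⟨∅, by simp, by simp, ?_⟩
        simpa using hlt
      · obtain ⟨a, b, hb1, hb2, hQ, hab⟩ := h S hS hge
        have hsub : apSet l (a, b) ⊆ S := by
          intro x hx
          unfold apSet at hx
          rw [mem_image] at hx
          obtain ⟨i, hi, rfl⟩ := hx
          exact hab i (mem_range.1 hi)
        have hne : (apSet l (a, b)).Nonempty := by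
          refine ⟨a + 0 * b, ?_⟩
          unfold apSet
          rw [mem_image]
          exact ⟨0, mem_range.2 (by omega), rfl⟩
        have hcard : (S \ apSet l (a, b)).card < n := by
          rw [card_sdiff_of_subset hsub]
          have h1 := hne.card_pos
          have h2 := card_le_card hsub
          omega
        obtain ⟨P, hP1, hP2, hP3⟩ := ih _ hcard (S \ apSet l (a, b)) (sdiff_subset.trans hS) rfl
        refine ⟨insert (a, b) P, ?_, ?_, ?_⟩
        · intro z hz
          rw [mem_insert] at hz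
          rcases hz with rfl | hz
          · exact ⟨hb1, hb2, hQ, hsub⟩
          · obtain ⟨z1, z2, z3, z4⟩ := hP1 z hz
            exact ⟨z1, z2, z3, z4.trans sdiff_subset⟩
        · rw [coe_insert]
          apply hP2.insert
          intro z hz _
          have h1 := (hP1 z hz).2.2.2
          exact (disjoint_of_subset_left h1 sdiff_disjoint).symm
        · have he : S \ (insert (a, b) P).biUnion (apSet l) = (S \ apSet l (a, b)) \ P.biUnion (apSet l) := by
            rw [biUnion_insert]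
            ext x
            simp only [mem_union, mem_sdiff]
            tauto
          rw [he]
          exact hP3
  exact key _ G subset_rfl rfl

/-- partition into monochromatic progressions -/
theorem part_col (l r : ℕ) (hl : 1 ≤ l) (H D : ℝ) (hD : 0 < D) (G : Finset ℕ)
    (h : ∀ S : Finset ℕ, S ⊆ G → D ≤ S.card → ∃ a b : ℕ, 1 ≤ b ∧ (b : ℝ) ≤ H ∧ ∀ i < l, a + i * b ∈ S)
    (χ : ℕ → Fin r) : ∃ P : Finset (ℕ × ℕ),
      (∀ z ∈ P, 1 ≤ z.2 ∧ (z.2 : ℝ) ≤ H ∧ ∀ i < l, z.1 + i * z.2 ∈ G ∧ χ (z.1 + i * z.2) = χ z.1) ∧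
      (P : Set (ℕ × ℕ)).PairwiseDisjoint (apSet l) ∧ (((G \ P.biUnion (apSet l)).card : ℕ) : ℝ) < r * D := by
  classical
  have hr : 0 < r := lt_of_le_of_lt (Nat.zero_le _) (χ 0).isLt
  have hr0 : (0 : ℝ) < r := by exact_mod_cast hr
  obtain ⟨P, h1, h2, h3⟩ := part_of l hl H (r * D) (by positivity) G (fun z => ∀ i < l, χ (z.1 + i * z.2) = χ z.1) (by
    intro S hS hSc
    -- a large colour class
    obtain ⟨c, hc⟩ : ∃ c : Fin r, D ≤ ((S.filter (fun x => χ x = c)).card : ℝ) := by
      by_contra hcon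
      push Not at hcon
      have h4 : S.card = ∑ c : Fin r, (S.filter (fun x => χ x = c)).card :=
        card_eq_sum_card_fiberwise (f := χ) (t := univ) (fun x _ => mem_univ _)
      have h5 : (S.card : ℝ) < ∑ c : Fin r, D := by
        rw [h4]
        push_cast
        apply sum_lt_sum_of_nonempty
        · exact ⟨⟨0, hr⟩, mem_univ _⟩
        · intro c _
          exact hcon c
      rw [sum_const, card_univ, Fintype.card_fin, nsmul_eq_mul] at h5
      linarith
    obtain ⟨a, b, e1, e2, e3⟩ := h _ ((filter_subset _ _).trans hS) hc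
    refine ⟨a, b, e1, e2, fun i hi => ?_, fun i hi => (mem_filter.1 (e3 i hi)).1⟩
    have h4 := (mem_filter.1 (e3 i hi)).2
    have h5 := (mem_filter.1 (e3 0 (by omega))).2
    rw [zero_mul, add_zero] at h5
    rw [h4, h5])
  refine ⟨P, fun z hz => ?_, h2, h3⟩
  obtain ⟨z1, z2, z3, z4⟩ := h1 z hz
  refine ⟨z1, z2, fun i hi => ⟨z4 ?_, z3 i hi⟩⟩
  unfold apSet
  rw [mem_image]
  exact ⟨i, mem_range.2 hi, rfl⟩

end Pool.Agent.X32.Uni
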