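import Pool.Agent.X32.Uni.Main
import Pool.Agent.Y843.HS.Top

/-!
Narrow progressions in dense subsets of the good sets.
-/

set_option autoImplicit false

namespace Pool.Agent.X32.Uni

open Finset Filter
open scoped Polynomial
open Pool.Agent.Y843.HS (Pr VV Pr_mem Pr_prime VV_split Sv)

variable {m : ℕ}

/-- the zeros of the product modulo `p` -/
noncomputable def Zf (f : Fin m → ℤ[X]) (p : ℕ) : Finset ℕ :=
  (range p).filter (fun x : ℕ => (p : ℤ) ∣ ∏ k, (f k).eval (x : ℤ))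

theorem Pr_eq (n : ℕ) : Pr 0 n = (Icc 1 n).filter Nat.Prime := by
  ext p
  rw [Pr_mem, mem_filter, mem_Icc]
  constructor
  · rintro ⟨⟨a, b⟩, c⟩
    exact ⟨⟨c.pos, b⟩, c⟩
  · rintro ⟨⟨a, b⟩, c⟩
    exact ⟨⟨c.pos, b⟩, c⟩

/-- the sieve product up to a power of `n` -/
theorem V_Y (D t : ℕ) (ht : 1 ≤ t) : ∃ c : ℝ, 0 < c ∧ ∃ n₀ : ℕ, ∀ n : ℕ, n₀ ≤ n →
    ∀ (m : ℕ) (f : Fin m → ℤ[X]), (∑ k, (f k).natDegree) ≤ D → Loc f →
    c * VV (Zf f) 0 ⌊(n : ℝ) ^ (1 / (t : ℝ))⌋₊ ≤ V f n := by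
  classical
  obtain ⟨c, hc, R₀, hR⟩ := Pool.Agent.Y79.HS.den D (t + 1)
  obtain ⟨n₁, h1⟩ := eventually_atTop.1 (pow_ge t ht (max (R₀ + 1) (2 ^ (t + 1))))
  refine ⟨c, hc, max n₁ 1, fun n hn m f hfD hloc => ?_⟩
  have hn1 : 1 ≤ n := (le_max_right _ _).trans hn
  have hn0 : (0 : ℝ) < n := by exact_mod_cast hn1
  have ht0 : (0 : ℝ) < t := by exact_mod_cast ht
  obtain ⟨w, hw⟩ : ∃ w : ℝ, w = (n : ℝ) ^ (1 / (t : ℝ)) := ⟨_, rfl⟩
  have h2 := h1 n ((le_max_left _ _).trans hn)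
  rw [← hw] at h2 ⊢
  have hwR : (R₀ : ℝ) + 1 < w := lt_of_le_of_lt (le_max_left _ _) h2
  have hw2 : (2 : ℝ) ^ (t + 1) < w := lt_of_le_of_lt (le_max_right _ _) h2
  have hw1 : (1 : ℝ) ≤ w := by
    have : (1 : ℝ) ≤ 2 ^ (t + 1) := one_le_pow₀ (by norm_num)
    linarith
  obtain ⟨Y, hY⟩ : ∃ Y : ℕ, Y = ⌊w⌋₊ := ⟨_, rfl⟩
  rw [← hY]
  have hYw : (Y : ℝ) ≤ w := by rw [hY]; exact Nat.floor_le (by linarith)
  have hwY : w < Y + 1 := by rw [hY]; exact Nat.lt_floor_add_one _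
  have hYR : R₀ ≤ Y := by
    have : (R₀ : ℝ) ≤ Y := by linarith
    exact_mod_cast this
  have hwt : w ^ t = n := by
    rw [hw, ← Real.rpow_natCast, ← Real.rpow_mul hn0.le, one_div, inv_mul_cancel₀ ht0.ne', Real.rpow_one]
  have hYn : Y ≤ n := by
    have h3 : w ≤ w ^ t := by
      calc w = w ^ 1 := (pow_one w).symm
        _ ≤ w ^ t := pow_le_pow_right₀ hw1 ht
    have : (Y : ℝ) ≤ n := by rw [← hwt]; linarith
    exact_mod_cast this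
  have hnY : n ≤ Y ^ (t + 1) := by
    have h3 : w / 2 ≤ Y := by
      have : (2 : ℝ) ≤ w := by
        have : (2 : ℝ) ≤ 2 ^ (t + 1) := by
          calc (2 : ℝ) = 2 ^ 1 := (pow_one 2).symm
            _ ≤ 2 ^ (t + 1) := pow_le_pow_right₀ (by norm_num) (by omega)
        linarith
      linarith
    have h4 : (w / 2) ^ (t + 1) ≤ (Y : ℝ) ^ (t + 1) := pow_le_pow_left₀ (by positivity) h3 _
    have h5 : (n : ℝ) ≤ (w / 2) ^ (t + 1) := by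
      rw [div_pow, pow_succ w, hwt, le_div_iff₀ (by positivity)]
      exact mul_le_mul_of_nonneg_left hw2.le hn0.le
    exact_mod_cast h5.trans h4
  have hcard : ∀ p, (Zf f p).card = om f p := fun p => rfl
  have hVV : V f n = VV (Zf f) 0 n := by
    unfold V VV
    rw [Pr_eq]
    rfl
  rw [hVV, ← VV_split (Zf f) (Nat.zero_le Y) hYn]
  have h6 := hR Y n hYR hnY (Zf f) (by
    intro p hp
    refine ⟨?_, ?_⟩
    · rw [hcard]
      exact (om_le hloc (Pr_prime hp)).trans hfD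
    · intro c hc
      exact mem_range.1 (mem_filter.1 hc).1)
  have h7 : 0 ≤ VV (Zf f) 0 Y := by
    unfold VV
    refine prod_nonneg fun p hp => ?_
    rw [hcard]
    exact (fac_bounds hloc (Pr_prime hp)).1.le
  rw [mul_comm]
  exact mul_le_mul_of_nonneg_left h6 h7

/-- narrow progressions in dense subsets of a set of arguments whose values have no small prime factor -/
theorem prog_of (D t : ℕ) (ht : 1 ≤ t) (κ : ℝ) (hκ : 0 < κ) (k : ℕ) (θ δ : ℝ) (hθ : 0 < θ) (hδ : 0 < δ) :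
    ∃ C n₀ : ℕ, ∀ n : ℕ, n₀ ≤ n → ∀ (m : ℕ) (f : Fin m → ℤ[X]), (∑ k, (f k).natDegree) ≤ D →
      Loc f → ∀ A B : ℕ, B ≤ n → θ * n ≤ (B : ℝ) - A → ∀ G : Finset ℕ, G ⊆ Ioc A B →
      (∀ x ∈ G, ∀ k, ∀ q : ℕ, q.Prime → (q : ℤ) ∣ (f k).eval (x : ℤ) → (n : ℝ) ^ (1 / (t : ℝ)) < q) →
      κ * ((B : ℝ) - A) * V f n ≤ (G.card : ℝ) →
      ∀ S : Finset ℕ, S ⊆ G → δ * (G.card : ℝ) ≤ S.card →
        ∃ a h : ℕ, 1 ≤ h ∧ (h : ℝ) ≤ Real.log n ^ C ∧ ∀ j < k, a + j * h ∈ S := by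
  classical
  obtain ⟨c, hc, n₁, hV⟩ := V_Y D t ht
  have ht0 : (0 : ℝ) < t := by exact_mod_cast ht
  obtain ⟨C, X₀, hfin⟩ := Pool.Agent.Y843.HS.fin k D (1 / (t : ℝ)) (δ * κ * θ * c) (by positivity)
    (by positivity)
  refine ⟨C, max n₁ X₀, ?_⟩
  intro n hn m f hfD hloc A B hBn hAB G hG hGq hGc S hS hSc
  have h1 := hV n ((le_max_left _ _).trans hn) m f hfD hloc
  have hcard : ∀ p, (Zf f p).card = om f p := fun p => rfl
  apply hfin n 0 ((le_max_right _ _).trans hn) (Zf f)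
  · intro p hp _
    refine ⟨?_, ?_, ?_⟩
    · rw [hcard]
      exact (om_le hloc hp).trans hfD
    · rw [hcard]
      exact om_lt hloc hp
    · intro x hx
      exact mem_range.1 (mem_filter.1 hx).1
  · intro x hx
    have h2 := hG (hS hx)
    rw [mem_Ioc] at h2 ⊢
    omega
  · intro x hx p hp hpn hcon
    have h2 := (mem_filter.1 hcon).2
    have h3 : (p : ℤ) ∣ ∏ k, (f k).eval (x : ℤ) := by
      have h4 : (((x % p : ℕ) : ℤ)) ≡ x [ZMOD p] := by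
        push_cast
        exact Int.mod_modEq _ _
      rwa [dvd_iff h4] at h2
    obtain ⟨k', _, hk'⟩ := (Nat.prime_iff_prime_int.1 hp).exists_mem_finset_dvd h3
    have := hGq x (hS hx) k' p hp hk'
    linarith
  · have h7 : 0 ≤ VV (Zf f) 0 ⌊(n : ℝ) ^ (1 / (t : ℝ))⌋₊ := by
      unfold VV
      refine prod_nonneg fun p hp => ?_
      rw [hcard]
      exact (fac_bounds hloc (Pr_prime hp)).1.le
    have hV0 := V_nonneg hloc n
    have hn0 : (0 : ℝ) ≤ n := Nat.cast_nonneg n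
    calc δ * κ * θ * c * n * VV (Zf f) 0 ⌊(n : ℝ) ^ (1 / (t : ℝ))⌋₊ =
          δ * (κ * (θ * n) * (c * VV (Zf f) 0 ⌊(n : ℝ) ^ (1 / (t : ℝ))⌋₊)) := by ring
      _ ≤ δ * (κ * (θ * n) * V f n) := by gcongr
      _ ≤ δ * (κ * ((B : ℝ) - A) * V f n) := by gcongr
      _ ≤ δ * G.card := by gcongr
      _ ≤ _ := hSc


/-- **Narrow progressions**: in dense subsets of the good sets -/
theorem progU (D E : ℕ) (hD1 : 1 ≤ D) : ∃ t : ℕ, 1 ≤ t ∧ ∃ κ : ℝ, 0 < κ ∧ ∀ θ : ℝ, 0 < θ → ∀ K : ℕ,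
    (∃ n₀ : ℕ, ∀ n : ℕ, n₀ ≤ n → ∀ (m : ℕ) (f : Fin m → ℤ[X]) (i j : Fin m), Sys D E K n f i j →
      κ / Real.log n ^ D ≤ V f n ∧ ∀ A B : ℕ, B ≤ n → θ * n ≤ (B : ℝ) - A →
        κ * ((B : ℝ) - A) * V f n ≤ ((GoodX f i j t n A B).card : ℝ)) ∧
    ∀ k : ℕ, ∀ δ : ℝ, 0 < δ → ∃ C n₀ : ℕ,
      ∀ n : ℕ, n₀ ≤ n → ∀ (m : ℕ) (f : Fin m → ℤ[X]) (i j : Fin m), Sys D E K n f i j →
      ∀ A B : ℕ, B ≤ n → θ * n ≤ (B : ℝ) - A →
        ∀ S : Finset ℕ, S ⊆ GoodX f i j t n A B → δ * ((GoodX f i j t n A B).card : ℝ) ≤ S.card →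
        ∃ a h : ℕ, 1 ≤ h ∧ (h : ℝ) ≤ Real.log n ^ C ∧ ∀ l < k, a + l * h ∈ S := by
  classical
  obtain ⟨t, ht, κ, hκ, H⟩ := mainU D E hD1
  refine ⟨t, ht, κ, hκ, fun θ hθ K => ⟨H θ hθ K, fun k δ hδ => ?_⟩⟩
  obtain ⟨n₁, h1⟩ := H θ hθ K
  obtain ⟨C, n₂, h2⟩ := prog_of D t ht κ hκ k θ δ hθ hδ
  refine ⟨C, max n₁ n₂, ?_⟩
  intro n hn m f i j SS A B hBn hAB S hS hSc
  have h5 := (h1 n ((le_max_left _ _).trans hn) m f i j SS).2 A B hBn hAB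
  refine h2 n ((le_max_right _ _).trans hn) m f SS.sum SS.loc A B hBn hAB _ ?_ ?_ h5 S hS hSc
  · exact filter_subset _ _
  · intro x hx k q hq hd
    unfold GoodX at hx
    rw [mem_filter] at hx
    exact (hx.2.2.2 k).2.2 q hq hd

end Pool.Agent.X32.Uni
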