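import Pool.Agent.X32.Uni.UncS

/-!
Uniform systems at Chen pairs `n`, `n + d`.
-/

set_option autoImplicit false

namespace Pool.Agent.X32.Uni

open Finset Filter
open Polynomial (C X)
open scoped Polynomial

/-- the number of zeros of `x (x + d) ∏ f` -/
def omD (d : ℤ) (Q : Finset ℤ[X]) (p : ℕ) : ℕ :=
  ((range p).filter fun x : ℕ => (p : ℤ) ∣ (x : ℤ) * ((x : ℤ) + d) * ∏ f ∈ Q, f.eval (x : ℤ)).card

/-- the local factors at the primes in `(z, X]` -/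
noncomputable def VD (d : ℤ) (Q : Finset ℤ[X]) (z X : ℕ) : ℝ :=
  ∏ p ∈ (Ioc z X).filter Nat.Prime, (1 - (omD d Q p : ℝ) / p)

open Classical in
/-- the good arguments -/
noncomputable def GD (d : ℤ) (Q T : Finset ℤ[X]) (z G t X A B : ℕ) : Finset ℕ :=
  (Ioc A B).filter (fun n : ℕ => n.Prime ∧ Almost 2 ((X : ℝ) ^ (1 / 9 : ℝ)) ((n : ℤ) + d) ∧
    Almost t ((X : ℝ) ^ (1 / (t : ℝ))) (n : ℤ) ∧ Almost t ((X : ℝ) ^ (1 / (t : ℝ))) ((n : ℤ) + d) ∧
    (∀ f ∈ T, Almost (t * f.natDegree) ((X : ℝ) ^ (1 / (t : ℝ))) (f.eval (n : ℤ))) ∧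
    ∀ f ∈ Q, Near z G (t * f.natDegree) ((X : ℝ) ^ (1 / (t : ℝ))) (f.eval (n : ℤ)))

theorem pairQ (D E : ℕ) : ∃ z G t : ℕ, 1 ≤ t ∧ ∃ κ : ℝ, 0 < κ ∧ ∀ (K s ρ : ℕ) (θ δ : ℝ),
    1 ≤ s → 0 < θ → 0 < δ → ∃ c X₀ : ℕ, ∀ X : ℕ, X₀ ≤ X → ∀ (d : ℤ) (Q T : Finset ℤ[X]),
      d ≠ 0 → |d| ≤ K * (X : ℤ) → T ⊆ Q → (∑ f ∈ Q, f.natDegree ≤ D) →
      (∀ f ∈ Q, 1 ≤ f.natDegree ∧ f.leadingCoeff.natAbs ≤ E ∧
        ∀ n, n < f.natDegree → |f.coeff n| ≤ K * (X : ℤ) ^ (f.natDegree - n)) →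
      (∀ p : ℕ, p.Prime → ∃ x : ℤ, ¬ (p : ℤ) ∣ x * (x + d) * ∏ f ∈ T, f.eval x) →
      κ / Real.log X ^ (D + 2) ≤ VD d Q z X ∧
      ∀ A B : ℕ, B ≤ X → θ * X ≤ (B : ℝ) - A →
        κ * ((B : ℝ) - A) * VD d Q z X ≤ ((GD d Q T z G t X A B).card : ℝ) ∧
        ∀ χ : ℕ → Fin ρ, ∃ P : Finset (ℕ × ℕ),
          (∀ τ ∈ P, 1 ≤ τ.2 ∧ (τ.2 : ℝ) ≤ Real.log X ^ c ∧
            ∀ l < s, τ.1 + l * τ.2 ∈ GD d Q T z G t X A B ∧ χ (τ.1 + l * τ.2) = χ τ.1) ∧
          (P : Set (ℕ × ℕ)).PairwiseDisjoint (apSet s) ∧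
          (((GD d Q T z G t X A B \ P.biUnion (apSet s)).card : ℕ) : ℝ) ≤
            δ * ((B : ℝ) - A) * VD d Q z X := by
  classical
  obtain ⟨z, G, t, _, ht, κ, hκ, H⟩ := uncQ D (max E 1) (le_max_right _ _)
  refine ⟨z, G, t, ht, κ, hκ, fun K s ρ θ δ hs hθ hδ => ?_⟩
  obtain ⟨c, X₀, h⟩ := H K s ρ θ δ hs hθ hδ
  refine ⟨c, max X₀ 1, fun X hX d Q T hd hdK hTQ hsum hQ hloc => ?_⟩
  have hX0 : X₀ ≤ X := (le_max_left _ _).trans hX
  have hX1 : 1 ≤ X := (le_max_right _ _).trans hX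
  have hv1 : (Polynomial.X + C d : ℤ[X]).coeff 1 = 1 := by
    rw [Polynomial.coeff_add, Polynomial.coeff_X_one, Polynomial.coeff_C]
    simp
  have hv0 : (Polynomial.X + C d : ℤ[X]).coeff 0 = d := by
    rw [Polynomial.coeff_add, Polynomial.coeff_X_zero, Polynomial.coeff_C_zero, zero_add]
  have h1 := h X hX0 (Polynomial.X : ℤ[X]) (Polynomial.X + C d) Q T
    { TQ := hTQ
      du := Polynomial.natDegree_X
      dv := Polynomial.natDegree_X_add_C d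
      u1 := by
        rw [Polynomial.coeff_X_one]
        exact le_max_right _ _
      v1 := by
        rw [hv1]
        exact le_max_right _ _
      u0 := by
        rw [Polynomial.coeff_X_zero, abs_zero]
        positivity
      v0 := by
        rw [hv0]
        exact hdK
      det := by
        rw [hv0, hv1, Polynomial.coeff_X_one, Polynomial.coeff_X_zero]
        simpa using hd
      deg := fun f hf => (hQ f hf).1
      sum := hsum
      lc := fun f hf => (hQ f hf).2.1.trans (le_max_left _ _)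
      size := fun f hf => (hQ f hf).2.2
      loc := by
        intro p hp
        obtain ⟨x, hx⟩ := hloc p hp
        refine ⟨x, ?_⟩
        rwa [Polynomial.eval_X, Polynomial.eval_add, Polynomial.eval_X, Polynomial.eval_C] }
  have hV : VQ (Polynomial.X : ℤ[X]) (Polynomial.X + C d) Q z X = VD d Q z X := by
    unfold VQ VD omQ omD
    simp only [Polynomial.eval_X, Polynomial.eval_add, Polynomial.eval_C]
  have hG : ∀ A B, GQ (Polynomial.X : ℤ[X]) (Polynomial.X + C d) Q T z G t X A B = GD d Q T z G t X A B := by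
    intro A B
    unfold GQ GD
    apply filter_congr fun x _ => ?_
    simp only [Polynomial.eval_X, Polynomial.eval_add, Polynomial.eval_C, Int.natAbs_natCast]
    tauto
  rw [hV] at h1
  simp only [hG] at h1
  exact h1

end Pool.Agent.X32.Uni
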