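import Pool.Agent.X32.Uni.UncD
import Pool.Agent.X32.Uni.UQua

/-!
Uniform systems with large coefficients at Chen pairs `n`, `n + d`.
-/

set_option autoImplicit false

namespace Pool.Agent.X32.Uni

open Finset Filter
open Polynomial (C X)
open scoped Polynomial

open Classical in
/-- the good arguments -/
noncomputable def GDc (d : ℤ) (Q T : Finset ℤ[X]) (z G t X A B : ℕ) : Finset ℕ :=
  (Ioc A B).filter (fun n : ℕ => n.Prime ∧ Almost 2 ((X : ℝ) ^ (1 / 9 : ℝ)) ((n : ℤ) + d) ∧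
    Almost t ((X : ℝ) ^ (1 / (t : ℝ))) (n : ℤ) ∧ Almost t ((X : ℝ) ^ (1 / (t : ℝ))) ((n : ℤ) + d) ∧
    (∀ f ∈ T, Almost t ((X : ℝ) ^ (1 / (t : ℝ))) (f.eval (n : ℤ))) ∧
    ∀ f ∈ Q, Near z G t ((X : ℝ) ^ (1 / (t : ℝ))) (f.eval (n : ℤ)))

theorem pairD (D E A₀ : ℕ) (hE : 1 ≤ E) : ∃ z G t : ℕ, 1 ≤ t ∧ ∃ κ : ℝ, 0 < κ ∧ ∀ (K s ρ : ℕ) (θ δ : ℝ),
    1 ≤ s → 0 < θ → 0 < δ → ∃ c X₀ : ℕ, ∀ X : ℕ, X₀ ≤ X → ∀ (d : ℤ) (Q T : Finset ℤ[X]),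
      d ≠ 0 → |d| ≤ K * (X : ℤ) → T ⊆ Q → (∑ f ∈ Q, f.natDegree ≤ D) →
      (∀ f ∈ Q, 1 ≤ f.natDegree ∧ ContB E f ∧ ∀ n, |f.coeff n| ≤ (X : ℤ) ^ A₀) →
      (∀ p : ℕ, p.Prime → ∃ x : ℤ, ¬ (p : ℤ) ∣ x * (x + d) * ∏ f ∈ T, f.eval x) →
      κ / Real.log X ^ (D + 2) ≤ VD d Q z X ∧
      ∀ A B : ℕ, B ≤ X → θ * X ≤ (B : ℝ) - A →
        κ * ((B : ℝ) - A) * VD d Q z X ≤ ((GDc d Q T z G t X A B).card : ℝ) ∧
        ∀ χ : ℕ → Fin ρ, ∃ P : Finset (ℕ × ℕ),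
          (∀ τ ∈ P, 1 ≤ τ.2 ∧ (τ.2 : ℝ) ≤ Real.log X ^ c ∧
            ∀ l < s, τ.1 + l * τ.2 ∈ GDc d Q T z G t X A B ∧ χ (τ.1 + l * τ.2) = χ τ.1) ∧
          (P : Set (ℕ × ℕ)).PairwiseDisjoint (apSet s) ∧
          (((GDc d Q T z G t X A B \ P.biUnion (apSet s)).card : ℕ) : ℝ) ≤
            δ * ((B : ℝ) - A) * VD d Q z X := by
  classical
  obtain ⟨z, G, t, ht, κ, hκ, H⟩ := pairC D E A₀ hE
  refine ⟨z, G, t, ht, κ, hκ, fun K s ρ θ δ hs hθ hδ => ?_⟩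
  obtain ⟨c, X₀, h⟩ := H K s ρ θ δ hs hθ hδ
  refine ⟨c, X₀, fun X hX d Q T hd hdK hTQ hsum hQ hloc => ?_⟩
  have h1 := h X hX d Q T hd hdK hTQ hsum hQ hloc
  have hV : VQ (Polynomial.X : ℤ[X]) (Polynomial.X + C d) Q z X = VD d Q z X := by
    unfold VQ VD omQ omD
    simp only [Polynomial.eval_X, Polynomial.eval_add, Polynomial.eval_C]
  have hG : ∀ A B, GQc (Polynomial.X : ℤ[X]) (Polynomial.X + C d) Q T z G t X A B = GDc d Q T z G t X A B := by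
    intro A B
    unfold GQc GDc
    apply filter_congr fun x _ => ?_
    simp only [Polynomial.eval_X, Polynomial.eval_add, Polynomial.eval_C, Int.natAbs_natCast]
    tauto
  rw [hV] at h1
  simp only [hG] at h1
  exact h1

end Pool.Agent.X32.Uni
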