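import Pool.Agent.X32.Uni.LinC
import Pool.Agent.X32.Uni.UQuaC

/-!
Progressions with moduli up to a power of the length, prime multipliers.
-/

set_option autoImplicit false

namespace Pool.Agent.X32.Uni

open Finset Filter
open Polynomial (C X)
open scoped Polynomial

/-- the number of zeros of `x (x + e) ∏ (d x + a)` -/
def omPr (e : ℤ) (S : Finset (ℤ × ℤ)) (p : ℕ) : ℕ :=
  ((range p).filter fun x : ℕ => (p : ℤ) ∣ (x : ℤ) * ((x : ℤ) + e) * ∏ q ∈ S, (q.1 * (x : ℤ) + q.2)).card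

/-- the local factors at the primes in `(z, X]` -/
noncomputable def VPr (e : ℤ) (S : Finset (ℤ × ℤ)) (z X : ℕ) : ℝ :=
  ∏ p ∈ (Ioc z X).filter Nat.Prime, (1 - (omPr e S p : ℝ) / p)

open Classical in
/-- the good arguments -/
noncomputable def GPr (e : ℤ) (S T : Finset (ℤ × ℤ)) (z G t X A B : ℕ) : Finset ℕ :=
  (Ioc A B).filter (fun k : ℕ => k.Prime ∧ Almost 2 ((X : ℝ) ^ (1 / 9 : ℝ)) ((k : ℤ) + e) ∧
    Almost t ((X : ℝ) ^ (1 / (t : ℝ))) (k : ℤ) ∧ Almost t ((X : ℝ) ^ (1 / (t : ℝ))) ((k : ℤ) + e) ∧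
    (∀ q ∈ T, Almost t ((X : ℝ) ^ (1 / (t : ℝ))) (q.1 * (k : ℤ) + q.2)) ∧
    ∀ q ∈ S, Near z G t ((X : ℝ) ^ (1 / (t : ℝ))) (q.1 * (k : ℤ) + q.2))

/-- the local condition -/
def AdmPr (e : ℤ) (T : Finset (ℤ × ℤ)) : Prop :=
  ∀ p : ℕ, p.Prime → ∃ x : ℤ, ¬ (p : ℤ) ∣ x * (x + e) * ∏ q ∈ T, (q.1 * x + q.2)

theorem admPr_six (d a : ℤ) (h : IsCoprime d a) (ho : Odd (d + a)) : AdmPr 6 {(d, a)} := by
  intro p hp
  have hpi := Nat.prime_iff_prime_int.1 hp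
  simp only [prod_singleton]
  have hE : ∀ x : ℤ, ((p : ℤ) ∣ x * (x + 6) * (d * x + a)) ↔ ((p : ℤ) ∣ x ∨ (p : ℤ) ∣ x + 6) ∨ (p : ℤ) ∣ d * x + a := by
    intro x
    rw [hpi.dvd_mul, hpi.dvd_mul]
  obtain ⟨r, hr⟩ := lin_avoid hp (a := d) (b := a) (by
    rintro ⟨h1, h2⟩
    exact hpi.not_isUnit (h.isUnit_of_dvd' h1 h2))
  rcases Nat.lt_or_ge p 4 with h4 | h4
  · have h23 : p = 2 ∨ p = 3 := by
      have := hp.two_le
      omega
    rcases h23 with h2 | h3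
    · refine ⟨1, ?_⟩
      rw [hE, h2]
      obtain ⟨c, hc⟩ := ho
      rintro ((h | h) | h) <;> omega
    · obtain ⟨x, hx⟩ := avoid p 2 (by omega) ![0, r]
      refine ⟨x, ?_⟩
      rw [hE]
      have hx0 : ¬ (p : ℤ) ∣ x := by simpa using hx 0
      rintro ((h | h) | h)
      · exact hx0 h
      · apply hx0
        rw [h3] at h ⊢
        omega
      · exact hr x (by simpa using hx 1) h
  · obtain ⟨x, hx⟩ := avoid p 3 (by omega) ![0, -6, r]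
    refine ⟨x, ?_⟩
    rw [hE]
    rintro ((h | h) | h)
    · exact hx 0 (by simpa using h)
    · apply hx 1
      simpa using h
    · exact hr x (by simpa using hx 2) h

theorem progC (h A₀ : ℕ) : ∃ z G t : ℕ, 1 ≤ t ∧ ∃ κ : ℝ, 0 < κ ∧ ∀ (K s ρ : ℕ) (θ δ : ℝ),
    1 ≤ s → 0 < θ → 0 < δ → ∃ c X₀ : ℕ, ∀ X : ℕ, X₀ ≤ X → ∀ (e : ℤ) (S T : Finset (ℤ × ℤ)),
      e ≠ 0 → |e| ≤ K * (X : ℤ) → T ⊆ S → S.card ≤ h →
      (∀ q ∈ S, q.1 ≠ 0 ∧ IsCoprime q.1 q.2 ∧ |q.1| ≤ (X : ℤ) ^ A₀ ∧ |q.2| ≤ (X : ℤ) ^ A₀) → AdmPr e T →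
      κ / Real.log X ^ (h + 2) ≤ VPr e S z X ∧
      ∀ A B : ℕ, B ≤ X → θ * X ≤ (B : ℝ) - A →
        κ * ((B : ℝ) - A) * VPr e S z X ≤ ((GPr e S T z G t X A B).card : ℝ) ∧
        ∀ χ : ℕ → Fin ρ, ∃ P : Finset (ℕ × ℕ),
          (∀ τ ∈ P, 1 ≤ τ.2 ∧ (τ.2 : ℝ) ≤ Real.log X ^ c ∧
            ∀ l < s, τ.1 + l * τ.2 ∈ GPr e S T z G t X A B ∧ χ (τ.1 + l * τ.2) = χ τ.1) ∧
          (P : Set (ℕ × ℕ)).PairwiseDisjoint (apSet s) ∧
          (((GPr e S T z G t X A B \ P.biUnion (apSet s)).card : ℕ) : ℝ) ≤ δ * ((B : ℝ) - A) * VPr e S z X := by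
  classical
  obtain ⟨z, G, t, ht, κ, hκ, H⟩ := pairD h 1 A₀ le_rfl
  refine ⟨z, G, t, ht, κ, hκ, fun K s ρ θ δ hs hθ hδ => ?_⟩
  obtain ⟨c, X₀, hh⟩ := H K s ρ θ δ hs hθ hδ
  refine ⟨c, X₀, fun X hX e S T he heK hTS hk hS hadm => ?_⟩
  obtain ⟨Q, hQ⟩ : ∃ Q : Finset ℤ[X], Q = S.image (fun q => lp q.1 q.2) := ⟨_, rfl⟩
  obtain ⟨T', hT'⟩ : ∃ T' : Finset ℤ[X], T' = T.image (fun q => lp q.1 q.2) := ⟨_, rfl⟩
  have hdegQ : ∀ f ∈ Q, f.natDegree = 1 := by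
    intro f hf
    rw [hQ, mem_image] at hf
    obtain ⟨q, hq, rfl⟩ := hf
    exact lp_deg (hS q hq).1
  have hdvd : ∀ (R : Finset (ℤ × ℤ)) (p : ℕ), p.Prime → ∀ x : ℤ,
      ((p : ℤ) ∣ x * (x + e) * ∏ f ∈ R.image (fun q => lp q.1 q.2), f.eval x) ↔
        (p : ℤ) ∣ x * (x + e) * ∏ q ∈ R, (q.1 * x + q.2) := by
    intro R p hp x
    have hpi := Nat.prime_iff_prime_int.1 hp
    rw [hpi.dvd_mul (a := x * (x + e)), hpi.dvd_mul (a := x * (x + e)), hpi.dvd_finsetProd_iff, hpi.dvd_finsetProd_iff]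
    constructor
    · rintro (h1 | ⟨f, hf, h2⟩)
      · exact Or.inl h1
      · right
        rw [mem_image] at hf
        obtain ⟨q, hq, rfl⟩ := hf
        exact ⟨q, hq, by rwa [lp_eval] at h2⟩
    · rintro (h1 | ⟨q, hq, h2⟩)
      · exact Or.inl h1
      · exact Or.inr ⟨_, mem_image_of_mem _ hq, by rwa [lp_eval]⟩
  have h1 := hh X hX e Q T' he heK (by rw [hQ, hT']; exact image_subset_image hTS) (by
    rw [sum_congr rfl hdegQ, sum_const, smul_eq_mul, mul_one, hQ]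
    exact card_image_le.trans hk) (by
    intro f hf
    refine ⟨(hdegQ f hf).ge, ?_⟩
    rw [hQ, mem_image] at hf
    obtain ⟨q, hq, rfl⟩ := hf
    obtain ⟨_, a2, a3, a4⟩ := hS q hq
    exact ⟨lp_contB_c a2 le_rfl, fun n => lp_size (by positivity) a3 a4 n⟩) (by
    intro p hp
    obtain ⟨x, hx⟩ := hadm p hp
    refine ⟨x, ?_⟩
    rw [hT', hdvd T p hp]
    exact hx)
  have hV : VD e Q z X = VPr e S z X := by
    unfold VD VPr
    apply prod_congr rfl fun p hp => ?_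
    have : omD e Q p = omPr e S p := by
      unfold omD omPr
      congr 1
      apply filter_congr fun x _ => ?_
      rw [hQ]
      exact hdvd S p (mem_filter.1 hp).2 _
    rw [this]
  have hGG : ∀ A B, GDc e Q T' z G t X A B = GPr e S T z G t X A B := by
    intro A B
    unfold GDc GPr
    apply filter_congr fun x _ => ?_
    constructor
    · rintro ⟨a1, a2, a3, a4, a5, a6⟩
      refine ⟨a1, a2, a3, a4, fun q hq => ?_, fun q hq => ?_⟩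
      · have := a5 _ (by rw [hT']; exact mem_image_of_mem _ hq)
        rwa [lp_eval] at this
      · have := a6 _ (by rw [hQ]; exact mem_image_of_mem _ hq)
        rwa [lp_eval] at this
    · rintro ⟨a1, a2, a3, a4, a5, a6⟩
      refine ⟨a1, a2, a3, a4, fun f hf => ?_, fun f hf => ?_⟩
      · rw [hT', mem_image] at hf
        obtain ⟨q, hq, rfl⟩ := hf
        rw [lp_eval]
        exact a5 q hq
      · rw [hQ, mem_image] at hf
        obtain ⟨q, hq, rfl⟩ := hf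
        rw [lp_eval]
        exact a6 q hq
  rw [hV] at h1
  simp only [hGG] at h1
  exact h1

end Pool.Agent.X32.Uni
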