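import Pool.Agent.X32.Uni.Fam

/-!
The values `c (n + h) ^ 2 + a`.
-/

set_option autoImplicit false

namespace Pool.Agent.X32.Uni

open Finset
open Polynomial (C X aeval)
open scoped Polynomial

variable {k : ℕ}

/-- the polynomial `c (x + h) ^ 2 + a` for `z = (h, c, a)` -/
noncomputable def pQ2 (z : ℤ × ℤ × ℤ) : ℤ[X] := C z.2.1 * (X + C z.1) ^ 2 + C z.2.2

/-- the value -/
def vQ2 (z : ℤ × ℤ × ℤ) (x : ℤ) : ℤ := z.2.1 * (x + z.1) ^ 2 + z.2.2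

/-- primitive irreducible triples -/
def Irr2 (z : ℤ × ℤ × ℤ) : Prop := 1 ≤ z.2.1 ∧ IsCoprime z.2.1 z.2.2 ∧ ∀ u : ℤ, u ^ 2 ≠ -(z.2.1 * z.2.2)

theorem pQ2_eval (z : ℤ × ℤ × ℤ) (x : ℤ) : (pQ2 z).eval x = vQ2 z x := by
  unfold pQ2 vQ2
  simp

theorem pQ2_aeval (z : ℤ × ℤ × ℤ) (α : ℂ) : aeval α (pQ2 z) = z.2.1 * (α + z.1) ^ 2 + z.2.2 := by
  unfold pQ2
  simp

theorem pQ2_deg (z : ℤ × ℤ × ℤ) (hz : z.2.1 ≠ 0) : (pQ2 z).natDegree = 2 := by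
  unfold pQ2
  rw [Polynomial.natDegree_add_C, Polynomial.natDegree_C_mul hz, Polynomial.natDegree_pow, Polynomial.natDegree_X_add_C]

/-- a square of a rational number which is an integer -/
theorem square_of_rat (u w κ : ℤ) (hw : w ≠ 0) (h : u ^ 2 = κ * w ^ 2) : ∃ a : ℤ, a ^ 2 = κ := by
  have h1 : w ^ 2 ∣ u ^ 2 := Dvd.intro_left _ h.symm
  have h2 : w ∣ u := (Int.pow_dvd_pow_iff (by norm_num)).1 h1
  obtain ⟨a, rfl⟩ := h2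
  refine ⟨a, ?_⟩
  have h4 : w ^ 2 ≠ 0 := pow_ne_zero 2 hw
  apply mul_right_cancel₀ h4
  rw [← h]
  ring

/-- zeros are irrational -/
theorem pQ2_irr (z : ℤ × ℤ × ℤ) (hz : Irr2 z) (α : ℂ) (h : aeval α (pQ2 z) = 0) (w u : ℤ) (hw : w ≠ 0)
    (hr : (w : ℂ) * α = u) : False := by
  rw [pQ2_aeval] at h
  have h1 : ((z.2.1 * (u + w * z.1) : ℤ) : ℂ) ^ 2 = -(z.2.1 * z.2.2) * w ^ 2 := by
    push_cast
    rw [← hr]
    linear_combination ((w : ℂ) ^ 2 * z.2.1) * h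
  have h2 : (z.2.1 * (u + w * z.1)) ^ 2 = -(z.2.1 * z.2.2) * w ^ 2 := by exact_mod_cast h1
  obtain ⟨a, ha⟩ := square_of_rat _ w _ hw h2
  exact hz.2.2 a ha

/-- no common zeros -/
theorem pQ2_common (z s : ℤ × ℤ × ℤ) (hz : Irr2 z) (hs : Irr2 s) (hne : s ≠ z) (α : ℂ) (h1 : aeval α (pQ2 z) = 0)
    (h2 : aeval α (pQ2 s) = 0) : False := by
  have h1' := h1
  rw [pQ2_aeval] at h1 h2
  obtain ⟨e, he⟩ : ∃ e : ℤ, e = z.1 - s.1 := ⟨_, rfl⟩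
  by_cases he0 : e = 0
  · have hz1 : z.1 = s.1 := by omega
    have h3 : ((z.2.1 * s.2.2 : ℤ) : ℂ) = ((s.2.1 * z.2.2 : ℤ) : ℂ) := by
      push_cast
      rw [hz1] at h1
      linear_combination (z.2.1 : ℂ) * h2 - (s.2.1 : ℂ) * h1
    have h4 : z.2.1 * s.2.2 = s.2.1 * z.2.2 := by exact_mod_cast h3
    have h5 : z.2.1 ∣ s.2.1 := by
      apply hz.2.1.dvd_of_dvd_mul_right
      exact Dvd.intro _ h4
    have h6 : s.2.1 ∣ z.2.1 := by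
      apply hs.2.1.dvd_of_dvd_mul_right
      exact Dvd.intro _ h4.symm
    have h7 : z.2.1 = s.2.1 := Int.dvd_antisymm (by have := hz.1; omega) (by have := hs.1; omega) h5 h6
    have h8 : s.2.2 = z.2.2 := by
      rw [h7] at h4
      exact mul_left_cancel₀ (by have := hs.1; omega) h4
    exact hne (Prod.ext hz1.symm (Prod.ext h7.symm h8))
  · obtain ⟨w, hw⟩ : ∃ w : ℤ, w = 2 * z.2.1 * s.2.1 * e := ⟨_, rfl⟩
    obtain ⟨u, hu⟩ : ∃ u : ℤ, u = z.2.1 * s.2.2 - s.2.1 * z.2.2 - z.2.1 * s.2.1 * (z.1 ^ 2 - s.1 ^ 2) := ⟨_, rfl⟩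
    refine pQ2_irr z hz α h1' w u ?_ ?_
    · rw [hw]
      have := hz.1
      have := hs.1
      refine mul_ne_zero (mul_ne_zero (mul_ne_zero two_ne_zero (by omega)) (by omega)) he0
    · rw [hw, hu, he]
      push_cast
      linear_combination (s.2.1 : ℂ) * h1 - (z.2.1 : ℂ) * h2

theorem quaK (b : ℤ) (hb : b ≠ 0) (S : Fin k → ℤ × ℤ × ℤ) (hnc : ∀ l, Irr2 (S l))
    (hS : ∀ p : ℕ, p.Prime → ∃ x : ℤ, ¬ (p : ℤ) ∣ x * (x + b) ∧ ∀ l, ¬ (p : ℤ) ∣ vQ2 (S l) x) (H M L : ℕ) :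
    ∃ C t : ℕ, 1 ≤ t ∧ ∃ κ : ℝ, 0 < κ ∧ ∀ (s r : ℕ) (θ δ : ℝ), 1 ≤ s → 0 < θ → 0 < δ → ∃ c X₀ : ℕ, ∀ X : ℕ, X₀ ≤ X →
      κ / Real.log X ^ (2 * k + 2) ≤ VB b vQ2 S X ∧ ∀ A B : ℕ, B ≤ X → θ * X ≤ (B : ℝ) - A →
        κ * ((B : ℝ) - A) * VB b vQ2 S X ≤
          ((GB b vQ2 (fun _ => 2) S (fun z => (|z.1| ≤ H ∧ z.2.1 ≤ M ∧ |z.2.2| ≤ L ∧ Irr2 z) ∧ ∀ l, S l ≠ z)
            C t X A B).card : ℝ) ∧
        ∀ χ : ℕ → Fin r, ∃ P : Finset (ℕ × ℕ),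
          (∀ z ∈ P, 1 ≤ z.2 ∧ (z.2 : ℝ) ≤ Real.log X ^ c ∧
            ∀ l < s, z.1 + l * z.2 ∈ GB b vQ2 (fun _ => 2) S (fun z => (|z.1| ≤ H ∧ z.2.1 ≤ M ∧ |z.2.2| ≤ L ∧ Irr2 z) ∧
              ∀ l, S l ≠ z) C t X A B ∧ χ (z.1 + l * z.2) = χ z.1) ∧
          (P : Set (ℕ × ℕ)).PairwiseDisjoint (apSet s) ∧
          (((GB b vQ2 (fun _ => 2) S (fun z => (|z.1| ≤ H ∧ z.2.1 ≤ M ∧ |z.2.2| ≤ L ∧ Irr2 z) ∧ ∀ l, S l ≠ z)
            C t X A B \ P.biUnion (apSet s)).card : ℕ) : ℝ) ≤ δ * ((B : ℝ) - A) * VB b vQ2 S X := by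
  classical
  apply famK pQ2 vQ2 pQ2_eval (fun _ => 2) b hb S (fun l => pQ2_deg _ (by have := (hnc l).1; omega))
    (fun _ => by norm_num) (2 * k) (by simp [mul_comm]) hS
    (((Icc (-(H : ℤ)) H) ×ˢ ((Icc (1 : ℤ) M) ×ˢ (Icc (-(L : ℤ)) L))).filter (fun z => Irr2 z ∧ ∀ l, S l ≠ z))
  · intro z
    rw [mem_filter, mem_product, mem_product, mem_Icc, mem_Icc, mem_Icc, ← abs_le, ← abs_le]
    constructor
    · rintro ⟨⟨a1, ⟨a2, a3⟩, a4⟩, a5, a6⟩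
      exact ⟨⟨a1, a3, a4, a5⟩, a6⟩
    · rintro ⟨⟨a1, a3, a4, a5⟩, a6⟩
      exact ⟨⟨a1, ⟨a5.1, a3⟩, a4⟩, a5, a6⟩
  · intro z hz
    have hirr := hz.1.2.2.2
    have hd := pQ2_deg z (by have := hirr.1; omega)
    have h0 : pQ2 z ≠ 0 := by
      intro h
      rw [h, Polynomial.natDegree_zero] at hd
      omega
    have hinj : Function.Injective (algebraMap ℤ ℂ) := RingHom.injective_int _
    obtain ⟨α, hα⟩ := IsAlgClosed.exists_aeval_eq_zero_of_injective ℂ hinj (pQ2 z) (by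
      intro h
      have h2 := Polynomial.natDegree_eq_zero_iff_degree_le_zero.2 h.le
      omega)
    refine ⟨h0, α, hα, ?_, ?_, fun l h => pQ2_common z (S l) hirr (hnc l) (hz.2 l) α hα h⟩
    · intro h
      exact pQ2_irr z hirr α hα 1 0 one_ne_zero (by rw [h]; simp)
    · intro h
      exact pQ2_irr z hirr α hα 1 (-b) one_ne_zero (by push_cast; linear_combination h)

end Pool.Agent.X32.Uni
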