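import Pool.Agent.X32.Uni.PairK
import Pool.Agent.X32.Uni.Gold

/-!
Quotients `q = ⌊(n - p) / m⌋` with `q ^ 2 - 2` almost prime, uniformly in `m ≤ M`.
-/

set_option autoImplicit false

namespace Pool.Agent.X32.Uni

open Finset
open Polynomial (C X)
open scoped Polynomial

/-- the forms `x`, `N - m x`, `x ^ 2 - 2` -/
noncomputable def qf (N m : ℕ) : Fin 3 → ℤ[X] := ![X, C (-(m : ℤ)) * X + C (N : ℤ), X ^ 2 - C 2]

theorem qf0 (N m : ℕ) : qf N m 0 = X := rfl
theorem qf1 (N m : ℕ) : qf N m 1 = C (-(m : ℤ)) * X + C (N : ℤ) := rfl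
theorem qf2 (N m : ℕ) : qf N m 2 = X ^ 2 - C 2 := rfl

theorem qd0 (N m : ℕ) : (qf N m 0).natDegree = 1 := by rw [qf0, Polynomial.natDegree_X]
theorem qd1 (N m : ℕ) (hm : 1 ≤ m) : (qf N m 1).natDegree = 1 := by
  rw [qf1]
  exact Polynomial.natDegree_linear (by
    have : (m : ℤ) ≠ 0 := by exact_mod_cast (by omega : m ≠ 0)
    exact neg_ne_zero.2 this)
theorem qd2 (N m : ℕ) : (qf N m 2).natDegree = 2 := by
  rw [qf2]
  exact Polynomial.natDegree_X_pow_sub_C

theorem qe0 (N m : ℕ) (x : ℤ) : (qf N m 0).eval x = x := by rw [qf0]; simp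
theorem qe1 (N m : ℕ) (x : ℤ) : (qf N m 1).eval x = N - m * x := by rw [qf1]; simp; ring
theorem qe2 (N m : ℕ) (x : ℤ) : (qf N m 2).eval x = x ^ 2 - 2 := by rw [qf2]; simp

theorem forall3 {P : Fin 3 → Prop} : (∀ l, P l) ↔ P 0 ∧ P 1 ∧ P 2 := by
  constructor
  · intro h
    exact ⟨h 0, h 1, h 2⟩
  · rintro ⟨h0, h1, h2⟩ l
    fin_cases l
    · exact h0
    · exact h1
    · exact h2

/-- `ω(p)`: the number of the zeros of `x (N - m x) (x ^ 2 - 2)` modulo `p` -/
def omQ (N m p : ℕ) : ℕ :=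
  ((range p).filter (fun x : ℕ => (p : ℤ) ∣ (x : ℤ) * ((N : ℤ) - m * x) * ((x : ℤ) ^ 2 - 2))).card

/-- the product of `1 - ω(p) / p` over the primes `p ≤ n` -/
noncomputable def VQ (N m n : ℕ) : ℝ := ∏ p ∈ (Icc 1 n).filter Nat.Prime, (1 - (omQ N m p : ℝ) / p)

theorem omQ_eq (N m p : ℕ) : om (qf N m) p = omQ N m p := by
  unfold om omQ
  simp only [Fin.prod_univ_three, qe0, qe1, qe2]

theorem VQ_eq (N m n : ℕ) : V (qf N m) n = VQ N m n := by
  unfold V VQ
  exact prod_congr rfl fun p _ => by rw [omQ_eq]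

/-- `N` is prime to `m` and `N + m` is odd: no local obstruction -/
theorem loc_qf {N m : ℕ} (hc : N.Coprime m) (ho : (N + m) % 2 = 1) : Loc (qf N m) := by
  intro p hp
  have hp' := Nat.prime_iff_prime_int.1 hp
  -- the general form of the conclusion
  have key : ∀ x : ℤ, ¬ (p : ℤ) ∣ x → ¬ (p : ℤ) ∣ N - m * x → ¬ (p : ℤ) ∣ x ^ 2 - 2 →
      ∃ x : ℤ, ¬ (p : ℤ) ∣ ∏ k, (qf N m k).eval x := by
    intro x h0 h1 h2
    refine ⟨x, fun h => ?_⟩
    rw [Fin.prod_univ_three, qe0, qe1, qe2] at h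
    rcases hp'.dvd_or_dvd h with h | h
    · rcases hp'.dvd_or_dvd h with h | h
      · exact h0 h
      · exact h1 h
    · exact h2 h
  -- at most one zero of `N - m x` not divisible by `p`
  have two : ∀ x y : ℤ, ¬ (p : ℤ) ∣ x - y → ¬ ((p : ℤ) ∣ N - m * x ∧ (p : ℤ) ∣ N - m * y) := by
    rintro x y hxy ⟨h1, h2⟩
    have h3 : (p : ℤ) ∣ m * (x - y) := by
      have := dvd_sub h2 h1
      have e : (N : ℤ) - m * y - (N - m * x) = m * (x - y) := by ring
      rwa [e] at this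
    rcases hp'.dvd_or_dvd h3 with h4 | h4
    · have h5 : (p : ℤ) ∣ N := by
        have := dvd_add h1 (h4.mul_right x)
        simpa using this
      have h6 : p ∣ Nat.gcd N m := Nat.dvd_gcd (Int.natCast_dvd_natCast.1 h5) (Int.natCast_dvd_natCast.1 h4)
      rw [hc] at h6
      exact hp.one_lt.ne' (Nat.dvd_one.1 h6)
    · exact hxy h4
  by_cases hp2 : p = 2
  · subst hp2
    refine key 1 (by norm_num) ?_ (by norm_num)
    push_cast
    omega
  by_cases hp3 : p = 3
  · subst hp3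
    by_cases h1 : (3 : ℤ) ∣ N - m * 1
    · refine key 2 (by norm_num) ?_ (by norm_num)
      intro h2
      exact two 1 2 (by norm_num) ⟨by exact_mod_cast h1, h2⟩
    · exact key 1 (by norm_num) (by exact_mod_cast h1) (by norm_num)
  by_cases hp5 : p = 5
  · subst hp5
    by_cases h1 : (5 : ℤ) ∣ N - m * 1
    · refine key 2 (by norm_num) ?_ (by norm_num)
      intro h2
      exact two 1 2 (by norm_num) ⟨by exact_mod_cast h1, h2⟩
    · exact key 1 (by norm_num) (by exact_mod_cast h1) (by norm_num)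
  · -- `p ≥ 7`: the classes of 1, 2, ..., 6
    have hp7 : 7 ≤ p := by
      by_contra hcon
      push Not at hcon
      have := hp.two_le
      interval_cases p <;> revert hp <;> norm_num at * 
    have hpz : (7 : ℤ) ≤ p := by exact_mod_cast hp7
    have small : ∀ a : ℤ, a ≠ 0 → |a| < p → ¬ (p : ℤ) ∣ a := by
      intro a ha hlt h
      exact absurd (Int.le_of_dvd (abs_pos.2 ha) ((dvd_abs _ _).2 h)) (by omega)
    -- `x = 1`: `x ^ 2 - 2 = - 1`; `x = 2`: `2`; `x = 3` : `7`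
    by_cases h1 : (p : ℤ) ∣ N - m * 1
    · refine key 2 (small 2 (by norm_num) (by norm_num; omega)) ?_ (small _ (by norm_num) (by norm_num; omega))
      intro h2
      exact two 1 2 (small _ (by norm_num) (by norm_num; omega)) ⟨h1, h2⟩
    · exact key 1 (small 1 (by norm_num) (by norm_num; omega)) h1 (small _ (by norm_num) (by norm_num; omega))

theorem qf_ne (N m : ℕ) (hm : 1 ≤ m) : qf N m 1 ≠ qf N m 0 := by
  intro h
  have h1 := congrArg (fun f : ℤ[X] => f.eval 1 - f.eval 0) h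
  simp only [qe0, qe1] at h1
  have : (1 : ℤ) ≤ m := by exact_mod_cast hm
  linarith

/-- if `N = 0` or `m ≠ 1` the forms differ up to the sign -/
theorem qf_ne' (N m : ℕ) (hN : 1 ≤ N) : qf N m 1 ≠ - qf N m 0 := by
  intro h
  have h1 := congrArg (fun f : ℤ[X] => f.eval 0) h
  simp only [Polynomial.eval_neg, qe0, qe1] at h1
  have : (1 : ℤ) ≤ N := by exact_mod_cast hN
  linarith

theorem sysQ {N m M n : ℕ} (hN : 1 ≤ N) (hNn : N ≤ n) (hm : 1 ≤ m) (hM : m ≤ M) (hc : N.Coprime m)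
    (ho : (N + m) % 2 = 1) : Sys 4 (M + 1) (M + 2) n (qf N m) 0 1 ∧ Sys 4 (M + 1) (M + 2) n (qf N m) 1 0 := by
  have hdeg : ∀ k, 1 ≤ (qf N m k).natDegree := by
    rw [forall3, qd0, qd1 N m hm, qd2]
    norm_num
  have hsum : ∑ k, (qf N m k).natDegree ≤ 4 := by
    rw [Fin.sum_univ_three, qd0, qd1 N m hm, qd2]
  have hn1 : (1 : ℤ) ≤ n := by exact_mod_cast hN.trans hNn
  have hNz : (N : ℤ) ≤ n := by exact_mod_cast hNn
  have hN0 : (0 : ℤ) ≤ N := by positivity
  have hMz : (m : ℤ) ≤ M := by exact_mod_cast hM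
  have hm0 : (0 : ℤ) ≤ m := by positivity
  have hsize : ∀ k, ∀ x : ℤ, 0 ≤ x → x ≤ n → |(qf N m k).eval x| ≤ ((M + 2 : ℕ) : ℤ) * (n : ℤ) ^ (qf N m k).natDegree := by
    rw [forall3, qd0, qd1 N m hm, qd2]
    simp only [qe0, qe1, qe2]
    refine ⟨fun x h0 h1 => ?_, fun x h0 h1 => ?_, fun x h0 h1 => ?_⟩
    · rw [abs_of_nonneg h0, pow_one]
      push_cast
      nlinarith
    · have h2 : (m : ℤ) * x ≤ M * n := mul_le_mul hMz h1 h0 (by positivity)
      have h3 : (0 : ℤ) ≤ m * x := by positivity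
      rw [abs_le, pow_one]
      push_cast
      constructor <;> nlinarith
    · have h2 : x ^ 2 ≤ (n : ℤ) ^ 2 := pow_le_pow_left₀ h0 h1 2
      have h3 : (1 : ℤ) ≤ (n : ℤ) ^ 2 := by nlinarith
      have h4 := sq_nonneg x
      have h5 : (0 : ℤ) ≤ (M : ℤ) * (n : ℤ) ^ 2 := by positivity
      rw [abs_le]
      push_cast
      constructor <;> nlinarith
  have e0 : ((qf N m 0).coeff 1).natAbs ≤ M + 1 := by
    rw [qf0, Polynomial.coeff_X_one]
    simp
  have e1 : ((qf N m 1).coeff 1).natAbs ≤ M + 1 := by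
    rw [qf1, Polynomial.coeff_add, Polynomial.coeff_C_mul, Polynomial.coeff_X_one, Polynomial.coeff_C,
      if_neg one_ne_zero, mul_one, add_zero, Int.natAbs_neg, Int.natAbs_natCast]
    omega
  constructor
  · exact
      { deg := hdeg
        sum := hsum
        loc := loc_qf hc ho
        size := hsize
        di := qd0 N m
        dj := qd1 N m hm
        ei := e0
        ej := e1
        ne := qf_ne N m hm
        ne' := qf_ne' N m hN }
  · exact
      { deg := hdeg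
        sum := hsum
        loc := loc_qf hc ho
        size := hsize
        di := qd1 N m hm
        dj := qd0 N m
        ei := e1
        ej := e0
        ne := (qf_ne N m hm).symm
        ne' := fun h => qf_ne' N m hN (by rw [h, neg_neg]) }

/-- `v > 1` is a product of at most `r` primes, all of them larger than `y`; the representation
`p = n - r - m q` and its quality: version `0` with `q` prime, version `1` with `p` prime -/
def QuoGood (v : Fin 2) (t n r m q : ℕ) : Prop :=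
  n - (n - r - m * q) = r + m * q ∧ (n - (n - r - m * q)) / m = q ∧
    (if v = 0 then q.Prime ∧ AlmostN 2 ((n : ℝ) ^ (1 / 9 : ℝ)) (n - r - m * q)
      else (n - r - m * q).Prime ∧ AlmostN 2 ((n : ℝ) ^ (1 / 9 : ℝ)) q) ∧
    AlmostN t ((n : ℝ) ^ (1 / (t : ℝ))) (n - r - m * q) ∧ AlmostN t ((n : ℝ) ^ (1 / (t : ℝ))) q ∧
    AlmostN (2 * t) ((n : ℝ) ^ (1 / (t : ℝ))) (q ^ 2 - 2)

open Classical in
/-- the good quotients -/
noncomputable def GQ (v : Fin 2) (t n r m A B : ℕ) : Finset ℕ := (Ioc A B).filter (fun q : ℕ => QuoGood v t n r m q)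

theorem GQ_eq {t n r m A B : ℕ} (hm : 1 ≤ m) (hr : r < m) (hrn : r ≤ n) (hB : m * B ≤ n - r) :
    GoodX (qf (n - r) m) 0 1 t n A B = GQ 0 t n r m A B ∧ GoodX (qf (n - r) m) 1 0 t n A B = GQ 1 t n r m A B := by
  classical
  have key : ∀ q ∈ Ioc A B, ((n - r : ℕ) : ℤ) - m * q = ((n - r - m * q : ℕ) : ℤ) ∧
      (n - (n - r - m * q)) / m = q ∧ n - (n - r - m * q) = r + m * q ∧
      ∀ s y, Almost s y ((q : ℤ) ^ 2 - 2) ↔ AlmostN s y (q ^ 2 - 2) := by
    intro q hq
    have hqB := (mem_Ioc.1 hq).2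
    have hq1 : 1 ≤ q := by
      have := (mem_Ioc.1 hq).1
      omega
    have hmq : m * q ≤ n - r := (Nat.mul_le_mul_left m hqB).trans hB
    refine ⟨?_, ?_, by omega, ?_⟩
    · rw [Nat.cast_sub hmq]
      push_cast
      ring
    · have : n - (n - r - m * q) = m * q + r := by omega
      rw [this, Nat.mul_add_div (by omega), Nat.div_eq_of_lt hr, add_zero]
    · intro s y
      rcases Nat.eq_or_lt_of_le hq1 with h | h
      · rw [← h]
        constructor
        · intro h1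
          exact absurd h1.1 (by norm_num)
        · intro h1
          exact absurd h1.1 (by norm_num)
      · have h2 : 2 ≤ q ^ 2 := by nlinarith
        have : ((q : ℤ) ^ 2 - 2) = ((q ^ 2 - 2 : ℕ) : ℤ) := by
          rw [Nat.cast_sub h2]
          push_cast
          ring
        rw [this, almostN_iff]
  constructor
  · ext q
    unfold GoodX GQ
    rw [mem_filter, mem_filter]
    refine and_congr_right fun hq => ?_
    obtain ⟨e1, hdiv, hsub, e2⟩ := key q hq
    unfold QuoGood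
    rw [forall3, qd0, qd1 _ _ hm, qd2, if_pos rfl]
    simp only [qe0, qe1, qe2, mul_one, mul_comm t 2]
    rw [e1, e2, Int.natAbs_natCast, almostN_iff, almostN_iff, almostN_iff]
    constructor
    · rintro ⟨h1, h2, h3, h4, h5⟩
      exact ⟨hsub, hdiv, ⟨h1, h2⟩, h4, h3, h5⟩
    · rintro ⟨-, -, ⟨h1, h2⟩, h4, h3, h5⟩
      exact ⟨h1, h2, h3, h4, h5⟩
  · ext q
    unfold GoodX GQ
    rw [mem_filter, mem_filter]
    refine and_congr_right fun hq => ?_
    obtain ⟨e1, hdiv, hsub, e2⟩ := key q hq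
    unfold QuoGood
    rw [forall3, qd0, qd1 _ _ hm, qd2, if_neg one_ne_zero]
    simp only [qe0, qe1, qe2, mul_one, mul_comm t 2]
    rw [e1, e2, Int.natAbs_natCast, almostN_iff, almostN_iff, almostN_iff]
    constructor
    · rintro ⟨h1, h2, h3, h4, h5⟩
      exact ⟨hsub, hdiv, ⟨h1, h2⟩, h4, h3, h5⟩
    · rintro ⟨-, -, ⟨h1, h2⟩, h4, h3, h5⟩
      exact ⟨h1, h2, h3, h4, h5⟩

/-- the pair `(m, n)` is admissible -/
def AdmMN (m n : ℕ) : Prop := 1 ≤ m ∧ 2 * m + 1 < n ∧ (m = 1 ∧ n % 2 = 0 ∨ m = 3 ∧ n % 6 ≠ 1 ∨ m = 2 ∨ 4 ≤ m)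

theorem cop_off (u m : ℕ) (a b : ℕ) (h : b = m * u + a) (ha : a.Coprime m) : b.Coprime m := by
  rw [h, mul_comm m u]
  exact (Nat.coprime_mul_right_add_left a m u).2 ha

theorem cop_off' (u m : ℕ) (a b : ℕ) (h : b + a = m * u) (ha : a.Coprime m) : b.Coprime m := by
  rw [← Nat.isCoprime_iff_coprime] at ha ⊢
  have h1 : (b : ℤ) = -a + m * u := by
    have : (b : ℤ) + a = m * u := by exact_mod_cast h
    linarith
  rw [h1]
  exact (IsCoprime.add_mul_left_left (ha.neg_left) _)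

/-- every admissible pair has an offset without local obstruction -/
theorem exists_off {m n : ℕ} (h : AdmMN m n) : ∃ r, r < m ∧ r ≤ n ∧ (n - r).Coprime m ∧ (n - r + m) % 2 = 1 := by
  obtain ⟨h1, h2, h3⟩ := h
  obtain ⟨u, a, hua, ha⟩ : ∃ u a, n = m * u + a ∧ a < m := ⟨n / m, n % m, (Nat.div_add_mod n m).symm, Nat.mod_lt _ h1⟩
  have hu : 2 ≤ u := by
    by_contra hcon
    have : m * u ≤ m * 1 := Nat.mul_le_mul_left m (by omega)
    omega
  have hmu : m * 2 ≤ m * u := Nat.mul_le_mul_left m hu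
  by_cases hm2 : m % 2 = 0
  · -- `m` even: the offset with `n - r = m u + 1` or `m u - 1`
    have hmu2 : (m * u) % 2 = 0 := by
      rw [Nat.mul_mod, hm2]
      simp
    by_cases ha0 : a = 0
    · refine ⟨1, by omega, by omega, ?_, by omega⟩
      exact cop_off' u m 1 (n - 1) (by omega) (Nat.coprime_one_left m)
    · refine ⟨a - 1, by omega, by omega, ?_, by omega⟩
      exact cop_off u m 1 (n - (a - 1)) (by omega) (Nat.coprime_one_left m)
  · have hodd : Nat.Coprime 2 m := Nat.coprime_two_left.2 (Nat.odd_iff.2 (by omega))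
    by_cases hm1 : m = 1
    · refine ⟨0, by omega, by omega, ?_, by omega⟩
      rw [hm1]
      exact Nat.coprime_one_right _
    by_cases hm3 : m = 3
    · subst hm3
      have h4 : n % 6 ≠ 1 := by omega
      have h5 : n % 6 = 0 ∨ n % 6 = 2 ∨ n % 6 = 3 ∨ n % 6 = 4 ∨ n % 6 = 5 := by omega
      have c3 : ∀ b : ℕ, b % 3 ≠ 0 → b.Coprime 3 := by
        intro b hb
        rw [Nat.coprime_comm, Nat.Prime.coprime_iff_not_dvd (by norm_num)]
        omega
      rcases h5 with h5 | h5 | h5 | h5 | h5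
      · exact ⟨2, by omega, by omega, c3 _ (by omega), by omega⟩
      · exact ⟨0, by omega, by omega, c3 _ (by omega), by omega⟩
      · exact ⟨1, by omega, by omega, c3 _ (by omega), by omega⟩
      · exact ⟨0, by omega, by omega, c3 _ (by omega), by omega⟩
      · exact ⟨1, by omega, by omega, c3 _ (by omega), by omega⟩
    have hm5 : 5 ≤ m := by omega
    by_cases hmu2 : (m * u) % 2 = 0
    · by_cases ha2 : 2 ≤ a
      · refine ⟨a - 2, by omega, by omega, ?_, by omega⟩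
        exact cop_off u m 2 (n - (a - 2)) (by omega) hodd
      · refine ⟨a + 2, by omega, by omega, ?_, by omega⟩
        exact cop_off' u m 2 (n - (a + 2)) (by omega) hodd
    · by_cases ha1 : 1 ≤ a
      · refine ⟨a - 1, by omega, by omega, ?_, by omega⟩
        exact cop_off u m 1 (n - (a - 1)) (by omega) (Nat.coprime_one_left m)
      · refine ⟨a + 1, by omega, by omega, ?_, by omega⟩
        exact cop_off' u m 1 (n - (a + 1)) (by omega) (Nat.coprime_one_left m)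

theorem quoU (M : ℕ) : ∃ t : ℕ, 1 ≤ t ∧ ∃ κ : ℝ, 0 < κ ∧ ∀ (s k : ℕ) (θ δ : ℝ), 1 ≤ s → 0 < θ → 0 < δ →
    ∃ c n₀ : ℕ, ∀ m n : ℕ, m ≤ M → n₀ ≤ n → AdmMN m n →
      (∃ r, r < m ∧ (n - r).Coprime m ∧ (n - r + m) % 2 = 1) ∧
      ∀ r, r < m → (n - r).Coprime m → (n - r + m) % 2 = 1 →
        κ / Real.log n ^ 4 ≤ VQ (n - r) m n ∧ ∀ (v : Fin 2) (A B : ℕ), m * B ≤ n - r → θ * n ≤ (B : ℝ) - A →
          κ * ((B : ℝ) - A) * VQ (n - r) m n ≤ ((GQ v t n r m A B).card : ℝ) ∧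
          ∀ χ : ℕ → Fin k, ∃ P : Finset (ℕ × ℕ),
            (∀ z ∈ P, 1 ≤ z.2 ∧ (z.2 : ℝ) ≤ Real.log n ^ c ∧
              ∀ l < s, z.1 + l * z.2 ∈ GQ v t n r m A B ∧ χ (z.1 + l * z.2) = χ z.1) ∧
            (P : Set (ℕ × ℕ)).PairwiseDisjoint (apSet s) ∧
            (((GQ v t n r m A B \ P.biUnion (apSet s)).card : ℕ) : ℝ) ≤ δ * ((B : ℝ) - A) * VQ (n - r) m n := by
  classical
  obtain ⟨t, ht, κ, hκ, H⟩ := polP 4 (M + 1) (by omega)
  refine ⟨t, ht, κ, hκ, fun s k θ δ hs hθ hδ => ?_⟩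
  obtain ⟨c, X₀, h⟩ := H (M + 2) s k θ δ hs hθ hδ
  refine ⟨c, X₀, fun m n hmM hn hadm => ⟨?_, fun r hr hc ho => ?_⟩⟩
  · obtain ⟨r, h1, -, h3, h4⟩ := exists_off hadm
    exact ⟨r, h1, h3, h4⟩
  · have hm1 := hadm.1
    have hmn := hadm.2.1
    have hrn : r ≤ n := by omega
    obtain ⟨S0, S1⟩ := sysQ (N := n - r) (m := m) (M := M) (n := n) (by omega) (Nat.sub_le _ _) hm1 hmM hc ho
    have hS : ∀ v : Fin 2, ∃ i j : Fin 3, Sys 4 (M + 1) (M + 2) n (qf (n - r) m) i j ∧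
        ∀ A B : ℕ, m * B ≤ n - r → GoodX (qf (n - r) m) i j t n A B = GQ v t n r m A B := by
      intro v
      fin_cases v
      · exact ⟨0, 1, S0, fun A B hB => (GQ_eq hm1 hr hrn hB).1⟩
      · exact ⟨1, 0, S1, fun A B hB => (GQ_eq hm1 hr hrn hB).2⟩
    have h0 := (h n hn 3 (qf (n - r) m) 0 1 S0).1
    rw [VQ_eq] at h0
    refine ⟨h0, fun v A B hB hAB => ?_⟩
    obtain ⟨i, j, Sij, hG⟩ := hS v
    obtain ⟨-, h2⟩ := h n hn 3 (qf (n - r) m) i j Sij
    have hBn : B ≤ n := by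
      have : 1 * B ≤ m * B := Nat.mul_le_mul_right B hm1
      omega
    have h3 := h2 A B hBn hAB
    rw [VQ_eq, hG A B hB] at h3
    exact h3

end Pool.Agent.X32.Uni
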