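import Pool.Agent.X32.CL.Top2
import Pool.Agent.X32.Uni.Defs

/-!
Reduction of the families of polynomials to Chen's theorem for two linear forms, at one `n`.
-/

set_option autoImplicit false

namespace Pool.Agent.X32.Uni

open Finset Polynomial
open Pool.Agent.Y843.HS (Pr VV Pr_mem Pr_prime VV_split card_res)
open Pool.Agent.Y843.HG (Adm Z0)
open Pool.Agent.Y843.CH
open Pool.Agent.X32.CL

variable {m : ℕ}

/-- a residue without local obstruction at the small primes -/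
theorem exists_x0 (f : Fin m → ℤ[X]) (z : ℕ)
    (h : ∀ p : ℕ, p.Prime → ∃ x : ℤ, ¬ (p : ℤ) ∣ ∏ k, (f k).eval x) :
    ∃ x0 : ℕ, ∀ q ∈ Pr 0 z, ¬ (q : ℤ) ∣ ∏ k, (f k).eval x0 := by
  classical
  have h1 := card_res (Pr 0 z) (fun p hp => Pr_prime hp)
    (fun p => (range p).filter (fun c : ℕ => ¬ (p : ℤ) ∣ ∏ k, (f k).eval c))
    (fun p _ c hc => mem_range.1 (mem_filter.1 hc).1)
  have h2 : 0 < ∏ p ∈ Pr 0 z, ((range p).filter (fun c : ℕ => ¬ (p : ℤ) ∣ ∏ k, (f k).eval c)).card := by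
    apply prod_pos
    intro p hp
    have hpp := Pr_prime hp
    have hp0 : (0 : ℤ) < p := by exact_mod_cast hpp.pos
    obtain ⟨x, hx⟩ := h p hpp
    rw [card_pos]
    have h3 := Int.emod_nonneg x hp0.ne'
    have h4 := Int.emod_lt_of_pos x hp0
    refine ⟨(x % p).toNat, ?_⟩
    rw [mem_filter, mem_range]
    refine ⟨by omega, ?_⟩
    rw [Int.toNat_of_nonneg h3, dvd_iff (Int.mod_modEq x p)]
    exact hx
  rw [← h1, card_pos] at h2
  obtain ⟨a, ha⟩ := h2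
  rw [mem_filter] at ha
  refine ⟨a, fun p hp => ?_⟩
  have h3 := (mem_filter.1 (ha.2 p hp)).2
  have h4 : ((a % p : ℕ) : ℤ) ≡ a [ZMOD p] := by
    push_cast
    exact Int.mod_modEq _ _
  rwa [dvd_iff h4] at h3

/-- a residue with a given value of a linear polynomial -/
theorem solve {q : ℕ} (hq : q.Prime) {E : ℤ} (hE : ¬ (q : ℤ) ∣ E) (F c : ℤ) :
    ∃ x ∈ range q, (q : ℤ) ∣ E * (x : ℕ) + F - c := by
  have hq0 : (0 : ℤ) < q := by exact_mod_cast hq.pos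
  obtain ⟨s, t, hst⟩ := cop_of hq hE
  obtain ⟨y, hy⟩ : ∃ y : ℤ, y = t * (c - F) := ⟨_, rfl⟩
  have h3 := Int.emod_nonneg y hq0.ne'
  have h4 := Int.emod_lt_of_pos y hq0
  refine ⟨(y % q).toNat, ?_, ?_⟩
  · rw [mem_range]
    omega
  · rw [Int.toNat_of_nonneg h3]
    have h5 : y = q * (y / q) + y % q := (Int.mul_ediv_add_emod y q).symm
    have h7 : E * y + F - c = (q : ℤ) * (- s * (c - F)) := by
      rw [hy]
      linear_combination (c - F) * hst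
    have h8 : E * (y % q) = E * y - E * (q * (y / q)) := by
      have : y % q = y - q * (y / q) := by linarith
      rw [this]
      ring
    rw [h8]
    have h9 : E * y - E * (q * (y / q)) + F - c = (E * y + F - c) - q * (E * (y / q)) := by ring
    rw [h9, h7]
    exact dvd_sub (dvd_mul_right _ _) (dvd_mul_right _ _)

/-- the classes of `E x + F` for the zeros `x` of the product modulo `q` -/
noncomputable def OmE (f : Fin m → ℤ[X]) (z : ℕ) (E F : ℤ) (q : ℕ) : Finset ℕ := by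
  classical
  exact if q ≤ z then ∅ else ((range q).erase 0).filter (fun c : ℕ => ∃ x ∈ range q,
    (q : ℤ) ∣ E * (x : ℕ) + F - c ∧ (q : ℤ) ∣ ∏ k, (f k).eval (x : ℕ))

theorem mem_OmE {f : Fin m → ℤ[X]} {z : ℕ} {E F : ℤ} {q c : ℕ} :
    c ∈ OmE f z E F q ↔ z < q ∧ c ≠ 0 ∧ c < q ∧ ∃ x ∈ range q,
      (q : ℤ) ∣ E * (x : ℕ) + F - c ∧ (q : ℤ) ∣ ∏ k, (f k).eval (x : ℕ) := by
  classical
  unfold OmE
  split_ifs with h
  · simp
    omega
  · rw [mem_filter, mem_erase, mem_range]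
    constructor
    · rintro ⟨⟨h1, h2⟩, h3⟩
      exact ⟨by omega, h1, h2, h3⟩
    · rintro ⟨_, h1, h2, h3⟩
      exact ⟨⟨h1, h2⟩, h3⟩

/-- the data at one `n` -/
structure Da (f : Fin m → ℤ[X]) (i j : Fin m) (z d u : ℕ) (σ τ e0 e1 β0 β1 : ℤ) : Prop where
  hi : ∀ x : ℤ, (f i).eval x = e0 * x + β0
  hj : ∀ x : ℤ, (f j).eval x = e1 * x + β1
  loc : Loc f
  deg : ∑ k, (f k).natDegree ≤ d
  dz : d + 5 ≤ z
  hσ : σ = 1 ∨ σ = -1
  hτ : τ = 1 ∨ τ = -1
  hu : (u : ℤ) = τ * (σ * e0)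
  u0 : 0 < u
  uz : u ≤ z
  e10 : e1 ≠ 0
  H0 : e0 * β1 - e1 * β0 ≠ 0

variable {f : Fin m → ℤ[X]} {i j : Fin m} {z d u : ℕ} {σ τ e0 e1 β0 β1 : ℤ}

theorem Da.ss (D : Da f i j z d u σ τ e0 e1 β0 β1) : σ * σ = 1 := by
  rcases D.hσ with h | h <;> rw [h] <;> norm_num

theorem Da.tt (D : Da f i j z d u σ τ e0 e1 β0 β1) : τ * τ = 1 := by
  rcases D.hτ with h | h <;> rw [h] <;> norm_num

theorem Da.E0 (D : Da f i j z d u σ τ e0 e1 β0 β1) : σ * e0 ≠ 0 := by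
  intro h
  have h1 := D.hu
  rw [h, mul_zero] at h1
  have := D.u0
  omega

theorem Da.Edvd (D : Da f i j z d u σ τ e0 e1 β0 β1) {q : ℕ} (hz : z < q) :
    ¬ (q : ℤ) ∣ σ * e0 := by
  intro h
  have h1 : (q : ℤ) ∣ u := by
    rw [D.hu]
    exact h.mul_left _
  have h2 := Nat.le_of_dvd D.u0 (Int.natCast_dvd_natCast.1 h1)
  have := D.uz
  omega

/-- the number of the classes -/
theorem Da.card (D : Da f i j z d u σ τ e0 e1 β0 β1) {q : ℕ} (hq : q.Prime) (hz : z < q) :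
    (Z0 (OmE f z (σ * e0) (σ * β0)) q).card ≤ om f q ∧ om f q ≤ d := by
  classical
  have hpi := Nat.prime_iff_prime_int.1 hq
  constructor
  · have hsub : Z0 (OmE f z (σ * e0) (σ * β0)) q ⊆
        ((range q).filter (fun x : ℕ => (q : ℤ) ∣ ∏ k, (f k).eval x)).image
          (fun x : ℕ => hr (σ * e0 * x + σ * β0) q) := by
      intro c hc
      unfold Z0 at hc
      rw [mem_insert] at hc
      rw [mem_image]
      have key : ∀ c : ℕ, c < q → (∃ x ∈ range q, (q : ℤ) ∣ σ * e0 * (x : ℕ) + σ * β0 - c ∧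
          (q : ℤ) ∣ ∏ k, (f k).eval (x : ℕ)) → ∃ a ∈ (range q).filter (fun x : ℕ => (q : ℤ) ∣ ∏ k, (f k).eval x),
          hr (σ * e0 * a + σ * β0) q = c := by
        rintro c hcq ⟨x, hx, h1, h2⟩
        refine ⟨x, mem_filter.2 ⟨hx, h2⟩, ?_⟩
        have h3 : hr (σ * e0 * x + σ * β0) q = hr (c : ℤ) q := by
          rw [hr_eq_iff _ _ hq.pos, Int.modEq_iff_dvd, ← Int.dvd_neg, neg_sub]
          exact h1
        rw [h3, hr_nat c hq.pos, Nat.mod_eq_of_lt hcq]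
      rcases hc with rfl | hc
      · apply key 0 hq.pos
        obtain ⟨x, hx, h1⟩ := solve hq (D.Edvd hz) (σ * β0) 0
        refine ⟨x, hx, by exact_mod_cast h1, ?_⟩
        refine Dvd.dvd.trans ?_ (dvd_prod_of_mem _ (mem_univ i))
        rw [D.hi]
        rw [sub_zero] at h1
        have h2 : e0 * (x : ℤ) + β0 = σ * (σ * e0 * x + σ * β0) := by
          have := D.ss
          linear_combination (-(e0 * x) - β0) * this
        rw [h2]
        exact h1.mul_left _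
      · rw [mem_OmE] at hc
        exact key c hc.2.2.1 hc.2.2.2
    exact (card_le_card hsub).trans card_image_le
  · exact (om_le D.loc hq).trans D.deg

theorem Da.adm (D : Da f i j z d u σ τ e0 e1 β0 β1) (Y : ℕ) :
    Adm d Y (OmE f z (σ * e0) (σ * β0)) := by
  classical
  intro q hq
  have hqp := Pr_prime hq
  rcases Nat.lt_or_ge z q with hz | hz
  · obtain ⟨h1, h2⟩ := D.card hqp hz
    have h0 : (0 : ℕ) ∉ OmE f z (σ * e0) (σ * β0) q := by
      rw [mem_OmE]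
      tauto
    have h3 : (Z0 (OmE f z (σ * e0) (σ * β0)) q).card = (OmE f z (σ * e0) (σ * β0) q).card + 1 :=
      card_insert_of_notMem h0
    have := D.dz
    refine ⟨by omega, by omega, h0, ?_⟩
    intro c hc
    rw [mem_OmE] at hc
    exact hc.2.2.1
  · have h0 : OmE f z (σ * e0) (σ * β0) q = ∅ := by
      unfold OmE
      rw [if_pos hz]
    rw [h0]
    refine ⟨by simp, by simpa using hqp.one_lt, by simp, by simp⟩

/-- the identity between the two forms -/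
theorem Da.idn (D : Da f i j z d u σ τ e0 e1 β0 β1) (x : ℤ) :
    τ * e1 * (σ * e0 * x + σ * β0) + τ * (σ * e0 * β1 - e1 * (σ * β0)) = u * (e1 * x + β1) := by
  rw [D.hu]
  ring

theorem Da.hm (D : Da f i j z d u σ τ e0 e1 β0 β1) {Y : ℕ}
    (hw : ∀ q : ℕ, q.Prime → z < q → ¬ (q : ℤ) ∣ τ * e1) :
    ∀ q ∈ Pr z Y, Cc (τ * e1) (τ * (σ * e0 * β1 - e1 * (σ * β0))) q ∈ Z0 (OmE f z (σ * e0) (σ * β0)) q := by
  classical
  intro q hq
  have hqp := Pr_prime hq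
  have hz := (Pr_mem.1 hq).1.1
  have hpi := Nat.prime_iff_prime_int.1 hqp
  obtain ⟨c, hc⟩ : ∃ c : ℕ, c = Cc (τ * e1) (τ * (σ * e0 * β1 - e1 * (σ * β0))) q := ⟨_, rfl⟩
  have hcq : c < q := by
    rw [hc]
    exact Cc_lt _ _ hqp.pos
  have h1 : (q : ℤ) ∣ τ * e1 * c + τ * (σ * e0 * β1 - e1 * (σ * β0)) := by
    rw [← Cc_iff _ _ hqp.pos (cop_of hqp (hw q hqp hz)) c, Nat.mod_eq_of_lt hcq, hc]
  rw [← hc]
  unfold Z0
  rw [mem_insert]
  rcases Nat.eq_zero_or_pos c with h0 | h0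
  · exact Or.inl h0
  right
  rw [mem_OmE]
  refine ⟨hz, h0.ne', hcq, ?_⟩
  obtain ⟨x, hx, h2⟩ := solve hqp (D.Edvd hz) (σ * β0) c
  refine ⟨x, hx, h2, ?_⟩
  refine Dvd.dvd.trans ?_ (dvd_prod_of_mem _ (mem_univ j))
  rw [D.hj]
  have h3 : (q : ℤ) ∣ u * (e1 * x + β1) := by
    rw [← D.idn x]
    have h4 := dvd_add h1 (h2.mul_left (τ * e1))
    have h5 : τ * e1 * c + τ * (σ * e0 * β1 - e1 * (σ * β0)) + τ * e1 * (σ * e0 * x + σ * β0 - c) =
      τ * e1 * (σ * e0 * x + σ * β0) + τ * (σ * e0 * β1 - e1 * (σ * β0)) := by ring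
    rwa [h5] at h4
  rcases hpi.dvd_or_dvd h3 with h4 | h4
  · exfalso
    have h5 := Nat.le_of_dvd D.u0 (Int.natCast_dvd_natCast.1 h4)
    have := D.uz
    omega
  · exact h4

theorem Da.Hne (D : Da f i j z d u σ τ e0 e1 β0 β1) : τ * (σ * e0 * β1 - e1 * (σ * β0)) ≠ 0 := by
  have h1 : τ * (σ * e0 * β1 - e1 * (σ * β0)) = τ * (σ * (e0 * β1 - e1 * β0)) := by ring
  rw [h1]
  apply mul_ne_zero
  · rcases D.hτ with h | h <;> rw [h] <;> norm_num
  apply mul_ne_zero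
  · rcases D.hσ with h | h <;> rw [h] <;> norm_num
  · exact D.H0

/-- the class of the primes -/
noncomputable def aP (z u : ℕ) (E F : ℤ) (x0 : ℕ) : ℕ := hr (E * x0 + F) (u * Mz z)

theorem aP_dvd (z u : ℕ) (hu : 0 < u) (E F : ℤ) (x0 : ℕ) :
    ((u * Mz z : ℕ) : ℤ) ∣ (aP z u E F x0 : ℤ) - (E * x0 + F) := by
  have hm : 0 < u * Mz z := Nat.mul_pos hu (Mz_pos z)
  unfold aP
  rw [hr_cast _ hm, ← Int.dvd_neg, neg_sub]
  exact Int.dvd_self_sub_emod

theorem Da.cop (D : Da f i j z d u σ τ e0 e1 β0 β1) {x0 : ℕ}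
    (hx0 : ∀ q ∈ Pr 0 z, ¬ (q : ℤ) ∣ ∏ k, (f k).eval x0) :
    (aP z u (σ * e0) (σ * β0) x0).Coprime (u * Mz z) ∧
    (u : ℤ) ∣ τ * e1 * (aP z u (σ * e0) (σ * β0) x0 : ℤ) + τ * (σ * e0 * β1 - e1 * (σ * β0)) ∧
    ∀ q ∈ Pr 0 z, ¬ ((u * q : ℕ) : ℤ) ∣ τ * e1 * (aP z u (σ * e0) (σ * β0) x0 : ℤ) +
      τ * (σ * e0 * β1 - e1 * (σ * β0)) := by
  have hd := aP_dvd z u D.u0 (σ * e0) (σ * β0) x0
  obtain ⟨a, ha⟩ : ∃ a : ℕ, a = aP z u (σ * e0) (σ * β0) x0 := ⟨_, rfl⟩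
  rw [← ha] at hd ⊢
  have hu0 : (0 : ℤ) < u := by exact_mod_cast D.u0
  -- the second form
  have hid : τ * e1 * (a : ℤ) + τ * (σ * e0 * β1 - e1 * (σ * β0)) =
      u * (e1 * x0 + β1) + τ * e1 * ((a : ℤ) - (σ * e0 * x0 + σ * β0)) := by
    rw [← D.idn]
    ring
  refine ⟨?_, ?_, ?_⟩
  · rw [Nat.coprime_iff_gcd_eq_one]
    by_contra hcon
    obtain ⟨q, hq, hqd⟩ := Nat.exists_prime_and_dvd hcon
    have h1 : q ∣ a := hqd.trans (Nat.gcd_dvd_left _ _)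
    have h2 : q ∣ u * Mz z := hqd.trans (Nat.gcd_dvd_right _ _)
    have hqz : q ≤ z := by
      rcases (hq.dvd_mul).1 h2 with h | h
      · exact (Nat.le_of_dvd D.u0 h).trans D.uz
      · exact (Mz_prime hq).1 h
    apply hx0 q (Pr_mem.2 ⟨⟨hq.pos, hqz⟩, hq⟩)
    refine Dvd.dvd.trans ?_ (dvd_prod_of_mem _ (mem_univ i))
    rw [D.hi]
    have h3 : (q : ℤ) ∣ (a : ℤ) - (σ * e0 * x0 + σ * β0) := (Int.natCast_dvd_natCast.2 h2).trans hd
    have h4 := dvd_sub (Int.natCast_dvd_natCast.2 h1) h3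
    have h5 : (a : ℤ) - ((a : ℤ) - (σ * e0 * x0 + σ * β0)) = σ * e0 * x0 + σ * β0 := by ring
    rw [h5] at h4
    have h6 : e0 * (x0 : ℤ) + β0 = σ * (σ * e0 * x0 + σ * β0) := by
      have := D.ss
      linear_combination (-(e0 * x0) - β0) * this
    rw [h6]
    exact h4.mul_left _
  · rw [hid]
    apply dvd_add (dvd_mul_right _ _)
    apply Dvd.dvd.mul_left
    refine Dvd.dvd.trans ?_ hd
    push_cast
    exact dvd_mul_right _ _
  · intro q hq h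
    have hqp := Pr_prime hq
    rw [hid] at h
    have h1 : ((u * q : ℕ) : ℤ) ∣ (a : ℤ) - (σ * e0 * x0 + σ * β0) := by
      refine Dvd.dvd.trans ?_ hd
      apply Int.natCast_dvd_natCast.2
      apply mul_dvd_mul_left
      exact (Mz_prime hqp).2 (Pr_mem.1 hq).1.2
    have h2 := dvd_sub h (h1.mul_left (τ * e1))
    rw [add_sub_cancel_right] at h2
    push_cast at h2
    have h3 := Int.dvd_of_mul_dvd_mul_left hu0.ne' h2
    apply hx0 q hq
    refine Dvd.dvd.trans ?_ (dvd_prod_of_mem _ (mem_univ j))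
    rw [D.hj]
    exact h3

end Pool.Agent.X32.Uni
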