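import Pool.Agent.X32.Uni.Red1
import Pool.Agent.Y840.CT.LowF

/-!
Windows, the sieve product, and the sizes.
-/

set_option autoImplicit false

namespace Pool.Agent.X32.Uni

open Finset Polynomial
open Pool.Agent.Y843.HS (Pr VV Pr_mem Pr_prime VV_split card_res)
open Pool.Agent.Y843.HG (Adm Z0 V1)
open Pool.Agent.Y843.CH
open Pool.Agent.X32.CL

variable {m : ℕ}

/-- a window on which a linear polynomial has a constant sign -/
theorem window (e0 β0 : ℤ) (he : e0 ≠ 0) (A B : ℕ) (hAB : A ≤ B) : ∃ A1 B1 : ℕ, ∃ σ : ℤ,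
    A ≤ A1 ∧ A1 ≤ B1 ∧ B1 ≤ B ∧ B + 2 * A1 ≤ A + 2 * B1 + 1 ∧ (σ = 1 ∨ σ = -1) ∧
    ∀ x : ℤ, A1 < x → x ≤ B1 → 0 < σ * (e0 * x + β0) := by
  obtain ⟨M, hM⟩ : ∃ M : ℕ, M = (A + B) / 2 := ⟨_, rfl⟩
  obtain ⟨v, hv⟩ : ∃ v : ℤ, v = e0 * M + β0 := ⟨_, rfl⟩
  rcases lt_or_gt_of_ne he with h | h
  · rcases le_or_gt v 0 with h1 | h1
    · refine ⟨M, B, -1, by omega, by omega, le_rfl, by omega, Or.inr rfl, fun x hx _ => ?_⟩
      have h2 := mul_lt_mul_of_neg_left hx h
      linarith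
    · refine ⟨A, M, 1, le_rfl, by omega, by omega, by omega, Or.inl rfl, fun x _ hx => ?_⟩
      have h2 := mul_le_mul_of_nonpos_left hx h.le
      linarith
  · rcases le_or_gt 0 v with h1 | h1
    · refine ⟨M, B, 1, by omega, by omega, le_rfl, by omega, Or.inl rfl, fun x hx _ => ?_⟩
      have h2 := mul_lt_mul_of_pos_left hx h
      linarith
    · refine ⟨A, M, -1, le_rfl, by omega, by omega, by omega, Or.inr rfl, fun x _ hx => ?_⟩
      have h2 := mul_le_mul_of_nonneg_left hx h.le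
      linarith

/-- the interval of the primes -/
theorem range_p {E F τ : ℤ} {u : ℕ} (hu : (u : ℤ) = τ * E) (hτ : τ = 1 ∨ τ = -1) (u0 : 0 < u)
    {A1 B1 : ℕ} (hAB : A1 < B1) (hpos : ∀ x : ℤ, A1 < x → x ≤ B1 → 0 < E * x + F) :
    ∃ P Q : ℕ, P ≤ Q ∧ (u : ℤ) * ((B1 : ℤ) - A1) ≤ (Q : ℤ) - P + u ∧
    (∀ p : ℕ, P < p → p ≤ Q → E ∣ (p : ℤ) - F → ∃ x : ℕ, A1 < x ∧ x ≤ B1 ∧ (p : ℤ) = E * x + F) ∧
    (∃ y : ℕ, y ≤ B1 ∧ |(P : ℤ) - (E * y + F)| ≤ u + 1) ∧
    ∃ y : ℕ, y ≤ B1 ∧ |(Q : ℤ) - (E * y + F)| ≤ u + 1 := by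
  have hAB' : (A1 : ℤ) + 1 ≤ B1 := by exact_mod_cast hAB
  have hB := hpos B1 (by exact_mod_cast hAB) le_rfl
  have hA := hpos (A1 + 1) (by linarith) hAB'
  have hu0 : (0 : ℤ) < u := by exact_mod_cast u0
  rcases hτ with rfl | rfl
  · rw [one_mul] at hu
    subst hu
    obtain ⟨a, ha⟩ : ∃ a : ℤ, a = (u : ℤ) * A1 := ⟨_, rfl⟩
    obtain ⟨b, hb⟩ : ∃ b : ℤ, b = (u : ℤ) * B1 := ⟨_, rfl⟩
    have hab : a ≤ b := by
      rw [ha, hb]
      exact mul_le_mul_of_nonneg_left (by linarith) hu0.le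
    have hA' : 0 < a + u + F := by
      have : (u : ℤ) * (A1 + 1) + F = a + u + F := by rw [ha]; ring
      linarith
    rw [← hb] at hB
    refine ⟨(a + F).toNat, (b + F).toNat, by omega, ?_, ?_, ⟨A1, hAB.le, ?_⟩, ⟨B1, le_rfl, ?_⟩⟩
    · have : (u : ℤ) * ((B1 : ℤ) - A1) = b - a := by rw [ha, hb]; ring
      omega
    · rintro p h1 h2 ⟨k, hk⟩
      have h3 : a < u * k := by omega
      have h4 : (u : ℤ) * k ≤ b := by omega
      rw [ha] at h3
      rw [hb] at h4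
      have h5 := lt_of_mul_lt_mul_left h3 hu0.le
      have h6 := le_of_mul_le_mul_left h4 hu0
      refine ⟨k.toNat, by omega, by omega, ?_⟩
      rw [Int.toNat_of_nonneg (by omega)]
      linarith
    · rw [← ha, abs_le]
      omega
    · rw [← hb, abs_le]
      omega
  · obtain ⟨a, ha⟩ : ∃ a : ℤ, a = E * A1 := ⟨_, rfl⟩
    obtain ⟨b, hb⟩ : ∃ b : ℤ, b = E * B1 := ⟨_, rfl⟩
    have hE : E < 0 := by linarith
    have hab : b ≤ a := by
      rw [ha, hb]
      exact mul_le_mul_of_nonpos_left (by linarith) hE.le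
    have hA' : 0 < a + E + F := by
      have : E * ((A1 : ℤ) + 1) + F = a + E + F := by rw [ha]; ring
      linarith
    rw [← hb] at hB
    refine ⟨(b + F - 1).toNat, (a + F - 1).toNat, by omega, ?_, ?_, ⟨B1, le_rfl, ?_⟩, ⟨A1, hAB.le, ?_⟩⟩
    · have : (u : ℤ) * ((B1 : ℤ) - A1) = a - b := by rw [hu, ha, hb]; ring
      omega
    · rintro p h1 h2 ⟨k, hk⟩
      have h3 : E * k < a := by omega
      have h4 : b ≤ E * k := by omega
      rw [ha] at h3
      rw [hb] at h4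
      have h5 : (A1 : ℤ) < k := by
        by_contra hcon
        have := mul_le_mul_of_nonpos_left (not_lt.1 hcon) hE.le
        linarith
      have h6 : k ≤ (B1 : ℤ) := by
        by_contra hcon
        have := mul_lt_mul_of_neg_left (not_le.1 hcon) hE
        linarith
      refine ⟨k.toNat, by omega, by omega, ?_⟩
      rw [Int.toNat_of_nonneg (by omega)]
      linarith
    · rw [← hb, abs_le]
      omega
    · rw [← ha, abs_le]
      omega

/-- the lower bound for the product -/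
theorem V_low (d : ℕ) : ∃ c : ℝ, 0 < c ∧ ∀ (m : ℕ) (f : Fin m → ℤ[X]) (n : ℕ), 2 ≤ n → Loc f → ∑ k, (f k).natDegree ≤ d + 1 →
    c / Real.log n ^ (d + 1) ≤ V f n := by
  classical
  obtain ⟨c, hc, h⟩ := Pool.Agent.Y840.CT.VF_low d
  refine ⟨c, hc, ?_⟩
  intro m f n hn hloc hdeg
  obtain ⟨R, hR⟩ : ∃ R : ℕ → Finset ℕ, R = fun p => (range p).filter (fun x : ℕ => (p : ℤ) ∣ ∏ k, (f k).eval x) :=
    ⟨_, rfl⟩
  have hRw : ∀ p, (R p).card = om f p := fun p => by rw [hR]; rfl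
  obtain ⟨s, hs⟩ : ∃ s : ℕ → ℕ, s = fun p => if h : (R p).Nonempty then h.choose else 0 := ⟨_, rfl⟩
  have hs' : ∀ p, (R p).Nonempty → s p ∈ R p := by
    intro p hp
    rw [hs]
    simp only [dif_pos hp]
    exact hp.choose_spec
  obtain ⟨F, hF⟩ : ∃ F : ℕ → Finset ℤ, F = fun p => ((R p).erase (s p)).image (fun x : ℕ => (x : ℤ) - s p) := ⟨_, rfl⟩
  have hroots : ∀ p : ℕ, p.Prime → (R p).card ≤ d + 1 := by
    intro p hp
    rw [hRw]
    exact (om_le hloc hp).trans hdeg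
  have hFc : ∀ p : ℕ, p.Prime → (F p).card ≤ (R p).card - 1 := by
    intro p hp
    rw [hF]
    refine card_image_le.trans ?_
    rcases (R p).eq_empty_or_nonempty with h0 | h0
    · rw [h0]
      simp
    · rw [card_erase_of_mem (hs' p h0)]
  have hrho : ∀ p : ℕ, p.Prime → om f p ≤ Pool.Agent.Y840.CT.rho (F p) p ∧
      Pool.Agent.Y840.CT.rho (F p) p < p := by
    intro p hp
    have hp0 : (0 : ℤ) < p := by exact_mod_cast hp.pos
    constructor
    · rw [← hRw]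
      unfold Pool.Agent.Y840.CT.rho
      apply card_le_card_of_injOn (fun x : ℕ => ((x : ℤ) - s p) % p)
      · intro x hx
        rw [mem_coe] at hx
        rw [mem_coe, mem_image]
        rcases eq_or_ne x (s p) with h1 | h1
        · exact ⟨0, mem_insert_self _ _, by rw [h1]; simp⟩
        · refine ⟨(x : ℤ) - s p, mem_insert_of_mem ?_, rfl⟩
          rw [hF]
          exact mem_image_of_mem _ (mem_erase.2 ⟨h1, hx⟩)
      · intro x hx y hy hxy
        rw [mem_coe, hR] at hx hy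
        simp only [mem_filter, mem_range] at hx hy
        simp only at hxy
        have h1 : (x : ℤ) - s p ≡ (y : ℤ) - s p [ZMOD p] := hxy
        have h2 : (x : ℤ) ≡ y [ZMOD p] := by
          have := h1.add_right (s p : ℤ)
          simpa using this
        have h3 : x ≡ y [MOD p] := Int.natCast_modEq_iff.1 h2
        exact Nat.ModEq.eq_of_lt_of_lt h3 hx.1 hy.1
    · unfold Pool.Agent.Y840.CT.rho
      have h1 := card_image_le (s := insert 0 (F p)) (f := fun h : ℤ => h % p)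
      have h2 := card_insert_le (0 : ℤ) (F p)
      have h3 := hFc p hp
      have h4 := om_lt hloc hp
      rw [← hRw] at h4
      have := hp.two_le
      omega
  refine (h n hn F (fun p hp => by
    have h1 := hFc p hp
    have h2 := hroots p hp
    omega) (fun p hp => (hrho p hp).2)).trans ?_
  unfold Pool.Agent.Y840.CT.VF V
  apply prod_le_prod
  · intro p hp
    have hpp := (mem_filter.1 hp).2
    have hp0 : (0 : ℝ) < p := by exact_mod_cast hpp.pos
    rw [sub_nonneg, div_le_one hp0]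
    exact_mod_cast (hrho p hpp).2.le
  · intro p hp
    have hpp := (mem_filter.1 hp).2
    have hp0 : (0 : ℝ) < p := by exact_mod_cast hpp.pos
    have h1 : (om f p : ℝ) ≤ Pool.Agent.Y840.CT.rho (F p) p := by exact_mod_cast (hrho p hpp).1
    have := div_le_div_of_nonneg_right h1 hp0.le
    linarith

variable {f : Fin m → ℤ[X]} {i j : Fin m} {z d u n : ℕ} {σ τ e0 e1 β0 β1 : ℤ}

/-- the comparison of the sieve products -/
theorem Da.VV_ge (D : Da f i j z d u σ τ e0 e1 β0 β1) {Y : ℕ} (hzY : z ≤ Y) (hYn : Y ≤ n) :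
    V1 z * V f n ≤ VV (Z0 (OmE f z (σ * e0) (σ * β0))) 0 Y := by
  classical
  rw [← VV_split _ (Nat.zero_le z) hzY]
  have h1 : VV (Z0 (OmE f z (σ * e0) (σ * β0))) 0 z = V1 z := by
    unfold VV V1
    apply prod_congr rfl
    intro p hp
    have h0 : OmE f z (σ * e0) (σ * β0) p = ∅ := by
      unfold OmE
      rw [if_pos (Pr_mem.1 hp).1.2]
    unfold Z0
    rw [h0]
    simp
  rw [h1]
  apply mul_le_mul_of_nonneg_left _ (V1_pos z).le
  unfold V VV
  have hsub : Pr z Y ⊆ (Icc 1 n).filter Nat.Prime := by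
    intro p hp
    rw [Pr_mem] at hp
    rw [mem_filter, mem_Icc]
    exact ⟨⟨hp.2.pos, by omega⟩, hp.2⟩
  rw [← prod_sdiff hsub]
  have h2 : ∏ p ∈ (Icc 1 n).filter Nat.Prime \ Pr z Y, (1 - (om f p : ℝ) / p) ≤ 1 := by
    apply prod_le_one
    · intro p hp
      exact (fac_bounds D.loc (mem_filter.1 (mem_sdiff.1 hp).1).2).1.le
    · intro p hp
      exact (fac_bounds D.loc (mem_filter.1 (mem_sdiff.1 hp).1).2).2
  have h3 : 0 ≤ ∏ p ∈ Pr z Y, (1 - (om f p : ℝ) / p) :=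
    prod_nonneg fun p hp => (fac_bounds D.loc (Pr_prime hp)).1.le
  have h4 : ∏ p ∈ Pr z Y, (1 - (om f p : ℝ) / p) ≤
      ∏ p ∈ Pr z Y, (1 - ((Z0 (OmE f z (σ * e0) (σ * β0)) p).card : ℝ) / p) := by
    apply prod_le_prod
    · intro p hp
      exact (fac_bounds D.loc (Pr_prime hp)).1.le
    · intro p hp
      have hpp := Pr_prime hp
      have hp0 : (0 : ℝ) < p := by exact_mod_cast hpp.pos
      have h5 : ((Z0 (OmE f z (σ * e0) (σ * β0)) p).card : ℝ) ≤ om f p := by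
        exact_mod_cast (D.card hpp (Pr_mem.1 hp).1.1).1
      have := div_le_div_of_nonneg_right h5 hp0.le
      linarith
  calc _ ≤ 1 * ∏ p ∈ Pr z Y, (1 - (om f p : ℝ) / p) := mul_le_mul_of_nonneg_right h2 h3
    _ ≤ _ := by rw [one_mul]; exact h4

end Pool.Agent.X32.Uni
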