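import Pool.Agent.X32.Uni.Red2

/-!
From the good primes to the good arguments, at one `n`.
-/

set_option autoImplicit false

namespace Pool.Agent.X32.Uni

open Finset Polynomial
open Pool.Agent.Y843.HS (Pr VV Pr_mem Pr_prime VV_split card_res)
open Pool.Agent.Y843.HG (Adm Z0 V1)
open Pool.Agent.Y843.CH
open Pool.Agent.X32.CL

variable {m : ℕ}

/-- `|v| > 1`, and `|v|` is a product of at most `r` primes, all of them larger than `y` -/
def Almost (r : ℕ) (y : ℝ) (v : ℤ) : Prop :=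
  1 < |v| ∧ v.natAbs.primeFactorsList.length ≤ r ∧ ∀ q : ℕ, q.Prime → (q : ℤ) ∣ v → y < q

open Classical in
/-- the good arguments -/
noncomputable def GoodX (f : Fin m → ℤ[X]) (i j : Fin m) (t n A B : ℕ) : Finset ℕ :=
  (Ioc A B).filter (fun x : ℕ => ((f i).eval (x : ℤ)).natAbs.Prime ∧
    Almost 2 ((n : ℝ) ^ (1 / 9 : ℝ)) ((f j).eval (x : ℤ)) ∧
    ∀ k, Almost (t * (f k).natDegree) ((n : ℝ) ^ (1 / (t : ℝ))) ((f k).eval (x : ℤ)))

open Classical in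
/-- the arguments with a value `0, 1, -1` -/
noncomputable def BadX (f : Fin m → ℤ[X]) (A B : ℕ) : Finset ℕ :=
  (Ioc A B).filter (fun x : ℕ => ∃ k, |(f k).eval (x : ℤ)| ≤ 1)

theorem card_BadX {f : Fin m → ℤ[X]} (hd : ∀ k, 1 ≤ (f k).natDegree) (A B : ℕ) :
    (BadX f A B).card ≤ 3 * ∑ k, (f k).natDegree := by
  classical
  have h1 : BadX f A B ⊆ univ.biUnion (fun k => (({-1, 0, 1} : Finset ℤ)).biUnion (fun v =>
      (Ioc A B).filter (fun x : ℕ => (f k).eval (x : ℤ) = v))) := by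
    intro x hx
    unfold BadX at hx
    rw [mem_filter] at hx
    obtain ⟨hx1, k, hk⟩ := hx
    rw [mem_biUnion]
    refine ⟨k, mem_univ k, ?_⟩
    rw [mem_biUnion]
    refine ⟨(f k).eval (x : ℤ), ?_, ?_⟩
    · rw [abs_le] at hk
      have : (f k).eval (x : ℤ) = -1 ∨ (f k).eval (x : ℤ) = 0 ∨ (f k).eval (x : ℤ) = 1 := by omega
      simpa using this
    · rw [mem_filter]
      exact ⟨hx1, rfl⟩
  refine (card_le_card h1).trans (card_biUnion_le.trans ?_)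
  rw [mul_sum]
  apply sum_le_sum
  intro k _
  refine card_biUnion_le.trans ?_
  have h2 : ∀ v ∈ (({-1, 0, 1} : Finset ℤ)), ((Ioc A B).filter (fun x : ℕ => (f k).eval (x : ℤ) = v)).card ≤
      (f k).natDegree := fun v _ => card_val_le _ (hd k) v A B
  refine (sum_le_card_nsmul _ _ _ h2).trans ?_
  have h3 : ({-1, 0, 1} : Finset ℤ).card = 3 := by decide
  rw [h3, smul_eq_mul]

variable {f : Fin m → ℤ[X]} {i j : Fin m} {n z d u : ℕ} {σ τ e0 e1 β0 β1 : ℤ}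

theorem almost_of {t n K D : ℕ} {v : ℤ} (ht : 1 ≤ t) (hn1 : 1 ≤ n) (hv : 1 < |v|)
    (hK : (K : ℝ) < (n : ℝ) ^ (1 / (t : ℝ))) (hKv : |v| ≤ K * (n : ℤ) ^ D)
    (hq : ∀ q : ℕ, q.Prime → (q : ℤ) ∣ v → (n : ℝ) ^ (1 / (t : ℝ)) < q) :
    Almost (t * D) ((n : ℝ) ^ (1 / (t : ℝ))) v := by
  have hn0 : (0 : ℝ) < n := by exact_mod_cast hn1
  have ht0 : (0 : ℝ) < t := by exact_mod_cast ht
  have hv0 : v ≠ 0 := by
    rintro rfl
    simp at hv
  refine ⟨hv, ?_, hq⟩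
  refine Pool.Agent.Y840.CT.length_le (t := t * D) (y := (n : ℝ) ^ (1 / (t : ℝ))) (B := K * (n : ℝ) ^ D)
    (Int.natAbs_ne_zero.2 hv0) ?_ ?_ ?_ ?_
  · exact Real.one_le_rpow (by exact_mod_cast hn1) (by positivity)
  · have h1 : ((v.natAbs : ℕ) : ℤ) ≤ ((K * n ^ D : ℕ) : ℤ) := by
      rw [← Int.abs_eq_natAbs]
      push_cast
      exact hKv
    have h2 : v.natAbs ≤ K * n ^ D := by exact_mod_cast h1
    exact_mod_cast h2
  · rw [pow_succ, pow_mul]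
    have h1 : ((n : ℝ) ^ (1 / (t : ℝ))) ^ t = n := by
      rw [← Real.rpow_natCast, ← Real.rpow_mul hn0.le, one_div, inv_mul_cancel₀ ht0.ne', Real.rpow_one]
    rw [h1, mul_comm]
    exact mul_lt_mul_of_pos_left hK (by positivity)
  · intro q hqp hqd
    exact hq q hqp (Int.natCast_dvd.2 hqd)

/-- a good prime gives a good argument -/
theorem Da.good (D : Da f i j z d u σ τ e0 e1 β0 β1) {A B x0 Y N t K P' Q : ℕ}
    (hBn : B ≤ n) (hn1 : 1 ≤ n) (ht : 1 ≤ t)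
    (hx0 : ∀ q ∈ Pr 0 z, ¬ (q : ℤ) ∣ ∏ k, (f k).eval x0)
    (hY : (n : ℝ) ^ (1 / (t : ℝ)) < Y + 1) (hN : (n : ℝ) ^ (1 / 9 : ℝ) < (N : ℝ) ^ (1 / 4 : ℝ))
    (hK : (K : ℝ) < (n : ℝ) ^ (1 / (t : ℝ)))
    (hKv : ∀ k, ∀ x : ℤ, 0 ≤ x → x ≤ n → |(f k).eval (x : ℤ)| ≤ K * (n : ℤ) ^ (f k).natDegree)
    {x p : ℕ} (hx1 : A < x) (hx2 : x ≤ B) (hp : (p : ℤ) = σ * e0 * x + σ * β0)
    (hpG : p ∈ GD2 P' Q N z Y (u * Mz z) (aP z u (σ * e0) (σ * β0) x0) u (τ * e1)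
      (τ * (σ * e0 * β1 - e1 * (σ * β0))) (OmE f z (σ * e0) (σ * β0)))
    (h1 : ∀ k, 1 < |(f k).eval (x : ℤ)|) : x ∈ GoodX f i j t n A B := by
  classical
  unfold GD2 at hpG
  rw [mem_filter, mem_PNX] at hpG
  obtain ⟨⟨⟨hPp, hpQ⟩, hpp⟩, hmod, hZ, hf0, hf2, hfq⟩ := hpG
  have hu0 : (0 : ℤ) < u := by exact_mod_cast D.u0
  have hss := D.ss
  have htt := D.tt
  -- the absolute value of the first form
  have hvi : (f i).eval (x : ℤ) = σ * p := by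
    rw [D.hi, hp]
    linear_combination (-(e0 * x) - β0) * hss
  have hvi' : ((f i).eval (x : ℤ)).natAbs = p := by
    rw [hvi, Int.natAbs_mul]
    rcases D.hσ with h | h <;> rw [h] <;> simp
  -- the second form
  have hvj : fv u (τ * e1) (τ * (σ * e0 * β1 - e1 * (σ * β0))) p = ((f j).eval (x : ℤ)).natAbs := by
    unfold fv
    rw [hp, D.idn, Int.mul_ediv_cancel_left _ hu0.ne', D.hj]
  -- the small primes
  have hcong : ((Mz z : ℕ) : ℤ) ∣ (x : ℤ) - x0 := by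
    have h2 : ((u * Mz z : ℕ) : ℤ) ∣ (aP z u (σ * e0) (σ * β0) x0 : ℤ) - p := (Nat.modEq_iff_dvd).1 hmod
    have h3 := dvd_sub (aP_dvd z u D.u0 (σ * e0) (σ * β0) x0) h2
    have h4 : (aP z u (σ * e0) (σ * β0) x0 : ℤ) - (σ * e0 * x0 + σ * β0) -
        ((aP z u (σ * e0) (σ * β0) x0 : ℤ) - p) = u * (τ * (x - x0)) := by
      have h5 : σ * e0 = τ * u := by
        rw [D.hu]
        linear_combination (- (σ * e0)) * htt
      rw [hp, h5]
      ring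
    rw [h4] at h3
    push_cast at h3
    have h5 := Int.dvd_of_mul_dvd_mul_left hu0.ne' h3
    have h6 : (x : ℤ) - x0 = τ * (τ * (x - x0)) := by
      linear_combination (- ((x : ℤ) - x0)) * htt
    rw [h6]
    exact h5.mul_left _
  have hsm : ∀ q : ℕ, q.Prime → q ≤ Y → ¬ (q : ℤ) ∣ ∏ k, (f k).eval (x : ℤ) := by
    intro q hq hqY hd
    rcases Nat.lt_or_ge z q with hz | hz
    · have hc := hZ q (Pr_mem.2 ⟨⟨hz, hqY⟩, hq⟩)
      apply hc
      unfold Z0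
      rw [mem_insert]
      rcases Nat.eq_zero_or_pos (p % q) with h0 | h0
      · exact Or.inl h0
      right
      rw [mem_OmE]
      refine ⟨hz, h0.ne', Nat.mod_lt _ hq.pos, x % q, mem_range.2 (Nat.mod_lt _ hq.pos), ?_, ?_⟩
      · have h2 : ((q : ℕ) : ℤ) ∣ (x : ℤ) - (x % q : ℕ) := by
          push_cast
          exact Int.dvd_self_sub_emod
        have h3 : ((q : ℕ) : ℤ) ∣ (p : ℤ) - (p % q : ℕ) := by
          push_cast
          exact Int.dvd_self_sub_emod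
        have h4 := dvd_sub h3 (h2.mul_left (σ * e0))
        have h5 : (p : ℤ) - (p % q : ℕ) - σ * e0 * ((x : ℤ) - (x % q : ℕ)) =
            σ * e0 * ((x % q : ℕ) : ℤ) + σ * β0 - ((p % q : ℕ) : ℤ) := by
          rw [hp]
          ring
        rwa [h5] at h4
      · have h2 : (((x % q : ℕ) : ℤ)) ≡ x [ZMOD q] := by
          push_cast
          exact Int.mod_modEq _ _
        rwa [dvd_iff h2]
    · apply hx0 q (Pr_mem.2 ⟨⟨hq.pos, hz⟩, hq⟩)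
      have h2 : (x : ℤ) ≡ x0 [ZMOD q] := by
        rw [Int.modEq_comm, Int.modEq_iff_dvd]
        exact (Int.natCast_dvd_natCast.2 ((Mz_prime hq).2 hz)).trans hcong
      rwa [← dvd_iff h2]
  have hlarge : ∀ k, ∀ q : ℕ, q.Prime → (q : ℤ) ∣ (f k).eval (x : ℤ) → (n : ℝ) ^ (1 / (t : ℝ)) < q := by
    intro k q hq hd
    have h2 : ¬ q ≤ Y := fun h => hsm q hq h (hd.trans (dvd_prod_of_mem _ (mem_univ k)))
    have h3 : Y + 1 ≤ q := by omega
    have h4 : (Y : ℝ) + 1 ≤ q := by exact_mod_cast h3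
    linarith
  unfold GoodX
  rw [mem_filter, mem_Ioc]
  refine ⟨⟨hx1, hx2⟩, by rw [hvi']; exact hpp, ⟨h1 j, ?_, ?_⟩, fun k => ?_⟩
  · rw [← hvj]
    exact hf2
  · intro q hq hd
    have h2 : q ∣ fv u (τ * e1) (τ * (σ * e0 * β1 - e1 * (σ * β0))) p := by
      rw [hvj]
      exact Int.natCast_dvd.1 hd
    exact lt_of_lt_of_le hN (hfq q hq h2)
  · refine almost_of ht hn1 (h1 k) hK (hKv k x (by positivity) ?_) (hlarge k)
    exact_mod_cast hx2.trans hBn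

/-- the number of the good arguments -/
theorem Da.count (D : Da f i j z d u σ τ e0 e1 β0 β1) {A B A1 B1 x0 Y N t K P P' Q : ℕ}
    (hBn : B ≤ n) (hn1 : 1 ≤ n) (ht : 1 ≤ t) (hA : A ≤ A1) (hB : B1 ≤ B)
    (hd : ∀ k, 1 ≤ (f k).natDegree)
    (hx0 : ∀ q ∈ Pr 0 z, ¬ (q : ℤ) ∣ ∏ k, (f k).eval x0)
    (hY : (n : ℝ) ^ (1 / (t : ℝ)) < Y + 1) (hN : (n : ℝ) ^ (1 / 9 : ℝ) < (N : ℝ) ^ (1 / 4 : ℝ))
    (hK : (K : ℝ) < (n : ℝ) ^ (1 / (t : ℝ)))
    (hKv : ∀ k, ∀ x : ℤ, 0 ≤ x → x ≤ n → |(f k).eval (x : ℤ)| ≤ K * (n : ℤ) ^ (f k).natDegree)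
    (hPP : P ≤ P')
    (hrange : ∀ p : ℕ, P < p → p ≤ Q → σ * e0 ∣ (p : ℤ) - σ * β0 → ∃ x : ℕ, A1 < x ∧ x ≤ B1 ∧
      (p : ℤ) = σ * e0 * x + σ * β0) :
    (GD2 P' Q N z Y (u * Mz z) (aP z u (σ * e0) (σ * β0) x0) u (τ * e1)
      (τ * (σ * e0 * β1 - e1 * (σ * β0))) (OmE f z (σ * e0) (σ * β0))).card ≤
      (GoodX f i j t n A B).card + 3 * ∑ k, (f k).natDegree := by
  classical
  have h1 : GD2 P' Q N z Y (u * Mz z) (aP z u (σ * e0) (σ * β0) x0) u (τ * e1)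
      (τ * (σ * e0 * β1 - e1 * (σ * β0))) (OmE f z (σ * e0) (σ * β0)) ⊆
      (GoodX f i j t n A B ∪ BadX f A B).image (fun x : ℕ => (σ * e0 * (x : ℤ) + σ * β0).toNat) := by
    intro p hp
    have hp' := hp
    unfold GD2 at hp
    rw [mem_filter, mem_PNX] at hp
    obtain ⟨⟨⟨hPp, hpQ⟩, hpp⟩, hmod, _⟩ := hp
    have hE : σ * e0 ∣ (p : ℤ) - σ * β0 := by
      have h2 : ((u * Mz z : ℕ) : ℤ) ∣ (aP z u (σ * e0) (σ * β0) x0 : ℤ) - p := (Nat.modEq_iff_dvd).1 hmod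
      have h3 := dvd_sub (aP_dvd z u D.u0 (σ * e0) (σ * β0) x0) h2
      have h4 : σ * e0 ∣ ((u * Mz z : ℕ) : ℤ) := by
        push_cast
        rw [D.hu]
        exact Dvd.intro (τ * (Mz z : ℤ)) (by ring)
      have h5 := dvd_add (h4.trans h3) (dvd_mul_right (σ * e0) (x0 : ℤ))
      have h6 : (aP z u (σ * e0) (σ * β0) x0 : ℤ) - (σ * e0 * x0 + σ * β0) -
        ((aP z u (σ * e0) (σ * β0) x0 : ℤ) - p) + σ * e0 * x0 = (p : ℤ) - σ * β0 := by ring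
      rwa [h6] at h5
    obtain ⟨x, hx1, hx2, hpx⟩ := hrange p (by omega) hpQ hE
    rw [mem_image]
    refine ⟨x, ?_, by rw [← hpx]; simp⟩
    rw [mem_union]
    by_cases hb : ∀ k, 1 < |(f k).eval (x : ℤ)|
    · left
      exact D.good hBn hn1 ht hx0 hY hN hK hKv (lt_of_le_of_lt hA hx1) (hx2.trans hB) hpx hp' hb
    · right
      push Not at hb
      unfold BadX
      rw [mem_filter, mem_Ioc]
      exact ⟨⟨lt_of_le_of_lt hA hx1, hx2.trans hB⟩, hb⟩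
  refine (card_le_card h1).trans (card_image_le.trans ((card_union_le _ _).trans ?_))
  exact Nat.add_le_add_left (card_BadX hd A B) _

end Pool.Agent.X32.Uni
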