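import Pool.Agent.X32.Uni.Pairs

/-!
Systems `F_1, ..., F_g, N - G` with two linear members.
-/

set_option autoImplicit false

namespace Pool.Agent.X32.Uni.Sch

open Finset Filter
open scoped Polynomial
open Pool.Agent.X32.Uni

/-- the size of the values of a polynomial -/
theorem size_le (P : ℤ[X]) : ∃ S : ℕ, ∀ n : ℕ, 1 ≤ n → ∀ x : ℤ, 0 ≤ x → x ≤ n →
    |P.eval x| ≤ S * (n : ℤ) ^ P.natDegree := by
  refine ⟨∑ i ∈ range (P.natDegree + 1), (P.coeff i).natAbs, fun n hn x h0 h1 => ?_⟩
  rw [Polynomial.eval_eq_sum_range]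
  refine (Finset.abs_sum_le_sum_abs _ _).trans ?_
  push_cast
  rw [Finset.sum_mul]
  apply sum_le_sum
  intro i hi
  have hi' : i ≤ P.natDegree := by
    have := mem_range.1 hi
    omega
  have hn1 : (1 : ℤ) ≤ n := by exact_mod_cast hn
  rw [abs_mul, abs_of_nonneg (pow_nonneg h0 i)]
  apply mul_le_mul_of_nonneg_left _ (abs_nonneg _)
  exact (pow_le_pow_left₀ h0 h1 i).trans (pow_le_pow_right₀ hn1 hi')

variable {g : ℕ}

/-- the members of the system: `F_1, ..., F_g` and `N - G` -/
noncomputable def member (F : Fin g → ℤ[X]) (G : ℤ[X]) (N : ℤ) : Fin (g + 1) → ℤ[X] :=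
  Fin.snoc F (Polynomial.C N - G)

theorem member_cast (F : Fin g → ℤ[X]) (G : ℤ[X]) (N : ℤ) (l : Fin g) : member F G N l.castSucc = F l := by
  unfold member
  rw [Fin.snoc_castSucc]

theorem member_last (F : Fin g → ℤ[X]) (G : ℤ[X]) (N : ℤ) :
    member F G N (Fin.last g) = Polynomial.C N - G := by
  unfold member
  rw [Fin.snoc_last]

theorem deg_last {G : ℤ[X]} (hG : 1 ≤ G.natDegree) (N : ℤ) : (Polynomial.C N - G).natDegree = G.natDegree := by
  rw [Polynomial.natDegree_sub_eq_right_of_natDegree_lt]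
  rw [Polynomial.natDegree_C]
  omega

theorem lead_last {G : ℤ[X]} (hG : 1 ≤ G.natDegree) (N : ℤ) :
    (Polynomial.C N - G).leadingCoeff = - G.leadingCoeff := by
  unfold Polynomial.leadingCoeff
  rw [deg_last hG, Polynomial.coeff_sub, Polynomial.coeff_C, if_neg (by omega), zero_sub]

/-- the hypotheses on the polynomials -/
structure HS (D E : ℕ) (F : Fin g → ℤ[X]) (G : ℤ[X]) (i j : Fin (g + 1)) : Prop where
  inj : Function.Injective F
  deg : ∀ l, 1 ≤ (F l).natDegree
  pos : ∀ l, 0 < (F l).leadingCoeff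
  degG : 1 ≤ G.natDegree
  posG : 0 < G.leadingCoeff
  sum : ∑ l, (F l).natDegree + G.natDegree ≤ D
  ij : i ≠ j
  di : (member F G 0 i).natDegree = 1
  dj : (member F G 0 j).natDegree = 1
  ei : (member F G 0 i).leadingCoeff.natAbs ≤ E
  ej : (member F G 0 j).leadingCoeff.natAbs ≤ E

theorem deg_indep {F : Fin g → ℤ[X]} {G : ℤ[X]} (hG : 1 ≤ G.natDegree) (N : ℤ) (l : Fin (g + 1)) :
    (member F G N l).natDegree = (member F G 0 l).natDegree := by
  refine Fin.lastCases ?_ (fun l => ?_) l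
  · rw [member_last, member_last, deg_last hG, deg_last hG]
  · rw [member_cast, member_cast]

theorem lead_indep {F : Fin g → ℤ[X]} {G : ℤ[X]} (hG : 1 ≤ G.natDegree) (N : ℤ) (l : Fin (g + 1)) :
    (member F G N l).leadingCoeff = (member F G 0 l).leadingCoeff := by
  refine Fin.lastCases ?_ (fun l => ?_) l
  · rw [member_last, member_last, lead_last hG, lead_last hG]
  · rw [member_cast, member_cast]

theorem HS.sys {D E : ℕ} {F : Fin g → ℤ[X]} {G : ℤ[X]} {i j : Fin (g + 1)} (H : HS D E F G i j) :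
    ∃ S : ℕ, ∀ (K X : ℕ) (N : ℤ), 1 ≤ X → |N| ≤ K * (X : ℤ) ^ G.natDegree → (∀ l, Polynomial.C N - G ≠ - F l) →
      Loc (member F G N) → Sys D E (K + S) X (member F G N) i j := by
  classical
  choose s hs using fun l : Fin g => size_le (F l)
  obtain ⟨s', hs'⟩ := size_le G
  refine ⟨s' + ∑ l, s l, fun K X N hX hN hne hloc => ?_⟩
  have hle : ∀ l, s l ≤ ∑ l, s l := fun l => single_le_sum (f := s) (fun _ _ => Nat.zero_le _) (mem_univ l)
  have hlead1 : ∀ l : Fin (g + 1), (member F G 0 l).natDegree = 1 →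
      (member F G N l).coeff 1 = (member F G 0 l).leadingCoeff := by
    intro l hl
    rw [← lead_indep H.degG N l]
    unfold Polynomial.leadingCoeff
    rw [deg_indep H.degG, hl]
  have hnot : ∀ a b : Fin (g + 1), a ≠ b → member F G N a ≠ member F G N b ∧ member F G N a ≠ - member F G N b := by
    intro a b
    refine Fin.lastCases ?_ (fun a => ?_) a
    · refine Fin.lastCases ?_ (fun b => ?_) b
      · intro h
        exact absurd rfl h
      · intro _
        rw [member_last, member_cast]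
        refine ⟨fun h => ?_, hne b⟩
        have h1 := H.pos b
        rw [← h, lead_last H.degG] at h1
        have := H.posG
        omega
    · refine Fin.lastCases ?_ (fun b => ?_) b
      · intro _
        rw [member_last, member_cast]
        refine ⟨fun h => ?_, fun h => hne a (by rw [h, neg_neg])⟩
        have h1 := H.pos a
        rw [h, lead_last H.degG] at h1
        have := H.posG
        omega
      · intro h
        rw [member_cast, member_cast]
        refine ⟨fun h' => h (by rw [H.inj h']), fun h' => ?_⟩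
        have h1 := H.pos a
        rw [h', Polynomial.leadingCoeff_neg] at h1
        have := H.pos b
        omega
  refine
    { deg := fun l => ?_
      sum := ?_
      loc := hloc
      size := fun l x h0 h1 => ?_
      di := by rw [deg_indep H.degG]; exact H.di
      dj := by rw [deg_indep H.degG]; exact H.dj
      ei := by rw [hlead1 i H.di]; exact H.ei
      ej := by rw [hlead1 j H.dj]; exact H.ej
      ne := (hnot j i H.ij.symm).1
      ne' := (hnot j i H.ij.symm).2 }
  · refine Fin.lastCases ?_ (fun l => ?_) l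
    · rw [member_last, deg_last H.degG]
      exact H.degG
    · rw [member_cast]
      exact H.deg l
  · rw [Fin.sum_univ_castSucc]
    simp only [member_cast, member_last, deg_last H.degG]
    exact H.sum
  · revert h0 h1
    refine Fin.lastCases ?_ (fun l => ?_) l
    · intro h0 h1
      rw [member_last, deg_last H.degG, Polynomial.eval_sub, Polynomial.eval_C]
      refine (abs_sub _ _).trans ?_
      have h2 := hs' X hX x h0 h1
      have h3 : (0 : ℤ) ≤ ((∑ l, s l : ℕ) : ℤ) * (X : ℤ) ^ G.natDegree := by positivity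
      push_cast at h3 ⊢
      nlinarith
    · intro h0 h1
      rw [member_cast]
      refine (hs l X hX x h0 h1).trans ?_
      apply mul_le_mul_of_nonneg_right _ (by positivity)
      have := hle l
      exact_mod_cast (by omega : s l ≤ K + (s' + ∑ l, s l))

theorem schU (D E : ℕ) : ∃ t : ℕ, 1 ≤ t ∧ ∃ κ : ℝ, 0 < κ ∧ ∀ (g : ℕ) (F : Fin g → ℤ[X]) (G : ℤ[X]) (i j : Fin (g + 1)),
    HS D E F G i j → ∀ (K k : ℕ) (θ δ : ℝ), 0 < θ → 0 < δ → ∃ C X₀ : ℕ, ∀ X : ℕ, X₀ ≤ X → ∀ N : ℤ,
      |N| ≤ K * (X : ℤ) ^ G.natDegree → (∀ l, Polynomial.C N - G ≠ - F l) → Loc (member F G N) →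
      κ / Real.log X ^ D ≤ V (member F G N) X ∧ ∀ A B : ℕ, B ≤ X → θ * X ≤ (B : ℝ) - A →
        κ * ((B : ℝ) - A) * V (member F G N) X ≤ ((GoodX (member F G N) i j t X A B).card : ℝ) ∧
        ∀ S : Finset ℕ, S ⊆ GoodX (member F G N) i j t X A B → δ * ((B : ℝ) - A) * V (member F G N) X ≤ S.card →
          ∃ x d : ℕ, 1 ≤ d ∧ (d : ℝ) ≤ Real.log X ^ C ∧ ∀ l < k, x + l * d ∈ S := by
  classical
  rcases Nat.eq_zero_or_pos D with hD | hD
  · subst hD
    refine ⟨1, le_rfl, 1, one_pos, fun g F G i j H => ?_⟩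
    have := H.sum
    have := H.degG
    omega
  obtain ⟨t, ht, κ, hκ, HM⟩ := mainU D E hD
  refine ⟨t, ht, κ, hκ, fun g F G i j H K k θ δ hθ hδ => ?_⟩
  obtain ⟨S, hS⟩ := H.sys
  obtain ⟨X₁, h1⟩ := HM θ hθ (K + S)
  obtain ⟨C, X₂, h2⟩ := prog_dense D (max t 2) (le_max_right _ _) k θ δ κ hθ hδ hκ
  refine ⟨C, max (max X₁ X₂) 3, fun X hX N hN hne hloc => ?_⟩
  have hX1 : X₁ ≤ X := (le_max_left _ _).trans ((le_max_left _ _).trans hX)
  have hX2 : X₂ ≤ X := (le_max_right _ _).trans ((le_max_left _ _).trans hX)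
  have hX3 : 3 ≤ X := (le_max_right _ _).trans hX
  have SS := hS K X N (by omega) hN hne hloc
  obtain ⟨h3, h4⟩ := h1 X hX1 _ _ i j SS
  refine ⟨h3, fun A B hB hAB => ⟨h4 A B hB hAB, fun T hT hTc => ?_⟩⟩
  refine h2 X hX2 _ _ SS.sum hloc h3 A B hB hAB T ?_ ?_ hTc
  · exact hT.trans (filter_subset _ _)
  · intro x hx _ l q hq hd
    have h5 := hT hx
    unfold GoodX at h5
    rw [mem_filter] at h5
    refine lt_of_le_of_lt ?_ ((h5.2.2.2 l).2.2 q hq hd)
    apply Real.rpow_le_rpow_of_exponent_le (by exact_mod_cast (by omega : 1 ≤ X))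
    have ht0 : (0 : ℝ) < t := by exact_mod_cast ht
    apply one_div_le_one_div_of_le ht0
    exact_mod_cast le_max_left t 2

end Pool.Agent.X32.Uni.Sch
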