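import Pool.Agent.X32.Uni.PairK
import Pool.Agent.X32.Uni.Pol

/-!
`n = f_l(p) + ...` for several quadratic polynomials `f_l` and one prime `p` with `p + d = P₂`.
-/

set_option autoImplicit false

namespace Pool.Agent.X32.Uni

open Finset
open Polynomial (C X aeval)
open scoped Polynomial

variable {k : ℕ}

/-- the value `n - f(x)`, `f = x ^ 2 + b x + c` for `z = (b, c)` -/
def vS (n : ℕ) (z : ℤ × ℤ) (x : ℤ) : ℤ := n - (x ^ 2 + z.1 * x + z.2)

/-- the polynomial -/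
noncomputable def pS (n : ℕ) (z : ℤ × ℤ) : ℤ[X] := C (-1) * X ^ 2 + C (-z.1) * X + C (n - z.2)

theorem pS_eval (n : ℕ) (z : ℤ × ℤ) (x : ℤ) : (pS n z).eval x = vS n z x := by
  unfold pS vS
  simp
  ring

theorem pS_deg (n : ℕ) (z : ℤ × ℤ) : (pS n z).natDegree = 2 := by
  unfold pS
  exact Polynomial.natDegree_quadratic (by norm_num)

/-- `ω(p)` -/
noncomputable def omS (n : ℕ) (d : ℤ) (S : Fin k → ℤ × ℤ) (p : ℕ) : ℕ :=
  ((range p).filter (fun x : ℕ => (p : ℤ) ∣ (x : ℤ) * (x + d) * ∏ l, vS n (S l) x)).card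

/-- the product of `1 - ω(p) / p` over the primes `p ≤ √n` -/
noncomputable def VS (n : ℕ) (d : ℤ) (S : Fin k → ℤ × ℤ) : ℝ :=
  ∏ p ∈ (Icc 1 (Nat.sqrt n)).filter Nat.Prime, (1 - (omS n d S p : ℝ) / p)

open Classical in
/-- the good primes -/
noncomputable def GSq (n : ℕ) (d : ℤ) (S : Fin k → ℤ × ℤ) (t A B : ℕ) : Finset ℕ :=
  (Ioc A B).filter (fun p : ℕ => p.Prime ∧ (Nat.sqrt n : ℝ) ^ (1 / (t : ℝ)) < p ∧
    Almost 2 ((Nat.sqrt n : ℝ) ^ (1 / 9 : ℝ)) (p + d) ∧ Almost t ((Nat.sqrt n : ℝ) ^ (1 / (t : ℝ))) (p + d) ∧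
    ∀ l, 0 < vS n (S l) p ∧ Almost (2 * t) ((Nat.sqrt n : ℝ) ^ (1 / (t : ℝ))) (vS n (S l) p))

/-- no local obstruction -/
def LocS (n : ℕ) (d : ℤ) (S : Fin k → ℤ × ℤ) : Prop :=
  ∀ p : ℕ, p.Prime → ∃ x : ℤ, ¬ (p : ℤ) ∣ x * (x + d) ∧ ∀ l, ¬ (p : ℤ) ∣ vS n (S l) x

theorem sysS (n K : ℕ) (hn : 1 ≤ n) (d : ℤ) (hd : d ≠ 0) (hdK : |d| ≤ K) (S : Fin k → ℤ × ℤ)
    (hS : ∀ l, |(S l).1| ≤ K ∧ |(S l).2| ≤ K) (hloc : LocS n d S) :
    Sys (2 * k + 2) 1 (2 * K + 5) (Nat.sqrt n) (fP d (fun l => pS n (S l))) 0 1 := by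
  have hX1 : 1 ≤ Nat.sqrt n := Nat.le_sqrt.2 (by omega)
  obtain ⟨Y, hY⟩ : ∃ Y : ℕ, Y = Nat.sqrt n := ⟨_, rfl⟩
  have hnY : n < (Y + 1) * (Y + 1) := by rw [hY]; exact Nat.lt_succ_sqrt n
  rw [← hY] at hX1 ⊢
  have hX1z : (1 : ℤ) ≤ Y := by exact_mod_cast hX1
  have hnYz : (n : ℤ) < (Y + 1) * (Y + 1) := by exact_mod_cast hnY
  have hK0 : (0 : ℤ) ≤ K := by positivity
  refine
    { deg := ?_
      sum := ?_
      loc := ?_
      size := ?_
      di := ?_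
      dj := ?_
      ei := ?_
      ej := ?_
      ne := ?_
      ne' := ?_ }
  · rw [fin_forall]
    refine ⟨?_, ?_, fun l => ?_⟩
    · rw [fP_zero, Polynomial.natDegree_X]
    · rw [fP_one, Polynomial.natDegree_X_add_C]
    · rw [fP_succ, pS_deg]
      norm_num
  · rw [fP_sum]
    simp only [pS_deg]
    simp [mul_comm]
  · intro p hp
    obtain ⟨x, hx0, hx⟩ := hloc p hp
    refine ⟨x, fun hd => ?_⟩
    rw [fP_prod] at hd
    have hp' := Nat.prime_iff_prime_int.1 hp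
    rcases hp'.dvd_or_dvd hd with h | h
    · exact hx0 h
    · obtain ⟨l, _, hl⟩ := hp'.exists_mem_finset_dvd h
      rw [pS_eval] at hl
      exact hx l hl
  · intro l x hx0 hxY
    revert l
    rw [fin_forall]
    refine ⟨?_, ?_, fun l => ?_⟩
    · rw [fP_zero, Polynomial.natDegree_X, Polynomial.eval_X, abs_of_nonneg hx0, pow_one]
      push_cast
      nlinarith
    · rw [fP_one, Polynomial.natDegree_X_add_C, Polynomial.eval_add, Polynomial.eval_X, Polynomial.eval_C, pow_one]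
      refine (abs_add_le _ _).trans ?_
      rw [abs_of_nonneg hx0]
      push_cast
      nlinarith
    · rw [fP_succ, pS_eval, pS_deg]
      unfold vS
      have h1 := (hS l).1
      have h2 := (hS l).2
      have h3 : |(S l).1 * x| ≤ K * Y := by
        rw [abs_mul, abs_of_nonneg hx0]
        exact mul_le_mul h1 hxY hx0 hK0
      have h4 : x ^ 2 ≤ (Y : ℤ) ^ 2 := pow_le_pow_left₀ hx0 hxY 2
      have h5 : (Y : ℤ) ≤ (Y : ℤ) ^ 2 := by nlinarith
      have h6 : (K : ℤ) * Y ≤ K * (Y : ℤ) ^ 2 := by gcongr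
      have h7 : (K : ℤ) ≤ K * (Y : ℤ) ^ 2 := by nlinarith
      have h8 : (n : ℤ) ≤ 4 * (Y : ℤ) ^ 2 := by nlinarith
      have h9 : (0 : ℤ) ≤ n := by positivity
      have h10 := sq_nonneg x
      rw [abs_le] at h2 h3 ⊢
      push_cast
      constructor <;> nlinarith
  · rw [fP_zero, Polynomial.natDegree_X]
  · rw [fP_one, Polynomial.natDegree_X_add_C]
  · rw [fP_zero, Polynomial.coeff_X_one]
    simp
  · rw [fP_one, Polynomial.coeff_add, Polynomial.coeff_X_one, Polynomial.coeff_C, if_neg one_ne_zero]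
    simp
  · rw [fP_one, fP_zero]
    intro h
    apply hd
    have := congrArg (Polynomial.eval 0) h
    simpa using this
  · rw [fP_one, fP_zero]
    intro h
    have h1 := congrArg (Polynomial.eval 0) h
    have h2 := congrArg (Polynomial.eval 1) h
    simp at h1 h2
    omega

theorem pos_vS (n K : ℕ) (hn : 1 ≤ n) (θ : ℝ) (hθ : 0 < θ) (hbig : 2 * ((K : ℝ) + 1) < θ * Nat.sqrt n)
    (z : ℤ × ℤ) (hz : |z.1| ≤ K ∧ |z.2| ≤ K) (x : ℕ) (hx : (x : ℝ) ≤ (1 - θ) * Nat.sqrt n) : 0 < vS n z x := by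
  obtain ⟨Y, hY⟩ : ∃ Y : ℕ, Y = Nat.sqrt n := ⟨_, rfl⟩
  have hYn : Y * Y ≤ n := by rw [hY]; exact Nat.sqrt_le n
  have hX1 : 1 ≤ Y := by rw [hY]; exact Nat.le_sqrt.2 (by omega)
  rw [← hY] at hbig hx
  have hX1r : (1 : ℝ) ≤ Y := by exact_mod_cast hX1
  have hYnr : (Y : ℝ) * Y ≤ n := by exact_mod_cast hYn
  have hx0 : (0 : ℝ) ≤ x := Nat.cast_nonneg x
  have h1 : |(z.1 : ℝ)| ≤ K := by exact_mod_cast hz.1
  have h2 : |(z.2 : ℝ)| ≤ K := by exact_mod_cast hz.2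
  have hK0 : (0 : ℝ) ≤ K := Nat.cast_nonneg K
  have hxY : (x : ℝ) ≤ Y := by nlinarith
  have h3 : |(z.1 : ℝ) * x| ≤ K * Y := by
    rw [abs_mul, abs_of_nonneg hx0]
    exact mul_le_mul h1 hxY hx0 hK0
  have h4 : (x : ℝ) ^ 2 ≤ (1 - θ) * Y * Y := by
    calc (x : ℝ) ^ 2 = x * x := by ring
      _ ≤ ((1 - θ) * Y) * Y := mul_le_mul hx hxY hx0 (hx0.trans hx)
  have h5 : (0 : ℝ) < ((vS n z x : ℤ) : ℝ) := by
    unfold vS
    push_cast
    have h6 := (abs_le.1 h3).2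
    have h7 := (abs_le.1 h2).2
    nlinarith
  exact_mod_cast h5

theorem GSq_eq (n K : ℕ) (hn : 1 ≤ n) (θ : ℝ) (hθ : 0 < θ) (hbig : 2 * ((K : ℝ) + 1) < θ * Nat.sqrt n)
    (d : ℤ) (S : Fin k → ℤ × ℤ) (hS : ∀ l, |(S l).1| ≤ K ∧ |(S l).2| ≤ K) (t A B : ℕ) (ht : 1 ≤ t)
    (hB : (B : ℝ) ≤ (1 - θ) * Nat.sqrt n) :
    GoodX (fP d (fun l => pS n (S l))) 0 1 t (Nat.sqrt n) A B = GSq n d S t A B := by
  classical
  ext p
  unfold GoodX GSq
  rw [mem_filter, mem_filter]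
  refine and_congr_right fun hp => ?_
  have hpB : (p : ℝ) ≤ (1 - θ) * Nat.sqrt n := by
    have : (p : ℝ) ≤ B := by exact_mod_cast (mem_Ioc.1 hp).2
    linarith
  rw [fin_forall]
  simp only [fP_zero, fP_one, fP_succ, pS_eval, pS_deg, Polynomial.natDegree_X, Polynomial.natDegree_X_add_C,
    Polynomial.eval_X, Polynomial.eval_add, Polynomial.eval_C, mul_one, Int.natAbs_natCast, mul_comm t 2]
  constructor
  · rintro ⟨h1, h2, h3, h4, h5⟩
    exact ⟨h1, (almost_prime ht h1).1 h3, h2, h4, fun l => ⟨pos_vS n K hn θ hθ hbig _ (hS l) p hpB, h5 l⟩⟩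
  · rintro ⟨h1, h3, h2, h4, h5⟩
    exact ⟨h1, h2, (almost_prime ht h1).2 h3, h4, fun l => (h5 l).2⟩

theorem schQ (k : ℕ) : ∃ t : ℕ, 1 ≤ t ∧ ∃ κ : ℝ, 0 < κ ∧ ∀ (K s r : ℕ) (θ δ : ℝ), 1 ≤ s → 0 < θ → 0 < δ →
    ∃ c n₀ : ℕ, ∀ n : ℕ, n₀ ≤ n → ∀ (d : ℤ) (S : Fin k → ℤ × ℤ), d ≠ 0 → |d| ≤ K →
      (∀ l, |(S l).1| ≤ K ∧ |(S l).2| ≤ K) → LocS n d S →
      κ / Real.log (Nat.sqrt n) ^ (2 * k + 2) ≤ VS n d S ∧ ∀ A B : ℕ, (B : ℝ) ≤ (1 - θ) * Nat.sqrt n →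
        θ * Nat.sqrt n ≤ (B : ℝ) - A →
        κ * ((B : ℝ) - A) * VS n d S ≤ ((GSq n d S t A B).card : ℝ) ∧
        ∀ χ : ℕ → Fin r, ∃ P : Finset (ℕ × ℕ),
          (∀ z ∈ P, 1 ≤ z.2 ∧ (z.2 : ℝ) ≤ Real.log (Nat.sqrt n) ^ c ∧
            ∀ l < s, z.1 + l * z.2 ∈ GSq n d S t A B ∧ χ (z.1 + l * z.2) = χ z.1) ∧
          (P : Set (ℕ × ℕ)).PairwiseDisjoint (apSet s) ∧
          (((GSq n d S t A B \ P.biUnion (apSet s)).card : ℕ) : ℝ) ≤ δ * ((B : ℝ) - A) * VS n d S := by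
  classical
  obtain ⟨t, ht, κ, hκ, H⟩ := polP (2 * k + 2) 1 (by omega)
  refine ⟨t, ht, κ, hκ, fun K s r θ δ hs hθ hδ => ?_⟩
  obtain ⟨c, X₀, h⟩ := H (2 * K + 5) s r θ δ hs hθ hδ
  obtain ⟨Y₀, hY₀⟩ := exists_nat_gt (2 * ((K : ℝ) + 1) / θ)
  refine ⟨c, (X₀ + Y₀ + 1) ^ 2, fun n hn d S hd hdK hS hloc => ?_⟩
  have hsq : X₀ + Y₀ + 1 ≤ Nat.sqrt n := by
    rw [Nat.le_sqrt]
    calc (X₀ + Y₀ + 1) * (X₀ + Y₀ + 1) = (X₀ + Y₀ + 1) ^ 2 := by ring
      _ ≤ n := hn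
  have hn1 : 1 ≤ n := by
    have := Nat.sqrt_le_self n
    omega
  have hbig : 2 * ((K : ℝ) + 1) < θ * Nat.sqrt n := by
    rw [div_lt_iff₀ hθ] at hY₀
    have h1 : (Y₀ : ℝ) ≤ Nat.sqrt n := by exact_mod_cast (by omega : Y₀ ≤ Nat.sqrt n)
    nlinarith
  obtain ⟨h1, h2⟩ := h (Nat.sqrt n) (by omega) _ _ 0 1 (sysS n K hn1 d hd hdK S hS hloc)
  have ho : ∀ p, om (fP d (fun l => pS n (S l))) p = omS n d S p := by
    intro p
    unfold om omS
    simp only [fP_prod, pS_eval]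
  have hV : V (fP d (fun l => pS n (S l))) (Nat.sqrt n) = VS n d S := by
    unfold V VS
    exact prod_congr rfl fun p _ => by rw [ho]
  rw [hV] at h1 h2
  refine ⟨h1, fun A B hB hAB => ?_⟩
  have hBX : B ≤ Nat.sqrt n := by
    have : (B : ℝ) ≤ Nat.sqrt n := by
      have h3 : (0 : ℝ) ≤ Nat.sqrt n := Nat.cast_nonneg _
      nlinarith
    exact_mod_cast this
  have h3 := h2 A B hBX hAB
  rw [GSq_eq n K hn1 θ hθ hbig d S hS t A B ht hB] at h3
  exact h3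

/-- the case of one admissible polynomial: no obstruction -/
theorem loc_adm (n : ℕ) (hn : n % 2 = 1) (b c d : ℤ) (h1 : (b + c) % 2 = 1) (h2 : ¬ (3 : ℤ) ∣ b) (hd : (6 : ℤ) ∣ d) :
    LocS n d (fun _ : Fin 1 => (b, c)) := by
  intro p hp
  obtain ⟨e, he⟩ := hd
  by_cases hp2 : p = 2
  · refine ⟨1, ?_, fun l => ?_⟩
    · rw [hp2, he]
      push_cast
      omega
    · unfold vS
      simp only
      rw [hp2]
      push_cast
      omega
  by_cases hp3 : p = 3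
  · by_cases h3 : (3 : ℤ) ∣ vS n (b, c) 1
    · refine ⟨2, ?_, fun l => ?_⟩
      · rw [hp3, he]
        push_cast
        omega
      · unfold vS at h3 ⊢
        simp only at h3 ⊢
        rw [hp3]
        push_cast
        omega
    · refine ⟨1, ?_, fun l => ?_⟩
      · rw [hp3, he]
        push_cast
        omega
      · rw [hp3]
        exact_mod_cast h3
  · have hp5 : 5 ≤ p := by
      have := hp.two_le
      by_contra hcon
      have : p = 4 := by omega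
      rw [this] at hp
      exact absurd hp (by norm_num)
    have : Fact p.Prime := ⟨hp⟩
    by_contra hcon
    push Not at hcon
    -- the polynomial `x (x + d) (n - f)` vanishes at all residues
    obtain ⟨G, hG⟩ : ∃ G : (ZMod p)[X], G = X * ((X + C (d : ZMod p)) *
        (X ^ 2 + (C (b : ZMod p) * X + C ((c : ZMod p) - n)))) := ⟨_, rfl⟩
    have hq : (X ^ 2 + (C (b : ZMod p) * X + C ((c : ZMod p) - n)) : (ZMod p)[X]).Monic := by
      apply Polynomial.monic_X_pow_add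
      exact lt_of_le_of_lt Polynomial.degree_linear_le (by norm_num)
    have hqd : (X ^ 2 + (C (b : ZMod p) * X + C ((c : ZMod p) - n)) : (ZMod p)[X]).natDegree = 2 := by
      have h5 : (X ^ 2 + (C (b : ZMod p) * X + C ((c : ZMod p) - n)) : (ZMod p)[X]) =
          C 1 * X ^ 2 + C (b : ZMod p) * X + C ((c : ZMod p) - n) := by
        rw [Polynomial.C_1]
        ring
      rw [h5]
      exact Polynomial.natDegree_quadratic one_ne_zero
    have hm : G.Monic := by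
      rw [hG]
      exact Polynomial.monic_X.mul ((Polynomial.monic_X_add_C _).mul hq)
    have hdeg : G.natDegree = 4 := by
      rw [hG, Polynomial.Monic.natDegree_mul Polynomial.monic_X ((Polynomial.monic_X_add_C _).mul hq),
        Polynomial.Monic.natDegree_mul (Polynomial.monic_X_add_C _) hq, hqd, Polynomial.natDegree_X,
        Polynomial.natDegree_X_add_C]
    have hroots : (univ : Finset (ZMod p)) ⊆ G.roots.toFinset := by
      intro y _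
      rw [Multiset.mem_toFinset, Polynomial.mem_roots hm.ne_zero, Polynomial.IsRoot.def]
      obtain ⟨x, hx⟩ : ∃ x : ℤ, (x : ZMod p) = y := ⟨(y.val : ℤ), by simp⟩
      have h6 : G.eval y = ((x * (x + d) * (-(vS n (b, c) x)) : ℤ) : ZMod p) := by
        rw [hG, ← hx]
        unfold vS
        simp
        ring
      rw [h6, ZMod.intCast_zmod_eq_zero_iff_dvd]
      by_cases h7 : (p : ℤ) ∣ x * (x + d)
      · exact dvd_mul_of_dvd_left h7 _
      · obtain ⟨l, hl⟩ := hcon x h7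
        exact dvd_mul_of_dvd_right ((dvd_neg).2 hl) _
    have h8 := card_le_card hroots
    rw [card_univ, ZMod.card] at h8
    have h9 : G.roots.toFinset.card ≤ 4 := by
      rw [← hdeg]
      exact (Multiset.toFinset_card_le _).trans (Polynomial.card_roots' _)
    omega

end Pool.Agent.X32.Uni
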