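import Pool.Agent.X32.Uni.Cont

/-!
Systems of polynomials in short intervals, with general sizes.
-/

set_option autoImplicit false

namespace Pool.Agent.X32.Uni

open Finset Filter
open scoped Polynomial
open Pool.Agent.Y843.HS (Pr VV Pr_mem Pr_prime VV_split Sv)
open Pool.Agent.X32.CL
open Pool.Agent.X32.Fam (ex_J log_small')

variable {m : ℕ}

/-- the systems: `D` bounds the sum of the degrees, `K` and `ee` the sizes -/
structure SysAE (D K n : ℕ) (f : Fin m → ℤ[X]) (ee : Fin m → ℕ) : Prop where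
  deg : ∀ k, 1 ≤ (f k).natDegree
  sum : ∑ k, (f k).natDegree ≤ D
  loc : Loc f
  size : ∀ k, ∀ x : ℤ, 0 ≤ x → x ≤ n → |(f k).eval x| ≤ K * (n : ℤ) ^ ee k

open Classical in
/-- the arguments for which all the values are almost primes -/
noncomputable def GoodBE (f : Fin m → ℤ[X]) (ee : Fin m → ℕ) (t n A B : ℕ) : Finset ℕ :=
  (Ioc A B).filter (fun x : ℕ => ∀ k, Almost (t * ee k) ((n : ℝ) ^ (1 / (t : ℝ))) ((f k).eval (x : ℤ)))

theorem shortE (D : ℕ) (hD1 : 1 ≤ D) (ε : ℝ) (hε : 0 < ε) : ∃ t : ℕ, 1 ≤ t ∧ ∃ κ KU : ℝ, 0 < κ ∧ 0 < KU ∧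
    ∀ KK : ℕ, ∃ n₀ : ℕ, ∀ n : ℕ, n₀ ≤ n → ∀ (m : ℕ) (f : Fin m → ℤ[X]) (ee : Fin m → ℕ), SysAE D KK n f ee →
      κ / Real.log n ^ D ≤ V f n ∧
      ∀ A B : ℕ, B ≤ n → (n : ℝ) ^ ε ≤ (B : ℝ) - A →
        κ * ((B : ℝ) - A) * V f n ≤ ((GoodBE f ee t n A B).card : ℝ) ∧
        ((GoodBE f ee t n A B).card : ℝ) ≤ KU * ((B : ℝ) - A) * V f n := by
  classical
  obtain ⟨d, hd⟩ : ∃ d : ℕ, D = d + 1 := ⟨D - 1, by omega⟩
  obtain ⟨cV, hcV, hVlow⟩ := V_low d
  rw [← hd] at hVlow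
  obtain ⟨C, hC, HF⟩ := Pool.Agent.Y151.HS.flc
  obtain ⟨b, hb⟩ : ∃ b : ℕ, b = C * (D + 1) := ⟨_, rfl⟩
  obtain ⟨E, hE⟩ : ∃ E : ℕ, E = C * b := ⟨_, rfl⟩
  have hb1 : 1 ≤ b := by rw [hb]; exact Nat.mul_pos hC (by omega)
  have hE1 : 1 ≤ E := by rw [hE]; exact Nat.mul_pos hC hb1
  have hE0 : (0 : ℝ) < E := by exact_mod_cast hE1
  obtain ⟨t, ht⟩ : ∃ t : ℕ, t = ⌈4 * E / ε⌉₊ := ⟨_, rfl⟩
  have ht4 : 4 * E / ε ≤ t := by rw [ht]; exact Nat.le_ceil _
  have ht0 : (0 : ℝ) < t := lt_of_lt_of_le (by positivity) ht4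
  have ht1 : 1 ≤ t := by exact_mod_cast ht0
  have htE : 1 / (t : ℝ) ≤ ε / (4 * E) := by
    rw [div_le_div_iff₀ ht0 (by positivity)]
    rw [div_le_iff₀ hε] at ht4
    linarith
  have hhalf : (1 / 2 : ℝ) ^ b ≤ 1 / 2 := by
    calc (1 / 2 : ℝ) ^ b ≤ (1 / 2 : ℝ) ^ 1 := pow_le_pow_of_le_one (by norm_num) (by norm_num) hb1
      _ = 1 / 2 := pow_one _
  obtain ⟨cD, hcD, R₀, hden⟩ := Pool.Agent.Y79.HS.den D (2 * t)
  have hM0 := Mz_pos b
  have hM : (0 : ℝ) < Mz b := by exact_mod_cast hM0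
  refine ⟨t, ht1, min (1 / (4 * Mz b)) cV, 2 * Mz b / cD + 1, by positivity, by positivity, ?_⟩
  intro KK
  obtain ⟨n₁, h1⟩ := eventually_atTop.1 (pow_ge t ht1 (max (max KK (b + 4)) ((R₀ : ℝ) ^ 2 + (b : ℝ) ^ 2)))
  obtain ⟨n₂, h2⟩ := eventually_atTop.1 (log_small' D (4 * Mz b * (3 * D + 1) / cV) (ε / 2) (by positivity))
  obtain ⟨n₃, h3⟩ := eventually_atTop.1 (log_small' D (1 / cV) (ε / 2) (by positivity))
  refine ⟨n₁ + n₂ + n₃ + 3, ?_⟩
  intro n hn m f ee SS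
  have hn1 : 1 ≤ n := by omega
  have hn0 : (0 : ℝ) < n := by exact_mod_cast hn1
  have hnr : (1 : ℝ) ≤ n := by exact_mod_cast hn1
  have hloc := SS.loc
  have hsum := SS.sum
  have hlog : 0 < Real.log n := Real.log_pos (by exact_mod_cast (by omega : 1 < n))
  have hVl := hVlow m f n (by omega) hloc (by omega)
  have hVn := V_nonneg hloc n
  refine ⟨?_, ?_⟩
  · refine le_trans ?_ hVl
    apply div_le_div_of_nonneg_right (min_le_right _ _) (by positivity)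
  intro A B hBn hAB
  obtain ⟨y, hy⟩ : ∃ y : ℝ, y = (n : ℝ) ^ (1 / (t : ℝ)) := ⟨_, rfl⟩
  have h1' := h1 n (by omega)
  rw [← hy] at h1'
  have hyK : (KK : ℝ) < y := lt_of_le_of_lt ((le_max_left _ _).trans (le_max_left _ _)) h1'
  have hyb : (b : ℝ) + 4 < y := lt_of_le_of_lt ((le_max_right _ _).trans (le_max_left _ _)) h1'
  have hyR : (R₀ : ℝ) ^ 2 + (b : ℝ) ^ 2 < y := lt_of_le_of_lt (le_max_right _ _) h1'
  have hb0 : (0 : ℝ) ≤ b := Nat.cast_nonneg b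
  have hε1 : (1 : ℝ) ≤ (n : ℝ) ^ ε := Real.one_le_rpow hnr hε.le
  have hBA0 : 0 < (B : ℝ) - A := by linarith
  have hAB' : A ≤ B := by
    have : (A : ℝ) ≤ B := by linarith
    exact_mod_cast this
  obtain ⟨L, hL⟩ : ∃ L : ℕ, B = A + L := ⟨B - A, by omega⟩
  have hLr : (L : ℝ) = (B : ℝ) - A := by rw [hL]; push_cast; ring
  have hSv : ∀ a c, Sv D a c (Zf f) := by
    intro a c p hp
    refine ⟨(om_le hloc (Pr_prime hp)).trans hsum, ?_⟩
    intro x hx
    exact mem_range.1 (mem_filter.1 hx).1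
  have hVV : V f n = VV (Zf f) 0 n := by
    unfold V VV
    rw [Pr_eq]
    rfl
  have hε2 : (n : ℝ) ^ (ε / 2) * (n : ℝ) ^ (ε / 2) = (n : ℝ) ^ ε := by
    rw [← Real.rpow_add hn0]
    congr 1
    ring
  have hεp : 0 < (n : ℝ) ^ (ε / 2) := by positivity
  have hε1' : 1 ≤ (n : ℝ) ^ (ε / 2) := Real.one_le_rpow hnr (by positivity)
  constructor
  · -- the lower bound
    obtain ⟨y', hy'⟩ : ∃ y' : ℝ, y' = (n : ℝ) ^ (ε / (2 * E)) := ⟨_, rfl⟩
    have hyy : y * y ≤ y' := by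
      rw [hy, hy', ← Real.rpow_add hn0]
      apply Real.rpow_le_rpow_of_exponent_le hnr
      have : ε / (2 * E) = ε / (4 * E) + ε / (4 * E) := by field_simp; ring
      linarith
    have hy4 : 4 ≤ y := by linarith
    have hy'2 : 2 ≤ y' := by nlinarith
    obtain ⟨J, hJ1, hJ2⟩ := ex_J y' hy'2
    obtain ⟨R, hR⟩ : ∃ R : ℕ, R = 2 ^ 2 ^ J := ⟨_, rfl⟩
    rw [← hR] at hJ1 hJ2
    have hyR' : y < R := by
      by_contra hcon
      have h4 : (R : ℝ) ≤ y := not_lt.1 hcon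
      have h5 : (R : ℝ) ^ 2 ≤ y * y := by
        rw [pow_two]
        gcongr
      linarith
    have hbR : b ≤ R := by
      have : (b : ℝ) ≤ R := by linarith
      exact_mod_cast this
    have hRn : R ≤ n := by
      have h4 : y' ≤ (n : ℝ) ^ ε := by
        rw [hy']
        apply Real.rpow_le_rpow_of_exponent_le hnr
        rw [div_le_iff₀ (by positivity)]
        have : (1 : ℝ) ≤ E := by exact_mod_cast hE1
        nlinarith
      have h5 : (B : ℝ) ≤ n := by exact_mod_cast hBn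
      have h6 : (0 : ℝ) ≤ A := Nat.cast_nonneg A
      have : (R : ℝ) ≤ n := by linarith
      exact_mod_cast this
    have hRE : (R : ℝ) ^ E ≤ (n : ℝ) ^ (ε / 2) := by
      calc (R : ℝ) ^ E ≤ y' ^ E := pow_le_pow_left₀ (Nat.cast_nonneg R) hJ1 _
        _ = (n : ℝ) ^ (ε / 2) := by
            rw [hy', ← Real.rpow_natCast, ← Real.rpow_mul hn0.le]
            congr 1
            field_simp
    obtain ⟨x0, hx0⟩ := exists_x0 f b hloc
    have hflc := HF D b b J (by rw [hb]) (by rw [hb]) (Zf f) (hSv _ _) (Mz b) x0 A L (by omega) (by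
      intro p hp hd
      have h4 := (Mz_prime (Pr_prime hp)).1 hd
      have h5 := (Pr_mem.1 hp).1.1
      omega)
    rw [← hR] at hflc
    obtain ⟨Pb, hPb⟩ : ∃ Pb : ℝ, Pb = ∏ p ∈ Pr b R, (1 - ((Zf f p).card : ℝ) / p) := ⟨_, rfl⟩
    rw [← hPb] at hflc
    obtain ⟨T, hflc, hT⟩ : ∃ T : Finset ℕ, |((T.card : ℝ)) - (L : ℝ) / Mz b * Pb| ≤
        (1 / 2 : ℝ) ^ b * ((L : ℝ) / Mz b * Pb) + ((2 : ℝ) ^ 2 ^ J) ^ (C * b) ∧
      ∀ x, x ∈ T ↔ x ∈ Ioc A (A + L) ∧ (x % Mz b = x0 % Mz b ∧ ∀ p ∈ Pr b R, x % p ∉ Zf f p) :=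
      ⟨_, hflc, fun x => by simp only [mem_filter]⟩
    have hPbV : V f n ≤ Pb := by
      have h4 : Pb = VV (Zf f) b R := hPb
      rw [h4, hVV, ← VV_split (Zf f) (Nat.zero_le R) hRn, ← VV_split (Zf f) (Nat.zero_le b) hbR]
      have a1 := VV_Zf_nonneg hloc 0 b
      have a2 := VV_Zf_le_one hloc 0 b
      have a3 := VV_Zf_nonneg hloc b R
      have a4 := VV_Zf_nonneg hloc R n
      have a5 := VV_Zf_le_one hloc R n
      calc VV (Zf f) 0 b * VV (Zf f) b R * VV (Zf f) R n ≤ 1 * VV (Zf f) b R * 1 := by gcongr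
        _ = VV (Zf f) b R := by ring
    have hcast : ((2 : ℝ) ^ 2 ^ J) = R := by rw [hR]; push_cast; rfl
    have hlow : (L : ℝ) / Mz b * Pb / 2 - (n : ℝ) ^ (ε / 2) ≤ T.card := by
      have h4 := (abs_le.1 hflc).1
      rw [hcast, ← hE] at h4
      have h5 : 0 ≤ (L : ℝ) / Mz b * Pb := by
        have : 0 ≤ Pb := hVn.trans hPbV
        positivity
      have h6 : (1 / 2 : ℝ) ^ b * ((L : ℝ) / Mz b * Pb) ≤ 1 / 2 * ((L : ℝ) / Mz b * Pb) :=
        mul_le_mul_of_nonneg_right hhalf h5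
      linarith
    -- the arguments
    have hsub : T ⊆ GoodBE f ee t n A B ∪ BadX f A B := by
      intro x hx
      rw [hT, mem_Ioc, ← hL] at hx
      obtain ⟨⟨hx1, hx2⟩, hxm, hxp⟩ := hx
      rw [mem_union]
      by_cases hbad : ∀ k, 1 < |(f k).eval (x : ℤ)|
      · left
        unfold GoodBE
        rw [mem_filter, mem_Ioc]
        refine ⟨⟨hx1, hx2⟩, fun k => ?_⟩
        apply almost_of ht1 hn1 (hbad k) (by rw [← hy]; exact hyK)
        · exact SS.size k x (by positivity) (by exact_mod_cast hx2.trans hBn)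
        · intro q hq hd
          rw [← hy]
          have hdp : (q : ℤ) ∣ ∏ k, (f k).eval (x : ℤ) := hd.trans (dvd_prod_of_mem _ (mem_univ k))
          rcases Nat.lt_or_ge R q with h4 | h4
          · have : (R : ℝ) < q := by exact_mod_cast h4
            linarith
          exfalso
          rcases Nat.lt_or_ge b q with h5 | h5
          · apply hxp q (Pr_mem.2 ⟨⟨h5, h4⟩, hq⟩)
            rw [mem_Zf hq.pos]
            exact hdp
          · apply hx0 q (Pr_mem.2 ⟨⟨hq.pos, h5⟩, hq⟩)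
            have h6 : (x : ℤ) ≡ x0 [ZMOD q] := by
              have h7 : x ≡ x0 [MOD Mz b] := hxm
              exact Int.natCast_modEq_iff.2 (h7.of_dvd ((Mz_prime hq).2 h5))
            rwa [← dvd_iff h6]
      · right
        push Not at hbad
        unfold BadX
        rw [mem_filter, mem_Ioc]
        exact ⟨⟨hx1, hx2⟩, hbad⟩
    have hcard : (T.card : ℝ) ≤ (GoodBE f ee t n A B).card + 3 * D := by
      have h4 := (card_le_card hsub).trans (card_union_le _ _)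
      have h5 := (card_BadX SS.deg A B).trans (Nat.mul_le_mul_left 3 hsum)
      exact_mod_cast h4.trans (Nat.add_le_add_left h5 _)
    -- the error
    have herr : (n : ℝ) ^ (ε / 2) + 3 * D ≤ (L : ℝ) / Mz b * V f n / 4 := by
      have h4 := h2 n (by omega)
      have h5 : (n : ℝ) ^ (ε / 2) + 3 * D ≤ (3 * D + 1) * (n : ℝ) ^ (ε / 2) := by
        have : (3 * D : ℝ) * 1 ≤ 3 * D * (n : ℝ) ^ (ε / 2) := by gcongr
        linarith
      refine h5.trans ?_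
      have h6 : (3 * D + 1 : ℝ) ≤ (n : ℝ) ^ (ε / 2) / Mz b * (cV / Real.log n ^ D) / 4 := by
        rw [div_mul_eq_mul_div, div_le_iff₀ hcV] at h4
        rw [div_mul_div_comm, div_div, le_div_iff₀ (by positivity)]
        linarith
      calc (3 * D + 1 : ℝ) * (n : ℝ) ^ (ε / 2) ≤
            ((n : ℝ) ^ (ε / 2) / Mz b * (cV / Real.log n ^ D) / 4) * (n : ℝ) ^ (ε / 2) := by gcongr
        _ = ((n : ℝ) ^ (ε / 2) * (n : ℝ) ^ (ε / 2)) / Mz b * (cV / Real.log n ^ D) / 4 := by ring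
        _ ≤ (L : ℝ) / Mz b * V f n / 4 := by
            rw [hε2, hLr]
            gcongr
    have h9 : (L : ℝ) / Mz b * V f n / 2 ≤ (L : ℝ) / Mz b * Pb / 2 := by gcongr
    have h10 : 1 / (4 * Mz b) * ((B : ℝ) - A) * V f n ≤ ((GoodBE f ee t n A B).card : ℝ) := by
      have h11 : 1 / (4 * Mz b) * ((B : ℝ) - A) * V f n = (L : ℝ) / Mz b * V f n / 4 := by
        rw [hLr]
        field_simp
      rw [h11]
      linarith
    refine le_trans ?_ h10
    gcongr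
    exact min_le_left _ _
  · -- the upper bound
    have hy2 : 2 ≤ y := by linarith
    obtain ⟨J, hJ1, hJ2⟩ := ex_J y hy2
    obtain ⟨R, hR⟩ : ∃ R : ℕ, R = 2 ^ 2 ^ J := ⟨_, rfl⟩
    rw [← hR] at hJ1 hJ2
    have hR0R : R₀ ≤ R := by
      have h4 : (R₀ : ℝ) ^ 2 ≤ (R : ℝ) ^ 2 := by nlinarith
      have h5 : (R₀ : ℝ) ≤ R := le_of_sq_le_sq h4 (Nat.cast_nonneg R)
      exact_mod_cast h5
    have hbR : b ≤ R := by
      have h4 : (b : ℝ) ^ 2 ≤ (R : ℝ) ^ 2 := by nlinarith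
      have h5 : (b : ℝ) ≤ R := le_of_sq_le_sq h4 (Nat.cast_nonneg R)
      exact_mod_cast h5
    have hyt : y ^ t = n := by
      rw [hy, ← Real.rpow_natCast, ← Real.rpow_mul hn0.le, one_div, inv_mul_cancel₀ ht0.ne', Real.rpow_one]
    have hnR : n ≤ R ^ (2 * t) := by
      have h4 : y ^ t ≤ ((R : ℝ) ^ 2) ^ t := pow_le_pow_left₀ (by linarith) hJ2.le _
      rw [hyt, ← pow_mul] at h4
      exact_mod_cast h4
    have hyn : y ≤ n := by
      rw [← hyt]
      calc y = y ^ 1 := (pow_one y).symm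
        _ ≤ y ^ t := pow_le_pow_right₀ (by linarith) ht1
    have hRn : R ≤ n := by
      have : (R : ℝ) ≤ n := by linarith
      exact_mod_cast this
    have hRE : (R : ℝ) ^ E ≤ (n : ℝ) ^ (ε / 2) := by
      calc (R : ℝ) ^ E ≤ y ^ E := pow_le_pow_left₀ (Nat.cast_nonneg R) hJ1 _
        _ = (n : ℝ) ^ (1 / (t : ℝ) * E) := by
            rw [hy, ← Real.rpow_natCast, ← Real.rpow_mul hn0.le]
        _ ≤ (n : ℝ) ^ (ε / 2) := by
            apply Real.rpow_le_rpow_of_exponent_le hnr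
            calc 1 / (t : ℝ) * E ≤ ε / (4 * E) * E := by gcongr
              _ = ε / 4 := by field_simp
              _ ≤ ε / 2 := by linarith
    have hflc := HF D b b J (by rw [hb]) (by rw [hb]) (Zf f) (hSv _ _) 1 0 A L le_rfl (by
      intro p hp hd
      have h4 := Nat.le_of_dvd one_pos hd
      have h5 := (Pr_prime hp).two_le
      omega)
    rw [← hR] at hflc
    obtain ⟨Pb, hPb⟩ : ∃ Pb : ℝ, Pb = ∏ p ∈ Pr b R, (1 - ((Zf f p).card : ℝ) / p) := ⟨_, rfl⟩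
    rw [← hPb] at hflc
    obtain ⟨T, hflc, hT⟩ : ∃ T : Finset ℕ, |((T.card : ℝ)) - (L : ℝ) / (1 : ℕ) * Pb| ≤
        (1 / 2 : ℝ) ^ b * ((L : ℝ) / (1 : ℕ) * Pb) + ((2 : ℝ) ^ 2 ^ J) ^ (C * b) ∧
      ∀ x, x ∈ T ↔ x ∈ Ioc A (A + L) ∧ (x % 1 = 0 % 1 ∧ ∀ p ∈ Pr b R, x % p ∉ Zf f p) :=
      ⟨_, hflc, fun x => by simp only [mem_filter]⟩
    have hPbV : cD / Mz b * Pb ≤ V f n := by
      have h4 : Pb = VV (Zf f) b R := hPb
      rw [h4, hVV, ← VV_split (Zf f) (Nat.zero_le R) hRn, ← VV_split (Zf f) (Nat.zero_le b) hbR]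
      have a1 := VV_small hloc b
      have a3 := VV_Zf_nonneg hloc b R
      have a4 := hden R n hR0R hnR (Zf f) (hSv _ _)
      have a5 := VV_Zf_nonneg hloc 0 b
      calc cD / Mz b * VV (Zf f) b R = (1 / Mz b) * VV (Zf f) b R * cD := by ring
        _ ≤ VV (Zf f) 0 b * VV (Zf f) b R * VV (Zf f) R n := by gcongr
    have hPb0 : 0 ≤ Pb := by
      have h4 : Pb = VV (Zf f) b R := hPb
      rw [h4]
      exact VV_Zf_nonneg hloc b R
    have hcast : ((2 : ℝ) ^ 2 ^ J) = R := by rw [hR]; push_cast; rfl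
    have hL0 : (0 : ℝ) ≤ L := Nat.cast_nonneg L
    have hup : (T.card : ℝ) ≤ 2 * ((L : ℝ) * Pb) + (n : ℝ) ^ (ε / 2) := by
      have h4 := (abs_le.1 hflc).2
      rw [hcast, ← hE, Nat.cast_one, div_one] at h4
      have h5 : 0 ≤ (L : ℝ) * Pb := by positivity
      have h6 : (1 / 2 : ℝ) ^ b * ((L : ℝ) * Pb) ≤ 1 / 2 * ((L : ℝ) * Pb) :=
        mul_le_mul_of_nonneg_right hhalf h5
      linarith
    have hsub : GoodBE f ee t n A B ⊆ T := by
      intro x hx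
      unfold GoodBE at hx
      rw [mem_filter] at hx
      obtain ⟨hx1, hx2⟩ := hx
      rw [hT, ← hL]
      refine ⟨hx1, by simp [Nat.mod_one], ?_⟩
      intro p hp hcon
      have hpp := Pr_prime hp
      rw [mem_Zf hpp.pos] at hcon
      obtain ⟨k, _, hk⟩ := (Nat.prime_iff_prime_int.1 hpp).exists_mem_finset_dvd hcon
      have h4 := (hx2 k).2.2 p hpp hk
      rw [← hy] at h4
      have h5 : (p : ℝ) ≤ R := by exact_mod_cast (Pr_mem.1 hp).1.2
      linarith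
    have hcard : ((GoodBE f ee t n A B).card : ℝ) ≤ T.card := by exact_mod_cast card_le_card hsub
    have herr : (n : ℝ) ^ (ε / 2) ≤ (L : ℝ) * V f n := by
      have h4 := h3 n (by omega)
      have h6 : (1 : ℝ) ≤ (n : ℝ) ^ (ε / 2) * (cV / Real.log n ^ D) := by
        rw [div_mul_eq_mul_div, div_le_iff₀ hcV] at h4
        rw [mul_div_assoc', le_div_iff₀ (by positivity)]
        linarith
      calc (n : ℝ) ^ (ε / 2) = 1 * (n : ℝ) ^ (ε / 2) := (one_mul _).symm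
        _ ≤ ((n : ℝ) ^ (ε / 2) * (cV / Real.log n ^ D)) * (n : ℝ) ^ (ε / 2) := by gcongr
        _ = ((n : ℝ) ^ (ε / 2) * (n : ℝ) ^ (ε / 2)) * (cV / Real.log n ^ D) := by ring
        _ ≤ (L : ℝ) * V f n := by
            rw [hε2, hLr]
            gcongr
    have h7 : Pb ≤ Mz b / cD * V f n := by
      rw [div_mul_eq_mul_div, div_le_iff₀ hM] at hPbV
      rw [div_mul_eq_mul_div, le_div_iff₀ hcD]
      linarith
    calc ((GoodBE f ee t n A B).card : ℝ) ≤ 2 * ((L : ℝ) * Pb) + (n : ℝ) ^ (ε / 2) := hcard.trans hup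
      _ ≤ 2 * ((L : ℝ) * (Mz b / cD * V f n)) + (L : ℝ) * V f n := by gcongr
      _ = (2 * Mz b / cD + 1) * ((B : ℝ) - A) * V f n := by
          rw [hLr]
          ring


end Pool.Agent.X32.Uni
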