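import Pool.Agent.X32.Uni.Kill
import Pool.Agent.X32.Uni.Pol

/-!
Substitutions `x ↦ M x + r` in systems of polynomials.
-/

set_option autoImplicit false

namespace Pool.Agent.X32.Uni

open Finset
open Polynomial (C X)
open scoped Polynomial

variable {m : ℕ}

/-- after the substitution `x ↦ M x + r` the polynomial `f l` is `d l` times `h l`; all primes dividing `d l` divide
`M`, and no prime dividing `M` divides a value of `h l` -/
structure Sbs (f h : Fin m → ℤ[X]) (d : Fin m → ℤ) (M r : ℕ) : Prop where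
  hM : 1 ≤ M
  eq : ∀ l, C (d l) * h l = (f l).comp (C (M : ℤ) * X + C (r : ℤ))
  dM : ∀ l, ∀ p : ℕ, p.Prime → (p : ℤ) ∣ d l → p ∣ M
  nz : ∀ p : ℕ, p.Prime → p ∣ M → ∀ x : ℤ, ¬ (p : ℤ) ∣ ∏ l, (h l).eval x

/-- the sieve product over the primes which do not divide `M` -/
noncomputable def VM (f : Fin m → ℤ[X]) (M n : ℕ) : ℝ :=
  ∏ p ∈ (Icc 1 n).filter (fun p => p.Prime ∧ ¬ p ∣ M), (1 - (om f p : ℝ) / p)

variable {f h : Fin m → ℤ[X]} {d : Fin m → ℤ} {M r : ℕ}

theorem Sbs.eval (S : Sbs f h d M r) (l : Fin m) (x : ℤ) : d l * (h l).eval x = (f l).eval (M * x + r) := by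
  have h1 := congrArg (fun q : ℤ[X] => q.eval x) (S.eq l)
  simpa [Polynomial.eval_comp] using h1

theorem Sbs.d0 (S : Sbs f h d M r) (l : Fin m) : d l ≠ 0 := by
  intro h0
  obtain ⟨p, hp, hpp⟩ := Nat.exists_infinite_primes (M + 1)
  have h1 := S.dM l p hpp (by rw [h0]; exact dvd_zero _)
  have := Nat.le_of_dvd S.hM h1
  omega

theorem Sbs.dvd_f (S : Sbs f h d M r) {p : ℕ} {x : ℤ} (hd : (p : ℤ) ∣ ∏ l, (h l).eval x) :
    (p : ℤ) ∣ ∏ l, (f l).eval (M * x + r) := by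
  have h1 : ∏ l, (f l).eval (M * x + r) = (∏ l, d l) * ∏ l, (h l).eval x := by
    rw [← prod_mul_distrib]
    exact prod_congr rfl fun l _ => (S.eval l x).symm
  rw [h1]
  exact hd.mul_left _

theorem Sbs.dvd_h (S : Sbs f h d M r) {p : ℕ} (hp : p.Prime) (hpM : ¬ p ∣ M) {x : ℤ}
    (hd : (p : ℤ) ∣ ∏ l, (f l).eval (M * x + r)) : (p : ℤ) ∣ ∏ l, (h l).eval x := by
  have hpi := Nat.prime_iff_prime_int.1 hp
  obtain ⟨l, _, hl⟩ := hpi.exists_mem_finset_dvd hd
  rw [← S.eval l x] at hl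
  rcases hpi.dvd_or_dvd hl with h1 | h1
  · exact absurd (S.dM l p hp h1) hpM
  · exact h1.trans (dvd_prod_of_mem _ (mem_univ l))

theorem Sbs.om_zero (S : Sbs f h d M r) {p : ℕ} (hp : p.Prime) (hpM : p ∣ M) : om h p = 0 := by
  unfold om
  rw [card_eq_zero, filter_eq_empty_iff]
  intro x _
  exact S.nz p hp hpM x

theorem Sbs.om_le (S : Sbs f h d M r) {p : ℕ} (hp : p.Prime) (hpM : ¬ p ∣ M) : om h p ≤ om f p := by
  classical
  unfold om
  apply card_le_card_of_injOn (fun n => (M * n + r) % p)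
  · intro n hn
    rw [mem_coe, mem_filter] at hn
    rw [mem_coe, mem_filter, mem_range]
    refine ⟨Nat.mod_lt _ hp.pos, ?_⟩
    have h1 := S.dvd_f hn.2
    refine (dvd_iff ?_).1 h1
    have h2 : (M * n + r) ≡ (M * n + r) % p [MOD p] := (Nat.mod_modEq _ _).symm
    have h3 := (Int.natCast_modEq_iff.2 h2)
    push_cast at h3 ⊢
    exact h3
  · intro n hn n' hn' he
    rw [mem_coe, mem_filter, mem_range] at hn hn'
    simp only at he
    have h1 : M * n + r ≡ M * n' + r [MOD p] := he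
    have h2 : M * n ≡ M * n' [MOD p] := Nat.ModEq.add_right_cancel' r h1
    have h3 : n ≡ n' [MOD p] := by
      apply Nat.ModEq.cancel_left_of_coprime ?_ h2
      exact (hp.coprime_iff_not_dvd).2 hpM
    exact Nat.ModEq.eq_of_lt_of_lt h3 hn.1 hn'.1

theorem Sbs.loc (S : Sbs f h d M r) (hloc : ∀ p : ℕ, p.Prime → ¬ p ∣ M → ∃ x : ℤ, ¬ (p : ℤ) ∣ ∏ l, (f l).eval x) :
    Loc h := by
  intro p hp
  by_cases hpM : p ∣ M
  · exact ⟨0, S.nz p hp hpM 0⟩
  · obtain ⟨x, hx⟩ := hloc p hp hpM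
    have hpi := Nat.prime_iff_prime_int.1 hp
    have hc : IsCoprime (M : ℤ) p := (hpi.coprime_iff_not_dvd.2 (by exact_mod_cast hpM)).symm
    obtain ⟨u, v, huv⟩ := hc
    refine ⟨u * (x - r), fun hd => hx ?_⟩
    have h1 := S.dvd_f hd
    refine (dvd_iff ?_).1 h1
    rw [Int.modEq_iff_dvd]
    refine ⟨v * (x - r), ?_⟩
    linear_combination ((x : ℤ) - r) * (-huv)

theorem Sbs.V_le (S : Sbs f h d M r) (hloc : ∀ p : ℕ, p.Prime → ¬ p ∣ M → ∃ x : ℤ, ¬ (p : ℤ) ∣ ∏ l, (f l).eval x)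
    (n : ℕ) : VM f M n ≤ V h n := by
  classical
  have hl := S.loc hloc
  have h1 : V h n = (∏ p ∈ (Icc 1 n).filter (fun p => p.Prime ∧ ¬ p ∣ M), (1 - (om h p : ℝ) / p)) *
      ∏ p ∈ (Icc 1 n).filter (fun p => p.Prime ∧ p ∣ M), (1 - (om h p : ℝ) / p) := by
    unfold V
    rw [← prod_filter_mul_prod_filter_not ((Icc 1 n).filter Nat.Prime) (fun p => ¬ p ∣ M), filter_filter,
      filter_filter]
    simp only [not_not]
  have h2 : ∏ p ∈ (Icc 1 n).filter (fun p => p.Prime ∧ p ∣ M), (1 - (om h p : ℝ) / p) = 1 := by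
    apply prod_eq_one
    intro p hp
    rw [mem_filter] at hp
    rw [S.om_zero hp.2.1 hp.2.2]
    simp
  rw [h1, h2, mul_one]
  unfold VM
  apply prod_le_prod
  · intro p hp
    rw [mem_filter] at hp
    have hp0 : (0 : ℝ) < p := by exact_mod_cast hp.2.1.pos
    obtain ⟨x, hx⟩ := hloc p hp.2.1 hp.2.2
    have h3 : om f p < p := by
      have hp0 : (0 : ℤ) < p := by exact_mod_cast hp.2.1.pos
      have h3 := Int.emod_nonneg x hp0.ne'
      have h4 := Int.emod_lt_of_pos x hp0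
      unfold om
      have h1 : (range p).filter (fun x : ℕ => (p : ℤ) ∣ ∏ k, (f k).eval (x : ℤ)) ⊂ range p := by
        refine filter_ssubset.2 ⟨(x % p).toNat, mem_range.2 (by omega), ?_⟩
        rw [Int.toNat_of_nonneg h3, dvd_iff (Int.mod_modEq x p)]
        exact hx
      have h2 := card_lt_card h1
      rwa [card_range] at h2
    have h4 : (om f p : ℝ) ≤ p := by exact_mod_cast h3.le
    rw [sub_nonneg, div_le_one hp0]
    exact h4
  · intro p hp
    rw [mem_filter] at hp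
    have hp0 : (0 : ℝ) < p := by exact_mod_cast hp.2.1.pos
    have h3 : (om h p : ℝ) ≤ om f p := by exact_mod_cast S.om_le hp.2.1 hp.2.2
    have := div_le_div_of_nonneg_right h3 hp0.le
    linarith

theorem V_le_VM (hloc : Loc f) (M n : ℕ) : V f n ≤ VM f M n := by
  classical
  have h1 : V f n = (∏ p ∈ (Icc 1 n).filter (fun p => p.Prime ∧ ¬ p ∣ M), (1 - (om f p : ℝ) / p)) *
      ∏ p ∈ (Icc 1 n).filter (fun p => p.Prime ∧ p ∣ M), (1 - (om f p : ℝ) / p) := by
    unfold V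
    rw [← prod_filter_mul_prod_filter_not ((Icc 1 n).filter Nat.Prime) (fun p => ¬ p ∣ M), filter_filter,
      filter_filter]
    simp only [not_not]
  have h2 : ∏ p ∈ (Icc 1 n).filter (fun p => p.Prime ∧ p ∣ M), (1 - (om f p : ℝ) / p) ≤ 1 := by
    apply prod_le_one
    · intro p hp
      exact (fac_bounds hloc (mem_filter.1 hp).2.1).1.le
    · intro p hp
      exact (fac_bounds hloc (mem_filter.1 hp).2.1).2
  rw [h1]
  unfold VM
  refine mul_le_of_le_one_right (prod_nonneg ?_) h2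
  intro p hp
  exact (fac_bounds hloc (mem_filter.1 hp).2.1).1.le

/-- a bound for the values -/
theorem eval_size (q : ℤ[X]) : ∃ K : ℕ, ∀ n : ℕ, 1 ≤ n → ∀ x : ℤ, 0 ≤ x → x ≤ n →
    |q.eval x| ≤ K * (n : ℤ) ^ q.natDegree := by
  refine ⟨∑ i ∈ range (q.natDegree + 1), (q.coeff i).natAbs, fun n hn x hx0 hxn => ?_⟩
  rw [Polynomial.eval_eq_sum_range]
  refine (abs_sum_le_sum_abs _ _).trans ?_
  push_cast
  rw [sum_mul]
  apply sum_le_sum
  intro i hi
  rw [mem_range] at hi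
  rw [abs_mul, abs_pow, abs_of_nonneg hx0]
  apply mul_le_mul_of_nonneg_left _ (abs_nonneg _)
  calc x ^ i ≤ (n : ℤ) ^ i := pow_le_pow_left₀ hx0 hxn i
    _ ≤ (n : ℤ) ^ q.natDegree := pow_le_pow_right₀ (by exact_mod_cast hn) (by omega)

end Pool.Agent.X32.Uni
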