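import Pool.Agent.X32.Uni.Pol

/-!
The system `φ(n - x) + 1 = n - x`, `φ(n + x) + 1 = n + x`.
-/

set_option autoImplicit false

namespace Pool.Agent.X32.Uni

open Finset Filter
open scoped Polynomial

variable {m : ℕ}

/-- the system of polynomials -/
noncomputable def sT (n : ℕ) (e : ℤ) (g : Fin m → ℤ[X]) : Fin (m + 2) → ℤ[X] :=
  Fin.cons (Polynomial.C (-e) * Polynomial.X + Polynomial.C (n : ℤ))
    (Fin.cons (Polynomial.C e * Polynomial.X + Polynomial.C (n : ℤ)) g)

theorem sT0 (n : ℕ) (e : ℤ) (g : Fin m → ℤ[X]) :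
    sT n e g 0 = Polynomial.C (-e) * Polynomial.X + Polynomial.C (n : ℤ) := rfl
theorem sT1 (n : ℕ) (e : ℤ) (g : Fin m → ℤ[X]) :
    sT n e g 1 = Polynomial.C e * Polynomial.X + Polynomial.C (n : ℤ) := rfl
theorem sTs (n : ℕ) (e : ℤ) (g : Fin m → ℤ[X]) (l : Fin m) : sT n e g l.succ.succ = g l := rfl

theorem sT_cases {P : Fin (m + 2) → Prop} (h0 : P 0) (h1 : P 1) (hs : ∀ l : Fin m, P l.succ.succ) :
    ∀ i, P i := by
  intro i
  refine Fin.cases h0 (fun i => ?_) i
  refine Fin.cases h1 (fun l => ?_) i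
  exact hs l

/-- local solvability -/
def AdmT' (n : ℕ) (g : Fin m → ℤ[X]) : Prop :=
  ∀ p : ℕ, p.Prime → ∃ x : ℤ, ¬ (p : ℤ) ∣ (n - x) * (n + x) * ∏ l, (g l).eval x

/-- the number of the zeros modulo `p` -/
noncomputable def omT (n : ℕ) (g : Fin m → ℤ[X]) (p : ℕ) : ℕ :=
  ((range p).filter (fun x : ℕ => (p : ℤ) ∣ ((n : ℤ) - x) * (n + x) * ∏ l, (g l).eval (x : ℤ))).card

noncomputable def VT (n : ℕ) (g : Fin m → ℤ[X]) : ℝ :=
  ∏ p ∈ (Icc 1 n).filter Nat.Prime, (1 - (omT n g p : ℝ) / p)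

theorem prod_sT (n : ℕ) {e : ℤ} (he : e = 1 ∨ e = -1) (g : Fin m → ℤ[X]) (x : ℤ) :
    ∏ k, (sT n e g k).eval x = (n - x) * (n + x) * ∏ l, (g l).eval x := by
  rw [Fin.prod_univ_succ, Fin.prod_univ_succ]
  have h0 : (sT n e g 0).eval x = -e * x + n := by rw [sT0]; simp
  have h1 : (sT n e g (Fin.succ 0)).eval x = e * x + n := by
    show (sT n e g 1).eval x = _
    rw [sT1]; simp
  rw [h0, h1]
  have h2 : ∀ l : Fin m, (sT n e g l.succ.succ).eval x = (g l).eval x := fun l => by rw [sTs]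
  simp only [h2]
  rcases he with rfl | rfl <;> ring

theorem loc_sT {n : ℕ} {e : ℤ} (he : e = 1 ∨ e = -1) {g : Fin m → ℤ[X]} (h : AdmT' n g) : Loc (sT n e g) := by
  intro p hp
  obtain ⟨x, hx⟩ := h p hp
  exact ⟨x, by rw [prod_sT n he]; exact hx⟩

theorem V_sT (n : ℕ) {e : ℤ} (he : e = 1 ∨ e = -1) (g : Fin m → ℤ[X]) : V (sT n e g) n = VT n g := by
  unfold V VT
  apply Finset.prod_congr rfl
  intro p _
  unfold om omT
  simp only [prod_sT n he]

theorem one_sub_sum {ι : Type*} (s : Finset ι) (f : ι → ℝ) (h0 : ∀ i ∈ s, 0 ≤ f i) (h1 : ∀ i ∈ s, f i ≤ 1) :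
    1 - ∑ i ∈ s, f i ≤ ∏ i ∈ s, (1 - f i) ∧ 0 ≤ ∏ i ∈ s, (1 - f i) ∧ ∏ i ∈ s, (1 - f i) ≤ 1 := by
  classical
  induction s using Finset.induction with
  | empty => simp
  | insert a s ha ih =>
    obtain ⟨e1, e2, e3⟩ := ih (fun i hi => h0 i (mem_insert_of_mem hi)) (fun i hi => h1 i (mem_insert_of_mem hi))
    have a0 := h0 a (mem_insert_self a s)
    have a1 := h1 a (mem_insert_self a s)
    rw [Finset.sum_insert ha, Finset.prod_insert ha]
    refine ⟨by nlinarith, by nlinarith, by nlinarith⟩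

theorem tot_low {v : ℕ} {y : ℝ} (hy : 0 < y) (h1 : v.primeFactorsList.length ≤ 2)
    (h2 : ∀ q : ℕ, q.Prime → q ∣ v → y < q) : (v : ℝ) - v.totient ≤ 2 * v / y := by
  have hc : v.primeFactors.card ≤ 2 := (List.toFinset_card_le _).trans h1
  have h3 : (v.totient : ℝ) = v * ∏ p ∈ v.primeFactors, (1 - (p : ℝ)⁻¹) := by
    have := Nat.totient_eq_mul_prod_factors v
    have h4 : ((v.totient : ℚ) : ℝ) = ((v * ∏ p ∈ v.primeFactors, (1 - (p : ℚ)⁻¹) : ℚ) : ℝ) := by rw [this]
    push_cast at h4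
    exact h4
  have h4 : 1 - ∑ p ∈ v.primeFactors, (p : ℝ)⁻¹ ≤ ∏ p ∈ v.primeFactors, (1 - (p : ℝ)⁻¹) := by
    refine (one_sub_sum _ _ ?_ ?_).1
    · intro p hp
      positivity
    · intro p hp
      apply inv_le_one_of_one_le₀
      exact_mod_cast (Nat.prime_of_mem_primeFactors hp).one_lt.le
  have h5 : ∑ p ∈ v.primeFactors, (p : ℝ)⁻¹ ≤ 2 / y := by
    calc ∑ p ∈ v.primeFactors, (p : ℝ)⁻¹ ≤ ∑ p ∈ v.primeFactors, y⁻¹ := by
          apply Finset.sum_le_sum
          intro p hp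
          exact inv_anti₀ hy (h2 p (Nat.prime_of_mem_primeFactors hp) (Nat.dvd_of_mem_primeFactors hp)).le
      _ = v.primeFactors.card * y⁻¹ := by rw [Finset.sum_const, nsmul_eq_mul]
      _ ≤ 2 * y⁻¹ := by
          apply mul_le_mul_of_nonneg_right _ (by positivity)
          exact_mod_cast hc
      _ = 2 / y := by ring
  have hv : (0 : ℝ) ≤ v := Nat.cast_nonneg _
  have h6 : (v : ℝ) * (1 - 2 / y) ≤ v.totient := by
    rw [h3]
    apply mul_le_mul_of_nonneg_left _ hv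
    linarith
  have h7 : 2 * (v : ℝ) / y = v * (2 / y) := by ring
  rw [h7]
  linarith

/-- Euler's function at an integer -/
def phi (v : ℤ) : ℤ := (Nat.totient v.toNat : ℤ)

open Classical in
/-- the good `x` -/
noncomputable def GTt (n : ℕ) (e : ℤ) (g : Fin m → ℤ[X]) (t A B : ℕ) : Finset ℕ :=
  (Ioc A B).filter (fun x : ℕ => phi (n - e * x) + 1 = n - e * x ∧
    |((phi (n + e * x) + 1 - (n + e * x) : ℤ) : ℝ)| ≤ 2 * ((n : ℝ) + e * x) / (n : ℝ) ^ (1 / 9 : ℝ) ∧
    Almost 2 ((n : ℝ) ^ (1 / 9 : ℝ)) (n + e * x) ∧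
    (n : ℝ) ^ (1 / (t : ℝ)) < n - e * x ∧ Almost t ((n : ℝ) ^ (1 / (t : ℝ))) (n + e * x) ∧
    ∀ l, Almost (t * (g l).natDegree) ((n : ℝ) ^ (1 / (t : ℝ))) ((g l).eval (x : ℤ)))

theorem phi_eq {v : ℤ} (hv : 1 ≤ v) : phi v + 1 = v ↔ v.natAbs.Prime := by
  obtain ⟨k, rfl⟩ : ∃ k : ℕ, v = k := ⟨v.toNat, by omega⟩
  unfold phi
  rw [Int.toNat_natCast, Int.natAbs_natCast]
  have hk : 0 < k := by exact_mod_cast hv
  rw [← Nat.totient_eq_iff_prime hk]
  omega

theorem deg_sT0 (n : ℕ) {e : ℤ} (he : e ≠ 0) : (Polynomial.C e * Polynomial.X + Polynomial.C (n : ℤ)).natDegree = 1 :=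
  Polynomial.natDegree_linear he

theorem GTt_eq {n : ℕ} {e : ℤ} (he : e = 1 ∨ e = -1) (g : Fin m → ℤ[X]) {t A B : ℕ} (ht : 1 ≤ t) (hn : 1 ≤ n)
    (hB : B < n) : GoodX (sT n e g) 0 1 t n A B = GTt n e g t A B := by
  classical
  have he0 : e ≠ 0 := by rcases he with h | h <;> rw [h] <;> norm_num
  ext x
  unfold GoodX GTt
  rw [mem_filter, mem_filter]
  refine and_congr_right (fun hx => ?_)
  rw [mem_Ioc] at hx
  have hxn : (x : ℤ) < n := by exact_mod_cast lt_of_le_of_lt hx.2 hB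
  have hx0 : (0 : ℤ) ≤ x := by positivity
  have v0 : (sT n e g 0).eval (x : ℤ) = n - e * x := by rw [sT0]; simp; ring
  have v1 : (sT n e g 1).eval (x : ℤ) = n + e * x := by rw [sT1]; simp; ring
  have vs : ∀ l : Fin m, (sT n e g l.succ.succ).eval (x : ℤ) = (g l).eval (x : ℤ) := fun l => by rw [sTs]
  have d0 : (sT n e g 0).natDegree = 1 := by
    rw [sT0]
    exact deg_sT0 n (neg_ne_zero.2 he0)
  have d1 : (sT n e g 1).natDegree = 1 := by
    rw [sT1]
    exact deg_sT0 n he0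
  have ds : ∀ l : Fin m, (sT n e g l.succ.succ).natDegree = (g l).natDegree := fun l => by rw [sTs]
  have p0 : (1 : ℤ) ≤ n - e * x := by rcases he with h | h <;> rw [h] <;> linarith
  have p1 : (1 : ℤ) ≤ n + e * x := by rcases he with h | h <;> rw [h] <;> linarith
  rw [v0, v1, phi_eq p0]
  have hnr : (0 : ℝ) < n := by exact_mod_cast hn
  constructor
  · rintro ⟨h1, h2, h3⟩
    refine ⟨h1, ?_, h2, ?_, ?_, fun l => ?_⟩
    · obtain ⟨k, hk⟩ : ∃ k : ℕ, (n : ℤ) + e * x = k := ⟨((n : ℤ) + e * x).toNat, by omega⟩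
      have hkr : (n : ℝ) + e * x = k := by exact_mod_cast hk
      rw [hk] at h2 ⊢
      rw [hkr]
      obtain ⟨g1, g2, g3⟩ := h2
      rw [Nat.abs_cast] at g1
      rw [Int.natAbs_natCast] at g2
      have g1' : 1 < k := by exact_mod_cast g1
      unfold phi
      rw [Int.toNat_natCast]
      have g4 := tot_low (v := k) (y := (n : ℝ) ^ (1 / 9 : ℝ)) (by positivity) g2
        (fun q hq hd => g3 q hq (Int.natCast_dvd_natCast.2 hd))
      have g5 := Nat.totient_lt k g1'
      have g6 : (k.totient : ℝ) + 1 ≤ k := by exact_mod_cast g5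
      push_cast
      rw [abs_of_nonpos (by linarith)]
      linarith
    · have h4 := h3 0
      rw [v0] at h4
      have h5 := h4.2.2 _ h1 (Int.natAbs_dvd.2 dvd_rfl)
      have h6 : (((n : ℤ) - e * x).natAbs : ℝ) = n - e * x := by
        have h7 : ((((n : ℤ) - e * x).natAbs : ℤ) : ℝ) = (((n : ℤ) - e * x : ℤ) : ℝ) := by
          rw [Int.natAbs_of_nonneg (by linarith)]
        rw [Int.cast_natCast] at h7
        rw [h7]
        push_cast
        ring
      rwa [h6] at h5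
    · have h4 := h3 1
      rw [v1, d1, mul_one] at h4
      exact h4
    · have h4 := h3 l.succ.succ
      rw [vs, ds] at h4
      exact h4
  · rintro ⟨h1, -, h2, h3, h4, h5⟩
    refine ⟨h1, h2, ?_⟩
    apply sT_cases
    · rw [v0, d0, mul_one]
      refine ⟨?_, ?_, ?_⟩
      · rw [Int.abs_eq_natAbs]
        exact_mod_cast h1.one_lt
      · rw [Nat.primeFactorsList_prime h1]
        exact ht
      · intro q hq hd
        have h6 : q ∣ ((n : ℤ) - e * x).natAbs := Int.natCast_dvd.1 hd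
        rw [(Nat.prime_dvd_prime_iff_eq hq h1).1 h6]
        have h6 : (((n : ℤ) - e * x).natAbs : ℝ) = n - e * x := by
          have h7 : ((((n : ℤ) - e * x).natAbs : ℤ) : ℝ) = (((n : ℤ) - e * x : ℤ) : ℝ) := by
            rw [Int.natAbs_of_nonneg (by linarith)]
          rw [Int.cast_natCast] at h7
          rw [h7]
          push_cast
          ring
        rw [h6]
        exact h3
    · rw [v1, d1, mul_one]
      exact h4
    · intro l
      rw [vs, ds]
      exact h5 l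

theorem totP (d : ℕ) : ∃ t : ℕ, 1 ≤ t ∧ ∃ κ : ℝ, 0 < κ ∧ ∀ (K s r : ℕ) (θ δ : ℝ), 1 ≤ s → 0 < θ → 0 < δ →
    ∃ c n₀ : ℕ, ∀ n : ℕ, n₀ ≤ n → ∀ (m : ℕ) (g : Fin m → ℤ[X]), (∀ l, 1 ≤ (g l).natDegree) →
      ∑ l, (g l).natDegree ≤ d →
      (∀ l, ∀ x : ℤ, 0 ≤ x → x ≤ n → |(g l).eval x| ≤ K * (n : ℤ) ^ (g l).natDegree) → AdmT' n g →
      κ / Real.log n ^ (d + 2) ≤ VT n g ∧ ∀ e : ℤ, (e = 1 ∨ e = -1) → ∀ A B : ℕ, B < n → θ * n ≤ (B : ℝ) - A →
        κ * ((B : ℝ) - A) * VT n g ≤ ((GTt n e g t A B).card : ℝ) ∧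
        ∀ χ : ℕ → Fin r, ∃ P : Finset (ℕ × ℕ),
          (∀ z ∈ P, 1 ≤ z.2 ∧ (z.2 : ℝ) ≤ Real.log n ^ c ∧
            ∀ l < s, z.1 + l * z.2 ∈ GTt n e g t A B ∧ χ (z.1 + l * z.2) = χ z.1) ∧
          (P : Set (ℕ × ℕ)).PairwiseDisjoint (apSet s) ∧
          (((GTt n e g t A B \ P.biUnion (apSet s)).card : ℕ) : ℝ) ≤ δ * ((B : ℝ) - A) * VT n g := by
  classical
  obtain ⟨t, ht, κ, hκ, H⟩ := polP (d + 2) 1 (by omega)
  refine ⟨t, ht, κ, hκ, fun K s r θ δ hs hθ hδ => ?_⟩
  obtain ⟨c, X₀, h⟩ := H (K + 2) s r θ δ hs hθ hδ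
  refine ⟨c, max X₀ 1, fun n hn m g hg1 hgd hgs hadm => ?_⟩
  have hX0 : X₀ ≤ n := (le_max_left _ _).trans hn
  have hn1 : 1 ≤ n := (le_max_right _ _).trans hn
  have S : ∀ e : ℤ, (e = 1 ∨ e = -1) → Sys (d + 2) 1 (K + 2) n (sT n e g) 0 1 := by
    intro e he
    have he0 : e ≠ 0 := by rcases he with h | h <;> rw [h] <;> norm_num
    have hea : |e| = 1 := by rcases he with h | h <;> rw [h] <;> norm_num
    have hen : e.natAbs = 1 := by rcases he with h | h <;> rw [h] <;> norm_num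
    have d0 : (sT n e g 0).natDegree = 1 := by
      rw [sT0]
      exact deg_sT0 n (neg_ne_zero.2 he0)
    have d1 : (sT n e g 1).natDegree = 1 := by
      rw [sT1]
      exact deg_sT0 n he0
    have c0 : (sT n e g 0).coeff 1 = -e := by
      rw [sT0]
      simp
    have c1 : (sT n e g 1).coeff 1 = e := by
      rw [sT1]
      simp
    have k1 : (sT n e g 1).coeff 0 = n := by
      rw [sT1]
      simp
    have k0 : (sT n e g 0).coeff 0 = n := by
      rw [sT0]
      simp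
    have hnz : (0 : ℤ) < n := by exact_mod_cast hn1
    have hK : (0 : ℤ) ≤ K := by positivity
    have lin : ∀ (e' x : ℤ), |e'| = 1 → 0 ≤ x → x ≤ n → |e' * x + n| ≤ ((K + 2 : ℕ) : ℤ) * (n : ℤ) ^ 1 := by
      intro e' x he' h0 h1
      have h2 : |e' * x| = x := by rw [abs_mul, he', one_mul, abs_of_nonneg h0]
      have h3 := abs_add_le (e' * x) (n : ℤ)
      rw [h2, Nat.abs_cast] at h3
      push_cast
      rw [pow_one]
      nlinarith
    exact
      { deg := by
          apply sT_cases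
          · rw [d0]
          · rw [d1]
          · intro l
            rw [sTs]
            exact hg1 l
        sum := by
          rw [Fin.sum_univ_succ, Fin.sum_univ_succ]
          have h1 : (sT n e g (Fin.succ 0)).natDegree = 1 := d1
          rw [d0, h1]
          have h2 : ∀ l : Fin m, (sT n e g l.succ.succ).natDegree = (g l).natDegree := fun l => by rw [sTs]
          simp only [h2]
          omega
        loc := loc_sT he hadm
        size := by
          apply sT_cases (P := fun k => ∀ x : ℤ, 0 ≤ x → x ≤ n →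
            |(sT n e g k).eval x| ≤ ((K + 2 : ℕ) : ℤ) * (n : ℤ) ^ (sT n e g k).natDegree)
          · intro x h0 h1
            rw [d0, sT0]
            have h2 : (Polynomial.C (-e) * Polynomial.X + Polynomial.C (n : ℤ)).eval x = (-e) * x + n := by simp
            rw [h2]
            exact lin (-e) x (by rw [abs_neg]; exact hea) h0 h1
          · intro x h0 h1
            rw [d1, sT1]
            have h2 : (Polynomial.C e * Polynomial.X + Polynomial.C (n : ℤ)).eval x = e * x + n := by simp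
            rw [h2]
            exact lin e x hea h0 h1
          · intro l x h0 h1
            rw [sTs]
            refine (hgs l x h0 h1).trans ?_
            apply mul_le_mul_of_nonneg_right _ (by positivity)
            push_cast
            linarith
        di := d0
        dj := d1
        ei := by rw [c0, Int.natAbs_neg, hen]
        ej := by rw [c1, hen]
        ne := fun hh => by
          have h2 := congrArg (fun p : ℤ[X] => p.coeff 1) hh
          simp only [c0, c1] at h2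
          omega
        ne' := fun hh => by
          have h2 := congrArg (fun p : ℤ[X] => p.coeff 0) hh
          simp only [Polynomial.coeff_neg, k0, k1] at h2
          omega }
  have h1 := h n hX0 _ _ _ _ (S 1 (Or.inl rfl))
  rw [V_sT n (Or.inl rfl)] at h1
  refine ⟨h1.1, fun e he A B hB hAB => ?_⟩
  have h2 := (h n hX0 _ _ _ _ (S e he)).2 A B hB.le hAB
  rw [V_sT n he, GTt_eq he g ht hn1 hB] at h2
  exact h2

end Pool.Agent.X32.Uni
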