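import Pool.Agent.X32.Uni.Part

/-!
Systems of linear forms, uniformly, with coverings by monochromatic progressions.
-/

set_option autoImplicit false

namespace Pool.Agent.X32.Uni

open Finset Filter

/-- coverings for systems of linear forms, uniformly -/
theorem linP (k E : ℕ) (hk : 1 ≤ k) : ∃ t : ℕ, 1 ≤ t ∧ ∃ κ : ℝ, 0 < κ ∧ ∀ (K s r : ℕ) (θ δ : ℝ), 1 ≤ s → 0 < θ → 0 < δ →
    ∃ c X₀ : ℕ, ∀ X : ℕ, X₀ ≤ X → ∀ (a b : Fin k → ℤ) (i j : Fin k), SysL k E K X a b i j →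
      κ / Real.log X ^ k ≤ VL a b X ∧ ∀ A B : ℕ, B ≤ X → θ * X ≤ (B : ℝ) - A →
        κ * ((B : ℝ) - A) * VL a b X ≤ ((GoodL a b i j t X A B).card : ℝ) ∧
        ∀ χ : ℕ → Fin r, ∃ P : Finset (ℕ × ℕ),
          (∀ z ∈ P, 1 ≤ z.2 ∧ (z.2 : ℝ) ≤ Real.log X ^ c ∧
            ∀ m < s, z.1 + m * z.2 ∈ GoodL a b i j t X A B ∧ χ (z.1 + m * z.2) = χ z.1) ∧
          (P : Set (ℕ × ℕ)).PairwiseDisjoint (apSet s) ∧
          (((GoodL a b i j t X A B \ P.biUnion (apSet s)).card : ℕ) : ℝ) ≤ δ * ((B : ℝ) - A) * VL a b X := by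
  classical
  obtain ⟨t, ht, κ, hκ, H⟩ := linU k E hk
  refine ⟨t, ht, κ, hκ, fun K s r θ δ hs hθ hδ => ?_⟩
  obtain ⟨⟨X₁, h1⟩, _⟩ := H θ hθ K
  obtain ⟨c, X₂, h2⟩ := prog_dense k (max t 2) (le_max_right _ _) s θ (δ / (r + 1)) κ hθ (by positivity) hκ
  refine ⟨c, max (max X₁ X₂) 3, fun X hX a b i j S => ?_⟩
  have hX1 : X₁ ≤ X := (le_max_left _ _).trans ((le_max_left _ _).trans hX)
  have hX2 : X₂ ≤ X := (le_max_right _ _).trans ((le_max_left _ _).trans hX)
  have hX3 : 3 ≤ X := (le_max_right _ _).trans hX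
  have hX0 : (0 : ℝ) < X := by exact_mod_cast (by omega : 0 < X)
  have hlog : 0 < Real.log X := Real.log_pos (by exact_mod_cast (by omega : 1 < X))
  obtain ⟨h3, h4⟩ := h1 X hX1 a b i j S
  have hV0 : 0 < VL a b X := lt_of_lt_of_le (by positivity) h3
  refine ⟨h3, fun A B hB hAB => ⟨h4 A B hB hAB, fun χ => ?_⟩⟩
  have hBA0 : 0 < (B : ℝ) - A := lt_of_lt_of_le (by positivity) hAB
  have hdeg : ∀ l, (lf a b l).natDegree = 1 := fun l => lf_deg _ _ l (S.a0 l)
  obtain ⟨P, p1, p2, p3⟩ := part_col s r hs (Real.log X ^ c) (δ / (r + 1) * ((B : ℝ) - A) * VL a b X)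
    (by positivity) (GoodL a b i j t X A B) (by
      intro T hT hTc
      refine h2 X hX2 k (lf a b) (by
        simp only [hdeg]
        simp) (loc_lf S.adm) (by
        rw [V_lf]
        exact h3) A B hB hAB T ?_ ?_ (by
        rw [V_lf]
        exact hTc)
      · exact hT.trans (filter_subset _ _)
      · intro x hx _ l q hq hd
        have h5 := hT hx
        unfold GoodL at h5
        rw [mem_filter] at h5
        rw [lf_eval] at hd
        refine lt_of_le_of_lt ?_ ((h5.2.2.2 l).2.2 q hq hd)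
        apply Real.rpow_le_rpow_of_exponent_le (by exact_mod_cast (by omega : 1 ≤ X))
        have ht0 : (0 : ℝ) < t := by exact_mod_cast ht
        apply one_div_le_one_div_of_le ht0
        exact_mod_cast le_max_left t 2) χ
  refine ⟨P, p1, p2, p3.le.trans ?_⟩
  have h6 : (r : ℝ) * (δ / (r + 1) * ((B : ℝ) - A) * VL a b X) =
      (r / (r + 1)) * (δ * ((B : ℝ) - A) * VL a b X) := by
    field_simp
  rw [h6]
  have h7 : (r : ℝ) / (r + 1) ≤ 1 := by
    rw [div_le_one (by positivity)]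
    linarith
  exact mul_le_of_le_one_left (by positivity) h7

end Pool.Agent.X32.Uni
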