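import Pool.Agent.X32.Uni.UncS

/-!
Values of quadratic forms at Goldbach pairs `m`, `N - m`.
-/

set_option autoImplicit false

namespace Pool.Agent.X32.Uni

open Finset Filter
open Polynomial (C X)
open scoped Polynomial

/-- the value `a x ^ 2 + b x y + c y ^ 2 + h` -/
def fq (q : ℤ × ℤ × ℤ × ℤ) (x y : ℤ) : ℤ := q.1 * x ^ 2 + q.2.1 * (x * y) + q.2.2.1 * y ^ 2 + q.2.2.2

/-- the polynomial `fq q x (N - x)` -/
noncomputable def pq (N : ℤ) (q : ℤ × ℤ × ℤ × ℤ) : ℤ[X] :=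
  C (q.1 - q.2.1 + q.2.2.1) * X ^ 2 + C ((q.2.1 - 2 * q.2.2.1) * N) * X + C (q.2.2.1 * N ^ 2 + q.2.2.2)

theorem pq_eval (N : ℤ) (q : ℤ × ℤ × ℤ × ℤ) (x : ℤ) : (pq N q).eval x = fq q x (N - x) := by
  unfold pq fq
  simp only [Polynomial.eval_add, Polynomial.eval_mul, Polynomial.eval_C, Polynomial.eval_pow, Polynomial.eval_X]
  ring

theorem quad_coeff (a b c : ℤ) : (C a * X ^ 2 + C b * X + C c : ℤ[X]).coeff 0 = c ∧
    (C a * X ^ 2 + C b * X + C c : ℤ[X]).coeff 1 = b ∧ (C a * X ^ 2 + C b * X + C c : ℤ[X]).coeff 2 = a := by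
  refine ⟨?_, ?_, ?_⟩ <;>
  · rw [Polynomial.coeff_add, Polynomial.coeff_add, Polynomial.coeff_C_mul, Polynomial.coeff_C_mul,
      Polynomial.coeff_X_pow, Polynomial.coeff_X, Polynomial.coeff_C]
    norm_num

/-- the number of zeros of `x (N - x) ∏ q(x, N - x)` -/
def omG (N : ℕ) (S : Finset (ℤ × ℤ × ℤ × ℤ)) (p : ℕ) : ℕ :=
  ((range p).filter fun x : ℕ => (p : ℤ) ∣ (x : ℤ) * ((N : ℤ) - x) * ∏ q ∈ S, fq q x ((N : ℤ) - x)).card

/-- the local factors at the primes in `(z, N]` -/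
noncomputable def VG (N : ℕ) (S : Finset (ℤ × ℤ × ℤ × ℤ)) (z : ℕ) : ℝ :=
  ∏ p ∈ (Ioc z N).filter Nat.Prime, (1 - (omG N S p : ℝ) / p)

open Classical in
/-- the good arguments -/
noncomputable def GG (N : ℕ) (S T : Finset (ℤ × ℤ × ℤ × ℤ)) (z G t A B : ℕ) : Finset ℕ :=
  (Ioc A B).filter (fun m : ℕ => m.Prime ∧ Almost 2 ((N : ℝ) ^ (1 / 9 : ℝ)) ((N : ℤ) - m) ∧
    Almost t ((N : ℝ) ^ (1 / (t : ℝ))) (m : ℤ) ∧ Almost t ((N : ℝ) ^ (1 / (t : ℝ))) ((N : ℤ) - m) ∧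
    (∀ q ∈ T, Almost (2 * t) ((N : ℝ) ^ (1 / (t : ℝ))) (fq q m ((N : ℤ) - m))) ∧
    ∀ q ∈ S, Near z G (2 * t) ((N : ℝ) ^ (1 / (t : ℝ))) (fq q m ((N : ℤ) - m)))

/-- the local condition -/
def AdmG (N : ℕ) (T : Finset (ℤ × ℤ × ℤ × ℤ)) : Prop :=
  ∀ p : ℕ, p.Prime → ∃ x : ℤ, ¬ (p : ℤ) ∣ x * ((N : ℤ) - x) * ∏ q ∈ T, fq q x ((N : ℤ) - x)

theorem admG_even (N : ℕ) (hN : Even N) : AdmG N ∅ := by
  intro p hp
  have hpi := Nat.prime_iff_prime_int.1 hp
  simp only [prod_empty, mul_one]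
  have h1 : ¬ (p : ℤ) ∣ 1 := fun h => hpi.not_isUnit (isUnit_of_dvd_one h)
  by_cases h2 : p = 2
  · refine ⟨1, fun h => ?_⟩
    rw [one_mul, h2] at h
    obtain ⟨k, hk⟩ := hN
    omega
  by_cases h3 : (p : ℤ) ∣ (N : ℤ) - 1
  · refine ⟨2, fun h => ?_⟩
    have h5 : 2 < p := by
      have := hp.two_le
      omega
    rcases hpi.dvd_or_dvd h with h4 | h4
    · have := Int.le_of_dvd (by norm_num) h4
      omega
    · have := dvd_sub h3 h4
      apply h1
      have e : (N : ℤ) - 1 - ((N : ℤ) - 2) = 1 := by ring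
      rwa [e] at this
  · refine ⟨1, fun h => ?_⟩
    rcases hpi.dvd_or_dvd h with h4 | h4
    · exact h1 h4
    · exact h3 h4

theorem goldQ (k E : ℕ) : ∃ z G t : ℕ, 1 ≤ t ∧ ∃ κ : ℝ, 0 < κ ∧ ∀ (K s ρ : ℕ) (θ δ : ℝ),
    1 ≤ s → 0 < θ → 0 < δ → ∃ c N₀ : ℕ, ∀ N : ℕ, N₀ ≤ N → ∀ (S T : Finset (ℤ × ℤ × ℤ × ℤ)),
      T ⊆ S → S.card ≤ k → (∀ q ∈ S, |q.1| ≤ E ∧ |q.2.1| ≤ E ∧ |q.2.2.1| ≤ E ∧ q.1 - q.2.1 + q.2.2.1 ≠ 0 ∧
        |q.2.2.2| ≤ K * (N : ℤ) ^ 2) → AdmG N T →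
      κ / Real.log N ^ (2 * k + 2) ≤ VG N S z ∧
      ∀ A B : ℕ, B ≤ N → θ * N ≤ (B : ℝ) - A →
        κ * ((B : ℝ) - A) * VG N S z ≤ ((GG N S T z G t A B).card : ℝ) ∧
        ∀ χ : ℕ → Fin ρ, ∃ P : Finset (ℕ × ℕ),
          (∀ τ ∈ P, 1 ≤ τ.2 ∧ (τ.2 : ℝ) ≤ Real.log N ^ c ∧
            ∀ l < s, τ.1 + l * τ.2 ∈ GG N S T z G t A B ∧ χ (τ.1 + l * τ.2) = χ τ.1) ∧
          (P : Set (ℕ × ℕ)).PairwiseDisjoint (apSet s) ∧
          (((GG N S T z G t A B \ P.biUnion (apSet s)).card : ℕ) : ℝ) ≤ δ * ((B : ℝ) - A) * VG N S z := by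
  classical
  obtain ⟨z, G, t, _, ht, κ, hκ, H⟩ := uncQ (2 * k) (3 * E + 1) (by omega)
  refine ⟨z, G, t, ht, κ, hκ, fun K s ρ θ δ hs hθ hδ => ?_⟩
  obtain ⟨c, X₀, h⟩ := H (K + 3 * E + 1) s ρ θ δ hs hθ hδ
  refine ⟨c, max X₀ 1, fun N hN S T hTS hk hS hadm => ?_⟩
  have hX0 : X₀ ≤ N := (le_max_left _ _).trans hN
  have hX1 : 1 ≤ N := (le_max_right _ _).trans hN
  have hNz : (1 : ℤ) ≤ N := by exact_mod_cast hX1
  have hEz : (0 : ℤ) ≤ E := by positivity
  have hKz : (0 : ℤ) ≤ K := by positivity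
  obtain ⟨u, hu⟩ : ∃ u : ℤ[X], u = X := ⟨_, rfl⟩
  obtain ⟨v, hv⟩ : ∃ v : ℤ[X], v = C (-1 : ℤ) * X + C (N : ℤ) := ⟨_, rfl⟩
  have hue : ∀ x : ℤ, u.eval x = x := fun x => by rw [hu, Polynomial.eval_X]
  have hve : ∀ x : ℤ, v.eval x = (N : ℤ) - x := fun x => by
    rw [hv, Polynomial.eval_add, Polynomial.eval_mul, Polynomial.eval_C, Polynomial.eval_X, Polynomial.eval_C]
    ring
  have hv1 : v.coeff 1 = -1 := by
    rw [hv, Polynomial.coeff_add, Polynomial.coeff_C_mul, Polynomial.coeff_X_one, Polynomial.coeff_C]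
    simp
  have hv0 : v.coeff 0 = N := by
    rw [hv, Polynomial.coeff_add, Polynomial.coeff_C_mul, Polynomial.coeff_X_zero, Polynomial.coeff_C_zero]
    simp
  have hu1 : u.coeff 1 = 1 := by rw [hu, Polynomial.coeff_X_one]
  have hu0 : u.coeff 0 = 0 := by rw [hu, Polynomial.coeff_X_zero]
  obtain ⟨Q, hQ⟩ : ∃ Q : Finset ℤ[X], Q = S.image (pq N) := ⟨_, rfl⟩
  obtain ⟨T', hT'⟩ : ∃ T' : Finset ℤ[X], T' = T.image (pq N) := ⟨_, rfl⟩
  have hdegq : ∀ q ∈ S, (pq N q).natDegree = 2 := fun q hq => Polynomial.natDegree_quadratic (hS q hq).2.2.2.1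
  have hdegQ : ∀ f ∈ Q, f.natDegree = 2 := by
    intro f hf
    rw [hQ, mem_image] at hf
    obtain ⟨q, hq, rfl⟩ := hf
    exact hdegq q hq
  have hdvd : ∀ (R : Finset (ℤ × ℤ × ℤ × ℤ)) (p : ℕ), p.Prime → ∀ x : ℤ,
      ((p : ℤ) ∣ u.eval x * v.eval x * ∏ f ∈ R.image (pq N), f.eval x) ↔
        (p : ℤ) ∣ x * ((N : ℤ) - x) * ∏ q ∈ R, fq q x ((N : ℤ) - x) := by
    intro R p hp x
    have hpi := Nat.prime_iff_prime_int.1 hp
    rw [hue, hve, hpi.dvd_mul, hpi.dvd_mul, hpi.dvd_mul, hpi.dvd_mul, hpi.dvd_finsetProd_iff, hpi.dvd_finsetProd_iff]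
    constructor
    · rintro (h1 | ⟨f, hf, h2⟩)
      · exact Or.inl h1
      · right
        rw [mem_image] at hf
        obtain ⟨q, hq, rfl⟩ := hf
        exact ⟨q, hq, by rwa [pq_eval] at h2⟩
    · rintro (h1 | ⟨q, hq, h2⟩)
      · exact Or.inl h1
      · exact Or.inr ⟨_, mem_image_of_mem _ hq, by rwa [pq_eval]⟩
  have h1 := h N hX0 u v Q T'
    { TQ := by rw [hQ, hT']; exact image_subset_image hTS
      du := by rw [hu]; exact Polynomial.natDegree_X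
      dv := by rw [hv]; exact Polynomial.natDegree_linear (by norm_num)
      u1 := by rw [hu1]; simp
      v1 := by rw [hv1]; simp
      u0 := by rw [hu0, abs_zero]; positivity
      v0 := by
        rw [hv0, abs_of_nonneg (by positivity)]
        push_cast
        nlinarith
      det := by
        rw [hv0, hv1, hu0, hu1]
        intro h0
        have : (N : ℤ) = 0 := by linarith
        omega
      deg := fun f hf => by rw [hdegQ f hf]; norm_num
      sum := by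
        rw [sum_congr rfl hdegQ, sum_const, smul_eq_mul]
        have : Q.card ≤ k := by
          rw [hQ]
          exact card_image_le.trans hk
        omega
      lc := by
        intro f hf
        rw [hQ, mem_image] at hf
        obtain ⟨q, hq, rfl⟩ := hf
        obtain ⟨h1, h2, h3, h4, h5⟩ := hS q hq
        unfold pq
        rw [Polynomial.leadingCoeff_quadratic h4]
        have h6 : |q.1 - q.2.1 + q.2.2.1| ≤ 3 * E := by
          rw [abs_le] at h1 h2 h3 ⊢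
          constructor <;> linarith
        rw [Int.abs_eq_natAbs] at h6
        omega
      size := by
        intro f hf n hn
        rw [hQ, mem_image] at hf
        obtain ⟨q, hq, rfl⟩ := hf
        obtain ⟨h1, h2, h3, h4, h5⟩ := hS q hq
        rw [hdegq q hq] at hn ⊢
        obtain ⟨c0, c1, _⟩ := quad_coeff (q.1 - q.2.1 + q.2.2.1) ((q.2.1 - 2 * q.2.2.1) * N)
          (q.2.2.1 * (N : ℤ) ^ 2 + q.2.2.2)
        obtain rfl | rfl : n = 0 ∨ n = 1 := by omega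
        · have : (pq N q).coeff 0 = q.2.2.1 * (N : ℤ) ^ 2 + q.2.2.2 := c0
          rw [this, Nat.sub_zero]
          push_cast
          have e1 : |q.2.2.1 * (N : ℤ) ^ 2| ≤ E * (N : ℤ) ^ 2 := by
            rw [abs_mul, abs_of_nonneg (by positivity : (0 : ℤ) ≤ (N : ℤ) ^ 2)]
            exact mul_le_mul_of_nonneg_right h3 (by positivity)
          have e2 := abs_add_le (q.2.2.1 * (N : ℤ) ^ 2) q.2.2.2
          have e3 : (0 : ℤ) ≤ (N : ℤ) ^ 2 := by positivity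
          nlinarith
        · have : (pq N q).coeff 1 = (q.2.1 - 2 * q.2.2.1) * N := c1
          rw [this, abs_mul, abs_of_nonneg (by positivity : (0 : ℤ) ≤ (N : ℤ))]
          have e1 : |q.2.1 - 2 * q.2.2.1| ≤ 3 * E := by
            rw [abs_le] at h2 h3 ⊢
            constructor <;> linarith
          push_cast
          simp only [pow_one]
          apply mul_le_mul_of_nonneg_right _ (by positivity)
          linarith
      loc := by
        intro p hp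
        obtain ⟨x, hx⟩ := hadm p hp
        refine ⟨x, ?_⟩
        rw [hT', hdvd T p hp]
        exact hx }
  have hV : VQ u v Q z N = VG N S z := by
    unfold VQ VG
    apply prod_congr rfl fun p hp => ?_
    have : omQ u v Q p = omG N S p := by
      unfold omQ omG
      congr 1
      apply filter_congr fun x _ => ?_
      rw [hQ]
      exact hdvd S p (mem_filter.1 hp).2 _
    rw [this]
  have hGG : ∀ A B, GQ u v Q T' z G t N A B = GG N S T z G t A B := by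
    intro A B
    unfold GQ GG
    apply filter_congr fun x _ => ?_
    rw [hue, hve, Int.natAbs_natCast]
    constructor
    · rintro ⟨a1, a2, a3, a4, a5, a6⟩
      refine ⟨a1, a3, a2, a4, fun q hq => ?_, fun q hq => ?_⟩
      · have := a5 (pq N q) (by rw [hT']; exact mem_image_of_mem _ hq)
        rwa [hdegq q (hTS hq), pq_eval, mul_comm t 2] at this
      · have := a6 (pq N q) (by rw [hQ]; exact mem_image_of_mem _ hq)
        rwa [hdegq q hq, pq_eval, mul_comm t 2] at this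
    · rintro ⟨a1, a2, a3, a4, a5, a6⟩
      refine ⟨a1, a3, a2, a4, fun f hf => ?_, fun f hf => ?_⟩
      · rw [hT', mem_image] at hf
        obtain ⟨q, hq, rfl⟩ := hf
        rw [hdegq q (hTS hq), pq_eval, mul_comm t 2]
        exact a5 q hq
      · rw [hQ, mem_image] at hf
        obtain ⟨q, hq, rfl⟩ := hf
        rw [hdegq q hq, pq_eval, mul_comm t 2]
        exact a6 q hq
  rw [hV] at h1
  simp only [hGG] at h1
  exact h1

end Pool.Agent.X32.Uni
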