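import Pool.Agent.X32.Uni.ModZ2
import Pool.Agent.X32.Uni.Pol
import Pool.Agent.X32.Uni.Lin

/-!
Arbitrary systems of linear forms, uniformly: the values are bounded multiples of almost primes.
-/

set_option autoImplicit false

namespace Pool.Agent.X32.Uni

open Finset Filter
open Polynomial (C X)
open scoped Polynomial

variable {k m : ℕ}

theorem sm_one' {z : ℕ} {a : ℤ} (h : ∀ p : ℕ, p.Prime → p ≤ z → ¬ (p : ℤ) ∣ a) : sm z a = 1 := by
  unfold sm
  apply prod_eq_one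
  intro p hp
  rw [mem_filter, mem_range] at hp
  rw [Nat.factorization_eq_zero_of_not_dvd, pow_zero]
  intro hd
  exact h p hp.2 (by omega) (Int.natCast_dvd.2 hd)

/-- the general form of the substitution -/
theorem smooth_sbs' (f : Fin m → ℤ[X]) (n₀ z M : ℕ) (hM1 : 1 ≤ M) (hMp : ∀ p : ℕ, p.Prime → p ∣ M → p ≤ z)
    (hne : ∀ l, (f l).eval (n₀ : ℤ) ≠ 0)
    (hv : ∀ l, ∀ p : ℕ, p.Prime → p ≤ z → p ^ (((f l).eval (n₀ : ℤ)).natAbs.factorization p + 1) ∣ M) :
    ∃ h : Fin m → ℤ[X], Sbs f h (fun l => (sm z ((f l).eval (n₀ : ℤ)) : ℤ)) M n₀ := by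
  classical
  have hdvN : ∀ l, sm z ((f l).eval (n₀ : ℤ)) ∣ M := by
    intro l
    apply prodpow_dvd
    intro p hp hpz
    exact (pow_dvd_pow p (Nat.le_succ _)).trans (hv l p hp hpz)
  choose c hcN using hdvN
  have hc : ∀ l, (M : ℤ) = sm z ((f l).eval (n₀ : ℤ)) * (c l : ℤ) := fun l => by exact_mod_cast hcN l
  have hcp : ∀ l, ∀ p : ℕ, p.Prime → p ≤ z → p ∣ c l := by
    intro l p hp hpz
    have h1 : sm z ((f l).eval (n₀ : ℤ)) * p ∣ M := by
      have h2 : ∏ q ∈ (range (z + 1)).filter Nat.Prime,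
          q ^ (((f l).eval (n₀ : ℤ)).natAbs.factorization q + if q = p then 1 else 0) ∣ M := by
        apply prodpow_dvd (e := fun q => ((f l).eval (n₀ : ℤ)).natAbs.factorization q + if q = p then 1 else 0)
        intro q hq hqz
        refine (pow_dvd_pow q ?_).trans (hv l q hq hqz)
        split_ifs <;> omega
      have h3 : ∏ q ∈ (range (z + 1)).filter Nat.Prime,
          q ^ (((f l).eval (n₀ : ℤ)).natAbs.factorization q + if q = p then 1 else 0) =
          sm z ((f l).eval (n₀ : ℤ)) * p := by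
        unfold sm
        simp only [pow_add, prod_mul_distrib]
        congr 1
        rw [prod_eq_single p]
        · simp
        · intro q _ hqp
          rw [if_neg hqp, pow_zero]
        · intro h
          exact absurd (mem_filter.2 ⟨mem_range.2 (by omega), hp⟩) h
      rwa [h3] at h2
    rw [hcN l] at h1
    exact (Nat.mul_dvd_mul_iff_left (sm_pos _ _)).1 h1
  have hr : ∀ l, ∃ r : ℤ, (f l).eval (n₀ : ℤ) = sm z ((f l).eval (n₀ : ℤ)) * r := fun l => sm_dvd z _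
  choose r hr using hr
  have hk : ∀ l, ∃ k : ℤ[X], (f l).comp (C (M : ℤ) * X + C (n₀ : ℤ)) - C ((f l).eval (n₀ : ℤ)) =
      (C (M : ℤ) * X) * k := by
    intro l
    have h1 := Polynomial.sub_dvd_eval_sub (C (M : ℤ) * X + C (n₀ : ℤ)) (C (n₀ : ℤ)) ((f l).map C)
    rw [add_sub_cancel_right, Polynomial.eval_map, Polynomial.eval_map] at h1
    obtain ⟨k, hk⟩ := h1
    refine ⟨k, ?_⟩
    rw [← hk]
    have h2 : (f l).eval₂ C (C (n₀ : ℤ)) = C ((f l).eval (n₀ : ℤ)) := by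
      rw [Polynomial.eval₂_at_apply]
    rw [h2]
    rfl
  choose k hk using hk
  refine ⟨fun l => C (r l) + C (c l : ℤ) * X * k l, ?_⟩
  refine
    { hM := hM1
      eq := fun l => ?_
      dM := fun l p hp hd => ?_
      nz := fun p hp hpM x hd => ?_ }
  · have h1 := sub_eq_iff_eq_add.1 (hk l)
    rw [h1]
    have h2 : (C (M : ℤ) : ℤ[X]) = C (sm z ((f l).eval (n₀ : ℤ)) : ℤ) * C (c l : ℤ) := by
      rw [← C.map_mul, ← hc]
    have h3 : (C ((f l).eval (n₀ : ℤ)) : ℤ[X]) = C (sm z ((f l).eval (n₀ : ℤ)) : ℤ) * C (r l) := by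
      rw [← C.map_mul, ← hr]
    rw [h2, h3]
    ring
  · have h1 : (p : ℤ) ∣ (M : ℤ) := hd.trans (Dvd.intro _ (hc l).symm)
    exact Int.natCast_dvd_natCast.1 h1
  · obtain ⟨l, _, hl⟩ := (Nat.prime_iff_prime_int.1 hp).exists_mem_finset_dvd hd
    have hpz' : p ≤ z := hMp p hp hpM
    apply sm_not z (hne l) hp hpz' (hr l)
    simp only [Polynomial.eval_add, Polynomial.eval_mul, Polynomial.eval_C, Polynomial.eval_X] at hl
    have h2 : (p : ℤ) ∣ (c l : ℤ) * x * (k l).eval x :=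
      ((Int.natCast_dvd_natCast.2 (hcp l p hp hpz')).mul_right _).mul_right _
    exact (dvd_add_left h2).1 hl

/-- counting zeros -/
theorem loc_count (a b : Fin k → ℤ) {p : ℕ} (hp : p.Prime) (hkp : k < p) (ha : ∀ l, ¬ (p : ℤ) ∣ a l) :
    ∃ x : ℤ, ∀ l, ¬ (p : ℤ) ∣ a l * x + b l := by
  classical
  by_contra hcon
  push Not at hcon
  have hmap : ∀ x : ℕ, ∃ l, (p : ℤ) ∣ a l * x + b l := fun x => hcon x
  choose φ hφ using hmap
  obtain ⟨x, hx, y, hy, hxy, he⟩ := Finset.exists_ne_map_eq_of_card_lt_of_maps_to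
    (s := range p) (t := (univ : Finset (Fin k))) (by rw [card_range]; simpa using hkp) (f := φ)
    (fun x _ => mem_univ _)
  have h1 := hφ x
  have h2 := hφ y
  rw [he] at h1
  have h3 := dvd_sub h1 h2
  have h4 : a (φ y) * (x : ℤ) + b (φ y) - (a (φ y) * (y : ℤ) + b (φ y)) = a (φ y) * ((x : ℤ) - y) := by ring
  rw [h4] at h3
  rcases (Nat.prime_iff_prime_int.1 hp).dvd_or_dvd h3 with h5 | h5
  · exact ha _ h5
  · apply hxy
    have h6 : (y : ℤ) ≡ x [ZMOD p] := Int.modEq_iff_dvd.2 h5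
    exact (Nat.ModEq.eq_of_lt_of_lt (Int.natCast_modEq_iff.1 h6) (mem_range.1 hy) (mem_range.1 hx)).symm

/-- a residue class modulo `p ^ (e + 1)` with the required properties -/
theorem res_p (a b : Fin k → ℤ) (hcop : ∀ l, IsCoprime (a l) (b l)) (I : Finset (Fin k)) {p : ℕ} (hp : p.Prime)
    (hI : ∃ x : ℤ, ∀ l ∈ I, ¬ (p : ℤ) ∣ a l * x + b l) (e : ℕ) (he : k < p ^ e) :
    ∃ y : ℤ, (∀ l ∈ I, ¬ (p : ℤ) ∣ a l * y + b l) ∧ ∀ l, ¬ ((p : ℤ) ^ (e + 1)) ∣ a l * y + b l := by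
  classical
  obtain ⟨x₀, hx₀⟩ := hI
  have hpi := Nat.prime_iff_prime_int.1 hp
  by_contra hcon
  push Not at hcon
  have h0 : ∀ u : ℕ, ∀ l ∈ I, ¬ (p : ℤ) ∣ a l * (x₀ + p * u) + b l := by
    intro u l hl hd
    apply hx₀ l hl
    have h1 : a l * (x₀ + p * u) + b l = (a l * x₀ + b l) + p * (a l * u) := by ring
    rw [h1] at hd
    exact (dvd_add_left (dvd_mul_right _ _)).1 hd
  have hmap : ∀ u : ℕ, ∃ l, ((p : ℤ) ^ (e + 1)) ∣ a l * (x₀ + p * u) + b l := fun u => hcon _ (h0 u)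
  choose φ hφ using hmap
  obtain ⟨x, hx, y, hy, hxy, heq⟩ := Finset.exists_ne_map_eq_of_card_lt_of_maps_to
    (s := range (p ^ e)) (t := (univ : Finset (Fin k))) (by rw [card_range]; simpa using he) (f := φ)
    (fun x _ => mem_univ _)
  have h1 := hφ x
  have h2 := hφ y
  rw [heq] at h1
  have hpa : ¬ (p : ℤ) ∣ a (φ y) := by
    intro hd
    have h3 : (p : ℤ) ∣ a (φ y) * (x₀ + p * y) + b (φ y) := (dvd_pow_self _ (by omega)).trans h2
    have h4 : (p : ℤ) ∣ b (φ y) := (dvd_add_right (hd.mul_right _)).1 h3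
    exact hpi.not_isUnit ((hcop _).isUnit_of_dvd' hd h4)
  have h3 := dvd_sub h1 h2
  have h4 : a (φ y) * (x₀ + p * (x : ℤ)) + b (φ y) - (a (φ y) * (x₀ + p * (y : ℤ)) + b (φ y)) =
      p * (a (φ y) * ((x : ℤ) - y)) := by ring
  rw [h4, pow_succ, mul_comm ((p : ℤ) ^ e)] at h3
  have h5 : (p : ℤ) ^ e ∣ a (φ y) * ((x : ℤ) - y) := (mul_dvd_mul_iff_left hpi.ne_zero).1 h3
  have hc : IsCoprime ((p : ℤ) ^ e) (a (φ y)) := ((hpi.coprime_iff_not_dvd).2 hpa).pow_left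
  have h6 : (p : ℤ) ^ e ∣ (x : ℤ) - y := hc.dvd_of_dvd_mul_left h5
  apply hxy
  have h7 : (y : ℤ) ≡ x [ZMOD ((p ^ e : ℕ) : ℤ)] := Int.modEq_iff_dvd.2 (by exact_mod_cast h6)
  exact (Nat.ModEq.eq_of_lt_of_lt (Int.natCast_modEq_iff.1 h7) (mem_range.1 hy) (mem_range.1 hx)).symm

/-- the modulus -/
def Mze (z e : ℕ) : ℕ := ∏ p ∈ (range (z + 1)).filter Nat.Prime, p ^ e

theorem Mze_pos (z e : ℕ) : 1 ≤ Mze z e := by
  unfold Mze
  exact Nat.one_le_iff_ne_zero.2 (prod_ne_zero_iff.2 fun p hp => pow_ne_zero _ (mem_filter.1 hp).2.ne_zero)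

theorem Mze_dvd {z e p : ℕ} (hp : p.Prime) (hpz : p ≤ z) : p ^ e ∣ Mze z e :=
  dvd_prod_of_mem (fun p => p ^ e) (mem_filter.2 ⟨mem_range.2 (by omega), hp⟩)

theorem Mze_prime {z e p : ℕ} (hp : p.Prime) (h : p ∣ Mze z e) : p ≤ z := by
  unfold Mze at h
  obtain ⟨q, hq, hd⟩ := (Nat.prime_iff.1 hp).exists_mem_finset_dvd h
  rw [mem_filter, mem_range] at hq
  have h1 := hp.dvd_of_dvd_pow hd
  rw [(Nat.prime_dvd_prime_iff_eq hp hq.2).1 h1]
  omega

/-- the residue class -/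
theorem res_all (a b : Fin k → ℤ) (hcop : ∀ l, IsCoprime (a l) (b l)) (I : Finset (Fin k))
    (hI : ∀ p : ℕ, p.Prime → ∃ x : ℤ, ∀ l ∈ I, ¬ (p : ℤ) ∣ a l * x + b l) (z : ℕ) :
    ∃ r : ℕ, r ≤ Mze z (k + 1) ∧ ∀ p : ℕ, p.Prime → p ≤ z → (∀ l ∈ I, ¬ (p : ℤ) ∣ a l * r + b l) ∧
      ∀ l, ¬ ((p : ℤ) ^ (k + 1)) ∣ a l * r + b l := by
  classical
  have h1 : ∀ p : ℕ, ∃ y : ℕ, p.Prime → (∀ l ∈ I, ¬ (p : ℤ) ∣ a l * y + b l) ∧
      ∀ l, ¬ ((p : ℤ) ^ (k + 1)) ∣ a l * y + b l := by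
    intro p
    by_cases hp : p.Prime
    · obtain ⟨y, hy1, hy2⟩ := res_p a b hcop I hp (hI p hp) k ((Nat.lt_pow_self hp.one_lt))
      have hpos : (0 : ℤ) < (p : ℤ) ^ (k + 1) := by
        have : (0 : ℤ) < p := by exact_mod_cast hp.pos
        positivity
      refine ⟨(y % (p : ℤ) ^ (k + 1)).toNat, fun _ => ?_⟩
      rw [Int.toNat_of_nonneg (Int.emod_nonneg _ hpos.ne')]
      have h2 : y % (p : ℤ) ^ (k + 1) ≡ y [ZMOD (p : ℤ) ^ (k + 1)] := Int.mod_modEq _ _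
      have h3 : ∀ l, a l * (y % (p : ℤ) ^ (k + 1)) + b l ≡ a l * y + b l [ZMOD (p : ℤ) ^ (k + 1)] := fun l =>
        (h2.mul_left _).add_right _
      have h4 : ∀ l, a l * (y % (p : ℤ) ^ (k + 1)) + b l ≡ a l * y + b l [ZMOD (p : ℤ)] := fun l =>
        Int.ModEq.of_dvd (dvd_pow_self _ (by omega)) (h3 l)
      exact ⟨fun l hl hd => hy1 l hl (((h4 l).dvd_iff).1 hd), fun l hd => hy2 l (((h3 l).dvd_iff).1 hd)⟩
    · exact ⟨0, fun h => absurd h hp⟩
  choose y hy using h1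
  obtain ⟨r, hr⟩ := Nat.chineseRemainderOfFinset (fun p => y p) (fun p => p ^ (k + 1)) ((range (z + 1)).filter Nat.Prime)
    (fun p hp => pow_ne_zero _ (mem_filter.1 hp).2.ne_zero) (by
      intro p hp q hq hpq
      rw [mem_coe, mem_filter] at hp hq
      exact Nat.Coprime.pow _ _ ((Nat.coprime_primes hp.2 hq.2).2 hpq))
  refine ⟨r % Mze z (k + 1), (Nat.mod_lt _ (Mze_pos _ _)).le, fun p hp hpz => ?_⟩
  have h2 : r % Mze z (k + 1) ≡ y p [MOD p ^ (k + 1)] :=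
    ((Nat.mod_modEq r _).of_dvd (Mze_dvd hp hpz)).trans (hr p (mem_filter.2 ⟨mem_range.2 (by omega), hp⟩))
  have h3 : ((r % Mze z (k + 1) : ℕ) : ℤ) ≡ (y p : ℤ) [ZMOD (p : ℤ) ^ (k + 1)] := by
    have := Int.natCast_modEq_iff.2 h2
    push_cast at this ⊢
    exact this
  obtain ⟨h4, h5⟩ := hy p hp
  have h6 : ∀ l, a l * ((r % Mze z (k + 1) : ℕ) : ℤ) + b l ≡ a l * (y p : ℤ) + b l [ZMOD (p : ℤ) ^ (k + 1)] := fun l =>
    (h3.mul_left _).add_right _
  have h7 : ∀ l, a l * ((r % Mze z (k + 1) : ℕ) : ℤ) + b l ≡ a l * (y p : ℤ) + b l [ZMOD (p : ℤ)] := fun l =>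
    Int.ModEq.of_dvd (dvd_pow_self _ (by omega)) (h6 l)
  exact ⟨fun l hl hd => h4 l hl (((h7 l).dvd_iff).1 hd), fun l hd => h5 l (((h6 l).dvd_iff).1 hd)⟩

/-- the hypotheses: no local condition except for the members of `I` -/
structure SysN (k E K X : ℕ) (a b : Fin k → ℤ) (I : Finset (Fin k)) (i j : Fin k) : Prop where
  a0 : ∀ l, a l ≠ 0
  aE : ∀ l, (a l).natAbs ≤ E
  bK : ∀ l, |b l| ≤ K * (X : ℤ)
  cop : ∀ l, IsCoprime (a l) (b l)
  loc : ∀ p : ℕ, p.Prime → ∃ x : ℤ, ∀ l ∈ I, ¬ (p : ℤ) ∣ a l * x + b l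
  det : a i * b j ≠ a j * b i
  iI : i ∈ I
  jI : j ∈ I

/-- `v` is `g ≥ 1` times a product of at most `t` primes `> y`, where `g ≤ G` has only prime factors `≤ z` -/
def Near (z G t : ℕ) (y : ℝ) (v : ℤ) : Prop :=
  ∃ (g : ℕ) (w : ℤ), v = g * w ∧ 1 ≤ g ∧ g ≤ G ∧ (∀ p : ℕ, p.Prime → p ∣ g → p ≤ z) ∧ Almost t y w

open Classical in
/-- the good arguments -/
noncomputable def GN' (a b : Fin k → ℤ) (I : Finset (Fin k)) (i j : Fin k) (z G t X A B : ℕ) : Finset ℕ :=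
  (Ioc A B).filter (fun x : ℕ => (a i * (x : ℤ) + b i).natAbs.Prime ∧
    Almost 2 ((X : ℝ) ^ (1 / 9 : ℝ)) (a j * (x : ℤ) + b j) ∧
    (∀ l ∈ I, Almost t ((X : ℝ) ^ (1 / (t : ℝ))) (a l * (x : ℤ) + b l)) ∧
    ∀ l, Near z G t ((X : ℝ) ^ (1 / (t : ℝ))) (a l * (x : ℤ) + b l))

theorem VM_Mze (f : Fin m → ℤ[X]) (z e n : ℕ) (he : 1 ≤ e) : VM f (Mze z e) n = VZ f z n := by
  unfold VM VZ
  apply prod_congr _ fun _ _ => rfl
  ext p
  rw [mem_filter, mem_filter, mem_Icc, mem_Ioc]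
  constructor
  · rintro ⟨⟨a, b⟩, c, d⟩
    refine ⟨⟨?_, b⟩, c⟩
    by_contra hcon
    exact d ((dvd_pow_self p (by omega)).trans (Mze_dvd c (not_lt.1 hcon)))
  · rintro ⟨⟨a, b⟩, c⟩
    refine ⟨⟨c.one_lt.le, b⟩, c, fun d => ?_⟩
    have := Mze_prime c d
    omega

theorem sm_smooth (z : ℕ) (a : ℤ) {p : ℕ} (hp : p.Prime) (h : p ∣ sm z a) : p ≤ z := by
  unfold sm at h
  obtain ⟨q, hq, hd⟩ := (Nat.prime_iff.1 hp).exists_mem_finset_dvd h
  rw [mem_filter, mem_range] at hq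
  have h1 := hp.dvd_of_dvd_pow hd
  rw [(Nat.prime_dvd_prime_iff_eq hp hq.2).1 h1]
  omega

/-- the substituted system -/
theorem SysN.sub {E K X : ℕ} {a b : Fin k → ℤ} {I : Finset (Fin k)} {i j : Fin k} (S : SysN k E K X a b I i j)
    (hX : 1 ≤ X) (z : ℕ) (hz : max k E ≤ z) (hz2 : 2 ≤ z) :
    ∃ (r : ℕ) (h : Fin k → ℤ[X]), r ≤ Mze z (k + 1) ∧
      Sbs (lf a b) h (fun l => (sm z (a l * (r : ℤ) + b l) : ℤ)) (Mze z (k + 1)) r ∧
      (∀ l ∈ I, sm z (a l * (r : ℤ) + b l) = 1) ∧ (∀ l, sm z (a l * (r : ℤ) + b l) ≤ Mze z (k + 1)) ∧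
      Sys k (E * Mze z (k + 1)) (2 * E * Mze z (k + 1) + K) X h i j := by
  classical
  obtain ⟨M, hM⟩ : ∃ M : ℕ, M = Mze z (k + 1) := ⟨_, rfl⟩
  have hM1 : 1 ≤ M := by rw [hM]; exact Mze_pos _ _
  obtain ⟨r, hr, hrp⟩ := res_all a b S.cop I S.loc z
  have hne : ∀ l, a l * (r : ℤ) + b l ≠ 0 := by
    intro l h0
    apply (hrp 2 Nat.prime_two hz2).2 l
    rw [h0]
    exact dvd_zero _
  have hvp : ∀ l, ∀ p : ℕ, p.Prime → p ≤ z → (a l * (r : ℤ) + b l).natAbs.factorization p ≤ k := by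
    intro l p hp hpz
    by_contra hcon
    push Not at hcon
    apply (hrp p hp hpz).2 l
    have h1 : p ^ (k + 1) ∣ (a l * (r : ℤ) + b l).natAbs :=
      (pow_dvd_pow p hcon).trans (Nat.ordProj_dvd _ _)
    have h2 := Int.natCast_dvd.2 h1
    push_cast at h2
    exact h2
  have hsmM : ∀ l, sm z (a l * (r : ℤ) + b l) ∣ M := by
    intro l
    apply prodpow_dvd
    intro p hp hpz
    rw [hM]
    exact (pow_dvd_pow p ((hvp l p hp hpz).trans (Nat.le_succ _))).trans (Mze_dvd hp hpz)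
  have hMp : ∀ p : ℕ, p.Prime → p ∣ M → p ≤ z := fun p hp hd => Mze_prime hp (by rw [← hM]; exact hd)
  obtain ⟨h, S'⟩ := smooth_sbs' (lf a b) r z M hM1 hMp (fun l => by rw [lf_eval]; exact hne l) (fun l p hp hpz => by
      rw [lf_eval, hM]
      exact (pow_dvd_pow p (Nat.succ_le_succ (hvp l p hp hpz))).trans (Mze_dvd hp hpz))
  simp only [lf_eval] at S'
  rw [← hM] at hr ⊢
  refine ⟨r, h, hr, S', fun l hl => sm_one' fun p hp hpz => (hrp p hp hpz).1 l hl,
    fun l => Nat.le_of_dvd hM1 (hsmM l), ?_⟩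
  have hdeg : ∀ l, (h l).natDegree = 1 := fun l => by rw [S'.deg, lf_deg a b l (S.a0 l)]
  have hMz : (1 : ℤ) ≤ M := by exact_mod_cast hM1
  have hXz : (1 : ℤ) ≤ X := by exact_mod_cast hX
  have hrz : (r : ℤ) ≤ M := by exact_mod_cast hr
  have hr0 : (0 : ℤ) ≤ r := by positivity
  have haE : ∀ l, |a l| ≤ E := by
    intro l
    rw [Int.abs_eq_natAbs]
    exact_mod_cast S.aE l
  have hE0 : (0 : ℤ) ≤ E := by positivity
  have hev : ∀ l (x : ℤ), (sm z (a l * (r : ℤ) + b l) : ℤ) * (h l).eval x = a l * (M * x + r) + b l := by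
    intro l x
    have := S'.eval l x
    rwa [lf_eval] at this
  have hsm1 : ∀ l, (1 : ℤ) ≤ (sm z (a l * (r : ℤ) + b l) : ℤ) := fun l => by exact_mod_cast sm_pos _ _
  have hcoef : ∀ l, ((h l).coeff 1).natAbs ≤ E * M := by
    intro l
    have h1 := hev l 1
    have h0 := hev l 0
    rw [eval_lin (hdeg l)] at h1 h0
    have h2 : (sm z (a l * (r : ℤ) + b l) : ℤ) * (h l).coeff 1 = a l * M := by linear_combination h1 - h0
    have h3 : |(h l).coeff 1| ≤ |a l * M| := by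
      rw [← h2, abs_mul, abs_of_nonneg (by linarith [hsm1 l] : (0 : ℤ) ≤ (sm z (a l * (r : ℤ) + b l) : ℤ))]
      exact le_mul_of_one_le_left (abs_nonneg _) (hsm1 l)
    have h4 : |a l * (M : ℤ)| ≤ E * M := by
      rw [abs_mul, abs_of_nonneg (by linarith : (0 : ℤ) ≤ M)]
      exact mul_le_mul_of_nonneg_right (haE l) (by linarith)
    have h5 := h3.trans h4
    rw [Int.abs_eq_natAbs] at h5
    exact_mod_cast h5
  exact
    { deg := fun l => (hdeg l).ge
      sum := by simp [hdeg]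
      loc := by
        apply S'.loc
        intro p hp hpM
        have hzp : z < p := by
          by_contra hcon
          apply hpM
          rw [hM]
          exact (dvd_pow_self p (by omega)).trans (Mze_dvd hp (not_lt.1 hcon))
        obtain ⟨x, hx⟩ := loc_count a b hp (lt_of_le_of_lt ((le_max_left _ _).trans hz) hzp) (fun l hd => by
          have h1 := Nat.le_of_dvd (Int.natAbs_pos.2 (S.a0 l)) (Int.natCast_dvd.1 hd)
          have h2 := S.aE l
          have h3 := (le_max_right k E).trans hz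
          omega)
        refine ⟨x, fun hd => ?_⟩
        obtain ⟨l, _, hl⟩ := (Nat.prime_iff_prime_int.1 hp).exists_mem_finset_dvd hd
        rw [lf_eval] at hl
        exact hx l hl
      size := fun l x hx0 hxX => by
        rw [hdeg, pow_one]
        have h1 := hev l x
        have h2 : |(h l).eval x| ≤ |a l * (M * x + r) + b l| := by
          rw [← h1, abs_mul, abs_of_nonneg (by linarith [hsm1 l] : (0 : ℤ) ≤ (sm z (a l * (r : ℤ) + b l) : ℤ))]
          exact le_mul_of_one_le_left (abs_nonneg _) (hsm1 l)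
        have h3 : |a l * (M * x + r)| ≤ E * (2 * M * X) := by
          rw [abs_mul]
          apply mul_le_mul (haE l) _ (abs_nonneg _) hE0
          rw [abs_of_nonneg (by positivity)]
          nlinarith
        have h4 := abs_add_le (a l * (M * x + r)) (b l)
        have h5 := S.bK l
        push_cast
        calc |(h l).eval x| ≤ |a l * (M * x + r) + b l| := h2
          _ ≤ E * (2 * M * X) + K * X := by linarith
          _ = (2 * E * M + K) * X := by ring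
      di := hdeg i
      dj := hdeg j
      ei := hcoef i
      ej := hcoef j
      ne := by
        have := S'.ne (i := i) (j := j) (by rw [lf_coeff1, lf_coeff1, lf_coeff0, lf_coeff0]; exact S.det) 1
        rwa [Polynomial.C_1, one_mul] at this
      ne' := by
        have := S'.ne (i := i) (j := j) (by rw [lf_coeff1, lf_coeff1, lf_coeff0, lf_coeff0]; exact S.det) (-1)
        rwa [Polynomial.C_neg, Polynomial.C_1, neg_one_mul] at this }

theorem uncU (k E : ℕ) (hk : 1 ≤ k) : ∃ z G t : ℕ, 1 ≤ t ∧ ∃ κ : ℝ, 0 < κ ∧ ∀ (K s ρ : ℕ) (θ δ : ℝ),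
    1 ≤ s → 0 < θ → 0 < δ → ∃ c X₀ : ℕ, ∀ X : ℕ, X₀ ≤ X → ∀ (a b : Fin k → ℤ) (I : Finset (Fin k)) (i j : Fin k),
      SysN k E K X a b I i j → κ / Real.log X ^ k ≤ VZ (lf a b) z X ∧
      ∀ A B : ℕ, B ≤ X → θ * X ≤ (B : ℝ) - A →
        κ * ((B : ℝ) - A) * VZ (lf a b) z X ≤ ((GN' a b I i j z G t X A B).card : ℝ) ∧
        ∀ χ : ℕ → Fin ρ, ∃ P : Finset (ℕ × ℕ),
          (∀ τ ∈ P, 1 ≤ τ.2 ∧ (τ.2 : ℝ) ≤ Real.log X ^ c ∧
            ∀ l < s, τ.1 + l * τ.2 ∈ GN' a b I i j z G t X A B ∧ χ (τ.1 + l * τ.2) = χ τ.1) ∧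
          (P : Set (ℕ × ℕ)).PairwiseDisjoint (apSet s) ∧
          (((GN' a b I i j z G t X A B \ P.biUnion (apSet s)).card : ℕ) : ℝ) ≤
            δ * ((B : ℝ) - A) * VZ (lf a b) z X := by
  classical
  obtain ⟨z, hz⟩ : ∃ z : ℕ, z = max (max k E) 2 := ⟨_, rfl⟩
  have hz1 : max k E ≤ z := by rw [hz]; exact le_max_left _ _
  have hz2 : 2 ≤ z := by rw [hz]; exact le_max_right _ _
  obtain ⟨M, hM⟩ : ∃ M : ℕ, M = Mze z (k + 1) := ⟨_, rfl⟩
  have hM1 : 1 ≤ M := by rw [hM]; exact Mze_pos _ _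
  have hM0 : (0 : ℝ) < M := by exact_mod_cast hM1
  obtain ⟨t, ht, κ, hκ, H⟩ := mainU k (E * M) hk
  refine ⟨z, M, t, ht, κ / (2 * M), by positivity, fun K s ρ θ δ hs hθ hδ => ?_⟩
  obtain ⟨X₁, h1⟩ := H (θ / (2 * M)) (by positivity) (2 * E * M + K)
  obtain ⟨N₁, hN₁⟩ := exists_nat_gt ((4 * M + 2 * M) / θ)
  obtain ⟨c, X₂, h2⟩ := prog_z k t z ht s (1 / 2) (δ / (ρ + 1)) (by norm_num) (by positivity)
  obtain ⟨X₃, h3⟩ := eventually_atTop.1 (long_short θ hθ)
  refine ⟨c, max (max X₁ (max N₁ 3)) (max X₂ X₃), fun X hX a b I i j S => ?_⟩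
  have hX1 : X₁ ≤ X := (le_max_left _ _).trans ((le_max_left _ _).trans hX)
  have hXN : N₁ ≤ X := (le_max_left _ _).trans ((le_max_right _ _).trans ((le_max_left _ _).trans hX))
  have hX3 : 3 ≤ X := (le_max_right _ _).trans ((le_max_right _ _).trans ((le_max_left _ _).trans hX))
  have hX2 : X₂ ≤ X := (le_max_left _ _).trans ((le_max_right _ _).trans hX)
  have hX3' : X₃ ≤ X := (le_max_right _ _).trans ((le_max_right _ _).trans hX)
  have hX0 : (0 : ℝ) < X := by exact_mod_cast (by omega : 0 < X)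
  have hlog : 0 < Real.log X := Real.log_pos (by exact_mod_cast (by omega : 1 < X))
  obtain ⟨r, h, hr, S', hI, hg, HS⟩ := S.sub (by omega) z hz1 hz2
  rw [← hM] at hr S' hg HS
  have hVZ : V h X = VZ (lf a b) z X := by rw [S'.V_eq, hM, VM_Mze _ _ _ _ (by omega)]
  obtain ⟨hVl, hcnt⟩ := h1 X hX1 k h i j HS
  rw [hVZ] at hVl hcnt
  have hV0 : 0 < VZ (lf a b) z X := lt_of_lt_of_le (by positivity) hVl
  have hdeg : ∀ l, (h l).natDegree = 1 := fun l => by rw [S'.deg, lf_deg a b l (S.a0 l)]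
  refine ⟨le_trans ?_ hVl, fun A B hB hAB => ?_⟩
  · apply div_le_div_of_nonneg_right _ (by positivity)
    rw [div_le_iff₀ (by positivity)]
    have : (1 : ℝ) ≤ M := by exact_mod_cast hM1
    nlinarith
  have hBA0 : 0 < (B : ℝ) - A := lt_of_lt_of_le (by positivity) hAB
  constructor
  · have hsize : 4 * (M : ℝ) + 2 * r ≤ θ * X := by
      have h4 : (4 * M + 2 * M) / θ ≤ X := by
        have : (N₁ : ℝ) ≤ X := by exact_mod_cast hXN
        linarith
      have h5 := (div_le_iff₀ hθ).1 h4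
      have h6 : (r : ℝ) ≤ M := by exact_mod_cast hr
      linarith
    obtain ⟨A', B', hB'B, hlen, hcard⟩ := transfer hM1 (fun A' B' => GoodX h i j t X A' B')
      (fun A B => GN' a b I i j z M t X A B) (fun A' B' => filter_subset _ _) (by
        intro A' B' A B y hy hA hB
        unfold GoodX at hy
        rw [mem_filter] at hy
        obtain ⟨_, y3, y4, y5⟩ := hy
        unfold GN'
        rw [mem_filter, mem_Ioc]
        have hev : ∀ l, a l * (((M * y + r : ℕ)) : ℤ) + b l = (sm z (a l * (r : ℤ) + b l) : ℤ) * (h l).eval (y : ℤ) := by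
          intro l
          rw [S'.eval, lf_eval]
          push_cast
          rfl
        have hy5 : ∀ l, Almost t ((X : ℝ) ^ (1 / (t : ℝ))) ((h l).eval (y : ℤ)) := fun l => by
          have := y5 l
          rwa [hdeg, mul_one] at this
        have hevI : ∀ l ∈ I, a l * (((M * y + r : ℕ)) : ℤ) + b l = (h l).eval (y : ℤ) := by
          intro l hl
          rw [hev, hI l hl]
          simp
        refine ⟨⟨hA, hB⟩, ?_, ?_, fun l hl => ?_, fun l => ?_⟩
        · rw [hevI i S.iI]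
          exact y3
        · rw [hevI j S.jI]
          exact y4
        · rw [hevI l hl]
          exact hy5 l
        · exact ⟨sm z (a l * (r : ℤ) + b l), (h l).eval (y : ℤ), hev l, sm_pos _ _, hg l,
            fun p hp hd => sm_smooth z _ hp hd, hy5 l⟩) A B (hsize.trans hAB)
    have hθ' : θ / (2 * M) * X ≤ (B' : ℝ) - A' := by
      refine le_trans ?_ hlen
      rw [div_mul_eq_mul_div]
      exact div_le_div_of_nonneg_right hAB (by positivity)
    have h4 := hcnt A' B' (hB'B.trans hB) hθ'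
    have hcard' : ((GoodX h i j t X A' B').card : ℝ) ≤ (GN' a b I i j z M t X A B).card := by
      exact_mod_cast hcard
    refine le_trans ?_ (h4.trans hcard')
    calc κ / (2 * M) * ((B : ℝ) - A) * VZ (lf a b) z X = κ * (((B : ℝ) - A) / (2 * M)) * VZ (lf a b) z X := by
          field_simp
      _ ≤ κ * ((B' : ℝ) - A') * VZ (lf a b) z X := by
          apply mul_le_mul_of_nonneg_right _ hV0.le
          exact mul_le_mul_of_nonneg_left hlen hκ.le
  · intro χ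
    have hlz : ∀ p : ℕ, p.Prime → z < p → ∃ x : ℤ, ¬ (p : ℤ) ∣ ∏ l, (lf a b l).eval x := by
      intro p hp hzp
      obtain ⟨x, hx⟩ := loc_count a b hp (lt_of_le_of_lt ((le_max_left _ _).trans hz1) hzp) (fun l hd => by
        have h1 := Nat.le_of_dvd (Int.natAbs_pos.2 (S.a0 l)) (Int.natCast_dvd.1 hd)
        have h2 := S.aE l
        have h3 := (le_max_right k E).trans hz1
        omega)
      refine ⟨x, fun hd => ?_⟩
      obtain ⟨l, _, hl⟩ := (Nat.prime_iff_prime_int.1 hp).exists_mem_finset_dvd hd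
      rw [lf_eval] at hl
      exact hx l hl
    have hsum : ∑ l, (lf a b l).natDegree ≤ k := by
      simp [fun l => lf_deg a b l (S.a0 l)]
    obtain ⟨P, p1, p2, p3⟩ := part_col s ρ hs (Real.log X ^ c) (δ / (ρ + 1) * ((B : ℝ) - A) * VZ (lf a b) z X)
      (by positivity) (GN' a b I i j z M t X A B) (by
        intro T' hT' hTc
        refine h2 X hX2 k (lf a b) hsum hlz A B hB ((h3 X hX3').trans hAB) T' (hT'.trans (filter_subset _ _)) ?_ hTc
        intro x hx l q hq hzq hd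
        have hx' := hT' hx
        unfold GN' at hx'
        rw [mem_filter] at hx'
        obtain ⟨g, w, e1, _, _, e4, e5⟩ := hx'.2.2.2.2 l
        rw [lf_eval, e1] at hd
        rcases (Nat.prime_iff_prime_int.1 hq).dvd_or_dvd hd with h6 | h6
        · exact absurd (e4 q hq (Int.natCast_dvd_natCast.1 h6)) (by omega)
        · exact e5.2.2 q hq h6) χ
    refine ⟨P, p1, p2, p3.le.trans ?_⟩
    have h6 : (ρ : ℝ) * (δ / (ρ + 1) * ((B : ℝ) - A) * VZ (lf a b) z X) =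
        (ρ / (ρ + 1)) * (δ * ((B : ℝ) - A) * VZ (lf a b) z X) := by
      field_simp
    rw [h6]
    have h7 : (ρ : ℝ) / (ρ + 1) ≤ 1 := by
      rw [div_le_one (by positivity)]
      linarith
    exact mul_le_of_le_one_left (by positivity) h7

end Pool.Agent.X32.Uni
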