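import Pool.Agent.X32.Uni.ShortE

/-!
Arbitrary systems of polynomials with bounded contents and coefficients up to a power of the length, uniformly, without
local conditions: the theorems.
-/

set_option autoImplicit false

namespace Pool.Agent.X32.Uni

open Finset Filter
open Polynomial (C X)
open scoped Polynomial

variable {m : ℕ}

theorem almost_mono {r r' : ℕ} {y y' : ℝ} {v : ℤ} (hr : r ≤ r') (hy : y' ≤ y) (h : Almost r y v) : Almost r' y' v :=
  ⟨h.1, h.2.1.trans hr, fun q hq hd => lt_of_le_of_lt hy (h.2.2 q hq hd)⟩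

theorem root_mono {X t T : ℕ} (hX : 1 ≤ X) (ht : 1 ≤ t) (htT : t ≤ T) :
    (X : ℝ) ^ (1 / (T : ℝ)) ≤ (X : ℝ) ^ (1 / (t : ℝ)) := by
  apply Real.rpow_le_rpow_of_exponent_le (by exact_mod_cast hX)
  have ht0 : (0 : ℝ) < t := by exact_mod_cast ht
  apply one_div_le_one_div_of_le ht0
  exact_mod_cast htT

open Classical in
/-- the good arguments -/
noncomputable def GC (f : Fin m → ℤ[X]) (I : Finset (Fin m)) (i j : Fin m) (z G T X A B : ℕ) : Finset ℕ :=
  (Ioc A B).filter (fun x : ℕ => ((f i).eval (x : ℤ)).natAbs.Prime ∧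
    Almost 2 ((X : ℝ) ^ (1 / 9 : ℝ)) ((f j).eval (x : ℤ)) ∧
    (∀ l ∈ I, Almost T ((X : ℝ) ^ (1 / (T : ℝ))) ((f l).eval (x : ℤ))) ∧
    ∀ l, Near z G T ((X : ℝ) ^ (1 / (T : ℝ))) ((f l).eval (x : ℤ)))

theorem uncC (D E A₀ : ℕ) (hD : 1 ≤ D) (hE : 1 ≤ E) : ∃ z G T : ℕ, 1 ≤ G ∧ 1 ≤ T ∧ ∃ κ : ℝ, 0 < κ ∧
    ∀ (K s ρ : ℕ) (θ δ : ℝ), 1 ≤ s → 0 < θ → 0 < δ → ∃ c X₀ : ℕ, ∀ X : ℕ, X₀ ≤ X →
      ∀ (m : ℕ) (f : Fin m → ℤ[X]) (I : Finset (Fin m)) (i j : Fin m),
      SysC D E A₀ X f I → PairC E K X f I i j → κ / Real.log X ^ D ≤ VZ f z X ∧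
      ∀ A B : ℕ, B ≤ X → θ * X ≤ (B : ℝ) - A →
        κ * ((B : ℝ) - A) * VZ f z X ≤ ((GC f I i j z G T X A B).card : ℝ) ∧
        ∀ χ : ℕ → Fin ρ, ∃ P : Finset (ℕ × ℕ),
          (∀ τ ∈ P, 1 ≤ τ.2 ∧ (τ.2 : ℝ) ≤ Real.log X ^ c ∧
            ∀ l < s, τ.1 + l * τ.2 ∈ GC f I i j z G T X A B ∧ χ (τ.1 + l * τ.2) = χ τ.1) ∧
          (P : Set (ℕ × ℕ)).PairwiseDisjoint (apSet s) ∧
          (((GC f I i j z G T X A B \ P.biUnion (apSet s)).card : ℕ) : ℝ) ≤
            δ * ((B : ℝ) - A) * VZ f z X := by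
  classical
  obtain ⟨z, hz⟩ : ∃ z : ℕ, z = max (max D E) 2 := ⟨_, rfl⟩
  have hz1 : max D E ≤ z := by rw [hz]; exact le_max_left _ _
  have hz2 : 2 ≤ z := by rw [hz]; exact le_max_right _ _
  obtain ⟨e, he⟩ : ∃ e : ℕ, e = E + D * (D + 1) := ⟨_, rfl⟩
  obtain ⟨M, hM⟩ : ∃ M : ℕ, M = Mze z e := ⟨_, rfl⟩
  have hM1 : 1 ≤ M := by rw [hM]; exact Mze_pos _ _
  have hM0 : (0 : ℝ) < M := by exact_mod_cast hM1
  obtain ⟨t, ht, κ, hκ, H⟩ := mainE D (E * M) hD
  obtain ⟨T, hT⟩ : ∃ T : ℕ, T = t * (A₀ + D + 1) := ⟨_, rfl⟩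
  have htT : t ≤ T := by rw [hT]; exact Nat.le_mul_of_pos_right _ (by omega)
  have hT1 : 1 ≤ T := ht.trans htT
  refine ⟨z, M, T, hM1, hT1, κ / (2 * M), by positivity, fun K s ρ θ δ hs hθ hδ => ?_⟩
  obtain ⟨X₁, h1⟩ := H (θ / (2 * M)) (by positivity) ((D + 1) * (2 * M) ^ D + (2 * (E * M) + 2 * K))
  obtain ⟨N₁, hN₁⟩ := exists_nat_gt ((4 * M + 2 * M) / θ)
  obtain ⟨c, X₂, h2⟩ := prog_z D T z hT1 s (1 / 2) (δ / (ρ + 1)) (by norm_num) (by positivity)
  obtain ⟨X₃, h3⟩ := eventually_atTop.1 (long_short θ hθ)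
  refine ⟨c, max (max X₁ (max N₁ 3)) (max X₂ X₃), fun X hX m f I i j S Pr => ?_⟩
  have hX1 : X₁ ≤ X := (le_max_left _ _).trans ((le_max_left _ _).trans hX)
  have hXN : N₁ ≤ X := (le_max_left _ _).trans ((le_max_right _ _).trans ((le_max_left _ _).trans hX))
  have hX3 : 3 ≤ X := (le_max_right _ _).trans ((le_max_right _ _).trans ((le_max_left _ _).trans hX))
  have hX2 : X₂ ≤ X := (le_max_left _ _).trans ((le_max_right _ _).trans hX)
  have hX3' : X₃ ≤ X := (le_max_right _ _).trans ((le_max_right _ _).trans hX)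
  have hX0 : (0 : ℝ) < X := by exact_mod_cast (by omega : 0 < X)
  have hlog : 0 < Real.log X := Real.log_pos (by exact_mod_cast (by omega : 1 < X))
  obtain ⟨r, h, hr, S', hI, hg, hloc, hsz⟩ := S.sub (by omega) hE z hz1 hz2
  rw [← he, ← hM] at hr S' hg hsz
  have hdeg : ∀ l, (h l).natDegree = (f l).natDegree := fun l => S'.deg l
  have hXz : (1 : ℤ) ≤ X := by exact_mod_cast (by omega : 1 ≤ X)
  have hMz : (1 : ℤ) ≤ M := by exact_mod_cast hM1
  have hrz : (r : ℤ) ≤ M := by exact_mod_cast hr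
  have hr0 : (0 : ℤ) ≤ r := by positivity
  have hEz : (0 : ℤ) ≤ E := by positivity
  have hKz : (0 : ℤ) ≤ K := by positivity
  have hsm1 : ∀ l, (1 : ℤ) ≤ (sm z ((f l).eval (r : ℤ)) : ℤ) := fun l => by exact_mod_cast sm_pos _ _
  have hevh : ∀ l (x : ℤ), (sm z ((f l).eval (r : ℤ)) : ℤ) * (h l).eval x = (f l).eval (M * x + r) := fun l x =>
    S'.eval l x
  -- the linear members
  have hcoef : ∀ l, (f l).natDegree = 1 → ((f l).coeff 1).natAbs ≤ E → ((h l).coeff 1).natAbs ≤ E * M := by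
    intro l hl hlE
    have h1 := hevh l 1
    have h0 := hevh l 0
    have hh : (h l).natDegree = 1 := by rw [hdeg, hl]
    rw [eval_lin hh, eval_lin hl (M * 1 + r)] at h1
    rw [eval_lin hh, eval_lin hl (M * 0 + r)] at h0
    have h2 : (sm z ((f l).eval (r : ℤ)) : ℤ) * (h l).coeff 1 = (f l).coeff 1 * M := by linear_combination h1 - h0
    have h3 : |(h l).coeff 1| ≤ |(f l).coeff 1 * M| := by
      rw [← h2, abs_mul, abs_of_nonneg (by linarith [hsm1 l] : (0 : ℤ) ≤ (sm z ((f l).eval (r : ℤ)) : ℤ))]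
      exact le_mul_of_one_le_left (abs_nonneg _) (hsm1 l)
    have h6 : |(f l).coeff 1| ≤ E := by
      rw [Int.abs_eq_natAbs]
      exact_mod_cast hlE
    have h4 : |(f l).coeff 1 * (M : ℤ)| ≤ E * M := by
      rw [abs_mul, abs_of_nonneg (by linarith : (0 : ℤ) ≤ M)]
      exact mul_le_mul_of_nonneg_right h6 (by linarith)
    have h5 := h3.trans h4
    rw [Int.abs_eq_natAbs] at h5
    exact_mod_cast h5
  have hlinsz : ∀ l, (f l).natDegree = 1 → ((f l).coeff 1).natAbs ≤ E → |(f l).coeff 0| ≤ K * (X : ℤ) →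
      ∀ x : ℤ, 0 ≤ x → x ≤ X → |(h l).eval x| ≤ ((2 * (E * M) + 2 * K : ℕ) : ℤ) * X := by
    intro l hl hlE hlK x hx0 hxX
    have h1 := hevh l x
    have h2 : |(h l).eval x| ≤ |(f l).eval (M * x + r)| := by
      rw [← h1, abs_mul, abs_of_nonneg (by linarith [hsm1 l] : (0 : ℤ) ≤ (sm z ((f l).eval (r : ℤ)) : ℤ))]
      exact le_mul_of_one_le_left (abs_nonneg _) (hsm1 l)
    rw [eval_lin hl] at h2
    have h3 := abs_add_le ((f l).coeff 1 * (M * x + r)) ((f l).coeff 0)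
    have h4 : |(f l).coeff 1 * (M * x + r)| ≤ E * (2 * M * X) := by
      rw [abs_mul]
      have h6 : |(f l).coeff 1| ≤ E := by
        rw [Int.abs_eq_natAbs]
        exact_mod_cast hlE
      apply mul_le_mul h6 _ (abs_nonneg _) hEz
      rw [abs_of_nonneg (by positivity)]
      nlinarith
    push_cast
    have h7 : (0 : ℤ) ≤ K * X := by positivity
    calc |(h l).eval x| ≤ E * (2 * M * X) + K * X := by linarith
      _ ≤ (2 * (E * M) + 2 * K) * X := by linarith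
  obtain ⟨ee, hee⟩ : ∃ ee : Fin m → ℕ, ee = fun l => if l = i ∨ l = j then 1 else A₀ + D := ⟨_, rfl⟩
  have heeT : ∀ l, t * ee l ≤ T := by
    intro l
    rw [hee, hT]
    apply Nat.mul_le_mul_left
    simp only
    split_ifs <;> omega
  have HS : SysE D (E * M) ((D + 1) * (2 * M) ^ D + (2 * (E * M) + 2 * K)) X h ee i j :=
    { deg := fun l => by rw [hdeg]; exact S.deg l
      sum := by simp only [hdeg]; exact S.sum
      loc := hloc
      size := by
        intro l x hx0 hxX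
        have hp1 : (0 : ℤ) ≤ ((D + 1) * (2 * M) ^ D : ℕ) := by positivity
        have hp2 : (0 : ℤ) ≤ ((2 * (E * M) + 2 * K : ℕ) : ℤ) := by positivity
        rw [hee]
        simp only
        split_ifs with hl
        · rw [pow_one, Nat.cast_add, add_mul]
          have h9 : |(h l).eval x| ≤ ((2 * (E * M) + 2 * K : ℕ) : ℤ) * X := by
            rcases hl with rfl | rfl
            · exact hlinsz l Pr.di Pr.ei Pr.ci x hx0 hxX
            · exact hlinsz l Pr.dj Pr.ej Pr.cj x hx0 hxX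
          have h10 : (0 : ℤ) ≤ (((D + 1) * (2 * M) ^ D : ℕ) : ℤ) * X := mul_nonneg hp1 (by linarith)
          linarith
        · rw [Nat.cast_add, add_mul]
          have h9 := hsz l x hx0 hxX
          have h10 : (0 : ℤ) ≤ ((2 * (E * M) + 2 * K : ℕ) : ℤ) * (X : ℤ) ^ (A₀ + D) := mul_nonneg hp2 (by positivity)
          linarith
      e_i := by rw [hee]; simp
      e_j := by rw [hee]; simp
      di := by rw [hdeg]; exact Pr.di
      dj := by rw [hdeg]; exact Pr.dj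
      ei := hcoef i Pr.di Pr.ei
      ej := hcoef j Pr.dj Pr.ej
      ne := by
        have := S'.ne (i := i) (j := j) Pr.det 1
        rwa [Polynomial.C_1, one_mul] at this
      ne' := by
        have := S'.ne (i := i) (j := j) Pr.det (-1)
        rwa [Polynomial.C_neg, Polynomial.C_1, neg_one_mul] at this }
  have hVZ : V h X = VZ f z X := by rw [S'.V_eq, hM, VM_Mze _ _ _ _ (by omega)]
  obtain ⟨hVl, hcnt⟩ := h1 X hX1 m h ee i j HS
  rw [hVZ] at hVl hcnt
  have hV0 : 0 < VZ f z X := lt_of_lt_of_le (by positivity) hVl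
  refine ⟨le_trans ?_ hVl, fun A B hB hAB => ?_⟩
  · apply div_le_div_of_nonneg_right _ (by positivity)
    rw [div_le_iff₀ (by positivity)]
    have : (1 : ℝ) ≤ M := by exact_mod_cast hM1
    nlinarith
  have hBA0 : 0 < (B : ℝ) - A := lt_of_lt_of_le (by positivity) hAB
  have hroot := root_mono (X := X) (by omega) ht htT
  constructor
  · have hsize : 4 * (M : ℝ) + 2 * r ≤ θ * X := by
      have h4 : (4 * M + 2 * M) / θ ≤ X := by
        have : (N₁ : ℝ) ≤ X := by exact_mod_cast hXN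
        linarith
      have h5 := (div_le_iff₀ hθ).1 h4
      have h6 : (r : ℝ) ≤ M := by exact_mod_cast hr
      linarith
    obtain ⟨A', B', hB'B, hlen, hcard⟩ := transfer hM1 (fun A' B' => GoodE h ee i j t X A' B')
      (fun A B => GC f I i j z M T X A B) (fun A' B' => filter_subset _ _) (by
        intro A' B' A B y hy hA hB
        unfold GoodE at hy
        rw [mem_filter] at hy
        obtain ⟨_, y3, y4, y5⟩ := hy
        unfold GC
        rw [mem_filter, mem_Ioc]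
        have hev : ∀ l, (f l).eval (((M * y + r : ℕ)) : ℤ) = (sm z ((f l).eval (r : ℤ)) : ℤ) * (h l).eval (y : ℤ) := by
          intro l
          rw [S'.eval]
          push_cast
          rfl
        have hevI : ∀ l ∈ I, (f l).eval (((M * y + r : ℕ)) : ℤ) = (h l).eval (y : ℤ) := by
          intro l hl
          rw [hev, hI l hl]
          simp
        refine ⟨⟨hA, hB⟩, ?_, ?_, fun l hl => ?_, fun l => ?_⟩
        · rw [hevI i Pr.iI]
          exact y3
        · rw [hevI j Pr.jI]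
          exact y4
        · rw [hevI l hl]
          exact almost_mono (heeT l) hroot (y5 l)
        · exact ⟨sm z ((f l).eval (r : ℤ)), (h l).eval (y : ℤ), hev l, sm_pos _ _, hg l,
            fun p hp hd => sm_smooth z _ hp hd, almost_mono (heeT l) hroot (y5 l)⟩) A B (hsize.trans hAB)
    have hθ' : θ / (2 * M) * X ≤ (B' : ℝ) - A' := by
      refine le_trans ?_ hlen
      rw [div_mul_eq_mul_div]
      exact div_le_div_of_nonneg_right hAB (by positivity)
    have h4 := hcnt A' B' (hB'B.trans hB) hθ'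
    have hcard' : ((GoodE h ee i j t X A' B').card : ℝ) ≤ (GC f I i j z M T X A B).card := by
      exact_mod_cast hcard
    refine le_trans ?_ (h4.trans hcard')
    calc κ / (2 * M) * ((B : ℝ) - A) * VZ f z X = κ * (((B : ℝ) - A) / (2 * M)) * VZ f z X := by
          field_simp
      _ ≤ κ * ((B' : ℝ) - A') * VZ f z X := by
          apply mul_le_mul_of_nonneg_right _ hV0.le
          exact mul_le_mul_of_nonneg_left hlen hκ.le
  · intro χ
    have hlz : ∀ p : ℕ, p.Prime → z < p → ∃ x : ℤ, ¬ (p : ℤ) ∣ ∏ l, (f l).eval x := fun p hp hzp =>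
      S.locBig hp (lt_of_le_of_lt hz1 hzp)
    obtain ⟨P, p1, p2, p3⟩ := part_col s ρ hs (Real.log X ^ c) (δ / (ρ + 1) * ((B : ℝ) - A) * VZ f z X)
      (by positivity) (GC f I i j z M T X A B) (by
        intro T' hT' hTc
        refine h2 X hX2 m f S.sum hlz A B hB ((h3 X hX3').trans hAB) T' (hT'.trans (filter_subset _ _)) ?_ hTc
        intro x hx l q hq hzq hd
        have hx' := hT' hx
        unfold GC at hx'
        rw [mem_filter] at hx'
        obtain ⟨g, w, e1, _, _, e4, e5⟩ := hx'.2.2.2.2 l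
        rw [e1] at hd
        rcases (Nat.prime_iff_prime_int.1 hq).dvd_or_dvd hd with h6 | h6
        · exact absurd (e4 q hq (Int.natCast_dvd_natCast.1 h6)) (by omega)
        · exact e5.2.2 q hq h6) χ
    refine ⟨P, p1, p2, p3.le.trans ?_⟩
    have h6 : (ρ : ℝ) * (δ / (ρ + 1) * ((B : ℝ) - A) * VZ f z X) =
        (ρ / (ρ + 1)) * (δ * ((B : ℝ) - A) * VZ f z X) := by
      field_simp
    rw [h6]
    have h7 : (ρ : ℝ) / (ρ + 1) ≤ 1 := by
      rw [div_le_one (by positivity)]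
      linarith
    exact mul_le_of_le_one_left (by positivity) h7

open Classical in
/-- the good arguments -/
noncomputable def GCs (f : Fin m → ℤ[X]) (I : Finset (Fin m)) (z G T X A B : ℕ) : Finset ℕ :=
  (Ioc A B).filter (fun x : ℕ => (∀ l ∈ I, Almost T ((X : ℝ) ^ (1 / (T : ℝ))) ((f l).eval (x : ℤ))) ∧
    ∀ l, Near z G T ((X : ℝ) ^ (1 / (T : ℝ))) ((f l).eval (x : ℤ)))

theorem uncCs (D E A₀ : ℕ) (hD : 1 ≤ D) (hE : 1 ≤ E) (ε : ℝ) (hε : 0 < ε) :
    ∃ z G T : ℕ, 1 ≤ G ∧ 1 ≤ T ∧ ∃ κ KU : ℝ, 0 < κ ∧ 0 < KU ∧ ∀ (s ρ : ℕ) (δ : ℝ),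
    1 ≤ s → 0 < δ → ∃ c X₀ : ℕ, ∀ X : ℕ, X₀ ≤ X → ∀ (m : ℕ) (f : Fin m → ℤ[X]) (I : Finset (Fin m)),
      SysC D E A₀ X f I → κ / Real.log X ^ D ≤ VZ f z X ∧
      ∀ A B : ℕ, B ≤ X → (X : ℝ) ^ ε ≤ (B : ℝ) - A →
        κ * ((B : ℝ) - A) * VZ f z X ≤ ((GCs f I z G T X A B).card : ℝ) ∧
        ((GCs f I z G T X A B).card : ℝ) ≤ KU * ((B : ℝ) - A) * VZ f z X ∧
        ∀ χ : ℕ → Fin ρ, ∃ P : Finset (ℕ × ℕ),
          (∀ τ ∈ P, 1 ≤ τ.2 ∧ (τ.2 : ℝ) ≤ Real.log X ^ c ∧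
            ∀ l < s, τ.1 + l * τ.2 ∈ GCs f I z G T X A B ∧ χ (τ.1 + l * τ.2) = χ τ.1) ∧
          (P : Set (ℕ × ℕ)).PairwiseDisjoint (apSet s) ∧
          (((GCs f I z G T X A B \ P.biUnion (apSet s)).card : ℕ) : ℝ) ≤
            δ * ((B : ℝ) - A) * VZ f z X := by
  classical
  obtain ⟨z, hz⟩ : ∃ z : ℕ, z = max (max D E) 2 := ⟨_, rfl⟩
  have hz1 : max D E ≤ z := by rw [hz]; exact le_max_left _ _
  have hz2 : 2 ≤ z := by rw [hz]; exact le_max_right _ _
  obtain ⟨e, he⟩ : ∃ e : ℕ, e = E + D * (D + 1) := ⟨_, rfl⟩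
  obtain ⟨M, hM⟩ : ∃ M : ℕ, M = Mze z e := ⟨_, rfl⟩
  have hM1 : 1 ≤ M := by rw [hM]; exact Mze_pos _ _
  have hM0 : (0 : ℝ) < M := by exact_mod_cast hM1
  obtain ⟨t, ht, κ, _, hκ, _, H⟩ := shortE D hD (ε / 2) (by positivity)
  obtain ⟨T, hT⟩ : ∃ T : ℕ, T = t * (A₀ + D + 1) := ⟨_, rfl⟩
  have htT : t ≤ T := by rw [hT]; exact Nat.le_mul_of_pos_right _ (by omega)
  have hT1 : 1 ≤ T := ht.trans htT
  have heeT : t * (A₀ + D) ≤ T := by
    rw [hT]
    exact Nat.mul_le_mul_left _ (by omega)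
  obtain ⟨KU, hKU, X₅, h5⟩ := upper_z D T z hT1 ε κ hε hκ
  refine ⟨z, M, T, hM1, hT1, κ / (2 * M), KU, by positivity, hKU, fun s ρ δ hs hδ => ?_⟩
  obtain ⟨X₁, h1⟩ := H ((D + 1) * (2 * M) ^ D)
  obtain ⟨c, X₂, h2⟩ := prog_z D T z hT1 s ε (δ / (ρ + 1)) hε (by positivity)
  have hpow : ∀ᶠ X : ℕ in atTop, (6 * M + 2 : ℝ) ^ 2 < (X : ℝ) ^ (ε / 2) :=
    ((tendsto_rpow_atTop (by positivity)).comp tendsto_natCast_atTop_atTop).eventually (eventually_gt_atTop _)
  obtain ⟨X₃, h3⟩ := eventually_atTop.1 hpow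
  refine ⟨c, max (max X₁ (max X₅ 3)) (max X₂ X₃), fun X hX m f I S => ?_⟩
  have hX1 : X₁ ≤ X := (le_max_left _ _).trans ((le_max_left _ _).trans hX)
  have hX5 : X₅ ≤ X := (le_max_left _ _).trans ((le_max_right _ _).trans ((le_max_left _ _).trans hX))
  have hX3 : 3 ≤ X := (le_max_right _ _).trans ((le_max_right _ _).trans ((le_max_left _ _).trans hX))
  have hX2 : X₂ ≤ X := (le_max_left _ _).trans ((le_max_right _ _).trans hX)
  have hX3' : X₃ ≤ X := (le_max_right _ _).trans ((le_max_right _ _).trans hX)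
  have hX0 : (0 : ℝ) < X := by exact_mod_cast (by omega : 0 < X)
  have hXr : (1 : ℝ) ≤ X := by exact_mod_cast (by omega : 1 ≤ X)
  have hlog : 0 < Real.log X := Real.log_pos (by exact_mod_cast (by omega : 1 < X))
  obtain ⟨r, h, hr, S', hI, hg, hloc, hsz⟩ := S.sub (by omega) hE z hz1 hz2
  rw [← he, ← hM] at hr S' hg hsz
  have hdeg : ∀ l, (h l).natDegree = (f l).natDegree := fun l => S'.deg l
  have hVZ : V h X = VZ f z X := by rw [S'.V_eq, hM, VM_Mze _ _ _ _ (by omega)]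
  have HS : SysAE D ((D + 1) * (2 * M) ^ D) X h (fun _ => A₀ + D) :=
    { deg := fun l => by rw [hdeg]; exact S.deg l
      sum := by simp only [hdeg]; exact S.sum
      loc := hloc
      size := fun l x hx0 hxX => hsz l x hx0 hxX }
  obtain ⟨hVl, hcnt⟩ := h1 X hX1 m h _ HS
  rw [hVZ] at hVl hcnt
  have hV0 : 0 < VZ f z X := lt_of_lt_of_le (by positivity) hVl
  have hMr : (1 : ℝ) ≤ M := by exact_mod_cast hM1
  have hlz : ∀ p : ℕ, p.Prime → z < p → ∃ x : ℤ, ¬ (p : ℤ) ∣ ∏ l, (f l).eval x := fun p hp hzp =>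
    S.locBig hp (lt_of_le_of_lt hz1 hzp)
  have hrough : ∀ A B, ∀ x ∈ GCs f I z M T X A B, ∀ k, ∀ q : ℕ, q.Prime → z < q → (q : ℤ) ∣ (f k).eval (x : ℤ) →
      (X : ℝ) ^ (1 / (T : ℝ)) < q := by
    intro A B x hx' l q hq hzq hd
    unfold GCs at hx'
    rw [mem_filter] at hx'
    obtain ⟨g, w, e1, _, _, e4, e5⟩ := hx'.2.2 l
    rw [e1] at hd
    rcases (Nat.prime_iff_prime_int.1 hq).dvd_or_dvd hd with h6 | h6
    · exact absurd (e4 q hq (Int.natCast_dvd_natCast.1 h6)) (by omega)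
    · exact e5.2.2 q hq h6
  have hroot := root_mono (X := X) (by omega) ht htT
  refine ⟨le_trans ?_ hVl, fun A B hB hAB => ?_⟩
  · apply div_le_div_of_nonneg_right _ (by positivity)
    rw [div_le_iff₀ (by positivity)]
    nlinarith
  have hBA0 : 0 < (B : ℝ) - A := lt_of_lt_of_le (by positivity) hAB
  refine ⟨?_, ?_, ?_⟩
  · have hee : (X : ℝ) ^ (ε / 2) * (X : ℝ) ^ (ε / 2) = (X : ℝ) ^ ε := by
      rw [← Real.rpow_add hX0]
      congr 1
      ring
    have h3' := h3 X hX3'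
    have hp1 : 1 ≤ (X : ℝ) ^ (ε / 2) := Real.one_le_rpow hXr (by positivity)
    have hbig : (6 * M + 2 : ℝ) * (X : ℝ) ^ (ε / 2) ≤ (X : ℝ) ^ ε := by
      rw [← hee]
      apply mul_le_mul_of_nonneg_right _ (by positivity)
      have : (6 * M + 2 : ℝ) ≤ (6 * M + 2 : ℝ) ^ 2 := by nlinarith
      linarith
    have hsize : 4 * (M : ℝ) + 2 * r ≤ (X : ℝ) ^ ε := by
      have h6 : (r : ℝ) ≤ M := by exact_mod_cast hr
      nlinarith
    obtain ⟨A', B', hB'B, hlen, hcard⟩ := transfer hM1 (fun A' B' => GoodBE h (fun _ => A₀ + D) t X A' B')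
      (fun A B => GCs f I z M T X A B) (fun A' B' => filter_subset _ _) (by
        intro A' B' A B y hy hA hB
        unfold GoodBE at hy
        rw [mem_filter] at hy
        obtain ⟨_, y5⟩ := hy
        unfold GCs
        rw [mem_filter, mem_Ioc]
        have hev : ∀ l, (f l).eval (((M * y + r : ℕ)) : ℤ) = (sm z ((f l).eval (r : ℤ)) : ℤ) * (h l).eval (y : ℤ) := by
          intro l
          rw [S'.eval]
          push_cast
          rfl
        have hevI : ∀ l ∈ I, (f l).eval (((M * y + r : ℕ)) : ℤ) = (h l).eval (y : ℤ) := by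
          intro l hl
          rw [hev, hI l hl]
          simp
        refine ⟨⟨hA, hB⟩, fun l hl => ?_, fun l => ?_⟩
        · rw [hevI l hl]
          exact almost_mono heeT hroot (y5 l)
        · exact ⟨sm z ((f l).eval (r : ℤ)), (h l).eval (y : ℤ), hev l, sm_pos _ _, hg l,
            fun p hp hd => sm_smooth z _ hp hd, almost_mono heeT hroot (y5 l)⟩) A B (hsize.trans hAB)
    have hθ' : (X : ℝ) ^ (ε / 2) ≤ (B' : ℝ) - A' := by
      refine le_trans ?_ hlen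
      rw [le_div_iff₀ (by positivity)]
      refine le_trans ?_ (hbig.trans hAB)
      rw [mul_comm]
      apply mul_le_mul_of_nonneg_right _ (by positivity)
      linarith
    have h4 := (hcnt A' B' (hB'B.trans hB) hθ').1
    have hcard' : ((GoodBE h (fun _ => A₀ + D) t X A' B').card : ℝ) ≤ (GCs f I z M T X A B).card := by
      exact_mod_cast hcard
    refine le_trans ?_ (h4.trans hcard')
    calc κ / (2 * M) * ((B : ℝ) - A) * VZ f z X = κ * (((B : ℝ) - A) / (2 * M)) * VZ f z X := by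
          field_simp
      _ ≤ κ * ((B' : ℝ) - A') * VZ f z X := by
          apply mul_le_mul_of_nonneg_right _ hV0.le
          exact mul_le_mul_of_nonneg_left hlen hκ.le
  · exact h5 X hX5 m f S.sum hlz hVl A B hB hAB _ (filter_subset _ _) (hrough A B)
  · intro χ
    obtain ⟨P, p1, p2, p3⟩ := part_col s ρ hs (Real.log X ^ c) (δ / (ρ + 1) * ((B : ℝ) - A) * VZ f z X)
      (by positivity) (GCs f I z M T X A B) (by
        intro T' hT' hTc
        refine h2 X hX2 m f S.sum hlz A B hB hAB T' (hT'.trans (filter_subset _ _)) ?_ hTc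
        intro x hx
        exact hrough A B x (hT' hx)) χ
    refine ⟨P, p1, p2, p3.le.trans ?_⟩
    have h6 : (ρ : ℝ) * (δ / (ρ + 1) * ((B : ℝ) - A) * VZ f z X) =
        (ρ / (ρ + 1)) * (δ * ((B : ℝ) - A) * VZ f z X) := by
      field_simp
    rw [h6]
    have h7 : (ρ : ℝ) / (ρ + 1) ≤ 1 := by
      rw [div_le_one (by positivity)]
      linarith
    exact mul_le_of_le_one_left (by positivity) h7

end Pool.Agent.X32.Uni
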