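import Pool.Agent.X32.Uni.UncC

/-!
The theorems for systems given as finite sets of polynomials.
-/

set_option autoImplicit false

namespace Pool.Agent.X32.Uni

open Finset Filter
open Polynomial (C X)
open scoped Polynomial

open Classical in
/-- the good arguments -/
noncomputable def GQc (u v : ℤ[X]) (Q T : Finset ℤ[X]) (z G t X A B : ℕ) : Finset ℕ :=
  (Ioc A B).filter (fun x : ℕ => (u.eval (x : ℤ)).natAbs.Prime ∧
    Almost t ((X : ℝ) ^ (1 / (t : ℝ))) (u.eval (x : ℤ)) ∧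
    Almost 2 ((X : ℝ) ^ (1 / 9 : ℝ)) (v.eval (x : ℤ)) ∧
    Almost t ((X : ℝ) ^ (1 / (t : ℝ))) (v.eval (x : ℤ)) ∧
    (∀ f ∈ T, Almost t ((X : ℝ) ^ (1 / (t : ℝ))) (f.eval (x : ℤ))) ∧
    ∀ f ∈ Q, Near z G t ((X : ℝ) ^ (1 / (t : ℝ))) (f.eval (x : ℤ)))

/-- the hypotheses -/
structure SysQc (D E A K X : ℕ) (u v : ℤ[X]) (Q T : Finset ℤ[X]) : Prop where
  TQ : T ⊆ Q
  du : u.natDegree = 1
  dv : v.natDegree = 1
  u1 : (u.coeff 1).natAbs ≤ E
  v1 : (v.coeff 1).natAbs ≤ E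
  u0 : |u.coeff 0| ≤ K * (X : ℤ)
  v0 : |v.coeff 0| ≤ K * (X : ℤ)
  det : u.coeff 1 * v.coeff 0 ≠ v.coeff 1 * u.coeff 0
  deg : ∀ f ∈ Q, 1 ≤ f.natDegree
  sum : ∑ f ∈ Q, f.natDegree ≤ D
  cont : ∀ f ∈ Q, ContB E f
  size : ∀ f ∈ Q, ∀ n, |f.coeff n| ≤ (X : ℤ) ^ A
  loc : ∀ p : ℕ, p.Prime → ∃ x : ℤ, ¬ (p : ℤ) ∣ u.eval x * v.eval x * ∏ f ∈ T, f.eval x

theorem lin_coeff_le {u : ℤ[X]} {E K A X : ℕ} (du : u.natDegree = 1) (u1 : (u.coeff 1).natAbs ≤ E)
    (u0 : |u.coeff 0| ≤ K * (X : ℤ)) (hX : K + E ≤ X) (hA : 2 ≤ A) (hX1 : 1 ≤ X) (n : ℕ) : |u.coeff n| ≤ (X : ℤ) ^ A := by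
  have hXz : (1 : ℤ) ≤ X := by exact_mod_cast hX1
  have h2 : (X : ℤ) ^ 2 ≤ (X : ℤ) ^ A := pow_le_pow_right₀ hXz hA
  have hKX : (K : ℤ) + E ≤ X := by exact_mod_cast hX
  have hE : (0 : ℤ) ≤ E := by positivity
  have hK : (0 : ℤ) ≤ K := by positivity
  refine le_trans ?_ h2
  rcases Nat.lt_or_ge 1 n with h | h
  · rw [Polynomial.coeff_eq_zero_of_natDegree_lt (by omega), abs_zero]
    positivity
  · obtain rfl | rfl : n = 0 ∨ n = 1 := by omega
    · nlinarith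
    · rw [Int.abs_eq_natAbs]
      have : ((u.coeff 1).natAbs : ℤ) ≤ E := by exact_mod_cast u1
      nlinarith

theorem uncCQ (D E A₀ : ℕ) (hE : 1 ≤ E) : ∃ z G t : ℕ, 1 ≤ G ∧ 1 ≤ t ∧ ∃ κ : ℝ, 0 < κ ∧ ∀ (K s ρ : ℕ) (θ δ : ℝ),
    1 ≤ s → 0 < θ → 0 < δ → ∃ c X₀ : ℕ, ∀ X : ℕ, X₀ ≤ X → ∀ (u v : ℤ[X]) (Q T : Finset ℤ[X]),
      SysQc D E A₀ K X u v Q T → κ / Real.log X ^ (D + 2) ≤ VQ u v Q z X ∧
      ∀ A B : ℕ, B ≤ X → θ * X ≤ (B : ℝ) - A →
        κ * ((B : ℝ) - A) * VQ u v Q z X ≤ ((GQc u v Q T z G t X A B).card : ℝ) ∧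
        ∀ χ : ℕ → Fin ρ, ∃ P : Finset (ℕ × ℕ),
          (∀ τ ∈ P, 1 ≤ τ.2 ∧ (τ.2 : ℝ) ≤ Real.log X ^ c ∧
            ∀ l < s, τ.1 + l * τ.2 ∈ GQc u v Q T z G t X A B ∧ χ (τ.1 + l * τ.2) = χ τ.1) ∧
          (P : Set (ℕ × ℕ)).PairwiseDisjoint (apSet s) ∧
          (((GQc u v Q T z G t X A B \ P.biUnion (apSet s)).card : ℕ) : ℝ) ≤
            δ * ((B : ℝ) - A) * VQ u v Q z X := by
  classical
  obtain ⟨z, G, t, hG1, ht, κ, hκ, H⟩ := uncC (D + 2) E (max A₀ 2) (by omega) hE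
  refine ⟨z, G, t, hG1, ht, κ, hκ, fun K s ρ θ δ hs hθ hδ => ?_⟩
  obtain ⟨c, X₀, h⟩ := H K s ρ θ δ hs hθ hδ
  refine ⟨c, max X₀ (K + E + 1), fun X hX u v Q T Y => ?_⟩
  have hX0 : X₀ ≤ X := (le_max_left _ _).trans hX
  have hX1 : K + E + 1 ≤ X := (le_max_right _ _).trans hX
  obtain ⟨S, hS⟩ : ∃ S : Finset ℤ[X], S = insert u (insert v Q) := ⟨_, rfl⟩
  obtain ⟨T', hT'⟩ : ∃ T' : Finset ℤ[X], T' = insert u (insert v T) := ⟨_, rfl⟩
  have hTS' : T' ⊆ S := by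
    rw [hS, hT']
    exact insert_subset_insert _ (insert_subset_insert _ Y.TQ)
  have hdvd : ∀ (R : Finset ℤ[X]) (p : ℕ), p.Prime → ∀ x : ℤ,
      ((p : ℤ) ∣ ∏ f ∈ insert u (insert v R), f.eval x) ↔ (p : ℤ) ∣ u.eval x * v.eval x * ∏ f ∈ R, f.eval x := by
    intro R p hp x
    have hpi := Nat.prime_iff_prime_int.1 hp
    rw [hpi.dvd_finsetProd_iff, hpi.dvd_mul, hpi.dvd_mul, hpi.dvd_finsetProd_iff]
    simp only [mem_insert, exists_eq_or_imp]
    tauto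
  have hmem : ∀ l : Fin S.card, ((S.equivFin.symm l : S) : ℤ[X]) ∈ S := fun l => (S.equivFin.symm l).2
  obtain ⟨f, hf⟩ : ∃ f : Fin S.card → ℤ[X], f = fun l => ((S.equivFin.symm l : S) : ℤ[X]) := ⟨_, rfl⟩
  obtain ⟨I, hI⟩ : ∃ I : Finset (Fin S.card), I = univ.filter (fun l => f l ∈ T') := ⟨_, rfl⟩
  have hfm : ∀ l, f l ∈ S := fun l => by rw [hf]; exact hmem l
  have hfs : ∀ g ∈ S, ∃ l, f l = g := fun g hg => ⟨S.equivFin ⟨g, hg⟩, by rw [hf]; simp⟩
  have huT' : u ∈ T' := by rw [hT']; exact mem_insert_self _ _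
  have hvT' : v ∈ T' := by rw [hT']; exact mem_insert_of_mem (mem_insert_self _ _)
  obtain ⟨i, hi⟩ := hfs u (hTS' huT')
  obtain ⟨j, hj⟩ := hfs v (hTS' hvT')
  have hprod : ∀ x : ℤ, ∏ l, (f l).eval x = ∏ g ∈ S, g.eval x := by
    intro x
    rw [hf]
    rw [← Finset.prod_coe_sort S (fun g => g.eval x)]
    exact Equiv.prod_comp S.equivFin.symm (fun g : S => (g : ℤ[X]).eval x)
  have hsum : ∑ l, (f l).natDegree = ∑ g ∈ S, g.natDegree := by
    rw [hf]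
    rw [← Finset.sum_coe_sort S (fun g => g.natDegree)]
    exact Equiv.sum_comp S.equivFin.symm (fun g : S => (g : ℤ[X]).natDegree)
  have hV : VZ f z X = VQ u v Q z X := by
    unfold VZ VQ
    apply prod_congr rfl fun p hp => ?_
    have : om f p = omQ u v Q p := by
      unfold om omQ
      congr 1
      apply filter_congr fun x _ => ?_
      rw [hprod, hS]
      exact hdvd Q p (mem_filter.1 hp).2 _
    rw [this]
  have hGG : ∀ A B, GC f I i j z G t X A B = GQc u v Q T z G t X A B := by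
    intro A B
    unfold GC GQc
    apply filter_congr fun x _ => ?_
    rw [hi, hj]
    have hN : ∀ w : ℤ, Almost t ((X : ℝ) ^ (1 / (t : ℝ))) w → Near z G t ((X : ℝ) ^ (1 / (t : ℝ))) w := fun w hw =>
      ⟨1, w, by simp, le_rfl, hG1, fun p hp hd => absurd (Nat.dvd_one.1 hd) hp.one_lt.ne', hw⟩
    constructor
    · rintro ⟨a, b, c, d⟩
      have c' : ∀ g ∈ T', Almost t ((X : ℝ) ^ (1 / (t : ℝ))) (g.eval (x : ℤ)) := by
        intro g hg
        obtain ⟨l, hl⟩ := hfs g (hTS' hg)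
        have := c l (by rw [hI, mem_filter, hl]; exact ⟨mem_univ _, hg⟩)
        rwa [hl] at this
      refine ⟨a, c' u huT', b, c' v hvT', fun g hg => c' g (by
        rw [hT']; exact mem_insert_of_mem (mem_insert_of_mem hg)), fun g hg => ?_⟩
      obtain ⟨l, hl⟩ := hfs g (by rw [hS]; exact mem_insert_of_mem (mem_insert_of_mem hg))
      have := d l
      rwa [hl] at this
    · rintro ⟨a, c1, b, c2, c3, d⟩
      refine ⟨a, b, fun l hl => ?_, fun l => ?_⟩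
      · rw [hI, mem_filter, hT', mem_insert, mem_insert] at hl
        rcases hl.2 with h | h | h
        · rw [h]
          exact c1
        · rw [h]
          exact c2
        · exact c3 _ h
      · have hl := hfm l
        rw [hS, mem_insert, mem_insert] at hl
        rcases hl with h | h | h
        · rw [h]
          exact hN _ c1
        · rw [h]
          exact hN _ c2
        · exact d _ h
  have hcl : ∀ w : ℤ[X], w.natDegree = 1 → (w.coeff 1).natAbs ≤ E → ContB E w := by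
    intro w hw hw1
    apply contB_lc
    · intro h0
      rw [h0, Polynomial.natDegree_zero] at hw
      omega
    · unfold Polynomial.leadingCoeff
      rw [hw]
      exact hw1
  have hXz : (1 : ℤ) ≤ X := by exact_mod_cast (by omega : 1 ≤ X)
  have h1 := h X hX0 S.card f I i j
    { deg := by
        intro l
        have hl := hfm l
        rw [hS, mem_insert, mem_insert] at hl
        rcases hl with h | h | h
        · rw [h, Y.du]
        · rw [h, Y.dv]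
        · exact Y.deg _ h
      sum := by
        rw [hsum, hS]
        have e1 := sum_insert_le' (f := fun g : ℤ[X] => g.natDegree) u (insert v Q)
        have e2 := sum_insert_le' (f := fun g : ℤ[X] => g.natDegree) v Q
        have := Y.sum
        have := Y.du
        have := Y.dv
        omega
      cont := by
        intro l
        have hl := hfm l
        rw [hS, mem_insert, mem_insert] at hl
        rcases hl with h | h | h
        · rw [h]
          exact hcl _ Y.du Y.u1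
        · rw [h]
          exact hcl _ Y.dv Y.v1
        · exact Y.cont _ h
      size := by
        intro l n
        have hl := hfm l
        rw [hS, mem_insert, mem_insert] at hl
        rcases hl with h | h | h
        · rw [h]
          exact lin_coeff_le Y.du Y.u1 Y.u0 (by omega) (le_max_right _ _) (by omega) n
        · rw [h]
          exact lin_coeff_le Y.dv Y.v1 Y.v0 (by omega) (le_max_right _ _) (by omega) n
        · exact (Y.size _ h n).trans (pow_le_pow_right₀ hXz (le_max_left _ _))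
      loc := by
        intro p hp
        obtain ⟨x, hx⟩ := Y.loc p hp
        refine ⟨x, fun l hl hd => hx ?_⟩
        rw [← hdvd T p hp]
        rw [hI, mem_filter, hT'] at hl
        exact hd.trans (dvd_prod_of_mem (fun g : ℤ[X] => g.eval x) hl.2) }
    { di := by rw [hi]; exact Y.du
      dj := by rw [hj]; exact Y.dv
      ei := by rw [hi]; exact Y.u1
      ej := by rw [hj]; exact Y.v1
      ci := by rw [hi]; exact Y.u0
      cj := by rw [hj]; exact Y.v0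
      det := by rw [hi, hj]; exact Y.det
      iI := by rw [hI, mem_filter, hi]; exact ⟨mem_univ _, huT'⟩
      jI := by rw [hI, mem_filter, hj]; exact ⟨mem_univ _, hvT'⟩ }
  rw [hV] at h1
  simp only [hGG] at h1
  exact h1

open Classical in
/-- the good arguments -/
noncomputable def GSc (S T : Finset ℤ[X]) (z G t X A B : ℕ) : Finset ℕ :=
  (Ioc A B).filter (fun x : ℕ => (∀ f ∈ T, Almost t ((X : ℝ) ^ (1 / (t : ℝ))) (f.eval (x : ℤ))) ∧
    ∀ f ∈ S, Near z G t ((X : ℝ) ^ (1 / (t : ℝ))) (f.eval (x : ℤ)))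

theorem uncCS (D E A₀ : ℕ) (hD : 1 ≤ D) (hE : 1 ≤ E) (ε : ℝ) (hε : 0 < ε) :
    ∃ z G t : ℕ, 1 ≤ t ∧ ∃ κ KU : ℝ, 0 < κ ∧ 0 < KU ∧ ∀ (s ρ : ℕ) (δ : ℝ),
    1 ≤ s → 0 < δ → ∃ c X₀ : ℕ, ∀ X : ℕ, X₀ ≤ X → ∀ S T : Finset ℤ[X], T ⊆ S → ∑ f ∈ S, f.natDegree ≤ D →
      (∀ f ∈ S, 1 ≤ f.natDegree ∧ ContB E f ∧ ∀ n, |f.coeff n| ≤ (X : ℤ) ^ A₀) →
      (∀ p : ℕ, p.Prime → ∃ x : ℤ, ¬ (p : ℤ) ∣ ∏ f ∈ T, f.eval x) →
      κ / Real.log X ^ D ≤ VS S z X ∧
      ∀ A B : ℕ, B ≤ X → (X : ℝ) ^ ε ≤ (B : ℝ) - A →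
        κ * ((B : ℝ) - A) * VS S z X ≤ ((GSc S T z G t X A B).card : ℝ) ∧
        ((GSc S T z G t X A B).card : ℝ) ≤ KU * ((B : ℝ) - A) * VS S z X ∧
        ∀ χ : ℕ → Fin ρ, ∃ P : Finset (ℕ × ℕ),
          (∀ τ ∈ P, 1 ≤ τ.2 ∧ (τ.2 : ℝ) ≤ Real.log X ^ c ∧
            ∀ l < s, τ.1 + l * τ.2 ∈ GSc S T z G t X A B ∧ χ (τ.1 + l * τ.2) = χ τ.1) ∧
          (P : Set (ℕ × ℕ)).PairwiseDisjoint (apSet s) ∧
          (((GSc S T z G t X A B \ P.biUnion (apSet s)).card : ℕ) : ℝ) ≤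
            δ * ((B : ℝ) - A) * VS S z X := by
  classical
  obtain ⟨z, G, t, hG1, ht, κ, KU, hκ, hKU, H⟩ := uncCs D E A₀ hD hE ε hε
  refine ⟨z, G, t, ht, κ, KU, hκ, hKU, fun s ρ δ hs hδ => ?_⟩
  obtain ⟨c, X₀, h⟩ := H s ρ δ hs hδ
  refine ⟨c, X₀, fun X hX S T hTS hsum hS hloc => ?_⟩
  have hmem : ∀ l : Fin S.card, ((S.equivFin.symm l : S) : ℤ[X]) ∈ S := fun l => (S.equivFin.symm l).2
  obtain ⟨f, hf⟩ : ∃ f : Fin S.card → ℤ[X], f = fun l => ((S.equivFin.symm l : S) : ℤ[X]) := ⟨_, rfl⟩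
  obtain ⟨I, hI⟩ : ∃ I : Finset (Fin S.card), I = univ.filter (fun l => f l ∈ T) := ⟨_, rfl⟩
  have hfm : ∀ l, f l ∈ S := fun l => by rw [hf]; exact hmem l
  have hfs : ∀ g ∈ S, ∃ l, f l = g := fun g hg => ⟨S.equivFin ⟨g, hg⟩, by rw [hf]; simp⟩
  have hprod : ∀ x : ℤ, ∏ l, (f l).eval x = ∏ g ∈ S, g.eval x := by
    intro x
    rw [hf]
    rw [← Finset.prod_coe_sort S (fun g => g.eval x)]
    exact Equiv.prod_comp S.equivFin.symm (fun g : S => (g : ℤ[X]).eval x)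
  have hsum' : ∑ l, (f l).natDegree = ∑ g ∈ S, g.natDegree := by
    rw [hf]
    rw [← Finset.sum_coe_sort S (fun g => g.natDegree)]
    exact Equiv.sum_comp S.equivFin.symm (fun g : S => (g : ℤ[X]).natDegree)
  have hV : VZ f z X = VS S z X := by
    unfold VZ VS
    apply prod_congr rfl fun p _ => ?_
    have : om f p = omS S p := by
      unfold om omS
      congr 1
      apply filter_congr fun x _ => ?_
      rw [hprod]
    rw [this]
  have hG : ∀ A B, GCs f I z G t X A B = GSc S T z G t X A B := by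
    intro A B
    unfold GCs GSc
    apply filter_congr fun x _ => ?_
    constructor
    · rintro ⟨c, d⟩
      refine ⟨fun g hg => ?_, fun g hg => ?_⟩
      · obtain ⟨l, hl⟩ := hfs g (hTS hg)
        have := c l (by rw [hI, mem_filter, hl]; exact ⟨mem_univ _, hg⟩)
        rwa [hl] at this
      · obtain ⟨l, hl⟩ := hfs g hg
        have := d l
        rwa [hl] at this
    · rintro ⟨c, d⟩
      refine ⟨fun l hl => ?_, fun l => ?_⟩
      · rw [hI, mem_filter] at hl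
        exact c _ hl.2
      · exact d _ (hfm l)
  have h1 := h X hX S.card f I
    { deg := fun l => (hS _ (hfm l)).1
      sum := by rw [hsum']; exact hsum
      cont := fun l => (hS _ (hfm l)).2.1
      size := fun l => (hS _ (hfm l)).2.2
      loc := by
        intro p hp
        obtain ⟨x, hx⟩ := hloc p hp
        refine ⟨x, fun l hl hd => hx ?_⟩
        rw [hI, mem_filter] at hl
        exact hd.trans (dvd_prod_of_mem (fun f : ℤ[X] => f.eval x) hl.2) }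
  rw [hV] at h1
  simp only [hG] at h1
  exact h1

/-- the pairs `n`, `n + d` -/
theorem pairC (D E A₀ : ℕ) (hE : 1 ≤ E) : ∃ z G t : ℕ, 1 ≤ t ∧ ∃ κ : ℝ, 0 < κ ∧ ∀ (K s ρ : ℕ) (θ δ : ℝ),
    1 ≤ s → 0 < θ → 0 < δ → ∃ c X₀ : ℕ, ∀ X : ℕ, X₀ ≤ X → ∀ (d : ℤ) (Q T : Finset ℤ[X]),
      d ≠ 0 → |d| ≤ K * (X : ℤ) → T ⊆ Q → (∑ f ∈ Q, f.natDegree ≤ D) →
      (∀ f ∈ Q, 1 ≤ f.natDegree ∧ ContB E f ∧ ∀ n, |f.coeff n| ≤ (X : ℤ) ^ A₀) →
      (∀ p : ℕ, p.Prime → ∃ x : ℤ, ¬ (p : ℤ) ∣ x * (x + d) * ∏ f ∈ T, f.eval x) →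
      κ / Real.log X ^ (D + 2) ≤ VQ (Polynomial.X : ℤ[X]) (Polynomial.X + C d) Q z X ∧
      ∀ A B : ℕ, B ≤ X → θ * X ≤ (B : ℝ) - A →
        κ * ((B : ℝ) - A) * VQ (Polynomial.X : ℤ[X]) (Polynomial.X + C d) Q z X ≤
          ((GQc (Polynomial.X : ℤ[X]) (Polynomial.X + C d) Q T z G t X A B).card : ℝ) ∧
        ∀ χ : ℕ → Fin ρ, ∃ P : Finset (ℕ × ℕ),
          (∀ τ ∈ P, 1 ≤ τ.2 ∧ (τ.2 : ℝ) ≤ Real.log X ^ c ∧
            ∀ l < s, τ.1 + l * τ.2 ∈ GQc (Polynomial.X : ℤ[X]) (Polynomial.X + C d) Q T z G t X A B ∧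
              χ (τ.1 + l * τ.2) = χ τ.1) ∧
          (P : Set (ℕ × ℕ)).PairwiseDisjoint (apSet s) ∧
          (((GQc (Polynomial.X : ℤ[X]) (Polynomial.X + C d) Q T z G t X A B \ P.biUnion (apSet s)).card : ℕ) : ℝ) ≤
            δ * ((B : ℝ) - A) * VQ (Polynomial.X : ℤ[X]) (Polynomial.X + C d) Q z X := by
  classical
  obtain ⟨z, G, t, _, ht, κ, hκ, H⟩ := uncCQ D E A₀ hE
  refine ⟨z, G, t, ht, κ, hκ, fun K s ρ θ δ hs hθ hδ => ?_⟩
  obtain ⟨c, X₀, h⟩ := H K s ρ θ δ hs hθ hδ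
  refine ⟨c, X₀, fun X hX d Q T hd hdK hTQ hsum hQ hloc => ?_⟩
  have hv1 : (Polynomial.X + C d : ℤ[X]).coeff 1 = 1 := by
    rw [Polynomial.coeff_add, Polynomial.coeff_X_one, Polynomial.coeff_C]
    simp
  have hv0 : (Polynomial.X + C d : ℤ[X]).coeff 0 = d := by
    rw [Polynomial.coeff_add, Polynomial.coeff_X_zero, Polynomial.coeff_C_zero, zero_add]
  exact h X hX (Polynomial.X : ℤ[X]) (Polynomial.X + C d) Q T
    { TQ := hTQ
      du := Polynomial.natDegree_X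
      dv := Polynomial.natDegree_X_add_C d
      u1 := by
        rw [Polynomial.coeff_X_one]
        exact hE
      v1 := by
        rw [hv1]
        exact hE
      u0 := by
        rw [Polynomial.coeff_X_zero, abs_zero]
        positivity
      v0 := by
        rw [hv0]
        exact hdK
      det := by
        rw [hv0, hv1, Polynomial.coeff_X_one, Polynomial.coeff_X_zero]
        simpa using hd
      deg := fun f hf => (hQ f hf).1
      sum := hsum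
      cont := fun f hf => (hQ f hf).2.1
      size := fun f hf => (hQ f hf).2.2
      loc := by
        intro p hp
        obtain ⟨x, hx⟩ := hloc p hp
        refine ⟨x, ?_⟩
        rwa [Polynomial.eval_X, Polynomial.eval_add, Polynomial.eval_X, Polynomial.eval_C] }

end Pool.Agent.X32.Uni
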