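import Pool.Agent.X32.Uni.Unc

/-!
Arbitrary systems of polynomials with bounded leading coefficients, uniformly, without local conditions: the values are
bounded multiples of almost primes.
-/

set_option autoImplicit false

namespace Pool.Agent.X32.Uni

open Finset Filter
open Polynomial (C X)
open scoped Polynomial

variable {m : ℕ}

theorem pow_dvd_mul {p : ℕ} (hp : p.Prime) (v : ℤ) : ∀ (s e : ℕ) (u : ℤ), ¬ ((p : ℤ) ^ s) ∣ u → ((p : ℤ) ^ e) ∣ u * v →
    ((p : ℤ) ^ (e - s)) ∣ v := by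
  have hpi := Nat.prime_iff_prime_int.1 hp
  intro s
  induction s with
  | zero =>
    intro e u h _
    exact absurd (by simp) h
  | succ s ih =>
    intro e u h1 h2
    by_cases hd : (p : ℤ) ∣ u
    · obtain ⟨u', rfl⟩ := hd
      rcases Nat.eq_zero_or_pos e with he | he
      · rw [he]
        simp
      · obtain ⟨e', rfl⟩ : ∃ e', e = e' + 1 := ⟨e - 1, by omega⟩
        have h3 : ¬ ((p : ℤ) ^ s) ∣ u' := by
          intro h
          apply h1
          rw [pow_succ, mul_comm]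
          exact mul_dvd_mul_left _ h
        have h4 : ((p : ℤ) ^ e') ∣ u' * v := by
          rw [pow_succ, mul_comm ((p : ℤ) ^ e'), mul_assoc] at h2
          exact (mul_dvd_mul_iff_left hpi.ne_zero).1 h2
        have h5 := ih e' u' h3 h4
        rwa [Nat.add_sub_add_right]
    · exact (pow_dvd_pow _ (Nat.sub_le _ _)).trans (hpi.pow_dvd_of_dvd_mul_left e hd h2)

/-- few classes modulo `p ^ s` contain zeros modulo a large power of `p` -/
theorem classes_le {p : ℕ} (hp : p.Prime) (s c : ℕ) : ∀ (d : ℕ) (g : ℤ[X]), g.natDegree = d →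
    ¬ ((p : ℤ) ^ c) ∣ g.leadingCoeff → ∀ e : ℕ, c + d * s ≤ e → ∀ R : Finset ℕ, (∀ r ∈ R, r < p ^ s) →
    (∀ r ∈ R, ((p : ℤ) ^ e) ∣ g.eval (r : ℤ)) → R.card ≤ d := by
  intro d
  induction d with
  | zero =>
    intro g hg hlc e he R _ hR
    rw [Nat.le_zero, card_eq_zero, eq_empty_iff_forall_notMem]
    intro r hr
    apply hlc
    have h1 := hR r hr
    rw [Polynomial.eq_C_of_natDegree_eq_zero hg] at h1
    rw [Polynomial.eval_C] at h1
    have h2 : g.leadingCoeff = g.coeff 0 := by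
      unfold Polynomial.leadingCoeff
      rw [hg]
    rw [h2]
    exact (pow_dvd_pow _ (by omega)).trans h1
  | succ d ih =>
    intro g hg hlc e he R hRs hR
    rcases R.eq_empty_or_nonempty with h | ⟨r₀, hr₀⟩
    · rw [h]
      simp
    · obtain ⟨g₁, hg₁⟩ : ∃ g₁ : ℤ[X], g₁ = g /ₘ (X - C (r₀ : ℤ)) := ⟨_, rfl⟩
      have hmon : (X - C (r₀ : ℤ) : ℤ[X]).Monic := Polynomial.monic_X_sub_C _
      have hdec : g = C (g.eval (r₀ : ℤ)) + (X - C (r₀ : ℤ)) * g₁ := by
        rw [hg₁]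
        conv_lhs => rw [← Polynomial.modByMonic_add_div g (X - C (r₀ : ℤ)), Polynomial.modByMonic_X_sub_C_eq_C_eval]
      have hdeg₁ : g₁.natDegree = d := by
        rw [hg₁, Polynomial.natDegree_divByMonic _ hmon, hg, Polynomial.natDegree_X_sub_C]
        rfl
      have hlc₁ : g₁.leadingCoeff = g.leadingCoeff := by
        rw [hg₁]
        apply Polynomial.leadingCoeff_divByMonic_of_monic hmon
        rw [Polynomial.degree_X_sub_C]
        have hg0 : g ≠ 0 := by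
          intro h
          rw [h, Polynomial.natDegree_zero] at hg
          omega
        rw [Polynomial.degree_eq_natDegree hg0, hg]
        exact_mod_cast (by omega : 1 ≤ d + 1)
      have hcard := ih g₁ hdeg₁ (by rw [hlc₁]; exact hlc) (e - s) (by
        have : (d + 1) * s = d * s + s := by ring
        omega) (R.erase r₀) (fun r hr => hRs r (mem_of_mem_erase hr)) (fun r hr => by
        rw [mem_erase] at hr
        have h1 := hR r hr.2
        have h2 := hR r₀ hr₀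
        have h3 := dvd_sub h1 h2
        have h4 : g.eval (r : ℤ) - g.eval (r₀ : ℤ) = ((r : ℤ) - r₀) * g₁.eval (r : ℤ) := by
          conv_lhs => rw [hdec]
          simp
        rw [h4] at h3
        apply pow_dvd_mul hp _ s e _ _ h3
        intro hd
        apply hr.1
        have h5 : (r₀ : ℤ) ≡ r [ZMOD ((p ^ s : ℕ) : ℤ)] := Int.modEq_iff_dvd.2 (by exact_mod_cast hd)
        exact (Nat.ModEq.eq_of_lt_of_lt (Int.natCast_modEq_iff.1 h5) (hRs r₀ hr₀) (hRs r hr.2)).symm)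
      rw [card_erase_of_mem hr₀] at hcard
      omega

/-- nonzero values modulo large primes -/
theorem loc_big (G : ℤ[X]) {p : ℕ} (hp : p.Prime) (hlc : ¬ (p : ℤ) ∣ G.leadingCoeff) (hd : G.natDegree < p) :
    ∃ x : ℤ, ¬ (p : ℤ) ∣ G.eval x := by
  classical
  have : Fact p.Prime := ⟨hp⟩
  by_contra hcon
  push Not at hcon
  obtain ⟨H, hH⟩ : ∃ H : (ZMod p)[X], H = G.map (Int.castRingHom (ZMod p)) := ⟨_, rfl⟩
  have hev : ∀ y : ℤ, H.eval (y : ZMod p) = ((G.eval y : ℤ) : ZMod p) := by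
    intro y
    rw [hH]
    exact Polynomial.eval_intCast_map (Int.castRingHom (ZMod p)) G y
  have hH0 : H ≠ 0 := by
    intro h0
    apply hlc
    have h1 := congrArg (fun q : (ZMod p)[X] => q.coeff G.natDegree) h0
    simp only [hH, Polynomial.coeff_map, Polynomial.coeff_zero] at h1
    exact (ZMod.intCast_zmod_eq_zero_iff_dvd _ _).1 h1
  have h2 : (univ : Finset (ZMod p)) ⊆ H.roots.toFinset := by
    intro y _
    rw [Multiset.mem_toFinset, Polynomial.mem_roots hH0, Polynomial.IsRoot.def]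
    obtain ⟨x, hx⟩ : ∃ x : ℤ, (x : ZMod p) = y := ⟨(y.val : ℤ), by simp⟩
    rw [← hx, hev]
    exact (ZMod.intCast_zmod_eq_zero_iff_dvd _ _).2 (hcon x)
  have h3 := card_le_card h2
  rw [card_univ, ZMod.card] at h3
  have h4 : H.roots.toFinset.card ≤ G.natDegree := by
    refine (Multiset.toFinset_card_le _).trans ((Polynomial.card_roots' H).trans ?_)
    rw [hH]
    exact Polynomial.natDegree_map_le
  omega

/-- a good class modulo a prime power -/
theorem res_pP (f : Fin m → ℤ[X]) (I : Finset (Fin m)) (D E : ℕ) (hE : 1 ≤ E) (hD : ∑ l, (f l).natDegree ≤ D)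
    (hlc0 : ∀ l, (f l).leadingCoeff ≠ 0) (hlc : ∀ l, (f l).leadingCoeff.natAbs ≤ E) {p : ℕ} (hp : p.Prime)
    (hI : ∃ x : ℤ, ∀ l ∈ I, ¬ (p : ℤ) ∣ (f l).eval x) :
    ∃ y : ℕ, (∀ l ∈ I, ¬ (p : ℤ) ∣ (f l).eval (y : ℤ)) ∧
      ∀ l, ¬ ((p : ℤ) ^ (E + D * (D + 1))) ∣ (f l).eval (y : ℤ) := by
  classical
  obtain ⟨x₀, hx₀⟩ := hI
  have hpz : (0 : ℤ) < p := by exact_mod_cast hp.pos
  obtain ⟨x₁, hx₁⟩ : ∃ x₁ : ℕ, (x₁ : ℤ) = x₀ % p := ⟨(x₀ % p).toNat, Int.toNat_of_nonneg (Int.emod_nonneg _ hpz.ne')⟩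
  have hx₁lt : x₁ < p := by
    have := Int.emod_lt_of_pos x₀ hpz
    omega
  have hI₁ : ∀ u : ℕ, ∀ l ∈ I, ¬ (p : ℤ) ∣ (f l).eval ((x₁ + p * u : ℕ) : ℤ) := by
    intro u l hl hd
    apply hx₀ l hl
    have h1 : ((x₁ + p * u : ℕ) : ℤ) ≡ x₀ [ZMOD p] := by
      push_cast
      rw [hx₁]
      have h2 : x₀ % (p : ℤ) + p * u ≡ x₀ + 0 [ZMOD p] :=
        (Int.mod_modEq _ _).add ((Int.modEq_zero_iff_dvd).2 (dvd_mul_right _ _))
      rwa [add_zero] at h2
    have h2 : (f l).eval ((x₁ + p * u : ℕ) : ℤ) ≡ (f l).eval x₀ [ZMOD p] :=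
      Int.modEq_iff_dvd.2 ((Int.modEq_iff_dvd.1 h1).trans (Polynomial.sub_dvd_eval_sub _ _ (f l)))
    exact (h2.dvd_iff).1 hd
  by_contra hcon
  push Not at hcon
  -- the candidates
  obtain ⟨R, hR⟩ : ∃ R : Finset ℕ, R = (range (p ^ D)).image (fun u => x₁ + p * u) := ⟨_, rfl⟩
  have hRcard : R.card = p ^ D := by
    rw [hR, card_image_of_injective _ (fun u v huv => by
      have h0 : x₁ + p * u = x₁ + p * v := huv
      have : p * u = p * v := by omega
      exact Nat.eq_of_mul_eq_mul_left hp.pos this), card_range]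
  have hRlt : ∀ r ∈ R, r < p ^ (D + 1) := by
    intro r hr
    rw [hR, mem_image] at hr
    obtain ⟨u, hu, rfl⟩ := hr
    rw [mem_range] at hu
    have h1 : p * (u + 1) ≤ p * p ^ D := Nat.mul_le_mul_left _ hu
    rw [pow_succ, mul_comm (p ^ D)]
    nlinarith
  have hcov : R ⊆ univ.biUnion (fun l : Fin m =>
      R.filter (fun r : ℕ => ((p : ℤ) ^ (E + D * (D + 1))) ∣ (f l).eval (r : ℤ))) := by
    intro r hr
    have hr' := hr
    rw [hR, mem_image] at hr'
    obtain ⟨u, _, rfl⟩ := hr'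
    obtain ⟨l, hl⟩ := hcon _ (hI₁ u)
    exact mem_biUnion.2 ⟨l, mem_univ _, mem_filter.2 ⟨hr, hl⟩⟩
  have h1 := (card_le_card hcov).trans card_biUnion_le
  have h2 : ∀ l : Fin m, (R.filter (fun r : ℕ => ((p : ℤ) ^ (E + D * (D + 1))) ∣ (f l).eval (r : ℤ))).card ≤
      (f l).natDegree := by
    intro l
    have hdl : (f l).natDegree ≤ D :=
      (single_le_sum (f := fun l => (f l).natDegree) (fun i _ => Nat.zero_le _) (mem_univ l)).trans hD
    refine classes_le hp (D + 1) E (f l).natDegree (f l) rfl ?_ (E + D * (D + 1)) ?_ _ ?_ ?_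
    · intro hd
      have h3 : p ^ E ≤ (f l).leadingCoeff.natAbs := by
        apply Nat.le_of_dvd (Int.natAbs_pos.2 (hlc0 l))
        apply Int.natCast_dvd.1
        push_cast
        exact hd
      have h4 : E < p ^ E := Nat.lt_pow_self hp.one_lt
      have := hlc l
      omega
    · have := Nat.mul_le_mul_right (D + 1) hdl
      omega
    · intro r hr
      exact hRlt r (mem_filter.1 hr).1
    · intro r hr
      exact (mem_filter.1 hr).2
  have h3 : ∑ l : Fin m, (R.filter (fun r : ℕ => ((p : ℤ) ^ (E + D * (D + 1))) ∣ (f l).eval (r : ℤ))).card ≤ D :=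
    (sum_le_sum fun l _ => h2 l).trans hD
  rw [hRcard] at h1
  have h4 : D < p ^ D := Nat.lt_pow_self hp.one_lt
  omega

/-- the residue class -/
theorem res_allP (f : Fin m → ℤ[X]) (I : Finset (Fin m)) (D E : ℕ) (hE : 1 ≤ E) (hD : ∑ l, (f l).natDegree ≤ D)
    (hlc0 : ∀ l, (f l).leadingCoeff ≠ 0) (hlc : ∀ l, (f l).leadingCoeff.natAbs ≤ E)
    (hI : ∀ p : ℕ, p.Prime → ∃ x : ℤ, ∀ l ∈ I, ¬ (p : ℤ) ∣ (f l).eval x) (z : ℕ) :
    ∃ r : ℕ, r ≤ Mze z (E + D * (D + 1)) ∧ ∀ p : ℕ, p.Prime → p ≤ z → (∀ l ∈ I, ¬ (p : ℤ) ∣ (f l).eval (r : ℤ)) ∧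
      ∀ l, ¬ ((p : ℤ) ^ (E + D * (D + 1))) ∣ (f l).eval (r : ℤ) := by
  classical
  obtain ⟨e, he⟩ : ∃ e : ℕ, e = E + D * (D + 1) := ⟨_, rfl⟩
  rw [← he]
  have he1 : 1 ≤ e := by omega
  have h1 : ∀ p : ℕ, ∃ y : ℕ, p.Prime → (∀ l ∈ I, ¬ (p : ℤ) ∣ (f l).eval (y : ℤ)) ∧
      ∀ l, ¬ ((p : ℤ) ^ e) ∣ (f l).eval (y : ℤ) := by
    intro p
    by_cases hp : p.Prime
    · obtain ⟨y, hy⟩ := res_pP f I D E hE hD hlc0 hlc hp (hI p hp)
      rw [← he] at hy
      exact ⟨y, fun _ => hy⟩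
    · exact ⟨0, fun h => absurd h hp⟩
  choose y hy using h1
  obtain ⟨r, hr⟩ := Nat.chineseRemainderOfFinset (fun p => y p) (fun p => p ^ e) ((range (z + 1)).filter Nat.Prime)
    (fun p hp => pow_ne_zero _ (mem_filter.1 hp).2.ne_zero) (by
      intro p hp q hq hpq
      rw [mem_coe, mem_filter] at hp hq
      exact Nat.Coprime.pow _ _ ((Nat.coprime_primes hp.2 hq.2).2 hpq))
  refine ⟨r % Mze z e, (Nat.mod_lt _ (Mze_pos _ _)).le, fun p hp hpz => ?_⟩
  have h2 : r % Mze z e ≡ y p [MOD p ^ e] :=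
    ((Nat.mod_modEq r _).of_dvd (Mze_dvd hp hpz)).trans (hr p (mem_filter.2 ⟨mem_range.2 (by omega), hp⟩))
  have h3 : ((r % Mze z e : ℕ) : ℤ) ≡ (y p : ℤ) [ZMOD (p : ℤ) ^ e] := by
    have := Int.natCast_modEq_iff.2 h2
    push_cast at this ⊢
    exact this
  obtain ⟨h4, h5⟩ := hy p hp
  have h6 : ∀ l, (f l).eval ((r % Mze z e : ℕ) : ℤ) ≡ (f l).eval (y p : ℤ) [ZMOD (p : ℤ) ^ e] := fun l =>
    Int.modEq_iff_dvd.2 ((Int.modEq_iff_dvd.1 h3).trans (Polynomial.sub_dvd_eval_sub _ _ (f l)))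
  have h7 : ∀ l, (f l).eval ((r % Mze z e : ℕ) : ℤ) ≡ (f l).eval (y p : ℤ) [ZMOD (p : ℤ)] := fun l =>
    Int.ModEq.of_dvd (dvd_pow_self _ (by omega)) (h6 l)
  exact ⟨fun l hl hd => h4 l hl (((h7 l).dvd_iff).1 hd), fun l hd => h5 l (((h6 l).dvd_iff).1 hd)⟩

/-- the hypotheses: no local condition except for the members of `I` -/
structure SysR (D E K X : ℕ) (f : Fin m → ℤ[X]) (I : Finset (Fin m)) (i j : Fin m) : Prop where
  deg : ∀ l, 1 ≤ (f l).natDegree
  sum : ∑ l, (f l).natDegree ≤ D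
  lc : ∀ l, (f l).leadingCoeff.natAbs ≤ E
  size : ∀ l n, n ≤ (f l).natDegree → |(f l).coeff n| ≤ K * (X : ℤ) ^ ((f l).natDegree - n)
  loc : ∀ p : ℕ, p.Prime → ∃ x : ℤ, ∀ l ∈ I, ¬ (p : ℤ) ∣ (f l).eval x
  di : (f i).natDegree = 1
  dj : (f j).natDegree = 1
  det : (f i).coeff 1 * (f j).coeff 0 ≠ (f j).coeff 1 * (f i).coeff 0
  iI : i ∈ I
  jI : j ∈ I

theorem eval_bound (g : ℤ[X]) (K X W : ℕ) (hX : 1 ≤ X) (hW : 1 ≤ W)
    (h : ∀ n, n ≤ g.natDegree → |g.coeff n| ≤ K * (X : ℤ) ^ (g.natDegree - n)) (x : ℤ) (h0 : 0 ≤ x) (h1 : x ≤ W * X) :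
    |g.eval x| ≤ ((g.natDegree + 1) * K * W ^ g.natDegree : ℕ) * (X : ℤ) ^ g.natDegree := by
  rw [Polynomial.eval_eq_sum_range]
  refine (abs_sum_le_sum_abs _ _).trans ?_
  have hXz : (1 : ℤ) ≤ X := by exact_mod_cast hX
  have hWz : (1 : ℤ) ≤ W := by exact_mod_cast hW
  have h2 : ∀ n ∈ range (g.natDegree + 1), |g.coeff n * x ^ n| ≤ K * (W : ℤ) ^ g.natDegree * (X : ℤ) ^ g.natDegree := by
    intro n hn
    rw [mem_range] at hn
    have hn' : n ≤ g.natDegree := by omega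
    rw [abs_mul, abs_pow, abs_of_nonneg h0]
    calc |g.coeff n| * x ^ n ≤ (K * (X : ℤ) ^ (g.natDegree - n)) * ((W : ℤ) * X) ^ n := by
          apply mul_le_mul (h n hn') (pow_le_pow_left₀ h0 h1 n) (by positivity) (by positivity)
      _ = K * (W : ℤ) ^ n * ((X : ℤ) ^ (g.natDegree - n) * (X : ℤ) ^ n) := by rw [mul_pow]; ring
      _ = K * (W : ℤ) ^ n * (X : ℤ) ^ g.natDegree := by rw [← pow_add, Nat.sub_add_cancel hn']
      _ ≤ K * (W : ℤ) ^ g.natDegree * (X : ℤ) ^ g.natDegree := by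
          apply mul_le_mul_of_nonneg_right _ (by positivity)
          exact mul_le_mul_of_nonneg_left (pow_le_pow_right₀ hWz hn') (by positivity)
  refine (sum_le_sum h2).trans ?_
  rw [sum_const, card_range, nsmul_eq_mul]
  push_cast
  ring_nf
  exact le_refl _

theorem lc_prod_not_dvd (f : Fin m → ℤ[X]) {E p : ℕ} (hp : p.Prime) (hEp : E < p) (hlc0 : ∀ l, (f l).leadingCoeff ≠ 0)
    (hlc : ∀ l, (f l).leadingCoeff.natAbs ≤ E) : ¬ (p : ℤ) ∣ (∏ l, f l).leadingCoeff := by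
  rw [Polynomial.leadingCoeff_prod]
  intro hd
  obtain ⟨l, _, hl⟩ := (Nat.prime_iff_prime_int.1 hp).exists_mem_finset_dvd hd
  have h1 := Nat.le_of_dvd (Int.natAbs_pos.2 (hlc0 l)) (Int.natCast_dvd.1 hl)
  have := hlc l
  omega

theorem SysR.locBig {D E K X : ℕ} {f : Fin m → ℤ[X]} {I : Finset (Fin m)} {i j : Fin m} (S : SysR D E K X f I i j)
    {p : ℕ} (hp : p.Prime) (hpD : max D E < p) : ∃ x : ℤ, ¬ (p : ℤ) ∣ ∏ l, (f l).eval x := by
  have hlc0 : ∀ l, (f l).leadingCoeff ≠ 0 := by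
    intro l h
    have h1 := S.deg l
    rw [Polynomial.leadingCoeff_eq_zero] at h
    rw [h, Polynomial.natDegree_zero] at h1
    omega
  obtain ⟨x, hx⟩ := loc_big (∏ l, f l) hp
    (lc_prod_not_dvd f hp (lt_of_le_of_lt (le_max_right _ _) hpD) hlc0 S.lc)
    (lt_of_le_of_lt ((Polynomial.natDegree_prod_le _ _).trans (S.sum.trans (le_max_left _ _))) hpD)
  exact ⟨x, by rwa [Polynomial.eval_prod] at hx⟩

/-- the substituted system -/
theorem SysR.sub {D E K X : ℕ} {f : Fin m → ℤ[X]} {I : Finset (Fin m)} {i j : Fin m} (S : SysR D E K X f I i j)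
    (hX : 1 ≤ X) (hE : 1 ≤ E) (z : ℕ) (hz : max D E ≤ z) (hz2 : 2 ≤ z) :
    ∃ (r : ℕ) (h : Fin m → ℤ[X]), r ≤ Mze z (E + D * (D + 1)) ∧
      Sbs f h (fun l => (sm z ((f l).eval (r : ℤ)) : ℤ)) (Mze z (E + D * (D + 1))) r ∧
      (∀ l ∈ I, sm z ((f l).eval (r : ℤ)) = 1) ∧ (∀ l, sm z ((f l).eval (r : ℤ)) ≤ Mze z (E + D * (D + 1))) ∧
      Sys D (E * Mze z (E + D * (D + 1))) ((D + 1) * K * (2 * Mze z (E + D * (D + 1))) ^ D) X h i j := by
  classical
  obtain ⟨e, he⟩ : ∃ e : ℕ, e = E + D * (D + 1) := ⟨_, rfl⟩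
  have he1 : 1 ≤ e := by omega
  obtain ⟨M, hM⟩ : ∃ M : ℕ, M = Mze z e := ⟨_, rfl⟩
  have hM1 : 1 ≤ M := by rw [hM]; exact Mze_pos _ _
  have hlc0 : ∀ l, (f l).leadingCoeff ≠ 0 := by
    intro l h
    have h1 := S.deg l
    rw [Polynomial.leadingCoeff_eq_zero] at h
    rw [h, Polynomial.natDegree_zero] at h1
    omega
  obtain ⟨r, hr, hrp⟩ := res_allP f I D E hE S.sum hlc0 S.lc S.loc z
  rw [← he] at hr hrp ⊢
  have hne : ∀ l, (f l).eval (r : ℤ) ≠ 0 := by
    intro l h0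
    apply (hrp 2 Nat.prime_two hz2).2 l
    rw [h0]
    exact dvd_zero _
  have hvp : ∀ l, ∀ p : ℕ, p.Prime → p ≤ z → ((f l).eval (r : ℤ)).natAbs.factorization p < e := by
    intro l p hp hpz
    by_contra hcon
    push Not at hcon
    apply (hrp p hp hpz).2 l
    have h1 : p ^ e ∣ ((f l).eval (r : ℤ)).natAbs := (pow_dvd_pow p hcon).trans (Nat.ordProj_dvd _ _)
    have h2 := Int.natCast_dvd.2 h1
    push_cast at h2
    exact h2
  have hsmM : ∀ l, sm z ((f l).eval (r : ℤ)) ∣ M := by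
    intro l
    apply prodpow_dvd
    intro p hp hpz
    rw [hM]
    exact (pow_dvd_pow p (hvp l p hp hpz).le).trans (Mze_dvd hp hpz)
  have hMp : ∀ p : ℕ, p.Prime → p ∣ M → p ≤ z := fun p hp hd => Mze_prime hp (by rw [← hM]; exact hd)
  obtain ⟨h, S'⟩ := smooth_sbs' f r z M hM1 hMp hne (fun l p hp hpz => by
      rw [hM]
      exact (pow_dvd_pow p (hvp l p hp hpz)).trans (Mze_dvd hp hpz))
  rw [← hM] at hr ⊢
  refine ⟨r, h, hr, S', fun l hl => sm_one' fun p hp hpz => (hrp p hp hpz).1 l hl,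
    fun l => Nat.le_of_dvd hM1 (hsmM l), ?_⟩
  have hdeg : ∀ l, (h l).natDegree = (f l).natDegree := fun l => S'.deg l
  have hMz : (1 : ℤ) ≤ M := by exact_mod_cast hM1
  have hXz : (1 : ℤ) ≤ X := by exact_mod_cast hX
  have hrz : (r : ℤ) ≤ M := by exact_mod_cast hr
  have hr0 : (0 : ℤ) ≤ r := by positivity
  have hev : ∀ l (x : ℤ), (sm z ((f l).eval (r : ℤ)) : ℤ) * (h l).eval x = (f l).eval (M * x + r) := fun l x =>
    S'.eval l x
  have hsm1 : ∀ l, (1 : ℤ) ≤ (sm z ((f l).eval (r : ℤ)) : ℤ) := fun l => by exact_mod_cast sm_pos _ _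
  have hcoef : ∀ l, (f l).natDegree = 1 → ((h l).coeff 1).natAbs ≤ E * M := by
    intro l hl
    have h1 := hev l 1
    have h0 := hev l 0
    have hh : (h l).natDegree = 1 := by rw [hdeg, hl]
    rw [eval_lin hh, eval_lin hl (M * 1 + r)] at h1
    rw [eval_lin hh, eval_lin hl (M * 0 + r)] at h0
    have h2 : (sm z ((f l).eval (r : ℤ)) : ℤ) * (h l).coeff 1 = (f l).coeff 1 * M := by linear_combination h1 - h0
    have h3 : |(h l).coeff 1| ≤ |(f l).coeff 1 * M| := by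
      rw [← h2, abs_mul, abs_of_nonneg (by linarith [hsm1 l] : (0 : ℤ) ≤ (sm z ((f l).eval (r : ℤ)) : ℤ))]
      exact le_mul_of_one_le_left (abs_nonneg _) (hsm1 l)
    have h6 : |(f l).coeff 1| ≤ E := by
      have h7 := S.lc l
      unfold Polynomial.leadingCoeff at h7
      rw [hl] at h7
      rw [Int.abs_eq_natAbs]
      exact_mod_cast h7
    have h4 : |(f l).coeff 1 * (M : ℤ)| ≤ E * M := by
      rw [abs_mul, abs_of_nonneg (by linarith : (0 : ℤ) ≤ M)]
      exact mul_le_mul_of_nonneg_right h6 (by linarith)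
    have h5 := h3.trans h4
    rw [Int.abs_eq_natAbs] at h5
    exact_mod_cast h5
  exact
    { deg := fun l => by rw [hdeg]; exact S.deg l
      sum := by simp only [hdeg]; exact S.sum
      loc := by
        apply S'.loc
        intro p hp hpM
        have hzp : z < p := by
          by_contra hcon
          apply hpM
          rw [hM]
          exact (dvd_pow_self p (by omega)).trans (Mze_dvd hp (not_lt.1 hcon))
        exact S.locBig hp (lt_of_le_of_lt hz hzp)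
      size := fun l x hx0 hxX => by
        rw [hdeg]
        have h1 := hev l x
        have h2 : |(h l).eval x| ≤ |(f l).eval (M * x + r)| := by
          rw [← h1, abs_mul, abs_of_nonneg (by linarith [hsm1 l] : (0 : ℤ) ≤ (sm z ((f l).eval (r : ℤ)) : ℤ))]
          exact le_mul_of_one_le_left (abs_nonneg _) (hsm1 l)
        have h3 := eval_bound (f l) K X (2 * M) hX (by omega) (S.size l) (M * x + r) (by positivity) (by
          push_cast
          nlinarith)
        refine h2.trans (h3.trans ?_)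
        have hdD : (f l).natDegree ≤ D :=
          (single_le_sum (f := fun l => (f l).natDegree) (fun i _ => Nat.zero_le _) (mem_univ l)).trans S.sum
        apply mul_le_mul_of_nonneg_right _ (by positivity)
        have h4 : ((f l).natDegree + 1) * K * (2 * M) ^ (f l).natDegree ≤ (D + 1) * K * (2 * M) ^ D := by
          apply Nat.mul_le_mul
          · exact Nat.mul_le_mul_right _ (by omega)
          · exact Nat.pow_le_pow_right (by omega) hdD
        exact_mod_cast h4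
      di := by rw [hdeg]; exact S.di
      dj := by rw [hdeg]; exact S.dj
      ei := hcoef i S.di
      ej := hcoef j S.dj
      ne := by
        have := S'.ne (i := i) (j := j) S.det 1
        rwa [Polynomial.C_1, one_mul] at this
      ne' := by
        have := S'.ne (i := i) (j := j) S.det (-1)
        rwa [Polynomial.C_neg, Polynomial.C_1, neg_one_mul] at this }

open Classical in
/-- the good arguments -/
noncomputable def GR (f : Fin m → ℤ[X]) (I : Finset (Fin m)) (i j : Fin m) (z G t X A B : ℕ) : Finset ℕ :=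
  (Ioc A B).filter (fun x : ℕ => ((f i).eval (x : ℤ)).natAbs.Prime ∧
    Almost 2 ((X : ℝ) ^ (1 / 9 : ℝ)) ((f j).eval (x : ℤ)) ∧
    (∀ l ∈ I, Almost (t * (f l).natDegree) ((X : ℝ) ^ (1 / (t : ℝ))) ((f l).eval (x : ℤ))) ∧
    ∀ l, Near z G (t * (f l).natDegree) ((X : ℝ) ^ (1 / (t : ℝ))) ((f l).eval (x : ℤ)))

theorem uncP (D E : ℕ) (hD : 1 ≤ D) (hE : 1 ≤ E) : ∃ z G t : ℕ, 1 ≤ G ∧ 1 ≤ t ∧ ∃ κ : ℝ, 0 < κ ∧ ∀ (K s ρ : ℕ) (θ δ : ℝ),
    1 ≤ s → 0 < θ → 0 < δ → ∃ c X₀ : ℕ, ∀ X : ℕ, X₀ ≤ X → ∀ (m : ℕ) (f : Fin m → ℤ[X]) (I : Finset (Fin m)) (i j : Fin m),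
      SysR D E K X f I i j → κ / Real.log X ^ D ≤ VZ f z X ∧
      ∀ A B : ℕ, B ≤ X → θ * X ≤ (B : ℝ) - A →
        κ * ((B : ℝ) - A) * VZ f z X ≤ ((GR f I i j z G t X A B).card : ℝ) ∧
        ∀ χ : ℕ → Fin ρ, ∃ P : Finset (ℕ × ℕ),
          (∀ τ ∈ P, 1 ≤ τ.2 ∧ (τ.2 : ℝ) ≤ Real.log X ^ c ∧
            ∀ l < s, τ.1 + l * τ.2 ∈ GR f I i j z G t X A B ∧ χ (τ.1 + l * τ.2) = χ τ.1) ∧
          (P : Set (ℕ × ℕ)).PairwiseDisjoint (apSet s) ∧
          (((GR f I i j z G t X A B \ P.biUnion (apSet s)).card : ℕ) : ℝ) ≤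
            δ * ((B : ℝ) - A) * VZ f z X := by
  classical
  obtain ⟨z, hz⟩ : ∃ z : ℕ, z = max (max D E) 2 := ⟨_, rfl⟩
  have hz1 : max D E ≤ z := by rw [hz]; exact le_max_left _ _
  have hz2 : 2 ≤ z := by rw [hz]; exact le_max_right _ _
  obtain ⟨e, he⟩ : ∃ e : ℕ, e = E + D * (D + 1) := ⟨_, rfl⟩
  obtain ⟨M, hM⟩ : ∃ M : ℕ, M = Mze z e := ⟨_, rfl⟩
  have hM1 : 1 ≤ M := by rw [hM]; exact Mze_pos _ _
  have hM0 : (0 : ℝ) < M := by exact_mod_cast hM1
  obtain ⟨t, ht, κ, hκ, H⟩ := mainU D (E * M) hD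
  refine ⟨z, M, t, hM1, ht, κ / (2 * M), by positivity, fun K s ρ θ δ hs hθ hδ => ?_⟩
  obtain ⟨X₁, h1⟩ := H (θ / (2 * M)) (by positivity) ((D + 1) * K * (2 * M) ^ D)
  obtain ⟨N₁, hN₁⟩ := exists_nat_gt ((4 * M + 2 * M) / θ)
  obtain ⟨c, X₂, h2⟩ := prog_z D t z ht s (1 / 2) (δ / (ρ + 1)) (by norm_num) (by positivity)
  obtain ⟨X₃, h3⟩ := eventually_atTop.1 (long_short θ hθ)
  refine ⟨c, max (max X₁ (max N₁ 3)) (max X₂ X₃), fun X hX m f I i j S => ?_⟩
  have hX1 : X₁ ≤ X := (le_max_left _ _).trans ((le_max_left _ _).trans hX)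
  have hXN : N₁ ≤ X := (le_max_left _ _).trans ((le_max_right _ _).trans ((le_max_left _ _).trans hX))
  have hX3 : 3 ≤ X := (le_max_right _ _).trans ((le_max_right _ _).trans ((le_max_left _ _).trans hX))
  have hX2 : X₂ ≤ X := (le_max_left _ _).trans ((le_max_right _ _).trans hX)
  have hX3' : X₃ ≤ X := (le_max_right _ _).trans ((le_max_right _ _).trans hX)
  have hX0 : (0 : ℝ) < X := by exact_mod_cast (by omega : 0 < X)
  have hlog : 0 < Real.log X := Real.log_pos (by exact_mod_cast (by omega : 1 < X))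
  obtain ⟨r, h, hr, S', hI, hg, HS⟩ := S.sub (by omega) hE z hz1 hz2
  rw [← he, ← hM] at hr S' hg HS
  have hVZ : V h X = VZ f z X := by rw [S'.V_eq, hM, VM_Mze _ _ _ _ (by omega)]
  obtain ⟨hVl, hcnt⟩ := h1 X hX1 m h i j HS
  rw [hVZ] at hVl hcnt
  have hV0 : 0 < VZ f z X := lt_of_lt_of_le (by positivity) hVl
  have hdeg : ∀ l, (h l).natDegree = (f l).natDegree := fun l => S'.deg l
  refine ⟨le_trans ?_ hVl, fun A B hB hAB => ?_⟩
  · apply div_le_div_of_nonneg_right _ (by positivity)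
    rw [div_le_iff₀ (by positivity)]
    have : (1 : ℝ) ≤ M := by exact_mod_cast hM1
    nlinarith
  have hBA0 : 0 < (B : ℝ) - A := lt_of_lt_of_le (by positivity) hAB
  constructor
  · have hsize : 4 * (M : ℝ) + 2 * r ≤ θ * X := by
      have h4 : (4 * M + 2 * M) / θ ≤ X := by
        have : (N₁ : ℝ) ≤ X := by exact_mod_cast hXN
        linarith
      have h5 := (div_le_iff₀ hθ).1 h4
      have h6 : (r : ℝ) ≤ M := by exact_mod_cast hr
      linarith
    obtain ⟨A', B', hB'B, hlen, hcard⟩ := transfer hM1 (fun A' B' => GoodX h i j t X A' B')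
      (fun A B => GR f I i j z M t X A B) (fun A' B' => filter_subset _ _) (by
        intro A' B' A B y hy hA hB
        unfold GoodX at hy
        rw [mem_filter] at hy
        obtain ⟨_, y3, y4, y5⟩ := hy
        unfold GR
        rw [mem_filter, mem_Ioc]
        have hev : ∀ l, (f l).eval (((M * y + r : ℕ)) : ℤ) = (sm z ((f l).eval (r : ℤ)) : ℤ) * (h l).eval (y : ℤ) := by
          intro l
          rw [S'.eval]
          push_cast
          rfl
        have hevI : ∀ l ∈ I, (f l).eval (((M * y + r : ℕ)) : ℤ) = (h l).eval (y : ℤ) := by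
          intro l hl
          rw [hev, hI l hl]
          simp
        refine ⟨⟨hA, hB⟩, ?_, ?_, fun l hl => ?_, fun l => ?_⟩
        · rw [hevI i S.iI]
          exact y3
        · rw [hevI j S.jI]
          exact y4
        · rw [hevI l hl, ← hdeg]
          exact y5 l
        · refine ⟨sm z ((f l).eval (r : ℤ)), (h l).eval (y : ℤ), hev l, sm_pos _ _, hg l,
            fun p hp hd => sm_smooth z _ hp hd, ?_⟩
          rw [← hdeg]
          exact y5 l) A B (hsize.trans hAB)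
    have hθ' : θ / (2 * M) * X ≤ (B' : ℝ) - A' := by
      refine le_trans ?_ hlen
      rw [div_mul_eq_mul_div]
      exact div_le_div_of_nonneg_right hAB (by positivity)
    have h4 := hcnt A' B' (hB'B.trans hB) hθ'
    have hcard' : ((GoodX h i j t X A' B').card : ℝ) ≤ (GR f I i j z M t X A B).card := by
      exact_mod_cast hcard
    refine le_trans ?_ (h4.trans hcard')
    calc κ / (2 * M) * ((B : ℝ) - A) * VZ f z X = κ * (((B : ℝ) - A) / (2 * M)) * VZ f z X := by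
          field_simp
      _ ≤ κ * ((B' : ℝ) - A') * VZ f z X := by
          apply mul_le_mul_of_nonneg_right _ hV0.le
          exact mul_le_mul_of_nonneg_left hlen hκ.le
  · intro χ
    have hlz : ∀ p : ℕ, p.Prime → z < p → ∃ x : ℤ, ¬ (p : ℤ) ∣ ∏ l, (f l).eval x := fun p hp hzp =>
      S.locBig hp (lt_of_le_of_lt hz1 hzp)
    obtain ⟨P, p1, p2, p3⟩ := part_col s ρ hs (Real.log X ^ c) (δ / (ρ + 1) * ((B : ℝ) - A) * VZ f z X)
      (by positivity) (GR f I i j z M t X A B) (by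
        intro T' hT' hTc
        refine h2 X hX2 m f S.sum hlz A B hB ((h3 X hX3').trans hAB) T' (hT'.trans (filter_subset _ _)) ?_ hTc
        intro x hx l q hq hzq hd
        have hx' := hT' hx
        unfold GR at hx'
        rw [mem_filter] at hx'
        obtain ⟨g, w, e1, _, _, e4, e5⟩ := hx'.2.2.2.2 l
        rw [e1] at hd
        rcases (Nat.prime_iff_prime_int.1 hq).dvd_or_dvd hd with h6 | h6
        · exact absurd (e4 q hq (Int.natCast_dvd_natCast.1 h6)) (by omega)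
        · exact e5.2.2 q hq h6) χ
    refine ⟨P, p1, p2, p3.le.trans ?_⟩
    have h6 : (ρ : ℝ) * (δ / (ρ + 1) * ((B : ℝ) - A) * VZ f z X) =
        (ρ / (ρ + 1)) * (δ * ((B : ℝ) - A) * VZ f z X) := by
      field_simp
    rw [h6]
    have h7 : (ρ : ℝ) / (ρ + 1) ≤ 1 := by
      rw [div_le_one (by positivity)]
      linarith
    exact mul_le_of_le_one_left (by positivity) h7

end Pool.Agent.X32.Uni
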