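import Pool.Agent.X32.Uni.UncP

/-!
The theorem for systems given as finite sets of polynomials.
-/

set_option autoImplicit false

namespace Pool.Agent.X32.Uni

open Finset Filter
open Polynomial (C X)
open scoped Polynomial

/-- the number of zeros of the product modulo `p` -/
def omS (S : Finset ℤ[X]) (p : ℕ) : ℕ := ((range p).filter fun x : ℕ => (p : ℤ) ∣ ∏ f ∈ S, f.eval (x : ℤ)).card

/-- the local factors at the primes in `(z, X]` -/
noncomputable def VS (S : Finset ℤ[X]) (z X : ℕ) : ℝ := ∏ p ∈ (Ioc z X).filter Nat.Prime, (1 - (omS S p : ℝ) / p)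

/-- the hypotheses: no local condition except for the members of `T` -/
structure SysF (D E K X : ℕ) (S T : Finset ℤ[X]) (u v : ℤ[X]) : Prop where
  TS : T ⊆ S
  deg : ∀ f ∈ S, 1 ≤ f.natDegree
  sum : ∑ f ∈ S, f.natDegree ≤ D
  lc : ∀ f ∈ S, f.leadingCoeff.natAbs ≤ E
  size : ∀ f ∈ S, ∀ n, n ≤ f.natDegree → |f.coeff n| ≤ K * (X : ℤ) ^ (f.natDegree - n)
  loc : ∀ p : ℕ, p.Prime → ∃ x : ℤ, ∀ f ∈ T, ¬ (p : ℤ) ∣ f.eval x
  uT : u ∈ T
  vT : v ∈ T
  du : u.natDegree = 1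
  dv : v.natDegree = 1
  det : u.coeff 1 * v.coeff 0 ≠ v.coeff 1 * u.coeff 0

open Classical in
/-- the good arguments -/
noncomputable def GSF (S T : Finset ℤ[X]) (u v : ℤ[X]) (z G t X A B : ℕ) : Finset ℕ :=
  (Ioc A B).filter (fun x : ℕ => (u.eval (x : ℤ)).natAbs.Prime ∧
    Almost 2 ((X : ℝ) ^ (1 / 9 : ℝ)) (v.eval (x : ℤ)) ∧
    (∀ f ∈ T, Almost (t * f.natDegree) ((X : ℝ) ^ (1 / (t : ℝ))) (f.eval (x : ℤ))) ∧
    ∀ f ∈ S, Near z G (t * f.natDegree) ((X : ℝ) ^ (1 / (t : ℝ))) (f.eval (x : ℤ)))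

theorem uncS (D E : ℕ) (hD : 1 ≤ D) (hE : 1 ≤ E) : ∃ z G t : ℕ, 1 ≤ G ∧ 1 ≤ t ∧ ∃ κ : ℝ, 0 < κ ∧ ∀ (K s ρ : ℕ) (θ δ : ℝ),
    1 ≤ s → 0 < θ → 0 < δ → ∃ c X₀ : ℕ, ∀ X : ℕ, X₀ ≤ X → ∀ (S T : Finset ℤ[X]) (u v : ℤ[X]),
      SysF D E K X S T u v → κ / Real.log X ^ D ≤ VS S z X ∧
      ∀ A B : ℕ, B ≤ X → θ * X ≤ (B : ℝ) - A →
        κ * ((B : ℝ) - A) * VS S z X ≤ ((GSF S T u v z G t X A B).card : ℝ) ∧
        ∀ χ : ℕ → Fin ρ, ∃ P : Finset (ℕ × ℕ),
          (∀ τ ∈ P, 1 ≤ τ.2 ∧ (τ.2 : ℝ) ≤ Real.log X ^ c ∧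
            ∀ l < s, τ.1 + l * τ.2 ∈ GSF S T u v z G t X A B ∧ χ (τ.1 + l * τ.2) = χ τ.1) ∧
          (P : Set (ℕ × ℕ)).PairwiseDisjoint (apSet s) ∧
          (((GSF S T u v z G t X A B \ P.biUnion (apSet s)).card : ℕ) : ℝ) ≤
            δ * ((B : ℝ) - A) * VS S z X := by
  classical
  obtain ⟨z, G, t, hG1, ht, κ, hκ, H⟩ := uncP D E hD hE
  refine ⟨z, G, t, hG1, ht, κ, hκ, fun K s ρ θ δ hs hθ hδ => ?_⟩
  obtain ⟨c, X₀, h⟩ := H K s ρ θ δ hs hθ hδ
  refine ⟨c, X₀, fun X hX S T u v Y => ?_⟩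
  have hmem : ∀ l : Fin S.card, ((S.equivFin.symm l : S) : ℤ[X]) ∈ S := fun l => (S.equivFin.symm l).2
  obtain ⟨f, hf⟩ : ∃ f : Fin S.card → ℤ[X], f = fun l => ((S.equivFin.symm l : S) : ℤ[X]) := ⟨_, rfl⟩
  obtain ⟨I, hI⟩ : ∃ I : Finset (Fin S.card), I = univ.filter (fun l => f l ∈ T) := ⟨_, rfl⟩
  have hfm : ∀ l, f l ∈ S := fun l => by rw [hf]; exact hmem l
  have hfs : ∀ g ∈ S, ∃ l, f l = g := fun g hg => ⟨S.equivFin ⟨g, hg⟩, by rw [hf]; simp⟩
  obtain ⟨i, hi⟩ := hfs u (Y.TS Y.uT)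
  obtain ⟨j, hj⟩ := hfs v (Y.TS Y.vT)
  have hprod : ∀ x : ℤ, ∏ l, (f l).eval x = ∏ g ∈ S, g.eval x := by
    intro x
    rw [hf]
    rw [← Finset.prod_coe_sort S (fun g => g.eval x)]
    exact Equiv.prod_comp S.equivFin.symm (fun g : S => (g : ℤ[X]).eval x)
  have hsum : ∑ l, (f l).natDegree = ∑ g ∈ S, g.natDegree := by
    rw [hf]
    rw [← Finset.sum_coe_sort S (fun g => g.natDegree)]
    exact Equiv.sum_comp S.equivFin.symm (fun g : S => (g : ℤ[X]).natDegree)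
  have hV : VZ f z X = VS S z X := by
    unfold VZ VS
    apply prod_congr rfl fun p _ => ?_
    have : om f p = omS S p := by
      unfold om omS
      congr 1
      apply filter_congr fun x _ => ?_
      rw [hprod]
    rw [this]
  have hG : ∀ A B, GR f I i j z G t X A B = GSF S T u v z G t X A B := by
    intro A B
    unfold GR GSF
    apply filter_congr fun x _ => ?_
    rw [hi, hj]
    constructor
    · rintro ⟨a, b, c, d⟩
      refine ⟨a, b, fun g hg => ?_, fun g hg => ?_⟩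
      · obtain ⟨l, hl⟩ := hfs g (Y.TS hg)
        have := c l (by rw [hI, mem_filter, hl]; exact ⟨mem_univ _, hg⟩)
        rwa [hl] at this
      · obtain ⟨l, hl⟩ := hfs g hg
        have := d l
        rwa [hl] at this
    · rintro ⟨a, b, c, d⟩
      refine ⟨a, b, fun l hl => ?_, fun l => ?_⟩
      · rw [hI, mem_filter] at hl
        exact c _ hl.2
      · exact d _ (hfm l)
  have h1 := h X hX S.card f I i j
    { deg := fun l => Y.deg _ (hfm l)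
      sum := by rw [hsum]; exact Y.sum
      lc := fun l => Y.lc _ (hfm l)
      size := fun l => Y.size _ (hfm l)
      loc := by
        intro p hp
        obtain ⟨x, hx⟩ := Y.loc p hp
        exact ⟨x, fun l hl => hx _ (by rw [hI, mem_filter] at hl; exact hl.2)⟩
      di := by rw [hi]; exact Y.du
      dj := by rw [hj]; exact Y.dv
      det := by rw [hi, hj]; exact Y.det
      iI := by rw [hI, mem_filter, hi]; exact ⟨mem_univ _, Y.uT⟩
      jI := by rw [hI, mem_filter, hj]; exact ⟨mem_univ _, Y.vT⟩ }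
  rw [hV] at h1
  simp only [hG] at h1
  exact h1

theorem sum_insert_le' {α : Type*} [DecidableEq α] {f : α → ℕ} (a : α) (s : Finset α) :
    ∑ x ∈ insert a s, f x ≤ f a + ∑ x ∈ s, f x := by
  by_cases h : a ∈ s
  · rw [insert_eq_of_mem h]
    exact Nat.le_add_left _ _
  · rw [sum_insert h]

/-- the number of zeros of `u v ∏ f` -/
def omQ (u v : ℤ[X]) (Q : Finset ℤ[X]) (p : ℕ) : ℕ :=
  ((range p).filter fun x : ℕ => (p : ℤ) ∣ u.eval (x : ℤ) * v.eval (x : ℤ) * ∏ f ∈ Q, f.eval (x : ℤ)).card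

/-- the local factors at the primes in `(z, X]` -/
noncomputable def VQ (u v : ℤ[X]) (Q : Finset ℤ[X]) (z X : ℕ) : ℝ :=
  ∏ p ∈ (Ioc z X).filter Nat.Prime, (1 - (omQ u v Q p : ℝ) / p)

open Classical in
/-- the good arguments -/
noncomputable def GQ (u v : ℤ[X]) (Q T : Finset ℤ[X]) (z G t X A B : ℕ) : Finset ℕ :=
  (Ioc A B).filter (fun x : ℕ => (u.eval (x : ℤ)).natAbs.Prime ∧
    Almost t ((X : ℝ) ^ (1 / (t : ℝ))) (u.eval (x : ℤ)) ∧
    Almost 2 ((X : ℝ) ^ (1 / 9 : ℝ)) (v.eval (x : ℤ)) ∧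
    Almost t ((X : ℝ) ^ (1 / (t : ℝ))) (v.eval (x : ℤ)) ∧
    (∀ f ∈ T, Almost (t * f.natDegree) ((X : ℝ) ^ (1 / (t : ℝ))) (f.eval (x : ℤ))) ∧
    ∀ f ∈ Q, Near z G (t * f.natDegree) ((X : ℝ) ^ (1 / (t : ℝ))) (f.eval (x : ℤ)))

/-- the hypotheses -/
structure SysQ (D E K X : ℕ) (u v : ℤ[X]) (Q T : Finset ℤ[X]) : Prop where
  TQ : T ⊆ Q
  du : u.natDegree = 1
  dv : v.natDegree = 1
  u1 : (u.coeff 1).natAbs ≤ E
  v1 : (v.coeff 1).natAbs ≤ E
  u0 : |u.coeff 0| ≤ K * (X : ℤ)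
  v0 : |v.coeff 0| ≤ K * (X : ℤ)
  det : u.coeff 1 * v.coeff 0 ≠ v.coeff 1 * u.coeff 0
  deg : ∀ f ∈ Q, 1 ≤ f.natDegree
  sum : ∑ f ∈ Q, f.natDegree ≤ D
  lc : ∀ f ∈ Q, f.leadingCoeff.natAbs ≤ E
  size : ∀ f ∈ Q, ∀ n, n < f.natDegree → |f.coeff n| ≤ K * (X : ℤ) ^ (f.natDegree - n)
  loc : ∀ p : ℕ, p.Prime → ∃ x : ℤ, ¬ (p : ℤ) ∣ u.eval x * v.eval x * ∏ f ∈ T, f.eval x

theorem size_lin {E K X : ℕ} {u : ℤ[X]} (du : u.natDegree = 1) (u1 : (u.coeff 1).natAbs ≤ E)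
    (u0 : |u.coeff 0| ≤ K * (X : ℤ)) (hX : 1 ≤ X) : ∀ n, n ≤ u.natDegree →
      |u.coeff n| ≤ ((K + E : ℕ) : ℤ) * (X : ℤ) ^ (u.natDegree - n) := by
  intro n hn
  rw [du] at hn ⊢
  have hXz : (1 : ℤ) ≤ X := by exact_mod_cast hX
  have hE : (0 : ℤ) ≤ E := by positivity
  have hK : (0 : ℤ) ≤ K := by positivity
  obtain rfl | rfl : n = 0 ∨ n = 1 := by omega
  · simp only [Nat.sub_zero, pow_one]
    push_cast
    nlinarith
  · simp only [Nat.sub_self, pow_zero, mul_one]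
    rw [Int.abs_eq_natAbs]
    push_cast
    have : ((u.coeff 1).natAbs : ℤ) ≤ E := by exact_mod_cast u1
    linarith

theorem uncQ (D E : ℕ) (hE : 1 ≤ E) : ∃ z G t : ℕ, 1 ≤ G ∧ 1 ≤ t ∧ ∃ κ : ℝ, 0 < κ ∧ ∀ (K s ρ : ℕ) (θ δ : ℝ),
    1 ≤ s → 0 < θ → 0 < δ → ∃ c X₀ : ℕ, ∀ X : ℕ, X₀ ≤ X → ∀ (u v : ℤ[X]) (Q T : Finset ℤ[X]),
      SysQ D E K X u v Q T → κ / Real.log X ^ (D + 2) ≤ VQ u v Q z X ∧
      ∀ A B : ℕ, B ≤ X → θ * X ≤ (B : ℝ) - A →
        κ * ((B : ℝ) - A) * VQ u v Q z X ≤ ((GQ u v Q T z G t X A B).card : ℝ) ∧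
        ∀ χ : ℕ → Fin ρ, ∃ P : Finset (ℕ × ℕ),
          (∀ τ ∈ P, 1 ≤ τ.2 ∧ (τ.2 : ℝ) ≤ Real.log X ^ c ∧
            ∀ l < s, τ.1 + l * τ.2 ∈ GQ u v Q T z G t X A B ∧ χ (τ.1 + l * τ.2) = χ τ.1) ∧
          (P : Set (ℕ × ℕ)).PairwiseDisjoint (apSet s) ∧
          (((GQ u v Q T z G t X A B \ P.biUnion (apSet s)).card : ℕ) : ℝ) ≤
            δ * ((B : ℝ) - A) * VQ u v Q z X := by
  classical
  obtain ⟨z, G, t, hG1, ht, κ, hκ, H⟩ := uncS (D + 2) E (by omega) hE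
  refine ⟨z, G, t, hG1, ht, κ, hκ, fun K s ρ θ δ hs hθ hδ => ?_⟩
  obtain ⟨c, X₀, h⟩ := H (K + E) s ρ θ δ hs hθ hδ
  refine ⟨c, max X₀ 1, fun X hX u v Q T Y => ?_⟩
  have hX0 : X₀ ≤ X := (le_max_left _ _).trans hX
  have hX1 : 1 ≤ X := (le_max_right _ _).trans hX
  obtain ⟨S, hS⟩ : ∃ S : Finset ℤ[X], S = insert u (insert v Q) := ⟨_, rfl⟩
  obtain ⟨T', hT'⟩ : ∃ T' : Finset ℤ[X], T' = insert u (insert v T) := ⟨_, rfl⟩
  have hdvd : ∀ (R : Finset ℤ[X]) (p : ℕ), p.Prime → ∀ x : ℤ,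
      ((p : ℤ) ∣ ∏ f ∈ insert u (insert v R), f.eval x) ↔ (p : ℤ) ∣ u.eval x * v.eval x * ∏ f ∈ R, f.eval x := by
    intro R p hp x
    have hpi := Nat.prime_iff_prime_int.1 hp
    rw [hpi.dvd_finsetProd_iff, hpi.dvd_mul, hpi.dvd_mul, hpi.dvd_finsetProd_iff]
    simp only [mem_insert, exists_eq_or_imp]
    tauto
  have hV : VS S z X = VQ u v Q z X := by
    unfold VS VQ
    apply prod_congr rfl fun p hp => ?_
    have : omS S p = omQ u v Q p := by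
      unfold omS omQ
      congr 1
      apply filter_congr fun x _ => ?_
      rw [hS]
      exact hdvd Q p (mem_filter.1 hp).2 _
    rw [this]
  have hXz : (1 : ℤ) ≤ X := by exact_mod_cast hX1
  have hsizeQ : ∀ f ∈ Q, ∀ n, n ≤ f.natDegree → |f.coeff n| ≤ ((K + E : ℕ) : ℤ) * (X : ℤ) ^ (f.natDegree - n) := by
    intro f hf n hn
    rcases Nat.lt_or_ge n f.natDegree with h1 | h1
    · refine (Y.size f hf n h1).trans ?_
      apply mul_le_mul_of_nonneg_right _ (by positivity)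
      push_cast
      linarith [(by positivity : (0 : ℤ) ≤ E)]
    · have h2 : n = f.natDegree := by omega
      rw [h2, Nat.sub_self, pow_zero, mul_one, Int.abs_eq_natAbs]
      have h3 := Y.lc f hf
      unfold Polynomial.leadingCoeff at h3
      push_cast
      have : ((f.coeff f.natDegree).natAbs : ℤ) ≤ E := by exact_mod_cast h3
      linarith [(by positivity : (0 : ℤ) ≤ K)]
  have hlcu : u.leadingCoeff.natAbs ≤ E := by
    unfold Polynomial.leadingCoeff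
    rw [Y.du]
    exact Y.u1
  have hlcv : v.leadingCoeff.natAbs ≤ E := by
    unfold Polynomial.leadingCoeff
    rw [Y.dv]
    exact Y.v1
  have hGG : ∀ A B, GSF S T' u v z G t X A B = GQ u v Q T z G t X A B := by
    intro A B
    unfold GSF GQ
    apply filter_congr fun x _ => ?_
    rw [hS, hT']
    simp only [mem_insert, forall_eq_or_imp, Y.du, Y.dv, mul_one]
    have hN : ∀ w : ℤ, Almost t ((X : ℝ) ^ (1 / (t : ℝ))) w → Near z G t ((X : ℝ) ^ (1 / (t : ℝ))) w := fun w hw =>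
      ⟨1, w, by simp, le_rfl, hG1, fun p hp hd => absurd (Nat.dvd_one.1 hd) hp.one_lt.ne', hw⟩
    constructor
    · rintro ⟨a, b, ⟨c1, c2, c3⟩, _, _, d⟩
      exact ⟨a, c1, b, c2, c3, d⟩
    · rintro ⟨a, c1, b, c2, c3, d⟩
      exact ⟨a, b, ⟨c1, c2, c3⟩, hN _ c1, hN _ c2, d⟩
  have h1 := h X hX0 S T' u v
    { TS := by
        rw [hS, hT']
        exact insert_subset_insert _ (insert_subset_insert _ Y.TQ)
      deg := by
        intro f hf
        rw [hS, mem_insert, mem_insert] at hf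
        rcases hf with rfl | rfl | hf
        · exact Y.du.ge
        · exact Y.dv.ge
        · exact Y.deg f hf
      sum := by
        rw [hS]
        have e1 := sum_insert_le' (f := fun g : ℤ[X] => g.natDegree) u (insert v Q)
        have e2 := sum_insert_le' (f := fun g : ℤ[X] => g.natDegree) v Q
        have := Y.sum
        have := Y.du
        have := Y.dv
        omega
      lc := by
        intro f hf
        rw [hS, mem_insert, mem_insert] at hf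
        rcases hf with rfl | rfl | hf
        · exact hlcu
        · exact hlcv
        · exact Y.lc f hf
      size := by
        intro f hf
        rw [hS, mem_insert, mem_insert] at hf
        rcases hf with rfl | rfl | hf
        · exact size_lin Y.du Y.u1 Y.u0 hX1
        · exact size_lin Y.dv Y.v1 Y.v0 hX1
        · exact hsizeQ f hf
      loc := by
        intro p hp
        obtain ⟨x, hx⟩ := Y.loc p hp
        refine ⟨x, fun f hf hd => hx ?_⟩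
        rw [← hdvd T p hp]
        rw [hT'] at hf
        exact hd.trans (dvd_prod_of_mem _ hf)
      uT := by rw [hT']; exact mem_insert_self _ _
      vT := by rw [hT']; exact mem_insert_of_mem (mem_insert_self _ _)
      du := Y.du
      dv := Y.dv
      det := Y.det }
  rw [hV] at h1
  simp only [hGG] at h1
  exact h1

end Pool.Agent.X32.Uni
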